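import Pool.Agent.Q207.HM.Pkg
import Pool.Agent.Y123.GN.E7

/-!
# The subtorsors which contain the periods of sums of hypergeometric motives
-/

set_option autoImplicit false

open Matrix Module

namespace Q207.HM

open Pool.Agent.Y123.GN (Clf Spf GB Rl Rl_of DCC DC0 DCX exists_W' bot_fin)
open Pool.Agent.Y113 (finrank_pow_le DC)
open Pool.Agent.Y123.ST (fl)
open Pool.Agent.TH127.PT (IsSubtorsor)

section transpose

variable {M : Type} [Fintype M] [DecidableEq M] {K : Subfield ℂ} {T : Set (Matrix M M ℂ)}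

/-- the transposed subtorsor -/
lemma sub_transpose (hT : IsSubtorsor K T) : IsSubtorsor K {x : Matrix M M ℂ | xᵀ ∈ T} := by
  obtain ⟨h1, h2, I, hI, h3⟩ := hT
  have hu : ∀ x : Matrix M M ℂ, IsUnit xᵀ ↔ IsUnit x := fun x => by
    rw [Matrix.isUnit_iff_isUnit_det, Matrix.det_transpose, ← Matrix.isUnit_iff_isUnit_det]
  refine ⟨fun x hx => (hu x).1 (h1 _ hx), fun x hx y hy z hz => ?_, (MvPolynomial.rename (Prod.swap : M × M → M × M)) '' I, ?_, fun x => ?_⟩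
  · show (x * y⁻¹ * z)ᵀ ∈ T
    have e1 : (x * y⁻¹ * z)ᵀ = zᵀ * (yᵀ)⁻¹ * xᵀ := by
      rw [Matrix.transpose_mul, Matrix.transpose_mul, Matrix.transpose_nonsing_inv, Matrix.mul_assoc]
    rw [e1]
    exact h2 _ hz _ hy _ hx
  · rintro _ ⟨p, hp, rfl⟩ m
    by_cases hs : ∃ u : M × M →₀ ℕ, u.mapDomain Prod.swap = m
    · obtain ⟨u, rfl⟩ := hs
      rw [MvPolynomial.coeff_rename_mapDomain _ Prod.swap_injective]
      exact hI p hp u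
    · rw [MvPolynomial.coeff_rename_eq_zero]
      · exact K.zero_mem
      · intro u hu
        exact absurd ⟨u, hu⟩ hs
  · show xᵀ ∈ T ↔ _
    rw [h3, hu]
    refine and_congr_right fun _ => ?_
    constructor
    · rintro h _ ⟨p, hp, rfl⟩
      rw [MvPolynomial.eval_rename]
      exact h p hp
    · intro h p hp
      have h4 := h _ ⟨p, hp, rfl⟩
      rw [MvPolynomial.eval_rename] at h4
      exact h4

end transpose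

section total

variable {r₀ : ℕ} {J : Type} [Fintype J] [DecidableEq J] {ν : J → ℕ}

omit [Fintype J] in
lemma tmt_transpose (x : Matrix (Fin r₀) (Fin r₀) ℂ) (X : ∀ j, Matrix (Fin (ν j)) (Fin (ν j)) ℂ) :
    (tmt x X)ᵀ = tmt xᵀ fun j => (X j)ᵀ := by
  unfold tmt
  rw [fromBlocks_transpose, blockDiagonal'_transpose, transpose_zero, transpose_zero]

lemma tmt_det (x : Matrix (Fin r₀) (Fin r₀) ℂ) (X : ∀ j, Matrix (Fin (ν j)) (Fin (ν j)) ℂ) (h : IsUnit (tmt x X)) (j : J) :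
    (X j).det ≠ 0 := by
  have h1 : tmt x X * (tmt x X)⁻¹ = 1 := Matrix.mul_nonsing_inv _ ((Matrix.isUnit_iff_isUnit_det _).1 h)
  set U := (tmt x X)⁻¹ with hU
  have h2 : X j * Matrix.of (fun a b => U (Sum.inr ⟨j, a⟩) (Sum.inr ⟨j, b⟩)) = 1 := by
    ext a b
    have h3 : (tmt x X * U) (Sum.inr ⟨j, a⟩) (Sum.inr ⟨j, b⟩) =
        (1 : Matrix (Fin r₀ ⊕ Σ j, Fin (ν j)) (Fin r₀ ⊕ Σ j, Fin (ν j)) ℂ) (Sum.inr ⟨j, a⟩) (Sum.inr ⟨j, b⟩) := by rw [h1]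
    have h4 : (1 : Matrix (Fin r₀ ⊕ Σ j, Fin (ν j)) (Fin r₀ ⊕ Σ j, Fin (ν j)) ℂ) (Sum.inr ⟨j, a⟩) (Sum.inr ⟨j, b⟩) =
        (1 : Matrix (Fin (ν j)) (Fin (ν j)) ℂ) a b := by
      rw [Matrix.one_apply, Matrix.one_apply]
      by_cases hab : a = b
      · subst hab
        simp
      · simp [hab]
    rw [h4] at h3
    rw [← h3, Matrix.mul_apply, Matrix.mul_apply, Fintype.sum_sum_type, Fintype.sum_sigma]
    have h5 : ∀ c : Fin r₀, tmt x X (Sum.inr ⟨j, a⟩) (Sum.inl c) = 0 := fun c => rfl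
    have h6 : ∀ i (c : Fin (ν i)), tmt x X (Sum.inr ⟨j, a⟩) (Sum.inr ⟨i, c⟩) = blockDiagonal' X ⟨j, a⟩ ⟨i, c⟩ :=
      fun i c => rfl
    simp only [h5, h6, zero_mul, Finset.sum_const_zero, zero_add]
    rw [Finset.sum_eq_single j]
    · refine Finset.sum_congr rfl fun c _ => ?_
      rw [blockDiagonal'_apply_eq]
      rfl
    · intro i _ hi
      refine Finset.sum_eq_zero fun c _ => ?_
      rw [blockDiagonal'_apply_ne _ _ _ (Ne.symm hi), zero_mul]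
    · intro hi
      exact absurd (Finset.mem_univ j) hi
  intro h0
  have h7 := congrArg Matrix.det h2
  rw [Matrix.det_mul, h0, zero_mul, Matrix.det_one] at h7
  exact zero_ne_one h7

end total

section main

variable {k : ℕ} {r : Fin k → ℕ} {n : ∀ i, Fin (r i) → ℕ}

/-- the index set of the sum -/
abbrev Jn (r : Fin k → ℕ) : Type := Σ i : Fin k, Fin (r i)

/-- the sizes -/
abbrev νn (n : ∀ i, Fin (r i) → ℕ) (x : Jn r) : ℕ := n x.1 x.2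

/-- the conclusion at one tuple -/
def GoodT {r₀ : ℕ} (D : ℕ) (C₀ : Matrix (Fin r₀) (Fin r₀) ℂ) (α : ∀ i j, Fin (n i j) → ℚ)
    (Ω : ∀ i j, Matrix (Fin (n i j)) (Fin (n i j)) ℂ) (t : Fin k → ℕ) : Prop :=
  ∀ K : Subfield ℂ, FiniteDimensional ℚ K → finrank ℚ K ≤ D →
    ∀ T : Set (Matrix (Fin r₀ ⊕ Σ x : Jn r, Fin (νn n x)) (Fin r₀ ⊕ Σ x : Jn r, Fin (νn n x)) ℂ), IsSubtorsor K T →
      tmt (ν := νn n) C₀ (fun x => Yx (n x.1 x.2) (QA (α x.1 x.2)) (1 / (t x.1 : ℝ)) * Ω x.1 x.2) ∈ T →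
      ∀ g : ∀ i j, Matrix (Fin (n i j)) (Fin (n i j)) ℂ, (∀ i, g i ∈ TP (α i) (t i)) →
        tmt (ν := νn n) C₀ (fun x => g x.1 x.2 * Ω x.1 x.2) ∈ T

/-- the entries of the total matrix as polynomials -/
noncomputable def Phi {r₀ : ℕ} (C₀ : Matrix (Fin r₀) (Fin r₀) ℂ) (n : ∀ i, Fin (r i) → ℕ)
    (p : (Fin r₀ ⊕ Σ x : Jn r, Fin (νn n x)) × (Fin r₀ ⊕ Σ x : Jn r, Fin (νn n x))) : MvPolynomial (Vb n) ℂ :=
  (fromBlocks (C₀.map MvPolynomial.C) 0 0 (blockDiagonal' fun x : Jn r => Matrix.of fun a b =>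
    MvPolynomial.X (⟨x.1, some ⟨x.2, (a, b)⟩⟩ : Vb n)) :
    Matrix (Fin r₀ ⊕ Σ x : Jn r, Fin (νn n x)) (Fin r₀ ⊕ Σ x : Jn r, Fin (νn n x)) (MvPolynomial (Vb n) ℂ)) p.2 p.1

lemma Phi_DC {r₀ : ℕ} {W : Submodule ℚ ℂ} (h1 : (1 : ℂ) ∈ W) {C₀ : Matrix (Fin r₀) (Fin r₀) ℂ} (hc : ∀ a b, C₀ a b ∈ W) :
    ∀ b, DC 1 W (Phi C₀ n b) := by
  rintro ⟨a | ⟨i, a⟩, b | ⟨j, b⟩⟩
  · exact DCC (hc b a)
  · exact DC0
  · exact DC0
  · show DC 1 W ((blockDiagonal' fun x : Jn r => Matrix.of fun a b =>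
      MvPolynomial.X (⟨x.1, some ⟨x.2, (a, b)⟩⟩ : Vb n) : Matrix (Σ x : Jn r, Fin (νn n x)) (Σ x : Jn r, Fin (νn n x)) (MvPolynomial (Vb n) ℂ))
        ⟨j, b⟩ ⟨i, a⟩)
    by_cases h : j = i
    · subst h
      rw [blockDiagonal'_apply_eq]
      exact DCX h1 _
    · rw [blockDiagonal'_apply_ne _ _ _ h]
      exact DC0

lemma Phi_eval {r₀ : ℕ} (C₀ : Matrix (Fin r₀) (Fin r₀) ℂ) (l : Fin k → ℂ) (X : ∀ i j, Matrix (Fin (n i j)) (Fin (n i j)) ℂ)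
    (b : (Fin r₀ ⊕ Σ x : Jn r, Fin (νn n x)) × (Fin r₀ ⊕ Σ x : Jn r, Fin (νn n x))) :
    fl (tmt (ν := νn n) C₀ (fun x => X x.1 x.2))ᵀ b = MvPolynomial.aeval (pb l X) (Phi C₀ n b) := by
  obtain ⟨a | ⟨i, a⟩, b | ⟨j, b⟩⟩ := b
  · show C₀ b a = MvPolynomial.aeval (pb l X) (MvPolynomial.C (C₀ b a))
    rw [MvPolynomial.aeval_C]
    rfl
  · show (0 : ℂ) = MvPolynomial.aeval (pb l X) 0
    rw [map_zero]
  · show (0 : ℂ) = MvPolynomial.aeval (pb l X) 0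
    rw [map_zero]
  · show blockDiagonal' (fun x : Jn r => X x.1 x.2) ⟨j, b⟩ ⟨i, a⟩ =
      MvPolynomial.aeval (pb l X) ((blockDiagonal' fun x : Jn r => Matrix.of fun a b =>
      MvPolynomial.X (⟨x.1, some ⟨x.2, (a, b)⟩⟩ : Vb n) : Matrix (Σ x : Jn r, Fin (νn n x)) (Σ x : Jn r, Fin (νn n x)) (MvPolynomial (Vb n) ℂ))
        ⟨j, b⟩ ⟨i, a⟩)
    by_cases h : j = i
    · subst h
      rw [blockDiagonal'_apply_eq, blockDiagonal'_apply_eq, Matrix.of_apply, MvPolynomial.aeval_X]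
      rfl
    · rw [blockDiagonal'_apply_ne _ _ _ h, blockDiagonal'_apply_ne _ _ _ h, map_zero]

/-- **Few exceptional tuples.** -/
theorem tuplesT (k D r₀ : ℕ) (r : Fin k → ℕ) (n : ∀ i, Fin (r i) → ℕ) (α : ∀ i j, Fin (n i j) → ℚ)
    (hα : ∀ i j l, ∀ a : ℤ, α i j l ≠ a) (hn : ∀ i j, 2 ≤ n i j)
    (had : ∀ i j, (cls (α i j) = cls fun l => -α i j l) ∨ ∀ a : ℤ, 2 * ∑ l, α i j l ≠ a) :
    ∃ c C : ℝ, 0 < c ∧ 0 ≤ C ∧ ∀ (C₀ : Matrix (Fin r₀) (Fin r₀) ℂ) (Ω : ∀ i j, Matrix (Fin (n i j)) (Fin (n i j)) ℂ),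
      ∀ (x : Fin k → ℕ) (N : ℕ), (∀ i, 1 ≤ x i) → 1 ≤ N →
      ∀ S : Finset (Fin k → ℕ), (∀ t ∈ S, (∀ i, x i < t i ∧ t i ≤ x i + N) ∧ ¬ GoodT D C₀ α Ω t) →
      (S.card : ℝ) ≤ C * (N : ℝ) ^ (k - 1) * ∑ i, (1 + N / ((x i : ℝ) + N) ^ c) := by
  classical
  obtain ⟨dd, hdd⟩ := stab_abs (Fintype.card (Fin r₀ ⊕ Σ x : Jn r, Fin (νn n x))) D
  obtain ⟨c, C, hc, hC, hmain⟩ := tuplesQ k dd ((1 + r₀ * r₀ + 1) ^ (dd + 1)) r n α hα hn had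
  choose r' m B q d P P' hB hP1 hP2 hA hT using fun i => pkg (hα i) (hn i) (had i)
  refine ⟨c, C, hc, hC, ?_⟩
  intro C₀ Ω x N hx hN S hS
  obtain ⟨hbf, hb1⟩ := bot_fin
  obtain ⟨W, hW1, hW2, hKW, hW3⟩ := exists_W' (⊥ : Subfield ℂ) (fun b : Fin r₀ × Fin r₀ => C₀ b.1 b.2)
  obtain ⟨hp1, hp2⟩ := finrank_pow_le W (dd + 1)
  have hWD : Module.finrank ℚ W ≤ 1 + r₀ * r₀ + 1 := by
    refine hW2.trans ?_
    rw [Fintype.card_prod, Fintype.card_fin]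
    omega
  have h1W : (1 : ℂ) ∈ W := hKW 1 (⊥ : Subfield ℂ).one_mem
  refine hmain (W ^ (dd + 1)) (hp2.trans (Nat.pow_le_pow_left hWD _)) Ω x N hx hN S fun t ht => ?_
  obtain ⟨hbox, hnot⟩ := hS t ht
  refine ⟨hbox, ?_⟩
  by_contra hcon
  apply hnot
  have ht2 : ∀ i, 2 ≤ t i := fun i => by
    have := (hbox i).1
    have := hx i
    omega
  intro K hKf hKD T hTs hcT g hg
  have hdet := fun x : Jn r => tmt_det C₀ _ (hTs.isUnit _ hcT) x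
  have hΩ : ∀ x : Jn r, (Ω x.1 x.2).det ≠ 0 := fun x => by
    have h1 := hdet x
    rw [Matrix.det_mul] at h1
    exact right_ne_zero_of_mul h1
  have hΩ1 : ∀ x : Jn r, Ω x.1 x.2 * (Ω x.1 x.2)⁻¹ = 1 := fun x => Matrix.mul_nonsing_inv _ (Ne.isUnit (hΩ x))
  have hΩ2 : ∀ x : Jn r, (Ω x.1 x.2)⁻¹ * Ω x.1 x.2 = 1 := fun x => Matrix.nonsing_inv_mul _ (Ne.isUnit (hΩ x))
  -- the embedding
  set A : Type := Σ i : Fin k, Fin (r' i) with hAd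
  set μ : A → ℕ := fun a => m a.1 a.2 with hμ
  set qq : Jn r → A := fun x => ⟨x.1, q x.1 x.2⟩ with hqq
  let E : Emb (νn n) μ qq :=
    { d := fun x => d x.1 x.2
      R := fun x => (Ω x.1 x.2)ᵀ * (P' x.1 x.2)ᵀ
      R' := fun x => (P x.1 x.2)ᵀ * ((Ω x.1 x.2)⁻¹)ᵀ
      h1 := fun x => by
        have e1 : (P' x.1 x.2)ᵀ * (P x.1 x.2)ᵀ = 1 := by rw [← Matrix.transpose_mul, hP1, Matrix.transpose_one]
        have e2 : (Ω x.1 x.2)ᵀ * ((Ω x.1 x.2)⁻¹)ᵀ = 1 := by rw [← Matrix.transpose_mul, hΩ2, Matrix.transpose_one]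
        calc (Ω x.1 x.2)ᵀ * (P' x.1 x.2)ᵀ * ((P x.1 x.2)ᵀ * ((Ω x.1 x.2)⁻¹)ᵀ) =
              (Ω x.1 x.2)ᵀ * ((P' x.1 x.2)ᵀ * (P x.1 x.2)ᵀ) * ((Ω x.1 x.2)⁻¹)ᵀ := by simp only [Matrix.mul_assoc]
          _ = 1 := by rw [e1, Matrix.mul_one, e2]
      h2 := fun x => by
        have e1 : (P x.1 x.2)ᵀ * (P' x.1 x.2)ᵀ = 1 := by rw [← Matrix.transpose_mul, hP2, Matrix.transpose_one]
        have e2 : ((Ω x.1 x.2)⁻¹)ᵀ * (Ω x.1 x.2)ᵀ = 1 := by rw [← Matrix.transpose_mul, hΩ1, Matrix.transpose_one]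
        calc (P x.1 x.2)ᵀ * ((Ω x.1 x.2)⁻¹)ᵀ * ((Ω x.1 x.2)ᵀ * (P' x.1 x.2)ᵀ) =
              (P x.1 x.2)ᵀ * (((Ω x.1 x.2)⁻¹)ᵀ * (Ω x.1 x.2)ᵀ) * (P' x.1 x.2)ᵀ := by simp only [Matrix.mul_assoc]
          _ = 1 := by rw [e2, Matrix.mul_one, e1] }
  -- the action
  have hact : ∀ (v : ∀ a : A, (Matrix (Fin (μ a)) (Fin (μ a)) ℂ)ˣ),
      (FF r₀ E v).val * (tmt (ν := νn n) C₀ (fun x => Yx (n x.1 x.2) (QA (α x.1 x.2)) (1 / (t x.1 : ℝ)) * Ω x.1 x.2))ᵀ =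
        (tmt (ν := νn n) C₀ (fun x => Yx (n x.1 x.2) (QA (α x.1 x.2)) (1 / (t x.1 : ℝ)) *
          lk (d x.1 x.2) (P x.1 x.2) (P' x.1 x.2) ((v (qq x) : Matrix (Fin (μ (qq x))) (Fin (μ (qq x))) ℂ)ᵀ) * Ω x.1 x.2))ᵀ := by
    intro v
    rw [FF_val, tmt_transpose, tmt_transpose, tmt_mul, Matrix.one_mul]
    congr 1
    funext x
    have e2 : ((Ω x.1 x.2)⁻¹)ᵀ * (Ω x.1 x.2)ᵀ = 1 := by rw [← Matrix.transpose_mul, hΩ1, Matrix.transpose_one]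
    show (Ω x.1 x.2)ᵀ * (P' x.1 x.2)ᵀ * (if d x.1 x.2 then ((v (qq x)).val⁻¹)ᵀ else (v (qq x)).val) * ((P x.1 x.2)ᵀ * ((Ω x.1 x.2)⁻¹)ᵀ) *
      (Yx (n x.1 x.2) (QA (α x.1 x.2)) (1 / (t x.1 : ℝ)) * Ω x.1 x.2)ᵀ =
      (Yx (n x.1 x.2) (QA (α x.1 x.2)) (1 / (t x.1 : ℝ)) * (P x.1 x.2 * (if d x.1 x.2 then (((v (qq x)).valᵀ)⁻¹)ᵀ else (v (qq x)).valᵀ) *
        P' x.1 x.2) * Ω x.1 x.2)ᵀ
    have e3 : (if d x.1 x.2 then (((v (qq x)).valᵀ)⁻¹)ᵀ else (v (qq x)).valᵀ)ᵀ = if d x.1 x.2 then ((v (qq x)).val⁻¹)ᵀ else (v (qq x)).val := by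
      split_ifs
      · rw [Matrix.transpose_transpose, Matrix.transpose_nonsing_inv]
      · rw [Matrix.transpose_transpose]
    rw [Matrix.transpose_mul _ (Ω x.1 x.2), Matrix.transpose_mul _ (Ω x.1 x.2), Matrix.transpose_mul (Yx _ _ _), Matrix.transpose_mul _ (P' x.1 x.2),
      Matrix.transpose_mul (P x.1 x.2), e3]
    calc _ = (Ω x.1 x.2)ᵀ * (P' x.1 x.2)ᵀ * (if d x.1 x.2 then ((v (qq x)).val⁻¹)ᵀ else (v (qq x)).val) * (P x.1 x.2)ᵀ *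
          (((Ω x.1 x.2)⁻¹)ᵀ * (Ω x.1 x.2)ᵀ) * (Yx (n x.1 x.2) (QA (α x.1 x.2)) (1 / (t x.1 : ℝ)))ᵀ := by simp only [Matrix.mul_assoc]
      _ = _ := by
        rw [e2, Matrix.mul_one]
        simp only [Matrix.mul_assoc]
  have hGB : ∀ (v : ∀ a : A, (Matrix (Fin (μ a)) (Fin (μ a)) ℂ)ˣ), (∀ a, v a ∈ GB (B a.1 a.2)) → ∀ i a,
      ((v ⟨i, a⟩ : Matrix (Fin (m i a)) (Fin (m i a)) ℂ)ᵀ).det = 1 ∧
        (((v ⟨i, a⟩ : Matrix (Fin (m i a)) (Fin (m i a)) ℂ)ᵀ))ᵀ * B i a * ((v ⟨i, a⟩ : Matrix (Fin (m i a)) (Fin (m i a)) ℂ)ᵀ) = B i a := by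
    intro v hv i a
    obtain ⟨h1, h2⟩ := hv ⟨i, a⟩
    rw [Matrix.det_transpose, Matrix.transpose_transpose]
    exact ⟨h1, h2⟩
  have hrel : ∀ v : (∀ a : A, (Matrix (Fin (μ a)) (Fin (μ a)) ℂ)ˣ), (∀ a, v a ∈ GB (B a.1 a.2)) →
      Rl ⊥ dd (tmt (ν := νn n) C₀ (fun x => Yx (n x.1 x.2) (QA (α x.1 x.2)) (1 / (t x.1 : ℝ)) * Ω x.1 x.2))ᵀ
        ((FF r₀ E v).val * (tmt (ν := νn n) C₀ (fun x => Yx (n x.1 x.2) (QA (α x.1 x.2)) (1 / (t x.1 : ℝ)) * Ω x.1 x.2))ᵀ) := by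
    intro v hv
    rw [hact]
    set l : Fin k → ℂ := fun i => ((Real.log (t i) : ℝ) : ℂ) with hl
    refine Rl_of hKW (Phi_DC (n := n) h1W fun a b => hW3 (a, b))
      (y := pb l fun i j => Yx (n i j) (QA (α i j)) (1 / (t i : ℝ)) * Ω i j)
      (y' := pb l fun i j => Yx (n i j) (QA (α i j)) (1 / (t i : ℝ)) * lk (d i j) (P i j) (P' i j)
        ((v ⟨i, q i j⟩ : Matrix (Fin (m i (q i j))) (Fin (m i (q i j))) ℂ)ᵀ) * Ω i j) ?_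
      (fun b => Phi_eval (n := n) C₀ l (fun i j => Yx (n i j) (QA (α i j)) (1 / (t i : ℝ)) * Ω i j) b)
      (fun b => Phi_eval (n := n) C₀ l (fun i j => Yx (n i j) (QA (α i j)) (1 / (t i : ℝ)) * lk (d i j) (P i j) (P' i j)
        ((v ⟨i, q i j⟩ : Matrix (Fin (m i (q i j))) (Fin (m i (q i j))) ℂ)ᵀ) * Ω i j) b)
    intro F hFd hFV hF0
    by_contra hne
    have hYt : (fun i j => Pool.Agent.Y119.HZ.Yt (n i j) (QA (α i j)) (t i) * Ω i j) =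
        fun i j => Yx (n i j) (QA (α i j)) (1 / (t i : ℝ)) * Ω i j := by
      funext i j
      have h1 : Complex.log (((1 / (t i : ℝ) : ℝ)) : ℂ) = -((Real.log (t i) : ℝ) : ℂ) := by
        rw [← Complex.ofReal_log (by positivity), one_div, Real.log_inv]
        push_cast
        rfl
      unfold Pool.Agent.Y119.HZ.Yt Yx Pool.Agent.Y119.HY.Yf
      rw [h1]
    have hTP : ∀ i, (fun j => Yx (n i j) (QA (α i j)) (1 / (t i : ℝ)) * lk (d i j) (P i j) (P' i j)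
        ((v ⟨i, q i j⟩ : Matrix (Fin (m i (q i j))) (Fin (m i (q i j))) ℂ)ᵀ)) ∈ TP (α i) (t i) := fun i =>
      hA i (fun a => (v ⟨i, a⟩ : Matrix (Fin (m i a)) (Fin (m i a)) ℂ)ᵀ) (hGB v hv i) (t i) (ht2 i)
    refine hcon ⟨F, hFd, hFV, ?_, l, fun i => Complex.log (1 - 1 / (t i : ℂ)), fun i j => Yx (n i j) (QA (α i j)) (1 / (t i : ℝ)) *
      lk (d i j) (P i j) (P' i j) ((v ⟨i, q i j⟩ : Matrix (Fin (m i (q i j))) (Fin (m i (q i j))) ℂ)ᵀ), fun i => ?_,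
      fun i j => (hTP i).2 j, fun i => (hTP i).1, hne⟩
    · rw [hYt]
      exact hF0
    · obtain ⟨ht0, ht1⟩ := tpos (ht2 i)
      rw [Complex.exp_log]
      have e4 : (1 - 1 / (t i : ℂ)) = (((1 - 1 / (t i : ℝ) : ℝ)) : ℂ) := by push_cast; rfl
      rw [e4, Ne, Complex.ofReal_eq_zero]
      linarith
  have hstab := hdd r₀ (Jn r) A (νn n) μ qq E (fun a => B a.1 a.2) (fun a => hB a.1 a.2) le_rfl _ hrel K hKf hKD _ (sub_transpose hTs)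
    (by
      show (tmt (ν := νn n) C₀ (fun x => Yx (n x.1 x.2) (QA (α x.1 x.2)) (1 / (t x.1 : ℝ)) * Ω x.1 x.2))ᵀᵀ ∈ T
      rw [Matrix.transpose_transpose]
      exact hcT)
  -- the point
  choose κ hκ hgκ using fun i => hT i (t i) (ht2 i) (g i) (hg i)
  have hκu : ∀ a : A, IsUnit ((κ a.1 a.2)ᵀ).det := fun a => by
    rw [Matrix.det_transpose, (hκ a.1 a.2).1]
    exact isUnit_one
  set v : ∀ a : A, (Matrix (Fin (μ a)) (Fin (μ a)) ℂ)ˣ := fun a => Matrix.nonsingInvUnit ((κ a.1 a.2)ᵀ) (hκu a) with hv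
  have hvv : ∀ a, ((v a : (Matrix (Fin (μ a)) (Fin (μ a)) ℂ)ˣ) : Matrix (Fin (μ a)) (Fin (μ a)) ℂ) = (κ a.1 a.2)ᵀ := fun a => rfl
  have h5 := hstab v fun a => by
    refine ⟨?_, ?_⟩
    · rw [hvv, Matrix.det_transpose]
      exact (hκ a.1 a.2).1
    · rw [hvv, Matrix.transpose_transpose]
      exact (hκ a.1 a.2).2
  rw [hact] at h5
  have h6 : tmt (ν := νn n) C₀ (fun x => Yx (n x.1 x.2) (QA (α x.1 x.2)) (1 / (t x.1 : ℝ)) *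
      lk (d x.1 x.2) (P x.1 x.2) (P' x.1 x.2) ((v (qq x) : Matrix (Fin (μ (qq x))) (Fin (μ (qq x))) ℂ)ᵀ) * Ω x.1 x.2) ∈ T := by
    have h7 : (tmt (ν := νn n) C₀ (fun x => Yx (n x.1 x.2) (QA (α x.1 x.2)) (1 / (t x.1 : ℝ)) *
      lk (d x.1 x.2) (P x.1 x.2) (P' x.1 x.2) ((v (qq x) : Matrix (Fin (μ (qq x))) (Fin (μ (qq x))) ℂ)ᵀ) * Ω x.1 x.2))ᵀᵀ ∈ T := h5
    rwa [Matrix.transpose_transpose] at h7
  have h8 : (fun x : Jn r => Yx (n x.1 x.2) (QA (α x.1 x.2)) (1 / (t x.1 : ℝ)) *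
      lk (d x.1 x.2) (P x.1 x.2) (P' x.1 x.2) ((v (qq x) : Matrix (Fin (μ (qq x))) (Fin (μ (qq x))) ℂ)ᵀ) * Ω x.1 x.2) =
      fun x : Jn r => g x.1 x.2 * Ω x.1 x.2 := by
    funext x
    rw [hvv, Matrix.transpose_transpose, hgκ]
  rw [h8] at h6
  exact h6

end main

end Q207.HM
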