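import Pool.Agent.Q207.HM.Stb

/-!
# The group of one fibre
-/

set_option autoImplicit false

open Matrix

namespace Q207.HM

open Pool.Agent.Y119.HY (Am cm)
open Pool.Agent.Y123.GN (Clf Spf GB)

lemma lk_det {m n : ℕ} {d : Bool} {R : Matrix (Fin n) (Fin m) ℂ} {R' : Matrix (Fin m) (Fin n) ℂ} (h1 : R * R' = 1) (h2 : R' * R = 1)
    {κ : Matrix (Fin m) (Fin m) ℂ} (hκ : κ.det = 1) : (lk d R R' κ).det = 1 := by
  unfold lk
  rw [Matrix.det_conj_of_mul_eq_one h1 h2]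
  split_ifs
  · rw [Matrix.det_transpose, Matrix.det_nonsing_inv, hκ, Ring.inverse_one]
  · exact hκ

/-- the form of a block -/
noncomputable def fB {n : ℕ} (b : Blk n) : Matrix (Fin n) (Fin n) ℂ := if b.k = Ki.l then 0 else b.J

lemma fB_clf {n : ℕ} {b : Blk n} (hb : BlkOK b) : Clf (fB b) := by
  unfold fB
  rcases hk : b.k with _ | _ | _
  · rw [if_pos rfl]
    exact Or.inl rfl
  · rw [if_neg (by decide)]
    obtain ⟨-, -, hJ, hd, -, -, -, h8⟩ := hb.o hk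
    exact Or.inr (Or.inr ⟨(Matrix.isUnit_iff_isUnit_det _).2 (Ne.isUnit hd), hJ, by omega⟩)
  · rw [if_neg (by decide)]
    obtain ⟨hJ, hd, -, -⟩ := hb.s hk
    exact Or.inr (Or.inl ⟨(Matrix.isUnit_iff_isUnit_det _).2 (Ne.isUnit hd), hJ⟩)

lemma fB_SG {n : ℕ} {b : Blk n} {κ : Matrix (Fin n) (Fin n) ℂ} (h1 : κ.det = 1) (h2 : κᵀ * fB b * κ = fB b) : SG b κ := by
  unfold fB at h2
  refine ⟨fun _ => h1, fun hk => ⟨?_, h1⟩, fun hk => ?_⟩
  · rw [hk, if_neg (by decide)] at h2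
    exact h2
  · rw [hk, if_neg (by decide)] at h2
    exact h2

lemma SG_fB {n : ℕ} {b : Blk n} (hb : BlkOK b) {κ : Matrix (Fin n) (Fin n) ℂ} (h : SG b κ) : κ.det = 1 ∧ κᵀ * fB b * κ = fB b := by
  obtain ⟨h1, h2, h3⟩ := h
  unfold fB
  rcases hk : b.k with _ | _ | _
  · rw [if_pos rfl]
    exact ⟨h1 hk, by rw [Matrix.mul_zero, Matrix.zero_mul]⟩
  · rw [if_neg (by decide)]
    exact ⟨(h2 hk).2, (h2 hk).1⟩
  · rw [if_neg (by decide)]
    refine ⟨?_, h3 hk⟩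
    obtain ⟨hJ, hd, -, -⟩ := hb.s hk
    have hS : Spf b.J := ⟨(Matrix.isUnit_iff_isUnit_det _).2 (Ne.isUnit hd), hJ⟩
    rw [← Matrix.det_transpose]
    refine Pool.Agent.Y123.GN.sp_det1 hS ?_
    rw [Matrix.transpose_transpose]
    exact h3 hk

section

variable {r : ℕ} {n : Fin r → ℕ}

/-- the algebraic set with the principal branch of the determinants -/
def TP (α : ∀ j, Fin (n j) → ℚ) (t : ℕ) : Set (∀ j, Matrix (Fin (n j)) (Fin (n j)) ℂ) :=
  {g | QuadT α t g ∧ ∀ j, (g j).det = Complex.exp (-((∑ i, α j i : ℚ) : ℂ) * Complex.log (1 - 1 / (t : ℂ)))}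

/-- the substitution -/
noncomputable def toV (R : MvPolynomial (Σ j : Fin r, Fin (n j) × Fin (n j)) (Polynomial ℚ)) :
    MvPolynomial (Pool.Agent.Y119.HY.Vr (sz n)) ℂ :=
  MvPolynomial.eval₂ (Polynomial.aeval (MvPolynomial.X none : MvPolynomial (Pool.Agent.Y119.HY.Vr (sz n)) ℂ) :
    Polynomial ℚ →ₐ[ℚ] MvPolynomial (Pool.Agent.Y119.HY.Vr (sz n)) ℂ).toRingHom
    (fun p => MvPolynomial.X (some (some (finSigmaFinEquiv (⟨p.1, p.2.1⟩ : Σ j, Fin (n j)), finSigmaFinEquiv (⟨p.1, p.2.2⟩ : Σ j, Fin (n j)))))) R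

lemma eval_toV (R : MvPolynomial (Σ j : Fin r, Fin (n j) × Fin (n j)) (Polynomial ℚ)) (z ℓ : ℂ) (g : Bl n ℂ) :
    MvPolynomial.eval (Pool.Agent.Y119.HY.pt z ℓ (BD g)) (toV R) = valQ R z g := by
  unfold toV valQ
  rw [MvPolynomial.hom_eval₂]
  have e1 : (MvPolynomial.eval (Pool.Agent.Y119.HY.pt z ℓ (BD g))).comp (Polynomial.aeval (MvPolynomial.X none :
      MvPolynomial (Pool.Agent.Y119.HY.Vr (sz n)) ℂ) : Polynomial ℚ →ₐ[ℚ] MvPolynomial (Pool.Agent.Y119.HY.Vr (sz n)) ℂ).toRingHom =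
      Pool.Agent.Y119.HZ.evq z := by
    refine RingHom.ext fun p => ?_
    rw [RingHom.comp_apply]
    unfold Pool.Agent.Y119.HZ.evq
    simp only [AlgHom.toRingHom_eq_coe, RingHom.coe_coe]
    induction p using Polynomial.induction_on' with
    | add p q hp hq => rw [map_add, map_add, map_add, hp, hq]
    | monomial k a =>
      rw [Polynomial.aeval_monomial, Polynomial.aeval_monomial, map_mul, map_pow, MvPolynomial.eval_X]
      congr 1
      have h1 : (algebraMap ℚ (MvPolynomial (Pool.Agent.Y119.HY.Vr (sz n)) ℂ)) a = MvPolynomial.C ((algebraMap ℚ ℂ) a) := rfl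
      rw [h1, MvPolynomial.eval_C]
  rw [e1]
  congr 1
  funext p
  rw [MvPolynomial.eval_X]
  exact BD_eq g p.1 p.2.1 p.2.2

/-- **The group of one fibre.** -/
theorem pkg {α : ∀ j, Fin (n j) → ℚ} (hα : ∀ j i, ∀ a : ℤ, α j i ≠ a) (hn : ∀ j, 2 ≤ n j)
    (had : ∀ j, (cls (α j) = cls fun i => -α j i) ∨ ∀ a : ℤ, 2 * ∑ i, α j i ≠ a) :
    ∃ (r' : ℕ) (m : Fin r' → ℕ) (B : ∀ a, Matrix (Fin (m a)) (Fin (m a)) ℂ) (q : Fin r → Fin r') (d : Fin r → Bool)
      (P : ∀ j, Matrix (Fin (n j)) (Fin (m (q j))) ℂ) (P' : ∀ j, Matrix (Fin (m (q j))) (Fin (n j)) ℂ),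
      (∀ a, Clf (B a)) ∧ (∀ j, P j * P' j = 1) ∧ (∀ j, P' j * P j = 1) ∧
      (∀ κ : ∀ a, Matrix (Fin (m a)) (Fin (m a)) ℂ, (∀ a, (κ a).det = 1 ∧ (κ a)ᵀ * B a * κ a = B a) → ∀ t : ℕ, 2 ≤ t →
        (fun j => Yx (n j) (QA (α j)) (1 / (t : ℝ)) * lk (d j) (P j) (P' j) (κ (q j))) ∈ TP α t) ∧
      ∀ t : ℕ, 2 ≤ t → ∀ g ∈ TP α t, ∃ κ : ∀ a, Matrix (Fin (m a)) (Fin (m a)) ℂ, (∀ a, (κ a).det = 1 ∧ (κ a)ᵀ * B a * κ a = B a) ∧
        ∀ j, g j = Yx (n j) (QA (α j)) (1 / (t : ℝ)) * lk (d j) (P j) (P' j) (κ (q j)) := by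
  classical
  set s := relSetoid α with hs
  let : DecidableRel s.r := Classical.decRel _
  let : Fintype (Quotient s) := Fintype.ofFinite _
  set ε := Fintype.equivFin (Quotient s) with hε
  set e : Fin (Fintype.card (Quotient s)) → Fin r := fun a => (ε.symm a).out with he
  set q : Fin r → Fin (Fintype.card (Quotient s)) := fun j => ε (Quotient.mk s j) with hq
  have hlk : ∀ j, cls (α (e (q j))) = cls (α j) ∨ cls (α (e (q j))) = cls fun i => -α j i := by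
    intro j
    have h1 : (Quotient.mk s (e (q j))) = Quotient.mk s j := by
      rw [he, hq]
      simp only [Equiv.symm_apply_apply]
      exact Quotient.out_eq _
    exact Quotient.exact h1
  have hnl : ∀ a a', a ≠ a' → ¬ (cls (α (e a)) = cls (α (e a')) ∨ cls (α (e a)) = cls fun i => -α (e a') i) := by
    intro a a' haa h1
    apply haa
    have h2 : Quotient.mk s (e a) = Quotient.mk s (e a') := Quotient.sound h1
    rw [he] at h2
    simp only [Quotient.out_eq] at h2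
    exact ε.symm.injective h2
  have hex : ∀ a, ∃ (h : HB (n (e a))) (α' : Fin (n (e a)) → ℚ), ExB h α' ∧ cls α' = cls (α (e a)) := by
    intro a
    rcases had (e a) with h1 | h1
    · obtain ⟨h, α', h2, h3, -⟩ := exb_sym (hn (e a)) (hα (e a)) h1
      exact ⟨h, α', h2, h3⟩
    · obtain ⟨h, h2⟩ := exb_l (hn (e a)) (hα (e a)) h1
      exact ⟨h, α (e a), h2, rfl⟩
  choose h' α' hx hcl using hex
  have hgau : ∀ a, ∃ (G : ℝ → Matrix (Fin (n (e a))) (Fin (n (e a))) ℂ) (c : Matrix (Fin (n (e a))) (Fin (n (e a))) ℚ),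
      Gau (α (e a)) (h' a) G c := by
    intro a
    obtain ⟨G, c, h1, h2, h3, h4, h5⟩ := LE.of_cls (hn (e a)) (hx a).ni (hα (e a)) (hcl a)
    exact ⟨G, c, h1, h2, h3, h4, fun x hx0 hx1 => by rw [(hx a).q]; exact h5 x hx0 hx1⟩
  choose G c hg using hgau
  choose b hb using fun a => blk_exists (hx a).ok
  obtain ⟨d, P, P', h1, h2, h3, h4⟩ := gal_full e q hα hx hcl hg hb (fun a a' haa => (hx a).neq (hx a') (hb a) (hb a')
    (fun h1 => by
      rw [hcl, hcl] at h1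
      exact hnl a a' haa (Or.inl h1))
    (fun h1 => by
      rw [hcl, cls_neg (hcl a')] at h1
      exact hnl a a' haa (Or.inr h1))) hlk
  refine ⟨Fintype.card (Quotient s), fun a => n (e a), fun a => fB (b a), q, d, P, P', fun a => fB_clf (hb a).1, h1, h2,
    fun κ hκ t ht => ⟨fun R hR hR0 => ?_, fun j => ?_⟩, fun t ht g hg => ?_⟩
  · obtain ⟨ht0, ht1⟩ := tpos ht
    have h5 := h3 κ (fun a => fB_SG (hκ a).1 (hκ a).2) (toV R) (fun x hx0 hx1 => by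
      rw [eval_toV]
      exact hR0 x hx0 hx1) _ ht0 ht1
    rw [eval_toV] at h5
    exact h5
  · obtain ⟨ht0, ht1⟩ := tpos ht
    rw [Matrix.det_mul, lk_det (h1 j) (h2 j) (hκ (q j)).1, mul_one,
      det_Yt (QG_QA (hn j) fun l a h0 => hα j l a h0.symm) ht, QA_coeff (by have := hn j; omega) (α j)]
  · obtain ⟨hq1, hq2⟩ := hg
    obtain ⟨κ, hκ, hgκ⟩ := h4 t ht g (fun j j' => hq1.lin j j') (fun j j' => hq1.bil j j') hq2
    exact ⟨κ, fun a => SG_fB (hb a).1 (hκ a), hgκ⟩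

end

end Q207.HM
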