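import Pool.Agent.Q207.HM.Jto

/-!
# The theorem on tuples for several hypergeometric motives over every point
-/

set_option autoImplicit false

open PowerSeries Pool.Agent.Y113

namespace Q207.HM

open Pool.Agent.Y119.HZ (Hp Yt Jx pw)

variable {k : ℕ} {r : Fin k → ℕ} {n : ∀ i, Fin (r i) → ℕ}

/-- the coordinates -/
abbrev Vb {k : ℕ} {r : Fin k → ℕ} (n : ∀ i, Fin (r i) → ℕ) : Type :=
  Σ i : Fin k, Option (Σ j : Fin (r i), Fin (n i j) × Fin (n i j))

/-- the point given by numbers and matrices -/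
def pb (l : Fin k → ℂ) (X : ∀ i j, Matrix (Fin (n i j)) (Fin (n i j)) ℂ) : Vb n → ℂ
  | ⟨i, none⟩ => l i
  | ⟨i, some ⟨j, p⟩⟩ => X i j p.1 p.2

/-- the inclusion of the coordinates -/
def ib : Vb n → Jx fun i => sz (n i)
  | ⟨i, none⟩ => ⟨i, none⟩
  | ⟨i, some ⟨j, p⟩⟩ => ⟨i, some (finSigmaFinEquiv ⟨j, p.1⟩, finSigmaFinEquiv ⟨j, p.2⟩)⟩

lemma ib_inj : Function.Injective (ib (n := n)) := by
  rintro ⟨i, _ | ⟨j, a, b⟩⟩ ⟨i', _ | ⟨j', a', b'⟩⟩ h
  · have h1 : i = i' := congrArg Sigma.fst h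
    subst h1
    rfl
  · have h1 : i = i' := congrArg Sigma.fst h
    subst h1
    have h2 := eq_of_heq (Sigma.mk.inj h).2
    exact absurd h2 (by simp)
  · have h1 : i = i' := congrArg Sigma.fst h
    subst h1
    have h2 := eq_of_heq (Sigma.mk.inj h).2
    exact absurd h2 (by simp)
  · have h1 : i = i' := congrArg Sigma.fst h
    subst h1
    have h2 := eq_of_heq (Sigma.mk.inj h).2
    have h3 := Option.some.inj h2
    have h4 := finSigmaFinEquiv.injective (congrArg Prod.fst h3)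
    have h5 := finSigmaFinEquiv.injective (congrArg Prod.snd h3)
    have h6 : j = j' := congrArg Sigma.fst h4
    subst h6
    have h7 := eq_of_heq (Sigma.mk.inj h4).2
    have h8 := eq_of_heq (Sigma.mk.inj h5).2
    subst h7
    subst h8
    rfl

lemma pw_ib (l : Fin k → ℂ) (X : ∀ i j, Matrix (Fin (n i j)) (Fin (n i j)) ℂ) (v : Vb n) :
    pw l (fun i => BD (X i)) (ib v) = pb l X v := by
  obtain ⟨i, _ | ⟨j, a, b⟩⟩ := v
  · rfl
  · exact BD_eq (X i) j a b

lemma aeval_ib (l : Fin k → ℂ) (X : ∀ i j, Matrix (Fin (n i j)) (Fin (n i j)) ℂ) (P : MvPolynomial (Vb n) ℂ) :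
    MvPolynomial.aeval (pw l fun i => BD (X i)) (MvPolynomial.rename ib P) = MvPolynomial.aeval (pb l X) P := by
  rw [MvPolynomial.aeval_rename]
  congr 2
  funext v
  exact pw_ib l X v

/-- **Few exceptional tuples.** -/
theorem tuplesB (k δ D : ℕ) (r : Fin k → ℕ) (n : ∀ i, Fin (r i) → ℕ) (h : ∀ i j, HB (n i j)) (hh : ∀ i j, HBok (h i j))
    (hS : ∀ i j a b, SDc (Hp (n i j) (h i j).Q a b)) {b : ∀ i j, Blk (n i j)} (hb : ∀ i j, BlkOf (h i j) (b i j))
    (hne : ∀ i j j', j ≠ j' → Neq (b i j) (b i j')) :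
    ∃ c C : ℝ, 0 < c ∧ 0 ≤ C ∧ ∀ (V : Submodule ℚ ℂ) [Module.Finite ℚ V], Module.finrank ℚ V ≤ D →
      ∀ Ω : (∀ i j, Matrix (Fin (n i j)) (Fin (n i j)) ℂ), ∀ (x : Fin k → ℕ) (N : ℕ), (∀ i, 1 ≤ x i) → 1 ≤ N →
      ∀ S : Finset (Fin k → ℕ), (∀ t ∈ S, (∀ i, x i < t i ∧ t i ≤ x i + N) ∧ ∃ P : MvPolynomial (Vb n) ℂ,
        P.totalDegree ≤ δ ∧ (∀ s, P.coeff s ∈ V) ∧
        MvPolynomial.aeval (pb (fun i => ((Real.log (t i) : ℝ) : ℂ)) fun i j => Yt (n i j) (h i j).Q (t i) * Ω i j) P = 0 ∧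
        ∃ (l L : Fin k → ℂ) (g : ∀ i j, Matrix (Fin (n i j)) (Fin (n i j)) ℂ), (∀ i, Complex.exp (L i) = 1 - 1 / (t i : ℂ)) ∧
          (∀ i j, (h i j).cond (L i) (t i) (g i j)) ∧ MvPolynomial.aeval (pb l fun i j => g i j * Ω i j) P ≠ 0) →
      (S.card : ℝ) ≤ C * (N : ℝ) ^ (k - 1) * ∑ i, (1 + N / ((x i : ℝ) + N) ^ c) := by
  obtain ⟨c, C, hc, hC, hmain⟩ := tuplesS k δ D (fun i => sz (n i)) (fun i => jsys (h i)) (fun i => jsys_ok (hh i) (hS i))
    (fun i => jT (h i)) (fun i => jT_ok (hh i) (hb i) (hne i))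
  refine ⟨c, C, hc, hC, ?_⟩
  intro V _ hV Ω x N hx hN S hSt
  refine hmain V hV (fun i => BD (Ω i)) x N hx hN S fun t ht => ?_
  obtain ⟨hbox, P, hPd, hPV, hP0, l, L, g, hL, hg, hPg⟩ := hSt t ht
  have hY : (fun i => (jsys (h i)).Yt (t i) * BD (Ω i)) = fun i => BD fun j => Yt (n i j) (h i j).Q (t i) * Ω i j := by
    funext i
    rw [jsys_Yt, ← BD_mul]
  have hg' : (fun i => BD (g i) * BD (Ω i)) = fun i => BD fun j => g i j * Ω i j := by
    funext i
    rw [← BD_mul]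
  refine ⟨hbox, MvPolynomial.rename ib P, (MvPolynomial.totalDegree_rename_le _ _).trans hPd, fun s => ?_, ?_, l, fun i => BD (g i),
    fun i => ⟨g i, rfl, L i, hL i, hg i⟩, ?_⟩
  · by_cases hs : ∃ u : Vb n →₀ ℕ, u.mapDomain ib = s
    · obtain ⟨u, rfl⟩ := hs
      rw [MvPolynomial.coeff_rename_mapDomain _ ib_inj]
      exact hPV u
    · rw [MvPolynomial.coeff_rename_eq_zero]
      · exact V.zero_mem
      · intro u hu
        exact absurd ⟨u, hu⟩ hs
  · rw [hY, aeval_ib]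
    exact hP0
  · rw [hg', aeval_ib]
    exact hPg

/-- separation by the ranks and the sums of the exponents -/
lemma neq_of {m n : ℕ} {h : HB m} {h' : HB n} {b : Blk m} {b' : Blk n} (hb : BlkOf h b) (hb' : BlkOf h' b')
    (hne : h.k = h'.k → m = n → h.k = Ki.l ∧ (∀ a : ℤ, h.e - h'.e ≠ a) ∧ ∀ a : ℤ, h.e + h'.e ≠ a) : Neq b b' := by
  have hdeg : h.k = h'.k → m ≠ n → ((fb b).natDegree ≠ (fb b').natDegree) := by
    intro _ hmn h1
    have h2 := fb_deg hb.1
    have h3 := fb_deg hb'.1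
    have := hb.1.two
    have := hb'.1.two
    rw [h2, h3] at h1
    omega
  have hcomp : ∀ p : Polynomial ℂ, (p.comp (-Polynomial.X)).natDegree = p.natDegree := by
    intro p
    rw [Polynomial.natDegree_comp, Polynomial.natDegree_neg, Polynomial.natDegree_X, mul_one]
  have hpi : (2 * (Real.pi : ℂ) * Complex.I) ≠ 0 := Complex.two_pi_I_ne_zero
  have hbk := hb.2.2.2.1
  have hbk' := hb'.2.2.2.1
  have hx := hb.2.2.2.2.1
  have hx' := hb'.2.2.2.2.1
  refine ⟨fun h1 h2 => ?_, fun h1 h2 => ?_, fun h1 h2 => ?_⟩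
  · rw [hbk] at h1
    rw [hbk'] at h2
    by_cases hmn : m = n
    · obtain ⟨-, h3, h4⟩ := hne (h1.trans h2.symm) hmn
      refine ⟨fun h5 => ?_, fun h5 => ?_⟩
      · exfalso
        rw [hx, hx', Complex.exp_eq_exp_iff_exists_int] at h5
        obtain ⟨a, ha⟩ := h5
        apply h3 (-a)
        have h6 : (2 * (Real.pi : ℂ) * Complex.I) * (h.e - h'.e + a) = 0 := by linear_combination -ha
        rcases mul_eq_zero.1 h6 with h7 | h7
        · exact absurd h7 hpi
        · push_cast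
          linear_combination h7
      · exfalso
        rw [hx, hx', ← Complex.exp_neg, Complex.exp_eq_exp_iff_exists_int] at h5
        obtain ⟨a, ha⟩ := h5
        apply h4 (-a)
        have h6 : (2 * (Real.pi : ℂ) * Complex.I) * (h.e + h'.e + a) = 0 := by linear_combination -ha
        rcases mul_eq_zero.1 h6 with h7 | h7
        · exact absurd h7 hpi
        · push_cast
          linear_combination h7
    · have h3 := hdeg (h1.trans h2.symm) hmn
      refine ⟨fun _ h5 => h3 (by rw [h5]), fun _ h5 => h3 ?_⟩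
      rw [h5, hcomp]
  · rw [hbk] at h1
    rw [hbk'] at h2
    by_cases hmn : m = n
    · obtain ⟨h3, -⟩ := hne (h1.trans h2.symm) hmn
      rw [h1] at h3
      exact Ki.noConfusion h3
    · intro h5
      exact hdeg (h1.trans h2.symm) hmn (by rw [h5])
  · rw [hbk] at h1
    rw [hbk'] at h2
    by_cases hmn : m = n
    · obtain ⟨h3, -⟩ := hne (h1.trans h2.symm) hmn
      rw [h1] at h3
      exact Ki.noConfusion h3
    · intro h5
      have h6 := congrArg Polynomial.natDegree h5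
      have hne0 : ∀ {l : ℕ} {c : Blk l}, BlkOK c → fb c ≠ 0 := by
        intro l c hc h0
        have h7 := fb_deg hc
        rw [h0, Polynomial.natDegree_zero] at h7
        have := hc.two
        omega
      have hne1 : ∀ {l : ℕ} {c : Blk l}, BlkOK c → (fb c).comp (-Polynomial.X) ≠ 0 := by
        intro l c hc h0
        have h7 := hcomp (fb c)
        rw [h0, Polynomial.natDegree_zero, fb_deg hc] at h7
        have := hc.two
        omega
      rw [Polynomial.natDegree_mul (hne0 hb.1) (hne1 hb.1), Polynomial.natDegree_mul (hne0 hb'.1) (hne1 hb'.1), hcomp, hcomp] at h6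
      exact hdeg (h1.trans h2.symm) hmn (by omega)

end Q207.HM
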