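import Pool.Agent.Q207.HM.Ful
import Pool.Agent.Q207.HM.Tup

/-!
# Quadratic relations and determinants cut out the relations
-/

set_option autoImplicit false

open PowerSeries Pool.Agent.Y113

namespace Q207.HM

open Pool.Agent.Y119.HY (Am Jm cm cm_apply Ac_nil Hc Hf Yf E)
open Pool.Agent.Y119.HZ (Hp evq Yt Jx pw)

section one

variable {r : ℕ} {n : Fin r → ℕ}

/-- the value of a polynomial in the entries at `z` -/
noncomputable def valQ (R : MvPolynomial (Σ j : Fin r, Fin (n j) × Fin (n j)) (Polynomial ℚ)) (z : ℂ)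
    (g : ∀ j, Matrix (Fin (n j)) (Fin (n j)) ℂ) : ℂ := MvPolynomial.eval₂ (evq z) (fun p => g p.1 p.2.1 p.2.2) R

/-- the functional relations of degree at most two hold -/
def QuadT (α : ∀ j, Fin (n j) → ℚ) (t : ℕ) (g : ∀ j, Matrix (Fin (n j)) (Fin (n j)) ℂ) : Prop :=
  ∀ R : MvPolynomial (Σ j : Fin r, Fin (n j) × Fin (n j)) (Polynomial ℚ), R.totalDegree ≤ 2 →
    (∀ x : ℝ, 0 < x → x < 1 → valQ R (x : ℂ) (fun j => Yx (n j) (QA (α j)) x) = 0) →
    valQ R (((1 / (t : ℝ) : ℝ)) : ℂ) g = 0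

lemma C_X_deg {σ A : Type*} [CommRing A] [Nontrivial A] (a : A) (v : σ) : (MvPolynomial.C a * MvPolynomial.X v).totalDegree ≤ 1 := by
  refine (MvPolynomial.totalDegree_mul _ _).trans ?_
  rw [MvPolynomial.totalDegree_C, MvPolynomial.totalDegree_X]

/-- linear relations -/
lemma QuadT.lin {α : ∀ j, Fin (n j) → ℚ} {t : ℕ} {g : ∀ j, Matrix (Fin (n j)) (Fin (n j)) ℂ} (h : QuadT α t g) (j j' : Fin r) :
    Lin (QA (α j)) (QA (α j')) t (g j) (g j') := by
  intro N d c hN
  ext a b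
  set R : MvPolynomial (Σ j : Fin r, Fin (n j) × Fin (n j)) (Polynomial ℚ) :=
    ∑ k, MvPolynomial.C (d * Polynomial.C (c k b)) * MvPolynomial.X ⟨j', (a, k)⟩ -
      ∑ k, MvPolynomial.C (N a k) * MvPolynomial.X ⟨j, (k, b)⟩ with hR
  have hC : ∀ (z : ℂ) (q : ℚ), evq z (Polynomial.C q) = (q : ℂ) := by
    intro z q
    unfold evq
    simp
  have hval : ∀ (z : ℂ) (g : ∀ j, Matrix (Fin (n j)) (Fin (n j)) ℂ), valQ R z g =
      (evq z d • (g j' * c.map (algebraMap ℚ ℂ)) - N.map (evq z) * g j) a b := by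
    intro z g
    unfold valQ
    rw [hR, MvPolynomial.eval₂_sub, MvPolynomial.eval₂_sum, MvPolynomial.eval₂_sum, Matrix.sub_apply, Matrix.smul_apply,
      Matrix.mul_apply, Matrix.mul_apply, smul_eq_mul, Finset.mul_sum]
    congr 1
    · refine Finset.sum_congr rfl fun k _ => ?_
      rw [MvPolynomial.eval₂_mul, MvPolynomial.eval₂_C, MvPolynomial.eval₂_X, map_mul, hC, Matrix.map_apply]
      show _ = evq z d * (g j' a k * ((c k b : ℚ) : ℂ))
      ring
    · refine Finset.sum_congr rfl fun k _ => ?_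
      rw [MvPolynomial.eval₂_mul, MvPolynomial.eval₂_C, MvPolynomial.eval₂_X, Matrix.map_apply]
  have h1 := h R ?_ fun x hx hx1 => ?_
  · rw [hval, Matrix.sub_apply, sub_eq_zero] at h1
    exact h1
  · rw [hR]
    refine (MvPolynomial.totalDegree_sub _ _).trans (max_le ?_ ?_)
    · refine (MvPolynomial.totalDegree_finsetSum _ _).trans (Finset.sup_le fun k _ => ?_)
      exact (C_X_deg _ _).trans (by norm_num)
    · refine (MvPolynomial.totalDegree_finsetSum _ _).trans (Finset.sup_le fun k _ => ?_)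
      exact (C_X_deg _ _).trans (by norm_num)
  · rw [hval, hN _ hx hx1, sub_self, Matrix.zero_apply]

/-- bilinear relations -/
lemma QuadT.bil {α : ∀ j, Fin (n j) → ℚ} {t : ℕ} {g : ∀ j, Matrix (Fin (n j)) (Fin (n j)) ℂ} (h : QuadT α t g) (j j' : Fin r) :
    Bil (QA (α j)) (QA (α j')) t (g j) (g j') := by
  intro N d c hN
  ext a b
  set R : MvPolynomial (Σ j : Fin r, Fin (n j) × Fin (n j)) (Polynomial ℚ) :=
    ∑ l, (∑ k, MvPolynomial.C (N k l) * MvPolynomial.X ⟨j, (k, a)⟩) * MvPolynomial.X ⟨j', (l, b)⟩ -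
      MvPolynomial.C (d * Polynomial.C (c a b)) with hR
  have hC : ∀ (z : ℂ) (q : ℚ), evq z (Polynomial.C q) = (q : ℂ) := by
    intro z q
    unfold evq
    simp
  have hval : ∀ (z : ℂ) (g : ∀ j, Matrix (Fin (n j)) (Fin (n j)) ℂ), valQ R z g =
      ((g j).transpose * N.map (evq z) * g j' - evq z d • c.map (algebraMap ℚ ℂ)) a b := by
    intro z g
    unfold valQ
    rw [hR, MvPolynomial.eval₂_sub, MvPolynomial.eval₂_sum, MvPolynomial.eval₂_C, map_mul, hC, Matrix.sub_apply, Matrix.smul_apply,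
      Matrix.mul_apply, smul_eq_mul, Matrix.map_apply]
    congr 1
    refine Finset.sum_congr rfl fun l _ => ?_
    rw [MvPolynomial.eval₂_mul, MvPolynomial.eval₂_X, MvPolynomial.eval₂_sum, Matrix.mul_apply]
    congr 1
    refine Finset.sum_congr rfl fun k _ => ?_
    rw [MvPolynomial.eval₂_mul, MvPolynomial.eval₂_C, MvPolynomial.eval₂_X, Matrix.transpose_apply, Matrix.map_apply]
    ring
  have h1 := h R ?_ fun x hx hx1 => ?_
  · rw [hval, Matrix.sub_apply, sub_eq_zero] at h1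
    exact h1
  · rw [hR]
    refine (MvPolynomial.totalDegree_sub _ _).trans (max_le ?_ ?_)
    · refine (MvPolynomial.totalDegree_finsetSum _ _).trans (Finset.sup_le fun l _ => ?_)
      refine (MvPolynomial.totalDegree_mul _ _).trans ?_
      have h4 : (∑ k, MvPolynomial.C (N k l) * MvPolynomial.X (R := Polynomial ℚ) (⟨j, (k, a)⟩ : Σ j : Fin r, Fin (n j) × Fin (n j))).totalDegree ≤ 1 :=
        (MvPolynomial.totalDegree_finsetSum _ _).trans (Finset.sup_le fun k _ => C_X_deg _ _)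
      have h5 : (MvPolynomial.X (R := Polynomial ℚ) (⟨j', (l, b)⟩ : Σ j : Fin r, Fin (n j) × Fin (n j))).totalDegree ≤ 1 := by
        rw [MvPolynomial.totalDegree_X]
      omega
    · rw [MvPolynomial.totalDegree_C]
      norm_num
  · rw [hval, Matrix.sub_apply, sub_eq_zero]
    exact congrFun (congrFun (hN _ hx hx1) a) b

/-- the classes of equivalent and dual members -/
def relSetoid (α : ∀ j : Fin r, Fin (n j) → ℚ) : Setoid (Fin r) where
  r j j' := cls (α j) = cls (α j') ∨ cls (α j) = cls fun i => -α j' i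
  iseqv := by
    refine ⟨fun j => Or.inl rfl, fun {j j'} h => ?_, fun {j j' j''} h h' => ?_⟩
    · rcases h with h | h
      · exact Or.inl h.symm
      · exact Or.inr (cls_neg' h).symm
    · rcases h with h | h
      · rcases h' with h' | h'
        · exact Or.inl (h.trans h')
        · exact Or.inr (h.trans h')
      · rcases h' with h' | h'
        · exact Or.inr (h.trans (cls_neg h'))
        · exact Or.inl (h.trans (cls_neg' h'))

/-- **The relations between the functions hold on the sets defined by the quadratic relations and the determinants.** -/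
theorem TF_all {α : ∀ j, Fin (n j) → ℚ} (hα : ∀ j i, ∀ a : ℤ, α j i ≠ a) (hn : ∀ j, 2 ≤ n j)
    (had : ∀ j, (cls (α j) = cls fun i => -α j i) ∨ ∀ a : ℤ, 2 * ∑ i, α j i ≠ a) : TorW (jsys (hF α)) (TF α) := by
  classical
  set s := relSetoid α with hs
  let : DecidableRel s.r := Classical.decRel _
  let : Fintype (Quotient s) := Fintype.ofFinite _
  set ε := Fintype.equivFin (Quotient s) with hε
  set e : Fin (Fintype.card (Quotient s)) → Fin r := fun a => (ε.symm a).out with he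
  set q : Fin r → Fin (Fintype.card (Quotient s)) := fun j => ε (Quotient.mk s j) with hq
  have hlk : ∀ j, cls (α (e (q j))) = cls (α j) ∨ cls (α (e (q j))) = cls fun i => -α j i := by
    intro j
    have h1 : (Quotient.mk s (e (q j))) = Quotient.mk s j := by
      rw [he, hq]
      simp only [Equiv.symm_apply_apply]
      exact Quotient.out_eq _
    exact Quotient.exact h1
  have hnl : ∀ a a', a ≠ a' → ¬ (cls (α (e a)) = cls (α (e a')) ∨ cls (α (e a)) = cls fun i => -α (e a') i) := by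
    intro a a' haa h1
    apply haa
    have h2 : Quotient.mk s (e a) = Quotient.mk s (e a') := Quotient.sound h1
    rw [he] at h2
    simp only [Quotient.out_eq] at h2
    exact ε.symm.injective h2
  have hex : ∀ a, ∃ (h : HB (n (e a))) (α' : Fin (n (e a)) → ℚ), ExB h α' ∧ cls α' = cls (α (e a)) := by
    intro a
    rcases had (e a) with h1 | h1
    · obtain ⟨h, α', h2, h3, -⟩ := exb_sym (hn (e a)) (hα (e a)) h1
      exact ⟨h, α', h2, h3⟩
    · obtain ⟨h, h2⟩ := exb_l (hn (e a)) (hα (e a)) h1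
      exact ⟨h, α (e a), h2, rfl⟩
  choose h' α' hx hcl using hex
  have hgau : ∀ a, ∃ (G : ℝ → Matrix (Fin (n (e a))) (Fin (n (e a))) ℂ) (c : Matrix (Fin (n (e a))) (Fin (n (e a))) ℚ),
      Gau (α (e a)) (h' a) G c := by
    intro a
    obtain ⟨G, c, h1, h2, h3, h4, h5⟩ := LE.of_cls (hn (e a)) (hx a).ni (hα (e a)) (hcl a)
    exact ⟨G, c, h1, h2, h3, h4, fun x hx0 hx1 => by rw [(hx a).q]; exact h5 x hx0 hx1⟩
  choose G c hg using hgau
  choose b hb using fun a => blk_exists (hx a).ok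
  refine TF_ok e q hα hn hx hcl hg hb (fun a a' haa => (hx a).neq (hx a') (hb a) (hb a') ?_ ?_) hlk
  · intro h1
    rw [hcl, hcl] at h1
    exact hnl a a' haa (Or.inl h1)
  · intro h1
    rw [hcl, cls_neg (hcl a')] at h1
    exact hnl a a' haa (Or.inr h1)

end one

variable {k : ℕ} {r : Fin k → ℕ} {n : ∀ i, Fin (r i) → ℕ}

/-- **Few exceptional tuples.** -/
theorem tuplesQ (k δ D : ℕ) (r : Fin k → ℕ) (n : ∀ i, Fin (r i) → ℕ) (α : ∀ i j, Fin (n i j) → ℚ)
    (hα : ∀ i j l, ∀ a : ℤ, α i j l ≠ a) (hn : ∀ i j, 2 ≤ n i j)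
    (had : ∀ i j, (cls (α i j) = cls fun l => -α i j l) ∨ ∀ a : ℤ, 2 * ∑ l, α i j l ≠ a) :
    ∃ c C : ℝ, 0 < c ∧ 0 ≤ C ∧ ∀ (V : Submodule ℚ ℂ) [Module.Finite ℚ V], Module.finrank ℚ V ≤ D →
      ∀ Ω : (∀ i j, Matrix (Fin (n i j)) (Fin (n i j)) ℂ), ∀ (x : Fin k → ℕ) (N : ℕ), (∀ i, 1 ≤ x i) → 1 ≤ N →
      ∀ S : Finset (Fin k → ℕ), (∀ t ∈ S, (∀ i, x i < t i ∧ t i ≤ x i + N) ∧ ∃ P : MvPolynomial (Vb n) ℂ,
        P.totalDegree ≤ δ ∧ (∀ s, P.coeff s ∈ V) ∧
        MvPolynomial.aeval (pb (fun i => ((Real.log (t i) : ℝ) : ℂ)) fun i j => Yt (n i j) (QA (α i j)) (t i) * Ω i j) P = 0 ∧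
        ∃ (l L : Fin k → ℂ) (g : ∀ i j, Matrix (Fin (n i j)) (Fin (n i j)) ℂ), (∀ i, Complex.exp (L i) = 1 - 1 / (t i : ℂ)) ∧
          (∀ i j, (g i j).det = Complex.exp (-((∑ l, α i j l : ℚ) : ℂ) * L i)) ∧ (∀ i, QuadT (α i) (t i) (g i)) ∧
          MvPolynomial.aeval (pb l fun i j => g i j * Ω i j) P ≠ 0) →
      (S.card : ℝ) ≤ C * (N : ℝ) ^ (k - 1) * ∑ i, (1 + N / ((x i : ℝ) + N) ^ c) := by
  obtain ⟨c, C, hc, hC, hmain⟩ := tuplesW k δ D (fun i => sz (n i)) (fun i => jsys (hF (α i)))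
    (fun i => jsys_okG (h := hF (α i)) (fun j => QG_QA (hn i j) fun l a h0 => hα i j l a h0.symm)
      (fun j a b => sdc_hpsG (fun l a h0 => hα i j l a h0.symm) (QG_QA (hn i j) fun l a h0 => hα i j l a h0.symm) a b))
    (fun i => TF (α i)) (fun i => TF_all (hα i) (hn i) (had i))
  refine ⟨c, C, hc, hC, ?_⟩
  intro V _ hV Ω x N hx hN S hSt
  refine hmain V hV (fun i => BD (Ω i)) x N hx hN S fun t ht => ?_
  obtain ⟨hbox, P, hPd, hPV, hP0, l, L, g, hL, hdet, hquad, hPg⟩ := hSt t ht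
  have hY : (fun i => (jsys (hF (α i))).Yt (t i) * BD (Ω i)) = fun i => BD fun j => Yt (n i j) (QA (α i j)) (t i) * Ω i j := by
    funext i
    rw [jsys_Yt, ← BD_mul]
    rfl
  have hg' : (fun i => BD (g i) * BD (Ω i)) = fun i => BD fun j => g i j * Ω i j := by
    funext i
    rw [← BD_mul]
  refine ⟨hbox, MvPolynomial.rename ib P, (MvPolynomial.totalDegree_rename_le _ _).trans hPd, fun s => ?_, ?_, l, fun i => BD (g i),
    fun i => ⟨g i, rfl, fun j j' => (hquad i).lin j j', fun j j' => (hquad i).bil j j', L i, hL i, hdet i⟩, ?_⟩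
  · by_cases hs : ∃ u : Vb n →₀ ℕ, u.mapDomain ib = s
    · obtain ⟨u, rfl⟩ := hs
      rw [MvPolynomial.coeff_rename_mapDomain _ ib_inj]
      exact hPV u
    · rw [MvPolynomial.coeff_rename_eq_zero]
      · exact V.zero_mem
      · intro u hu
        exact absurd ⟨u, hu⟩ hs
  · rw [hY, aeval_ib]
    exact hP0
  · rw [hg', aeval_ib]
    exact hPg

end Q207.HM
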