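import Pool.Agent.Q207.HM.Exb

/-!
# Duality
-/

set_option autoImplicit false

open Filter Topology Matrix

namespace Q207.HM

open Pool.Agent.Y119.HY (Am Am_mul mul_Am Jm Jm_rel Bm cm cm_apply cm_mul cm_add cm_zero cm_transpose Hc Ac_nil Sol Hf Hf_an Hf_zero
  Lens E Yf Yf_ode E_exp E_mul_neg E_neg E_zero mem_Lens real_mem_Lens slit_Lens const_Lens Gm HD PA Ep Ep_eval map_mul_eval map_C_eval
  Jc_rel E_isom)
open Pool.Agent.Y119.HZ (Hp ev_Hp)
open Pool.Agent.Y113 (Cv ev ev_one)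

variable {n : ℕ}

section pair

variable {S N0 N1 N2 : Matrix (Fin n) (Fin n) ℂ} {H K : ℕ → Matrix (Fin n) (Fin n) ℂ}

/-- **the pairing is constant** -/
theorem dual_pair (h0 : N0 ^ n = 0) (hs0 : N0ᵀ * S + S * N0 = 0) (hs1 : N1ᵀ * S + S * N2 = 0)
    (hH : Sol N0 N1 H) (hK : Sol N0 N2 K) {z : ℂ} (hz : z ∈ Lens) : (Yf N0 H z)ᵀ * S * Yf N0 K z = S := by
  have hhalf : ((1 / 2 : ℝ) : ℂ) ∈ Lens := real_mem_Lens (by norm_num) (by norm_num)
  set T := (Yf N0 H ((1 / 2 : ℝ) : ℂ))ᵀ * S * Yf N0 K ((1 / 2 : ℝ) : ℂ) with hT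
  have hconst : ∀ w ∈ Lens, (Yf N0 H w)ᵀ * S * Yf N0 K w = T := by
    intro w hw
    refine const_Lens (F := fun w => (Yf N0 H w)ᵀ * S * Yf N0 K w) (fun x hx => ?_) hw hhalf
    have h1 := Yf_ode hH h0 (mem_Lens.1 hx).1 (slit_Lens hx)
    have h2 := Yf_ode hK h0 (mem_Lens.1 hx).1 (slit_Lens hx)
    refine ((h1.transpose.mul (HD.const S x)).mul h2).congr ?_
    have key : (Gm N0 N1 x)ᵀ * S + S * Gm N0 N2 x = 0 := by
      unfold Gm
      have e1 : ((1 / x) • N0 + (1 / (1 - x)) • N1)ᵀ * S + S * ((1 / x) • N0 + (1 / (1 - x)) • N2) =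
          (1 / x) • (N0ᵀ * S + S * N0) + (1 / (1 - x)) • (N1ᵀ * S + S * N2) := by
        simp only [transpose_add, transpose_smul, Matrix.add_mul, Matrix.mul_add, Matrix.smul_mul, Matrix.mul_smul]
        module
      rw [e1, hs0, hs1, smul_zero, smul_zero, add_zero]
    rw [transpose_mul, Matrix.mul_zero, add_zero]
    calc _ = (Yf N0 H x)ᵀ * ((Gm N0 N1 x)ᵀ * S + S * Gm N0 N2 x) * Yf N0 K x := by noncomm_ring
      _ = 0 := by rw [key, Matrix.mul_zero, Matrix.zero_mul]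
  rw [hconst z hz]
  -- the holomorphic part
  have hHan : ∀ i j, AnalyticOnNhd ℂ (fun z => ((Hf H z)ᵀ * S * Hf K z) i j) (Metric.ball 0 1) := by
    intro i j
    simp only [Matrix.mul_apply, Matrix.transpose_apply]
    refine Finset.analyticOnNhd_fun_sum _ fun l _ => AnalyticOnNhd.mul ?_ (Hf_an hK h0 l j)
    refine Finset.analyticOnNhd_fun_sum _ fun k _ => ?_
    exact (Hf_an hH h0 k i).mul analyticOnNhd_const
  have hlog : ∀ i j : Fin n, ∀ w ∈ Metric.ball (0 : ℂ) 1, Polynomial.C (((Hf H w)ᵀ * S * Hf K w) i j) +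
      -(((Ep (-N0))ᵀ * T.map Polynomial.C * Ep (-N0)) i j) = 0 := by
    intro i j
    refine PA.log_zero (f := fun w => Polynomial.C (((Hf H w)ᵀ * S * Hf K w) i j) +
      -(((Ep (-N0))ᵀ * T.map Polynomial.C * Ep (-N0)) i j)) ((PA.ofFun (hHan i j)).add (PA.const _)) fun x hx hx1 => ?_
    have h1 := hconst x (real_mem_Lens hx hx1)
    have h2 : ((Ep (-N0))ᵀ * T.map Polynomial.C * Ep (-N0)).map (Polynomial.eval ((Real.log x : ℝ) : ℂ)) =
        (Hf H x)ᵀ * S * Hf K x := by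
      rw [map_mul_eval, map_mul_eval, Matrix.transpose_map, map_C_eval, Ep_eval, E_neg, ← h1]
      unfold Yf
      rw [← Complex.ofReal_log hx.le, transpose_mul]
      set L : ℂ := ((Real.log x : ℝ) : ℂ)
      have h3 : E N0 L * E N0 (-L) = 1 := E_mul_neg h0 L
      have h4 : (E N0 (-L))ᵀ * (E N0 L)ᵀ = 1 := by
        rw [← transpose_mul, h3, transpose_one]
      calc (E N0 (-L))ᵀ * ((E N0 L)ᵀ * (Hf H x)ᵀ * S * (Hf K x * E N0 L)) * E N0 (-L)
          = ((E N0 (-L))ᵀ * (E N0 L)ᵀ) * (Hf H x)ᵀ * S * Hf K x * (E N0 L * E N0 (-L)) := by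
            simp only [Matrix.mul_assoc]
        _ = _ := by rw [h3, h4, one_mul, mul_one]
    rw [Polynomial.eval_add, Polynomial.eval_neg, Polynomial.eval_C, ← h2]
    simp only [Matrix.map_apply]
    ring
  ext i j
  have h5 := congrArg (Polynomial.eval 0) (hlog i j 0 (Metric.mem_ball_self one_pos))
  rw [Polynomial.eval_add, Polynomial.eval_neg, Polynomial.eval_C, Hf_zero hH, Hf_zero hK, transpose_one, one_mul, mul_one,
    Polynomial.eval_zero] at h5
  have h6 : ((Ep (-N0))ᵀ * T.map Polynomial.C * Ep (-N0)).map (Polynomial.eval 0) = T := by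
    rw [map_mul_eval, map_mul_eval, Matrix.transpose_map, map_C_eval, Ep_eval, E_zero (by
      rw [neg_pow, h0, mul_zero]), transpose_one, one_mul, mul_one]
  have h7 := congrFun (congrFun h6 i) j
  rw [Matrix.map_apply] at h7
  rw [h7] at h5
  linear_combination -h5

end pair

lemma Jm_det {R : Polynomial ℚ} (hR : R.coeff 0 ≠ 0) : (Jm n R).det ≠ 0 := by
  have h1 := Matrix.det_permute' (Fin.revPerm : Equiv.Perm (Fin n)) (Jm n R)
  have h2 : ((Jm n R).submatrix id (Fin.revPerm : Equiv.Perm (Fin n))).det = ∏ i : Fin n, ((-1) ^ (i : ℕ) * R.coeff 0) := by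
    rw [Matrix.det_of_isLowerTriangular]
    · refine Finset.prod_congr rfl fun i _ => ?_
      rw [Matrix.submatrix_apply]
      unfold Jm
      simp only [Matrix.of_apply, id, Fin.revPerm_apply, Fin.val_rev]
      have := i.2
      rw [if_pos (by omega)]
      congr 2
      omega
    · intro i j hij
      have hij' : (i : ℕ) < j := hij
      rw [Matrix.submatrix_apply]
      unfold Jm
      simp only [Matrix.of_apply, id, Fin.revPerm_apply, Fin.val_rev]
      have := j.2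
      rw [if_neg (by omega)]
  have h3 : ((Jm n R).submatrix id (Fin.revPerm : Equiv.Perm (Fin n))).det ≠ 0 := by
    rw [h2]
    refine Finset.prod_ne_zero_iff.2 fun i _ => mul_ne_zero (pow_ne_zero _ (by norm_num)) hR
  intro h0
  rw [h0, mul_zero] at h1
  exact h3 h1

lemma comp_neg_coeffQ (f : Polynomial ℚ) (l : ℕ) : (f.comp (-Polynomial.X)).coeff l = (-1) ^ l * f.coeff l := by
  have h1 : (-Polynomial.X : Polynomial ℚ) = Polynomial.C (-1) * Polynomial.X := by
    rw [map_neg, map_one]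
    ring
  rw [h1, Polynomial.comp_C_mul_X_coeff, mul_comm]

/-- the dual polynomial -/
lemma QA_neg (α : Fin n → ℚ) : (QA fun i => -α i) = Polynomial.C ((-1) ^ n) * (QA α).comp (-Polynomial.X) := by
  unfold QA
  rw [Polynomial.prod_comp, map_pow]
  have h1 : (Polynomial.C (-1 : ℚ)) ^ n = ∏ _i : Fin n, Polynomial.C (-1 : ℚ) := by
    rw [Finset.prod_const, Finset.card_univ, Fintype.card_fin]
  rw [h1, ← Finset.prod_mul_distrib]
  refine Finset.prod_congr rfl fun i _ => ?_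
  simp only [Polynomial.add_comp, Polynomial.X_comp, Polynomial.C_comp, map_neg, map_one]
  ring

/-- the pairing with the dual equation -/
lemma Bm_dual (α : Fin n → ℚ) :
    (Bm n (QA α))ᵀ * Jm n ((QA α).comp (-Polynomial.X)) + Jm n ((QA α).comp (-Polynomial.X)) * Bm n (QA fun i => -α i) = 0 := by
  ext i j
  rw [Matrix.add_apply, Matrix.mul_apply, Matrix.mul_apply, Matrix.zero_apply]
  have hn : 0 < n := i.pos
  have e1 : ∑ k, (Bm n (QA α))ᵀ i k * Jm n ((QA α).comp (-Polynomial.X)) k j =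
      (QA α).coeff i * Jm n ((QA α).comp (-Polynomial.X)) ⟨n - 1, by omega⟩ j := by
    rw [Finset.sum_eq_single (⟨n - 1, by omega⟩ : Fin n)]
    · rw [Matrix.transpose_apply]
      unfold Bm
      rw [Matrix.of_apply, if_pos (by simp only; omega)]
    · intro k _ hk
      rw [Matrix.transpose_apply]
      unfold Bm
      rw [Matrix.of_apply, if_neg, zero_mul]
      intro h1
      apply hk
      apply Fin.ext
      simp only
      omega
    · intro h1
      exact absurd (Finset.mem_univ _) h1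
  have e2 : ∑ k, Jm n ((QA α).comp (-Polynomial.X)) i k * Bm n (QA fun i => -α i) k j =
      Jm n ((QA α).comp (-Polynomial.X)) i ⟨n - 1, by omega⟩ * (QA fun i => -α i).coeff j := by
    rw [Finset.sum_eq_single (⟨n - 1, by omega⟩ : Fin n)]
    · unfold Bm
      rw [Matrix.of_apply, if_pos (by simp only; omega)]
    · intro k _ hk
      unfold Bm
      rw [Matrix.of_apply, if_neg, mul_zero]
      intro h1
      apply hk
      apply Fin.ext
      simp only
      omega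
    · intro h1
      exact absurd (Finset.mem_univ _) h1
  rw [e1, e2]
  unfold Jm
  rw [Matrix.of_apply, Matrix.of_apply, if_pos (by simp only; omega), if_pos (by simp only; omega), comp_neg_coeffQ, comp_neg_coeffQ,
    QA_neg, Polynomial.coeff_C_mul, comp_neg_coeffQ]
  have e3 : ((⟨n - 1, by omega⟩ : Fin n) : ℕ) + j + 1 - n = j := by simp only; omega
  have e4 : (i : ℕ) + ((⟨n - 1, by omega⟩ : Fin n) : ℕ) + 1 - n = i := by simp only; omega
  rw [e3, e4]
  obtain ⟨p, rfl⟩ : ∃ p, n = p + 1 := ⟨n - 1, by omega⟩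
  simp only [Nat.add_sub_cancel]
  have e5 : ((-1 : ℚ) ^ (i : ℕ)) * (-1) ^ (i : ℕ) = 1 := by
    rw [← pow_add, Even.neg_one_pow ⟨_, rfl⟩]
  rw [pow_succ]
  linear_combination ((QA α).coeff i * ((-1) ^ p * (-1) * ((-1) ^ (j : ℕ) * (QA α).coeff j))) * e5

/-- the value on the unit interval -/
noncomputable def Yx (n : ℕ) (Q : Polynomial ℚ) (x : ℝ) : Matrix (Fin n) (Fin n) ℂ := Yf (cm (Am n)) (Hc n Q) (x : ℂ)

/-- **Duality.** -/
theorem dual_Yx (hn : 2 ≤ n) {α : Fin n → ℚ} (hα : ∀ i, ∀ a : ℤ, α i ≠ a) {x : ℝ} (hx : 0 < x) (hx1 : x < 1) :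
    (Yx n (QA α) x)ᵀ * cm (Jm n ((QA α).comp (-Polynomial.X))) * Yx n (QA fun i => -α i) x =
      cm (Jm n ((QA α).comp (-Polynomial.X))) := by
  have hα' : ∀ i, ∀ a : ℤ, -α i ≠ a := fun i a h0 => hα i (-a) (by push_cast; linarith)
  refine dual_pair Ac_nil Jc_rel ?_ (sol_cG (QG_QA hn fun i l h0 => hα i l h0.symm)) (sol_cG (QG_QA hn fun i l h0 => hα' i l h0.symm))
    (real_mem_Lens hx hx1)
  have h1 := congrArg cm (Bm_dual α)
  rw [cm_add, cm_mul, cm_mul, cm_transpose, cm_zero] at h1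
  exact h1

/-- the determinant -/
theorem det_Hx {Q : Polynomial ℚ} (hQ : QG n Q) {x : ℝ} (hx : 0 < x) (hx1 : x < 1) :
    (Hf (Hc n Q) (x : ℂ)).det = (((1 - x) ^ (-((Q.coeff (n - 1) : ℚ) : ℝ)) : ℝ) : ℂ) := by
  set t : ℝ := 1 / x with ht
  have ht1 : 1 < t := by rw [ht, lt_div_iff₀ hx]; linarith
  have ht0 : 0 < t := by linarith
  have hxt : 1 / t = x := by rw [ht, one_div_one_div]
  obtain ⟨h1, h2⟩ := ev_det ht0 (M := Hp n Q) fun i j => Cv_HpG hQ ht1 i j
  obtain ⟨h3, h4⟩ := ev_bp (Q.coeff (n - 1)) ht1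
  have h5 := congrArg (ev t) (bp_det hQ)
  rw [Cv.ev_mul ht0 h3 h1, ev_one, h2, h4] at h5
  have h6 : (Matrix.of fun i j => ev t (Hp n Q i j)).map (fun x : ℝ => (x : ℂ)) = Hf (Hc n Q) (((1 / t : ℝ)) : ℂ) := by
    ext i j
    rw [Matrix.map_apply, Matrix.of_apply]
    exact ev_Hp _ _ _
  rw [hxt] at h5 h6
  rw [← h6]
  have h7 : (((Matrix.of fun i j => ev t (Hp n Q i j)).det : ℝ) : ℂ) =
      ((Matrix.of fun i j => ev t (Hp n Q i j)).map (fun x : ℝ => (x : ℂ))).det := RingHom.map_det Complex.ofRealHom _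
  rw [← h7]
  congr 1
  rw [Real.rpow_neg (by linarith)]
  exact eq_inv_of_mul_eq_one_right h5

lemma det_Yx {Q : Polynomial ℚ} (hQ : QG n Q) {x : ℝ} (hx : 0 < x) (hx1 : x < 1) :
    (Yx n Q x).det = (((1 - x) ^ (-((Q.coeff (n - 1) : ℚ) : ℝ)) : ℝ) : ℂ) := by
  unfold Yx Yf
  rw [Matrix.det_mul, det_E Ac_nil, mul_one, det_Hx hQ hx hx1]

lemma det_Yx_ne {Q : Polynomial ℚ} (hQ : QG n Q) {x : ℝ} (hx : 0 < x) (hx1 : x < 1) : (Yx n Q x).det ≠ 0 := by
  rw [det_Yx hQ hx hx1, Ne, Complex.ofReal_eq_zero]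
  exact (Real.rpow_pos_of_pos (by linarith) _).ne'

end Q207.HM
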