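import Pool.Agent.Y119.HY.Grp
import Pool.Agent.Y123.GN.E6

/-!
# Lie algebras of matrices which are stable under a regular nilpotent matrix
-/

set_option autoImplicit false

open Matrix

namespace Q207.HM

open Pool.Agent.Y123.GN (bf ro ro_mul ro_add_left ro_add_right ro_smul_left ro_smul_right)

variable {n : ℕ}

/-- a subspace closed under brackets and under a matrix -/
structure LieN (N : Matrix (Fin n) (Fin n) ℂ) (L : Submodule ℂ (Matrix (Fin n) (Fin n) ℂ)) : Prop where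
  br : ∀ X ∈ L, ∀ Y ∈ L, X * Y - Y * X ∈ L
  ad : ∀ X ∈ L, N * X - X * N ∈ L

/-- spanning by the chain of a cyclic vector -/
lemma chain_top {N : Matrix (Fin n) (Fin n) ℂ} (hN : N ^ n = 0) {v : Fin n → ℂ} (hv : (N ^ (n - 1)) *ᵥ v ≠ 0) :
    Submodule.span ℂ (Set.range fun i : Fin n => (N ^ (i : ℕ)) *ᵥ v) = ⊤ :=
  (Pool.Agent.Y119.HY.chain_li hN hv).span_eq_top_of_card_eq_finrank' (by simp)

section lin

variable {N : Matrix (Fin n) (Fin n) ℂ} {u φ : Fin n → ℂ}

/-- the operators `N^j u ⊗ φ N^i` -/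
def MM (N : Matrix (Fin n) (Fin n) ℂ) (u φ : Fin n → ℂ) (j i : ℕ) : Matrix (Fin n) (Fin n) ℂ :=
  vecMulVec ((N ^ j) *ᵥ u) (φ ᵥ* (N ^ i))

/-- the traces -/
def tt (N : Matrix (Fin n) (Fin n) ℂ) (u φ : Fin n → ℂ) (j : ℕ) : ℂ := φ ⬝ᵥ ((N ^ j) *ᵥ u)

/-- the traceless part -/
def DM (N : Matrix (Fin n) (Fin n) ℂ) (u φ : Fin n → ℂ) (j i : ℕ) : Matrix (Fin n) (Fin n) ℂ :=
  MM N u φ j i - tt N u φ (j + i) • MM N u φ 0 0

lemma MM_mul (j i l k : ℕ) : MM N u φ j i * MM N u φ l k = tt N u φ (i + l) • MM N u φ j k := by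
  unfold MM tt
  rw [vecMulVec_mul_vecMulVec, vecMulVec_smul]
  congr 1
  rw [← dotProduct_mulVec, mulVec_mulVec, ← pow_add]

lemma N_MM (j i : ℕ) : N * MM N u φ j i = MM N u φ (j + 1) i := by
  unfold MM
  rw [mul_vecMulVec, mulVec_mulVec, ← pow_succ']

lemma MM_N (j i : ℕ) : MM N u φ j i * N = MM N u φ j (i + 1) := by
  unfold MM
  rw [vecMulVec_mul, vecMul_vecMul, ← pow_succ]

variable (h1 : φ ⬝ᵥ u = 1) {L : Submodule ℂ (Matrix (Fin n) (Fin n) ℂ)} (hL : LieN N L)
  (h10 : DM N u φ 1 0 ∈ L) (h01 : DM N u φ 0 1 ∈ L)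

include h1 in
lemma tt_zero : tt N u φ 0 = 1 := by
  unfold tt
  rw [pow_zero, one_mulVec, h1]

include h1 hL in
lemma D_br {j i : ℕ} (hj : DM N u φ j 0 ∈ L) (hi : DM N u φ 0 i ∈ L) : DM N u φ j i ∈ L := by
  have h2 := hL.br _ hj _ hi
  have h0 := tt_zero (N := N) h1
  have e : DM N u φ j i = (DM N u φ j 0 * DM N u φ 0 i - DM N u φ 0 i * DM N u φ j 0) +
      tt N u φ i • DM N u φ j 0 + tt N u φ j • DM N u φ 0 i := by
    unfold DM
    simp only [Matrix.sub_mul, Matrix.mul_sub, Matrix.smul_mul, Matrix.mul_smul, MM_mul, add_zero, zero_add, h0, one_smul,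
      smul_smul, add_comm i j]
    module
  rw [e]
  exact L.add_mem (L.add_mem h2 (L.smul_mem _ hj)) (L.smul_mem _ hi)

include h1 hL h10 h01 in
lemma D_left (j : ℕ) : DM N u φ j 0 ∈ L := by
  have h0 := tt_zero (N := N) h1
  induction j with
  | zero =>
    have : DM N u φ 0 0 = 0 := by
      unfold DM
      rw [add_zero, h0, one_smul, sub_self]
    rw [this]
    exact L.zero_mem
  | succ j ih =>
    have h2 := D_br h1 hL ih h01
    have e : DM N u φ (j + 1) 0 = (N * DM N u φ j 0 - DM N u φ j 0 * N) + DM N u φ j 1 +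
        tt N u φ j • (DM N u φ 1 0 - DM N u φ 0 1) := by
      unfold DM
      simp only [Matrix.sub_mul, Matrix.mul_sub, Matrix.smul_mul, Matrix.mul_smul, N_MM, MM_N, add_zero, zero_add]
      module
    rw [e]
    exact L.add_mem (L.add_mem (hL.ad _ ih) h2) (L.smul_mem _ (L.sub_mem h10 h01))

include h1 hL h10 h01 in
lemma D_right (i : ℕ) : DM N u φ 0 i ∈ L := by
  have h0 := tt_zero (N := N) h1
  induction i with
  | zero => exact D_left h1 hL h10 h01 0
  | succ i ih =>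
    have h2 := D_br h1 hL h10 ih
    have e : DM N u φ 0 (i + 1) = DM N u φ 1 i - (N * DM N u φ 0 i - DM N u φ 0 i * N) -
        tt N u φ i • (DM N u φ 1 0 - DM N u φ 0 1) := by
      unfold DM
      simp only [Matrix.sub_mul, Matrix.mul_sub, Matrix.smul_mul, Matrix.mul_smul, N_MM, MM_N, add_zero, zero_add,
        add_comm 1 i]
      module
    rw [e]
    exact L.sub_mem (L.sub_mem h2 (hL.ad _ ih)) (L.smul_mem _ (L.sub_mem h10 h01))

include h1 hL h10 h01 in
/-- **Linear case: all matrices of trace zero.** -/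
theorem sl_le (hN : N ^ n = 0) (hu : (N ^ (n - 1)) *ᵥ u ≠ 0) (hφ : φ ᵥ* (N ^ (n - 1)) ≠ 0)
    {X : Matrix (Fin n) (Fin n) ℂ} (hX : X.trace = 0) : X ∈ L := by
  have hD : ∀ j i, DM N u φ j i ∈ L := fun j i => D_br h1 hL (D_left h1 hL h10 h01 j) (D_right h1 hL h10 h01 i)
  have hu' := chain_top hN hu
  have hNT : (Nᵀ) ^ n = 0 := by rw [← transpose_pow, hN, transpose_zero]
  have hφT : ((Nᵀ) ^ (n - 1)) *ᵥ φ ≠ 0 := by
    rw [← transpose_pow, mulVec_transpose]
    exact hφ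
  have hφ' := chain_top hNT hφT
  have key : ∀ a b : Fin n → ℂ, vecMulVec a b - (b ⬝ᵥ a) • MM N u φ 0 0 ∈ L := by
    intro a b
    have ha : a ∈ Submodule.span ℂ (Set.range fun i : Fin n => (N ^ (i : ℕ)) *ᵥ u) := by rw [hu']; trivial
    have hb : b ∈ Submodule.span ℂ (Set.range fun i : Fin n => (Nᵀ ^ (i : ℕ)) *ᵥ φ) := by rw [hφ']; trivial
    induction ha using Submodule.span_induction with
    | mem a ha =>
      obtain ⟨j, rfl⟩ := ha
      induction hb using Submodule.span_induction with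
      | mem b hb =>
        obtain ⟨i, rfl⟩ := hb
        have h2 := hD j i
        unfold DM at h2
        have e1 : (Nᵀ ^ (i : ℕ)) *ᵥ φ = φ ᵥ* (N ^ (i : ℕ)) := by rw [← transpose_pow, mulVec_transpose]
        have e2 : ((Nᵀ ^ (i : ℕ)) *ᵥ φ) ⬝ᵥ ((N ^ (j : ℕ)) *ᵥ u) = tt N u φ (j + i) := by
          rw [e1, ← dotProduct_mulVec, mulVec_mulVec, ← pow_add, add_comm]
          rfl
        simp only
        rw [e2, e1]
        exact h2
      | zero =>
        rw [vecMulVec_zero, zero_dotProduct, zero_smul, sub_zero]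
        exact L.zero_mem
      | add b b' _ _ h2 h3 =>
        have e : vecMulVec ((N ^ (j : ℕ)) *ᵥ u) (b + b') - ((b + b') ⬝ᵥ ((N ^ (j : ℕ)) *ᵥ u)) • MM N u φ 0 0 =
            (vecMulVec ((N ^ (j : ℕ)) *ᵥ u) b - (b ⬝ᵥ ((N ^ (j : ℕ)) *ᵥ u)) • MM N u φ 0 0) +
            (vecMulVec ((N ^ (j : ℕ)) *ᵥ u) b' - (b' ⬝ᵥ ((N ^ (j : ℕ)) *ᵥ u)) • MM N u φ 0 0) := by
          rw [vecMulVec_add, add_dotProduct]
          module
        simp only at h2 h3 ⊢
        rw [e]
        exact L.add_mem h2 h3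
      | smul c b _ h2 =>
        have e : vecMulVec ((N ^ (j : ℕ)) *ᵥ u) (c • b) - ((c • b) ⬝ᵥ ((N ^ (j : ℕ)) *ᵥ u)) • MM N u φ 0 0 =
            c • (vecMulVec ((N ^ (j : ℕ)) *ᵥ u) b - (b ⬝ᵥ ((N ^ (j : ℕ)) *ᵥ u)) • MM N u φ 0 0) := by
          rw [vecMulVec_smul, smul_dotProduct, smul_eq_mul]
          module
        simp only at h2 ⊢
        rw [e]
        exact L.smul_mem _ h2
    | zero =>
      rw [zero_vecMulVec, dotProduct_zero, zero_smul, sub_zero]
      exact L.zero_mem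
    | add a a' _ _ h2 h3 =>
      have e : vecMulVec (a + a') b - (b ⬝ᵥ (a + a')) • MM N u φ 0 0 =
          (vecMulVec a b - (b ⬝ᵥ a) • MM N u φ 0 0) + (vecMulVec a' b - (b ⬝ᵥ a') • MM N u φ 0 0) := by
        rw [add_vecMulVec, dotProduct_add]
        module
      rw [e]
      exact L.add_mem h2 h3
    | smul c a _ h2 =>
      have e : vecMulVec (c • a) b - (b ⬝ᵥ (c • a)) • MM N u φ 0 0 = c • (vecMulVec a b - (b ⬝ᵥ a) • MM N u φ 0 0) := by
        rw [smul_vecMulVec, dotProduct_smul, smul_eq_mul]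
        module
      rw [e]
      exact L.smul_mem _ h2
  have hsum : X = ∑ p, ∑ q, X p q • (vecMulVec (Pi.single p 1) (Pi.single q 1) -
      ((Pi.single q (1 : ℂ)) ⬝ᵥ (Pi.single p 1)) • MM N u φ 0 0) := by
    have e1 : ∑ p, ∑ q, X p q • (((Pi.single q (1 : ℂ) : Fin n → ℂ)) ⬝ᵥ (Pi.single p 1)) • MM N u φ 0 0 = 0 := by
      have e2 : ∀ p q, X p q • (((Pi.single q (1 : ℂ) : Fin n → ℂ)) ⬝ᵥ (Pi.single p 1)) • MM N u φ 0 0 =
          (X p q * (if q = p then 1 else 0)) • MM N u φ 0 0 := by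
        intro p q
        rw [smul_smul, single_dotProduct, one_mul, Pi.single_apply]
      simp only [e2, ← Finset.sum_smul]
      have e3 : ∑ p, ∑ q, X p q * (if q = p then (1 : ℂ) else 0) = X.trace := by
        unfold Matrix.trace
        refine Finset.sum_congr rfl fun p _ => ?_
        simp [Matrix.diag]
      rw [e3, hX, zero_smul]
    simp only [smul_sub, Finset.sum_sub_distrib]
    rw [e1, sub_zero]
    ext a b
    rw [Matrix.sum_apply]
    simp only [Matrix.sum_apply, Matrix.smul_apply, vecMulVec_apply, smul_eq_mul]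
    rw [Finset.sum_eq_single a, Finset.sum_eq_single b]
    · simp
    · intro q _ hq
      simp [hq.symm]
    · simp
    · intro p _ hp
      simp [hp.symm]
    · simp
  rw [hsum]
  exact L.sum_mem fun p _ => L.sum_mem fun q _ => L.smul_mem _ (key _ _)

end lin

section ort

variable {N J : Matrix (Fin n) (Fin n) ℂ} {v : Fin n → ℂ}

/-- the operator `x ↦ b(b, x) a - b(a, x) b` -/
def WW (J : Matrix (Fin n) (Fin n) ℂ) (a b : Fin n → ℂ) : Matrix (Fin n) (Fin n) ℂ := ro J a b - ro J b a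

lemma N_ro (a b : Fin n → ℂ) : N * ro J a b = ro J (N *ᵥ a) b := by
  unfold ro
  rw [mul_vecMulVec]

lemma ro_N (hNJ : Nᵀ * J + J * N = 0) (a b : Fin n → ℂ) : ro J a b * N = -ro J a (N *ᵥ b) := by
  unfold ro
  rw [vecMulVec_mul, vecMul_vecMul]
  have h1 : J * N = -(Nᵀ * J) := eq_neg_of_add_eq_zero_right hNJ
  rw [h1, vecMul_neg, ← vecMul_vecMul, vecMul_transpose, vecMulVec_neg]

lemma ad_WW (hNJ : Nᵀ * J + J * N = 0) (a b : Fin n → ℂ) : N * WW J a b - WW J a b * N = WW J (N *ᵥ a) b + WW J a (N *ᵥ b) := by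
  unfold WW
  rw [Matrix.mul_sub, Matrix.sub_mul, N_ro, N_ro, ro_N hNJ, ro_N hNJ]
  abel

lemma br_WW (hJ : Jᵀ = J) (v x y : Fin n → ℂ) : WW J v x * WW J v y - WW J v y * WW J v x =
    bf J x v • WW J v y - bf J v v • WW J x y + bf J v y • WW J x v := by
  have hs : ∀ a b, bf J a b = bf J b a := fun a b => Pool.Agent.Y123.GN.sym_bf hJ b a
  unfold WW
  simp only [Matrix.sub_mul, Matrix.mul_sub, ro_mul, hs y v, hs v x, hs y x]
  module

variable (hJ : Jᵀ = J) (hNJ : Nᵀ * J + J * N = 0) (hv : bf J v v ≠ 0) {L : Submodule ℂ (Matrix (Fin n) (Fin n) ℂ)}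
  (hL : LieN N L)

include hJ hv hL in
lemma W_br {x y : Fin n → ℂ} (hx : WW J v x ∈ L) (hy : WW J v y ∈ L) : WW J x y ∈ L := by
  have h1 := hL.br _ hx _ hy
  rw [br_WW hJ] at h1
  have hxv : WW J x v ∈ L := by
    have : WW J x v = -WW J v x := by unfold WW; abel
    rw [this]
    exact L.neg_mem hx
  have h2 : bf J v v • WW J x y ∈ L := by
    have e : bf J v v • WW J x y = bf J x v • WW J v y + bf J v y • WW J x v -
        (bf J x v • WW J v y - bf J v v • WW J x y + bf J v y • WW J x v) := by module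
    rw [e]
    exact L.sub_mem (L.add_mem (L.smul_mem _ hy) (L.smul_mem _ hxv)) h1
  have h3 := L.smul_mem (bf J v v)⁻¹ h2
  rwa [smul_smul, inv_mul_cancel₀ hv, one_smul] at h3

include hJ hNJ hv hL in
lemma W_chain (h1 : WW J v (N *ᵥ v) ∈ L) (m : ℕ) : WW J v ((N ^ m) *ᵥ v) ∈ L := by
  induction m with
  | zero =>
    have : WW J v ((N ^ 0) *ᵥ v) = 0 := by
      rw [pow_zero, one_mulVec]
      unfold WW
      exact sub_self _
    rw [this]
    exact L.zero_mem
  | succ m ih =>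
    have h2 := hL.ad _ ih
    rw [ad_WW hNJ, mulVec_mulVec, ← pow_succ'] at h2
    have h3 := W_br hJ hv hL h1 ih
    have e : WW J v ((N ^ (m + 1)) *ᵥ v) = (WW J (N *ᵥ v) ((N ^ m) *ᵥ v) + WW J v ((N ^ (m + 1)) *ᵥ v)) -
        WW J (N *ᵥ v) ((N ^ m) *ᵥ v) := by abel
    rw [e]
    exact L.sub_mem h2 h3

include hJ hNJ hv hL in
/-- **Orthogonal case: all skew matrices.** -/
theorem so_le (hN : N ^ n = 0) (hcyc : (N ^ (n - 1)) *ᵥ v ≠ 0) (h1 : WW J v (N *ᵥ v) ∈ L) (a b : Fin n → ℂ) : WW J a b ∈ L := by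
  have htop := chain_top hN hcyc
  have key : ∀ a : Fin n → ℂ, WW J v a ∈ L := by
    intro a
    have ha : a ∈ Submodule.span ℂ (Set.range fun i : Fin n => (N ^ (i : ℕ)) *ᵥ v) := by rw [htop]; trivial
    induction ha using Submodule.span_induction with
    | mem a ha =>
      obtain ⟨j, rfl⟩ := ha
      exact W_chain hJ hNJ hv hL h1 j
    | zero =>
      have : WW J v 0 = 0 := by
        unfold WW ro
        simp
      rw [this]
      exact L.zero_mem
    | add a a' _ _ h2 h3 =>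
      have e : WW J v (a + a') = WW J v a + WW J v a' := by
        unfold WW
        rw [ro_add_left, ro_add_right]
        abel
      rw [e]
      exact L.add_mem h2 h3
    | smul c a _ h2 =>
      have e : WW J v (c • a) = c • WW J v a := by
        unfold WW
        rw [ro_smul_left, ro_smul_right]
        module
      rw [e]
      exact L.smul_mem _ h2
  exact W_br hJ hv hL (key a) (key b)

end ort

end Q207.HM
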