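import Pool.Agent.Q207.HM.Lin
import Pool.Agent.Y119.HY.Inv

/-!
# Hypergeometric equations with an orthogonal form
-/

set_option autoImplicit false

open Filter Topology Matrix

namespace Q207.HM

open Pool.Agent.Y119.HY (Am Am_mul mul_Am Jm Jm_rel Bm um kx aq hq Hq Hq_zero cm cm_apply cm_mul cm_add cm_pow cm_transpose Hc uc ec
  uc_eq cm_vec mv_apply Ac_nil Ac_ec Ac_last Sol PG ps Hf Hf_an Hf_zero Lens E Yf Yf_ode E_fix E_exp E_mul_neg E_neg E_zero Gal Rel ev pt Vr
  conj_E mem_Lens real_mem_Lens slit_Lens const_Lens Gm HD PA Ep Ep_eval map_mul_eval map_C_eval Jc_rel)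

variable {n : ℕ} {Q R : Polynomial ℚ}

/-- `(X + 1/2) R` with an even polynomial `R` of even degree `n - 1` -/
structure QO (n : ℕ) (Q R : Polynomial ℚ) : Prop where
  g : QG n Q
  odd : Odd n
  monic : R.Monic
  deg : R.natDegree = n - 1
  sym : ∀ j, Odd j → R.coeff j = 0
  eq : Q = (Polynomial.X + Polynomial.C (1 / 2)) * R

/-- the coefficients of `R` -/
def rq (n : ℕ) (R : Polynomial ℚ) : Fin n → ℚ := fun j => R.coeff j

lemma QO.three (h : QO n Q R) : 3 ≤ n := by
  have h1 := h.g.two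
  obtain ⟨m, hm⟩ := h.odd
  omega

lemma coeff_Q (h : QO n Q R) (j : ℕ) : Q.coeff j = (if j = 0 then 0 else R.coeff (j - 1)) + R.coeff j / 2 := by
  rw [h.eq, add_mul, Polynomial.coeff_add, Polynomial.coeff_C_mul]
  rcases j with _ | j
  · rw [if_pos rfl, Polynomial.coeff_X_mul_zero]
    ring
  · rw [if_neg (by omega), Polynomial.coeff_X_mul, Nat.add_sub_cancel]
    ring

lemma rq_last (h : QO n Q R) : R.coeff (n - 1) = 1 := by
  rw [← h.deg]
  exact h.monic.coeff_natDegree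

lemma Q_last (h : QO n Q R) : Q.coeff (n - 1) = 1 / 2 := by
  have h3 := h.three
  have hodd : Odd (n - 1 - 1) := by
    obtain ⟨m, hm⟩ := h.odd
    exact ⟨m - 1, by omega⟩
  rw [coeff_Q h, if_neg (by omega), h.sym _ hodd, rq_last h]
  ring

lemma Jo_symm (h : QO n Q R) : (Jm n R)ᵀ = Jm n R := by
  ext i j
  rw [Matrix.transpose_apply]
  unfold Jm
  simp only [Matrix.of_apply]
  by_cases h1 : n ≤ (i : ℕ) + j + 1
  · rw [if_pos h1, if_pos (by omega)]
    have e1 : (j : ℕ) + i + 1 - n = i + j + 1 - n := by omega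
    rw [e1]
    rcases Nat.even_or_odd ((i : ℕ) + j + 1 - n) with h2 | h2
    · have h3 : Even ((i : ℕ) + j) := by
        obtain ⟨a, ha⟩ := h2
        obtain ⟨b, hb⟩ := h.odd
        exact ⟨a + b, by omega⟩
      have h4 : (-1 : ℚ) ^ (i : ℕ) * (-1) ^ (j : ℕ) = 1 := by rw [← pow_add, h3.neg_one_pow]
      have h5 : (-1 : ℚ) ^ (i : ℕ) * (-1) ^ (i : ℕ) = 1 := by rw [← pow_add, Even.neg_one_pow ⟨_, rfl⟩]
      have h6 : (-1 : ℚ) ^ (j : ℕ) = (-1) ^ (i : ℕ) := by linear_combination (-1 : ℚ) ^ (i : ℕ) * h4 - (-1 : ℚ) ^ (j : ℕ) * h5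
      rw [h6]
    · rw [h.sym _ h2]
      simp
  · rw [if_neg h1, if_neg (by omega)]

lemma R_zero (h : QO n Q R) : R.coeff 0 ≠ 0 := by
  have h1 := h.g.ne 0
  rw [Nat.cast_zero, ← Polynomial.coeff_zero_eq_eval_zero, coeff_Q h, if_pos rfl, zero_add] at h1
  exact fun h0 => h1 (by rw [h0, zero_div])

lemma Jo_det (h : QO n Q R) : (Jm n R).det ≠ 0 := by
  have h1 := Matrix.det_permute' (Fin.revPerm : Equiv.Perm (Fin n)) (Jm n R)
  have h2 : ((Jm n R).submatrix id (Fin.revPerm : Equiv.Perm (Fin n))).det = ∏ i : Fin n, ((-1) ^ (i : ℕ) * R.coeff 0) := by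
    rw [Matrix.det_of_isLowerTriangular]
    · refine Finset.prod_congr rfl fun i _ => ?_
      rw [Matrix.submatrix_apply]
      unfold Jm
      simp only [Matrix.of_apply, id, Fin.revPerm_apply, Fin.val_rev]
      have := i.2
      rw [if_pos (by omega)]
      congr 2
      omega
    · intro i j hij
      have hij' : (i : ℕ) < j := hij
      rw [Matrix.submatrix_apply]
      unfold Jm
      simp only [Matrix.of_apply, id, Fin.revPerm_apply, Fin.val_rev]
      have := j.2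
      rw [if_neg (by omega)]
  have h3 : ((Jm n R).submatrix id (Fin.revPerm : Equiv.Perm (Fin n))).det ≠ 0 := by
    rw [h2]
    refine Finset.prod_ne_zero_iff.2 fun i _ => mul_ne_zero (pow_ne_zero _ (by norm_num)) (R_zero h)
  intro h0
  rw [h0, mul_zero] at h1
  exact h3 h1

/-- `uᵀ J = ρᵀ` -/
lemma um_Jo (h : QO n Q R) : um n ᵥ* Jm n R = rq n R := by
  funext j
  have h3 := h.three
  rw [vecMul, dotProduct, Finset.sum_eq_single (li h.g.two)]
  · unfold um li Jm rq
    simp only [Matrix.of_apply]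
    rw [if_pos (by omega), if_pos (by omega), one_mul]
    have h2 : Even (n - 1) := by
      obtain ⟨b, hb⟩ := h.odd
      exact ⟨b, by omega⟩
    rw [h2.neg_one_pow, one_mul]
    congr 1
    omega
  · intro b _ hb
    unfold um
    rw [if_neg, zero_mul]
    intro h'
    apply hb
    apply Fin.ext
    unfold li
    dsimp only
    omega
  · intro h'
    exact absurd (Finset.mem_univ _) h'

lemma rq_um (h : QO n Q R) : rq n R ⬝ᵥ um n = 1 := by
  have h3 := h.three
  rw [dotProduct, Finset.sum_eq_single (li h.g.two)]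
  · unfold um li rq
    rw [if_pos (by dsimp only; omega), mul_one]
    exact rq_last h
  · intro b _ hb
    unfold um
    rw [if_neg, mul_zero]
    intro h'
    apply hb
    apply Fin.ext
    unfold li
    dsimp only
    omega
  · intro h'
    exact absurd (Finset.mem_univ _) h'

lemma Bm_vec (n : ℕ) (Q : Polynomial ℚ) : Bm n Q = vecMulVec (um n) (fun j : Fin n => Q.coeff j) := by
  ext i j
  rw [vecMulVec_apply]
  unfold Bm um
  rw [Matrix.of_apply]
  split_ifs <;> simp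

/-- `q = Aᵀ ρ + ρ / 2` -/
lemma q_eq (h : QO n Q R) : (fun j : Fin n => Q.coeff j) = rq n R ᵥ* Am n + (1 / 2 : ℚ) • rq n R := by
  funext j
  rw [coeff_Q h]
  have h1 : (rq n R ᵥ* Am n) j = if (j : ℕ) = 0 then 0 else R.coeff (j - 1) := by
    have h2 := mul_Am (Matrix.of fun _ : Fin n => rq n R) j j
    have h3 : ((Matrix.of fun _ : Fin n => rq n R) * Am n) j j = (rq n R ᵥ* Am n) j := rfl
    rw [← h3, h2]
    split_ifs with h4
    · rfl
    · rfl
  rw [Pi.add_apply, h1, Pi.smul_apply, smul_eq_mul]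
  unfold rq
  ring

/-- the rank one part of the form -/
def Rm (n : ℕ) (R : Polynomial ℚ) : Matrix (Fin n) (Fin n) ℚ := vecMulVec (rq n R) (rq n R)

/-- the equations between the form and the system -/
lemma form_eq (h : QO n Q R) : (Bm n Q)ᵀ * Jm n R + Jm n R * Bm n Q = (Am n)ᵀ * Rm n R + Rm n R * Am n + Rm n R ∧
    (Bm n Q)ᵀ * Rm n R + Rm n R * Bm n Q = (Am n)ᵀ * Rm n R + Rm n R * Am n + Rm n R := by
  have hJu : Jm n R *ᵥ um n = rq n R := by
    rw [← um_Jo h, ← mulVec_transpose, Jo_symm h]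
  have hu := rq_um h
  have hu' : um n ⬝ᵥ rq n R = 1 := by rw [dotProduct_comm]; exact hu
  have hAr : (Am n)ᵀ *ᵥ rq n R = rq n R ᵥ* Am n := mulVec_transpose _ _
  have e1 : (Am n)ᵀ * Rm n R + Rm n R * Am n + Rm n R = vecMulVec (fun j : Fin n => Q.coeff j) (rq n R) + vecMulVec (rq n R) (fun j : Fin n => Q.coeff j) := by
    unfold Rm
    rw [q_eq h, mul_vecMulVec, vecMulVec_mul, hAr]
    ext i j
    simp only [Matrix.add_apply, vecMulVec_apply, Pi.add_apply, Pi.smul_apply, smul_eq_mul]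
    ring
  constructor
  · rw [e1, Bm_vec, transpose_vecMulVec, vecMulVec_mul, mul_vecMulVec, um_Jo h, hJu]
  · rw [e1, Bm_vec, transpose_vecMulVec]
    unfold Rm
    rw [vecMulVec_mul_vecMulVec, vecMulVec_mul_vecMulVec, hu, hu', one_smul, one_smul]

section ana

lemma HD.sub_id {M : Matrix (Fin n) (Fin n) ℂ} (z : ℂ) (J : Matrix (Fin n) (Fin n) ℂ) : HD (fun w => J - w • M) (-M) z := by
  intro i j
  have h1 : HasDerivAt (fun w : ℂ => J i j - w * M i j) (-(1 * M i j)) z := ((hasDerivAt_id z).mul_const (M i j)).const_sub (J i j)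
  refine h1.congr_deriv ?_
  rw [one_mul, Matrix.neg_apply]

/-- **The orthogonal form.** -/
theorem form_ort (h : QO n Q R) {z : ℂ} (hz : z ∈ Lens) :
    (Yf (cm (Am n)) (Hc n Q) z)ᵀ * (cm (Jm n R) - z • cm (Rm n R)) * Yf (cm (Am n)) (Hc n Q) z = cm (Jm n R) := by
  set N0 := cm (Am n) with hN0
  set N1 := cm (Bm n Q) with hN1
  set J := cm (Jm n R) with hJ
  set M := cm (Rm n R) with hM
  set H := Hc n Q with hHd
  have hH : Sol N0 N1 H := sol_cG h.g
  have h0 : N0 ^ n = 0 := Ac_nil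
  obtain ⟨f1, f2⟩ := form_eq h
  have g1 : N1ᵀ * J + J * N1 = N0ᵀ * M + M * N0 + M := by
    have := congrArg cm f1
    simpa only [cm_add, cm_mul, cm_transpose] using this
  have g2 : N1ᵀ * M + M * N1 = N0ᵀ * M + M * N0 + M := by
    have := congrArg cm f2
    simpa only [cm_add, cm_mul, cm_transpose] using this
  have g0 : N0ᵀ * J + J * N0 = 0 := Jc_rel
  have hhalf : ((1 / 2 : ℝ) : ℂ) ∈ Lens := real_mem_Lens (by norm_num) (by norm_num)
  set S := (Yf N0 H ((1 / 2 : ℝ) : ℂ))ᵀ * (J - ((1 / 2 : ℝ) : ℂ) • M) * Yf N0 H ((1 / 2 : ℝ) : ℂ) with hS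
  have hconst : ∀ w ∈ Lens, (Yf N0 H w)ᵀ * (J - w • M) * Yf N0 H w = S := by
    intro w hw
    refine const_Lens (F := fun w => (Yf N0 H w)ᵀ * (J - w • M) * Yf N0 H w) (fun x hx => ?_) hw hhalf
    have h1 := Yf_ode hH h0 (mem_Lens.1 hx).1 (slit_Lens hx)
    have h2 := (h1.transpose.mul (HD.sub_id (M := M) x J)).mul h1
    refine h2.congr ?_
    have hx0 : x ≠ 0 := Complex.slitPlane_ne_zero (slit_Lens hx)
    have hx1 : (1 : ℂ) - x ≠ 0 := Complex.slitPlane_ne_zero (slit_Lens (Pool.Agent.Y119.HY.symm_Lens hx))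
    have key : (Gm N0 N1 x)ᵀ * (J - x • M) + -M + (J - x • M) * Gm N0 N1 x = 0 := by
      unfold Gm
      have e1 : ((1 / x) • N0 + (1 / (1 - x)) • N1)ᵀ * (J - x • M) + -M + (J - x • M) * ((1 / x) • N0 + (1 / (1 - x)) • N1) =
          (1 / x) • (N0ᵀ * J + J * N0) - ((1 / x) * x) • (N0ᵀ * M + M * N0) + (1 / (1 - x)) • (N1ᵀ * J + J * N1) -
            ((1 / (1 - x)) * x) • (N1ᵀ * M + M * N1) - M := by
        simp only [transpose_add, transpose_smul, Matrix.add_mul, Matrix.mul_add, Matrix.mul_sub, Matrix.sub_mul, Matrix.smul_mul,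
          Matrix.mul_smul]
        module
      rw [e1, g0, g1, g2]
      have e2 : (1 / x) * x = 1 := by field_simp
      have e3 : (1 / (1 - x)) - (1 / (1 - x)) * x = 1 := by field_simp
      have e4 : (1 / (1 - x)) • (N0ᵀ * M + M * N0 + M) - ((1 / (1 - x)) * x) • (N0ᵀ * M + M * N0 + M) = N0ᵀ * M + M * N0 + M := by
        rw [← sub_smul, e3, one_smul]
      rw [e2, one_smul, smul_zero, zero_sub, add_sub_assoc, e4]
      abel
    rw [transpose_mul]
    calc _ = (Yf N0 H x)ᵀ * ((Gm N0 N1 x)ᵀ * (J - x • M) + -M + (J - x • M) * Gm N0 N1 x) * Yf N0 H x := by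
          noncomm_ring
      _ = 0 := by rw [key, Matrix.mul_zero, Matrix.zero_mul]
  rw [hconst z hz]
  -- the holomorphic part
  have hHan : ∀ i j, AnalyticOnNhd ℂ (fun z => ((Hf H z)ᵀ * (J - z • M) * Hf H z) i j) (Metric.ball 0 1) := by
    intro i j
    simp only [Matrix.mul_apply, Matrix.transpose_apply]
    refine Finset.analyticOnNhd_fun_sum _ fun l _ => AnalyticOnNhd.mul ?_ (Hf_an hH h0 l j)
    refine Finset.analyticOnNhd_fun_sum _ fun k _ => ?_
    refine (Hf_an hH h0 k i).mul ?_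
    have : (fun z : ℂ => (J - z • M) k l) = fun z => J k l - z * M k l := rfl
    rw [this]
    exact analyticOnNhd_const.sub (analyticOnNhd_id.mul analyticOnNhd_const)
  have hlog : ∀ i j : Fin n, ∀ w ∈ Metric.ball (0 : ℂ) 1, Polynomial.C (((Hf H w)ᵀ * (J - w • M) * Hf H w) i j) +
      -(((Ep (-N0))ᵀ * S.map Polynomial.C * Ep (-N0)) i j) = 0 := by
    intro i j
    refine PA.log_zero (f := fun w => Polynomial.C (((Hf H w)ᵀ * (J - w • M) * Hf H w) i j) +
      -(((Ep (-N0))ᵀ * S.map Polynomial.C * Ep (-N0)) i j)) ((PA.ofFun (hHan i j)).add (PA.const _)) fun x hx hx1 => ?_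
    have h1 := hconst x (real_mem_Lens hx hx1)
    have h2 : ((Ep (-N0))ᵀ * S.map Polynomial.C * Ep (-N0)).map (Polynomial.eval ((Real.log x : ℝ) : ℂ)) =
        (Hf H x)ᵀ * (J - (x : ℂ) • M) * Hf H x := by
      rw [map_mul_eval, map_mul_eval, Matrix.transpose_map, map_C_eval, Ep_eval, E_neg, ← h1]
      unfold Yf
      rw [← Complex.ofReal_log hx.le, transpose_mul]
      set L : ℂ := ((Real.log x : ℝ) : ℂ)
      have h3 : E N0 L * E N0 (-L) = 1 := E_mul_neg h0 L
      have h4 : (E N0 (-L))ᵀ * (E N0 L)ᵀ = 1 := by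
        rw [← transpose_mul, h3, transpose_one]
      calc (E N0 (-L))ᵀ * ((E N0 L)ᵀ * (Hf H x)ᵀ * (J - (x : ℂ) • M) * (Hf H x * E N0 L)) * E N0 (-L)
          = ((E N0 (-L))ᵀ * (E N0 L)ᵀ) * (Hf H x)ᵀ * (J - (x : ℂ) • M) * Hf H x * (E N0 L * E N0 (-L)) := by
            simp only [Matrix.mul_assoc]
        _ = _ := by rw [h3, h4, one_mul, mul_one]
    rw [Polynomial.eval_add, Polynomial.eval_neg, Polynomial.eval_C, ← h2]
    simp only [Matrix.map_apply]
    ring
  ext i j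
  have h5 := congrArg (Polynomial.eval 0) (hlog i j 0 (Metric.mem_ball_self one_pos))
  rw [Polynomial.eval_add, Polynomial.eval_neg, Polynomial.eval_C, Hf_zero hH, transpose_one, one_mul, mul_one, Polynomial.eval_zero,
    zero_smul, sub_zero] at h5
  have h6 : ((Ep (-N0))ᵀ * S.map Polynomial.C * Ep (-N0)).map (Polynomial.eval 0) = S := by
    rw [map_mul_eval, map_mul_eval, Matrix.transpose_map, map_C_eval, Ep_eval, E_zero (by
      rw [neg_pow, h0, mul_zero]), transpose_one, one_mul, mul_one]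
  have h7 := congrFun (congrFun h6 i) j
  rw [Matrix.map_apply] at h7
  rw [h7] at h5
  linear_combination -h5

/-- the relation -/
noncomputable def rel (J M : Matrix (Fin n) (Fin n) ℂ) (i j : Fin n) : MvPolynomial (Vr n) ℂ :=
  ∑ l, (∑ k, MvPolynomial.X (some (some (k, i))) * (MvPolynomial.C (J k l) - MvPolynomial.X none * MvPolynomial.C (M k l))) *
    MvPolynomial.X (some (some (l, j))) - MvPolynomial.C (J i j)

lemma ev_rel (J M : Matrix (Fin n) (Fin n) ℂ) (i j : Fin n) (z L : ℂ) (X : Matrix (Fin n) (Fin n) ℂ) :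
    ev (rel J M i j) z L X = (Xᵀ * (J - z • M) * X) i j - J i j := by
  unfold ev rel
  rw [map_sub, map_sum, MvPolynomial.eval_C, Matrix.mul_apply]
  congr 1
  refine Finset.sum_congr rfl fun l _ => ?_
  rw [map_mul, map_sum, MvPolynomial.eval_X, Matrix.mul_apply]
  congr 1
  refine Finset.sum_congr rfl fun k _ => ?_
  rw [map_mul, map_sub, map_mul, MvPolynomial.eval_X, MvPolynomial.eval_X, MvPolynomial.eval_C, MvPolynomial.eval_C]
  rfl

lemma gal_form (h : QO n Q R) {g : Matrix (Fin n) (Fin n) ℂ} (hg : g ∈ Gal (Yf (cm (Am n)) (Hc n Q))) :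
    gᵀ * cm (Jm n R) * g = cm (Jm n R) := by
  have h1 : ∀ i j, rel (cm (Jm n R)) (cm (Rm n R)) i j ∈ Rel (Yf (cm (Am n)) (Hc n Q)) := by
    intro i j x hx hx1
    rw [ev_rel, form_ort h (real_mem_Lens hx hx1), sub_self]
  have hx : ((1 / 2 : ℝ) : ℂ) ∈ Lens := real_mem_Lens (by norm_num) (by norm_num)
  ext i j
  have h2 := hg _ (h1 i j) (1 / 2) (by norm_num) (by norm_num)
  rw [ev_rel, transpose_mul] at h2
  have h3 := form_ort h hx
  set Y := Yf (cm (Am n)) (Hc n Q) ((1 / 2 : ℝ) : ℂ)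
  have h4 : gᵀ * Yᵀ * (cm (Jm n R) - ((1 / 2 : ℝ) : ℂ) • cm (Rm n R)) * (Y * g) =
      gᵀ * (Yᵀ * (cm (Jm n R) - ((1 / 2 : ℝ) : ℂ) • cm (Rm n R)) * Y) * g := by
    simp only [Matrix.mul_assoc]
  rw [h4, h3] at h2
  linear_combination h2

/-- **The differential Galois group of the hypergeometric equation, orthogonal case.** -/
theorem hyp_ort (h : QO n Q R) (g : Matrix (Fin n) (Fin n) ℂ) (hg : gᵀ * cm (Jm n R) * g = cm (Jm n R)) :
    g ∈ Gal (Yf (cm (Am n)) (Hc n Q)) := by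
  have hs : ((Q.coeff (n - 1) : ℚ) : ℂ) = 1 / 2 := by
    rw [Q_last h]
    push_cast
    rfl
  obtain ⟨u, φ, h1, h2, h3, h4⟩ := refl_data h.g fun m hm => by
    rw [hs] at hm
    have h5 : (1 : ℂ) = ((2 * m : ℤ) : ℂ) := by
      push_cast
      rw [← hm]
      norm_num
    have h6 : (1 : ℤ) = 2 * m := by exact_mod_cast h5
    omega
  have hr := h2 1
  have e1 : Complex.exp (-((Q.coeff (n - 1) : ℚ) : ℂ) * (2 * Real.pi * Complex.I * ((1 : ℤ) : ℂ))) = -1 := by
    rw [hs]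
    have : -(1 / 2 : ℂ) * (2 * Real.pi * Complex.I * ((1 : ℤ) : ℂ)) = -(Real.pi * Complex.I) := by
      push_cast
      ring
    rw [this, Complex.exp_neg, Complex.exp_pi_mul_I, inv_neg, inv_one]
  rw [e1] at hr
  have e2 : (1 : Matrix (Fin n) (Fin n) ℂ) + ((-1 : ℂ) - 1) • vecMulVec u φ = 1 - (2 : ℂ) • vecMulVec u φ := by module
  rw [e2] at hr
  have hdet : (cm (Jm n R)).det ≠ 0 := by
    have h5 : (cm (Jm n R)).det = algebraMap ℚ ℂ (Jm n R).det := (RingHom.map_det _ _).symm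
    rw [h5]
    exact (map_ne_zero _).2 (Jo_det h)
  refine o_sub (Gal_isClosed _) (A := cm (Am n)) (fun t g hg => ?_) h1 hr (J := cm (Jm n R)) ?_ hdet Jc_rel (gal_form h hr) h.three Ac_nil h3
    g hg
  · have h5 := conj_E Ac_nil (sol_cG h.g) t g hg
    rw [E_exp Ac_nil, E_exp Ac_nil] at h5
    exact h5
  · rw [← cm_transpose, Jo_symm h]

end ana

end Q207.HM
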