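import Pool.Agent.Y119.HY.Ari
import Pool.Agent.Q207.HM.Ort

/-!
# Denominators of the coefficients of the hypergeometric system, all rational exponents
-/

set_option autoImplicit false

open PowerSeries

namespace Q207.HM

open Pool.Agent.Y119.HY (Am Bm um kx aq hq Hq Hq_zero cm cm_apply Hc Ac_nil Sol PG uq uq_eq poch_int SL SL_coeff SL_C SL_X hps sdc_of PG.exp)

variable {n : ℕ}

/-- the polynomial with the roots `-α_i` -/
noncomputable def QA (α : Fin n → ℚ) : Polynomial ℚ := ∏ i, (Polynomial.X + Polynomial.C (α i))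

lemma aq_QA (α : Fin n → ℚ) (k : ℕ) : aq n (QA α) k = ∏ i, uq (α i) k := by
  unfold aq uq QA
  rw [Finset.prod_comm]
  refine Finset.prod_congr rfl fun l _ => ?_
  rw [map_prod]
  have h1 : ∀ i : Fin n, Polynomial.aeval (kx l) (Polynomial.X + Polynomial.C (α i)) = C ((l : ℚ) + α i) + X := by
    intro i
    rw [map_add, Polynomial.aeval_X, Polynomial.aeval_C]
    have h2 : algebraMap ℚ ℚ⟦X⟧ (α i) = C (α i) := rfl
    rw [h2, map_add]
    unfold kx
    ring
  simp only [h1]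
  have h3 : ((kx (l + 1))⁻¹) ^ n = ∏ _i : Fin n, (kx (l + 1))⁻¹ := by
    rw [Finset.prod_const, Finset.card_univ, Fintype.card_fin]
  rw [h3, ← Finset.prod_mul_distrib]

/-- not an integer -/
def NI (γ : ℚ) : Prop := ∀ l : ℤ, (l : ℚ) ≠ γ

lemma NI.nat {γ : ℚ} (h : NI γ) (l : ℕ) : (l : ℚ) + γ ≠ 0 := by
  intro h0
  apply h (-l)
  push_cast
  linear_combination -h0

lemma QG_QA (hn : 2 ≤ n) {α : Fin n → ℚ} (hα : ∀ i, NI (α i)) : QG n (QA α) where
  two := hn
  monic := Polynomial.monic_prod_of_monic _ _ fun i _ => Polynomial.monic_X_add_C _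
  deg := by
    unfold QA
    rw [Polynomial.natDegree_prod_of_monic _ _ fun i _ => Polynomial.monic_X_add_C _]
    simp
  ne := by
    intro l
    unfold QA
    rw [Polynomial.eval_prod]
    refine Finset.prod_ne_zero_iff.2 fun i _ => ?_
    rw [Polynomial.eval_add, Polynomial.eval_X, Polynomial.eval_C]
    exact (hα i).nat l
  ne' := by
    intro l
    unfold QA
    rw [Polynomial.eval_prod]
    refine Finset.prod_ne_zero_iff.2 fun i _ => ?_
    rw [Polynomial.eval_add, Polynomial.eval_X, Polynomial.eval_C]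
    intro h0
    apply hα i (l + 1)
    push_cast
    linear_combination -h0

/-- the denominators -/
lemma hq_denG {α : Fin n → ℚ} (hα : ∀ i, NI (α i)) :
    ∃ A : ℝ, ∀ K, ∃ d : ℕ, 0 < d ∧ (d : ℝ) ≤ A ^ (K + 1) ∧ ∀ k ≤ K, ∀ i j : ℕ, j < n → ∃ a : ℤ, (d : ℚ) * hq n (QA α) k i j = a := by
  set Bd : ℕ := 1 + ∑ i, ((α i).den + (α i).num.natAbs) with hBd
  have hBi : ∀ i, (α i).den + (α i).num.natAbs + 1 ≤ Bd := by
    intro i
    have := Finset.single_le_sum (f := fun i => (α i).den + (α i).num.natAbs) (fun _ _ => Nat.zero_le _) (Finset.mem_univ i)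
    omega
  set M : ℕ := ∏ i, ((α i).den ^ 2) with hM
  have hM1 : 1 ≤ M := by
    rw [hM]
    refine Nat.succ_le_of_lt (Finset.prod_pos fun i _ => ?_)
    have := (α i).den_pos
    positivity
  refine ⟨(M : ℝ) * ((2 ^ 8) ^ Bd) ^ n, fun K => ?_⟩
  set L : ℕ := Nat.lcmUpto (K * Bd + Bd) with hL
  have hL0 : 0 < L := Nat.lcmUpto_pos _
  have hLd : ∀ γ : ℚ, γ.den + γ.num.natAbs + 1 ≤ Bd → ∀ i : ℕ, 1 ≤ i → i ≤ K * γ.den + γ.num.natAbs + K → i ∣ L := by
    intro γ hγ i h1 h2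
    refine Pool.Agent.Y113.dvd_lcmUpto h1 (h2.trans ?_)
    have h3 : K * (γ.den + 1) ≤ K * Bd := Nat.mul_le_mul_left _ (by omega)
    rw [mul_add, mul_one] at h3
    omega
  refine ⟨M ^ K * L ^ n, by positivity, ?_, fun k hk i j hj => ?_⟩
  · push_cast
    have h1 : (L : ℝ) ≤ (2 ^ 8) ^ (K * Bd + Bd) := Pool.Agent.Y113.lcm_bound _
    have hM1' : (1 : ℝ) ≤ M := by exact_mod_cast hM1
    calc (M : ℝ) ^ K * (L : ℝ) ^ n ≤ (M : ℝ) ^ (K + 1) * ((2 ^ 8) ^ (K * Bd + Bd)) ^ n :=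
          mul_le_mul (pow_le_pow_right₀ hM1' (Nat.le_succ K)) (pow_le_pow_left₀ (by positivity) h1 _) (by positivity)
            (by positivity)
      _ = _ := by
          rw [mul_pow]
          congr 1
          generalize ((2 : ℝ) ^ 8) = B
          rw [← pow_mul, ← pow_mul, ← pow_mul]
          congr 1
          ring
  · -- the factors
    have hm1 : ∀ i, ∃ w ∈ SL L, uq (α i) k = C (∏ l ∈ Finset.range k, (((l : ℚ) + α i) / ((l : ℚ) + 1))) * w := fun i =>
      uq_eq (fun l => (hα i).nat l) hk (hLd _ (hBi i))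
    choose w1 hw1 hw1' using hm1
    set c : ℚ := ∏ i, (∏ l ∈ Finset.range k, (((l : ℚ) + α i) / ((l : ℚ) + 1))) with hc
    have haq : aq n (QA α) k = C c * ∏ i, w1 i := by
      rw [aq_QA, hc, map_prod, ← Finset.prod_mul_distrib]
      exact Finset.prod_congr rfl fun i _ => hw1' i
    have hcM : ∃ a : ℤ, ((M : ℚ) ^ k) * c = a := by
      choose a ha using fun i => poch_int (α i) k
      refine ⟨∏ i, a i, ?_⟩
      rw [hc, hM]
      push_cast
      rw [← Finset.prod_pow, ← Finset.prod_mul_distrib]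
      refine Finset.prod_congr rfl fun i _ => ?_
      rw [← ha i]
    obtain ⟨a, ha⟩ := hcM
    have hmem : kx k ^ i * ∏ i, w1 i ∈ SL L := by
      refine (SL L).mul_mem ((SL L).pow_mem ((SL L).add_mem ?_ (SL_X L)) _) ((SL L).prod_mem fun i _ => hw1 i)
      have := SL_C L (k : ℤ)
      exact_mod_cast this
    obtain ⟨b, hb⟩ := SL_coeff hmem j
    refine ⟨(M : ℤ) ^ (K - k) * a * ((L : ℤ) ^ (n - j) * b), ?_⟩
    unfold hq
    rw [haq, show kx k ^ i * (C c * ∏ i, w1 i) = C c * (kx k ^ i * ∏ i, w1 i) by ring,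
      PowerSeries.coeff_C_mul]
    push_cast
    rw [← ha, ← hb]
    have e1 : (M : ℚ) ^ K = (M : ℚ) ^ (K - k) * (M : ℚ) ^ k := by rw [← pow_add]; congr 1; omega
    have e2 : (L : ℚ) ^ n = (L : ℚ) ^ (n - j) * (L : ℚ) ^ j := by rw [← pow_add]; congr 1; omega
    rw [e1, e2]
    ring

open Pool.Agent.Y113 in
/-- the entries of the holomorphic part are G-functions -/
theorem sdc_hpsG {α : Fin n → ℚ} (hα : ∀ i, NI (α i)) (hQ : QG n (QA α)) (i j : Fin n) : SDc (hps n (QA α) i j) := by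
  refine sdc_of ?_ ?_
  · obtain ⟨A, hA⟩ := ((sol_cG hQ).growth Ac_nil i j).exp
    refine ⟨A, fun k => ?_⟩
    have h1 := hA k
    unfold Hc at h1
    rw [cm_apply] at h1
    unfold hps
    rw [PowerSeries.coeff_mk]
    refine le_trans (le_of_eq ?_) h1
    have e1 : ((Hq n (QA α) k i j : ℚ) : ℂ) = (((Hq n (QA α) k i j : ℚ) : ℝ) : ℂ) := by push_cast; rfl
    rw [e1, Complex.norm_real, Real.norm_eq_abs]
    rfl
  · obtain ⟨A, hA⟩ := hq_denG hα
    refine ⟨A, fun K => ?_⟩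
    obtain ⟨d, hd0, hd, hd'⟩ := hA K
    refine ⟨d, hd0, hd, fun k hk => ?_⟩
    unfold hps
    rw [PowerSeries.coeff_mk]
    exact hd' k hk i j j.2

end Q207.HM
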