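import Pool.Agent.Q207.HM.Lie
import Pool.Agent.Y119.HY.Data2

/-!
# Block diagonal matrices
-/

set_option autoImplicit false

open Filter Topology Matrix

namespace Q207.HM

open Pool.Agent.Y119.HY (cm cm_apply Sol PG ps Hf E E_exp Yf)

variable {r : ℕ} {n : Fin r → ℕ}

/-- the size of the big matrices -/
abbrev sz (n : Fin r → ℕ) : ℕ := ∑ i, n i

/-- the tuples of matrices -/
abbrev Bl (n : Fin r → ℕ) (R : Type*) : Type _ := ∀ i, Matrix (Fin (n i)) (Fin (n i)) R

/-- the block diagonal matrix -/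
noncomputable def BD {R : Type*} [Semiring R] : Bl n R →+* Matrix (Fin (sz n)) (Fin (sz n)) R :=
  ((Matrix.reindexRingEquiv R (finSigmaFinEquiv (n := n))) : _ →+* _).comp
    (Matrix.blockDiagonal'RingHom (fun i => Fin (n i)) R)

lemma BD_def {R : Type*} [Semiring R] (X : Bl n R) : BD X = (Matrix.blockDiagonal' X).submatrix finSigmaFinEquiv.symm finSigmaFinEquiv.symm := rfl

lemma BD_apply {R : Type*} [Semiring R] (X : Bl n R) (p q : Σ i : Fin r, Fin (n i)) :
    BD X (finSigmaFinEquiv p) (finSigmaFinEquiv q) = Matrix.blockDiagonal' X p q := by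
  rw [BD_def, Matrix.submatrix_apply, Equiv.symm_apply_apply, Equiv.symm_apply_apply]

lemma BD_eq {R : Type*} [Semiring R] (X : Bl n R) (i : Fin r) (a b : Fin (n i)) :
    BD X (finSigmaFinEquiv ⟨i, a⟩) (finSigmaFinEquiv ⟨i, b⟩) = X i a b := by
  rw [BD_apply, Matrix.blockDiagonal'_apply_eq]

lemma BD_ne {R : Type*} [Semiring R] (X : Bl n R) {i j : Fin r} (h : i ≠ j) (a : Fin (n i)) (b : Fin (n j)) :
    BD X (finSigmaFinEquiv ⟨i, a⟩) (finSigmaFinEquiv ⟨j, b⟩) = 0 := by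
  rw [BD_apply]
  exact Matrix.blockDiagonal'_apply_ne X a b h

/-- extensionality over the blocks -/
lemma BD_ext {R : Type*} {M N : Matrix (Fin (sz n)) (Fin (sz n)) R}
    (h : ∀ p q : Σ i : Fin r, Fin (n i), M (finSigmaFinEquiv p) (finSigmaFinEquiv q) = N (finSigmaFinEquiv p) (finSigmaFinEquiv q)) :
    M = N := by
  ext a b
  have := h (finSigmaFinEquiv.symm a) (finSigmaFinEquiv.symm b)
  rwa [Equiv.apply_symm_apply, Equiv.apply_symm_apply] at this

lemma BD_inj {R : Type*} [Semiring R] : Function.Injective (BD (n := n) (R := R)) := by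
  intro X Y h
  funext i
  ext a b
  rw [← BD_eq X, ← BD_eq Y, h]

/-- a matrix which is block diagonal -/
lemma BD_of {R : Type*} [Semiring R] (X : Bl n R) {M : Matrix (Fin (sz n)) (Fin (sz n)) R}
    (h1 : ∀ i (a b : Fin (n i)), M (finSigmaFinEquiv ⟨i, a⟩) (finSigmaFinEquiv ⟨i, b⟩) = X i a b)
    (h2 : ∀ i j, i ≠ j → ∀ (a : Fin (n i)) (b : Fin (n j)), M (finSigmaFinEquiv ⟨i, a⟩) (finSigmaFinEquiv ⟨j, b⟩) = 0) :
    M = BD X := by
  refine BD_ext fun p q => ?_
  obtain ⟨i, a⟩ := p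
  obtain ⟨j, b⟩ := q
  by_cases h : i = j
  · subst h
    rw [h1, BD_eq]
  · rw [h2 i j h, BD_ne X h]

lemma BD_smul {R : Type*} [CommSemiring R] (c : R) (X : Bl n R) : BD (fun i => c • X i) = c • BD X := by
  symm
  refine BD_of _ (fun i a b => ?_) fun i j h a b => ?_
  · rw [Matrix.smul_apply, BD_eq, Matrix.smul_apply]
  · rw [Matrix.smul_apply, BD_ne X h, smul_zero]

lemma BD_map {R S : Type*} [Semiring R] [Semiring S] (f : R →+* S) (X : Bl n R) :
    f.mapMatrix (BD X) = BD fun i => f.mapMatrix (X i) := by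
  refine BD_of _ (fun i a b => ?_) fun i j h a b => ?_
  · rw [RingHom.mapMatrix_apply, Matrix.map_apply, BD_eq]
    rfl
  · rw [RingHom.mapMatrix_apply, Matrix.map_apply, BD_ne X h, map_zero]

lemma BD_mul {R : Type*} [Semiring R] (X Y : Bl n R) : BD (fun i => X i * Y i) = BD X * BD Y := map_mul BD X Y
lemma BD_add {R : Type*} [Semiring R] (X Y : Bl n R) : BD (fun i => X i + Y i) = BD X + BD Y := map_add BD X Y
lemma BD_sub {R : Type*} [Ring R] (X Y : Bl n R) : BD (fun i => X i - Y i) = BD X - BD Y := map_sub BD X Y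
lemma BD_neg {R : Type*} [Ring R] (X : Bl n R) : BD (fun i => -X i) = -BD X := map_neg BD X
lemma BD_one {R : Type*} [Semiring R] : BD (fun i => (1 : Matrix (Fin (n i)) (Fin (n i)) R)) = 1 := map_one BD
lemma BD_zero {R : Type*} [Semiring R] : BD (fun i => (0 : Matrix (Fin (n i)) (Fin (n i)) R)) = 0 := map_zero BD
lemma BD_pow {R : Type*} [Semiring R] (X : Bl n R) (k : ℕ) : BD (fun i => X i ^ k) = BD X ^ k := map_pow BD X k

lemma cm_BD (X : Bl n ℚ) : cm (BD X) = BD fun i => cm (X i) := BD_map _ _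

lemma BD_cont : Continuous (BD (n := n) (R := ℂ)) := by
  refine continuous_pi fun a => continuous_pi fun b => ?_
  obtain ⟨⟨i, a⟩, rfl⟩ := finSigmaFinEquiv.surjective a
  obtain ⟨⟨j, b⟩, rfl⟩ := finSigmaFinEquiv.surjective b
  by_cases h : i = j
  · subst h
    have : (fun X : Bl n ℂ => BD X (finSigmaFinEquiv ⟨i, a⟩) (finSigmaFinEquiv ⟨i, b⟩)) = fun X => X i a b := by
      funext X
      rw [BD_eq]
    rw [this]
    exact (continuous_apply_apply a b).comp (continuous_apply i)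
  · have : (fun X : Bl n ℂ => BD X (finSigmaFinEquiv ⟨i, a⟩) (finSigmaFinEquiv ⟨j, b⟩)) = fun X => 0 := by
      funext X
      rw [BD_ne X h]
    rw [this]
    exact continuous_const

section exp

attribute [local instance] Matrix.linftyOpNormedRing Matrix.linftyOpNormedAlgebra

lemma BD_exp (X : Bl n ℂ) : NormedSpace.exp (BD X) = BD fun i => NormedSpace.exp (X i) := by
  let _ : ∀ i, NormedAlgebra ℚ (Matrix (Fin (n i)) (Fin (n i)) ℂ) := fun i => NormedAlgebra.restrictScalars ℚ ℂ _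
  let _ : NormedAlgebra ℚ (Matrix (Fin (sz n)) (Fin (sz n)) ℂ) := NormedAlgebra.restrictScalars ℚ ℂ _
  have h1 := NormedSpace.map_exp (BD (n := n) (R := ℂ)) BD_cont X
  have h3 : NormedSpace.exp X = fun i => NormedSpace.exp (X i) := by
    funext i
    exact NormedSpace.map_exp (Pi.evalRingHom (fun i => Matrix (Fin (n i)) (Fin (n i)) ℂ) i) (continuous_apply i) X
  exact h1.symm.trans (congrArg _ h3)

end exp

lemma BD_nil {R : Type*} [Semiring R] {A : Bl n R} (h : ∀ i, A i ^ n i = 0) : BD A ^ (sz n) = 0 := by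
  rw [← BD_pow, ← BD_zero]
  congr 1
  funext i
  exact pow_eq_zero_of_le (Finset.single_le_sum (f := n) (fun _ _ => Nat.zero_le _) (Finset.mem_univ i)) (h i)

lemma E_BD {A : Bl n ℂ} (h : ∀ i, A i ^ n i = 0) (s : ℂ) : E (BD A) s = BD fun i => E (A i) s := by
  rw [E_exp (BD_nil h), ← BD_smul, BD_exp]
  congr 1
  funext i
  rw [E_exp (h i)]

lemma Hf_BD (H : ∀ i, ℕ → Matrix (Fin (n i)) (Fin (n i)) ℂ) (z : ℂ) : Hf (fun k => BD fun i => H i k) z = BD fun i => Hf (H i) z := by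
  refine BD_of _ (fun i a b => ?_) fun i j h a b => ?_
  · unfold Hf
    rw [Matrix.of_apply, Matrix.of_apply]
    have : (fun k => (BD fun i => H i k) (finSigmaFinEquiv ⟨i, a⟩) (finSigmaFinEquiv ⟨i, b⟩)) = fun k => H i k a b := by
      funext k
      rw [BD_eq]
    rw [this]
  · unfold Hf
    rw [Matrix.of_apply]
    have : (fun k => (BD fun i => H i k) (finSigmaFinEquiv ⟨i, a⟩) (finSigmaFinEquiv ⟨j, b⟩)) = fun _ => (0 : ℂ) := by
      funext k
      rw [BD_ne _ h]
    rw [this]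
    unfold ps
    simp

lemma Yf_BD {A : Bl n ℂ} (h : ∀ i, A i ^ n i = 0) (H : ∀ i, ℕ → Matrix (Fin (n i)) (Fin (n i)) ℂ) (z : ℂ) :
    Yf (BD A) (fun k => BD fun i => H i k) z = BD fun i => Yf (A i) (H i) z := by
  unfold Yf
  rw [Hf_BD, E_BD h, ← BD_mul]

lemma sol_BD {A B : Bl n ℂ} {H : ∀ i, ℕ → Matrix (Fin (n i)) (Fin (n i)) ℂ} (h : ∀ i, Sol (A i) (B i) (H i)) :
    Sol (BD A) (BD B) (fun k => BD fun i => H i k) := by
  refine ⟨?_, fun k => ?_⟩
  · simp only [(h _).zero]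
    exact BD_one
  · rw [← BD_mul, ← BD_mul, ← BD_mul, ← BD_mul, ← BD_mul, ← BD_sub, ← BD_sub, ← BD_smul, ← BD_smul, ← BD_add, ← BD_add, ← BD_add]
    congr 1
    funext i
    exact (h i).step k

end Q207.HM
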