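import Pool.Agent.Q207.HM.Jnt
import Pool.Agent.Q207.HM.Bd

/-!
# Closed groups of block diagonal matrices
-/

set_option autoImplicit false

open Matrix

namespace Q207.HM

open Pool.Agent.Y123.GN (bf ro ro_mul ro_add_left ro_add_right ro_smul_left ro_smul_right sym_bf)
open Pool.Agent.Y119.HY (E E_exp E_add E_zero E_mul_neg E_isom)

section gen

variable {n : ℕ} {S : Submonoid (Matrix (Fin n) (Fin n) ℂ)}

/-- generation of the special linear group -/
lemma gen_SL (hn : 2 ≤ n) (h : ∀ a b : Fin n → ℂ, b ⬝ᵥ a = 0 → ∀ c : ℂ, NormedSpace.exp (c • vecMulVec a b) ∈ S)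
    {g : Matrix (Fin n) (Fin n) ℂ} (hg : g.det = 1) : g ∈ S := by
  -- transvections
  have htr : ∀ (i j : Fin n) (_ : i ≠ j) (c : ℂ), (Matrix.transvection i j c : Matrix (Fin n) (Fin n) ℂ) ∈ S := by
    intro i j hij c
    have e : vecMulVec (Pi.single i (1 : ℂ)) (Pi.single j 1) = Matrix.single i j (1 : ℂ) := by
      ext a b
      rw [vecMulVec_apply, Matrix.single_apply, Pi.single_apply, Pi.single_apply]
      by_cases h1 : a = i
      · by_cases h2 : b = j
        · rw [if_pos h1, if_pos h2, if_pos ⟨h1.symm, h2.symm⟩, mul_one]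
        · rw [if_neg h2, if_neg (fun h' : i = a ∧ j = b => h2 h'.2.symm), mul_zero]
      · rw [if_neg h1, if_neg (fun h' : i = a ∧ j = b => h1 h'.1.symm), zero_mul]
    have h2 := h (Pi.single i 1) (Pi.single j 1) (by
      rw [single_dotProduct, one_mul, Pi.single_eq_of_ne hij.symm]) c
    rw [e] at h2
    have h3 : (c • Matrix.single i j (1 : ℂ)) ^ 2 = 0 := by
      rw [pow_two, smul_mul_smul_comm, Matrix.single_mul_single_of_ne _ _ _ _ hij.symm _, smul_zero]
    have h4 : NormedSpace.exp (c • Matrix.single i j (1 : ℂ)) = Matrix.transvection i j c := by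
      rw [← nexp h3, IsNilpotent.exp_eq_sum h3]
      simp [Finset.sum_range_succ, Matrix.transvection, Matrix.smul_single]
    rw [← h4]
    exact h2
  have : Nontrivial (Fin n) := Fin.nontrivial_iff_two_le.2 hn
  have key := Matrix.SpecialLinearGroup.diagonal_transvection_induction' (ι := Fin n) (F := ℂ)
    (fun A => (A : Matrix (Fin n) (Fin n) ℂ) ∈ S) ⟨g, hg⟩ ?_ ?_ ?_
  · exact key
  · intro i j hij z hz
    have hji : j ≠ i := hij.symm
    have hs : ∀ (a b : Fin n) (t : ℂ), (1 + t • Matrix.single a b (1 : ℂ) : Matrix (Fin n) (Fin n) ℂ) = Matrix.transvection a b t := by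
      intro a b t
      rw [Matrix.smul_single, smul_eq_mul, mul_one]
      rfl
    have h1 := Pool.Agent.Y123.GN.diag_prod (R := Matrix (Fin n) (Fin n) ℂ) (E := Matrix.single i j 1) (F := Matrix.single j i 1)
      (P := Matrix.single i i 1) (Q := Matrix.single j j 1)
      (Matrix.single_mul_single_of_ne _ _ _ _ hji _) (Matrix.single_mul_single_of_ne _ _ _ _ hij _)
      (by rw [Matrix.single_mul_single_same, mul_one]) (by rw [Matrix.single_mul_single_same, mul_one])
      (by rw [Matrix.single_mul_single_same, mul_one]) (by rw [Matrix.single_mul_single_same, mul_one])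
      (by rw [Matrix.single_mul_single_same, mul_one]) (by rw [Matrix.single_mul_single_same, mul_one]) z hz
    have h2 : ((Matrix.SpecialLinearGroup.diag2n hij z hz : Matrix.SpecialLinearGroup (Fin n) ℂ) : Matrix (Fin n) (Fin n) ℂ) =
        1 - Matrix.single i i 1 - Matrix.single j j 1 + z • Matrix.single i i (1 : ℂ) +
          z⁻¹ • Matrix.single j j (1 : ℂ) := by
      rw [Matrix.SpecialLinearGroup.diag2n_coe]
      ext a b
      simp only [Matrix.add_apply, Matrix.sub_apply, Matrix.smul_apply, Matrix.single_apply, Matrix.one_apply,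
        Matrix.diagonal_apply, smul_eq_mul]
      by_cases hab : a = b
      · subst hab
        by_cases hai : a = i
        · subst hai
          simp [hij, hij.symm]
        · by_cases haj : a = j
          · subst haj
            simp [hij, hij.symm]
          · simp [hai, haj, Ne.symm hai, Ne.symm haj]
      · have h3 : ¬ (i = a ∧ i = b) := fun h => hab (h.1.symm.trans h.2)
        have h4 : ¬ (j = a ∧ j = b) := fun h => hab (h.1.symm.trans h.2)
        simp [hab, h3, h4]
    show ((Matrix.SpecialLinearGroup.diag2n hij z hz : Matrix.SpecialLinearGroup (Fin n) ℂ) : Matrix (Fin n) (Fin n) ℂ) ∈ _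
    rw [h2, ← h1]
    simp only [hs]
    exact mul_mem (mul_mem (mul_mem (htr _ _ hij _) (htr _ _ hji _)) (htr _ _ hij _))
      (mul_mem (mul_mem (htr _ _ hij _) (htr _ _ hji _)) (htr _ _ hij _))
  · intro i j hij a
    exact htr i j hij a
  · intro A B hA hB
    exact mul_mem hA hB

/-- generation of the special orthogonal group -/
lemma gen_SO {J : Matrix (Fin n) (Fin n) ℂ} (hn : 3 ≤ n) (hJ : Jᵀ = J) (hdet : J.det ≠ 0)
    (h : ∀ a b : Fin n → ℂ, ∀ c : ℂ, NormedSpace.exp (c • WW J a b) ∈ S)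
    {g : Matrix (Fin n) (Fin n) ℂ} (hg : gᵀ * J * g = J) (hd : g.det = 1) : g ∈ S := by
  have h3 := Pool.Agent.Y123.GN.so_gen hn hJ hdet hg hd
  refine Submonoid.closure_le (S := S) |>.2 ?_ h3
  rintro x ⟨N, ⟨y, a, t, hyy, hya, haa, rfl⟩, rfl⟩
  have h4 : (t • (ro J y a - ro J a y)) ^ 3 = 0 := by
    rw [pow_succ, pow_two, smul_mul_smul_comm, smul_mul_smul_comm, Pool.Agent.Y123.GN.ss_cube hJ hyy hya haa, smul_zero]
  rw [nexp h4]
  exact h y a t

/-- generation of the symplectic group -/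
lemma gen_Sp {J : Matrix (Fin n) (Fin n) ℂ} (hJ : Jᵀ = -J) (hdet : J.det ≠ 0)
    (h : ∀ v : Fin n → ℂ, ∀ c : ℂ, NormedSpace.exp (c • ro J v v) ∈ S)
    {g : Matrix (Fin n) (Fin n) ℂ} (hg : gᵀ * J * g = J) : g ∈ S := by
  refine Pool.Agent.Y123.GN.sp_gen' hJ hdet S (fun v s => ?_) g hg
  have h1 : (s • Pool.Agent.Y123.GN.nv J v) ^ 2 = 0 := by
    rw [pow_two, smul_mul_smul_comm, Pool.Agent.Y123.GN.nv_sq hJ, smul_zero]
  rw [nexp h1]
  exact h v s

end gen

/-- the special groups of the blocks -/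
def SG {n : ℕ} (b : Blk n) (g : Matrix (Fin n) (Fin n) ℂ) : Prop :=
  (b.k = Ki.l → g.det = 1) ∧ (b.k = Ki.o → gᵀ * b.J * g = b.J ∧ g.det = 1) ∧ (b.k = Ki.s → gᵀ * b.J * g = b.J)

lemma gen_hh {n : ℕ} {S : Submonoid (Matrix (Fin n) (Fin n) ℂ)} {b : Blk n} (hb : BlkOK b)
    (h : ∀ X ∈ hh b, ∀ c : ℂ, NormedSpace.exp (c • X) ∈ S) {g : Matrix (Fin n) (Fin n) ℂ} (hg : SG b g) : g ∈ S := by
  obtain ⟨h1, h2, h3⟩ := hg
  unfold hh at h
  rcases hk : b.k with _ | _ | _
  · rw [hk] at h
    exact gen_SL hb.two (fun u v huv c => h _ (Submodule.subset_span ⟨u, v, huv, rfl⟩) c) (h1 hk)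
  · rw [hk] at h
    obtain ⟨-, -, hJ, hd, -, -, -, h8⟩ := hb.o hk
    exact gen_SO h8 hJ hd (fun u v c => h _ (Submodule.subset_span ⟨u, v, rfl⟩) c) (h2 hk).1 (h2 hk).2
  · rw [hk] at h
    obtain ⟨hJ, hd, -, -⟩ := hb.s hk
    exact gen_Sp hJ hd (fun v c => h _ (Submodule.subset_span ⟨v, rfl⟩) c) (h3 hk)

variable {r : ℕ} {n : Fin r → ℕ}

/-- the block diagonal embedding as a linear map -/
noncomputable def BDl : Bl n ℂ →ₗ[ℂ] Matrix (Fin (sz n)) (Fin (sz n)) ℂ where
  toFun := BD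
  map_add' := map_add BD
  map_smul' := fun c X => BD_smul c X

lemma BDl_apply (X : Bl n ℂ) : BDl X = BD X := rfl

section

variable {b : ∀ i, Blk (n i)} {S : Submonoid (Matrix (Fin (sz n)) (Fin (sz n)) ℂ)}
  (hS : IsClosed (S : Set (Matrix (Fin (sz n)) (Fin (sz n)) ℂ)))

/-- conjugation by invertible elements which normalise -/
lemma LS_conj {m : ℕ} {S : Submonoid (Matrix (Fin m) (Fin m) ℂ)} (hS : IsClosed (S : Set (Matrix (Fin m) (Fin m) ℂ)))
    {U V X : Matrix (Fin m) (Fin m) ℂ} (hUV : U * V = 1) (hN : ∀ g ∈ S, U * g * V ∈ S) (hX : X ∈ LS S hS) :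
    U * X * V ∈ LS S hS := by
  intro c
  have hi : U⁻¹ = V := Matrix.inv_eq_right_inv hUV
  have h2 : c • (U * X * V) = U * (c • X) * U⁻¹ := by
    rw [hi, Matrix.mul_smul, Matrix.smul_mul]
  rw [h2, Matrix.exp_conj _ _ (IsUnit.of_mul_eq_one _ hUV), hi]
  exact hN _ (hX c)

lemma Rb_Ri {m : ℕ} {b : Blk m} (hb : BlkOK b) : Rb b * Ri b = 1 := by
  unfold Rb Ri
  by_cases hk : b.k = Ki.s
  · rw [if_pos hk, if_pos hk]
    obtain ⟨hJ, hd, -, c, hc, hφ⟩ := hb.s hk
    have h0 : b.φ ⬝ᵥ b.u = 0 := by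
      rw [hφ, smul_dotProduct, ← dotProduct_mulVec]
      have := self_bf hJ b.u
      unfold bf at this
      rw [this, smul_zero]
    have hNN : vecMulVec b.u b.φ * vecMulVec b.u b.φ = 0 := by rw [vecMulVec_mul_vecMulVec, h0, zero_smul, vecMulVec_zero]
    rw [Matrix.mul_sub, Matrix.mul_one, Matrix.add_mul, Matrix.one_mul, hNN]
    abel
  · rw [if_neg hk, if_neg hk]
    have h1 : b.φ ⬝ᵥ b.u = 1 ∧ b.ξ ≠ 0 := by
      rcases hk' : b.k with _ | _ | _
      · exact ⟨(hb.l hk').1, (hb.l hk').2.1⟩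
      · exact ⟨(hb.o hk').1, by rw [(hb.o hk').2.1]; norm_num⟩
      · exact absurd hk' hk
    exact rr_one h1.1 h1.2

/-- the Lie algebra of the group satisfies the conditions -/
theorem GG_of (hb : ∀ i, BlkOK (b i))
    (hA : ∀ t : ℂ, ∀ g ∈ S, NormedSpace.exp (t • BD (fun i => (b i).A)) * g * NormedSpace.exp ((-t) • BD (fun i => (b i).A)) ∈ S)
    (hR : BD (fun i => Rb (b i)) ∈ S) (hR' : BD (fun i => Ri (b i)) ∈ S)
    (hsp : BD (fun i => if (b i).k = Ki.s then vecMulVec (b i).u (b i).φ else 0) ∈ LS S hS) :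
    GG b ((LS S hS).comap BDl) := by
  have hRR : BD (fun i => Rb (b i)) * BD (fun i => Ri (b i)) = 1 := by
    rw [← BD_mul, ← BD_one]
    congr 1
    funext i
    exact Rb_Ri (hb i)
  have hTT : ∀ X : Bl n ℂ, BD (TT b X) = BD (fun i => Rb (b i)) * BD X * BD (fun i => Ri (b i)) := by
    intro X
    rw [← BD_mul, ← BD_mul]
    congr 1
    funext i
    rw [TT_apply, Tb_apply]
  refine ⟨?_, ?_, ?_, ?_, ?_, hsp⟩
  · intro X hX Y hY
    rw [Submodule.mem_comap, BDl_apply, map_sub, map_mul, map_mul]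
    exact bracket_mem hS hX hY
  · intro X hX
    rw [Submodule.mem_comap, BDl_apply, BD_sub, BD_mul, BD_mul]
    exact ad_mem hS hA hX
  · intro X hX s
    rw [Submodule.mem_comap, BDl_apply, BD_mul, BD_mul, ← E_BD (fun i => (hb i).nil), ← E_BD (fun i => (hb i).nil)]
    have hn := BD_nil fun i => (hb i).nil
    refine LS_conj hS (E_mul_neg hn s) ?_ hX
    intro g hg
    rw [E_exp hn, E_exp hn]
    exact hA s g hg
  · intro X hX
    rw [Submodule.mem_comap, BDl_apply, hTT]
    exact LS_conj hS hRR (fun g hg => S.mul_mem (S.mul_mem hR hg) hR') hX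
  · rw [Submodule.mem_comap, BDl_apply, map_sub, hTT]
    have h1 := first_mem hS hA hR hR' hRR
    have e : (BD (fun i => (b i).A) * BD (fun i => Rb (b i)) - BD (fun i => Rb (b i)) * BD (fun i => (b i).A)) * BD (fun i => Ri (b i)) =
        BD (fun i => (b i).A) - BD (fun i => Rb (b i)) * BD (fun i => (b i).A) * BD (fun i => Ri (b i)) := by
      rw [Matrix.sub_mul, Matrix.mul_assoc, hRR, Matrix.mul_one]
    rw [← e]
    exact h1

/-- **Several blocks: the group contains the product of the special groups.** -/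
theorem many_sub (hb : ∀ i, BlkOK (b i)) (hne : ∀ i j, i ≠ j → Neq (b i) (b j))
    (hA : ∀ t : ℂ, ∀ g ∈ S, NormedSpace.exp (t • BD (fun i => (b i).A)) * g * NormedSpace.exp ((-t) • BD (fun i => (b i).A)) ∈ S)
    (hR : BD (fun i => Rb (b i)) ∈ S) (hR' : BD (fun i => Ri (b i)) ∈ S)
    (hsp : BD (fun i => if (b i).k = Ki.s then vecMulVec (b i).u (b i).φ else 0) ∈ LS S hS)
    {g : Bl n ℂ} (hg : ∀ i, SG (b i) (g i)) : BD g ∈ S := by
  classical
  have hG := GG_of hS hb hA hR hR' hsp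
  set S' : Submonoid (Bl n ℂ) := S.comap (BD (n := n) (R := ℂ)) with hS'
  have key : g ∈ S' := by
    refine Submonoid.pi_mem_of_mulSingle_mem (H := S') g fun i => ?_
    set Si : Submonoid (Matrix (Fin (n i)) (Fin (n i)) ℂ) := S'.comap (MonoidHom.mulSingle (fun i => Matrix (Fin (n i)) (Fin (n i)) ℂ) i) with hSi
    have h1 : g i ∈ Si := by
      refine gen_hh (hb i) (fun X hX c => ?_) (hg i)
      have h2 := single_mem hG hb hne i hX
      rw [Submodule.mem_comap, BDl_apply] at h2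
      have h3 := h2 c
      have h4 : c • BD (Pi.single i X : Bl n ℂ) = BD (Pi.single i (c • X) : Bl n ℂ) := by
        rw [← BD_smul]
        congr 1
        funext j
        by_cases hj : j = i
        · subst hj
          rw [Pi.single_eq_same, Pi.single_eq_same]
        · rw [Pi.single_eq_of_ne hj, Pi.single_eq_of_ne hj, smul_zero]
      rw [h4, BD_exp] at h3
      have h5 : (fun j => NormedSpace.exp ((Pi.single i (c • X) : Bl n ℂ) j)) = (Pi.mulSingle i (NormedSpace.exp (c • X)) : Bl n ℂ) := by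
        funext j
        by_cases hj : j = i
        · subst hj
          rw [Pi.single_eq_same, Pi.mulSingle_eq_same]
        · rw [Pi.single_eq_of_ne hj, Pi.mulSingle_eq_of_ne hj, NormedSpace.exp_zero]
      rw [h5] at h3
      exact h3
    exact h1
  exact key

end

end Q207.HM
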