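import Pool.Agent.Q207.HM.Rl

/-!
# The torsors of the hypergeometric families
-/

set_option autoImplicit false

open PowerSeries Pool.Agent.Y113

namespace Q207.HM

open Pool.Agent.Y119.HY (QD Am Jm cm Ep E Ep_eval E_neg Hf Hc Yf Vr Rel Gal E_add E_zero E_mul_neg conj_E E_isom real_mem_Lens mem_Lens)
open Pool.Agent.Y119.HZ (cf Hp cf_Hp ix hf evq PR ev_PR ev_Hp Yt Yt_eq isom_mul isom_inv)

lemma mc_prod (a : ℝ) (k : ℕ) : Ring.multichoose a k = ∏ l ∈ Finset.range k, ((a + l) / ((l : ℝ) + 1)) := by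
  have h2 := Ring.factorial_nsmul_multichoose_eq_ascPochhammer a k
  rw [nsmul_eq_mul, Polynomial.ascPochhammer_smeval_eq_eval] at h2
  have h3 : (ascPochhammer ℝ k).eval a = ∏ l ∈ Finset.range k, (a + l) := by
    clear h2
    induction k with
    | zero => simp
    | succ k ih => rw [ascPochhammer_succ_eval, Finset.prod_range_succ, ih]
  rw [h3] at h2
  rw [Finset.prod_div_distrib, ← h2]
  have h4 : ∏ l ∈ Finset.range k, ((l : ℝ) + 1) = (k.factorial : ℝ) := by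
    rw [← Finset.prod_range_add_one_eq_factorial]
    push_cast
    rfl
  rw [h4, mul_div_cancel_left₀]
  exact_mod_cast k.factorial_ne_zero

/-- the values of `(1 - X) ^ s` -/
lemma ev_bp (s : ℚ) {t : ℝ} (ht : 1 < t) : Cv t (bp s) ∧ ev t (bp s) = (1 - 1 / t) ^ (s : ℝ) := by
  have hx0 : 0 < 1 / t := by positivity
  have hx : 1 / t < 1 := by rw [div_lt_one (by linarith)]; exact ht
  have h1 := Real.one_div_one_sub_rpow_hasFPowerSeriesOnBall_zero (-(s : ℝ))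
  have hmem : (1 / t : ℝ) ∈ Metric.eball (0 : ℝ) 1 := by
    rw [Metric.mem_eball, edist_dist, dist_zero_right, Real.norm_of_nonneg hx0.le]
    exact_mod_cast (ENNReal.ofReal_lt_one.2 hx)
  have h2 := h1.hasSum hmem
  have h3 : ∀ k, ((coeff k (bp s) : ℚ) : ℝ) = Ring.choose (-(s : ℝ) + k - 1) k := by
    intro k
    rw [← Ring.multichoose_eq, mc_prod]
    unfold bp
    rw [coeff_mk]
    push_cast
    exact Finset.prod_congr rfl fun l _ => by rw [add_comm]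
  have h4 : ∀ k : ℕ, (FormalMultilinearSeries.ofScalars ℝ fun n => Ring.choose (-(s : ℝ) + n - 1) n) k (fun _ => (1 / t : ℝ)) =
      ((coeff k (bp s) : ℚ) : ℝ) * (1 / t) ^ k := by
    intro k
    rw [h3]
    simp [FormalMultilinearSeries.ofScalars]
  have h5 := FormalMultilinearSeries.summable_norm_apply _ (Metric.eball_subset_eball h1.r_le hmem)
  simp only [h4] at h5 h2
  constructor
  · refine h5.congr fun k => ?_
    rw [norm_mul, Real.norm_eq_abs, Real.norm_of_nonneg (by positivity)]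
  · unfold ev
    rw [h2.tsum_eq, zero_add, Real.rpow_neg (by linarith), one_div, inv_inv]

lemma Cv_prod {t : ℝ} (ht : 0 < t) {σ : Type*} (S : Finset σ) {f : σ → ℚ⟦X⟧} (hf : ∀ i ∈ S, Cv t (f i)) :
    Cv t (∏ i ∈ S, f i) ∧ ev t (∏ i ∈ S, f i) = ∏ i ∈ S, ev t (f i) := by
  classical
  induction S using Finset.induction_on with
  | empty =>
    rw [Finset.prod_empty, Finset.prod_empty]
    exact ⟨Cv.one, ev_one⟩
  | insert a S ha ih =>
    have h1 := ih fun i hi => hf i (Finset.mem_insert_of_mem hi)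
    have h2 := hf a (Finset.mem_insert_self _ _)
    rw [Finset.prod_insert ha, Finset.prod_insert ha, Cv.ev_mul ht h2 h1.1, h1.2]
    exact ⟨Cv.mul ht h2 h1.1, rfl⟩

lemma Cv_sum' {t : ℝ} (ht : 0 < t) {σ : Type*} (S : Finset σ) {f : σ → ℚ⟦X⟧} (hf : ∀ i ∈ S, Cv t (f i)) :
    Cv t (∑ i ∈ S, f i) ∧ ev t (∑ i ∈ S, f i) = ∑ i ∈ S, ev t (f i) := by
  classical
  induction S using Finset.induction_on with
  | empty =>
    rw [Finset.sum_empty, Finset.sum_empty]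
    exact ⟨Cv.zero, ev_zero⟩
  | insert a S ha ih =>
    have h1 := ih fun i hi => hf i (Finset.mem_insert_of_mem hi)
    have h2 := hf a (Finset.mem_insert_self _ _)
    rw [Finset.sum_insert ha, Finset.sum_insert ha, Cv.ev_add ht h2 h1.1, h1.2]
    exact ⟨Cv.add ht h2 h1.1, rfl⟩

lemma ev_det {n : ℕ} {t : ℝ} (ht : 0 < t) {M : Matrix (Fin n) (Fin n) ℚ⟦X⟧} (hM : ∀ i j, Cv t (M i j)) :
    Cv t M.det ∧ ev t M.det = (Matrix.of fun i j => ev t (M i j)).det := by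
  rw [Matrix.det_apply', Matrix.det_apply']
  have h1 : ∀ σ : Equiv.Perm (Fin n), Cv t (((Equiv.Perm.sign σ : ℤ) : ℚ⟦X⟧) * ∏ i, M (σ i) i) ∧
      ev t (((Equiv.Perm.sign σ : ℤ) : ℚ⟦X⟧) * ∏ i, M (σ i) i) = ((Equiv.Perm.sign σ : ℤ) : ℝ) * ∏ i, ev t (M (σ i) i) := by
    intro σ
    have h2 := Cv_prod ht Finset.univ (f := fun i => M (σ i) i) fun i _ => hM _ _
    have h3 : (((Equiv.Perm.sign σ : ℤ)) : ℚ⟦X⟧) = C ((Equiv.Perm.sign σ : ℤ) : ℚ) := by simp
    rw [h3, Cv.ev_mul ht (Cv.C _) h2.1, h2.2, ev_C]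
    refine ⟨Cv.mul ht (Cv.C _) h2.1, ?_⟩
    push_cast
    rfl
  have h2 := Cv_sum' ht Finset.univ (f := fun σ : Equiv.Perm (Fin n) => ((Equiv.Perm.sign σ : ℤ) : ℚ⟦X⟧) * ∏ i, M (σ i) i)
    fun σ _ => (h1 σ).1
  refine ⟨h2.1, h2.2.trans ?_⟩
  exact Finset.sum_congr rfl fun σ _ => (h1 σ).2

variable {n : ℕ} {Q R : Polynomial ℚ}

/-- the determinant of the holomorphic part -/
theorem det_Hf (hQ : QG n Q) {t : ℕ} (ht : 2 ≤ t) :
    (Hf (Hc n Q) (((1 / (t : ℝ) : ℝ)) : ℂ)).det = (((1 - 1 / (t : ℝ)) ^ (-((Q.coeff (n - 1) : ℚ) : ℝ)) : ℝ) : ℂ) := by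
  have ht1 : (1 : ℝ) < t := by exact_mod_cast (by omega : 1 < t)
  have ht0 : (0 : ℝ) < t := by linarith
  obtain ⟨h1, h2⟩ := ev_det ht0 (M := Hp n Q) fun i j => Cv_HpG hQ ht1 i j
  obtain ⟨h3, h4⟩ := ev_bp (Q.coeff (n - 1)) ht1
  have h5 := congrArg (ev (t : ℝ)) (bp_det hQ)
  rw [Cv.ev_mul ht0 h3 h1, ev_one, h2, h4] at h5
  have h6 : (Matrix.of fun i j => ev (t : ℝ) (Hp n Q i j)).map (fun x : ℝ => (x : ℂ)) = Hf (Hc n Q) (((1 / (t : ℝ) : ℝ)) : ℂ) := by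
    ext i j
    rw [Matrix.map_apply, Matrix.of_apply]
    exact ev_Hp _ _ _
  rw [← h6]
  have h7 : (((Matrix.of fun i j => ev (t : ℝ) (Hp n Q i j)).det : ℝ) : ℂ) =
      ((Matrix.of fun i j => ev (t : ℝ) (Hp n Q i j)).map (fun x : ℝ => (x : ℂ))).det := RingHom.map_det Complex.ofRealHom _
  rw [← h7]
  congr 1
  have h8 : (0 : ℝ) < 1 - 1 / (t : ℝ) := by
    have : 1 / (t : ℝ) < 1 := by rw [div_lt_one ht0]; exact ht1
    linarith
  rw [Real.rpow_neg h8.le]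
  exact eq_inv_of_mul_eq_one_right h5

lemma det_E {N : Matrix (Fin n) (Fin n) ℂ} (hN : N ^ n = 0) (s : ℂ) : (E N s).det = 1 := by
  have h1 : (fun c : ℂ => (E N c).det) = fun _ => 1 := by
    -- a polynomial without zeros
    set p : Polynomial ℂ := (Ep N).det with hp
    have h2 : ∀ c, p.eval c = (E N c).det := by
      intro c
      rw [hp, ← Ep_eval]
      exact RingHom.map_det (Polynomial.evalRingHom c) _
    have h3 : ∀ c, p.eval c ≠ 0 := by
      intro c h0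
      have h4 := congrArg Matrix.det (E_mul_neg hN c)
      rw [Matrix.det_mul, ← h2, h0, zero_mul, Matrix.det_one] at h4
      exact zero_ne_one h4
    have h5 : p.degree = 0 := by
      by_contra hd
      obtain ⟨c, hc⟩ := IsAlgClosed.exists_root p hd
      exact h3 c hc
    have h6 := Polynomial.eq_C_of_degree_eq_zero h5
    funext c
    rw [← h2, h6, Polynomial.eval_C]
    have h7 := h2 0
    rw [E_zero hN, Matrix.det_one, h6, Polynomial.eval_C] at h7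
    exact h7
  exact congrFun h1 s

/-- the torsor in the linear case -/
def TL (n : ℕ) (Q : Polynomial ℚ) (t : ℕ) : Set (Matrix (Fin n) (Fin n) ℂ) :=
  {X | X.det = (((1 - 1 / (t : ℝ)) ^ (-((Q.coeff (n - 1) : ℚ) : ℝ)) : ℝ) : ℂ)}

/-- the torsor in the orthogonal case -/
def TO (n : ℕ) (R : Polynomial ℚ) (t : ℕ) : Set (Matrix (Fin n) (Fin n) ℂ) :=
  {X | X.transpose * (cm (Jm n R) - (((1 / (t : ℝ) : ℝ)) : ℂ) • cm (Rm n R)) * X = cm (Jm n R)}

/-- the torsor in the symplectic case -/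
def TS (n : ℕ) (Q : Polynomial ℚ) : ℕ → Set (Matrix (Fin n) (Fin n) ℂ) := fun _ =>
  {X | X.transpose * cm (Jm n Q) * X = cm (Jm n Q)}

lemma inv_Hf (hQ : QG n Q) {t : ℕ} (ht : 2 ≤ t) : ∃ W : Matrix (Fin n) (Fin n) ℂ,
    Hf (Hc n Q) (((1 / (t : ℝ) : ℝ)) : ℂ) * W = 1 ∧ W * Hf (Hc n Q) (((1 / (t : ℝ) : ℝ)) : ℂ) = 1 := by
  have ht1 : (1 : ℝ) < t := by exact_mod_cast (by omega : 1 < t)
  have h1 : (Hf (Hc n Q) (((1 / (t : ℝ) : ℝ)) : ℂ)).det ≠ 0 := by
    rw [det_Hf hQ ht, Ne, Complex.ofReal_eq_zero]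
    have h8 : (0 : ℝ) < 1 - 1 / (t : ℝ) := by
      have : 1 / (t : ℝ) < 1 := by rw [div_lt_one (by linarith)]; exact ht1
      linarith
    exact (Real.rpow_pos_of_pos h8 _).ne'
  exact ⟨_, Matrix.mul_nonsing_inv _ (Ne.isUnit h1), Matrix.nonsing_inv_mul _ (Ne.isUnit h1)⟩

theorem TL_ok (hQ : QG n Q) (hs : ∀ m : ℤ, (2 : ℂ) * ((Q.coeff (n - 1) : ℚ) : ℂ) ≠ m) : TorOK n Q (TL n Q) := by
  intro t ht X hX l
  obtain ⟨W, hW1, hW2⟩ := inv_Hf hQ ht
  have hN : cm (Am n) ^ n = 0 := Pool.Agent.Y119.HY.Ac_nil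
  refine ⟨W * X * E (cm (Am n)) l, hyp_lin hQ hs _ ?_, ?_⟩
  · rw [Matrix.det_mul, Matrix.det_mul, det_E hN, mul_one, hX, ← det_Hf hQ ht, ← Matrix.det_mul, hW2, Matrix.det_one]
  · have e1 : E (cm (Am n)) l * E (cm (Am n)) (-l) = 1 := E_mul_neg hN l
    calc _ = (Hf (Hc n Q) (((1 / (t : ℝ) : ℝ)) : ℂ) * W) * X * (E (cm (Am n)) l * E (cm (Am n)) (-l)) := by
          simp only [Matrix.mul_assoc]
      _ = X := by rw [hW1, e1, Matrix.one_mul, Matrix.mul_one]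

lemma Yt_det (hQ : QG n Q) {t : ℕ} (ht : 2 ≤ t) : Yt n Q t ∈ TL n Q t := by
  show (Yt n Q t).det = _
  unfold Yt
  rw [Matrix.det_mul, det_E Pool.Agent.Y119.HY.Ac_nil, mul_one, det_Hf hQ ht]

lemma form_Hf (h : QO n Q R) {t : ℕ} (ht : 2 ≤ t) :
    (Hf (Hc n Q) (((1 / (t : ℝ) : ℝ)) : ℂ)).transpose * (cm (Jm n R) - (((1 / (t : ℝ) : ℝ)) : ℂ) • cm (Rm n R)) *
      Hf (Hc n Q) (((1 / (t : ℝ) : ℝ)) : ℂ) = cm (Jm n R) := by
  have ht1 : (1 : ℝ) < t := by exact_mod_cast (by omega : 1 < t)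
  have hN : cm (Am n) ^ n = 0 := Pool.Agent.Y119.HY.Ac_nil
  have hz : (((1 / (t : ℝ) : ℝ)) : ℂ) ∈ Pool.Agent.Y119.HY.Lens := real_mem_Lens (by positivity) (by rw [div_lt_one (by linarith)]; exact ht1)
  have h1 := form_ort h hz
  set z : ℂ := (((1 / (t : ℝ) : ℝ)) : ℂ)
  set L := Complex.log z with hL
  unfold Yf at h1
  have e1 : E (cm (Am n)) L * E (cm (Am n)) (-L) = 1 := E_mul_neg hN L
  have e2 : (E (cm (Am n)) (-L)).transpose * (E (cm (Am n)) L).transpose = 1 := by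
    rw [← Matrix.transpose_mul, e1, Matrix.transpose_one]
  have i1 := E_isom hN (Pool.Agent.Y119.HY.Jc_rel (n := n) (Q := R)) (-L)
  calc _ = ((E (cm (Am n)) (-L)).transpose * (E (cm (Am n)) L).transpose) * (Hf (Hc n Q) z).transpose *
        (cm (Jm n R) - z • cm (Rm n R)) * Hf (Hc n Q) z * (E (cm (Am n)) L * E (cm (Am n)) (-L)) := by
          rw [e1, e2, Matrix.one_mul, Matrix.mul_one]
    _ = (E (cm (Am n)) (-L)).transpose * ((Hf (Hc n Q) z * E (cm (Am n)) L).transpose *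
        (cm (Jm n R) - z • cm (Rm n R)) * (Hf (Hc n Q) z * E (cm (Am n)) L)) * E (cm (Am n)) (-L) := by
          rw [Matrix.transpose_mul]
          simp only [Matrix.mul_assoc]
    _ = (E (cm (Am n)) (-L)).transpose * cm (Jm n R) * E (cm (Am n)) (-L) := by rw [h1]
    _ = _ := i1

theorem TO_ok (h : QO n Q R) : TorOK n Q (TO n R) := by
  intro t ht X hX l
  obtain ⟨W, hW1, hW2⟩ := inv_Hf h.g ht
  have hN : cm (Am n) ^ n = 0 := Pool.Agent.Y119.HY.Ac_nil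
  refine ⟨W * X * E (cm (Am n)) l, hyp_ort h _ ?_, ?_⟩
  · have i1 := E_isom hN (Pool.Agent.Y119.HY.Jc_rel (n := n) (Q := R)) l
    have h2 : (W * X).transpose * cm (Jm n R) * (W * X) = cm (Jm n R) := by
      have h3 : W.transpose * (Hf (Hc n Q) (((1 / (t : ℝ) : ℝ)) : ℂ)).transpose = 1 := by
        rw [← Matrix.transpose_mul, hW1, Matrix.transpose_one]
      calc (W * X).transpose * cm (Jm n R) * (W * X) = X.transpose * (W.transpose * ((Hf (Hc n Q) (((1 / (t : ℝ) : ℝ)) : ℂ)).transpose *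
            (cm (Jm n R) - (((1 / (t : ℝ) : ℝ)) : ℂ) • cm (Rm n R)) * Hf (Hc n Q) (((1 / (t : ℝ) : ℝ)) : ℂ)) * W) * X := by
              rw [form_Hf h ht, Matrix.transpose_mul]
              simp only [Matrix.mul_assoc]
        _ = X.transpose * ((W.transpose * (Hf (Hc n Q) (((1 / (t : ℝ) : ℝ)) : ℂ)).transpose) *
            (cm (Jm n R) - (((1 / (t : ℝ) : ℝ)) : ℂ) • cm (Rm n R)) * (Hf (Hc n Q) (((1 / (t : ℝ) : ℝ)) : ℂ) * W)) * X := by
              simp only [Matrix.mul_assoc]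
        _ = X.transpose * (cm (Jm n R) - (((1 / (t : ℝ) : ℝ)) : ℂ) • cm (Rm n R)) * X := by
              rw [h3, hW1, Matrix.one_mul, Matrix.mul_one]
        _ = _ := hX
    exact isom_mul h2 i1
  · have e1 : E (cm (Am n)) l * E (cm (Am n)) (-l) = 1 := E_mul_neg hN l
    calc _ = (Hf (Hc n Q) (((1 / (t : ℝ) : ℝ)) : ℂ) * W) * X * (E (cm (Am n)) l * E (cm (Am n)) (-l)) := by
          simp only [Matrix.mul_assoc]
      _ = X := by rw [hW1, e1, Matrix.one_mul, Matrix.mul_one]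

lemma Yt_ort (h : QO n Q R) {t : ℕ} (ht : 2 ≤ t) : Yt n Q t ∈ TO n R t := by
  have ht1 : (1 : ℝ) < t := by exact_mod_cast (by omega : 1 < t)
  rw [Yt_eq (by omega)]
  exact form_ort h (real_mem_Lens (by positivity) (by rw [div_lt_one (by linarith)]; exact ht1))

/-- even polynomials -/
lemma QD_g (hQ : QD n Q) : QG n Q where
  two := hQ.two
  monic := hQ.monic
  deg := hQ.deg
  ne := hQ.ne
  ne' := by
    intro l
    have h1 : Q.eval (-((l : ℚ) + 1)) = Q.eval (((l + 1 : ℕ)) : ℚ) := by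
      rw [Polynomial.eval_eq_sum_range, Polynomial.eval_eq_sum_range]
      refine Finset.sum_congr rfl fun j _ => ?_
      rcases Nat.even_or_odd j with hj | hj
      · rw [hj.neg_pow]
        push_cast
        rfl
      · rw [hQ.sym j hj, zero_mul, zero_mul]
    rw [h1]
    exact hQ.ne (l + 1)

theorem TS_ok (hQ : QD n Q) : TorOK n Q (TS n Q) := by
  intro t ht X hX l
  obtain ⟨W, hW1, hW2⟩ := inv_Hf (QD_g hQ) ht
  have hN : cm (Am n) ^ n = 0 := Pool.Agent.Y119.HY.Ac_nil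
  have hEiso : ∀ (s : ℂ), (E (cm (Am n)) s).transpose * cm (Jm n Q) * E (cm (Am n)) s = cm (Jm n Q) :=
    fun s => E_isom hN Pool.Agent.Y119.HY.Jc_rel s
  refine ⟨W * X * E (cm (Am n)) l, Pool.Agent.Y119.HY.hyp_invar hQ _ ?_, ?_⟩
  · -- the holomorphic part is an isometry
    have hHf : (Hf (Hc n Q) (((1 / (t : ℝ) : ℝ)) : ℂ)).transpose * cm (Jm n Q) *
        Hf (Hc n Q) (((1 / (t : ℝ) : ℝ)) : ℂ) = cm (Jm n Q) := by
      have h1 := isom_mul (Pool.Agent.Y119.HZ.Yt_form hQ ht) (hEiso ((Real.log t : ℝ) : ℂ))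
      have h2 : Yt n Q t * E (cm (Am n)) ((Real.log t : ℝ) : ℂ) = Hf (Hc n Q) (((1 / (t : ℝ) : ℝ)) : ℂ) := by
        unfold Yt
        have h3 : E (cm (Am n)) (-((Real.log t : ℝ) : ℂ)) * E (cm (Am n)) ((Real.log t : ℝ) : ℂ) = 1 := by
          have := E_mul_neg hN (-((Real.log t : ℝ) : ℂ))
          rwa [neg_neg] at this
        rw [Matrix.mul_assoc, h3, mul_one]
      rwa [h2] at h1
    have hWi : W.transpose * cm (Jm n Q) * W = cm (Jm n Q) := by
      have h3 : W.transpose * (Hf (Hc n Q) (((1 / (t : ℝ) : ℝ)) : ℂ)).transpose = 1 := by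
        rw [← Matrix.transpose_mul, hW1, Matrix.transpose_one]
      calc W.transpose * cm (Jm n Q) * W = W.transpose * ((Hf (Hc n Q) (((1 / (t : ℝ) : ℝ)) : ℂ)).transpose * cm (Jm n Q) *
            Hf (Hc n Q) (((1 / (t : ℝ) : ℝ)) : ℂ)) * W := by rw [hHf]
        _ = (W.transpose * (Hf (Hc n Q) (((1 / (t : ℝ) : ℝ)) : ℂ)).transpose) * cm (Jm n Q) *
            (Hf (Hc n Q) (((1 / (t : ℝ) : ℝ)) : ℂ) * W) := by simp only [Matrix.mul_assoc]
        _ = _ := by rw [h3, hW1, Matrix.one_mul, Matrix.mul_one]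
    exact isom_mul (isom_mul hWi hX) (hEiso l)
  · have e1 : E (cm (Am n)) l * E (cm (Am n)) (-l) = 1 := E_mul_neg hN l
    calc _ = (Hf (Hc n Q) (((1 / (t : ℝ) : ℝ)) : ℂ) * W) * X * (E (cm (Am n)) l * E (cm (Am n)) (-l)) := by
          simp only [Matrix.mul_assoc]
      _ = X := by rw [hW1, e1, Matrix.one_mul, Matrix.mul_one]

end Q207.HM
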