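import Pool.Agent.Q207.HM.Lm
import Pool.Agent.Q207.HM.Grp2
import Pool.Agent.Q207.HM.Tor

/-!
# Hypergeometric blocks
-/

set_option autoImplicit false

open Filter Topology Matrix

namespace Q207.HM

open Pool.Agent.Y119.HY (Am Jm cm cm_transpose Ac_nil Ac_last Hc uc ec Yf Gal QD Jc_skew Jc_det Jc_rel om om_eq om_ec Ac_ec conj_E E_exp E
  mv_apply Sol)
open Pool.Agent.Y123.GN (bf)

variable {n : ℕ}

/-- hypergeometric blocks -/
structure HB (n : ℕ) where
  Q : Polynomial ℚ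
  R : Polynomial ℚ
  k : Ki

/-- the conditions -/
structure HBok {n : ℕ} (h : HB n) : Prop where
  g : QG n h.Q
  l : h.k = Ki.l → ∀ m : ℤ, (2 : ℂ) * ((h.Q.coeff (n - 1) : ℚ) : ℂ) ≠ m
  o : h.k = Ki.o → QO n h.Q h.R
  s : h.k = Ki.s → QD n h.Q

/-- the sum of the exponents -/
noncomputable def HB.e (h : HB n) : ℂ := ((h.Q.coeff (n - 1) : ℚ) : ℂ)

/-- the form -/
noncomputable def HB.J (h : HB n) : Matrix (Fin n) (Fin n) ℂ :=
  match h.k with
  | Ki.l => 1
  | Ki.o => cm (Jm n h.R)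
  | Ki.s => cm (Jm n h.Q)

/-- the powers of the monodromy -/
noncomputable def Rbm (b : Blk n) (m : ℤ) : Matrix (Fin n) (Fin n) ℂ :=
  if b.k = Ki.s then 1 + (m : ℂ) • vecMulVec b.u b.φ else 1 + (b.ξ ^ m - 1) • vecMulVec b.u b.φ

lemma Rbm_one (b : Blk n) : Rbm b 1 = Rb b := by
  unfold Rbm Rb
  split_ifs
  · rw [Int.cast_one, one_smul]
  · rw [zpow_one]

lemma Rbm_neg (b : Blk n) : Rbm b (-1) = Ri b := by
  unfold Rbm Ri
  split_ifs
  · rw [Int.cast_neg, Int.cast_one]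
    module
  · rw [_root_.zpow_neg_one]

/-- the block of a hypergeometric equation -/
def BlkOf (h : HB n) (b : Blk n) : Prop :=
  BlkOK b ∧ b.A = cm (Am n) ∧ b.J = h.J ∧ b.k = h.k ∧ b.ξ = Complex.exp (-h.e * (2 * Real.pi * Complex.I)) ∧
    LM (Yf (cm (Am n)) (Hc n h.Q)) (Rbm b)

theorem blk_exists {h : HB n} (hh : HBok h) : ∃ b : Blk n, BlkOf h b := by
  have hn := hh.g.two
  set ξ : ℂ := Complex.exp (-h.e * (2 * Real.pi * Complex.I)) with hξ
  have hpi : (2 * (Real.pi : ℂ) * Complex.I) ≠ 0 := Complex.two_pi_I_ne_zero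
  have hpow : ∀ m : ℤ, ξ ^ m = Complex.exp (-((h.Q.coeff (n - 1) : ℚ) : ℂ) * (2 * Real.pi * Complex.I * m)) := by
    intro m
    rw [hξ, ← Complex.exp_int_mul]
    congr 1
    unfold HB.e
    ring
  rcases hk : h.k with _ | _ | _
  · -- linear
    have hs := hh.l hk
    obtain ⟨u, φ, h1, h2, h3, h4⟩ := refl_lm hh.g fun m h' => hs (2 * m) (by rw [h']; push_cast; rfl)
    refine ⟨⟨cm (Am n), h.J, u, φ, ξ, Ki.l⟩, ⟨Ac_nil, hn, h3, h4, fun _ => ⟨h1, Complex.exp_ne_zero _, ?_⟩, fun h' => ?_,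
      fun h' => ?_⟩, rfl, rfl, hk.symm, rfl, ?_⟩
    · intro h'
      have h5 : ξ ^ (2 : ℕ) = 1 := h'
      rw [hξ, ← Complex.exp_nat_mul, Complex.exp_eq_one_iff] at h5
      obtain ⟨m, hm⟩ := h5
      apply hs (-m)
      unfold HB.e at hm
      push_cast at hm ⊢
      have h5 : (2 * (Real.pi : ℂ) * Complex.I) * (2 * ((h.Q.coeff (n - 1) : ℚ) : ℂ) + m) = 0 := by linear_combination -hm
      rcases mul_eq_zero.1 h5 with h6 | h6
      · exact absurd h6 hpi
      · linear_combination h6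
    · exact Ki.noConfusion h'
    · exact Ki.noConfusion h'
    · have e : (fun m : ℤ => (1 : Matrix (Fin n) (Fin n) ℂ) + (Complex.exp (-((h.Q.coeff (n - 1) : ℚ) : ℂ) *
          (2 * Real.pi * Complex.I * m)) - 1) • vecMulVec u φ) = Rbm ⟨cm (Am n), h.J, u, φ, ξ, Ki.l⟩ := by
        funext m
        unfold Rbm
        rw [if_neg (by simp), hpow]
      rw [← e]
      exact h2
  · -- orthogonal
    have ho := hh.o hk
    have hs : ((h.Q.coeff (n - 1) : ℚ) : ℂ) = 1 / 2 := by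
      rw [Q_last ho]
      push_cast
      rfl
    obtain ⟨u, φ, h1, h2, h3, h4⟩ := refl_lm hh.g fun m hm => by
      rw [hs] at hm
      have h5 : (1 : ℂ) = ((2 * m : ℤ) : ℂ) := by
        push_cast
        rw [← hm]
        norm_num
      have h6 : (1 : ℤ) = 2 * m := by exact_mod_cast h5
      omega
    have hr := h2.mem 1
    have e1 : Complex.exp (-((h.Q.coeff (n - 1) : ℚ) : ℂ) * (2 * Real.pi * Complex.I * ((1 : ℤ) : ℂ))) = -1 := by
      rw [hs]
      have : -(1 / 2 : ℂ) * (2 * Real.pi * Complex.I * ((1 : ℤ) : ℂ)) = -(Real.pi * Complex.I) := by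
        push_cast
        ring
      rw [this, Complex.exp_neg, Complex.exp_pi_mul_I, inv_neg, inv_one]
    have hξ1 : ξ = -1 := by
      have := hpow 1
      rw [zpow_one] at this
      rw [this, e1]
    simp only [e1] at hr
    have e2 : (1 : Matrix (Fin n) (Fin n) ℂ) + ((-1 : ℂ) - 1) • vecMulVec u φ = 1 - (2 : ℂ) • vecMulVec u φ := by module
    rw [e2] at hr
    have hdet : (cm (Jm n h.R)).det ≠ 0 := by
      have h5 : (cm (Jm n h.R)).det = algebraMap ℚ ℂ (Jm n h.R).det := (RingHom.map_det _ _).symm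
      rw [h5]
      exact (map_ne_zero _).2 (Jo_det ho)
    have hJ : (cm (Jm n h.R))ᵀ = cm (Jm n h.R) := by rw [← cm_transpose, Jo_symm ho]
    obtain ⟨hB, hφ⟩ := refl_form h1 hJ hdet (gal_form ho hr)
    refine ⟨⟨cm (Am n), cm (Jm n h.R), u, φ, ξ, Ki.o⟩, ⟨Ac_nil, hn, h3, h4, fun h' => ?_,
      fun _ => ⟨h1, hξ1, hJ, hdet, Jc_rel, hB, hφ, ho.three⟩, fun h' => ?_⟩, rfl, ?_, hk.symm, rfl, ?_⟩
    · exact Ki.noConfusion h'
    · exact Ki.noConfusion h'
    · unfold HB.J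
      rw [hk]
    · have e : (fun m : ℤ => (1 : Matrix (Fin n) (Fin n) ℂ) + (Complex.exp (-((h.Q.coeff (n - 1) : ℚ) : ℂ) *
          (2 * Real.pi * Complex.I * m)) - 1) • vecMulVec u φ) = Rbm ⟨cm (Am n), cm (Jm n h.R), u, φ, ξ, Ki.o⟩ := by
        funext m
        unfold Rbm
        rw [if_neg (by simp), hpow]
      rw [← e]
      exact h2
  · -- symplectic
    have hQ := hh.s hk
    obtain ⟨v, h1, h2⟩ := symp_lm hQ
    have hvl : v ⟨n - 1, by omega⟩ ≠ 0 := by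
      intro h0
      apply h2
      rw [Ac_last hn, h0, zero_smul]
    have hφ0 : (v ᵥ* cm (Jm n h.Q)) ⟨0, by omega⟩ ≠ 0 := by
      have h3 : (v ᵥ* cm (Jm n h.Q)) ⟨0, by omega⟩ = om (cm (Jm n h.Q)) v (ec n) := by
        rw [om_eq, dotProduct, Finset.sum_eq_single ⟨0, by omega⟩]
        · unfold ec
          rw [if_pos rfl, mul_one]
        · intro b _ hb
          unfold ec
          rw [if_neg, mul_zero]
          intro h'
          exact hb (Fin.ext h')
        · intro h'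
          exact absurd (Finset.mem_univ _) h'
      rw [h3, om_ec hQ]
      refine mul_ne_zero hvl (neg_ne_zero.2 ?_)
      have h4 := hQ.ne 0
      rw [Nat.cast_zero, ← Polynomial.coeff_zero_eq_eval_zero] at h4
      exact_mod_cast h4
    have hcf : ((2 * (Real.pi : ℂ) * Complex.I) • (v ᵥ* cm (Jm n h.Q))) ᵥ* (cm (Am n) ^ (n - 1)) ≠ 0 := by
      rw [vl_Ac hn]
      intro h0
      have h3 := congrFun h0 (li hn)
      have h4 : uc n (li hn) = 1 := by
        unfold uc li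
        rw [if_pos (by dsimp only; omega)]
      rw [Pi.smul_apply, h4, smul_eq_mul, mul_one, Pi.smul_apply, smul_eq_mul] at h3
      exact (mul_ne_zero hpi hφ0) h3
    refine ⟨⟨cm (Am n), cm (Jm n h.Q), v, (2 * (Real.pi : ℂ) * Complex.I) • (v ᵥ* cm (Jm n h.Q)), ξ, Ki.s⟩,
      ⟨Ac_nil, hn, h2, hcf, fun h' => ?_, fun h' => ?_, fun _ => ⟨Jc_skew hQ, Jc_det hQ, Jc_rel, _, hpi, rfl⟩⟩, rfl, ?_, hk.symm, rfl, ?_⟩
    · exact Ki.noConfusion h'
    · exact Ki.noConfusion h'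
    · unfold HB.J
      rw [hk]
    · have e : (fun m : ℤ => (1 : Matrix (Fin n) (Fin n) ℂ) + (2 * Real.pi * Complex.I * m) • vecMulVec v (v ᵥ* cm (Jm n h.Q))) =
          Rbm ⟨cm (Am n), cm (Jm n h.Q), v, (2 * (Real.pi : ℂ) * Complex.I) • (v ᵥ* cm (Jm n h.Q)), ξ, Ki.s⟩ := by
        funext m
        unfold Rbm
        rw [if_pos rfl, vecMulVec_smul, smul_smul, mul_comm]
      rw [← e]
      exact h1

end Q207.HM
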