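import Pool.Agent.Q207.HM.Tor
import Pool.Agent.Y119.HY.Fin2

/-!
# Orthogonal exponents
-/

set_option autoImplicit false

open PowerSeries

namespace Q207.HM

open Pool.Agent.Y119.HY (QD QB)

variable {m : ℕ}

/-- the pairs of opposite numbers -/
def ab (β : Fin m → ℚ) : Fin (2 * m) → ℚ := fun i => if (finProdFinEquiv.symm i).1 = 0 then β (finProdFinEquiv.symm i).2
  else -β (finProdFinEquiv.symm i).2

lemma QA_ab (β : Fin m → ℚ) : QA (ab β) = QB β := by
  unfold QA QB ab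
  rw [← Equiv.prod_comp (finProdFinEquiv (m := 2) (n := m))]
  simp only [Equiv.symm_apply_apply]
  rw [Fintype.prod_prod_type, Fin.prod_univ_two, ← Finset.prod_mul_distrib]
  refine Finset.prod_congr rfl fun j _ => ?_
  simp
  ring

/-- the exponents in the orthogonal case -/
def ao (β : Fin m → ℚ) : Fin (2 * m + 1) → ℚ := Fin.cons (1 / 2) (ab β)

lemma QA_ao (β : Fin m → ℚ) : QA (ao β) = (Polynomial.X + Polynomial.C (1 / 2)) * QB β := by
  rw [← QA_ab]
  unfold QA ao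
  rw [Fin.prod_univ_succ, Fin.cons_zero]
  simp only [Fin.cons_succ]

lemma NI_neg {γ : ℚ} (h : NI γ) : NI (-γ) := by
  intro l h0
  apply h (-l)
  push_cast
  linear_combination -h0

lemma NI_ab {β : Fin m → ℚ} (hβ : ∀ j, NI (β j)) (i : Fin (2 * m)) : NI (ab β i) := by
  unfold ab
  split_ifs
  · exact hβ _
  · exact NI_neg (hβ _)

lemma NI_half : NI (1 / 2) := by
  intro l h0
  have h1 : (2 * l : ℤ) = 1 := by
    have : (2 : ℚ) * l = 1 := by rw [h0]; norm_num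
    exact_mod_cast this
  omega

lemma NI_ao {β : Fin m → ℚ} (hβ : ∀ j, NI (β j)) (i : Fin (2 * m + 1)) : NI (ao β i) := by
  unfold ao
  refine Fin.cases ?_ (fun i => ?_) i
  · rw [Fin.cons_zero]
    exact NI_half
  · rw [Fin.cons_succ]
    exact NI_ab hβ i

lemma NI_two {β : Fin m → ℚ} (hβ : ∀ j, NI (β j)) (j : Fin m) (l : ℕ) : (l : ℚ) + β j ≠ 0 ∧ (l : ℚ) + -β j ≠ 0 :=
  ⟨(hβ j).nat l, (NI_neg (hβ j)).nat l⟩

lemma QO_ao (hm : 1 ≤ m) {β : Fin m → ℚ} (hβ : ∀ j, NI (β j)) : QO (2 * m + 1) (QA (ao β)) (QB β) := by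
  have h1 := Pool.Agent.Y119.HZ.QD_QB hm (NI_two hβ)
  exact ⟨QG_QA (by omega) (NI_ao hβ), ⟨m, rfl⟩, h1.monic, h1.deg, h1.sym, QA_ao β⟩

lemma QA_coeff {n : ℕ} (hn : 1 ≤ n) (α : Fin n → ℚ) : (QA α).coeff (n - 1) = ∑ j, α j := by
  have h0 : (QA α).natDegree = n := by
    unfold QA
    rw [Polynomial.natDegree_prod_of_monic _ _ fun i _ => Polynomial.monic_X_add_C _]
    simp
  have h1 : (QA α).nextCoeff = ∑ j, α j := by
    unfold QA
    rw [Polynomial.Monic.nextCoeff_prod _ _ fun i _ => Polynomial.monic_X_add_C _]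
    exact Finset.sum_congr rfl fun j _ => Polynomial.nextCoeff_X_add_C _
  rw [← h1, Polynomial.nextCoeff_of_natDegree_pos (by omega), h0]

end Q207.HM
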