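import Pool.Agent.Q207.HM.Neq2
import Pool.Agent.Q207.HM.Dat

/-!
# Exponents modulo the integers
-/

set_option autoImplicit false

namespace Q207.HM

open Pool.Agent.Y119.HY (QB)

variable {m n : ℕ}

/-- the classes of the exponents modulo the integers -/
def cls (α : Fin n → ℚ) : Multiset ℚ := Finset.univ.val.map fun i => Int.fract (α i)

lemma cls_card (α : Fin n → ℚ) : Multiset.card (cls α) = n := by
  unfold cls
  rw [Multiset.card_map]
  exact Finset.card_fin n

lemma cls_size {α : Fin m → ℚ} {α' : Fin n → ℚ} (h : cls α = cls α') : m = n := by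
  rw [← cls_card α, ← cls_card α', h]

/-- equal classes -/
lemma cls_perm {α α' : Fin n → ℚ} (h : cls α = cls α') : ∃ σ : Equiv.Perm (Fin n), ∀ i, ∃ a : ℤ, α' (σ i) - α i = a := by
  classical
  have hc : ∀ c : ℚ, Nonempty ({i // Int.fract (α i) = c} ≃ {i // Int.fract (α' i) = c}) := by
    intro c
    rw [← Fintype.card_eq]
    have h1 := congrArg (Multiset.count c) h
    unfold cls at h1
    rw [Multiset.count_map, Multiset.count_map] at h1
    rw [Fintype.card_subtype, Fintype.card_subtype, Finset.card_def, Finset.card_def, Finset.filter_val, Finset.filter_val]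
    have e : ∀ β : Fin n → ℚ, (Finset.univ : Finset (Fin n)).val.filter (fun a => c = Int.fract (β a)) =
        (Finset.univ : Finset (Fin n)).val.filter (fun a => Int.fract (β a) = c) := by
      intro β
      exact Multiset.filter_congr fun x _ => eq_comm
    rw [← e, ← e]
    exact h1
  refine ⟨Equiv.ofFiberEquiv (f := fun i => Int.fract (α i)) (g := fun i => Int.fract (α' i)) fun c => (hc c).some, fun i => ?_⟩
  have h2 := Equiv.ofFiberEquiv_map (f := fun i => Int.fract (α i)) (g := fun i => Int.fract (α' i)) (fun c => (hc c).some) i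
  exact Int.fract_eq_fract.1 h2

lemma perm_cls {α α' : Fin n → ℚ} (σ : Equiv.Perm (Fin n)) (h : ∀ i, ∃ a : ℤ, α' (σ i) - α i = a) : cls α = cls α' := by
  unfold cls
  have h1 : (fun i => Int.fract (α i)) = (fun i => Int.fract (α' i)) ∘ σ := by
    funext i
    exact (Int.fract_eq_fract.2 (h i)).symm
  rw [h1, ← Multiset.map_map, Multiset.map_univ_val_equiv]

/-- the sums of the exponents -/
lemma cls_sum {α α' : Fin n → ℚ} (h : cls α = cls α') : ∃ a : ℤ, ∑ i, α' i - ∑ i, α i = a := by
  obtain ⟨σ, hσ⟩ := cls_perm h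
  choose a ha using hσ
  refine ⟨∑ i, a i, ?_⟩
  rw [← Equiv.sum_comp σ fun i => α' i, ← Finset.sum_sub_distrib]
  push_cast
  exact Finset.sum_congr rfl fun i _ => ha i

lemma cls_neg {α : Fin m → ℚ} {α' : Fin n → ℚ} (h : cls α = cls α') : (cls fun i => -α i) = cls fun i => -α' i := by
  obtain rfl := cls_size h
  obtain ⟨σ, hσ⟩ := cls_perm h
  refine perm_cls σ fun i => ?_
  obtain ⟨a, ha⟩ := hσ i
  refine ⟨-a, ?_⟩
  push_cast
  linear_combination -ha

lemma cls_neg' {α : Fin m → ℚ} {α' : Fin n → ℚ} (h : cls α = cls fun i => -α' i) : (cls fun i => -α i) = cls α' := by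
  have h1 := cls_neg h
  simpa only [neg_neg] using h1

/-- the characteristic polynomial determines the classes -/
lemma mono_cls {α : Fin m → ℚ} {α' : Fin n → ℚ} (h : mono α = mono α') : cls α = cls α' := by
  classical
  set f : ℚ → ℂ := fun x => Complex.exp (-(2 * Real.pi * Complex.I) * (x : ℂ)) with hf
  have hr : ∀ {k : ℕ} (β : Fin k → ℚ), (mono β).roots = (Finset.univ : Finset (Fin k)).val.map fun i => f (β i) := by
    intro k β
    have h1 : mono β = (((Finset.univ : Finset (Fin k)).val.map fun i => f (β i)).map fun a => Polynomial.X - Polynomial.C a).prod := by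
      rw [Multiset.map_map]
      rfl
    rw [h1, Polynomial.roots_multiset_prod_X_sub_C]
  have hinj : ∀ x y : ℚ, f x = f y → Int.fract x = Int.fract y := by
    intro x y hxy
    rw [hf] at hxy
    simp only at hxy
    rw [Complex.exp_eq_exp_iff_exists_int] at hxy
    obtain ⟨a, ha⟩ := hxy
    rw [Int.fract_eq_fract]
    refine ⟨-a, ?_⟩
    have h1 : (2 * (Real.pi : ℂ) * Complex.I) * ((x : ℂ) - y + a) = 0 := by linear_combination -ha
    rcases mul_eq_zero.1 h1 with h2 | h2
    · exact absurd h2 Complex.two_pi_I_ne_zero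
    · have h3 : (x : ℂ) - y = ((-a : ℤ) : ℂ) := by
        push_cast
        linear_combination h2
      exact_mod_cast h3
  set g : ℂ → ℚ := fun w => if hw : ∃ x : ℚ, f x = w then Int.fract hw.choose else 0 with hg
  have hgf : ∀ x : ℚ, g (f x) = Int.fract x := by
    intro x
    have hw : ∃ y : ℚ, f y = f x := ⟨x, rfl⟩
    rw [hg]
    simp only
    rw [dif_pos hw]
    exact hinj _ _ hw.choose_spec
  have h2 := congrArg (fun p : Polynomial ℂ => p.roots.map g) h
  simp only [hr, Multiset.map_map] at h2
  unfold cls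
  have e : ∀ {k : ℕ} (β : Fin k → ℚ), ((Finset.univ : Finset (Fin k)).val.map (g ∘ fun i => f (β i))) =
      (Finset.univ : Finset (Fin k)).val.map fun i => Int.fract (β i) := by
    intro k β
    exact Multiset.map_congr rfl fun i _ => hgf _
  rw [e, e] at h2
  exact h2

/-- symmetric multisets -/
lemma sym_split : ∀ (k : ℕ) (M : Multiset ℚ), Multiset.card M = k → (∀ x ∈ M, 0 < x ∧ x < 1) → M.map (fun x => 1 - x) = M →
    ∃ B : Multiset ℚ, (∀ x ∈ B, 0 < x ∧ x < 1) ∧ (M = B + B.map (fun x => 1 - x) ∨ M = (1 / 2) ::ₘ (B + B.map (fun x => 1 - x))) := by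
  classical
  intro k
  induction k using Nat.strong_induction_on with
  | _ k ih =>
    intro M hk hM hs
    by_cases h0 : ∃ x ∈ M, x ≠ 1 / 2
    · obtain ⟨x, hx, hx2⟩ := h0
      have h1 : 1 - x ∈ M := by
        rw [← hs]
        exact Multiset.mem_map_of_mem _ hx
      obtain ⟨M1, rfl⟩ := Multiset.exists_cons_of_mem hx
      have h2 : 1 - x ∈ M1 := by
        rcases Multiset.mem_cons.1 h1 with h3 | h3
        · exfalso
          apply hx2
          linarith
        · exact h3
      obtain ⟨M2, rfl⟩ := Multiset.exists_cons_of_mem h2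
      have hs2 : M2.map (fun x => 1 - x) = M2 := by
        rw [Multiset.map_cons, Multiset.map_cons, sub_sub_cancel, Multiset.cons_swap] at hs
        rw [Multiset.cons_inj_right, Multiset.cons_inj_right] at hs
        exact hs
      rw [Multiset.card_cons, Multiset.card_cons] at hk
      obtain ⟨B, hB, hB2⟩ := ih (Multiset.card M2) (by omega) M2 rfl
        (fun y hy => hM y (Multiset.mem_cons_of_mem (Multiset.mem_cons_of_mem hy))) hs2
      refine ⟨x ::ₘ B, ?_, ?_⟩
      · intro y hy
        rcases Multiset.mem_cons.1 hy with rfl | hy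
        · exact hM _ (Multiset.mem_cons_self _ _)
        · exact hB y hy
      · rcases hB2 with h3 | h3
        · left
          rw [h3, Multiset.map_cons, Multiset.cons_add, Multiset.add_cons]
        · right
          rw [h3, Multiset.map_cons, Multiset.cons_add, Multiset.add_cons, Multiset.cons_swap (1 - x), Multiset.cons_swap x]
    · push Not at h0
      have h1 : M = Multiset.replicate k (1 / 2) := Multiset.eq_replicate.2 ⟨hk, h0⟩
      have hm : ∀ j : ℕ, (Multiset.replicate j (1 / 2 : ℚ)).map (fun x => 1 - x) = Multiset.replicate j (1 / 2) := by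
        intro j
        rw [Multiset.map_replicate]
        norm_num
      rcases Nat.even_or_odd' k with ⟨j, hj | hj⟩
      · refine ⟨Multiset.replicate j (1 / 2), ?_, Or.inl ?_⟩
        · intro y hy
          rw [Multiset.eq_of_mem_replicate hy]
          norm_num
        · rw [hm, h1, hj, two_mul, Multiset.replicate_add]
      · refine ⟨Multiset.replicate j (1 / 2), ?_, Or.inr ?_⟩
        · intro y hy
          rw [Multiset.eq_of_mem_replicate hy]
          norm_num
        · rw [hm, h1, hj, Multiset.replicate_succ, two_mul, Multiset.replicate_add]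

lemma exists_fun (B : Multiset ℚ) : ∃ (m : ℕ) (β : Fin m → ℚ), (Finset.univ : Finset (Fin m)).val.map β = B := by
  refine ⟨B.toList.length, fun i => B.toList.get i, ?_⟩
  rw [Fin.univ_val_map, List.ofFn_get, Multiset.coe_toList]

lemma cls_ab (β : Fin m → ℚ) : cls (ab β) = cls β + cls fun i => -β i := by
  unfold cls
  rw [← Multiset.map_univ_val_equiv (finProdFinEquiv (m := 2) (n := m)), Multiset.map_map]
  have h1 : ((fun i => Int.fract (ab β i)) ∘ (finProdFinEquiv (m := 2) (n := m))) =
      fun p : Fin 2 × Fin m => if p.1 = 0 then Int.fract (β p.2) else Int.fract (-β p.2) := by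
    funext p
    unfold ab
    simp only [Function.comp, Equiv.symm_apply_apply]
    split_ifs <;> rfl
  rw [h1]
  have h2 : (Finset.univ : Finset (Fin 2 × Fin m)).val = ((Finset.univ : Finset (Fin m)).val.map fun i => ((0 : Fin 2), i)) +
      (Finset.univ : Finset (Fin m)).val.map fun i => ((1 : Fin 2), i) := by
    rw [← Finset.univ_product_univ, Finset.product_val]
    have h3 : (Finset.univ : Finset (Fin 2)).val = (0 : Fin 2) ::ₘ {(1 : Fin 2)} := by decide
    rw [h3, Multiset.cons_product]
    congr 1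
    exact Multiset.cons_product _ _ _ |>.trans (by simp)
  rw [h2, Multiset.map_add, Multiset.map_map, Multiset.map_map]
  congr 1

lemma cls_ao (β : Fin m → ℚ) : cls (ao β) = (1 / 2) ::ₘ (cls β + cls fun i => -β i) := by
  rw [← cls_ab]
  unfold cls ao
  rw [Fin.univ_val_map, Fin.univ_val_map, List.ofFn_succ]
  simp only [Fin.cons_zero, Fin.cons_succ]
  rw [← Multiset.cons_coe]
  congr 1
  norm_num [Int.fract]

/-- **symmetric classes** -/
theorem sym_cls {α : Fin n → ℚ} (hα : ∀ i, ∀ a : ℤ, α i ≠ a) (h : cls α = cls fun i => -α i) :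
    ∃ (m : ℕ) (β : Fin m → ℚ), (∀ i, ∀ a : ℤ, β i ≠ a) ∧ ((n = 2 * m ∧ cls (ab β) = cls α) ∨ (n = 2 * m + 1 ∧ cls (ao β) = cls α)) := by
  have hf0 : ∀ i, Int.fract (α i) ≠ 0 := by
    intro i h0
    rw [Int.fract_eq_iff] at h0
    obtain ⟨-, -, z, hz⟩ := h0
    exact hα i z (by rw [← hz, sub_zero])
  have hM : ∀ x ∈ cls α, 0 < x ∧ x < 1 := by
    intro x hx
    unfold cls at hx
    rw [Multiset.mem_map] at hx
    obtain ⟨i, -, rfl⟩ := hx
    exact ⟨lt_of_le_of_ne (Int.fract_nonneg _) (hf0 i).symm, Int.fract_lt_one _⟩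
  have hs : (cls α).map (fun x => 1 - x) = cls α := by
    conv_rhs => rw [h]
    unfold cls
    rw [Multiset.map_map]
    refine Multiset.map_congr rfl fun i _ => ?_
    exact (Int.fract_neg (hf0 i)).symm
  obtain ⟨B, hB, hB2⟩ := sym_split _ (cls α) rfl hM hs
  obtain ⟨m, β, hβ⟩ := exists_fun B
  have hβB : ∀ i, 0 < β i ∧ β i < 1 := fun i => hB _ (by rw [← hβ]; exact Multiset.mem_map_of_mem _ (Finset.mem_univ_val i))
  have hcβ : cls β = B := by
    rw [← hβ]
    unfold cls
    refine Multiset.map_congr rfl fun i _ => ?_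
    exact Int.fract_eq_self.2 ⟨(hβB i).1.le, (hβB i).2⟩
  have hcβ' : (cls fun i => -β i) = B.map fun x => 1 - x := by
    rw [← hβ, Multiset.map_map]
    unfold cls
    refine Multiset.map_congr rfl fun i _ => ?_
    have h1 : Int.fract (β i) = β i := Int.fract_eq_self.2 ⟨(hβB i).1.le, (hβB i).2⟩
    rw [Int.fract_neg (by rw [h1]; exact (hβB i).1.ne'), h1]
    rfl
  refine ⟨m, β, fun i a ha => ?_, ?_⟩
  · obtain ⟨h1, h2⟩ := hβB i
    rw [ha] at h1 h2
    have h3 : 0 < a := by exact_mod_cast h1
    have h4 : a < 1 := by exact_mod_cast h2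
    omega
  · rcases hB2 with h1 | h1
    · have h2 : cls (ab β) = cls α := by rw [cls_ab, hcβ, hcβ', h1]
      exact Or.inl ⟨(cls_size h2).symm, h2⟩
    · have h2 : cls (ao β) = cls α := by rw [cls_ao, hcβ, hcβ', h1]
      exact Or.inr ⟨(cls_size h2).symm, h2⟩

/-- the value at one in the symplectic case -/
lemma mono_ab (β : Fin m → ℚ) (hβ : ∀ i, ∀ a : ℤ, β i ≠ a) : ∃ r : ℝ, 0 < r ∧ (mono (ab β)).eval 1 = (r : ℂ) := by
  set w : Fin m → ℂ := fun j => Complex.exp (-(2 * Real.pi * Complex.I) * ((β j : ℚ) : ℂ)) with hw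
  have h1 : (mono (ab β)).eval 1 = ∏ j, ((1 - w j) * (1 - (starRingEnd ℂ) (w j))) := by
    unfold mono
    rw [Polynomial.eval_prod, ← Equiv.prod_comp (finProdFinEquiv (m := 2) (n := m)), Fintype.prod_prod_type, Fin.prod_univ_two,
      ← Finset.prod_mul_distrib]
    refine Finset.prod_congr rfl fun j _ => ?_
    unfold ab
    simp only [Equiv.symm_apply_apply, Polynomial.eval_sub, Polynomial.eval_X, Polynomial.eval_C, if_true]
    rw [if_neg (by decide)]
    congr 2
    rw [hw]
    simp only
    rw [← Complex.exp_conj]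
    congr 1
    simp only [map_mul, map_neg, Complex.conj_I, Complex.conj_ofReal, map_ofNat, map_ratCast]
    push_cast
    ring
  refine ⟨∏ j, Complex.normSq (1 - w j), Finset.prod_pos fun j _ => ?_, ?_⟩
  · rw [Complex.normSq_pos, sub_ne_zero]
    intro h2
    rw [hw] at h2
    simp only at h2
    have h3 := Complex.exp_eq_one_iff.1 h2.symm
    obtain ⟨a, ha⟩ := h3
    apply hβ j (-a)
    have h4 : (2 * (Real.pi : ℂ) * Complex.I) * ((β j : ℂ) + a) = 0 := by linear_combination -ha
    rcases mul_eq_zero.1 h4 with h5 | h5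
    · exact absurd h5 Complex.two_pi_I_ne_zero
    · have h6 : (β j : ℂ) = ((-a : ℤ) : ℂ) := by
        push_cast
        linear_combination h5
      exact_mod_cast h6
  · rw [h1]
    push_cast
    refine Finset.prod_congr rfl fun j _ => ?_
    rw [Complex.normSq_eq_conj_mul_self, map_sub, map_one]
    ring

end Q207.HM
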