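import Pool.Agent.Q207.HM.Res

/-!
# The connection between the singular points and the monodromy at a semisimple singular point
-/

set_option autoImplicit false

open Filter Topology Matrix

namespace Q207.HM

open Pool.Agent.Y119.HY (Sol PG ps Hf HD Gm E E_HD E_mul_neg Yf Yf_ode Lens mem_Lens real_mem_Lens slit_Lens symm_Lens const_Lens
  Vr Rel Gal ev pt)

variable {n : ℕ}

/-- the exponential of a multiple of a projection -/
noncomputable def EP (P : Matrix (Fin n) (Fin n) ℂ) (σ L : ℂ) : Matrix (Fin n) (Fin n) ℂ := 1 + (Complex.exp (σ * L) - 1) • P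

section EP

variable {P : Matrix (Fin n) (Fin n) ℂ} {σ : ℂ}

lemma EP_zero : EP P σ 0 = 1 := by
  unfold EP
  simp

lemma EP_add (hP : P * P = P) (s t : ℂ) : EP P σ (s + t) = EP P σ s * EP P σ t := by
  unfold EP
  rw [mul_add σ, Complex.exp_add, Matrix.mul_add, Matrix.add_mul, Matrix.add_mul, Matrix.mul_one, Matrix.one_mul, Matrix.mul_one,
    Matrix.smul_mul, Matrix.mul_smul, hP]
  module

lemma EP_mul_neg (hP : P * P = P) (s : ℂ) : EP P σ s * EP P σ (-s) = 1 := by
  rw [← EP_add hP, add_neg_cancel, EP_zero]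

lemma EP_neg_mul (hP : P * P = P) (s : ℂ) : EP P σ (-s) * EP P σ s = 1 := by
  rw [← EP_add hP, neg_add_cancel, EP_zero]

lemma P_EP (hP : P * P = P) (s : ℂ) : P * EP P σ s = Complex.exp (σ * s) • P := by
  unfold EP
  rw [Matrix.mul_add, Matrix.mul_one, Matrix.mul_smul, hP]
  module

lemma EP_P (hP : P * P = P) (s : ℂ) : EP P σ s * P = Complex.exp (σ * s) • P := by
  unfold EP
  rw [Matrix.add_mul, Matrix.one_mul, Matrix.smul_mul, hP]
  module

lemma EP_HD (hP : P * P = P) (s : ℂ) : HD (EP P σ) ((σ • P) * EP P σ s) s := by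
  intro i j
  rw [Matrix.smul_mul, P_EP hP]
  have h1 : HasDerivAt (fun w : ℂ => Complex.exp (σ * w)) (Complex.exp (σ * s) * σ) s := by
    have h2 : HasDerivAt (fun w : ℂ => σ * w) σ s := by simpa using (hasDerivAt_id s).const_mul σ
    exact h2.cexp
  have h3 : HasDerivAt (fun w : ℂ => (1 : Matrix (Fin n) (Fin n) ℂ) i j + (Complex.exp (σ * w) - 1) * P i j)
      ((Complex.exp (σ * s) * σ) * P i j) s := ((h1.sub_const 1).mul_const _).const_add _
  refine h3.congr_deriv ?_
  simp only [Matrix.smul_apply, smul_eq_mul]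
  ring

lemma EP_HD_neg (hP : P * P = P) (s : ℂ) : HD (fun w => EP P σ (-w)) (-(EP P σ (-s) * (σ • P))) s := by
  have h1 := (EP_HD (σ := σ) hP (-s)).comp (hasDerivAt_neg s)
  refine h1.congr ?_
  rw [Matrix.smul_mul, Matrix.mul_smul, P_EP hP, EP_P hP, neg_smul, one_smul]

end EP

lemma HD.congr_fun' {A B : ℂ → Matrix (Fin n) (Fin n) ℂ} {A' : Matrix (Fin n) (Fin n) ℂ} {z : ℂ} (h : HD A A' z)
    (e : ∀ w, B w = A w) : HD B A' z := by
  have : B = A := funext e
  rw [this]
  exact h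

section con

variable {A B P : Matrix (Fin n) (Fin n) ℂ} {σ : ℂ} {H K V W : ℕ → Matrix (Fin n) (Fin n) ℂ}

/-- the solution at the semisimple point -/
noncomputable def Zf (P : Matrix (Fin n) (Fin n) ℂ) (σ : ℂ) (K : ℕ → Matrix (Fin n) (Fin n) ℂ) (z : ℂ) : Matrix (Fin n) (Fin n) ℂ :=
  Hf K (1 - z) * EP P σ (Complex.log (1 - z))

/-- its inverse -/
noncomputable def Zi (P : Matrix (Fin n) (Fin n) ℂ) (σ : ℂ) (V : ℕ → Matrix (Fin n) (Fin n) ℂ) (z : ℂ) : Matrix (Fin n) (Fin n) ℂ :=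
  EP P σ (-Complex.log (1 - z)) * Hf V (1 - z)

lemma Zi_Zf (hP : P * P = P) (hσ : ∀ m : ℤ, σ ≠ m) (hK : Sol (σ • P) (-A) K) (hV : SolL (σ • P) (-A) V) {z : ℂ}
    (hz : ‖1 - z‖ < 1) : Zi P σ V z * Zf P σ K z = 1 := by
  have h1 := Hf_inv hK hV (nr_semi hP hσ) hz
  unfold Zi Zf
  calc _ = EP P σ (-Complex.log (1 - z)) * (Hf V (1 - z) * Hf K (1 - z)) * EP P σ (Complex.log (1 - z)) := by
        simp only [Matrix.mul_assoc]
    _ = 1 := by rw [h1, Matrix.mul_one, EP_neg_mul hP]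

/-- the derivative of the inverse -/
lemma HfL_ode {N0 N1 : Matrix (Fin n) (Fin n) ℂ} (hV : SolL N0 N1 V) (h : NR N0) {t : ℂ} (ht : ‖t‖ < 1) (ht0 : t ≠ 0) :
    HD (Hf V) ((1 / t) • (N0 * Hf V t - Hf V t * N0) - (1 / (1 - t)) • (Hf V t * N1)) t := by
  have hg : ∀ i j, PG fun k => (V k)ᵀ i j := fun i j => growthR hV (nrT h) i j
  have h1 := (HfR_ode hV hg ht ht0).transpose
  have e1 : ∀ w, (Hf (fun k => (V k)ᵀ) w)ᵀ = Hf V w := fun w => rfl
  refine (HD.congr_fun' h1 fun w => (e1 w).symm).congr ?_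
  simp only [transpose_add, transpose_sub, transpose_smul, transpose_mul, transpose_neg, transpose_transpose, e1]
  simp only [Matrix.mul_neg, Matrix.neg_mul, smul_neg, smul_sub]
  abel

lemma Zi_HD (hP : P * P = P) (hσ : ∀ m : ℤ, σ ≠ m) (hV : SolL (σ • P) (-A) V) (hB : -B = σ • P) {z : ℂ}
    (hz : z ∈ Lens) : HD (Zi P σ V) (-(Zi P σ V z * Gm A B z)) z := by
  have hz' := mem_Lens.1 hz
  have hzs := symm_Lens hz
  set t := 1 - z with ht
  have ht1 : ‖t‖ < 1 := hz'.2
  have ht0 : t ≠ 0 := Complex.slitPlane_ne_zero (slit_Lens hzs)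
  have h1 := HfL_ode hV (nr_semi hP hσ) ht1 ht0
  have h2 : HD (fun w => EP P σ (-Complex.log w)) (t⁻¹ • -(EP P σ (-Complex.log t) * (σ • P))) t :=
    (EP_HD_neg hP (Complex.log t)).comp (Complex.hasDerivAt_log (slit_Lens hzs))
  have h3 := (h2.mul h1)
  have h4 : HasDerivAt (fun w : ℂ => 1 - w) (-1) z := by
    simpa using (hasDerivAt_id z).const_sub 1
  have h5 := h3.comp h4
  refine h5.congr ?_
  have hBz : B = -(σ • P) := by rw [← hB, neg_neg]
  unfold Zi Gm
  rw [← ht]
  have e1 : 1 - t = z := by rw [ht]; ring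
  rw [e1, hBz, inv_eq_one_div]
  simp only [Matrix.mul_add, Matrix.mul_sub, Matrix.mul_smul, Matrix.smul_mul, Matrix.mul_neg, Matrix.neg_mul, smul_neg,
    Matrix.mul_assoc, smul_sub, neg_smul, one_smul, neg_neg, neg_add, smul_smul]
  module

/-- **Connection.** -/
theorem connectR (hA : A ^ n = 0) (hH : Sol A B H) (hW : SolL A B W) (hP : P * P = P) (hσ : ∀ m : ℤ, σ ≠ m) (hB : -B = σ • P)
    (hK : Sol (σ • P) (-A) K) (hV : SolL (σ • P) (-A) V) :
    ∃ M Mi : Matrix (Fin n) (Fin n) ℂ, M * Mi = 1 ∧ Mi * M = 1 ∧ ∀ z ∈ Lens, Yf A H z = Zf P σ K z * M := by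
  have hhalf : ((1 / 2 : ℝ) : ℂ) ∈ Lens := real_mem_Lens (by norm_num) (by norm_num)
  set z₀ : ℂ := ((1 / 2 : ℝ) : ℂ) with hz₀
  have hc : ∀ z ∈ Lens, Zi P σ V z * Yf A H z = Zi P σ V z₀ * Yf A H z₀ := by
    intro z hz
    refine const_Lens (F := fun z => Zi P σ V z * Yf A H z) (fun x hx => ?_) hz hhalf
    have h1 := Zi_HD hP hσ hV hB hx
    have h2 := Yf_ode hH hA (mem_Lens.1 hx).1 (slit_Lens hx)
    refine (h1.mul h2).congr ?_
    rw [Matrix.neg_mul, Matrix.mul_assoc]
    exact neg_add_cancel _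
  have hYi : (E A (-Complex.log z₀) * Hf W z₀) * Yf A H z₀ = 1 := by
    have h1 := Hf_inv hH hW (nr_nil hA) (mem_Lens.1 hhalf).1
    have h2 : E A (-Complex.log z₀) * E A (Complex.log z₀) = 1 := by
      have := E_mul_neg hA (-Complex.log z₀)
      rwa [neg_neg] at this
    unfold Yf
    calc _ = E A (-Complex.log z₀) * (Hf W z₀ * Hf H z₀) * E A (Complex.log z₀) := by simp only [Matrix.mul_assoc]
      _ = 1 := by rw [h1, Matrix.mul_one, h2]
  have hYi' := mul_eq_one_comm.1 hYi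
  have hZi := Zi_Zf hP hσ hK hV (mem_Lens.1 hhalf).2
  refine ⟨Zi P σ V z₀ * Yf A H z₀, (E A (-Complex.log z₀) * Hf W z₀) * Zf P σ K z₀, ?_, ?_, fun z hz => ?_⟩
  · calc _ = Zi P σ V z₀ * (Yf A H z₀ * (E A (-Complex.log z₀) * Hf W z₀)) * Zf P σ K z₀ := by simp only [Matrix.mul_assoc]
      _ = 1 := by rw [hYi', Matrix.mul_one, hZi]
  · calc _ = (E A (-Complex.log z₀) * Hf W z₀) * (Zf P σ K z₀ * Zi P σ V z₀) * Yf A H z₀ := by simp only [Matrix.mul_assoc]
      _ = 1 := by rw [mul_eq_one_comm.1 hZi, Matrix.mul_one, hYi]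
  · rw [← hc z hz]
    have h1 := mul_eq_one_comm.1 (Zi_Zf hP hσ hK hV (mem_Lens.1 hz).2)
    rw [← Matrix.mul_assoc, h1, Matrix.one_mul]

end con

/-! ### the monodromy -/

lemma ev_an (Q : MvPolynomial (Vr n) ℂ) {U : Set ℂ} {a b : ℂ → ℂ} {X : ℂ → Matrix (Fin n) (Fin n) ℂ}
    (ha : AnalyticOnNhd ℂ a U) (hb : AnalyticOnNhd ℂ b U) (hX : ∀ i j, AnalyticOnNhd ℂ (fun w => X w i j) U) :
    AnalyticOnNhd ℂ (fun w => ev Q (a w) (b w) (X w)) U := by
  unfold ev
  induction Q using MvPolynomial.induction_on with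
  | C c =>
    simp only [MvPolynomial.eval_C]
    exact analyticOnNhd_const
  | add p q hp hq =>
    simp only [map_add]
    exact hp.add hq
  | mul_X p i hp =>
    simp only [map_mul, MvPolynomial.eval_X]
    refine hp.mul ?_
    rcases i with _ | _ | x
    · exact ha
    · exact hb
    · exact hX x.1 x.2

/-- the powers of the monodromy at the semisimple point preserve the relations -/
theorem semi_mem_Gal {P A : Matrix (Fin n) (Fin n) ℂ} {σ : ℂ} {K : ℕ → Matrix (Fin n) (Fin n) ℂ} (hP : P * P = P)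
    (hg : ∀ i j, PG fun k => K k i j) {Y : ℂ → Matrix (Fin n) (Fin n) ℂ} {M Mi : Matrix (Fin n) (Fin n) ℂ} (hMi : M * Mi = 1)
    (hY : ∀ x : ℝ, 0 < x → x < 1 → Y x = Zf P σ K x * M) (m : ℤ) : Mi * EP P σ (2 * Real.pi * Complex.I * m) * M ∈ Gal Y := by
  intro Q hQ x hx hx1
  set U : Set ℂ := {τ : ℂ | τ.re < 0} with hU
  have hUo : IsOpen U := isOpen_lt Complex.continuous_re continuous_const
  have hUc : IsPreconnected U := (convex_halfSpace_re_lt 0).isPreconnected
  have hexp : ∀ τ ∈ U, ‖Complex.exp τ‖ < 1 := by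
    intro τ hτ
    rw [Complex.norm_exp]
    exact Real.exp_lt_one_iff.2 hτ
  set F : ℂ → ℂ := fun τ => ev Q (1 - Complex.exp τ) (Complex.log (1 - Complex.exp τ)) (Hf K (Complex.exp τ) * EP P σ τ * M)
    with hF
  have hFa : AnalyticOnNhd ℂ F U := by
    refine ev_an Q ?_ ?_ ?_
    · exact analyticOnNhd_const.sub (analyticOnNhd_cexp.mono (Set.subset_univ _))
    · intro τ hτ
      refine AnalyticAt.clog (analyticAt_const.sub analyticAt_cexp) ?_
      left
      have h1 : (Complex.exp τ).re ≤ ‖Complex.exp τ‖ := Complex.re_le_norm _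
      have h2 := hexp τ hτ
      rw [Complex.sub_re, Complex.one_re]
      linarith
    · intro i j
      simp only [Matrix.mul_apply]
      refine Finset.analyticOnNhd_fun_sum _ fun l _ => AnalyticOnNhd.mul ?_ analyticOnNhd_const
      refine Finset.analyticOnNhd_fun_sum _ fun k _ => AnalyticOnNhd.mul ?_ ?_
      · intro τ hτ
        have h1 := HfR_an hg i k (Complex.exp τ) (by
          rw [Metric.mem_ball, dist_zero_right]
          exact hexp τ hτ)
        exact h1.comp analyticAt_cexp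
      · intro τ _
        unfold EP
        simp only [Matrix.add_apply, Matrix.smul_apply, smul_eq_mul]
        refine analyticAt_const.add (AnalyticAt.mul (AnalyticAt.sub ?_ analyticAt_const) analyticAt_const)
        exact (analyticAt_const.mul analyticAt_id).cexp
  have hreal : ∀ r : ℝ, r < 0 → F (r : ℂ) = 0 := by
    intro r hr
    have h1 : 0 < 1 - Real.exp r := by
      have := Real.exp_lt_one_iff.2 hr
      linarith
    have h2 : 1 - Real.exp r < 1 := by
      have := Real.exp_pos r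
      linarith
    have h3 := hQ (1 - Real.exp r) h1 h2
    rw [hY _ h1 h2] at h3
    unfold Zf at h3
    have e1 : (((1 - Real.exp r : ℝ)) : ℂ) = 1 - Complex.exp r := by push_cast; rfl
    have e2 : (1 : ℂ) - (1 - Complex.exp (r : ℂ)) = Complex.exp r := by ring
    have e3 : Complex.log (Complex.exp (r : ℂ)) = r := by
      rw [← Complex.ofReal_exp, ← Complex.ofReal_log (Real.exp_pos r).le, Real.log_exp]
    rw [e1, e2, e3] at h3
    exact h3
  have hzero : ∀ τ ∈ U, F τ = 0 := by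
    have h1 := hFa.eqOn_zero_of_preconnected_of_frequently_eq_zero hUc (z₀ := ((-1 : ℝ) : ℂ)) (by
      rw [hU, Set.mem_setOf_eq, Complex.ofReal_re]
      norm_num) ?_
    · exact fun τ hτ => h1 hτ
    · have h2 : Tendsto (fun k : ℕ => ((((-1 : ℝ) - 1 / ((k : ℝ) + 1) : ℝ)) : ℂ)) atTop (𝓝[≠] ((-1 : ℝ) : ℂ)) := by
        rw [tendsto_nhdsWithin_iff]
        constructor
        · have h3 := (tendsto_one_div_add_atTop_nhds_zero_nat (𝕜 := ℝ)).const_sub (-1 : ℝ)
          rw [sub_zero] at h3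
          exact (Complex.continuous_ofReal.tendsto _).comp h3
        · refine Eventually.of_forall fun k => ?_
          rw [Set.mem_compl_iff, Set.mem_singleton_iff, Complex.ofReal_inj]
          have : (0 : ℝ) < 1 / ((k : ℝ) + 1) := by positivity
          linarith
      refine h2.frequently (Frequently.of_forall fun k => ?_)
      refine hreal _ ?_
      have : (0 : ℝ) < 1 / ((k : ℝ) + 1) := by positivity
      linarith
  set τ₀ : ℂ := Complex.log (1 - (x : ℂ)) with hτ₀
  have hx1' : (1 : ℂ) - (x : ℂ) ≠ 0 := by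
    have : ((1 - x : ℝ) : ℂ) ≠ 0 := by
      rw [Ne, Complex.ofReal_eq_zero]
      linarith
    push_cast at this
    exact this
  have hτ1 : Complex.exp τ₀ = 1 - (x : ℂ) := Complex.exp_log hx1'
  have hτU : τ₀ + 2 * Real.pi * Complex.I * m ∈ U := by
    rw [hU, Set.mem_setOf_eq]
    have e1 : (2 * (Real.pi : ℂ) * Complex.I * (m : ℂ)).re = 0 := by
      simp [Complex.mul_re]
    rw [Complex.add_re, e1, add_zero, hτ₀]
    have e2 : (1 - (x : ℂ)) = (((1 - x : ℝ)) : ℂ) := by push_cast; rfl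
    rw [e2, ← Complex.ofReal_log (by linarith), Complex.ofReal_re]
    exact Real.log_neg (by linarith) (by linarith)
  have h1 := hzero _ hτU
  rw [hF] at h1
  simp only at h1
  have e1 : Complex.exp (τ₀ + 2 * Real.pi * Complex.I * m) = 1 - (x : ℂ) := by
    rw [Complex.exp_add, hτ1]
    have : Complex.exp (2 * Real.pi * Complex.I * m) = 1 := by
      rw [mul_comm (2 * (Real.pi : ℂ) * Complex.I) (m : ℂ)]
      exact Complex.exp_int_mul_two_pi_mul_I m
    rw [this, mul_one]
  rw [e1, EP_add hP, sub_sub_cancel] at h1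
  rw [hY x hx hx1]
  have e2 : Zf P σ K (x : ℂ) * M * (Mi * EP P σ (2 * Real.pi * Complex.I * m) * M) =
      Hf K (1 - (x : ℂ)) * (EP P σ τ₀ * EP P σ (2 * Real.pi * Complex.I * m)) * M := by
    unfold Zf
    calc _ = Hf K (1 - (x : ℂ)) * EP P σ (Complex.log (1 - (x : ℂ))) * (M * Mi) * EP P σ (2 * Real.pi * Complex.I * m) * M := by
          simp only [Matrix.mul_assoc]
      _ = _ := by
        rw [hMi, Matrix.mul_one]
        simp only [Matrix.mul_assoc]
        rfl
  rw [e2]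
  exact h1

/-- the group of the relations is closed -/
lemma Gal_isClosed (Y : ℂ → Matrix (Fin n) (Fin n) ℂ) : IsClosed (Gal Y : Set (Matrix (Fin n) (Fin n) ℂ)) := by
  have h1 : (Gal Y : Set (Matrix (Fin n) (Fin n) ℂ)) = ⋂ Q ∈ Rel Y, ⋂ x : ℝ, ⋂ (_ : 0 < x), ⋂ (_ : x < 1),
      {g | ev Q (x : ℂ) (Complex.log x) (Y x * g) = 0} := by
    ext g
    simp only [Set.mem_iInter, Set.mem_setOf_eq]
    rfl
  rw [h1]
  refine isClosed_biInter fun Q _ => isClosed_iInter fun x => isClosed_iInter fun _ => isClosed_iInter fun _ => ?_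
  refine isClosed_eq ?_ continuous_const
  unfold ev
  refine (MvPolynomial.continuous_eval Q).comp ?_
  refine continuous_pi fun o => ?_
  rcases o with _ | _ | y
  · exact continuous_const
  · exact continuous_const
  · show Continuous fun g : Matrix (Fin n) (Fin n) ℂ => (Y x * g) y.1 y.2
    have h2 : Continuous fun g : Matrix (Fin n) (Fin n) ℂ => Y x * g := continuous_const.matrix_mul continuous_id
    exact (continuous_apply_apply y.1 y.2).comp h2

end Q207.HM
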