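import Pool.Agent.Q207.HM.LvS

/-!
# Contiguity
-/

set_option autoImplicit false

open Filter Topology Matrix

namespace Q207.HM

open Pool.Agent.Y119.HY (Am Bm kx aq hq Hq lin_eq coeff_kx_mul mul_Am cm cm_apply cm_mul cm_add Hc Ac_nil Sol PG ps ps_add ps_smul ps_sum
  ps_deriv ps_an Hf HD Gm E Yf)

variable {n : ℕ} {P Q Q' : Polynomial ℚ} {a : ℚ}

lemma kx_succ' (l : ℕ) : kx (l + 1) = kx l + PowerSeries.C (1 : ℚ) := by
  unfold kx
  push_cast
  rw [map_add]
  ring

lemma aq_shift (hQ : Q = P * (Polynomial.X + Polynomial.C a)) (hQ' : Q' = P * (Polynomial.X + Polynomial.C (a + 1))) (k : ℕ) :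
    aq n Q' k * (PowerSeries.C a + PowerSeries.X) = aq n Q k * (kx k + PowerSeries.C a) := by
  induction k with
  | zero =>
    unfold aq kx
    simp [add_comm]
  | succ k ih =>
    have e1 : Polynomial.aeval (kx k) Q = Polynomial.aeval (kx k) P * (kx k + PowerSeries.C a) := by
      rw [hQ, map_mul, map_add, Polynomial.aeval_X, Polynomial.aeval_C]
      rfl
    have e2 : Polynomial.aeval (kx k) Q' = Polynomial.aeval (kx k) P * (kx (k + 1) + PowerSeries.C a) := by
      rw [hQ', map_mul, map_add, Polynomial.aeval_X, Polynomial.aeval_C, kx_succ', map_add]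
      have : algebraMap ℚ (PowerSeries ℚ) a = PowerSeries.C a := rfl
      rw [this, map_one, map_one]
      ring
    have e3 : ∀ Q : Polynomial ℚ, aq n Q (k + 1) = aq n Q k * (Polynomial.aeval (kx k) Q * ((kx (k + 1))⁻¹) ^ n) := by
      intro Q
      unfold aq
      rw [Finset.prod_range_succ]
    rw [e3, e3, e1, e2]
    linear_combination (Polynomial.aeval (kx k) P * (kx (k + 1) + PowerSeries.C a) * ((kx (k + 1))⁻¹) ^ n) * ih

lemma Hq_shift (hQ : Q = P * (Polynomial.X + Polynomial.C a)) (hQ' : Q' = P * (Polynomial.X + Polynomial.C (a + 1))) (k : ℕ) :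
    Hq n Q' k * (a • (1 : Matrix (Fin n) (Fin n) ℚ) + Am n) = ((k : ℚ) + a) • Hq n Q k + Hq n Q k * Am n := by
  ext i j
  have h1 := lin_eq (n := n) (Q := Q) k i j
  have h2 : (Hq n Q' k * (a • (1 : Matrix (Fin n) (Fin n) ℚ) + Am n)) i j =
      PowerSeries.coeff (j : ℕ) (kx k ^ (i : ℕ) * aq n Q' k * (PowerSeries.C a + PowerSeries.X)) := by
    rw [Matrix.mul_add, Matrix.mul_smul, Matrix.mul_one, Matrix.add_apply, Matrix.smul_apply, smul_eq_mul, mul_Am, mul_add, map_add,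
      mul_comm _ (PowerSeries.C a), PowerSeries.coeff_C_mul]
    have e : ∀ (f : PowerSeries ℚ) (m : ℕ), m ≠ 0 → PowerSeries.coeff m (f * PowerSeries.X) = PowerSeries.coeff (m - 1) f := by
      intro f m hm
      obtain ⟨m', rfl⟩ := Nat.exists_eq_succ_of_ne_zero hm
      rw [Nat.succ_eq_add_one, PowerSeries.coeff_succ_mul_X, Nat.add_sub_cancel]
    congr 1
    by_cases hj : (j : ℕ) = 0
    · rw [dif_pos hj, hj]
      simp
    · rw [dif_neg hj, e _ _ hj]
      rfl
  rw [h2, mul_assoc, aq_shift hQ hQ', Matrix.add_apply, Matrix.smul_apply, smul_eq_mul, add_mul, add_right_comm, h1]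
  have h3 : kx k ^ (i : ℕ) * (aq n Q k * (kx k + PowerSeries.C a)) =
      kx k ^ ((i : ℕ) + 1) * aq n Q k + PowerSeries.C a * (kx k ^ (i : ℕ) * aq n Q k) := by
    ring
  rw [h3, map_add, PowerSeries.coeff_C_mul]
  rfl

/-- the matrix `a + A` -/
noncomputable def gA (n : ℕ) (a : ℚ) : Matrix (Fin n) (Fin n) ℂ := ((a : ℚ) : ℂ) • (1 : Matrix (Fin n) (Fin n) ℂ) + cm (Am n)

lemma Hc_shift (hQ : Q = P * (Polynomial.X + Polynomial.C a)) (hQ' : Q' = P * (Polynomial.X + Polynomial.C (a + 1))) (k : ℕ) :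
    Hc n Q' k * gA n a = ((k : ℂ) + a) • Hc n Q k + Hc n Q k * cm (Am n) := by
  have h1 := congrArg cm (Hq_shift (n := n) hQ hQ' k)
  rw [cm_mul, cm_add, cm_add, cm_mul] at h1
  have e1 : cm (a • (1 : Matrix (Fin n) (Fin n) ℚ)) = ((a : ℚ) : ℂ) • (1 : Matrix (Fin n) (Fin n) ℂ) := by
    ext i j
    rw [cm_apply, Matrix.smul_apply, Matrix.smul_apply, smul_eq_mul, smul_eq_mul, Matrix.one_apply, Matrix.one_apply]
    split_ifs <;> simp
  have e2 : cm (((k : ℚ) + a) • Hq n Q k) = ((k : ℂ) + a) • Hc n Q k := by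
    ext i j
    rw [cm_apply, Matrix.smul_apply, Matrix.smul_apply, smul_eq_mul, smul_eq_mul]
    unfold Hc
    rw [cm_apply]
    push_cast
    rfl
  rw [e1, e2] at h1
  exact h1

/-- the rational matrix of the change of the exponent -/
noncomputable def Ga (n : ℕ) (Q : Polynomial ℚ) (a : ℚ) (z : ℂ) : Matrix (Fin n) (Fin n) ℂ :=
  ((a : ℚ) : ℂ) • (1 : Matrix (Fin n) (Fin n) ℂ) + (cm (Am n) + (z / (1 - z)) • cm (Bm n Q))

lemma Hf_shift (hG : QG n Q) (hQ : Q = P * (Polynomial.X + Polynomial.C a)) (hQ' : Q' = P * (Polynomial.X + Polynomial.C (a + 1)))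
    (hG' : QG n Q') {z : ℂ} (hz : ‖z‖ < 1) (hz0 : z ≠ 0) : Hf (Hc n Q') z * gA n a = Ga n Q a z * Hf (Hc n Q) z := by
  have hH := sol_cG hG
  have hg : ∀ i j, PG fun k => Hc n Q k i j := growthR hH (nr_nil Ac_nil)
  have hg' : ∀ i j, PG fun k => Hc n Q' k i j := growthR (sol_cG hG') (nr_nil Ac_nil)
  ext i j
  have h1 : (Hf (Hc n Q') z * gA n a) i j = ps (fun k => (Hc n Q' k * gA n a) i j) z := by
    simp only [Matrix.mul_apply]
    have e : (fun k => ∑ l, Hc n Q' k i l * gA n a l j) = fun k => ∑ l, gA n a l j * Hc n Q' k i l := by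
      funext k
      exact Finset.sum_congr rfl fun l _ => mul_comm _ _
    rw [e, ps_sum _ (fun l _ => (hg' i l).smul _) hz]
    refine Finset.sum_congr rfl fun l _ => ?_
    rw [ps_smul, mul_comm]
    rfl
  have h2 : (fun k => (Hc n Q' k * gA n a) i j) = fun k : ℕ => (k : ℂ) * Hc n Q k i j + (((a : ℚ) : ℂ) * Hc n Q k i j + (Hc n Q k * cm (Am n)) i j) := by
    funext k
    rw [Hc_shift hQ hQ', Matrix.add_apply, Matrix.smul_apply, smul_eq_mul]
    ring
  have hgr : PG fun k => (Hc n Q k * cm (Am n)) i j := by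
    simp only [Matrix.mul_apply]
    refine PG.sum _ fun l _ => ?_
    simp only [mul_comm (Hc n Q _ i l)]
    exact (hg i l).smul _
  have er : ps (fun k => (Hc n Q k * cm (Am n)) i j) z = (Hf (Hc n Q) z * cm (Am n)) i j := by
    simp only [Matrix.mul_apply, mul_comm (Hc n Q _ i _)]
    rw [ps_sum _ (fun l _ => (hg i l).smul _) hz]
    refine Finset.sum_congr rfl fun l _ => ?_
    rw [ps_smul, mul_comm]
    rfl
  have hd := (HfR_ode hH hg hz hz0) i j
  have h3 : ps (fun k : ℕ => (k : ℂ) * Hc n Q k i j) z = z * (((1 / z) • (cm (Am n) * Hf (Hc n Q) z - Hf (Hc n Q) z * cm (Am n)) +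
      (1 / (1 - z)) • (cm (Bm n Q) * Hf (Hc n Q) z)) i j) := by
    rw [← ps_deriv (hg i j) hz]
    congr 1
    exact hd.deriv
  rw [h1, h2, ps_add (hg i j).nat (((hg i j).smul _).add hgr) hz, ps_add ((hg i j).smul _) hgr hz, ps_smul, er, h3]
  unfold Ga
  simp only [add_mul, Matrix.smul_mul, Matrix.one_mul, Matrix.add_apply, Matrix.smul_apply, Matrix.sub_apply, smul_eq_mul]
  have e4 : ps (fun k => Hc n Q k i j) z = Hf (Hc n Q) z i j := rfl
  rw [e4]
  have h1z : (1 : ℂ) - z ≠ 0 := by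
    intro h0
    have h4 : z = 1 := by linear_combination -h0
    rw [h4, norm_one] at hz
    exact lt_irrefl _ hz
  field_simp
  ring

lemma E_comm' (A : Matrix (Fin n) (Fin n) ℂ) (s : ℂ) : A * E A s = E A s * A := by
  unfold E
  rw [Finset.mul_sum, Finset.sum_mul]
  refine Finset.sum_congr rfl fun l _ => ?_
  rw [Matrix.mul_smul, Matrix.smul_mul, ← pow_succ, ← pow_succ']

lemma gA_comm (a : ℚ) (s : ℂ) : gA n a * E (cm (Am n)) s = E (cm (Am n)) s * gA n a := by
  unfold gA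
  rw [add_mul, mul_add, Matrix.smul_mul, Matrix.one_mul, Matrix.mul_smul, Matrix.mul_one, E_comm']

lemma gA_inv (ha : a ≠ 0) : gA n a * (gA n a)⁻¹ = 1 ∧ (gA n a)⁻¹ * gA n a = 1 := by
  have h1 : IsUnit (gA n a) := by
    have hu : IsUnit (((a : ℚ) : ℂ) • (1 : Matrix (Fin n) (Fin n) ℂ)) := by
      have : ((a : ℚ) : ℂ) ≠ 0 := by exact_mod_cast ha
      rw [← Algebra.algebraMap_eq_smul_one]
      exact (IsUnit.mk0 _ this).map _
    have hnil : IsNilpotent (cm (Am n)) := ⟨n, Ac_nil⟩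
    have hc : Commute (((a : ℚ) : ℂ) • (1 : Matrix (Fin n) (Fin n) ℂ)) (cm (Am n)) := (Commute.one_left _).smul_left _
    exact (hnil.isUnit_add_left_of_commute hu hc.symm)
  have h2 : IsUnit (gA n a).det := (Matrix.isUnit_iff_isUnit_det _).1 h1
  exact ⟨Matrix.mul_nonsing_inv _ h2, Matrix.nonsing_inv_mul _ h2⟩

theorem ctg : Lv.S_Ctg := by
  intro n P Q Q' a hQ hQ' hG hG' R hR
  have ha : a ≠ 0 := by
    have h1 := hG.ne 0
    rw [hQ] at h1
    intro h0
    apply h1
    rw [h0]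
    simp
  obtain ⟨gi1, gi2⟩ := gA_inv (n := n) ha
  have hgd : ((((a : ℚ) : ℂ) • (1 : Matrix (Fin n) (Fin n) ℂ)) + cm (Am n)) = gA n a := rfl
  rw [hgd]
  obtain ⟨Φ, hΦ, hΦR, hΦY⟩ := hR
  refine ⟨fun τ => Ga n Q a (1 - Complex.exp τ) * Φ τ * (gA n a)⁻¹, fun i j => ?_, fun τ hτ m => ?_, fun x hx hx1 => ?_⟩
  · simp only [Matrix.mul_apply]
    refine Finset.analyticOnNhd_fun_sum _ fun l _ => AnalyticOnNhd.mul ?_ analyticOnNhd_const
    refine Finset.analyticOnNhd_fun_sum _ fun k _ => AnalyticOnNhd.mul ?_ (hΦ k l)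
    intro τ _
    unfold Ga
    simp only [Matrix.add_apply, Matrix.smul_apply, smul_eq_mul]
    refine analyticAt_const.add (analyticAt_const.add (AnalyticAt.mul (AnalyticAt.div (analyticAt_const.sub analyticAt_cexp)
      (analyticAt_const.sub (analyticAt_const.sub analyticAt_cexp)) ?_) analyticAt_const))
    rw [sub_sub_cancel]
    exact Complex.exp_ne_zero _
  · have e1 : Complex.exp (τ + 2 * Real.pi * Complex.I * m) = Complex.exp τ := by
      rw [Complex.exp_add]
      have : Complex.exp (2 * Real.pi * Complex.I * m) = 1 := by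
        rw [mul_comm (2 * (Real.pi : ℂ) * Complex.I) (m : ℂ)]
        exact Complex.exp_int_mul_two_pi_mul_I m
      rw [this, mul_one]
    simp only [e1]
    rw [hΦR τ hτ m]
    calc _ = Ga n Q a (1 - Complex.exp τ) * Φ τ * 1 * R m * (gA n a)⁻¹ := by
          rw [Matrix.mul_one]
          simp only [Matrix.mul_assoc]
      _ = _ := by
          rw [← gi2]
          simp only [Matrix.mul_assoc]
  · have hx1' : (1 : ℂ) - (x : ℂ) ≠ 0 := by
      have : ((1 - x : ℝ) : ℂ) ≠ 0 := by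
        rw [Ne, Complex.ofReal_eq_zero]
        linarith
      push_cast at this
      exact this
    have hxn : ‖(x : ℂ)‖ < 1 := by
      rw [Complex.norm_real, Real.norm_of_nonneg hx.le]
      exact hx1
    have hx0 : (x : ℂ) ≠ 0 := by
      rw [Ne, Complex.ofReal_eq_zero]
      exact hx.ne'
    simp only [Complex.exp_log hx1', sub_sub_cancel]
    rw [← hΦY x hx hx1]
    unfold Yf
    have h1 := Hf_shift hG hQ hQ' hG' hxn hx0
    calc Hf (Hc n Q') (x : ℂ) * E (cm (Am n)) (Complex.log x) = Hf (Hc n Q') (x : ℂ) * E (cm (Am n)) (Complex.log x) * (gA n a * (gA n a)⁻¹) := by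
          rw [gi1, Matrix.mul_one]
      _ = (Hf (Hc n Q') (x : ℂ) * gA n a) * E (cm (Am n)) (Complex.log x) * (gA n a)⁻¹ := by
          rw [Matrix.mul_assoc (Hf (Hc n Q') (x : ℂ)) (gA n a), gA_comm]
          simp only [Matrix.mul_assoc]
      _ = _ := by
          rw [h1]
          simp only [Matrix.mul_assoc]

end Q207.HM
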