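import Pool.Agent.Q207.HM.Lie
import Pool.Agent.Q207.HM.Alg

/-!
# Closed groups which contain a pseudoreflection and are normalised by a regular unipotent group
-/

set_option autoImplicit false

open Filter Topology Matrix

namespace Q207.HM

open Pool.Agent.Y123.GN (bf ro ro_mul ro_add_left ro_add_right ro_smul_left ro_smul_right)

variable {n : ℕ}

section nil

attribute [local instance] Matrix.linftyOpNormedRing Matrix.linftyOpNormedAlgebra

lemma nexp {N : Matrix (Fin n) (Fin n) ℂ} {k : ℕ} (h : N ^ k = 0) : IsNilpotent.exp N = NormedSpace.exp N := by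
  rw [IsNilpotent.exp_eq_sum h, NormedSpace.exp_eq_tsum ℚ]
  symm
  refine tsum_eq_sum fun i hi => ?_
  rw [Finset.mem_range, not_lt] at hi
  rw [pow_eq_zero_of_le hi h, smul_zero]

end nil

/-- `(A r - r A) r⁻¹` for `r = 1 + (ξ - 1) Q` -/
lemma comm_refl {A Q : Matrix (Fin n) (Fin n) ℂ} (hQ : Q * Q = Q) {ξ : ℂ} (hξ : ξ ≠ 0) :
    (A * (1 + (ξ - 1) • Q) - (1 + (ξ - 1) • Q) * A) * (1 + (ξ⁻¹ - 1) • Q) =
      (1 - ξ⁻¹) • (A * Q - Q * A * Q) - (ξ - 1) • (Q * A - Q * A * Q) := by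
  have e1 : A * (1 + (ξ - 1) • Q) - (1 + (ξ - 1) • Q) * A = (ξ - 1) • (A * Q - Q * A) := by
    rw [Matrix.mul_add, Matrix.add_mul, Matrix.mul_one, Matrix.one_mul, Matrix.mul_smul, Matrix.smul_mul]
    module
  rw [e1, Matrix.smul_mul, Matrix.mul_add, Matrix.mul_one, Matrix.mul_smul, Matrix.sub_mul, Matrix.mul_assoc A, hQ]
  have e2 : ξ * ξ⁻¹ = 1 := mul_inv_cancel₀ hξ
  have e3 : (ξ - 1) • (A * Q - Q * A + (ξ⁻¹ - 1) • (A * Q - Q * A * Q)) =
      (ξ * ξ⁻¹ - ξ⁻¹) • (A * Q) - (ξ - 1) • (Q * A) - (ξ * ξ⁻¹ - ξ⁻¹ - (ξ - 1)) • (Q * A * Q) := by module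
  rw [e3, e2]
  module

section

variable {S : Submonoid (Matrix (Fin n) (Fin n) ℂ)} (hS : IsClosed (S : Set (Matrix (Fin n) (Fin n) ℂ)))
  {A : Matrix (Fin n) (Fin n) ℂ} (hA : ∀ t : ℂ, ∀ g ∈ S, NormedSpace.exp (t • A) * g * NormedSpace.exp ((-t) • A) ∈ S)

include hA in
lemma lieN : LieN A (LS S hS) := ⟨fun _ hX _ hY => bracket_mem hS hX hY, fun _ hX => ad_mem hS hA hX⟩

include hA in
/-- the first element of the Lie algebra -/
lemma first_mem {r r' : Matrix (Fin n) (Fin n) ℂ} (hr : r ∈ S) (hr' : r' ∈ S) (hrr : r * r' = 1) :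
    (A * r - r * A) * r' ∈ LS S hS := by
  letI := Matrix.linftyOpNormedRing (n := Fin n) (α := ℂ)
  letI := Matrix.linftyOpNormedAlgebra (n := Fin n) (α := ℂ) (R := ℂ)
  have h1 : HasDerivAt (fun t : ℂ => NormedSpace.exp (t • A) * r * NormedSpace.exp ((-t) • A) * r')
      ((A * r - r * A) * r') 0 := (conj_deriv A r).mul_const r'
  refine curve_LS hS h1 ?_ fun t => S.mul_mem (hA t r hr) hr'
  simp [hrr]

variable {u φ : Fin n → ℂ} {ξ : ℂ} (h1 : φ ⬝ᵥ u = 1) (hr : 1 + (ξ - 1) • vecMulVec u φ ∈ S)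
  (hr' : 1 + (ξ⁻¹ - 1) • vecMulVec u φ ∈ S) (hξ0 : ξ ≠ 0)

include h1 in
lemma QQ : vecMulVec u φ * vecMulVec u φ = vecMulVec u φ := by
  rw [vecMulVec_mul_vecMulVec, h1, one_smul]

include h1 hξ0 in
lemma rr_one : (1 + (ξ - 1) • vecMulVec u φ) * (1 + (ξ⁻¹ - 1) • vecMulVec u φ) = 1 := by
  have hQ := QQ h1
  rw [Matrix.mul_add, Matrix.mul_one, Matrix.mul_smul, Matrix.add_mul, Matrix.one_mul, Matrix.smul_mul, hQ]
  have e2 : ξ * ξ⁻¹ = 1 := mul_inv_cancel₀ hξ0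
  have e3 : 1 + (ξ - 1) • vecMulVec u φ + (ξ⁻¹ - 1) • (vecMulVec u φ + (ξ - 1) • vecMulVec u φ) =
      1 + (ξ * ξ⁻¹ - 1) • vecMulVec u φ := by module
  rw [e3, e2]
  simp

include h1 in
lemma DM_ten : DM A u φ 1 0 = A * vecMulVec u φ - vecMulVec u φ * A * vecMulVec u φ ∧
    DM A u φ 0 1 = vecMulVec u φ * A - vecMulVec u φ * A * vecMulVec u φ := by
  have e0 : MM A u φ 0 0 = vecMulVec u φ := by
    unfold MM
    rw [pow_zero, one_mulVec, vecMul_one]
  have e1 : MM A u φ 1 0 = A * vecMulVec u φ := by rw [← e0, N_MM]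
  have e2 : MM A u φ 0 1 = vecMulVec u φ * A := by rw [← e0, MM_N]
  have e3 : vecMulVec u φ * A * vecMulVec u φ = tt A u φ 1 • vecMulVec u φ := by
    rw [← e0, MM_N, MM_mul, add_zero]
  unfold DM
  rw [e0, e1, e2, e3, add_zero, zero_add]
  exact ⟨rfl, rfl⟩

include hS hA h1 hr hr' hξ0 in
/-- **Linear case.** -/
theorem sl_sub (hn : 2 ≤ n) (hξ : ξ ^ 2 ≠ 1) (hN : A ^ n = 0) (hu : (A ^ (n - 1)) *ᵥ u ≠ 0) (hφ : φ ᵥ* (A ^ (n - 1)) ≠ 0)
    (g : Matrix (Fin n) (Fin n) ℂ) (hg : g.det = 1) : g ∈ S := by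
  have hQ := QQ h1
  have hL := lieN hS hA
  have x1 := first_mem hS hA hr hr' (rr_one h1 hξ0)
  have x2 := first_mem hS hA hr' hr (by
    have := rr_one (ξ := ξ⁻¹) h1 (inv_ne_zero hξ0)
    rwa [inv_inv] at this)
  rw [comm_refl hQ hξ0] at x1
  have c2 := comm_refl (A := A) hQ (inv_ne_zero hξ0)
  rw [inv_inv] at c2
  rw [c2] at x2
  obtain ⟨d1, d2⟩ := DM_ten (A := A) h1
  rw [← d1, ← d2] at x1 x2
  set a := DM A u φ 1 0
  set b := DM A u φ 0 1
  set L := LS S hS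
  have hξ1 : ξ ≠ 1 := by
    rintro rfl
    exact hξ (by norm_num)
  have hξm : ξ ≠ -1 := by
    rintro rfl
    exact hξ (by norm_num)
  have hi : ξ * ξ⁻¹ = 1 := mul_inv_cancel₀ hξ0
  -- elimination
  have ha : a ∈ L := by
    have y := L.sub_mem (L.smul_mem ξ x1) (L.smul_mem (-ξ ^ 2) x2)
    have e : ξ • ((1 - ξ⁻¹) • a - (ξ - 1) • b) - (-ξ ^ 2) • ((1 - ξ) • a - (ξ⁻¹ - 1) • b) =
        ((ξ - ξ * ξ⁻¹) + ξ ^ 2 * (1 - ξ)) • a + (-(ξ * (ξ - 1)) - ξ * (ξ * ξ⁻¹ - ξ)) • b := by module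
    rw [e, hi] at y
    have e2 : ((ξ - 1) + ξ ^ 2 * (1 - ξ)) • a + (-(ξ * (ξ - 1)) - ξ * (1 - ξ)) • b = (-(ξ - 1) ^ 2 * (ξ + 1)) • a := by module
    rw [e2] at y
    have hne : -(ξ - 1) ^ 2 * (ξ + 1) ≠ 0 := by
      refine mul_ne_zero (neg_ne_zero.2 (pow_ne_zero _ (sub_ne_zero.2 hξ1))) ?_
      intro h
      exact hξm (by linear_combination h)
    have z := L.smul_mem (-(ξ - 1) ^ 2 * (ξ + 1))⁻¹ y
    rwa [smul_smul, inv_mul_cancel₀ hne, one_smul] at z
  have hb : b ∈ L := by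
    have y := L.sub_mem (L.smul_mem (1 - ξ⁻¹) ha) x1
    have e : (1 - ξ⁻¹) • a - ((1 - ξ⁻¹) • a - (ξ - 1) • b) = (ξ - 1) • b := by module
    rw [e] at y
    have hne : ξ - 1 ≠ 0 := sub_ne_zero.2 hξ1
    have z := L.smul_mem (ξ - 1)⁻¹ y
    rwa [smul_smul, inv_mul_cancel₀ hne, one_smul] at z
  have hsl : ∀ X : Matrix (Fin n) (Fin n) ℂ, X.trace = 0 → X ∈ L := fun X hX => sl_le h1 hL ha hb hN hu hφ hX
  -- transvections
  have htr : ∀ (i j : Fin n) (_ : i ≠ j) (c : ℂ), (Matrix.transvection i j c : Matrix (Fin n) (Fin n) ℂ) ∈ S := by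
    intro i j hij c
    have h2 : Matrix.single i j (1 : ℂ) ∈ L := hsl _ (by rw [Matrix.trace_single_eq_of_ne _ _ _ hij])
    have h3 : (c • Matrix.single i j (1 : ℂ)) ^ 2 = 0 := by
      rw [pow_two, smul_mul_smul_comm, Matrix.single_mul_single_of_ne _ _ _ _ hij.symm _, smul_zero]
    have h4 : NormedSpace.exp (c • Matrix.single i j (1 : ℂ)) = Matrix.transvection i j c := by
      rw [← nexp h3, IsNilpotent.exp_eq_sum h3]
      simp [Finset.sum_range_succ, Matrix.transvection, Matrix.smul_single]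
    rw [← h4]
    exact h2 c
  haveI : Nontrivial (Fin n) := Fin.nontrivial_iff_two_le.2 hn
  have key := Matrix.SpecialLinearGroup.diagonal_transvection_induction' (ι := Fin n) (F := ℂ)
    (fun A => (A : Matrix (Fin n) (Fin n) ℂ) ∈ S) ⟨g, hg⟩ ?_ ?_ ?_
  · exact key
  · intro i j hij z hz
    have hji : j ≠ i := hij.symm
    have hs : ∀ (a b : Fin n) (t : ℂ), (1 + t • Matrix.single a b (1 : ℂ) : Matrix (Fin n) (Fin n) ℂ) = Matrix.transvection a b t := by
      intro a b t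
      rw [Matrix.smul_single, smul_eq_mul, mul_one]
      rfl
    have h1 := Pool.Agent.Y123.GN.diag_prod (R := Matrix (Fin n) (Fin n) ℂ) (E := Matrix.single i j 1) (F := Matrix.single j i 1)
      (P := Matrix.single i i 1) (Q := Matrix.single j j 1)
      (Matrix.single_mul_single_of_ne _ _ _ _ hji _) (Matrix.single_mul_single_of_ne _ _ _ _ hij _)
      (by rw [Matrix.single_mul_single_same, mul_one]) (by rw [Matrix.single_mul_single_same, mul_one])
      (by rw [Matrix.single_mul_single_same, mul_one]) (by rw [Matrix.single_mul_single_same, mul_one])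
      (by rw [Matrix.single_mul_single_same, mul_one]) (by rw [Matrix.single_mul_single_same, mul_one]) z hz
    have h2 : ((Matrix.SpecialLinearGroup.diag2n hij z hz : Matrix.SpecialLinearGroup (Fin n) ℂ) : Matrix (Fin n) (Fin n) ℂ) =
        1 - Matrix.single i i 1 - Matrix.single j j 1 + z • Matrix.single i i (1 : ℂ) +
          z⁻¹ • Matrix.single j j (1 : ℂ) := by
      rw [Matrix.SpecialLinearGroup.diag2n_coe]
      ext a b
      simp only [Matrix.add_apply, Matrix.sub_apply, Matrix.smul_apply, Matrix.single_apply, Matrix.one_apply,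
        Matrix.diagonal_apply, smul_eq_mul]
      by_cases hab : a = b
      · subst hab
        by_cases hai : a = i
        · subst hai
          simp [hij, hij.symm]
        · by_cases haj : a = j
          · subst haj
            simp [hij, hij.symm]
          · simp [hai, haj, Ne.symm hai, Ne.symm haj]
      · have h3 : ¬ (i = a ∧ i = b) := fun h => hab (h.1.symm.trans h.2)
        have h4 : ¬ (j = a ∧ j = b) := fun h => hab (h.1.symm.trans h.2)
        simp [hab, h3, h4]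
    show ((Matrix.SpecialLinearGroup.diag2n hij z hz : Matrix.SpecialLinearGroup (Fin n) ℂ) : Matrix (Fin n) (Fin n) ℂ) ∈ _
    rw [h2, ← h1]
    simp only [hs]
    exact mul_mem (mul_mem (mul_mem (htr _ _ hij _) (htr _ _ hji _)) (htr _ _ hij _))
      (mul_mem (mul_mem (htr _ _ hij _) (htr _ _ hji _)) (htr _ _ hij _))
  · intro i j hij a
    exact htr i j hij a
  · intro A B hA hB
    exact mul_mem hA hB

end

section ort

variable {S : Submonoid (Matrix (Fin n) (Fin n) ℂ)} (hS : IsClosed (S : Set (Matrix (Fin n) (Fin n) ℂ)))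
  {A J : Matrix (Fin n) (Fin n) ℂ} (hA : ∀ t : ℂ, ∀ g ∈ S, NormedSpace.exp (t • A) * g * NormedSpace.exp ((-t) • A) ∈ S)
  {u φ : Fin n → ℂ} (h1 : φ ⬝ᵥ u = 1) (hr : 1 - (2 : ℂ) • vecMulVec u φ ∈ S) (hJ : Jᵀ = J) (hdet : J.det ≠ 0)
  (hAJ : Aᵀ * J + J * A = 0) (hrJ : (1 - (2 : ℂ) • vecMulVec u φ)ᵀ * J * (1 - (2 : ℂ) • vecMulVec u φ) = J)

include h1 hJ hdet hrJ in
/-- an orthogonal reflection -/
lemma refl_form : bf J u u ≠ 0 ∧ u ᵥ* J = bf J u u • φ := by
  have hu0 : u ≠ 0 := by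
    rintro rfl
    rw [dotProduct_zero] at h1
    exact zero_ne_one h1
  have hJu : J *ᵥ u = u ᵥ* J := by rw [← mulVec_transpose, hJ]
  -- apply the identity to `u`
  have h2 := congrArg (fun X : Matrix (Fin n) (Fin n) ℂ => X *ᵥ u) hrJ
  have e1 : (1 - (2 : ℂ) • vecMulVec u φ) *ᵥ u = -u := by
    rw [sub_mulVec, one_mulVec, smul_mulVec, vecMulVec_mulVec, h1]
    ext i
    simp
    ring
  have e2 : (1 - (2 : ℂ) • vecMulVec u φ)ᵀ = 1 - (2 : ℂ) • vecMulVec φ u := by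
    rw [transpose_sub, transpose_one, transpose_smul, transpose_vecMulVec]
  rw [← mulVec_mulVec, e1, mulVec_neg, ← mulVec_mulVec, e2, sub_mulVec, one_mulVec, smul_mulVec, vecMulVec_mulVec] at h2
  have e3 : u ⬝ᵥ (J *ᵥ u) = bf J u u := rfl
  rw [e3] at h2
  have h3 : J *ᵥ u = bf J u u • φ := by
    funext i
    have h4 := congrFun h2 i
    simp only [Pi.neg_apply, Pi.sub_apply, Pi.smul_apply, smul_eq_mul, MulOpposite.smul_eq_mul_unop, MulOpposite.unop_op] at h4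
    rw [Pi.smul_apply, smul_eq_mul]
    linear_combination (-1 / 2 : ℂ) * h4
  have hne : bf J u u ≠ 0 := by
    intro h0
    rw [h0, zero_smul] at h3
    have h5 : J⁻¹ *ᵥ (J *ᵥ u) = u := by
      rw [mulVec_mulVec, nonsing_inv_mul _ (Ne.isUnit hdet), one_mulVec]
    rw [h3, mulVec_zero] at h5
    exact hu0 h5.symm
  exact ⟨hne, by rw [← hJu, h3]⟩

include hS hA h1 hr hJ hdet hAJ hrJ in
/-- **Orthogonal case.** -/
theorem o_sub (hn : 3 ≤ n) (hN : A ^ n = 0) (hu : (A ^ (n - 1)) *ᵥ u ≠ 0) (g : Matrix (Fin n) (Fin n) ℂ)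
    (hg : gᵀ * J * g = J) : g ∈ S := by
  obtain ⟨hB, hφ⟩ := refl_form h1 hJ hdet hrJ
  have hQ := QQ h1
  have hL := lieN hS hA
  have er : (1 : Matrix (Fin n) (Fin n) ℂ) - (2 : ℂ) • vecMulVec u φ = 1 + ((-1 : ℂ) - 1) • vecMulVec u φ := by module
  have er' : ((-1 : ℂ))⁻¹ = -1 := by norm_num
  have hr1 : 1 + ((-1 : ℂ) - 1) • vecMulVec u φ ∈ S := by rw [← er]; exact hr
  have hr2 : 1 + (((-1 : ℂ))⁻¹ - 1) • vecMulVec u φ ∈ S := by rw [er']; exact hr1
  have x1 := first_mem hS hA hr1 hr2 (rr_one h1 (by norm_num))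
  rw [comm_refl hQ (by norm_num)] at x1
  -- the form
  have hφ' : φ = (bf J u u)⁻¹ • (u ᵥ* J) := by rw [hφ, smul_smul, inv_mul_cancel₀ hB, one_smul]
  have hQr : vecMulVec u φ = (bf J u u)⁻¹ • ro J u u := by
    rw [hφ', vecMulVec_smul]
    rfl
  have hskew : bf J u (A *ᵥ u) = 0 := by
    have h2 : bf J u (A *ᵥ u) = -bf J (A *ᵥ u) u := by
      unfold bf
      rw [mulVec_mulVec]
      have h3 : J * A = -(Aᵀ * J) := eq_neg_of_add_eq_zero_right hAJ
      rw [h3, neg_mulVec, dotProduct_neg, ← mulVec_mulVec, dotProduct_mulVec, vecMul_transpose]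
    rw [Pool.Agent.Y123.GN.sym_bf hJ u (A *ᵥ u)] at h2
    have h4 : (2 : ℂ) * bf J u (A *ᵥ u) = 0 := by linear_combination h2
    exact (mul_eq_zero.1 h4).resolve_left two_ne_zero
  have f1 : vecMulVec u φ * A * vecMulVec u φ = 0 := by
    rw [hQr, Matrix.smul_mul, Matrix.smul_mul, Matrix.mul_smul, Matrix.mul_assoc, N_ro, ro_mul, hskew]
    simp
  have f2 : A * vecMulVec u φ = (bf J u u)⁻¹ • ro J (A *ᵥ u) u := by rw [hQr, Matrix.mul_smul, N_ro]
  have f3 : vecMulVec u φ * A = -((bf J u u)⁻¹ • ro J u (A *ᵥ u)) := by rw [hQr, Matrix.smul_mul, ro_N hAJ, smul_neg]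
  rw [f1, sub_zero, sub_zero, f2, f3] at x1
  have h2 : WW J u (A *ᵥ u) ∈ LS S hS := by
    have y := (LS S hS).smul_mem (-(bf J u u) / 2) x1
    have e : (-(bf J u u) / 2) • ((1 - ((-1 : ℂ))⁻¹) • (bf J u u)⁻¹ • ro J (A *ᵥ u) u -
        (-1 - 1 : ℂ) • -((bf J u u)⁻¹ • ro J u (A *ᵥ u))) =
        (bf J u u * (bf J u u)⁻¹) • WW J u (A *ᵥ u) := by
      rw [er']
      unfold WW
      module
    rw [e, mul_inv_cancel₀ hB, one_smul] at y
    exact y
  have hso := so_le hJ hAJ hB hL hN hu h2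
  have hspec : ∀ g : Matrix (Fin n) (Fin n) ℂ, gᵀ * J * g = J → g.det = 1 → g ∈ S := by
    intro g hg hd
    have h3 := Pool.Agent.Y123.GN.so_gen hn hJ hdet hg hd
    refine Submonoid.closure_le (S := S) |>.2 ?_ h3
    rintro x ⟨N, ⟨y, a, t, hyy, hya, haa, rfl⟩, rfl⟩
    have h4 : (t • (ro J y a - ro J a y)) ^ 3 = 0 := by
      rw [pow_succ, pow_two, smul_mul_smul_comm, smul_mul_smul_comm, Pool.Agent.Y123.GN.ss_cube hJ hyy hya haa, smul_zero]
    rw [nexp h4]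
    exact hso y a t
  have hdd := Pool.Agent.Y123.GN.iso_det_sq hdet hg
  rcases mul_self_eq_one_iff.1 hdd with h3 | h3
  · exact hspec g hg h3
  · set r : Matrix (Fin n) (Fin n) ℂ := 1 - (2 : ℂ) • vecMulVec u φ with hrd
    have hrr : r * r = 1 := by
      have := rr_one (ξ := -1) h1 (by norm_num)
      rw [er', ← er] at this
      exact this
    have hrd2 : r.det = -1 := by
      have h4 : r = Pool.Agent.Y123.GN.rf J u := by
        rw [hrd, hQr]
        unfold Pool.Agent.Y123.GN.rf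
        rw [smul_smul, div_eq_mul_inv]
      rw [h4]
      exact Pool.Agent.Y123.GN.rf_det hB
    have h5 : g = r * (r * g) := by rw [← Matrix.mul_assoc, hrr, Matrix.one_mul]
    rw [h5]
    refine S.mul_mem hr (hspec _ ?_ ?_)
    · rw [transpose_mul]
      calc gᵀ * rᵀ * J * (r * g) = gᵀ * (rᵀ * J * r) * g := by simp only [Matrix.mul_assoc]
        _ = J := by rw [hrJ, hg]
    · rw [det_mul, hrd2, h3]
      norm_num

end ort

end Q207.HM
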