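import Pool.Agent.Q207.HM.Cls
import Pool.Agent.Q96.LV.Chart
import Pool.Agent.Q280.LV.Nr
import Pool.Agent.Q280.LV.Comp
import Pool.Agent.Q95.LV.Expm
import Pool.Agent.Q95.LV.Mom

/-!
# Hypergeometric blocks with different classes of exponents can be separated
-/

set_option autoImplicit false

open Matrix

namespace Q207.HM

open Pool.Agent.Y119.HY (Am Jm cm cm_mul cm_add cm_transpose cm_zero Ac_nil Hc Yf Gal QD QB Sol)
open Pool.Agent.Y119.HZ (Hp)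

variable {m n : ℕ}

/-- a block with the exponents `α` -/
structure ExB (h : HB n) (α : Fin n → ℚ) : Prop where
  ok : HBok h
  q : h.Q = QA α
  ni : ∀ i, ∀ a : ℤ, α i ≠ a
  s : h.k = Ki.s → ∃ r : ℝ, 0 < r ∧ (mono α).eval 1 = (r : ℂ)

lemma ExB.sdc {h : HB n} {α : Fin n → ℚ} (hh : ExB h α) (a b : Fin n) : Pool.Agent.Y113.SDc (Hp n h.Q a b) := by
  rw [hh.q]
  exact sdc_hpsG (fun i l h0 => hh.ni i l h0.symm) (by rw [← hh.q]; exact hh.ok.g) a b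

/-- **Separation by the classes of the exponents.** -/
theorem ExB.neq {h : HB m} {h' : HB n} {b : Blk m} {c : Blk n} {α : Fin m → ℚ} {α' : Fin n → ℚ} (hh : ExB h α) (hh' : ExB h' α')
    (hb : BlkOf h b) (hc : BlkOf h' c) (h1 : cls α ≠ cls α') (h2 : cls α ≠ cls fun i => -α' i) : Neq b c := by
  by_cases hmn : m = n
  · subst hmn
    refine neq_mono Pool.Agent.Q96.LV.chart Q280.LV.nr Q280.LV.res Pool.Agent.Q95.LV.expm Q280.LV.comp Pool.Agent.Q95.LV.mom hb hc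
      hh.q hh'.q hh.ni hh'.ni (fun h3 h4 => ?_) (fun h3 => h1 (mono_cls h3)) (fun _ h3 => h2 (mono_cls h3))
    obtain ⟨r, hr, e1⟩ := hh.s h3
    obtain ⟨r', hr', e2⟩ := hh'.s h4
    rw [e1, e2, ← Complex.ofReal_add, Ne, Complex.ofReal_eq_zero]
    exact (add_pos hr hr').ne'
  · exact neq_of hb hc fun _ h3 => absurd h3 hmn

/-- exponents whose sum is not half an integer -/
theorem exb_l (hn : 2 ≤ n) {α : Fin n → ℚ} (hα : ∀ i, ∀ a : ℤ, α i ≠ a) (h2 : ∀ a : ℤ, 2 * ∑ j, α j ≠ a) :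
    ∃ h : HB n, ExB h α := by
  refine ⟨⟨QA α, 1, Ki.l⟩, ⟨?_, fun _ a h0 => h2 a ?_, fun h' => Ki.noConfusion h', fun h' => Ki.noConfusion h'⟩, rfl, hα,
    fun h' => Ki.noConfusion h'⟩
  · exact QG_QA hn fun i l h0 => hα i l h0.symm
  · have h0' : (2 : ℂ) * (((QA α).coeff (n - 1) : ℚ) : ℂ) = a := h0
    rw [QA_coeff (by omega) α] at h0'
    exact_mod_cast h0'

/-- symmetric exponents -/
theorem exb_sym (hn : 2 ≤ n) {α : Fin n → ℚ} (hα : ∀ i, ∀ a : ℤ, α i ≠ a) (hs : cls α = cls fun i => -α i) :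
    ∃ (h : HB n) (α' : Fin n → ℚ), ExB h α' ∧ cls α' = cls α ∧ h.k ≠ Ki.l := by
  obtain ⟨m, β, hβ, h1⟩ := sym_cls hα hs
  have hβ' : ∀ j, NI (β j) := fun j l h0 => hβ j l h0.symm
  rcases h1 with ⟨rfl, h2⟩ | ⟨rfl, h2⟩
  · have hQ := Pool.Agent.Y119.HZ.QD_QB (by omega : 1 ≤ m) (NI_two hβ')
    refine ⟨⟨QA (ab β), 1, Ki.s⟩, ab β, ⟨⟨?_, fun h' => Ki.noConfusion h', fun h' => Ki.noConfusion h', fun _ => ?_⟩, rfl, ?_, fun _ => ?_⟩,
      h2, fun h' => Ki.noConfusion h'⟩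
    · show QG (2 * m) (QA (ab β))
      rw [QA_ab]
      exact QD_g hQ
    · show QD (2 * m) (QA (ab β))
      rw [QA_ab]
      exact hQ
    · intro i a h0
      exact NI_ab hβ' i a h0.symm
    · exact mono_ab β hβ
  · have hQ := QO_ao (by omega : 1 ≤ m) hβ'
    refine ⟨⟨QA (ao β), QB β, Ki.o⟩, ao β, ⟨⟨hQ.g, fun h' => Ki.noConfusion h', fun _ => hQ, fun h' => Ki.noConfusion h'⟩, rfl, ?_,
      fun h' => Ki.noConfusion h'⟩, h2, fun h' => Ki.noConfusion h'⟩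
    intro i a h0
    exact NI_ao hβ' i a h0.symm

end Q207.HM
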