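import Pool.Agent.Q207.HM.Lnk

/-!
# Polynomial form of the links between blocks
-/

set_option autoImplicit false

open Matrix

namespace Q207.HM

open Pool.Agent.Y119.HY (Am Jm Bm cm cm_apply cm_mul cm_add cm_zero cm_one cm_transpose Hc Ac_nil Hf Yf E E_isom E_mul_neg)
open Pool.Agent.Y119.HZ (evq)

variable {m n : ℕ}

/-- the coordinates of the block -/
abbrev Wv (m : ℕ) : Type := Option (Fin m × Fin m)

/-- the point -/
def px (x : ℂ) (X : Matrix (Fin m) (Fin m) ℂ) (o : Wv m) : ℂ := o.elim x fun p => X p.1 p.2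

/-- the generic matrix -/
noncomputable def XX (m : ℕ) : Matrix (Fin m) (Fin m) (MvPolynomial (Wv m) ℂ) := Matrix.of fun i j => MvPolynomial.X (some (i, j))

lemma XX_map (x : ℂ) (X : Matrix (Fin m) (Fin m) ℂ) : (XX m).map (MvPolynomial.eval (px x X)) = X := by
  ext i j
  unfold XX
  rw [Matrix.map_apply, Matrix.of_apply, MvPolynomial.eval_X]
  rfl

/-- polynomials in the first coordinate -/
noncomputable def zq (m : ℕ) : Polynomial ℚ →+* MvPolynomial (Wv m) ℂ :=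
  (Polynomial.aeval (MvPolynomial.X none : MvPolynomial (Wv m) ℂ) : Polynomial ℚ →ₐ[ℚ] MvPolynomial (Wv m) ℂ).toRingHom

lemma zq_eval (x : ℂ) (X : Matrix (Fin m) (Fin m) ℂ) (q : Polynomial ℚ) : MvPolynomial.eval (px x X) (zq m q) = evq x q := by
  unfold zq evq
  show (MvPolynomial.eval (px x X)) (Polynomial.aeval (MvPolynomial.X none : MvPolynomial (Wv m) ℂ) q) = Polynomial.aeval x q
  induction q using Polynomial.induction_on' with
  | add p q hp hq => rw [map_add, map_add, map_add, hp, hq]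
  | monomial k a =>
    rw [Polynomial.aeval_monomial, Polynomial.aeval_monomial, map_mul, map_pow, MvPolynomial.eval_X]
    congr 1
    have h1 : (algebraMap ℚ (MvPolynomial (Wv m) ℂ)) a = MvPolynomial.C ((algebraMap ℚ ℂ) a) := rfl
    rw [h1, MvPolynomial.eval_C]

lemma zq_map (x : ℂ) (X : Matrix (Fin m) (Fin m) ℂ) (N : Matrix (Fin m) (Fin m) (Polynomial ℚ)) :
    (N.map (zq m)).map (MvPolynomial.eval (px x X)) = N.map (evq x) := by
  ext i j
  rw [Matrix.map_apply, Matrix.map_apply, Matrix.map_apply, zq_eval]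

lemma C_map (x : ℂ) (X : Matrix (Fin m) (Fin m) ℂ) (κ : Matrix (Fin m) (Fin m) ℂ) :
    (κ.map (MvPolynomial.C (σ := Wv m))).map (MvPolynomial.eval (px x X)) = κ := by
  ext i j
  rw [Matrix.map_apply, Matrix.map_apply, MvPolynomial.eval_C]

/-- linear links -/
lemma pol_E {K : ℝ → Matrix (Fin m) (Fin m) ℂ} (hK : IsR K) (κ : Matrix (Fin m) (Fin m) ℂ) :
    ∃ (M : Matrix (Fin m) (Fin m) (MvPolynomial (Wv m) ℂ)) (D : MvPolynomial (Wv m) ℂ), ∀ x : ℝ, 0 < x → x < 1 →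
      ∀ X Z : Matrix (Fin m) (Fin m) ℂ, Z = K x * X * κ →
        MvPolynomial.eval (px (x : ℂ) X) D ≠ 0 ∧ M.map (MvPolynomial.eval (px (x : ℂ) X)) = MvPolynomial.eval (px (x : ℂ) X) D • Z := by
  obtain ⟨N, d, hN⟩ := hK
  refine ⟨N.map (zq m) * XX m * κ.map MvPolynomial.C, zq m d, fun x hx hx1 X Z hZ => ?_⟩
  obtain ⟨h1, h2⟩ := hN x hx hx1
  rw [zq_eval]
  refine ⟨h1, ?_⟩
  rw [Matrix.map_mul, Matrix.map_mul, zq_map, XX_map, C_map, ← h2, hZ, Matrix.smul_mul, Matrix.smul_mul]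

/-- dual links -/
lemma pol_D {K : ℝ → Matrix (Fin m) (Fin m) ℂ} (hK : IsR K) (κ : Matrix (Fin m) (Fin m) ℂ) :
    ∃ (M : Matrix (Fin m) (Fin m) (MvPolynomial (Wv m) ℂ)) (D : MvPolynomial (Wv m) ℂ), ∀ x : ℝ, 0 < x → x < 1 →
      ∀ X Z : Matrix (Fin m) (Fin m) ℂ, X.det ≠ 0 → Z = K x * (X⁻¹)ᵀ * κ →
        MvPolynomial.eval (px (x : ℂ) X) D ≠ 0 ∧ M.map (MvPolynomial.eval (px (x : ℂ) X)) = MvPolynomial.eval (px (x : ℂ) X) D • Z := by
  obtain ⟨N, d, hN⟩ := hK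
  refine ⟨N.map (zq m) * ((XX m).adjugate)ᵀ * κ.map MvPolynomial.C, zq m d * (XX m).det, fun x hx hx1 X Z hX hZ => ?_⟩
  obtain ⟨h1, h2⟩ := hN x hx hx1
  have e1 : MvPolynomial.eval (px (x : ℂ) X) (XX m).det = X.det := by
    have : MvPolynomial.eval (px (x : ℂ) X) (XX m).det = ((XX m).map (MvPolynomial.eval (px (x : ℂ) X))).det := RingHom.map_det _ _
    rw [this, XX_map]
  have e2 : ((XX m).adjugate).map (MvPolynomial.eval (px (x : ℂ) X)) = X.adjugate := by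
    have : ((XX m).adjugate).map (MvPolynomial.eval (px (x : ℂ) X)) = ((XX m).map (MvPolynomial.eval (px (x : ℂ) X))).adjugate :=
      RingHom.map_adjugate _ _
    rw [this, XX_map]
  rw [map_mul, zq_eval, e1]
  refine ⟨mul_ne_zero h1 hX, ?_⟩
  have e3 : X.adjugate = X.det • X⁻¹ := by
    rw [Matrix.inv_def, smul_smul, Ring.inverse_eq_inv', mul_inv_cancel₀ hX, one_smul]
  rw [Matrix.map_mul, Matrix.map_mul, zq_map, C_map, Matrix.transpose_map, e2, e3, hZ, ← h2, Matrix.transpose_smul, Matrix.smul_mul,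
    Matrix.smul_mul, Matrix.mul_smul, Matrix.smul_mul, smul_smul]

section

variable {α : Fin m → ℚ} {α' : Fin n → ℚ} {h : HB m} {G : ℝ → Matrix (Fin m) (Fin m) ℂ} {c : Matrix (Fin m) (Fin m) ℚ}

lemma E_cm_comm {c : Matrix (Fin m) (Fin m) ℚ} (hc : c * Am m = Am m * c) (s : ℂ) : cm c * E (cm (Am m)) s = E (cm (Am m)) s * cm c := by
  have h1 : Commute (cm c) (cm (Am m)) := by
    show cm c * cm (Am m) = cm (Am m) * cm c
    rw [← cm_mul, ← cm_mul, hc]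
  unfold E
  rw [Finset.mul_sum, Finset.sum_mul]
  refine Finset.sum_congr rfl fun l _ => ?_
  rw [Matrix.mul_smul, Matrix.smul_mul, (h1.pow_right l).eq]

/-- **The link with the exact block.** -/
theorem link_of (hg : Gau α h G c) (hQ : QG m h.Q) (hα : ∀ i, ∀ a : ℤ, α i ≠ a) (hα' : ∀ i, ∀ a : ℤ, α' i ≠ a)
    (hcl : cls α = cls α' ∨ cls α = cls fun i => -α' i) :
    ∃ (M : Matrix (Fin n) (Fin n) (MvPolynomial (Wv m) ℂ)) (D : MvPolynomial (Wv m) ℂ),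
      (∀ x : ℝ, 0 < x → x < 1 → MvPolynomial.eval (px (x : ℂ) (Yx m h.Q x)) D ≠ 0 ∧
        M.map (MvPolynomial.eval (px (x : ℂ) (Yx m h.Q x))) = MvPolynomial.eval (px (x : ℂ) (Yx m h.Q x)) D • Yx n (QA α') x) ∧
      ∀ t : ℕ, 2 ≤ t → ∀ (g : Matrix (Fin m) (Fin m) ℂ) (g' : Matrix (Fin n) (Fin n) ℂ), Lin (QA α) (QA α') t g g' →
        Bil (QA α) (QA α') t g g' → g.det ≠ 0 → ∀ s : ℂ,
        MvPolynomial.eval (px (((1 / (t : ℝ) : ℝ)) : ℂ) (dg' G c t g * E (cm (Am m)) s)) D ≠ 0 ∧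
        M.map (MvPolynomial.eval (px (((1 / (t : ℝ) : ℝ)) : ℂ) (dg' G c t g * E (cm (Am m)) s))) =
          MvPolynomial.eval (px (((1 / (t : ℝ) : ℝ)) : ℂ) (dg' G c t g * E (cm (Am m)) s)) D • (g' * E (cm (Am n)) s) := by
  have hmn : m = n := by
    rcases hcl with h1 | h1
    · exact cls_size h1
    · exact cls_size h1
  subst hmn
  have hn := hQ.two
  have hcc := cm_inv hg.cdet
  have hY : ∀ x : ℝ, 0 < x → x < 1 → Yx m (QA α) x = G x * Yx m h.Q x * cm c⁻¹ := by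
    intro x hx hx1
    calc Yx m (QA α) x = Yx m (QA α) x * (cm c * cm c⁻¹) := by rw [hcc.1, Matrix.mul_one]
      _ = _ := by rw [← Matrix.mul_assoc, hg.eq x hx hx1]
  rcases hcl with h1 | h1
  · obtain ⟨G', c', r1, r2, r3, r4, r5⟩ := LE.of_cls hn hα hα' h1
    have hcc' := cm_inv r3
    obtain ⟨M, D, hMD⟩ := pol_E (r1.mul hg.r) (cm (c⁻¹ * c'⁻¹))
    refine ⟨M, D, fun x hx hx1 => hMD x hx hx1 _ _ ?_, fun t ht g g' hl hb hd s => hMD _ (tpos ht).1 (tpos ht).2 _ _ ?_⟩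
    · calc Yx m (QA α') x = Yx m (QA α') x * (cm c' * cm c'⁻¹) := by rw [hcc'.1, Matrix.mul_one]
        _ = G' x * Yx m (QA α) x * cm c'⁻¹ := by rw [← Matrix.mul_assoc, r5 x hx hx1]
        _ = _ := by
          rw [hY x hx hx1, cm_mul]
          simp only [Matrix.mul_assoc]
    · have h2 := hl.use ht r1 r5
      have h3 : g' = G' (1 / (t : ℝ)) * g * cm c'⁻¹ := by
        calc g' = g' * (cm c' * cm c'⁻¹) := by rw [hcc'.1, Matrix.mul_one]
          _ = _ := by rw [← Matrix.mul_assoc, h2]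
      have h4 := dg_eq hg ht g
      have hE : cm (c⁻¹ * c'⁻¹) * E (cm (Am m)) s = E (cm (Am m)) s * cm (c⁻¹ * c'⁻¹) := by
        refine E_cm_comm ?_ s
        rw [Matrix.mul_assoc, comm_inv r3 r4, ← Matrix.mul_assoc, comm_inv hg.cdet hg.comm, Matrix.mul_assoc]
      calc g' * E (cm (Am m)) s = G' (1 / (t : ℝ)) * (G (1 / (t : ℝ)) * dg' G c t g * cm c⁻¹) * cm c'⁻¹ * E (cm (Am m)) s := by
            rw [← h4, ← h3]
        _ = G' (1 / (t : ℝ)) * G (1 / (t : ℝ)) * dg' G c t g * (cm (c⁻¹ * c'⁻¹) * E (cm (Am m)) s) := by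
            rw [cm_mul]
            simp only [Matrix.mul_assoc]
        _ = _ := by
            rw [hE]
            simp only [Matrix.mul_assoc]
  · obtain ⟨S, c', r1, r2, r3, r4, r5⟩ := LD.of_cls hn hα hα' h1
    obtain ⟨M, D, hMD⟩ := pol_D ((r1.inv r2).mul (hg.r.inv hg.det).tr) ((cm c)ᵀ * cm c')
    have hsk : (cm (Am m))ᵀ * ((cm c)ᵀ * cm c') + ((cm c)ᵀ * cm c') * cm (Am m) = 0 := by
      have e1 : (cm (Am m))ᵀ * (cm c)ᵀ = (cm c)ᵀ * (cm (Am m))ᵀ := by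
        rw [← Matrix.transpose_mul, ← Matrix.transpose_mul, ← cm_mul, ← cm_mul, hg.comm]
      have e2 : (cm (Am m))ᵀ * cm c' + cm c' * cm (Am m) = 0 := by
        rw [← cm_transpose, ← cm_mul, ← cm_mul, ← cm_add, r4, cm_zero]
      calc (cm (Am m))ᵀ * ((cm c)ᵀ * cm c') + ((cm c)ᵀ * cm c') * cm (Am m) =
            ((cm (Am m))ᵀ * (cm c)ᵀ) * cm c' + (cm c)ᵀ * (cm c' * cm (Am m)) := by simp only [Matrix.mul_assoc]
        _ = (cm c)ᵀ * ((cm (Am m))ᵀ * cm c' + cm c' * cm (Am m)) := by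
            rw [e1, Matrix.mul_add]
            simp only [Matrix.mul_assoc]
        _ = 0 := by rw [e2, Matrix.mul_zero]
    -- solving a bilinear equation
    have solve : ∀ (A B C X Z T : Matrix (Fin m) (Fin m) ℂ), A.det ≠ 0 → B.det ≠ 0 → X.det ≠ 0 → (A * X * cm c⁻¹)ᵀ * B * Z = C →
        Z = B⁻¹ * (A⁻¹)ᵀ * (X⁻¹)ᵀ * ((cm c)ᵀ * C) := by
      intro A B C X Z T hA hB hX he
      have uA : IsUnit A.det := Ne.isUnit hA
      have uB : IsUnit B.det := Ne.isUnit hB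
      have uX : IsUnit X.det := Ne.isUnit hX
      have e3 : (cm c)ᵀ * (cm c⁻¹)ᵀ = 1 := by rw [← Matrix.transpose_mul, hcc.2, Matrix.transpose_one]
      have e4 : (X⁻¹)ᵀ * Xᵀ = 1 := by rw [← Matrix.transpose_mul, Matrix.mul_nonsing_inv _ uX, Matrix.transpose_one]
      have e5 : (A⁻¹)ᵀ * Aᵀ = 1 := by rw [← Matrix.transpose_mul, Matrix.mul_nonsing_inv _ uA, Matrix.transpose_one]
      rw [← he, Matrix.transpose_mul, Matrix.transpose_mul]
      calc Z = (B⁻¹ * B) * Z := by rw [Matrix.nonsing_inv_mul _ uB, Matrix.one_mul]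
        _ = B⁻¹ * ((A⁻¹)ᵀ * Aᵀ) * (B * Z) := by rw [e5, Matrix.mul_one, Matrix.mul_assoc]
        _ = B⁻¹ * (A⁻¹)ᵀ * ((X⁻¹)ᵀ * Xᵀ) * (Aᵀ * (B * Z)) := by
            rw [e4, Matrix.mul_one]
            simp only [Matrix.mul_assoc]
        _ = B⁻¹ * (A⁻¹)ᵀ * (X⁻¹)ᵀ * (((cm c)ᵀ * (cm c⁻¹)ᵀ) * (Xᵀ * (Aᵀ * (B * Z)))) := by
            rw [e3, Matrix.one_mul]
            simp only [Matrix.mul_assoc]
        _ = _ := by simp only [Matrix.mul_assoc]
    refine ⟨M, D, fun x hx hx1 => hMD x hx hx1 _ _ (det_Yx_ne hQ hx hx1) ?_,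
      fun t ht g g' hl hb hd s => hMD _ (tpos ht).1 (tpos ht).2 _ _ ?_ ?_⟩
    · have h2 := r5 x hx hx1
      rw [hY x hx hx1] at h2
      exact solve _ _ _ _ _ 1 (hg.det x hx hx1) (r2 x hx hx1) (det_Yx_ne hQ hx hx1) h2
    · rw [Matrix.det_mul, det_E Ac_nil, mul_one]
      unfold dg'
      rw [Matrix.det_mul, Matrix.det_mul]
      exact mul_ne_zero (mul_ne_zero (det_inv_ne (hg.det _ (tpos ht).1 (tpos ht).2)) hd) (cm_det_ne hg.cdet)
    · obtain ⟨h1t, h2t⟩ := tpos ht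
      have h2 := hb.use ht r1 r5
      have h4 := dg_eq hg ht g
      have hdd : (dg' G c t g).det ≠ 0 := by
        unfold dg'
        rw [Matrix.det_mul, Matrix.det_mul]
        exact mul_ne_zero (mul_ne_zero (det_inv_ne (hg.det _ h1t h2t)) hd) (cm_det_ne hg.cdet)
      rw [h4] at h2
      have h5 := solve _ _ _ _ g' 1 (hg.det _ h1t h2t) (r2 _ h1t h2t) hdd h2
      have e6 : (dg' G c t g * E (cm (Am m)) s)⁻¹ = E (cm (Am m)) (-s) * (dg' G c t g)⁻¹ := by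
        have e7 : (E (cm (Am m)) s)⁻¹ = E (cm (Am m)) (-s) := Matrix.inv_eq_right_inv (E_mul_neg Ac_nil s)
        rw [Matrix.mul_inv_rev, e7]
      have e8 : (E (cm (Am m)) (-s))ᵀ * ((cm c)ᵀ * cm c') = ((cm c)ᵀ * cm c') * E (cm (Am m)) s := by
        have e9 := E_isom Ac_nil hsk (-s)
        have e10 : E (cm (Am m)) (-s) * E (cm (Am m)) s = 1 := by
          have := E_mul_neg (n := m) Ac_nil (-s)
          rwa [neg_neg] at this
        calc (E (cm (Am m)) (-s))ᵀ * ((cm c)ᵀ * cm c') =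
              ((E (cm (Am m)) (-s))ᵀ * ((cm c)ᵀ * cm c') * E (cm (Am m)) (-s)) * E (cm (Am m)) s := by
                rw [Matrix.mul_assoc _ _ (E (cm (Am m)) s), e10, Matrix.mul_one]
          _ = _ := by rw [e9]
      rw [e6, Matrix.transpose_mul, Matrix.mul_assoc _ _ ((cm c)ᵀ * cm c'), Matrix.mul_assoc ((dg' G c t g)⁻¹)ᵀ, e8]
      conv_lhs => rw [h5]
      simp only [Matrix.mul_assoc]

end

end Q207.HM
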