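import Pool.Agent.Q207.HM.Twe
import Pool.Agent.Q207.HM.Lnp

/-!
# Families with repeated and dual members
-/

set_option autoImplicit false

open PowerSeries Pool.Agent.Y113

namespace Q207.HM

open Pool.Agent.Y119.HY (Am Am_nil Jm cm cm_apply Ac_nil Hc Hq Hq_zero E Ep Ep_eval E_neg Hf Yf Gal Rel Sol Bm E_mul_neg E_add conj_E Vr)
open Pool.Agent.Y119.HZ (cf Hp cf_Hp ix hf evq Yt)

/-- substitution of fractions -/
theorem sbs {σ τ : Type*} [Fintype σ] {A : Type*} [CommRing A] (R : MvPolynomial σ A) (M D : σ → MvPolynomial τ ℂ)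
    (φ : A →+* MvPolynomial τ ℂ) : ∃ P : MvPolynomial τ ℂ, ∀ (θ : MvPolynomial τ ℂ →+* ℂ) (z : σ → ℂ),
      (∀ v, θ (D v) ≠ 0 ∧ θ (M v) = θ (D v) * z v) → (θ P = 0 ↔ MvPolynomial.eval₂ (θ.comp φ) z R = 0) := by
  classical
  set N := R.totalDegree with hN
  refine ⟨∑ s ∈ R.support, φ (R.coeff s) * ∏ v, (M v ^ (s v) * D v ^ (N - s v)), fun θ z h => ?_⟩
  have h1 : θ (∑ s ∈ R.support, φ (R.coeff s) * ∏ v, (M v ^ (s v) * D v ^ (N - s v))) =
      (∏ v, θ (D v) ^ N) * MvPolynomial.eval₂ (θ.comp φ) z R := by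
    rw [MvPolynomial.eval₂_eq', map_sum, Finset.mul_sum]
    refine Finset.sum_congr rfl fun s hs => ?_
    rw [map_mul, map_prod, RingHom.comp_apply, mul_left_comm]
    congr 1
    rw [← Finset.prod_mul_distrib]
    refine Finset.prod_congr rfl fun v _ => ?_
    have h2 : s v ≤ N := by
      refine le_trans ?_ (MvPolynomial.le_totalDegree hs)
      rw [Finsupp.sum_fintype _ _ fun _ => rfl]
      exact Finset.single_le_sum (f := fun v => s v) (fun _ _ => Nat.zero_le _) (Finset.mem_univ v)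
    rw [map_mul, map_pow, map_pow, (h v).2, mul_pow]
    have h3 : θ (D v) ^ N = θ (D v) ^ (s v) * θ (D v) ^ (N - s v) := by rw [← pow_add, Nat.add_sub_cancel' h2]
    rw [h3]
    ring
  rw [h1]
  constructor
  · intro h2
    rcases mul_eq_zero.1 h2 with h3 | h3
    · exact absurd h3 (Finset.prod_ne_zero_iff.2 fun v _ => pow_ne_zero _ (h v).1)
    · exact h3
  · intro h2
    rw [h2, mul_zero]

variable {r : ℕ} {n : Fin r → ℕ}

/-- the blocks of the full family -/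
noncomputable def hF (α : ∀ j, Fin (n j) → ℚ) (j : Fin r) : HB (n j) := ⟨QA (α j), 1, Ki.l⟩

/-- the algebraic sets of the full family -/
def TF (α : ∀ j, Fin (n j) → ℚ) (t : ℕ) : Set (Matrix (Fin (sz n)) (Fin (sz n)) ℂ) :=
  {X | ∃ g : Bl n ℂ, X = BD g ∧ (∀ j j', Lin (QA (α j)) (QA (α j')) t (g j) (g j')) ∧ (∀ j j', Bil (QA (α j)) (QA (α j')) t (g j) (g j')) ∧
    ∃ L : ℂ, Complex.exp L = 1 - 1 / (t : ℂ) ∧ ∀ j, (g j).det = Complex.exp (-((∑ i, α j i : ℚ) : ℂ) * L)}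

/-- **The relations hold on the algebraic sets.** -/
theorem TF_ok {r' : ℕ} (e : Fin r' → Fin r) (q : Fin r → Fin r') {α : ∀ j, Fin (n j) → ℚ} (hα : ∀ j i, ∀ a : ℤ, α j i ≠ a)
    (hn : ∀ j, 2 ≤ n j) {h' : ∀ a, HB (n (e a))} {α' : ∀ a, Fin (n (e a)) → ℚ} (hx : ∀ a, ExB (h' a) (α' a))
    (hcl : ∀ a, cls (α' a) = cls (α (e a))) {G : ∀ a, ℝ → Matrix (Fin (n (e a))) (Fin (n (e a))) ℂ}
    {c : ∀ a, Matrix (Fin (n (e a))) (Fin (n (e a))) ℚ} (hg : ∀ a, Gau (α (e a)) (h' a) (G a) (c a)) {b : ∀ a, Blk (n (e a))}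
    (hb : ∀ a, BlkOf (h' a) (b a)) (hne : ∀ a a', a ≠ a' → Neq (b a) (b a'))
    (hlk : ∀ j, cls (α (e (q j))) = cls (α j) ∨ cls (α (e (q j))) = cls fun i => -α j i) :
    TorW (jsys (hF α)) (TF α) := by
  classical
  rintro t ht _ ⟨g, rfl, hLin, hBil, L, hL, hdet⟩ l R hR
  obtain ⟨ht0, ht1⟩ := tpos ht
  choose M D hMD1 hMD2 using fun j => link_of (α' := α j) (hg (q j)) (hx (q j)).ok.g (hα (e (q j))) (hα j) (hlk j)
  set n' : Fin r' → ℕ := fun a => n (e a) with hn'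
  -- the coordinates of the representatives
  set ρ : ∀ j, MvPolynomial (Wv (n (e (q j)))) ℂ →+* MvPolynomial (Vr (sz n')) ℂ := fun j =>
    (MvPolynomial.rename (R := ℂ) fun o : Wv (n (e (q j))) => (o.elim none fun p =>
      some (some (finSigmaFinEquiv (⟨q j, p.1⟩ : Σ a : Fin r', Fin (n' a)), finSigmaFinEquiv (⟨q j, p.2⟩ : Σ a : Fin r', Fin (n' a)))) :
        Vr (sz n'))).toRingHom with hρ
  have hρe : ∀ j (z ℓ : ℂ) (X : Bl n' ℂ) (P : MvPolynomial (Wv (n (e (q j)))) ℂ),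
      MvPolynomial.eval (Pool.Agent.Y119.HY.pt z ℓ (BD X)) (ρ j P) = MvPolynomial.eval (px z (X (q j))) P := by
    intro j z ℓ X P
    rw [hρ]
    simp only [AlgHom.toRingHom_eq_coe, RingHom.coe_coe]
    rw [MvPolynomial.eval_rename]
    congr 2
    funext o
    rcases o with _ | p
    · rfl
    · exact BD_eq X (q j) p.1 p.2
  set lam : Polynomial ℂ →+* MvPolynomial (Vr (sz n')) ℂ :=
    (Polynomial.aeval (MvPolynomial.X (some none) : MvPolynomial (Vr (sz n')) ℂ) : Polynomial ℂ →ₐ[ℂ] _).toRingHom with hlam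
  have hlame : ∀ (z ℓ : ℂ) (X : Bl n' ℂ) (p : Polynomial ℂ),
      MvPolynomial.eval (Pool.Agent.Y119.HY.pt z ℓ (BD X)) (lam p) = p.eval ℓ := by
    intro z ℓ X p
    rw [hlam]
    simp only [AlgHom.toRingHom_eq_coe, RingHom.coe_coe]
    induction p using Polynomial.induction_on' with
    | add p q hp hq => rw [map_add, map_add, Polynomial.eval_add, hp, hq]
    | monomial k a =>
      rw [Polynomial.aeval_monomial, Polynomial.eval_monomial, map_mul, map_pow, MvPolynomial.eval_X]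
      congr 1
      exact MvPolynomial.eval_C a
  set φ : Polynomial ℚ →+* MvPolynomial (Vr (sz n')) ℂ :=
    (Polynomial.aeval (MvPolynomial.X none : MvPolynomial (Vr (sz n')) ℂ) : Polynomial ℚ →ₐ[ℚ] _).toRingHom with hφ
  have hφe : ∀ (z ℓ : ℂ) (X : Bl n' ℂ), (MvPolynomial.eval (Pool.Agent.Y119.HY.pt z ℓ (BD X))).comp φ = evq z := by
    intro z ℓ X
    refine RingHom.ext fun p => ?_
    rw [RingHom.comp_apply, hφ]
    unfold evq
    simp only [AlgHom.toRingHom_eq_coe, RingHom.coe_coe]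
    induction p using Polynomial.induction_on' with
    | add p q hp hq => rw [map_add, map_add, map_add, hp, hq]
    | monomial k a =>
      rw [Polynomial.aeval_monomial, Polynomial.aeval_monomial, map_mul, map_pow, MvPolynomial.eval_X]
      congr 1
      have h1 : (algebraMap ℚ (MvPolynomial (Vr (sz n')) ℂ)) a = MvPolynomial.C ((algebraMap ℚ ℂ) a) := rfl
      rw [h1, MvPolynomial.eval_C]
  -- numerators and denominators
  set NM : Bl n (MvPolynomial (Vr (sz n')) ℂ) := fun j => (M j).map (ρ j) * (Ep (-cm (Am (n j)))).map lam with hNM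
  obtain ⟨P, hP⟩ := sbs R (fun v => BD NM (ix (sz n) v).1 (ix (sz n) v).2)
    (fun v => ρ (finSigmaFinEquiv.symm (ix (sz n) v).1).1 (D (finSigmaFinEquiv.symm (ix (sz n) v).1).1)) φ
  have hPe : ∀ (x ℓ : ℂ) (X : Bl n' ℂ) (Z : Bl n ℂ),
      (∀ j, MvPolynomial.eval (px x (X (q j))) (D j) ≠ 0 ∧
        (M j).map (MvPolynomial.eval (px x (X (q j)))) = MvPolynomial.eval (px x (X (q j))) (D j) • Z j) →
      (MvPolynomial.eval (Pool.Agent.Y119.HY.pt x ℓ (BD X)) P = 0 ↔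
        MvPolynomial.eval₂ (evq x) (fun v => (BD fun j => Z j * E (cm (Am (n j))) (-ℓ)) (ix (sz n) v).1 (ix (sz n) v).2) R = 0) := by
    intro x ℓ X Z hZ
    rw [← hφe x ℓ X]
    refine hP (MvPolynomial.eval (Pool.Agent.Y119.HY.pt x ℓ (BD X))) _ fun v => ?_
    have h1 : (BD NM).map (MvPolynomial.eval (Pool.Agent.Y119.HY.pt x ℓ (BD X))) =
        BD fun j => MvPolynomial.eval (px x (X (q j))) (D j) • (Z j * E (cm (Am (n j))) (-ℓ)) := by
      rw [BD_map' _ (map_zero _)]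
      congr 1
      funext j
      rw [hNM]
      simp only
      rw [Matrix.map_mul]
      have e1 : ((M j).map (ρ j)).map (MvPolynomial.eval (Pool.Agent.Y119.HY.pt x ℓ (BD X))) =
          MvPolynomial.eval (px x (X (q j))) (D j) • Z j := by
        rw [← (hZ j).2]
        ext a b
        rw [Matrix.map_apply, Matrix.map_apply, Matrix.map_apply, hρe]
      have e2 : ((Ep (-cm (Am (n j)))).map lam).map (MvPolynomial.eval (Pool.Agent.Y119.HY.pt x ℓ (BD X))) = E (cm (Am (n j))) (-ℓ) := by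
        rw [← E_neg, ← Ep_eval]
        ext a b
        rw [Matrix.map_apply, Matrix.map_apply, Matrix.map_apply, hlame]
      rw [e1, e2, Matrix.smul_mul]
    obtain ⟨⟨j, a⟩, hja⟩ := finSigmaFinEquiv.surjective (ix (sz n) v).1
    obtain ⟨⟨j', a'⟩, hja'⟩ := finSigmaFinEquiv.surjective (ix (sz n) v).2
    have h2 := congrFun (congrFun h1 (ix (sz n) v).1) (ix (sz n) v).2
    rw [Matrix.map_apply] at h2
    rw [h2, ← hja, ← hja', Equiv.symm_apply_apply]
    simp only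
    rw [hρe]
    refine ⟨(hZ j).1, ?_⟩
    by_cases hjj : j = j'
    · subst hjj
      rw [BD_eq, BD_eq, Matrix.smul_apply, smul_eq_mul]
    · rw [BD_ne _ hjj, BD_ne _ hjj, mul_zero]
  -- the system of the representatives
  set Y := Yf (BD fun a => cm (Am (n' a))) (fun k => BD fun a => Hc (n' a) (h' a).Q k) with hY
  have hYx : ∀ x : ℝ, Y (x : ℂ) = BD fun a => Yx (n' a) (h' a).Q x := by
    intro x
    rw [hY, Yf_BD fun a => Ac_nil]
    rfl
  have hnil : ∀ a, cm (Am (n' a)) ^ n' a = 0 := fun a => Ac_nil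
  have hsol : Sol (BD fun a => cm (Am (n' a))) (BD fun a => cm (Bm (n' a) (h' a).Q)) (fun k => BD fun a => Hc (n' a) (h' a).Q k) :=
    sol_BD fun a => sol_cG (hx a).ok.g
  have hsys := jsys_okG (h := hF α) (fun j => QG_QA (hn j) fun i l h0 => hα j i l h0.symm)
    (fun j a b => sdc_hpsG (fun i l h0 => hα j i l h0.symm) (QG_QA (hn j) fun i l h0 => hα j i l h0.symm) a b)
  have hHcF : (jsys (hF α)).Hc = fun k => BD fun j => Hc (n j) (QA (α j)) k := funext jsys_Hc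
  have hrel : P ∈ Rel Y := by
    intro x hx0 hx1
    show MvPolynomial.eval (Pool.Agent.Y119.HY.pt (x : ℂ) (Complex.log x) (Y (x : ℂ))) P = 0
    rw [hYx]
    have h0' := hPe (x : ℂ) (Complex.log x) (fun a => Yx (n' a) (h' a).Q x) (fun j => Yx (n j) (QA (α j)) x) fun j => hMD1 j x hx0 hx1
    refine h0'.2 ?_
    have hx' : 1 < 1 / x := by rw [lt_div_iff₀ hx0]; linarith
    have h1 := (ev_aevalS hsys hx' R).2
    rw [hR] at h1
    have h2 : ev (1 / x) (0 : ℚ⟦X⟧) = 0 := by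
      unfold ev
      simp
    rw [h2, Complex.ofReal_zero, one_div_one_div] at h1
    have h3 : (fun v => ((ev (1 / x) ((jsys (hF α)).hf v) : ℝ) : ℂ)) =
        fun v => (BD fun j => Yx (n j) (QA (α j)) x * E (cm (Am (n j))) (-Complex.log x)) (ix (sz n) v).1 (ix (sz n) v).2 := by
      funext v
      unfold Sys.hf
      rw [ev_sys, one_div_one_div, hHcF, Hf_BD]
      have h5 : (fun j => Hf (Hc (n j) (QA (α j))) (x : ℂ)) = fun j => Yx (n j) (QA (α j)) x * E (cm (Am (n j))) (-Complex.log x) := by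
        funext j
        unfold Yx Yf
        have h4 : E (cm (Am (n j))) (Complex.log x) * E (cm (Am (n j))) (-Complex.log x) = 1 := E_mul_neg Ac_nil _
        rw [Matrix.mul_assoc, h4, Matrix.mul_one]
      exact congrFun (congrFun (congrArg (fun X : Bl n ℂ => BD X) h5) _) _
    rw [h3] at h1
    exact h1.symm
  -- the branch
  have h00 : (1 : ℂ) - 1 / (t : ℂ) ≠ 0 := by
    have e4 : (1 - 1 / (t : ℂ)) = (((1 - 1 / (t : ℝ) : ℝ)) : ℂ) := by push_cast; rfl
    rw [e4, Ne, Complex.ofReal_eq_zero]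
    linarith
  obtain ⟨m, hm⟩ : ∃ m : ℤ, L = Complex.log (1 - 1 / (t : ℂ)) + m * (2 * Real.pi * Complex.I) := by
    refine Complex.exp_eq_exp_iff_exists_int.1 ?_
    rw [hL, Complex.exp_log h00]
  choose W hW1 hW2 using fun a => inv_Hf (hx a).ok.g ht
  set gd : ∀ a, Matrix (Fin (n' a)) (Fin (n' a)) ℂ := fun a => dg' (G a) (c a) t (g (e a)) with hgd
  have hcond : ∀ a, (h' a).cond L t (gd a) := fun a =>
    cond_dg (hg a) (hx a) (hα (e a)) (hcl a) ht hL (hdet (e a)) (hBil (e a) (e a))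
  have h1 := joint_gal (fun a => (hx a).ok) hb hne (g := fun a => W a * gd a * E (cm (Am (n' a))) l) (m := m) fun a =>
    cond_SGm (hx a).ok (hb a) ht hm (hcond a) (hW1 a) l
  set x : ℝ := 1 / (t : ℝ) with hxd
  set ℓ : ℂ := Complex.log (x : ℂ) with hℓ
  have h2 := conj_E (BD_nil hnil) hsol (-ℓ) _ h1
  rw [neg_neg] at h2
  have h3 := h2 P hrel x ht0 ht1
  have h4 : Y (x : ℂ) * (E (BD fun a => cm (Am (n' a))) (-ℓ) * BD (fun a => W a * gd a * E (cm (Am (n' a))) l) *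
      E (BD fun a => cm (Am (n' a))) ℓ) = BD fun a => gd a * E (cm (Am (n' a))) (l + ℓ) := by
    rw [hYx, E_BD hnil, E_BD hnil, ← BD_mul, ← BD_mul, ← BD_mul]
    congr 1
    funext a
    unfold Yx Yf
    have e1 : E (cm (Am (n' a))) ℓ * E (cm (Am (n' a))) (-ℓ) = 1 := E_mul_neg Ac_nil ℓ
    rw [E_add Ac_nil l ℓ]
    calc Hf (Hc (n' a) (h' a).Q) (x : ℂ) * E (cm (Am (n' a))) (Complex.log (x : ℂ)) *
          (E (cm (Am (n' a))) (-ℓ) * (W a * gd a * E (cm (Am (n' a))) l) * E (cm (Am (n' a))) ℓ) =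
          Hf (Hc (n' a) (h' a).Q) (x : ℂ) * (E (cm (Am (n' a))) ℓ * E (cm (Am (n' a))) (-ℓ)) * W a * gd a *
            (E (cm (Am (n' a))) l * E (cm (Am (n' a))) ℓ) := by simp only [Matrix.mul_assoc]; rfl
      _ = _ := by
        have e2 : Hf (Hc (n' a) (h' a).Q) (x : ℂ) * W a = 1 := hW1 a
        rw [e1, Matrix.mul_one, e2, Matrix.one_mul]
  rw [h4] at h3
  have h5 := (hPe (x : ℂ) ℓ (fun a => gd a * E (cm (Am (n' a))) (l + ℓ)) (fun j => g j * E (cm (Am (n j))) (l + ℓ)) fun j =>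
    hMD2 j t ht (g (e (q j))) (g j) (hLin _ _) (hBil _ _) (by rw [hdet]; exact Complex.exp_ne_zero _) (l + ℓ)).1 h3
  have h6 : (BD fun j => g j * E (cm (Am (n j))) (l + ℓ) * E (cm (Am (n j))) (-ℓ)) = BD g * E (cm (jsys (hF α)).N) l := by
    rw [jsys_N, E_BD fun j => Ac_nil, ← BD_mul]
    congr 1
    funext j
    have e3 : E (cm (Am (n j))) ℓ * E (cm (Am (n j))) (-ℓ) = 1 := E_mul_neg Ac_nil ℓ
    rw [E_add Ac_nil l ℓ, Matrix.mul_assoc, Matrix.mul_assoc, e3, Matrix.mul_one]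
  rw [h6] at h5
  exact h5

end Q207.HM
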