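import Pool.Agent.Y119.J.Gen
import Pool.Agent.Y119.HY.Fin2

/-!
# Systems with nilpotent residue: the theorem on tuples
-/

set_option autoImplicit false

open PowerSeries Pool.Agent.Y113 Pool.Agent.Y120.GF Pool.Agent.Y120.GH

namespace Q207.HM

open Pool.Agent.Y119.HY (Am Jm cm Ep E Ep_eval E_neg Hf Yf Vr Rel Gal E_add E_zero E_mul_neg conj_E Sol)
open Pool.Agent.Y119.HZ (cf ix evq PR ev_PR Vx Ix Jx pw Vn Vn_fin fo dg spec_eq MV MV.add MV.sum MV.mul_rat mem_Ext_one MV.ext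
  MV_mono)

section subst

variable {k : ℕ} {n : Fin k → ℕ} (N : ∀ i, Matrix (Fin (n i)) (Fin (n i)) ℚ)

/-- the rational coefficients of `exp (- N L)` -/
noncomputable def qeN {n : ℕ} (N : Matrix (Fin n) (Fin n) ℚ) (l : ℕ) (c d : Fin n) : ℚ := (-1) ^ l / (l.factorial : ℚ) * (N ^ l) c d

lemma E_qeN {n : ℕ} (N : Matrix (Fin n) (Fin n) ℚ) (L : ℂ) (c d : Fin n) :
    E (cm N) (-L) c d = ∑ l ∈ Finset.range n, ((qeN N l c d : ℚ) : ℂ) * L ^ l := by
  unfold E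
  rw [Matrix.sum_apply]
  refine Finset.sum_congr rfl fun l _ => ?_
  rw [Matrix.smul_apply, ← Pool.Agent.Y119.HY.cm_pow, Pool.Agent.Y119.HY.cm_apply, smul_eq_mul, neg_pow]
  unfold qeN
  push_cast
  ring

/-- the part with rational coefficients -/
noncomputable def rpN (i : Fin k) (a c d : Fin (n i)) : MvPolynomial (Vx n) ℚ :=
  MvPolynomial.X ⟨i, some ((ix (n i)).symm (a, c))⟩ *
    ∑ l ∈ Finset.range (n i), MvPolynomial.C (qeN (N i) l c d) * MvPolynomial.X ⟨i, none⟩ ^ l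

/-- the substitution -/
noncomputable def subN (Ω : ∀ i, Matrix (Fin (n i)) (Fin (n i)) ℂ) (v : Ix n) : MvPolynomial (Vx n) ℂ :=
  ∑ c, ∑ d, MvPolynomial.map (algebraMap ℚ ℂ) (rpN N v.1 v.2.1 c d) * MvPolynomial.C (Ω v.1 d v.2.2)

lemma aeval_rpN (Z : ∀ i, Matrix (Fin (n i)) (Fin (n i)) ℂ) (l : Fin k → ℂ) (i : Fin k) (a c d : Fin (n i)) :
    MvPolynomial.aeval (pt (fun i j => Z i (ix (n i) j).1 (ix (n i) j).2) l)
      (MvPolynomial.map (algebraMap ℚ ℂ) (rpN N i a c d)) = Z i a c * E (cm (N i)) (-l i) c d := by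
  unfold rpN
  rw [map_mul, map_mul, MvPolynomial.map_X, MvPolynomial.aeval_X, map_sum, map_sum, E_qeN]
  congr 1
  · unfold pt
    simp
  · refine Finset.sum_congr rfl fun e _ => ?_
    rw [map_mul, map_mul, map_pow, map_pow, MvPolynomial.map_X, MvPolynomial.aeval_X, MvPolynomial.map_C, MvPolynomial.aeval_C]
    rfl

lemma aeval_subN (Ω : ∀ i, Matrix (Fin (n i)) (Fin (n i)) ℂ) (Z : ∀ i, Matrix (Fin (n i)) (Fin (n i)) ℂ) (l : Fin k → ℂ)
    (v : Ix n) : MvPolynomial.aeval (pt (fun i j => Z i (ix (n i) j).1 (ix (n i) j).2) l) (subN N Ω v) =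
      Pool.Agent.Y119.HZ.pv (fun i => Z i * E (cm (N i)) (-l i) * Ω i) v := by
  show _ = (Z v.1 * E (cm (N v.1)) (-l v.1) * Ω v.1) v.2.1 v.2.2
  unfold subN
  rw [map_sum, Matrix.mul_apply]
  simp only [map_sum, map_mul, aeval_rpN, Matrix.mul_apply, Finset.sum_mul]
  rw [Finset.sum_comm]
  refine Finset.sum_congr rfl fun d _ => Finset.sum_congr rfl fun c _ => ?_
  rw [MvPolynomial.aeval_C]
  rfl

lemma deg_subN (Ω : ∀ i, Matrix (Fin (n i)) (Fin (n i)) ℂ) (v : Ix n) : (subN N Ω v).totalDegree ≤ dg n := by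
  unfold subN
  refine (MvPolynomial.totalDegree_finsetSum _ _).trans (Finset.sup_le fun c _ => ?_)
  refine (MvPolynomial.totalDegree_finsetSum _ _).trans (Finset.sup_le fun d _ => ?_)
  refine (MvPolynomial.totalDegree_mul _ _).trans ?_
  rw [MvPolynomial.totalDegree_C, add_zero]
  have h0 : (MvPolynomial.map (algebraMap ℚ ℂ) (rpN N v.1 v.2.1 c d)).totalDegree ≤ (rpN N v.1 v.2.1 c d).totalDegree :=
    Finset.sup_mono (MvPolynomial.support_map_subset _ _)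
  refine h0.trans ?_
  unfold rpN
  refine (MvPolynomial.totalDegree_mul _ _).trans ?_
  rw [MvPolynomial.totalDegree_X]
  have h1 : n v.1 ≤ ∑ i, n i := Finset.single_le_sum (f := n) (fun _ _ => Nat.zero_le _) (Finset.mem_univ _)
  have h2 : (∑ l ∈ Finset.range (n v.1), MvPolynomial.C (qeN (N v.1) l c d) *
      (MvPolynomial.X ⟨v.1, none⟩ : MvPolynomial (Vx n) ℚ) ^ l).totalDegree ≤ n v.1 := by
    refine (MvPolynomial.totalDegree_finsetSum _ _).trans (Finset.sup_le fun l hl => ?_)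
    refine (MvPolynomial.totalDegree_mul _ _).trans ?_
    rw [MvPolynomial.totalDegree_C, zero_add, MvPolynomial.totalDegree_X_pow]
    exact (Finset.mem_range.1 hl).le
  unfold dg
  omega

lemma mul_subN {V : Submodule ℚ ℂ} (Ω : ∀ i, Matrix (Fin (n i)) (Fin (n i)) ℂ) {p : MvPolynomial (Vx n) ℂ} (hp : MV V p)
    (v : Ix n) : MV (Ext V (fo Ω)) (p * subN N Ω v) := by
  unfold subN
  rw [Finset.mul_sum]
  refine MV.sum _ fun c _ => ?_
  rw [Finset.mul_sum]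
  refine MV.sum _ fun d _ => ?_
  rw [← mul_assoc]
  intro m
  rw [mul_comm, MvPolynomial.coeff_C_mul, mul_comm]
  exact mem_Ext_one Ω (some ⟨v.1, d, v.2.2⟩) (hp.mul_rat _ m)

/-- the substitution -/
noncomputable def sub'N (Ω : ∀ i, Matrix (Fin (n i)) (Fin (n i)) ℂ) : Jx n → MvPolynomial (Vx n) ℂ
  | ⟨i, none⟩ => MvPolynomial.X ⟨i, none⟩
  | ⟨i, some p⟩ => subN N Ω ⟨i, p⟩

lemma aeval_sub'N (Ω : ∀ i, Matrix (Fin (n i)) (Fin (n i)) ℂ) (Z : ∀ i, Matrix (Fin (n i)) (Fin (n i)) ℂ) (l : Fin k → ℂ)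
    (v : Jx n) : MvPolynomial.aeval (pt (fun i j => Z i (ix (n i) j).1 (ix (n i) j).2) l) (sub'N N Ω v) =
      pw l (fun i => Z i * E (cm (N i)) (-l i) * Ω i) v := by
  obtain ⟨i, _ | p⟩ := v
  · show MvPolynomial.aeval _ (MvPolynomial.X _) = _
    rw [MvPolynomial.aeval_X]
    rfl
  · exact aeval_subN N Ω Z l ⟨i, p⟩

lemma deg_sub'N (Ω : ∀ i, Matrix (Fin (n i)) (Fin (n i)) ℂ) (v : Jx n) : (sub'N N Ω v).totalDegree ≤ dg n := by
  obtain ⟨i, _ | p⟩ := v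
  · show (MvPolynomial.X _ : MvPolynomial (Vx n) ℂ).totalDegree ≤ _
    rw [MvPolynomial.totalDegree_X]
    unfold dg
    omega
  · exact deg_subN N Ω ⟨i, p⟩

lemma mul_sub'N {V : Submodule ℚ ℂ} (Ω : ∀ i, Matrix (Fin (n i)) (Fin (n i)) ℂ) {p : MvPolynomial (Vx n) ℂ} (hp : MV V p)
    (v : Jx n) : MV (Ext V (fo Ω)) (p * sub'N N Ω v) := by
  obtain ⟨i, _ | q⟩ := v
  · have h1 := MV.ext Ω (hp.mul_rat (MvPolynomial.X ⟨i, none⟩))
    rwa [MvPolynomial.map_X] at h1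
  · exact mul_subN N Ω hp ⟨i, q⟩

lemma MV_ms'N (Ω : ∀ i, Matrix (Fin (n i)) (Fin (n i)) ℂ) {V : Submodule ℚ ℂ} {c : ℂ} (hc : c ∈ V) (ms : Multiset (Jx n)) :
    MV (Vn Ω V (Multiset.card ms)) (MvPolynomial.C c * (ms.map (sub'N N Ω)).prod) ∧
      (MvPolynomial.C c * (ms.map (sub'N N Ω)).prod).totalDegree ≤ Multiset.card ms * dg n := by
  classical
  induction ms using Multiset.induction_on with
  | empty =>
    rw [Multiset.map_zero, Multiset.prod_zero, mul_one, Multiset.card_zero, zero_mul, MvPolynomial.totalDegree_C]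
    refine ⟨fun m => ?_, le_rfl⟩
    rw [MvPolynomial.coeff_C]
    split_ifs
    · exact hc
    · exact V.zero_mem
  | cons v ms ih =>
    have h1 : MvPolynomial.C c * ((v ::ₘ ms).map (sub'N N Ω)).prod = (MvPolynomial.C c * (ms.map (sub'N N Ω)).prod) * sub'N N Ω v := by
      rw [Multiset.map_cons, Multiset.prod_cons]
      ring
    rw [h1, Multiset.card_cons]
    refine ⟨mul_sub'N N Ω ih.1 v, (MvPolynomial.totalDegree_mul _ _).trans ?_⟩
    rw [add_mul, one_mul]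
    exact add_le_add ih.2 (deg_sub'N N Ω v)

/-- the substituted polynomial -/
theorem aeval_MV'N (Ω : ∀ i, Matrix (Fin (n i)) (Fin (n i)) ℂ) {V : Submodule ℚ ℂ} {δ : ℕ} {P : MvPolynomial (Jx n) ℂ}
    (hP : P.totalDegree ≤ δ) (hV : ∀ s, P.coeff s ∈ V) :
    MV (Vn Ω V δ) (MvPolynomial.aeval (sub'N N Ω) P) ∧ (MvPolynomial.aeval (sub'N N Ω) P).totalDegree ≤ δ * dg n := by
  classical
  have h1 : MvPolynomial.aeval (sub'N N Ω) P = ∑ s ∈ P.support, MvPolynomial.C (P.coeff s) *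
      ((Finsupp.toMultiset s).map (sub'N N Ω)).prod := by
    rw [MvPolynomial.aeval_def, MvPolynomial.eval₂_eq]
    refine Finset.sum_congr rfl fun s _ => ?_
    congr 1
    rw [Finsupp.toMultiset_map, Finsupp.prod_toMultiset, Finsupp.prod_mapDomain_index (by simp) (by
      intro a b c
      rw [pow_add])]
    rfl
  have h2 : ∀ s ∈ P.support, Multiset.card (Finsupp.toMultiset s) ≤ δ := by
    intro s hs
    rw [Finsupp.card_toMultiset]
    exact (MvPolynomial.le_totalDegree hs).trans hP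
  rw [h1]
  refine ⟨MV.sum _ fun s hs => MV_mono Ω (h2 s hs) (MV_ms'N N Ω (hV s) _).1, ?_⟩
  refine (MvPolynomial.totalDegree_finsetSum _ _).trans (Finset.sup_le fun s hs => ?_)
  exact (MV_ms'N N Ω (hV s) _).2.trans (Nat.mul_le_mul_right _ (h2 s hs))

end subst

/-! ### systems -/

/-- a system with nilpotent residue, given by the residue and the holomorphic part of the solution -/
structure Sys (m : ℕ) where
  N : Matrix (Fin m) (Fin m) ℚ
  H : Matrix (Fin m) (Fin m) ℚ⟦X⟧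

section one

variable {m : ℕ}

/-- the complex coefficients -/
noncomputable def Sys.Hc (s : Sys m) (k : ℕ) : Matrix (Fin m) (Fin m) ℂ := cm (cf s.H k)

/-- the solution -/
noncomputable def Sys.Y (s : Sys m) : ℂ → Matrix (Fin m) (Fin m) ℂ := Yf (cm s.N) s.Hc

/-- the functions -/
noncomputable def Sys.hf (s : Sys m) (j : Fin (m * m)) : ℚ⟦X⟧ := s.H (ix m j).1 (ix m j).2

/-- the conditions -/
structure SysOK (s : Sys m) : Prop where
  nil : s.N ^ m = 0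
  sol : ∃ B, Sol (cm s.N) B s.Hc
  fam : ∀ δ, Pool.Agent.Y120.R.Fam δ s.hf

variable {s : Sys m}

lemma SysOK.nilc (h : SysOK s) : cm s.N ^ m = 0 := by
  rw [← Pool.Agent.Y119.HY.cm_pow, h.nil, Pool.Agent.Y119.HY.cm_zero]

lemma coeff_sys (s : Sys m) (k : ℕ) (i j : Fin m) : s.Hc k i j = (((coeff k (s.H i j) : ℚ)) : ℂ) := rfl

/-- the entries converge for `t > 1` -/
lemma Cv_sys (h : SysOK s) {t : ℝ} (ht : 1 < t) (i j : Fin m) : Cv t (s.H i j) := by
  obtain ⟨B, hB⟩ := h.sol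
  have h1 := (hB.growth h.nilc i j).summable (r := 1 / t) (by positivity) (by rw [div_lt_one (by linarith)]; exact ht)
  refine h1.congr fun m => ?_
  congr 1
  rw [coeff_sys]
  have h3 : ((coeff m (s.H i j) : ℚ) : ℂ) = (((coeff m (s.H i j) : ℚ) : ℝ) : ℂ) := by push_cast; rfl
  rw [h3, Complex.norm_real, Real.norm_eq_abs]

/-- the values -/
lemma ev_sys (s : Sys m) (t : ℝ) (i j : Fin m) : ((ev t (s.H i j) : ℝ) : ℂ) = Hf s.Hc (((1 / t : ℝ)) : ℂ) i j := by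
  unfold Hf
  rw [Matrix.of_apply]
  unfold Pool.Agent.Y119.HY.ps ev
  rw [Complex.ofReal_tsum]
  refine tsum_congr fun m => ?_
  show _ = s.Hc m i j * _
  rw [coeff_sys]
  push_cast
  rfl

lemma ev_aevalS (h : SysOK s) {t : ℝ} (ht : 1 < t) (R : MvPolynomial (Fin (m * m)) (Polynomial ℚ)) :
    Cv t (MvPolynomial.aeval s.hf R) ∧ ((ev t (MvPolynomial.aeval s.hf R) : ℝ) : ℂ) =
      MvPolynomial.eval₂ (evq (((1 / t : ℝ)) : ℂ)) (fun j => ((ev t (s.hf j) : ℝ) : ℂ)) R := by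
  have ht0 : 0 < t := by linarith
  induction R using MvPolynomial.induction_on with
  | C p =>
    have h1 : MvPolynomial.aeval s.hf (MvPolynomial.C p) = (p : ℚ⟦X⟧) := by
      rw [MvPolynomial.aeval_C, PowerSeries.algebraMap_apply']
      simp
    rw [h1, MvPolynomial.eval₂_C]
    refine ⟨Cv.coe p, ?_⟩
    rw [ev_coe]
    unfold evq
    have h2 : (((1 / t : ℝ)) : ℂ) = algebraMap ℝ ℂ (1 / t) := rfl
    rw [h2]
    show _ = Polynomial.aeval (algebraMap ℝ ℂ (1 / t)) p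
    rw [Polynomial.aeval_algebraMap_apply]
    rfl
  | add p q hp hq =>
    rw [map_add, MvPolynomial.eval₂_add, ← hp.2, ← hq.2, Cv.ev_add ht0 hp.1 hq.1]
    refine ⟨Cv.add ht0 hp.1 hq.1, ?_⟩
    push_cast
    rfl
  | mul_X p j hp =>
    have h1 : Cv t (s.hf j) := Cv_sys h ht _ _
    rw [map_mul, MvPolynomial.aeval_X, MvPolynomial.eval₂_mul, MvPolynomial.eval₂_X, ← hp.2, Cv.ev_mul ht0 hp.1 h1]
    refine ⟨Cv.mul ht0 hp.1 h1, ?_⟩
    push_cast
    rfl

/-- **invariance of the relations between the entries of the holomorphic part** -/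
theorem rel_invS (h : SysOK s) {R : MvPolynomial (Fin (m * m)) (Polynomial ℚ)} (hR : MvPolynomial.aeval s.hf R = 0)
    {x : ℝ} (hx : 0 < x) (hx1 : x < 1) {κ : Matrix (Fin m) (Fin m) ℂ} (hκ : κ ∈ Gal s.Y) :
    MvPolynomial.eval₂ (evq (x : ℂ)) (fun j => (Hf s.Hc (x : ℂ) * κ) (ix m j).1 (ix m j).2) R = 0 := by
  set N := cm s.N with hNd
  have hN : N ^ m = 0 := h.nilc
  obtain ⟨B, hB⟩ := h.sol
  -- the relation
  have hrel : PR N R ∈ Rel s.Y := by
    intro y hy hy1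
    rw [ev_PR]
    have e1 : s.Y (y : ℂ) * E N (-Complex.log y) = Hf s.Hc (y : ℂ) := by
      unfold Sys.Y Yf
      rw [Matrix.mul_assoc, E_mul_neg hN, mul_one]
    rw [e1]
    have hy' : 1 < 1 / y := by rw [lt_div_iff₀ hy]; linarith
    have h1 := (ev_aevalS h hy' R).2
    rw [hR] at h1
    have h2 : ev (1 / y) (0 : ℚ⟦X⟧) = 0 := by
      unfold ev
      simp
    rw [h2, Complex.ofReal_zero, one_div_one_div] at h1
    have h3 : (fun j => ((ev (1 / y) (s.hf j) : ℝ) : ℂ)) = fun j => Hf s.Hc (y : ℂ) (ix m j).1 (ix m j).2 := by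
      funext j
      unfold Sys.hf
      rw [ev_sys, one_div_one_div]
    rw [h3] at h1
    exact h1.symm
  set L : ℂ := Complex.log x with hL
  set g : Matrix (Fin m) (Fin m) ℂ := E N (-L) * κ * E N L with hg
  have hgG : g ∈ Gal s.Y := by
    have := conj_E hN hB (-L) κ hκ
    rwa [neg_neg] at this
  have h1 := hgG _ hrel x hx hx1
  rw [ev_PR] at h1
  have e2 : s.Y (x : ℂ) * g * E N (-L) = Hf s.Hc (x : ℂ) * κ := by
    unfold Sys.Y Yf
    have e3 : E N L * E N (-L) = 1 := E_mul_neg hN L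
    calc Hf s.Hc (x : ℂ) * E N (Complex.log x) * g * E N (-L) =
          Hf s.Hc (x : ℂ) * (E N L * E N (-L)) * κ * (E N L * E N (-L)) := by
            rw [hg]
            simp only [Matrix.mul_assoc]
            rfl
      _ = _ := by rw [e3, mul_one, mul_one]
  rw [← hL, e2] at h1
  exact h1

/-- a set of matrices over every `t` contained in the orbit of the holomorphic part -/
def TorS (s : Sys m) (T : ℕ → Set (Matrix (Fin m) (Fin m) ℂ)) : Prop :=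
  ∀ t : ℕ, 2 ≤ t → ∀ X ∈ T t, ∀ l : ℂ, ∃ κ ∈ Gal s.Y, Hf s.Hc (((1 / (t : ℝ) : ℝ)) : ℂ) * κ * E (cm s.N) (-l) = X

/-- the value at `1 / t` -/
noncomputable def Sys.Yt (s : Sys m) (t : ℕ) : Matrix (Fin m) (Fin m) ℂ :=
  Hf s.Hc (((1 / (t : ℝ) : ℝ)) : ℂ) * E (cm s.N) (-((Real.log t : ℝ) : ℂ))

end one

section many

variable {k : ℕ} {n : Fin k → ℕ} {s : ∀ i, Sys (n i)}

theorem relI_vanishS (hs : ∀ i, SysOK (s i)) {δ : ℕ} {t : Fin k → ℕ} (ht : ∀ i, 2 ≤ t i)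
    {κ : ∀ i, Matrix (Fin (n i)) (Fin (n i)) ℂ} (hκ : ∀ i, κ i ∈ Gal (s i).Y) (l : Fin k → ℂ)
    {P : MvPolynomial (Vx n) ℂ} (hP : P ∈ relI δ (fun i => (s i).hf) t) :
    MvPolynomial.aeval (pt (fun i j => (Hf (s i).Hc (((1 / (t i : ℝ) : ℝ)) : ℂ) * κ i) (ix (n i) j).1 (ix (n i) j).2) l) P = 0 := by
  set θ := pt (fun i j => (Hf (s i).Hc (((1 / (t i : ℝ) : ℝ)) : ℂ) * κ i) (ix (n i) j).1 (ix (n i) j).2) l with hθ
  have h1 : relI δ (fun i => (s i).hf) t ≤ RingHom.ker (MvPolynomial.aeval (R := ℂ) θ).toRingHom := by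
    unfold relI
    rw [Ideal.span_le]
    rintro _ ⟨i, R, -, hR, rfl⟩
    show (MvPolynomial.aeval θ) (MvPolynomial.rename (fun j => (⟨i, some j⟩ : Vx n)) (MvPolynomial.map (spec (t i)) R)) = 0
    rw [MvPolynomial.aeval_rename, MvPolynomial.aeval_def, MvPolynomial.eval₂_map]
    have h2 : (algebraMap ℂ ℂ).comp (spec (t i)) = evq (((1 / (t i : ℝ) : ℝ)) : ℂ) := by
      rw [← spec_eq]
      rfl
    rw [h2]
    have h3 : (2 : ℝ) ≤ t i := by exact_mod_cast ht i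
    have h4 := rel_invS (hs i) (R := R) hR (x := 1 / (t i : ℝ)) (by positivity) (by rw [div_lt_one (by linarith)]; linarith)
      (hκ i)
    have h5 : (θ ∘ fun j => (⟨i, some j⟩ : Vx n)) = fun j : Fin (n i * n i) =>
        (Hf (s i).Hc (((1 / (t i : ℝ) : ℝ)) : ℂ) * κ i) (ix (n i) j).1 (ix (n i) j).2 := by
      funext j
      rfl
    rw [h5]
    exact h4
  exact h1 hP

/-- **Few exceptional tuples.** -/
theorem tuplesS (k δ D : ℕ) (n : Fin k → ℕ) (s : ∀ i, Sys (n i)) (hs : ∀ i, SysOK (s i))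
    (T : ∀ i, ℕ → Set (Matrix (Fin (n i)) (Fin (n i)) ℂ)) (hT : ∀ i, TorS (s i) (T i)) :
    ∃ c C : ℝ, 0 < c ∧ 0 ≤ C ∧ ∀ (V : Submodule ℚ ℂ) [Module.Finite ℚ V], Module.finrank ℚ V ≤ D →
      ∀ Ω : (∀ i, Matrix (Fin (n i)) (Fin (n i)) ℂ), ∀ (x : Fin k → ℕ) (N : ℕ), (∀ i, 1 ≤ x i) → 1 ≤ N →
      ∀ S : Finset (Fin k → ℕ), (∀ t ∈ S, (∀ i, x i < t i ∧ t i ≤ x i + N) ∧ ∃ P : MvPolynomial (Jx n) ℂ,
        P.totalDegree ≤ δ ∧ (∀ s, P.coeff s ∈ V) ∧
        MvPolynomial.aeval (pw (fun i => ((Real.log (t i) : ℝ) : ℂ)) fun i => (s i).Yt (t i) * Ω i) P = 0 ∧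
        ∃ (l : Fin k → ℂ) (g : ∀ i, Matrix (Fin (n i)) (Fin (n i)) ℂ), (∀ i, g i ∈ T i (t i)) ∧
          MvPolynomial.aeval (pw l fun i => g i * Ω i) P ≠ 0) →
      (S.card : ℝ) ≤ C * (N : ℝ) ^ (k - 1) * ∑ i, (1 + N / ((x i : ℝ) + N) ^ c) := by
  classical
  obtain ⟨c, C, hc, hC, hmain⟩ := tuples k (δ * dg n) ((Fintype.card (Option (Ix n))) ^ δ * D) (fun i => n i * n i)
    (fun i => (s i).hf) (fun i => ((hs i).fam (δ * dg n)).1) (fun i => ((hs i).fam _).2)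
  refine ⟨c, C, hc, hC, ?_⟩
  intro V _ hV Ω x N hx hN S hS
  obtain ⟨hfin, hrank⟩ := Vn_fin Ω V δ
  refine hmain (Vn Ω V δ) (hrank.trans (Nat.mul_le_mul_left _ hV)) x N hN S fun t htS => ?_
  obtain ⟨hbox, P, hPd, hPV, hP0, l, g, hg, hPg⟩ := hS t htS
  refine ⟨hbox, MvPolynomial.aeval (sub'N (fun i => (s i).N) Ω) P, (aeval_MV'N _ Ω hPd hPV).2, (aeval_MV'N _ Ω hPd hPV).1, ?_, ?_⟩
  · -- the value
    have h1 : valpt (fun i => (s i).hf) t =
        pt (fun i j => Hf (s i).Hc (((1 / (t i : ℝ) : ℝ)) : ℂ) (ix (n i) j).1 (ix (n i) j).2)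
          (fun i => ((Real.log (t i) : ℝ) : ℂ)) := by
      unfold valpt
      congr 1
      funext i j
      exact ev_sys _ _ _ _
    have h2 : MvPolynomial.aeval (valpt (fun i => (s i).hf) t) (MvPolynomial.aeval (sub'N (fun i => (s i).N) Ω) P) =
        MvPolynomial.aeval (fun v => MvPolynomial.aeval (valpt (fun i => (s i).hf) t) (sub'N (fun i => (s i).N) Ω v)) P :=
      MvPolynomial.aeval_bind₁ _ _ _
    rw [h2, h1]
    have h3 := fun v => aeval_sub'N (fun i => (s i).N) Ω (fun i => Hf (s i).Hc (((1 / (t i : ℝ) : ℝ)) : ℂ)) (fun i => ((Real.log (t i) : ℝ) : ℂ)) v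
    simp only [h3]
    exact hP0
  · intro hmem
    apply hPg
    have ht2 : ∀ i, 2 ≤ t i := fun i => by
      have := (hbox i).1
      have := hx i
      omega
    choose κ hκ hκX using fun i => hT i (t i) (ht2 i) (g i) (hg i) (l i)
    have h1 := relI_vanishS hs ht2 hκ l hmem
    have h2 : MvPolynomial.aeval (pt (fun i j => (Hf (s i).Hc (((1 / (t i : ℝ) : ℝ)) : ℂ) * κ i)
        (ix (n i) j).1 (ix (n i) j).2) l) (MvPolynomial.aeval (sub'N (fun i => (s i).N) Ω) P) =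
        MvPolynomial.aeval (fun v => MvPolynomial.aeval (pt (fun i j => (Hf (s i).Hc (((1 / (t i : ℝ) : ℝ)) : ℂ) * κ i)
          (ix (n i) j).1 (ix (n i) j).2) l) (sub'N (fun i => (s i).N) Ω v)) P := MvPolynomial.aeval_bind₁ _ _ _
    rw [h2] at h1
    have h3 := fun v => aeval_sub'N (fun i => (s i).N) Ω (fun i => Hf (s i).Hc (((1 / (t i : ℝ) : ℝ)) : ℂ) * κ i) l v
    simp only [h3] at h1
    have h4 : (fun i => Hf (s i).Hc (((1 / (t i : ℝ) : ℝ)) : ℂ) * κ i * E (cm (s i).N) (-l i) * Ω i) =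
        fun i => g i * Ω i := by
      funext i
      rw [hκX i]
    rw [h4] at h1
    exact h1

end many

end Q207.HM
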