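import Pool.Agent.Q207.HM.Lkg
import Pool.Agent.Q207.HM.Qua

/-!
# The differential Galois group of a family with repeated and dual members, continued
-/

set_option autoImplicit false

open Matrix

namespace Q207.HM

open Pool.Agent.Y119.HY (Am Jm Bm cm cm_apply cm_mul cm_add cm_zero cm_one cm_transpose Hc Ac_nil Hf Yf E Ep Ep_eval E_neg E_isom E_mul_neg
  Gal Rel Sol Vr)
open Pool.Agent.Y119.HZ (evq)

lemma SG_det {n : ℕ} {b : Blk n} (hb : BlkOK b) {g : Matrix (Fin n) (Fin n) ℂ} (hg : SG b g) : g.det ≠ 0 := by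
  obtain ⟨h1, h2, h3⟩ := hg
  rcases hk : b.k with _ | _ | _
  · rw [h1 hk]
    exact one_ne_zero
  · rw [(h2 hk).2]
    exact one_ne_zero
  · obtain ⟨-, hd, -, -⟩ := hb.s hk
    have h4 := congrArg Matrix.det (h3 hk)
    rw [Matrix.det_mul, Matrix.det_mul, Matrix.det_transpose] at h4
    intro h0
    rw [h0, mul_zero] at h4
    exact hd h4.symm

lemma SG_E {n : ℕ} {h : HB n} {b : Blk n} (hb : BlkOf h b) {g : Matrix (Fin n) (Fin n) ℂ} (hg : SG b g) (s : ℂ) :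
    SG b (E (cm (Am n)) s * g) := by
  obtain ⟨hb1, hb2, hb3, hb4, hb5, -⟩ := hb
  obtain ⟨h1, h2, h3⟩ := hg
  have hdet : (E (cm (Am n)) s).det = 1 := det_E Ac_nil s
  have hform : b.Aᵀ * b.J + b.J * b.A = 0 → gᵀ * b.J * g = b.J → (E (cm (Am n)) s * g)ᵀ * b.J * (E (cm (Am n)) s * g) = b.J := by
    intro e1 e2
    rw [hb2] at e1
    have e3 := E_isom Ac_nil e1 s
    calc (E (cm (Am n)) s * g)ᵀ * b.J * (E (cm (Am n)) s * g) = gᵀ * ((E (cm (Am n)) s)ᵀ * b.J * E (cm (Am n)) s) * g := by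
          rw [Matrix.transpose_mul]
          simp only [Matrix.mul_assoc]
      _ = b.J := by rw [e3, e2]
  refine ⟨fun hk => ?_, fun hk => ⟨?_, ?_⟩, fun hk => ?_⟩
  · rw [Matrix.det_mul, hdet, one_mul, h1 hk]
  · obtain ⟨-, -, -, -, e1, -, -, -⟩ := hb1.o hk
    exact hform e1 (h2 hk).1
  · rw [Matrix.det_mul, hdet, one_mul, (h2 hk).2]
  · obtain ⟨-, -, e1, -⟩ := hb1.s hk
    exact hform e1 (h3 hk)

lemma SGm_zero {n : ℕ} {b : Blk n} {g : Matrix (Fin n) (Fin n) ℂ} (hg : SG b g) : SGm b 0 g := by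
  obtain ⟨h1, h2, h3⟩ := hg
  refine ⟨fun hk => ?_, fun hk => ⟨(h2 hk).1, ?_⟩, h3⟩
  · rw [zpow_zero]
    exact h1 hk
  · rw [zpow_zero]
    exact (h2 hk).2

variable {r : ℕ} {n : Fin r → ℕ}

/-- **The Galois group of the full family.** -/
theorem gal_full {r' : ℕ} (e : Fin r' → Fin r) (q : Fin r → Fin r') {α : ∀ j, Fin (n j) → ℚ} (hα : ∀ j i, ∀ a : ℤ, α j i ≠ a)
    {h' : ∀ a, HB (n (e a))} {α' : ∀ a, Fin (n (e a)) → ℚ} (hx : ∀ a, ExB (h' a) (α' a))
    (hcl : ∀ a, cls (α' a) = cls (α (e a))) {G : ∀ a, ℝ → Matrix (Fin (n (e a))) (Fin (n (e a))) ℂ}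
    {c : ∀ a, Matrix (Fin (n (e a))) (Fin (n (e a))) ℚ} (hg : ∀ a, Gau (α (e a)) (h' a) (G a) (c a)) {b : ∀ a, Blk (n (e a))}
    (hb : ∀ a, BlkOf (h' a) (b a)) (hne : ∀ a a', a ≠ a' → Neq (b a) (b a'))
    (hlk : ∀ j, cls (α (e (q j))) = cls (α j) ∨ cls (α (e (q j))) = cls fun i => -α j i) :
    ∃ (d : Fin r → Bool) (P : ∀ j, Matrix (Fin (n j)) (Fin (n (e (q j)))) ℂ) (P' : ∀ j, Matrix (Fin (n (e (q j)))) (Fin (n j)) ℂ),
      (∀ j, P j * P' j = 1) ∧ (∀ j, P' j * P j = 1) ∧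
      (∀ κ : ∀ a, Matrix (Fin (n (e a))) (Fin (n (e a))) ℂ, (∀ a, SG (b a) (κ a)) →
        ∀ R : MvPolynomial (Vr (sz n)) ℂ, (∀ x : ℝ, 0 < x → x < 1 →
            MvPolynomial.eval (Pool.Agent.Y119.HY.pt (x : ℂ) (Complex.log x) (BD fun j => Yx (n j) (QA (α j)) x)) R = 0) →
          ∀ x : ℝ, 0 < x → x < 1 → MvPolynomial.eval (Pool.Agent.Y119.HY.pt (x : ℂ) (Complex.log x)
            (BD fun j => Yx (n j) (QA (α j)) x * lk (d j) (P j) (P' j) (κ (q j)))) R = 0) ∧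
      ∀ t : ℕ, 2 ≤ t → ∀ g : ∀ j, Matrix (Fin (n j)) (Fin (n j)) ℂ, (∀ j j', Lin (QA (α j)) (QA (α j')) t (g j) (g j')) →
        (∀ j j', Bil (QA (α j)) (QA (α j')) t (g j) (g j')) →
        (∀ j, (g j).det = Complex.exp (-((∑ i, α j i : ℚ) : ℂ) * Complex.log (1 - 1 / (t : ℂ)))) →
        ∃ κ : ∀ a, Matrix (Fin (n (e a))) (Fin (n (e a))) ℂ, (∀ a, SG (b a) (κ a)) ∧
          ∀ j, g j = Yx (n j) (QA (α j)) (1 / (t : ℝ)) * lk (d j) (P j) (P' j) (κ (q j)) := by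
  classical
  choose d P P' M D hP1 hP2 hMD hlast using fun j => link_gal (α' := α j) (hg (q j)) (hx (q j)).ok.g (hα (e (q j))) (hα j) (hlk j)
  set n' : Fin r' → ℕ := fun a => n (e a) with hn'
  refine ⟨d, P, P', hP1, hP2, fun κ hκ R hR x hx0 hx1 => ?_, fun t ht g hLin hBil hdet => ?_⟩
  · -- the coordinates of the representatives
    set ρ : ∀ j, MvPolynomial (Wv (n (e (q j)))) ℂ →+* MvPolynomial (Vr (sz n')) ℂ := fun j =>
      (MvPolynomial.rename (R := ℂ) fun o : Wv (n (e (q j))) => (o.elim none fun p =>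
        some (some (finSigmaFinEquiv (⟨q j, p.1⟩ : Σ a : Fin r', Fin (n' a)), finSigmaFinEquiv (⟨q j, p.2⟩ : Σ a : Fin r', Fin (n' a)))) :
          Vr (sz n'))).toRingHom with hρ
    have hρe : ∀ j (z ℓ : ℂ) (X : Bl n' ℂ) (P : MvPolynomial (Wv (n (e (q j)))) ℂ),
        MvPolynomial.eval (Pool.Agent.Y119.HY.pt z ℓ (BD X)) (ρ j P) = MvPolynomial.eval (px z (X (q j))) P := by
      intro j z ℓ X P
      rw [hρ]
      simp only [AlgHom.toRingHom_eq_coe, RingHom.coe_coe]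
      rw [MvPolynomial.eval_rename]
      congr 2
      funext o
      rcases o with _ | p
      · rfl
      · exact BD_eq X (q j) p.1 p.2
    set NM : Bl n (MvPolynomial (Vr (sz n')) ℂ) := fun j => (M j).map (ρ j) with hNM
    obtain ⟨S, hS⟩ := sbs R
      (fun v : Vr (sz n) => v.elim (MvPolynomial.X none) fun o => o.elim (MvPolynomial.X (some none)) fun p => BD NM p.1 p.2)
      (fun v : Vr (sz n) => v.elim 1 fun o => o.elim 1 fun p =>
        ρ (finSigmaFinEquiv.symm p.1).1 (D (finSigmaFinEquiv.symm p.1).1)) (MvPolynomial.C : ℂ →+* MvPolynomial (Vr (sz n')) ℂ)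
    have hSe : ∀ (x : ℝ), 0 < x → x < 1 → ∀ (ℓ : ℂ) (κ : Bl n' ℂ), (∀ a, (κ a).det ≠ 0) →
        (MvPolynomial.eval (Pool.Agent.Y119.HY.pt (x : ℂ) ℓ (BD fun a => Yx (n' a) (h' a).Q x * κ a)) S = 0 ↔
          MvPolynomial.eval (Pool.Agent.Y119.HY.pt (x : ℂ) ℓ
            (BD fun j => Yx (n j) (QA (α j)) x * lk (d j) (P j) (P' j) (κ (q j)))) R = 0) := by
      intro x hx0 hx1 ℓ κ hκ
      have h0 := hS (MvPolynomial.eval (Pool.Agent.Y119.HY.pt (x : ℂ) ℓ (BD fun a => Yx (n' a) (h' a).Q x * κ a)))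
        (Pool.Agent.Y119.HY.pt (x : ℂ) ℓ (BD fun j => Yx (n j) (QA (α j)) x * lk (d j) (P j) (P' j) (κ (q j)))) ?_
      · have e1 : (MvPolynomial.eval (Pool.Agent.Y119.HY.pt (x : ℂ) ℓ (BD fun a => Yx (n' a) (h' a).Q x * κ a))).comp
            (MvPolynomial.C : ℂ →+* MvPolynomial (Vr (sz n')) ℂ) = RingHom.id ℂ := by
          refine RingHom.ext fun z => ?_
          rw [RingHom.comp_apply, MvPolynomial.eval_C]
          rfl
        rw [e1] at h0
        exact h0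
      rintro (_ | _ | p)
      · show MvPolynomial.eval _ (1 : MvPolynomial (Vr (sz n')) ℂ) ≠ 0 ∧ MvPolynomial.eval _ (MvPolynomial.X none) =
          MvPolynomial.eval _ (1 : MvPolynomial (Vr (sz n')) ℂ) * (x : ℂ)
        rw [map_one, one_mul, MvPolynomial.eval_X]
        exact ⟨one_ne_zero, rfl⟩
      · show MvPolynomial.eval _ (1 : MvPolynomial (Vr (sz n')) ℂ) ≠ 0 ∧ MvPolynomial.eval _ (MvPolynomial.X (some none)) =
          MvPolynomial.eval _ (1 : MvPolynomial (Vr (sz n')) ℂ) * ℓ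
        rw [map_one, one_mul, MvPolynomial.eval_X]
        exact ⟨one_ne_zero, rfl⟩
      · show MvPolynomial.eval _ (ρ (finSigmaFinEquiv.symm p.1).1 (D (finSigmaFinEquiv.symm p.1).1)) ≠ 0 ∧
          MvPolynomial.eval _ (BD NM p.1 p.2) = MvPolynomial.eval _ (ρ (finSigmaFinEquiv.symm p.1).1 (D (finSigmaFinEquiv.symm p.1).1)) *
            (BD (fun j => Yx (n j) (QA (α j)) x * lk (d j) (P j) (P' j) (κ (q j))) p.1 p.2)
        have h1 : (BD NM).map (MvPolynomial.eval (Pool.Agent.Y119.HY.pt (x : ℂ) ℓ (BD fun a => Yx (n' a) (h' a).Q x * κ a))) =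
            BD fun j => MvPolynomial.eval (px (x : ℂ) (Yx (n' (q j)) (h' (q j)).Q x * κ (q j))) (D j) •
              (Yx (n j) (QA (α j)) x * lk (d j) (P j) (P' j) (κ (q j))) := by
          rw [BD_map' _ (map_zero _)]
          congr 1
          funext j
          refine Eq.trans ?_ (hMD j x hx0 hx1 (κ (q j)) (hκ _)).2
          ext a b
          show MvPolynomial.eval _ (ρ j (M j a b)) = MvPolynomial.eval _ (M j a b)
          rw [hρe]
        obtain ⟨⟨j, a⟩, hja⟩ := finSigmaFinEquiv.surjective p.1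
        obtain ⟨⟨j', a'⟩, hja'⟩ := finSigmaFinEquiv.surjective p.2
        have h2 := congrFun (congrFun h1 p.1) p.2
        rw [Matrix.map_apply] at h2
        rw [h2, ← hja, ← hja', Equiv.symm_apply_apply]
        simp only
        rw [hρe]
        refine ⟨(hMD j x hx0 hx1 (κ (q j)) (hκ _)).1, ?_⟩
        by_cases hjj : j = j'
        · subst hjj
          rw [BD_eq, BD_eq, Matrix.smul_apply, smul_eq_mul]
        · rw [BD_ne _ hjj, BD_ne _ hjj, mul_zero]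
    -- the system of the representatives
    set Y := Yf (BD fun a => cm (Am (n' a))) (fun k => BD fun a => Hc (n' a) (h' a).Q k) with hY
    have hYx : ∀ x : ℝ, Y (x : ℂ) = BD fun a => Yx (n' a) (h' a).Q x := by
      intro x
      rw [hY, Yf_BD fun a => Ac_nil]
      rfl
    have hrel : S ∈ Rel Y := by
      intro y hy0 hy1
      show MvPolynomial.eval (Pool.Agent.Y119.HY.pt (y : ℂ) (Complex.log y) (Y (y : ℂ))) S = 0
      have e1 := (hSe y hy0 hy1 (Complex.log y) (fun a => 1) fun a => by rw [Matrix.det_one]; exact one_ne_zero).2 ?_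
      · rw [hYx]
        simp only [Matrix.mul_one] at e1
        exact e1
      · have e2 : (fun j => Yx (n j) (QA (α j)) y * lk (d j) (P j) (P' j) ((fun a => 1 : Bl n' ℂ) (q j))) =
            fun j => Yx (n j) (QA (α j)) y := by
          funext j
          have e3 : lk (d j) (P j) (P' j) (1 : Matrix (Fin (n (e (q j)))) (Fin (n (e (q j)))) ℂ) = 1 := by
            unfold lk
            have e4 : (if d j = true then ((1 : Matrix (Fin (n (e (q j)))) (Fin (n (e (q j)))) ℂ)⁻¹)ᵀ else 1) = 1 := by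
              split_ifs
              · rw [inv_one, Matrix.transpose_one]
              · rfl
            rw [e4, Matrix.mul_one, hP1]
          show _ * lk (d j) (P j) (P' j) (1 : Matrix (Fin (n (e (q j)))) (Fin (n (e (q j)))) ℂ) = _
          rw [e3, Matrix.mul_one]
        rw [e2]
        exact hR y hy0 hy1
    have h1 := joint_gal (fun a => (hx a).ok) hb hne (g := κ) (m := 0) fun a => SGm_zero (hκ a)
    have h3 := h1 S hrel x hx0 hx1
    refine (hSe x hx0 hx1 (Complex.log x) κ fun a => SG_det (hb a).1 (hκ a)).1 ?_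
    have h4 : Y (x : ℂ) * BD κ = BD fun a => Yx (n' a) (h' a).Q x * κ a := by
      rw [hYx, ← BD_mul]
    show Pool.Agent.Y119.HY.ev S (x : ℂ) (Complex.log x) (BD fun a => Yx (n' a) (h' a).Q x * κ a) = 0
    rw [← h4]
    exact h3
  · obtain ⟨ht0, ht1⟩ := tpos ht
    have h00 : (1 : ℂ) - 1 / (t : ℂ) ≠ 0 := by
      have e4 : (1 - 1 / (t : ℂ)) = (((1 - 1 / (t : ℝ) : ℝ)) : ℂ) := by push_cast; rfl
      rw [e4, Ne, Complex.ofReal_eq_zero]
      linarith
    have hcond : ∀ a, (h' a).cond (Complex.log (1 - 1 / (t : ℂ))) t (dg' (G a) (c a) t (g (e a))) := fun a =>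
      cond_dg (hg a) (hx a) (hα (e a)) (hcl a) ht (Complex.exp_log h00) (hdet (e a)) (hBil (e a) (e a))
    refine ⟨fun a => (Yx (n (e a)) (h' a).Q (1 / (t : ℝ)))⁻¹ * dg' (G a) (c a) t (g (e a)), fun a => ?_, fun j =>
      hlast j t ht (g (e (q j))) (g j) (hLin _ _) (hBil _ _) (by rw [hdet]; exact Complex.exp_ne_zero _)⟩
    obtain ⟨W, hW1, hW2⟩ := inv_Hf (hx a).ok.g ht
    have h1 := cond_SGm (hx a).ok (hb a) ht (m := 0) (by push_cast; ring) (hcond a) hW1 0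
    have hE0 : E (cm (Am (n (e a)))) (0 : ℂ) = 1 := by
      exact Pool.Agent.Y119.HY.E_zero Ac_nil
    rw [hE0, Matrix.mul_one] at h1
    have h2 := SG_E (hb a) (SG_of h1) (-Complex.log ((1 / (t : ℝ) : ℝ) : ℂ))
    have h3 : (Yx (n (e a)) (h' a).Q (1 / (t : ℝ)))⁻¹ = E (cm (Am (n (e a)))) (-Complex.log ((1 / (t : ℝ) : ℝ) : ℂ)) * W := by
      refine Matrix.inv_eq_right_inv ?_
      unfold Yx Yf
      have e1 : E (cm (Am (n (e a)))) (Complex.log ((1 / (t : ℝ) : ℝ) : ℂ)) *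
          E (cm (Am (n (e a)))) (-Complex.log ((1 / (t : ℝ) : ℝ) : ℂ)) = 1 := E_mul_neg Ac_nil _
      calc _ = Hf (Hc (n (e a)) (h' a).Q) (((1 / (t : ℝ) : ℝ)) : ℂ) * (E (cm (Am (n (e a)))) (Complex.log ((1 / (t : ℝ) : ℝ) : ℂ)) *
            E (cm (Am (n (e a)))) (-Complex.log ((1 / (t : ℝ) : ℝ) : ℂ))) * W := by simp only [Matrix.mul_assoc]
        _ = 1 := by rw [e1, Matrix.mul_one, hW1]
    show SG (b a) ((Yx (n (e a)) (h' a).Q (1 / (t : ℝ)))⁻¹ * dg' (G a) (c a) t (g (e a)))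
    rw [h3, Matrix.mul_assoc]
    exact h2

end Q207.HM
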