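import Pool.Agent.Q207.HM.LvS

/-!
# The monodromy around infinity is the product of the monodromies around zero and one
-/

set_option autoImplicit false

open Filter Topology Matrix

namespace Q207.HM

open Pool.Agent.Y119.HY (HD Gm E E_HD E_add E_zero Sol Hf Yf Yf_ode Lens mem_Lens real_mem_Lens isOpen_Lens slit_Lens symm_Lens preconn_Lens)

variable {n : ℕ}

section gen

variable {S : Set ℂ} {N W G G₁ G₂ F : ℂ → Matrix (Fin n) (Fin n) ℂ}

lemma pair_const (hSo : IsOpen S) (hSc : IsPreconnected S) (hW : ∀ z ∈ S, HD W (-(W z * N z)) z)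
    (hG : ∀ z ∈ S, HD G (N z * G z) z) {z w : ℂ} (hz : z ∈ S) (hw : w ∈ S) : W z * G z = W w * G w := by
  have h1 : ∀ x ∈ S, HD (fun x => W x * G x) 0 x := by
    intro x hx
    refine ((hW x hx).mul (hG x hx)).congr ?_
    rw [Matrix.neg_mul, Matrix.mul_assoc]
    exact neg_add_cancel _
  ext i j
  exact hSo.is_const_of_deriv_eq_zero hSc (f := fun x => (W x * G x) i j)
    (fun x hx => ((h1 x hx) i j).differentiableAt.differentiableWithinAt)
    (fun x hx => ((h1 x hx) i j).deriv) hz hw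

/-- uniqueness -/
lemma sol_uniq (hSo : IsOpen S) (hSc : IsPreconnected S) (hW : ∀ z ∈ S, HD W (-(W z * N z)) z) (hWF : ∀ z ∈ S, W z * F z = 1)
    (h1 : ∀ z ∈ S, HD G₁ (N z * G₁ z) z) (h2 : ∀ z ∈ S, HD G₂ (N z * G₂ z) z) {w : ℂ} (hw : w ∈ S) (he : G₁ w = G₂ w) :
    ∀ z ∈ S, G₁ z = G₂ z := by
  intro z hz
  have e1 := pair_const hSo hSc hW h1 hz hw
  have e2 := pair_const hSo hSc hW h2 hz hw
  have e3 := mul_eq_one_comm.1 (hWF z hz)
  calc G₁ z = F z * (W z * G₁ z) := by rw [← Matrix.mul_assoc, e3, Matrix.one_mul]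
    _ = F z * (W z * G₂ z) := by rw [e1, e2, he]
    _ = G₂ z := by rw [← Matrix.mul_assoc, e3, Matrix.one_mul]

lemma HD_mul_right {A : ℂ → Matrix (Fin n) (Fin n) ℂ} {A' : Matrix (Fin n) (Fin n) ℂ} {z : ℂ} (h : HD A A' z)
    (C : Matrix (Fin n) (Fin n) ℂ) : HD (fun w => A w * C) (A' * C) z := by
  refine (h.mul (HD.const C z)).congr ?_
  rw [Matrix.mul_zero, add_zero]

lemma HD_an (hSo : IsOpen S) {A A' : ℂ → Matrix (Fin n) (Fin n) ℂ} (h : ∀ z ∈ S, HD A (A' z) z) (i j : Fin n) :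
    AnalyticOnNhd ℂ (fun w => A w i j) S :=
  DifferentiableOn.analyticOnNhd (fun z hz => ((h z hz) i j).differentiableAt.differentiableWithinAt) hSo

end gen

/-- convex sets given by the real and imaginary part -/
lemma conv_re_lt (a : ℝ) : Convex ℝ {z : ℂ | z.re < a} := convex_halfSpace_re_lt a
lemma conv_re_gt (a : ℝ) : Convex ℝ {z : ℂ | a < z.re} := convex_halfSpace_re_gt a
lemma conv_im_lt (a : ℝ) : Convex ℝ {z : ℂ | z.im < a} := convex_halfSpace_im_lt a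
lemma conv_im_gt (a : ℝ) : Convex ℝ {z : ℂ | a < z.im} := convex_halfSpace_im_gt a
lemma op_re_lt (a : ℝ) : IsOpen {z : ℂ | z.re < a} := isOpen_lt Complex.continuous_re continuous_const
lemma op_re_gt (a : ℝ) : IsOpen {z : ℂ | a < z.re} := isOpen_lt continuous_const Complex.continuous_re
lemma op_im_lt (a : ℝ) : IsOpen {z : ℂ | z.im < a} := isOpen_lt Complex.continuous_im continuous_const
lemma op_im_gt (a : ℝ) : IsOpen {z : ℂ | a < z.im} := isOpen_lt continuous_const Complex.continuous_im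

lemma log_neg_of_im_pos {z : ℂ} (h : 0 < z.im) : Complex.log (-z) = Complex.log z - Real.pi * Complex.I := by
  unfold Complex.log
  rw [norm_neg, Complex.arg_neg_eq_arg_sub_pi_of_im_pos h]
  push_cast
  ring

lemma log_neg_of_im_neg {z : ℂ} (h : z.im < 0) : Complex.log (-z) = Complex.log z + Real.pi * Complex.I := by
  unfold Complex.log
  rw [norm_neg, Complex.arg_neg_eq_arg_add_pi_of_im_neg h]
  push_cast
  ring

lemma exp_2pi (z : ℂ) : Complex.exp (z + 2 * Real.pi * Complex.I) = Complex.exp z := by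
  rw [Complex.exp_add, Complex.exp_two_pi_mul_I, mul_one]

lemma norm_lt_of_normSq {a b : ℂ} (h : Complex.normSq a < Complex.normSq b) : ‖a‖ < ‖b‖ := by
  rw [Complex.normSq_eq_norm_sq, Complex.normSq_eq_norm_sq] at h
  exact lt_of_pow_lt_pow_left₀ 2 (norm_nonneg _) h

lemma norm_le_of_normSq {a b : ℂ} (h : Complex.normSq a ≤ Complex.normSq b) : ‖a‖ ≤ ‖b‖ := by
  rw [Complex.normSq_eq_norm_sq, Complex.normSq_eq_norm_sq] at h
  exact le_of_sq_le_sq h (norm_nonneg _)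

/-- charts -/
structure Ch (U : Set ℂ) (N F W : ℂ → Matrix (Fin n) (Fin n) ℂ) : Prop where
  hF : ∀ z ∈ U, HD F (N z * F z) z
  hW : ∀ z ∈ U, HD W (-(W z * N z)) z
  inv : ∀ z ∈ U, W z * F z = 1

lemma chart_up (h : Lv.S_Chart) (A B : Matrix (Fin n) (Fin n) ℂ) : ∃ F W, Ch {z : ℂ | 0 < z.im} (Gm A B) F W := by
  obtain ⟨F, W, hFW⟩ := h n A B Complex.I (-Complex.I) (by
    intro h0
    have := congrArg Complex.im h0
    norm_num at this) (by simp) (by
    intro h0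
    have := congrArg Complex.im h0
    norm_num at this) (by simp) (norm_le_of_normSq (by simp [Complex.normSq_apply]))
  have key : ∀ z : ℂ, z ∈ {z : ℂ | 0 < z.im} → ‖z - Complex.I‖ < ‖z - -Complex.I‖ := by
    intro z hz
    rw [Set.mem_ofPred_eq] at hz
    refine norm_lt_of_normSq ?_
    simp only [Complex.normSq_apply, Complex.sub_re, Complex.sub_im, Complex.neg_re, Complex.neg_im, Complex.I_re, Complex.I_im]
    nlinarith
  exact ⟨F, W, fun z hz => (hFW z (key z hz)).1, fun z hz => (hFW z (key z hz)).2.1, fun z hz => (hFW z (key z hz)).2.2⟩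

lemma chart_low (h : Lv.S_Chart) (A B : Matrix (Fin n) (Fin n) ℂ) : ∃ F W, Ch {z : ℂ | z.im < 0} (Gm A B) F W := by
  obtain ⟨F, W, hFW⟩ := h n A B (-Complex.I) Complex.I (by
    intro h0
    have := congrArg Complex.im h0
    norm_num at this) (by simp) (by
    intro h0
    have := congrArg Complex.im h0
    norm_num at this) (by simp) (norm_le_of_normSq (by simp [Complex.normSq_apply]))
  have key : ∀ z : ℂ, z ∈ {z : ℂ | z.im < 0} → ‖z - -Complex.I‖ < ‖z - Complex.I‖ := by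
    intro z hz
    rw [Set.mem_ofPred_eq] at hz
    refine norm_lt_of_normSq ?_
    simp only [Complex.normSq_apply, Complex.sub_re, Complex.sub_im, Complex.neg_re, Complex.neg_im, Complex.I_re, Complex.I_im]
    nlinarith
  exact ⟨F, W, fun z hz => (hFW z (key z hz)).1, fun z hz => (hFW z (key z hz)).2.1, fun z hz => (hFW z (key z hz)).2.2⟩

lemma chart_left (h : Lv.S_Chart) (A B : Matrix (Fin n) (Fin n) ℂ) : ∃ F W, Ch {z : ℂ | z.re < 0} (Gm A B) F W := by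
  obtain ⟨F, W, hFW⟩ := h n A B (-2) 2 (by norm_num) (by norm_num) (by norm_num) (by simp)
    (norm_le_of_normSq (by simp [Complex.normSq_apply]; norm_num))
  have key : ∀ z : ℂ, z ∈ {z : ℂ | z.re < 0} → ‖z - -2‖ < ‖z - 2‖ := by
    intro z hz
    rw [Set.mem_ofPred_eq] at hz
    refine norm_lt_of_normSq ?_
    have e1 : (2 : ℂ).re = 2 := by norm_num
    have e2 : (2 : ℂ).im = 0 := by norm_num
    simp only [Complex.normSq_apply, Complex.sub_re, Complex.sub_im, Complex.neg_re, Complex.neg_im, e1, e2]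
    nlinarith
  exact ⟨F, W, fun z hz => (hFW z (key z hz)).1, fun z hz => (hFW z (key z hz)).2.1, fun z hz => (hFW z (key z hz)).2.2⟩

section near

variable {A B : Matrix (Fin n) (Fin n) ℂ} {H : ℕ → Matrix (Fin n) (Fin n) ℂ} {U : Set ℂ} {F W : ℂ → Matrix (Fin n) (Fin n) ℂ}

/-- the continuation of the solution to the chart -/
lemma ext0 (hA : A ^ n = 0) (hH : Sol A B H) (hUo : IsOpen U) (hc : Ch U (Gm A B) F W) (hU0 : Convex ℝ U) (hUs : U ⊆ Complex.slitPlane)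
    {w : ℂ} (hw : w ∈ U) (hw1 : ‖w‖ < 1) : ∃ Y : ℂ → Matrix (Fin n) (Fin n) ℂ, (∀ z ∈ U, HD Y (Gm A B z * Y z) z) ∧
      ∀ z ∈ U, ‖z‖ < 1 → Yf A H z = Y z := by
  refine ⟨fun z => F z * (W w * Yf A H w), fun z hz => ?_, fun z hz hz1 => ?_⟩
  · have h1 := HD_mul_right (hc.hF z hz) (W w * Yf A H w)
    rw [Matrix.mul_assoc] at h1
    exact h1
  · have hSo : IsOpen (U ∩ Metric.ball 0 1) := hUo.inter Metric.isOpen_ball
    have hSc : IsPreconnected (U ∩ Metric.ball (0 : ℂ) 1) := (hU0.inter (convex_ball _ _)).isPreconnected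
    have hb : ∀ z : ℂ, z ∈ U ∩ Metric.ball (0 : ℂ) 1 ↔ z ∈ U ∧ ‖z‖ < 1 := by
      intro z
      rw [Set.mem_inter_iff, Metric.mem_ball, dist_zero_right]
    have h1 := pair_const hSo hSc (fun z hz => hc.hW z ((hb z).1 hz).1) (fun z hz => Yf_ode hH hA ((hb z).1 hz).2 (hUs ((hb z).1 hz).1))
      ((hb z).2 ⟨hz, hz1⟩) ((hb w).2 ⟨hw, hw1⟩)
    show Yf A H z = F z * (W w * Yf A H w)
    rw [← h1, ← Matrix.mul_assoc, mul_eq_one_comm.1 (hc.inv z hz), Matrix.one_mul]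

/-- the continuation near the point one -/
lemma ext1 (hA : A ^ n = 0) (hH : Sol A B H) {Φ : ℂ → Matrix (Fin n) (Fin n) ℂ}
    (hΦ : ∀ i j, AnalyticOnNhd ℂ (fun τ => Φ τ i j) {τ | τ.re < 0})
    (hΦY : ∀ x : ℝ, 0 < x → x < 1 → Yf A H x = Φ (Complex.log (1 - (x : ℂ)))) (hUo : IsOpen U) (hU0 : Convex ℝ U)
    (hU1 : ∀ z ∈ U, 1 - z ∈ Complex.slitPlane) {w : ℂ} (hw : w ∈ U) (hwL : w ∈ Lens) {Y : ℂ → Matrix (Fin n) (Fin n) ℂ}
    (hY : ∀ z ∈ U, HD Y (Gm A B z * Y z) z) (hY0 : ∀ z ∈ U, ‖z‖ < 1 → Yf A H z = Y z) :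
    ∀ z ∈ U, ‖1 - z‖ < 1 → Φ (Complex.log (1 - z)) = Y z := by
  have hlog : ∀ z : ℂ, 1 - z ∈ Complex.slitPlane → ‖1 - z‖ < 1 → (Complex.log (1 - z)).re < 0 := by
    intro z h1 h2
    rw [Complex.log_re]
    exact Real.log_neg (norm_pos_iff.2 (Complex.slitPlane_ne_zero h1)) h2
  have hcomp : ∀ (S : Set ℂ), (∀ z ∈ S, 1 - z ∈ Complex.slitPlane ∧ ‖1 - z‖ < 1) → ∀ i j,
      AnalyticOnNhd ℂ (fun z => Φ (Complex.log (1 - z)) i j) S := by
    intro S hS i j z hz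
    obtain ⟨h1, h2⟩ := hS z hz
    have h3 : AnalyticAt ℂ (fun z : ℂ => Complex.log (1 - z)) z := (analyticAt_const.sub analyticAt_id).clog h1
    have h4 : AnalyticAt ℂ (fun τ => Φ τ i j) ((fun z : ℂ => Complex.log (1 - z)) z) := hΦ i j (Complex.log (1 - z)) (hlog z h1 h2)
    exact AnalyticAt.comp (g := fun τ => Φ τ i j) (f := fun z : ℂ => Complex.log (1 - z)) h4 h3
  -- on the lens
  have hL : ∀ z ∈ Lens, Φ (Complex.log (1 - z)) = Yf A H z := by
    intro z hz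
    ext i j
    have han1 := hcomp Lens (fun z hz => ⟨slit_Lens (symm_Lens hz), (mem_Lens.1 hz).2⟩) i j
    have han2 : AnalyticOnNhd ℂ (fun z => Yf A H z i j) Lens :=
      HD_an isOpen_Lens (fun z hz => Yf_ode hH hA (mem_Lens.1 hz).1 (slit_Lens hz)) i j
    have hhalf : ((1 / 2 : ℝ) : ℂ) ∈ Lens := real_mem_Lens (by norm_num) (by norm_num)
    refine han1.eqOn_of_preconnected_of_frequently_eq han2 preconn_Lens hhalf ?_ hz
    have h2 : Tendsto (fun k : ℕ => ((((1 / 2 : ℝ) - 1 / ((k : ℝ) + 3) : ℝ)) : ℂ)) atTop (𝓝[≠] ((1 / 2 : ℝ) : ℂ)) := by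
      rw [tendsto_nhdsWithin_iff]
      constructor
      · have h3 : Tendsto (fun k : ℕ => (1 / 2 : ℝ) - 1 / ((k : ℝ) + 3)) atTop (𝓝 (1 / 2 - 0)) := by
          refine tendsto_const_nhds.sub ?_
          have h4 : Tendsto (fun k : ℕ => (k : ℝ) + 3) atTop atTop := tendsto_natCast_atTop_atTop.atTop_add tendsto_const_nhds
          exact (tendsto_inv_atTop_zero.comp h4).congr fun k => by rw [Function.comp, one_div]
        rw [sub_zero] at h3
        exact (Complex.continuous_ofReal.tendsto _).comp h3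
      · refine Eventually.of_forall fun k => ?_
        rw [Set.mem_compl_iff, Set.mem_singleton_iff, Complex.ofReal_inj]
        have : (0 : ℝ) < 1 / ((k : ℝ) + 3) := by positivity
        linarith
    refine h2.frequently (Frequently.of_forall fun k => ?_)
    have h5 : (0 : ℝ) < 1 / ((k : ℝ) + 3) := by positivity
    have h6 : 1 / ((k : ℝ) + 3) ≤ 1 / 3 := one_div_le_one_div_of_le (by norm_num) (by have : (0 : ℝ) ≤ k := Nat.cast_nonneg k; linarith)
    show Φ (Complex.log (1 - (((1 / 2 : ℝ) - 1 / ((k : ℝ) + 3) : ℝ) : ℂ))) i j = Yf A H (((1 / 2 : ℝ) - 1 / ((k : ℝ) + 3) : ℝ) : ℂ) i j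
    rw [hΦY _ (by linarith) (by linarith)]
  intro z hz hz1
  ext i j
  have hb : ∀ z : ℂ, z ∈ U ∩ Metric.ball (1 : ℂ) 1 ↔ z ∈ U ∧ ‖1 - z‖ < 1 := by
    intro z
    rw [Set.mem_inter_iff, Metric.mem_ball, dist_comm, dist_eq_norm]
  have hSo : IsOpen (U ∩ Metric.ball (1 : ℂ) 1) := hUo.inter Metric.isOpen_ball
  have hSc : IsPreconnected (U ∩ Metric.ball (1 : ℂ) 1) := (hU0.inter (convex_ball _ _)).isPreconnected
  have han1 := hcomp (U ∩ Metric.ball (1 : ℂ) 1) (fun z hz => ⟨hU1 z ((hb z).1 hz).1, ((hb z).1 hz).2⟩) i j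
  have han2 := HD_an hSo (fun z hz => hY z ((hb z).1 hz).1) i j
  refine han1.eqOn_of_preconnected_of_eventuallyEq han2 hSc ((hb w).2 ⟨hw, (mem_Lens.1 hwL).2⟩) ?_ ((hb z).2 ⟨hz, hz1⟩)
  filter_upwards [isOpen_Lens.mem_nhds hwL, hUo.mem_nhds hw] with x hx hxU
  rw [hL x hx, hY0 x hxU (mem_Lens.1 hx).1]

/-- the solution near zero cut along the positive axis -/
lemma YL_ode (hA : A ^ n = 0) (hH : Sol A B H) {z : ℂ} (hz : ‖z‖ < 1) (hzr : z.re < 0) :
    HD (fun z => Hf H z * E A (Complex.log (-z) + Real.pi * Complex.I))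
      (Gm A B z * (Hf H z * E A (Complex.log (-z) + Real.pi * Complex.I))) z := by
  have hz0 : z ≠ 0 := by
    rintro rfl
    simp at hzr
  have h1 := HfR_ode hH (fun i j => growthR hH (nr_nil hA) i j) hz hz0
  have hs : -z ∈ Complex.slitPlane := by
    left
    rw [Complex.neg_re]
    linarith
  have h3 : HasDerivAt (fun w : ℂ => Complex.log (-w) + Real.pi * Complex.I) (z⁻¹) z := by
    have h4 : HasDerivAt (fun w : ℂ => -w) (-1) z := (hasDerivAt_id z).neg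
    have h5 := (h4.clog hs).add_const (Real.pi * Complex.I)
    refine h5.congr_deriv ?_
    rw [neg_div_neg_eq, one_div]
  have h2 : HD (fun w => E A (Complex.log (-w) + Real.pi * Complex.I)) (z⁻¹ • (A * E A (Complex.log (-z) + Real.pi * Complex.I))) z :=
    HD.comp (f := fun w : ℂ => Complex.log (-w) + Real.pi * Complex.I) (E_HD hA (Complex.log (-z) + Real.pi * Complex.I)) h3
  refine (h1.mul h2).congr ?_
  unfold Gm
  simp only [add_mul, smul_mul_assoc, sub_mul, mul_smul_comm, Matrix.mul_assoc, smul_sub, one_div]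
  abel

lemma ext_left (hChart : Lv.S_Chart) (hA : A ^ n = 0) (hH : Sol A B H) {Yp Ym : ℂ → Matrix (Fin n) (Fin n) ℂ}
    {Fp Wp Fm Wm : ℂ → Matrix (Fin n) (Fin n) ℂ}
    (hcp : Ch {z : ℂ | 0 < z.im} (Gm A B) Fp Wp) (hcm : Ch {z : ℂ | z.im < 0} (Gm A B) Fm Wm)
    (hYp : ∀ z : ℂ, 0 < z.im → HD Yp (Gm A B z * Yp z) z) (hYp0 : ∀ z : ℂ, 0 < z.im → ‖z‖ < 1 → Yf A H z = Yp z)
    (hYm : ∀ z : ℂ, z.im < 0 → HD Ym (Gm A B z * Ym z) z) (hYm0 : ∀ z : ℂ, z.im < 0 → ‖z‖ < 1 → Yf A H z = Ym z) :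
    ∃ Fl Wl Yl : ℂ → Matrix (Fin n) (Fin n) ℂ, Ch {z : ℂ | z.re < 0} (Gm A B) Fl Wl ∧ (∀ z : ℂ, z.re < 0 → HD Yl (Gm A B z * Yl z) z) ∧
      (∀ z : ℂ, z.re < 0 → 0 < z.im → Yl z = Yp z) ∧
      ∀ z : ℂ, z.re < 0 → z.im < 0 → Yl z = Ym z * E A (2 * Real.pi * Complex.I) := by
  obtain ⟨Fl, Wl, hcl⟩ := chart_left hChart A B
  set YL : ℂ → Matrix (Fin n) (Fin n) ℂ := fun z => Hf H z * E A (Complex.log (-z) + Real.pi * Complex.I) with hYL
  set w : ℂ := -(1 / 2) with hw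
  have hwr : w.re < 0 := by rw [hw]; norm_num
  have hwn : ‖w‖ < 1 := by rw [hw]; norm_num
  have hYl : ∀ z : ℂ, z.re < 0 → HD (fun z => Fl z * (Wl w * YL w)) (Gm A B z * (Fl z * (Wl w * YL w))) z := by
    intro z hz
    have h1 := HD_mul_right (hcl.hF z hz) (Wl w * YL w)
    rw [Matrix.mul_assoc] at h1
    exact h1
  have hYl0 : ∀ z : ℂ, z.re < 0 → ‖z‖ < 1 → YL z = Fl z * (Wl w * YL w) := by
    intro z hz hz1
    have hSo : IsOpen ({z : ℂ | z.re < 0} ∩ Metric.ball 0 1) := (op_re_lt 0).inter Metric.isOpen_ball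
    have hSc : IsPreconnected ({z : ℂ | z.re < 0} ∩ Metric.ball (0 : ℂ) 1) := ((conv_re_lt 0).inter (convex_ball _ _)).isPreconnected
    have hb : ∀ z : ℂ, z ∈ {z : ℂ | z.re < 0} ∩ Metric.ball (0 : ℂ) 1 ↔ z.re < 0 ∧ ‖z‖ < 1 := by
      intro z
      rw [Set.mem_inter_iff, Metric.mem_ball, dist_zero_right]
      exact Iff.rfl
    have h1 := pair_const hSo hSc (fun z hz => hcl.hW z ((hb z).1 hz).1) (fun z hz => YL_ode hA hH ((hb z).1 hz).2 ((hb z).1 hz).1)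
      ((hb z).2 ⟨hz, hz1⟩) ((hb w).2 ⟨hwr, hwn⟩)
    have h2 : Wl w * YL w = Wl z * YL z := h1.symm
    rw [h2, ← Matrix.mul_assoc, mul_eq_one_comm.1 (hcl.inv z hz), Matrix.one_mul]
  refine ⟨Fl, Wl, fun z => Fl z * (Wl w * YL w), hcl, hYl, fun z hz1 hz2 => ?_, fun z hz1 hz2 => ?_⟩
  · set v : ℂ := ⟨-(1 / 2), 1 / 2⟩ with hv
    have hvn : ‖v‖ < 1 := by
      have h1 : ‖v‖ < ‖(1 : ℂ)‖ := norm_lt_of_normSq (by rw [hv]; simp [Complex.normSq_apply]; norm_num)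
      rwa [norm_one] at h1
    have hvr : v.re < 0 := by rw [hv]; norm_num
    have hvi : 0 < v.im := by rw [hv]; norm_num
    refine sol_uniq (S := {z : ℂ | z.re < 0} ∩ {z : ℂ | 0 < z.im}) ((op_re_lt 0).inter (op_im_gt 0))
      ((conv_re_lt 0).inter (conv_im_gt 0)).isPreconnected (fun z hz => hcp.hW z hz.2) (fun z hz => hcp.inv z hz.2)
      (fun z hz => hYl z hz.1) (fun z hz => hYp z hz.2) (w := v) ⟨hvr, hvi⟩ ?_ z ⟨hz1, hz2⟩
    show Fl v * (Wl w * YL w) = Yp v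
    rw [← hYl0 v hvr hvn, ← hYp0 v hvi hvn, hYL]
    simp only
    rw [log_neg_of_im_pos hvi, sub_add_cancel]
    rfl
  · set v : ℂ := ⟨-(1 / 2), -(1 / 2)⟩ with hv
    have hvn : ‖v‖ < 1 := by
      have h1 : ‖v‖ < ‖(1 : ℂ)‖ := norm_lt_of_normSq (by rw [hv]; simp [Complex.normSq_apply]; norm_num)
      rwa [norm_one] at h1
    have hvr : v.re < 0 := by rw [hv]; norm_num
    have hvi : v.im < 0 := by rw [hv]; norm_num
    refine sol_uniq (S := {z : ℂ | z.re < 0} ∩ {z : ℂ | z.im < 0}) (G₂ := fun z => Ym z * E A (2 * Real.pi * Complex.I))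
      ((op_re_lt 0).inter (op_im_lt 0))
      ((conv_re_lt 0).inter (conv_im_lt 0)).isPreconnected (fun z hz => hcm.hW z hz.2) (fun z hz => hcm.inv z hz.2)
      (fun z hz => hYl z hz.1) (fun z hz => ?_) (w := v) ⟨hvr, hvi⟩ ?_ z ⟨hz1, hz2⟩
    · have h1 := HD_mul_right (hYm z hz.2) (E A (2 * Real.pi * Complex.I))
      rw [Matrix.mul_assoc] at h1
      exact h1
    · show Fl v * (Wl w * YL w) = Ym v * E A (2 * Real.pi * Complex.I)
      rw [← hYl0 v hvr hvn, ← hYm0 v hvi hvn, hYL]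
      simp only
      unfold Yf
      rw [log_neg_of_im_neg hvi, Matrix.mul_assoc, ← E_add hA]
      congr 2
      ring

end near

section inf

variable {A B : Matrix (Fin n) (Fin n) ℂ} {H K : ℕ → Matrix (Fin n) (Fin n) ℂ} {F : ℂ → Matrix (Fin n) (Fin n) ℂ}

/-- the solution at infinity -/
noncomputable def Zi' (K : ℕ → Matrix (Fin n) (Fin n) ℂ) (F : ℂ → Matrix (Fin n) (Fin n) ℂ) (τ : ℂ) : Matrix (Fin n) (Fin n) ℂ :=
  Hf K (Complex.exp (-τ)) * F (-τ)

lemma exp_neg_lt {τ : ℂ} (h : 0 < τ.re) : ‖Complex.exp (-τ)‖ < 1 := by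
  rw [Complex.norm_exp, Complex.neg_re]
  exact Real.exp_lt_one_iff.2 (by linarith)

lemma Z_ode (hK : Sol (B - A) B K) (hN : NR (B - A)) (hF : ∀ s, HD F ((B - A) * F s) s) {τ : ℂ} (hτ : 0 < τ.re) :
    HD (Zi' K F) ((Complex.exp τ • Gm A B (Complex.exp τ)) * Zi' K F τ) τ := by
  set w : ℂ := Complex.exp (-τ) with hw
  have hw1 : ‖w‖ < 1 := exp_neg_lt hτ
  have hw0 : w ≠ 0 := Complex.exp_ne_zero _
  have h1 : HD (Hf K) ((1 / w) • ((B - A) * Hf K w - Hf K w * (B - A)) + (1 / (1 - w)) • (B * Hf K w)) w :=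
    HfR_ode hK (fun i j => growthR hK hN i j) hw1 hw0
  have hd : HasDerivAt (fun τ : ℂ => Complex.exp (-τ)) (-w) τ := by
    have h2 : HasDerivAt (fun τ : ℂ => -τ) (-1) τ := (hasDerivAt_id τ).neg
    refine h2.cexp.congr_deriv ?_
    rw [mul_neg, mul_one]
  have h2 := HD.comp (f := fun τ : ℂ => Complex.exp (-τ)) (A := Hf K) h1 hd
  have h3 := HD.comp (f := fun τ : ℂ => -τ) (A := F) (hF (-τ)) ((hasDerivAt_id τ).neg)
  refine (h2.mul h3).congr ?_
  have h1w : (1 : ℂ) - w ≠ 0 := by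
    intro h0
    have h4 : w = 1 := by linear_combination -h0
    rw [h4, norm_one] at hw1
    exact lt_irrefl _ hw1
  have he : Complex.exp τ = 1 / w := by
    rw [hw, Complex.exp_neg, one_div, inv_inv]
  have h1z : (1 : ℂ) - 1 / w ≠ 0 := by
    intro h0
    apply h1w
    field_simp at h0
    linear_combination -h0
  unfold Zi' Gm
  rw [← hw, he]
  have c1 : (1 / w : ℂ) * (1 / (1 / w)) = 1 := by field_simp
  have c2 : (1 / w : ℂ) * (1 / (1 - 1 / w)) = -(1 / (1 - w)) := by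
    rw [div_mul_div_comm, one_mul, mul_sub, mul_one, mul_one_div_cancel hw0, ← neg_sub 1 w, div_neg]
  have c3 : (-w) * (1 / w) = (-1 : ℂ) := by field_simp
  have c4 : (-w) * (1 / (1 - w)) = 1 - 1 / (1 - w) := by
    field_simp
    ring
  simp only [smul_add, smul_smul, c1, c2, c3, c4, add_mul, sub_mul, mul_sub, smul_mul_assoc, mul_smul_comm, smul_sub, Matrix.mul_assoc]
  module

lemma Z_inv (hK : Sol (B - A) B K) (hN : NR (B - A)) (hF0 : F 0 = 1) (hFa : ∀ s t, F (s + t) = F s * F t) :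
    ∃ Z' : ℂ → Matrix (Fin n) (Fin n) ℂ, ∀ τ : ℂ, 0 < τ.re → Z' τ * Zi' K F τ = 1 := by
  obtain ⟨WT, hWT⟩ := exists_solR (nrT hN) (-Bᵀ)
  have hW : SolL (B - A) B (fun k => (WT k)ᵀ) := hWT
  refine ⟨fun τ => F τ * Hf (fun k => (WT k)ᵀ) (Complex.exp (-τ)), fun τ hτ => ?_⟩
  have h1 := Hf_inv hK hW hN (exp_neg_lt hτ)
  have h2 : F τ * F (-τ) = 1 := by rw [← hFa, add_neg_cancel, hF0]
  unfold Zi'
  calc _ = F τ * (Hf (fun k => (WT k)ᵀ) (Complex.exp (-τ)) * Hf K (Complex.exp (-τ))) * F (-τ) := by simp only [Matrix.mul_assoc]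
    _ = 1 := by rw [h1, Matrix.mul_one, h2]

lemma Z_per (hFa : ∀ s t, F (s + t) = F s * F t) (τ : ℂ) :
    Zi' K F (τ + 2 * Real.pi * Complex.I) = Zi' K F τ * F (-(2 * Real.pi * Complex.I)) := by
  unfold Zi'
  have e1 : Complex.exp (-(τ + 2 * Real.pi * Complex.I)) = Complex.exp (-τ) := by
    rw [Complex.exp_neg, exp_2pi, Complex.exp_neg]
  have e2 : -(τ + 2 * Real.pi * Complex.I) = -τ + -(2 * Real.pi * Complex.I) := by ring
  rw [e1, e2, hFa, Matrix.mul_assoc]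

lemma Ch.exp {U : Set ℂ} {N F W : ℂ → Matrix (Fin n) (Fin n) ℂ} (hc : Ch U N F W) {S : Set ℂ} (hS : ∀ τ ∈ S, Complex.exp τ ∈ U) :
    Ch S (fun τ => Complex.exp τ • N (Complex.exp τ)) (fun τ => F (Complex.exp τ)) fun τ => W (Complex.exp τ) := by
  refine ⟨fun τ hτ => ?_, fun τ hτ => ?_, fun τ hτ => hc.inv _ (hS τ hτ)⟩
  · refine (HD.comp (f := Complex.exp) (hc.hF _ (hS τ hτ)) (Complex.hasDerivAt_exp τ)).congr ?_
    rw [Matrix.smul_mul]
  · refine (HD.comp (f := Complex.exp) (hc.hW _ (hS τ hτ)) (Complex.hasDerivAt_exp τ)).congr ?_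
    rw [Matrix.mul_smul, smul_neg]

lemma HD_exp {U : Set ℂ} {N Y : ℂ → Matrix (Fin n) (Fin n) ℂ} (hY : ∀ z ∈ U, HD Y (N z * Y z) z) {S : Set ℂ}
    (hS : ∀ τ ∈ S, Complex.exp τ ∈ U) : ∀ τ ∈ S, HD (fun τ => Y (Complex.exp τ))
      ((Complex.exp τ • N (Complex.exp τ)) * Y (Complex.exp τ)) τ := by
  intro τ hτ
  refine (HD.comp (f := Complex.exp) (hY _ (hS τ hτ)) (Complex.hasDerivAt_exp τ)).congr ?_
  rw [Matrix.smul_mul]

end inf

end Q207.HM
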