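import Pool.Agent.Q207.HM.Glu

/-!
# The monodromy around infinity is the product of the monodromies around zero and one
-/

set_option autoImplicit false

open Filter Topology Matrix

namespace Q207.HM

open Pool.Agent.Y119.HY (HD Gm E E_HD E_add E_zero Sol Hf Yf Yf_ode Lens mem_Lens real_mem_Lens isOpen_Lens slit_Lens symm_Lens preconn_Lens)

variable {n : ℕ} {A B : Matrix (Fin n) (Fin n) ℂ} {H K : ℕ → Matrix (Fin n) (Fin n) ℂ} {F : ℂ → Matrix (Fin n) (Fin n) ℂ}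
  {R : ℤ → Matrix (Fin n) (Fin n) ℂ}

lemma exp_re_im (τ : ℂ) : (Complex.exp τ).re = Real.exp τ.re * Real.cos τ.im ∧ (Complex.exp τ).im = Real.exp τ.re * Real.sin τ.im :=
  ⟨Complex.exp_re τ, Complex.exp_im τ⟩

lemma log_exp' {τ : ℂ} (h1 : -Real.pi < τ.im) (h2 : τ.im ≤ Real.pi) : Complex.log (Complex.exp τ) = τ := Complex.log_exp h1 h2

/-- **The monodromy around infinity.** -/
theorem glue (hChart : Lv.S_Chart) (hA : A ^ n = 0) (hH : Sol A B H) (hR : LM (Yf A H) R) (hK : Sol (B - A) B K) (hN : NR (B - A))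
    (hF0 : F 0 = 1) (hFa : ∀ s t, F (s + t) = F s * F t) (hFd : ∀ s, HD F ((B - A) * F s) s) :
    ∃ C Ci : Matrix (Fin n) (Fin n) ℂ, C * Ci = 1 ∧ Ci * C = 1 ∧
      R 1 * E A (2 * Real.pi * Complex.I) = Ci * F (-(2 * Real.pi * Complex.I)) * C := by
  have hpi := Real.pi_pos
  have hpi3 := Real.pi_gt_three
  obtain ⟨Φ, hΦ, hΦR, hΦY⟩ := hR
  obtain ⟨Fp, Wp, hcp⟩ := chart_up hChart A B
  obtain ⟨Fm, Wm, hcm⟩ := chart_low hChart A B
  have slit_im : ∀ z : ℂ, z.im ≠ 0 → z ∈ Complex.slitPlane := fun z h => Or.inr h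
  -- the continuations to the half planes
  obtain ⟨Yp, hYp, hYp0⟩ := ext0 hA hH (op_im_gt 0) hcp (conv_im_gt 0) (fun z hz => slit_im z (ne_of_gt hz)) (w := ⟨1 / 2, 1 / 4⟩)
    (by show (0 : ℝ) < 1 / 4; norm_num) (by
      have h1 : ‖(⟨1 / 2, 1 / 4⟩ : ℂ)‖ < ‖(1 : ℂ)‖ := norm_lt_of_normSq (by simp [Complex.normSq_apply]; norm_num)
      rwa [norm_one] at h1)
  obtain ⟨Ym, hYm, hYm0⟩ := ext0 hA hH (op_im_lt 0) hcm (conv_im_lt 0) (fun z hz => slit_im z (ne_of_lt hz)) (w := ⟨1 / 2, -(1 / 4)⟩)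
    (by show -(1 / 4) < (0 : ℝ); norm_num) (by
      have h1 : ‖(⟨1 / 2, -(1 / 4)⟩ : ℂ)‖ < ‖(1 : ℂ)‖ := norm_lt_of_normSq (by simp [Complex.normSq_apply]; norm_num)
      rwa [norm_one] at h1)
  have hlen : ∀ y : ℝ, y ^ 2 = 1 / 16 → (⟨1 / 2, y⟩ : ℂ) ∈ Lens := by
    intro y hy
    rw [mem_Lens]
    have h1 : ‖(⟨1 / 2, y⟩ : ℂ)‖ < ‖(1 : ℂ)‖ := norm_lt_of_normSq (by
      simp only [Complex.normSq_apply, Complex.one_re, Complex.one_im]
      nlinarith)
    have h2 : ‖1 - (⟨1 / 2, y⟩ : ℂ)‖ < ‖(1 : ℂ)‖ := norm_lt_of_normSq (by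
      simp only [Complex.normSq_apply, Complex.one_re, Complex.one_im, Complex.sub_re, Complex.sub_im]
      nlinarith)
    rw [norm_one] at h1 h2
    exact ⟨h1, h2⟩
  have slit1 : ∀ z : ℂ, z.im ≠ 0 → 1 - z ∈ Complex.slitPlane := by
    intro z h
    refine slit_im _ ?_
    rw [Complex.sub_im, Complex.one_im, zero_sub]
    exact neg_ne_zero.2 h
  have hp1 := ext1 hA hH hΦ hΦY (op_im_gt 0) (conv_im_gt 0) (fun z hz => slit1 z (ne_of_gt hz)) (w := ⟨1 / 2, 1 / 4⟩)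
    (by show (0 : ℝ) < 1 / 4; norm_num) (hlen _ (by norm_num)) hYp hYp0
  have hm1 := ext1 hA hH hΦ hΦY (op_im_lt 0) (conv_im_lt 0) (fun z hz => slit1 z (ne_of_lt hz)) (w := ⟨1 / 2, -(1 / 4)⟩)
    (by show -(1 / 4) < (0 : ℝ); norm_num) (hlen _ (by norm_num)) hYm hYm0
  obtain ⟨Fl, Wl, Yl, hcl, hYl, hlp, hlm⟩ := ext_left hChart hA hH hcp hcm hYp hYp0 hYm hYm0
  obtain ⟨Z', hZ'⟩ := Z_inv hK hN hF0 hFa
  set Z := Zi' K F with hZ
  set M := E A (2 * Real.pi * Complex.I) with hM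
  have hre : ∀ a : ℝ, Convex ℝ {z : ℂ | a < z.re} := conv_re_gt
  -- the upper strip
  set T₁ : ℂ := ⟨1, 3 / 4 * Real.pi⟩ with hT₁
  set C : Matrix (Fin n) (Fin n) ℂ := Z' T₁ * Yp (Complex.exp T₁) with hC
  have hT₁r : 0 < T₁.re := by rw [hT₁]; norm_num
  have hZC : ∀ τ : ℂ, 0 < τ.re → HD (fun τ => Z τ * C) ((Complex.exp τ • Gm A B (Complex.exp τ)) * (Z τ * C)) τ := by
    intro τ hτ
    have h1 := HD_mul_right (Z_ode hK hN hFd hτ) C
    rw [Matrix.mul_assoc] at h1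
    exact h1
  have hsin : ∀ y : ℝ, 0 < y → y < Real.pi → 0 < Real.sin y := fun y h1 h2 => Real.sin_pos_of_pos_of_lt_pi h1 h2
  have hSp : ∀ τ ∈ {z : ℂ | 0 < z.re} ∩ ({z : ℂ | 0 < z.im} ∩ {z : ℂ | z.im < Real.pi}), Complex.exp τ ∈ {z : ℂ | 0 < z.im} := by
    rintro τ ⟨-, h1, h2⟩
    show 0 < (Complex.exp τ).im
    rw [Complex.exp_im]
    exact mul_pos (Real.exp_pos _) (hsin _ h1 h2)
  have hcS := hcp.exp hSp
  have hup : ∀ τ ∈ {z : ℂ | 0 < z.re} ∩ ({z : ℂ | 0 < z.im} ∩ {z : ℂ | z.im < Real.pi}), Z τ * C = Yp (Complex.exp τ) := by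
    refine sol_uniq ((op_re_gt 0).inter ((op_im_gt 0).inter (op_im_lt Real.pi)))
      ((conv_re_gt 0).inter ((conv_im_gt 0).inter (conv_im_lt Real.pi))).isPreconnected hcS.hW hcS.inv
      (fun τ hτ => hZC τ hτ.1) (HD_exp hYp hSp) (w := T₁) ⟨hT₁r, ?_, ?_⟩ ?_
    · show 0 < 3 / 4 * Real.pi
      positivity
    · show 3 / 4 * Real.pi < Real.pi
      linarith
    · rw [hC, ← Matrix.mul_assoc, mul_eq_one_comm.1 (hZ' T₁ hT₁r), Matrix.one_mul]
  -- the left strip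
  have hSl : ∀ τ ∈ {z : ℂ | 0 < z.re} ∩ ({z : ℂ | Real.pi / 2 < z.im} ∩ {z : ℂ | z.im < Real.pi + Real.pi / 2}),
      Complex.exp τ ∈ {z : ℂ | z.re < 0} := by
    rintro τ ⟨-, h1, h2⟩
    show (Complex.exp τ).re < 0
    rw [Complex.exp_re]
    exact mul_neg_of_pos_of_neg (Real.exp_pos _) (Real.cos_neg_of_pi_div_two_lt_of_lt h1 h2)
  have hcL := hcl.exp hSl
  have hleft : ∀ τ ∈ {z : ℂ | 0 < z.re} ∩ ({z : ℂ | Real.pi / 2 < z.im} ∩ {z : ℂ | z.im < Real.pi + Real.pi / 2}),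
      Z τ * C = Yl (Complex.exp τ) := by
    have hmem : T₁ ∈ {z : ℂ | 0 < z.re} ∩ ({z : ℂ | Real.pi / 2 < z.im} ∩ {z : ℂ | z.im < Real.pi + Real.pi / 2}) := by
      refine ⟨hT₁r, ?_, ?_⟩
      · show Real.pi / 2 < 3 / 4 * Real.pi
        linarith
      · show 3 / 4 * Real.pi < Real.pi + Real.pi / 2
        linarith
    have hmem' : T₁ ∈ {z : ℂ | 0 < z.re} ∩ ({z : ℂ | 0 < z.im} ∩ {z : ℂ | z.im < Real.pi}) := by
      refine ⟨hT₁r, ?_, ?_⟩
      · show 0 < 3 / 4 * Real.pi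
        positivity
      · show 3 / 4 * Real.pi < Real.pi
        linarith
    refine sol_uniq ((op_re_gt 0).inter ((op_im_gt (Real.pi / 2)).inter (op_im_lt (Real.pi + Real.pi / 2))))
      ((conv_re_gt 0).inter ((conv_im_gt (Real.pi / 2)).inter (conv_im_lt (Real.pi + Real.pi / 2)))).isPreconnected hcL.hW hcL.inv
      (fun τ hτ => hZC τ hτ.1) (HD_exp (U := {z : ℂ | z.re < 0}) hYl hSl) (w := T₁) hmem ?_
    rw [hup T₁ hmem']
    exact (hlp _ (hSl T₁ hmem) (hSp T₁ hmem')).symm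
  -- the lower strip
  have hSm : ∀ τ ∈ {z : ℂ | 0 < z.re} ∩ ({z : ℂ | Real.pi < z.im} ∩ {z : ℂ | z.im < 2 * Real.pi}), Complex.exp τ ∈ {z : ℂ | z.im < 0} := by
    rintro τ ⟨-, h1, h2⟩
    show (Complex.exp τ).im < 0
    rw [Complex.exp_im]
    have h1' : Real.pi < τ.im := h1
    have h2' : τ.im < 2 * Real.pi := h2
    have h3 := hsin (τ.im - Real.pi) (by linarith) (by linarith)
    rw [Real.sin_sub_pi] at h3
    exact mul_neg_of_pos_of_neg (Real.exp_pos _) (by linarith)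
  have hcM := hcm.exp hSm
  have hlow : ∀ τ ∈ {z : ℂ | 0 < z.re} ∩ ({z : ℂ | Real.pi < z.im} ∩ {z : ℂ | z.im < 2 * Real.pi}), Z τ * C = Ym (Complex.exp τ) * M := by
    set T₂ : ℂ := ⟨1, 5 / 4 * Real.pi⟩ with hT₂
    have hT₂r : 0 < T₂.re := by rw [hT₂]; norm_num
    have hmem : T₂ ∈ {z : ℂ | 0 < z.re} ∩ ({z : ℂ | Real.pi / 2 < z.im} ∩ {z : ℂ | z.im < Real.pi + Real.pi / 2}) := by
      refine ⟨hT₂r, ?_, ?_⟩
      · show Real.pi / 2 < 5 / 4 * Real.pi
        linarith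
      · show 5 / 4 * Real.pi < Real.pi + Real.pi / 2
        linarith
    have hmem' : T₂ ∈ {z : ℂ | 0 < z.re} ∩ ({z : ℂ | Real.pi < z.im} ∩ {z : ℂ | z.im < 2 * Real.pi}) := by
      refine ⟨hT₂r, ?_, ?_⟩
      · show Real.pi < 5 / 4 * Real.pi
        linarith
      · show 5 / 4 * Real.pi < 2 * Real.pi
        linarith
    refine sol_uniq ((op_re_gt 0).inter ((op_im_gt Real.pi).inter (op_im_lt (2 * Real.pi))))
      ((conv_re_gt 0).inter ((conv_im_gt Real.pi).inter (conv_im_lt (2 * Real.pi)))).isPreconnected hcM.hW hcM.inv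
      (fun τ hτ => hZC τ hτ.1) (HD_exp (U := {z : ℂ | z.im < 0}) (Y := fun z => Ym z * M) (fun z hz => ?_) hSm) (w := T₂) hmem' ?_
    · have h1 := HD_mul_right (hYm z hz) M
      rw [Matrix.mul_assoc] at h1
      exact h1
    · show Z T₂ * C = Ym (Complex.exp T₂) * M
      rw [hleft T₂ hmem]
      exact hlm _ (hSl T₂ hmem) (hSm T₂ hmem')
  -- the ball around `3/2`
  have hball : ∀ z ∈ Metric.ball (3 / 2 : ℂ) (1 / 2), 1 < z.re ∧ ‖z - 1‖ < 1 ∧ 1 < ‖z‖ := by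
    intro z hz
    rw [Metric.mem_ball, dist_eq_norm] at hz
    have h1 : (3 / 2 - z).re ≤ ‖3 / 2 - z‖ := Complex.re_le_norm _
    rw [norm_sub_rev] at h1
    have h2 : (3 / 2 - z).re = 3 / 2 - z.re := by
      rw [Complex.sub_re]
      norm_num
    rw [h2] at h1
    have h3 : 1 < z.re := by linarith
    refine ⟨h3, ?_, ?_⟩
    · calc ‖z - 1‖ = ‖(z - 3 / 2) + 1 / 2‖ := by
            congr 1
            ring
        _ ≤ ‖z - 3 / 2‖ + ‖(1 / 2 : ℂ)‖ := norm_add_le _ _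
        _ < 1 := by
          have : ‖(1 / 2 : ℂ)‖ = 1 / 2 := by norm_num
          rw [this]
          linarith
    · exact lt_of_lt_of_le h3 (Complex.re_le_norm z)
  have hzs : ∀ z ∈ Metric.ball (3 / 2 : ℂ) (1 / 2), z ∈ Complex.slitPlane := fun z hz => Or.inl (by linarith [(hball z hz).1])
  have hz1s : ∀ z ∈ Metric.ball (3 / 2 : ℂ) (1 / 2), z - 1 ∈ Complex.slitPlane := fun z hz => Or.inl (by
    rw [Complex.sub_re, Complex.one_re]
    linarith [(hball z hz).1])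
  have hlogr : ∀ z ∈ Metric.ball (3 / 2 : ℂ) (1 / 2), 0 < (Complex.log z).re := by
    intro z hz
    rw [Complex.log_re]
    exact Real.log_pos (hball z hz).2.2
  have hlog1r : ∀ z ∈ Metric.ball (3 / 2 : ℂ) (1 / 2), (Complex.log (z - 1) - Real.pi * Complex.I).re < 0 := by
    intro z hz
    have e1 : (Complex.log (z - 1) - Real.pi * Complex.I).re = Real.log ‖z - 1‖ := by
      rw [Complex.sub_re, Complex.log_re]
      simp
    rw [e1]
    exact Real.log_neg (norm_pos_iff.2 (Complex.slitPlane_ne_zero (hz1s z hz))) (hball z hz).2.1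
  have hZa : ∀ i j, AnalyticOnNhd ℂ (fun z => (Z (Complex.log z) * C) i j) (Metric.ball (3 / 2 : ℂ) (1 / 2)) := by
    intro i j z hz
    have h1 : AnalyticOnNhd ℂ (fun τ => (Z τ * C) i j) {τ : ℂ | 0 < τ.re} := HD_an (op_re_gt 0) (fun τ hτ => hZC τ hτ) i j
    have h2 : AnalyticAt ℂ (fun z : ℂ => Complex.log z) z := analyticAt_id.clog (hzs z hz)
    have h3 : AnalyticAt ℂ (fun τ => (Z τ * C) i j) ((fun z : ℂ => Complex.log z) z) := h1 _ (hlogr z hz)
    exact AnalyticAt.comp (g := fun τ => (Z τ * C) i j) (f := fun z : ℂ => Complex.log z) h3 h2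
  have hPa : ∀ i j, AnalyticOnNhd ℂ (fun z => Φ (Complex.log (z - 1) - Real.pi * Complex.I) i j) (Metric.ball (3 / 2 : ℂ) (1 / 2)) := by
    intro i j z hz
    have h2 : AnalyticAt ℂ (fun z : ℂ => Complex.log (z - 1) - Real.pi * Complex.I) z :=
      ((analyticAt_id.sub analyticAt_const).clog (hz1s z hz)).sub analyticAt_const
    have h3 : AnalyticAt ℂ (fun τ => Φ τ i j) ((fun z : ℂ => Complex.log (z - 1) - Real.pi * Complex.I) z) := hΦ i j _ (hlog1r z hz)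
    exact AnalyticAt.comp (g := fun τ => Φ τ i j) (f := fun z : ℂ => Complex.log (z - 1) - Real.pi * Complex.I) h3 h2
  have hlogim : ∀ z : ℂ, 0 < z.im → 0 < (Complex.log z).im ∧ (Complex.log z).im < Real.pi := by
    intro z hz
    rw [Complex.log_im]
    constructor
    · rcases (Complex.arg_nonneg_iff.2 hz.le).eq_or_lt with h | h
      · have := Complex.arg_eq_zero_iff.1 h.symm
        exact absurd this.2 (ne_of_gt hz)
      · exact h
    · exact Complex.arg_lt_pi_iff.2 (Or.inr (ne_of_gt hz))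
  have hconn : ∀ z ∈ Metric.ball (3 / 2 : ℂ) (1 / 2), Z (Complex.log z) * C = Φ (Complex.log (z - 1) - Real.pi * Complex.I) := by
    intro z hz
    ext i j
    have hv : (⟨3 / 2, 1 / 4⟩ : ℂ) ∈ Metric.ball (3 / 2 : ℂ) (1 / 2) := by
      rw [Metric.mem_ball, dist_eq_norm]
      have h1 : ‖(⟨3 / 2, 1 / 4⟩ : ℂ) - 3 / 2‖ < ‖(1 / 2 : ℂ)‖ := norm_lt_of_normSq (by
        have e1 : (3 / 2 : ℂ).re = 3 / 2 := by norm_num
        have e2 : (3 / 2 : ℂ).im = 0 := by norm_num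
        have e3 : (1 / 2 : ℂ).re = 1 / 2 := by norm_num
        have e4 : (1 / 2 : ℂ).im = 0 := by norm_num
        simp only [Complex.normSq_apply, Complex.sub_re, Complex.sub_im, e1, e2, e3, e4]
        norm_num)
      have h2 : ‖(1 / 2 : ℂ)‖ = 1 / 2 := by norm_num
      rwa [h2] at h1
    refine (hZa i j).eqOn_of_preconnected_of_eventuallyEq (hPa i j) (convex_ball _ _).isPreconnected hv ?_ hz
    have hvi : (⟨3 / 2, 1 / 4⟩ : ℂ) ∈ {z : ℂ | 0 < z.im} := by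
      show (0 : ℝ) < 1 / 4
      norm_num
    filter_upwards [Metric.isOpen_ball.mem_nhds hv, (op_im_gt 0).mem_nhds hvi] with x hx hxi
    have hxi' : 0 < x.im := hxi
    obtain ⟨h1, h2, h3⟩ := hball x hx
    have e1 := hup (Complex.log x) ⟨hlogr x hx, hlogim x hxi'⟩
    rw [Complex.exp_log (Complex.slitPlane_ne_zero (hzs x hx))] at e1
    have e2 := hp1 x hxi (by rw [norm_sub_rev]; exact h2)
    have e3 : Complex.log (1 - x) = Complex.log (x - 1) - Real.pi * Complex.I := by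
      rw [← log_neg_of_im_pos (by rw [Complex.sub_im, Complex.one_im, sub_zero]; exact hxi'), neg_sub]
    rw [e3] at e2
    rw [e1, e2]
  -- the final relation
  set v : ℂ := ⟨3 / 2, -(1 / 4)⟩ with hvd
  have hv : v ∈ Metric.ball (3 / 2 : ℂ) (1 / 2) := by
    rw [Metric.mem_ball, dist_eq_norm]
    have h1 : ‖v - 3 / 2‖ < ‖(1 / 2 : ℂ)‖ := norm_lt_of_normSq (by
      have e1 : (3 / 2 : ℂ).re = 3 / 2 := by norm_num
      have e2 : (3 / 2 : ℂ).im = 0 := by norm_num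
      have e3 : (1 / 2 : ℂ).re = 1 / 2 := by norm_num
      have e4 : (1 / 2 : ℂ).im = 0 := by norm_num
      rw [hvd]
      simp only [Complex.normSq_apply, Complex.sub_re, Complex.sub_im, e1, e2, e3, e4]
      norm_num)
    have h2 : ‖(1 / 2 : ℂ)‖ = 1 / 2 := by norm_num
    rwa [h2] at h1
  have hvi : v.im < 0 := by rw [hvd]; norm_num
  obtain ⟨g1, g2, g3⟩ := hball v hv
  have hlv : Complex.log (v - 1) - Real.pi * Complex.I = Complex.log (1 - v) + 2 * Real.pi * Complex.I * ((-1 : ℤ) : ℂ) := by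
    have e3 : Complex.log (1 - v) = Complex.log (v - 1) + Real.pi * Complex.I := by
      rw [← log_neg_of_im_neg (by rw [Complex.sub_im, Complex.one_im, sub_zero]; exact hvi), neg_sub]
    rw [e3]
    push_cast
    ring
  have hre1 : (Complex.log (1 - v)).re < 0 := by
    rw [Complex.log_re, norm_sub_rev]
    exact Real.log_neg (norm_pos_iff.2 (Complex.slitPlane_ne_zero (hz1s v hv))) g2
  have f1 : Z (Complex.log v) * C = Ym v * R (-1) := by
    rw [hconn v hv, hlv, hΦR _ hre1, hm1 v hvi (by rw [norm_sub_rev]; exact g2)]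
  have hlogv : -Real.pi < (Complex.log v).im ∧ (Complex.log v).im < 0 := by
    rw [Complex.log_im]
    refine ⟨Complex.neg_pi_lt_arg v, ?_⟩
    exact Complex.arg_neg_iff.2 hvi
  have f2 : Z (Complex.log v + 2 * Real.pi * Complex.I) * C = Ym v * M := by
    have him : (Complex.log v + 2 * Real.pi * Complex.I).im = (Complex.log v).im + 2 * Real.pi := by
      simp
    have hrr : (Complex.log v + 2 * Real.pi * Complex.I).re = (Complex.log v).re := by
      simp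
    have h1 := hlow (Complex.log v + 2 * Real.pi * Complex.I) ⟨by
      show 0 < (Complex.log v + 2 * Real.pi * Complex.I).re
      rw [hrr]
      exact hlogr v hv, by
      show Real.pi < (Complex.log v + 2 * Real.pi * Complex.I).im
      rw [him]
      linarith [hlogv.1], by
      show (Complex.log v + 2 * Real.pi * Complex.I).im < 2 * Real.pi
      rw [him]
      linarith [hlogv.2]⟩
    rw [exp_2pi, Complex.exp_log (Complex.slitPlane_ne_zero (hzs v hv))] at h1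
    exact h1
  rw [hZ, Z_per hFa, ← hZ] at f2
  -- inverses
  obtain ⟨WT, hWT⟩ := exists_solR (nrT (nr_nil hA)) (-Bᵀ)
  have hWH : SolL A B (fun k => (WT k)ᵀ) := hWT
  have hYi : ∀ z : ℂ, ‖z‖ < 1 → ∃ X, X * Yf A H z = 1 := by
    intro z hz
    refine ⟨E A (-Complex.log z) * Hf (fun k => (WT k)ᵀ) z, ?_⟩
    have h1 := Hf_inv hH hWH (nr_nil hA) hz
    have h2 : E A (-Complex.log z) * E A (Complex.log z) = 1 := by
      rw [← E_add hA, neg_add_cancel, E_zero hA]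
    unfold Yf
    calc _ = E A (-Complex.log z) * (Hf (fun k => (WT k)ᵀ) z * Hf H z) * E A (Complex.log z) := by simp only [Matrix.mul_assoc]
      _ = 1 := by rw [h1, Matrix.mul_one, h2]
  obtain ⟨Yi, hYiv⟩ : ∃ X, X * Ym v = 1 := by
    have hwi : (⟨1 / 2, -(1 / 4)⟩ : ℂ).im < 0 := by norm_num
    obtain ⟨X, hX⟩ := hYi ⟨1 / 2, -(1 / 4)⟩ (mem_Lens.1 (hlen _ (by norm_num))).1
    rw [hYm0 _ hwi (mem_Lens.1 (hlen _ (by norm_num))).1] at hX
    have h1 := pair_const (op_im_lt 0) (conv_im_lt 0).isPreconnected hcm.hW hYm (z := v) (w := ⟨1 / 2, -(1 / 4)⟩) hvi hwi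
    have h2 := mul_eq_one_comm.1 (hcm.inv (⟨1 / 2, -(1 / 4)⟩ : ℂ) hwi)
    refine ⟨X * Fm ⟨1 / 2, -(1 / 4)⟩ * Wm v, ?_⟩
    rw [Matrix.mul_assoc, h1, Matrix.mul_assoc, ← Matrix.mul_assoc (Fm _), h2, Matrix.one_mul, hX]
  have hRR : R 1 * R (-1) = 1 := by
    obtain ⟨X, hX⟩ := hYi ((1 / 2 : ℝ) : ℂ) (mem_Lens.1 (real_mem_Lens (by norm_num) (by norm_num))).1
    rw [hΦY (1 / 2) (by norm_num) (by norm_num)] at hX
    set τ₀ := Complex.log (1 - ((1 / 2 : ℝ) : ℂ)) with hτ₀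
    have hr : τ₀.re < 0 := by
      rw [hτ₀, Complex.log_re]
      have e1 : (1 - ((1 / 2 : ℝ) : ℂ)) = ((1 / 2 : ℝ) : ℂ) := by push_cast; ring
      rw [e1, Complex.norm_real]
      exact Real.log_neg (by norm_num) (by norm_num)
    have hr1 : (τ₀ + 2 * Real.pi * Complex.I * ((1 : ℤ) : ℂ)).re < 0 := by
      have : (τ₀ + 2 * Real.pi * Complex.I * ((1 : ℤ) : ℂ)).re = τ₀.re := by simp
      rw [this]
      exact hr
    have h1 := hΦR _ hr1 (-1)
    rw [hΦR _ hr 1] at h1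
    have e2 : τ₀ + 2 * Real.pi * Complex.I * ((1 : ℤ) : ℂ) + 2 * Real.pi * Complex.I * ((-1 : ℤ) : ℂ) = τ₀ := by
      push_cast
      ring
    rw [e2, Matrix.mul_assoc] at h1
    have h2 := congrArg (fun Y => X * Y) h1
    rw [← Matrix.mul_assoc, hX, Matrix.one_mul] at h2
    exact h2.symm
  have h1 : R 1 * Yi * Z (Complex.log v) * C = 1 := by
    calc R 1 * Yi * Z (Complex.log v) * C = R 1 * (Yi * (Z (Complex.log v) * C)) := by simp only [Matrix.mul_assoc]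
      _ = R 1 * R (-1) := by rw [f1, ← Matrix.mul_assoc Yi, hYiv, Matrix.one_mul]
      _ = 1 := hRR
  refine ⟨C, R 1 * Yi * Z (Complex.log v), mul_eq_one_comm.1 h1, h1, ?_⟩
  calc R 1 * M = R 1 * (Yi * (Ym v * M)) := by rw [← Matrix.mul_assoc Yi, hYiv, Matrix.one_mul]
    _ = _ := by
      rw [← f2]
      simp only [Matrix.mul_assoc]

end Q207.HM
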