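import Pool.Agent.Q207.HM.Alg

/-!
# The lemma of Goursat for Lie algebras of tuples of matrices
-/

set_option autoImplicit false

open Matrix

namespace Q207.HM

open Pool.Agent.Y123.GN (bf ro ro_mul ro_add_left ro_add_right ro_smul_left ro_smul_right sym_bf)

/-- what is needed of the block algebras -/
structure Smp {n : ℕ} (h : Submodule ℂ (Matrix (Fin n) (Fin n) ℂ)) (good : Set (Matrix (Fin n) (Fin n) ℂ)) : Prop where
  ideal : ∀ I : Submodule ℂ (Matrix (Fin n) (Fin n) ℂ), (∀ X ∈ h, ∀ Y ∈ I, X * Y - Y * X ∈ I) → (∃ g ∈ good, g ∈ I) → h ≤ I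
  brk : ∃ x ∈ h, ∃ y ∈ h, x * y - y * x ∈ good

section goursat

variable {ι : Type*} [Finite ι] [DecidableEq ι] {n : ι → ℕ}

/-- the elements with given component and zeros at the places in `T` -/
def It (g : Submodule ℂ (∀ i, Matrix (Fin (n i)) (Fin (n i)) ℂ)) (i : ι) (T : Set ι) :
    Submodule ℂ (Matrix (Fin (n i)) (Fin (n i)) ℂ) where
  carrier := {X | ∃ Y ∈ g, Y i = X ∧ ∀ j ∈ T, Y j = 0}
  zero_mem' := ⟨0, g.zero_mem, rfl, fun _ _ => rfl⟩
  add_mem' := by
    rintro _ _ ⟨Y, hY, rfl, hY0⟩ ⟨Z, hZ, rfl, hZ0⟩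
    exact ⟨Y + Z, g.add_mem hY hZ, rfl, fun j hj => by rw [Pi.add_apply, hY0 j hj, hZ0 j hj, add_zero]⟩
  smul_mem' := by
    rintro c _ ⟨Y, hY, rfl, hY0⟩
    exact ⟨c • Y, g.smul_mem c hY, rfl, fun j hj => by rw [Pi.smul_apply, hY0 j hj, smul_zero]⟩

/-- **Goursat's lemma.** -/
theorem goursat {g : Submodule ℂ (∀ i, Matrix (Fin (n i)) (Fin (n i)) ℂ)} (br : ∀ X ∈ g, ∀ Y ∈ g, X * Y - Y * X ∈ g)
    {h : ∀ i, Submodule ℂ (Matrix (Fin (n i)) (Fin (n i)) ℂ)} {good : ∀ i, Set (Matrix (Fin (n i)) (Fin (n i)) ℂ)}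
    (hs : ∀ i, Smp (h i) (good i)) (surj : ∀ i, ∀ X ∈ h i, ∃ Y ∈ g, Y i = X)
    (sep : ∀ i j, i ≠ j → ∃ Y ∈ g, Y j = 0 ∧ Y i ∈ good i) (i : ι) {X : Matrix (Fin (n i)) (Fin (n i)) ℂ}
    (hX : X ∈ h i) : (Pi.single i X : ∀ i, Matrix (Fin (n i)) (Fin (n i)) ℂ) ∈ g := by
  have := Fintype.ofFinite ι
  have key : ∀ T : Finset ι, i ∉ T → h i ≤ It g i (T : Set ι) := by
    intro T
    induction T using Finset.induction_on with
    | empty =>
      intro _ X hX
      obtain ⟨Y, hY, hYX⟩ := surj i X hX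
      exact ⟨Y, hY, hYX, fun j hj => absurd hj (by simp)⟩
    | insert j T hj ih =>
      intro hi
      have hij : i ≠ j := fun h0 => hi (by rw [h0]; exact Finset.mem_insert_self _ _)
      have hiT := ih fun h0 => hi (Finset.mem_insert_of_mem h0)
      have stab : ∀ (U : Set ι), ∀ X ∈ h i, ∀ Y ∈ It g i U, X * Y - Y * X ∈ It g i U := by
        intro U X hX Y hY
        obtain ⟨X', hX', rfl⟩ := surj i X hX
        obtain ⟨Y', hY', rfl, h0⟩ := hY
        refine ⟨X' * Y' - Y' * X', br _ hX' _ hY', rfl, fun l hl => ?_⟩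
        rw [Pi.sub_apply, Pi.mul_apply, Pi.mul_apply, h0 l hl, mul_zero, zero_mul, sub_zero]
      have hij' : h i ≤ It g i {j} := by
        refine (hs i).ideal _ (stab _) ?_
        obtain ⟨Y, hY, hYj, hYi⟩ := sep i j hij
        exact ⟨Y i, hYi, Y, hY, rfl, fun l hl => by
          rw [Set.mem_singleton_iff] at hl
          subst hl
          exact hYj⟩
      refine (hs i).ideal _ (stab _) ?_
      obtain ⟨x, hx, y, hy, hxy⟩ := (hs i).brk
      obtain ⟨X', hX', rfl, hX0⟩ := hiT hx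
      obtain ⟨Y', hY', rfl, hY0⟩ := hij' hy
      refine ⟨_, hxy, X' * Y' - Y' * X', br _ hX' _ hY', rfl, fun l hl => ?_⟩
      rw [Pi.sub_apply, Pi.mul_apply, Pi.mul_apply]
      rcases Finset.mem_insert.1 (Finset.mem_coe.1 hl) with rfl | hl
      · rw [hY0 _ (Set.mem_singleton _), mul_zero, zero_mul, sub_zero]
      · rw [hX0 l hl, mul_zero, zero_mul, sub_zero]
  obtain ⟨Y, hY, hYX, hY0⟩ := key (Finset.univ.erase i) (Finset.notMem_erase i _) hX
  have : (Pi.single i X : ∀ i, Matrix (Fin (n i)) (Fin (n i)) ℂ) = Y := by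
    funext j
    by_cases hj : j = i
    · subst hj
      rw [Pi.single_eq_same, hYX]
    · rw [Pi.single_eq_of_ne hj, hY0 j (Finset.mem_coe.2 (Finset.mem_erase.2 ⟨hj, Finset.mem_univ _⟩))]
  rw [this]
  exact hY

end goursat

variable {n : ℕ}

/-- `[e, [e, X]]` for a nilpotent matrix of rank one -/
lemma dbl {c d : Fin n → ℂ} (h : d ⬝ᵥ c = 0) (X : Matrix (Fin n) (Fin n) ℂ) :
    vecMulVec c d * (vecMulVec c d * X - X * vecMulVec c d) - (vecMulVec c d * X - X * vecMulVec c d) * vecMulVec c d =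
      (-2 * (d ⬝ᵥ (X *ᵥ c))) • vecMulVec c d := by
  have e0 : vecMulVec c d * vecMulVec c d = 0 := by rw [vecMulVec_mul_vecMulVec, h, zero_smul, vecMulVec_zero]
  have e1 : vecMulVec c d * X * vecMulVec c d = (d ⬝ᵥ (X *ᵥ c)) • vecMulVec c d := by
    rw [vecMulVec_mul, vecMulVec_mul_vecMulVec, ← dotProduct_mulVec, vecMulVec_smul]
  rw [Matrix.mul_sub, Matrix.sub_mul, ← Matrix.mul_assoc, ← Matrix.mul_assoc, e0, Matrix.zero_mul, e1, Matrix.mul_assoc X, e0,
    Matrix.mul_zero]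
  module

/-- the ideal property for a nilpotent matrix of rank one -/
lemma dbl_mem {h I : Submodule ℂ (Matrix (Fin n) (Fin n) ℂ)} (hI : ∀ X ∈ h, ∀ Y ∈ I, X * Y - Y * X ∈ I)
    {c d : Fin n → ℂ} (hcd : d ⬝ᵥ c = 0) (he : vecMulVec c d ∈ h) {X : Matrix (Fin n) (Fin n) ℂ} (hX : X ∈ I)
    (h0 : d ⬝ᵥ (X *ᵥ c) ≠ 0) : vecMulVec c d ∈ I := by
  have h1 := hI _ he _ (hI _ he _ hX)
  rw [dbl hcd] at h1
  have h2 : (-2 * (d ⬝ᵥ (X *ᵥ c))) ≠ 0 := mul_ne_zero (by norm_num) h0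
  have h3 := I.smul_mem (-2 * (d ⬝ᵥ (X *ᵥ c)))⁻¹ h1
  rwa [smul_smul, inv_mul_cancel₀ h2, one_smul] at h3

lemma ex_dot {a : Fin n → ℂ} (ha : a ≠ 0) : ∃ e : Fin n → ℂ, e ⬝ᵥ a ≠ 0 := by
  obtain ⟨i, hi⟩ : ∃ i, a i ≠ 0 := by
    by_contra h0
    push Not at h0
    exact ha (funext h0)
  exact ⟨Pi.single i 1, by rw [single_dotProduct, one_mul]; exact hi⟩

/-- common non-zeros -/
lemma both {V : Type*} [AddCommGroup V] (p q : V → ℂ) (hp : ∀ x y, p (x + y) = p x + p y) (hq : ∀ x y, q (x + y) = q x + q y)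
    (W : V → Prop) (hW : ∀ x y, W x → W y → W (x + y)) {x y : V} (hx : W x) (hy : W y) (h1 : p x ≠ 0) (h2 : q y ≠ 0) :
    ∃ z, W z ∧ p z ≠ 0 ∧ q z ≠ 0 := by
  by_cases h3 : q x = 0
  · by_cases h4 : p y = 0
    · exact ⟨x + y, hW _ _ hx hy, by rw [hp, h4, add_zero]; exact h1, by rw [hq, h3, zero_add]; exact h2⟩
    · exact ⟨y, hy, h4, h2⟩
  · exact ⟨x, hx, h1, h3⟩

/-- the algebra of the traceless matrices -/
def hL (n : ℕ) : Submodule ℂ (Matrix (Fin n) (Fin n) ℂ) := Submodule.span ℂ {X | ∃ a b : Fin n → ℂ, b ⬝ᵥ a = 0 ∧ X = vecMulVec a b}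

/-- nilpotent matrices of rank one -/
def goodL (n : ℕ) : Set (Matrix (Fin n) (Fin n) ℂ) := {X | ∃ a b : Fin n → ℂ, b ⬝ᵥ a = 0 ∧ a ≠ 0 ∧ b ≠ 0 ∧ X = vecMulVec a b}

theorem smpL (hn : 2 ≤ n) : Smp (hL n) (goodL n) where
  ideal := by
    rintro I hI ⟨_, ⟨a, b, hab, ha, hb, rfl⟩, hg⟩
    have hgen : ∀ c d : Fin n → ℂ, d ⬝ᵥ c = 0 → vecMulVec c d ∈ hL n := fun c d h => Submodule.subset_span ⟨c, d, h, rfl⟩
    have hval : ∀ a b c d : Fin n → ℂ, d ⬝ᵥ (vecMulVec a b *ᵥ c) = (d ⬝ᵥ a) * (b ⬝ᵥ c) := by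
      intro a b c d
      rw [vecMulVec_mulVec]
      have : MulOpposite.op (b ⬝ᵥ c) • a = (b ⬝ᵥ c) • a := op_smul_eq_smul _ _
      rw [this, dotProduct_smul, smul_eq_mul, mul_comm]
    refine Submodule.span_le.2 ?_
    rintro _ ⟨c, d, hcd, rfl⟩
    by_cases hc : c = 0
    · rw [hc, zero_vecMulVec]
      exact I.zero_mem
    by_cases hd : d = 0
    · rw [hd, vecMulVec_zero]
      exact I.zero_mem
    -- the middle element
    obtain ⟨e1, he1⟩ := ex_dot hb
    obtain ⟨e2, he2⟩ := ex_dot hd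
    obtain ⟨c3, -, h1, h2⟩ := both (fun x : Fin n → ℂ => b ⬝ᵥ x) (fun x => d ⬝ᵥ x) (fun x y => dotProduct_add _ _ _)
      (fun x y => dotProduct_add _ _ _) (fun _ => True) (fun _ _ _ _ => trivial) (x := e1) (y := e2) trivial trivial
      (by rw [dotProduct_comm]; exact he1) (by rw [dotProduct_comm]; exact he2)
    obtain ⟨e3, he3⟩ := ex_dot ha
    obtain ⟨e4, he4⟩ := ex_dot hc
    obtain ⟨d3, h30, h3, h4⟩ := both (fun x : Fin n → ℂ => x ⬝ᵥ a) (fun x => x ⬝ᵥ c) (fun x y => add_dotProduct _ _ _)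
      (fun x y => add_dotProduct _ _ _) (fun x => x ⬝ᵥ c3 = 0) (fun x y hx hy => by rw [add_dotProduct, hx, hy, add_zero])
      (x := e3 - ((e3 ⬝ᵥ c3) / (b ⬝ᵥ c3)) • b) (y := e4 - ((e4 ⬝ᵥ c3) / (d ⬝ᵥ c3)) • d)
      (by rw [sub_dotProduct, smul_dotProduct, smul_eq_mul, div_mul_cancel₀ _ h1, sub_self])
      (by rw [sub_dotProduct, smul_dotProduct, smul_eq_mul, div_mul_cancel₀ _ h2, sub_self])
      (by
        show (e3 - ((e3 ⬝ᵥ c3) / (b ⬝ᵥ c3)) • b) ⬝ᵥ a ≠ 0
        rw [sub_dotProduct, smul_dotProduct, hab, smul_zero, sub_zero]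
        exact he3)
      (by
        show (e4 - ((e4 ⬝ᵥ c3) / (d ⬝ᵥ c3)) • d) ⬝ᵥ c ≠ 0
        rw [sub_dotProduct, smul_dotProduct, hcd, smul_zero, sub_zero]
        exact he4)
    have m1 : vecMulVec c3 d3 ∈ I := dbl_mem hI h30 (hgen _ _ h30) hg (by rw [hval]; exact mul_ne_zero h3 h1)
    exact dbl_mem hI hcd (hgen _ _ hcd) m1 (by rw [hval]; exact mul_ne_zero h2 h4)
  brk := by
    obtain ⟨m, rfl⟩ := Nat.exists_eq_add_of_le' hn
    set a : Fin (m + 2) → ℂ := Pi.single 0 1 with ha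
    set b : Fin (m + 2) → ℂ := Pi.single 1 1 with hb
    have h01 : (0 : Fin (m + 2)) ≠ 1 := by
      intro h
      have := congrArg Fin.val h
      simp at this
    have hab : b ⬝ᵥ a = 0 := by
      rw [ha, hb, single_dotProduct, one_mul, Pi.single_eq_of_ne h01.symm]
    have hba : a ⬝ᵥ b = 0 := by rw [dotProduct_comm, hab]
    have haa : a ⬝ᵥ a = 1 := by rw [ha, single_dotProduct, one_mul, Pi.single_eq_same]
    have hbb : b ⬝ᵥ b = 1 := by rw [hb, single_dotProduct, one_mul, Pi.single_eq_same]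
    -- `[E01, [E01, E10]] = -2 E01`
    refine ⟨vecMulVec a b, Submodule.subset_span ⟨a, b, hab, rfl⟩, vecMulVec a a - vecMulVec b b, ?_, ?_⟩
    · -- in the span
      have h1 : vecMulVec (a + b) (a - b) ∈ hL (m + 2) := Submodule.subset_span ⟨_, _, by
        rw [sub_dotProduct, dotProduct_add, dotProduct_add, haa, hab, hba, hbb]
        ring, rfl⟩
      have h2 : vecMulVec a b ∈ hL (m + 2) := Submodule.subset_span ⟨_, _, hab, rfl⟩
      have h3 : vecMulVec b a ∈ hL (m + 2) := Submodule.subset_span ⟨_, _, hba, rfl⟩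
      have e : vecMulVec a a - vecMulVec b b = vecMulVec (a + b) (a - b) + vecMulVec a b - vecMulVec b a := by
        rw [add_vecMulVec, vecMulVec_sub, vecMulVec_sub]
        abel
      rw [e]
      exact Submodule.sub_mem _ (Submodule.add_mem _ h1 h2) h3
    · refine ⟨(-2 : ℂ) • a, b, by rw [dotProduct_smul, hab, smul_zero], ?_, ?_, ?_⟩
      · intro h0
        have := congrFun h0 0
        rw [Pi.smul_apply, ha, Pi.single_eq_same] at this
        norm_num at this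
      · intro h0
        have := congrFun h0 1
        rw [hb, Pi.single_eq_same] at this
        exact one_ne_zero this
      · rw [Matrix.mul_sub, Matrix.sub_mul, vecMulVec_mul_vecMulVec, vecMulVec_mul_vecMulVec, vecMulVec_mul_vecMulVec,
          vecMulVec_mul_vecMulVec, hab, hbb, haa, smul_vecMulVec]
        simp only [zero_smul, one_smul, vecMulVec_zero, zero_sub, sub_zero]
        module

section sp

variable {J : Matrix (Fin n) (Fin n) ℂ}

/-- the symplectic algebra -/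
def hS (J : Matrix (Fin n) (Fin n) ℂ) : Submodule ℂ (Matrix (Fin n) (Fin n) ℂ) := Submodule.span ℂ {X | ∃ v, X = ro J v v}

/-- the multiples of the elements of rank one -/
def goodS (J : Matrix (Fin n) (Fin n) ℂ) : Set (Matrix (Fin n) (Fin n) ℂ) := {X | ∃ (v : Fin n → ℂ) (c : ℂ), v ≠ 0 ∧ c ≠ 0 ∧ X = c • ro J v v}

lemma skew_bf (hJ : Jᵀ = -J) (u v : Fin n → ℂ) : bf J v u = -bf J u v := Pool.Agent.Y119.HY.om_skew hJ u v

lemma self_bf (hJ : Jᵀ = -J) (u : Fin n → ℂ) : bf J u u = 0 := Pool.Agent.Y119.HY.om_self hJ u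

lemma bf_add_right (u v w : Fin n → ℂ) : bf J u (v + w) = bf J u v + bf J u w := Pool.Agent.Y119.HY.om_add u v w

lemma bf_add_left (u v w : Fin n → ℂ) : bf J (u + v) w = bf J u w + bf J v w := by
  unfold bf
  rw [add_dotProduct]

lemma bf_smul_right (c : ℂ) (u v : Fin n → ℂ) : bf J u (c • v) = c * bf J u v := Pool.Agent.Y119.HY.om_smul c u v

lemma bf_smul_left (c : ℂ) (u v : Fin n → ℂ) : bf J (c • u) v = c * bf J u v := by
  unfold bf
  rw [smul_dotProduct, smul_eq_mul]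

/-- non-degeneracy -/
lemma nd_bf (hdet : J.det ≠ 0) {v : Fin n → ℂ} (hv : v ≠ 0) : ∃ w, bf J w v ≠ 0 := by
  have h1 : J *ᵥ v ≠ 0 := by
    intro h0
    apply hv
    have h5 : J⁻¹ *ᵥ (J *ᵥ v) = v := by
      rw [mulVec_mulVec, nonsing_inv_mul _ (Ne.isUnit hdet), one_mulVec]
    rw [h0, mulVec_zero] at h5
    exact h5.symm
  exact ex_dot h1

lemma ro_mulVec (u v x : Fin n → ℂ) : ro J u v *ᵥ x = bf J v x • u := by
  unfold ro bf
  rw [vecMulVec_mulVec, ← dotProduct_mulVec]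
  exact op_smul_eq_smul _ _

theorem smpS (hJ : Jᵀ = -J) (hdet : J.det ≠ 0) (hn : 1 ≤ n) : Smp (hS J) (goodS J) where
  ideal := by
    rintro I hI ⟨_, ⟨a, c, ha, hc, rfl⟩, hg⟩
    have hgen : ∀ v : Fin n → ℂ, ro J v v ∈ hS J := fun v => Submodule.subset_span ⟨v, rfl⟩
    have hg' : ro J a a ∈ I := by
      have := I.smul_mem c⁻¹ hg
      rwa [smul_smul, inv_mul_cancel₀ hc, one_smul] at this
    have hstep : ∀ v w : Fin n → ℂ, ro J v v ∈ I → bf J w v ≠ 0 → ro J w w ∈ I := by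
      intro v w hv hvw
      refine dbl_mem hI ?_ (hgen w) hv ?_
      · have := self_bf hJ w
        unfold bf at this
        rw [← dotProduct_mulVec]
        exact this
      · rw [ro_mulVec, dotProduct_smul, smul_eq_mul, ← dotProduct_mulVec, skew_bf hJ w v]
        exact mul_ne_zero (neg_ne_zero.2 hvw) hvw
    refine Submodule.span_le.2 ?_
    rintro _ ⟨w, rfl⟩
    by_cases hw : w = 0
    · rw [hw]
      unfold ro
      rw [zero_vecMulVec]
      exact I.zero_mem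
    obtain ⟨e1, he1⟩ := nd_bf hdet ha
    obtain ⟨e2, he2⟩ := nd_bf hdet hw
    obtain ⟨c3, -, h1, h2⟩ := both (fun x : Fin n → ℂ => bf J x a) (fun x => bf J x w) (fun x y => bf_add_left _ _ _)
      (fun x y => bf_add_left _ _ _) (fun _ => True) (fun _ _ _ _ => trivial) (x := e1) (y := e2) trivial trivial he1 he2
    refine hstep c3 w (hstep a c3 hg' h1) ?_
    rw [skew_bf hJ]
    exact neg_ne_zero.2 h2
  brk := by
    have hv : (Pi.single ⟨0, hn⟩ 1 : Fin n → ℂ) ≠ 0 := by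
      intro h0
      have := congrFun h0 ⟨0, hn⟩
      rw [Pi.single_eq_same] at this
      exact one_ne_zero this
    set v : Fin n → ℂ := Pi.single ⟨0, hn⟩ 1
    obtain ⟨w, hw⟩ := nd_bf hdet hv
    refine ⟨ro J (w + v) (w + v) - ro J w w - ro J v v, ?_, ro J v v, Submodule.subset_span ⟨v, rfl⟩, v, 2 * bf J w v, hv,
      mul_ne_zero two_ne_zero hw, ?_⟩
    · exact Submodule.sub_mem _ (Submodule.sub_mem _ (Submodule.subset_span ⟨_, rfl⟩) (Submodule.subset_span ⟨_, rfl⟩))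
        (Submodule.subset_span ⟨_, rfl⟩)
    · have e : ro J (w + v) (w + v) - ro J w w - ro J v v = ro J w v + ro J v w := by
        rw [ro_add_left, ro_add_right, ro_add_right]
        abel
      rw [e, Matrix.add_mul, Matrix.mul_add, ro_mul, ro_mul, ro_mul, ro_mul, self_bf hJ, skew_bf hJ w v]
      module

end sp

section so

variable {J : Matrix (Fin n) (Fin n) ℂ}

/-- the orthogonal algebra -/
def hO (J : Matrix (Fin n) (Fin n) ℂ) : Submodule ℂ (Matrix (Fin n) (Fin n) ℂ) := Submodule.span ℂ {X | ∃ a b, X = WW J a b}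

/-- elements of rank two -/
def goodO (J : Matrix (Fin n) (Fin n) ℂ) (u : Fin n → ℂ) : Set (Matrix (Fin n) (Fin n) ℂ) :=
  {X | ∃ x : Fin n → ℂ, x ≠ 0 ∧ bf J u x = 0 ∧ X = WW J u x}

lemma WW_mulVec (a b x : Fin n → ℂ) : WW J a b *ᵥ x = bf J b x • a - bf J a x • b := by
  unfold WW
  rw [sub_mulVec, ro_mulVec, ro_mulVec]

lemma WW_isom (hJ : Jᵀ = J) (a b : Fin n → ℂ) : (WW J a b)ᵀ * J + J * WW J a b = 0 := by
  unfold WW ro
  rw [transpose_sub, transpose_vecMulVec, transpose_vecMulVec, Matrix.sub_mul, Matrix.mul_sub, vecMulVec_mul, vecMulVec_mul,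
    mul_vecMulVec, mul_vecMulVec]
  have h : ∀ v : Fin n → ℂ, J *ᵥ v = v ᵥ* J := fun v => by rw [← mulVec_transpose, hJ]
  rw [h, h]
  abel

lemma WW_add_right (a b c : Fin n → ℂ) : WW J a (b + c) = WW J a b + WW J a c := by
  unfold WW
  rw [ro_add_left, ro_add_right]
  abel

lemma WW_smul_right (a b : Fin n → ℂ) (c : ℂ) : WW J a (c • b) = c • WW J a b := by
  unfold WW
  rw [ro_smul_left, ro_smul_right]
  module

lemma WW_sub_right (a b c : Fin n → ℂ) : WW J a (b - c) = WW J a b - WW J a c := by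
  rw [sub_eq_add_neg, WW_add_right, ← neg_one_smul ℂ c, WW_smul_right]
  module

lemma WW_self (a : Fin n → ℂ) : WW J a a = 0 := by
  unfold WW
  exact sub_self _

lemma WW_zero_left (a : Fin n → ℂ) : WW J 0 a = 0 := by
  unfold WW ro
  simp

/-- `[W(x, y), W(u, z)]` for vectors orthogonal to `u` -/
lemma br_xyz (hJ : Jᵀ = J) {u x y : Fin n → ℂ} (hx : bf J u x = 0) (hy : bf J u y = 0) (z : Fin n → ℂ) :
    WW J x y * WW J u z - WW J u z * WW J x y = WW J u (bf J y z • x - bf J x z • y) := by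
  rw [ad_WW (WW_isom hJ x y), WW_mulVec, WW_mulVec, sym_bf hJ u y, sym_bf hJ u x, hx, hy]
  simp only [zero_smul, sub_zero]
  rw [WW_zero_left, zero_add]

/-- `[W(u, x), W(u, y)]` for vectors orthogonal to `u` -/
lemma br_uxy (hJ : Jᵀ = J) {u x y : Fin n → ℂ} (hx : bf J u x = 0) (hy : bf J u y = 0) :
    WW J u x * WW J u y - WW J u y * WW J u x = -bf J u u • WW J x y := by
  rw [br_WW hJ, sym_bf hJ u x, hx, hy]
  module

lemma W_all (hJ : Jᵀ = J) {u : Fin n → ℂ} (hu : bf J u u ≠ 0) {I : Submodule ℂ (Matrix (Fin n) (Fin n) ℂ)}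
    (hI : ∀ X ∈ hO J, ∀ Y ∈ I, X * Y - Y * X ∈ I) (hp : ∀ y, bf J u y = 0 → WW J u y ∈ I) : hO J ≤ I := by
  have hall : ∀ y, WW J u y ∈ I := by
    intro y
    have h1 : bf J u (y - (bf J u y / bf J u u) • u) = 0 := by
      rw [sub_eq_add_neg, bf_add_right, ← neg_smul, bf_smul_right]
      field_simp
      ring
    have h2 := hp _ h1
    rw [WW_sub_right, WW_smul_right, WW_self, smul_zero, sub_zero] at h2
    exact h2
  refine Submodule.span_le.2 ?_
  rintro _ ⟨a, b, rfl⟩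
  have h1 := hI _ (Submodule.subset_span ⟨u, a, rfl⟩) _ (hall b)
  rw [br_WW hJ] at h1
  have h2 : WW J a u ∈ I := by
    have : WW J a u = -WW J u a := by unfold WW; abel
    rw [this]
    exact I.neg_mem (hall a)
  have h3 : bf J u u • WW J a b ∈ I := by
    have e : bf J u u • WW J a b = bf J a u • WW J u b + bf J u b • WW J a u -
        (bf J a u • WW J u b - bf J u u • WW J a b + bf J u b • WW J a u) := by module
    rw [e]
    exact I.sub_mem (I.add_mem (I.smul_mem _ (hall b)) (I.smul_mem _ h2)) h1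
  have h4 := I.smul_mem (bf J u u)⁻¹ h3
  rwa [smul_smul, inv_mul_cancel₀ hu, one_smul] at h4

theorem smpO (hJ : Jᵀ = J) (hdet : J.det ≠ 0) (hn : 3 ≤ n) {u : Fin n → ℂ} (hu : bf J u u ≠ 0) : Smp (hO J) (goodO J u) where
  ideal := by
    rintro I hI ⟨_, ⟨x, hx0, hxu, rfl⟩, hg⟩
    refine W_all hJ hu hI fun y hy => ?_
    have h1 : WW J x y ∈ I := by
      have h2 := hI _ (Submodule.subset_span ⟨u, y, rfl⟩) _ hg
      rw [br_uxy hJ hy hxu] at h2
      have h3 := I.smul_mem (bf J u u)⁻¹ h2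
      rw [neg_smul, smul_neg, smul_smul, inv_mul_cancel₀ hu, one_smul] at h3
      have : WW J x y = -WW J y x := by unfold WW; abel
      rw [this]
      exact h3
    -- a vector which pairs with `x`
    obtain ⟨z', hz'⟩ := nd_bf hdet hx0
    set z := z' - (bf J u z' / bf J u u) • u with hz
    have hzx : bf J x z = bf J z' x := by
      rw [hz, sub_eq_add_neg, bf_add_right, ← neg_smul, bf_smul_right, sym_bf hJ u x, hxu, mul_zero, add_zero, sym_bf hJ z' x]
    have h2 := hI _ (Submodule.subset_span ⟨u, z, rfl⟩) _ h1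
    have h3 : WW J x y * WW J u z - WW J u z * WW J x y ∈ I := by
      have := I.neg_mem h2
      rwa [neg_sub] at this
    rw [br_xyz hJ hxu hy, WW_sub_right, WW_smul_right, WW_smul_right] at h3
    have h4 : bf J x z • WW J u y ∈ I := by
      have e : bf J x z • WW J u y = bf J y z • WW J u x - (bf J y z • WW J u x - bf J x z • WW J u y) := by module
      rw [e]
      exact I.sub_mem (I.smul_mem _ hg) h3
    have h5 := I.smul_mem (bf J x z)⁻¹ h4
    rwa [smul_smul, inv_mul_cancel₀ (by rw [hzx]; exact hz'), one_smul] at h5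
  brk := by
    -- two independent vectors orthogonal to `u`
    have hu0 : u ≠ 0 := by
      rintro rfl
      apply hu
      unfold bf
      rw [zero_dotProduct]
    set W : Submodule ℂ (Fin n → ℂ) := LinearMap.ker ((dotProductBilin ℂ ℂ (u ᵥ* J) : (Fin n → ℂ) →ₗ[ℂ] ℂ)) with hW
    have hmem : ∀ x, x ∈ W ↔ bf J u x = 0 := by
      intro x
      rw [hW, LinearMap.mem_ker]
      unfold bf
      rw [dotProduct_mulVec]
      rfl
    have hrank : 2 ≤ Module.finrank ℂ W := by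
      have h1 := LinearMap.finrank_range_add_finrank_ker ((dotProductBilin ℂ ℂ (u ᵥ* J) : (Fin n → ℂ) →ₗ[ℂ] ℂ))
      rw [Module.finrank_fin_fun] at h1
      have h2 : Module.finrank ℂ (LinearMap.range ((dotProductBilin ℂ ℂ (u ᵥ* J) : (Fin n → ℂ) →ₗ[ℂ] ℂ))) ≤ 1 := by
        have := Submodule.finrank_le (LinearMap.range ((dotProductBilin ℂ ℂ (u ᵥ* J) : (Fin n → ℂ) →ₗ[ℂ] ℂ)))
        rwa [Module.finrank_self] at this
      have h3 : Module.finrank ℂ W = Module.finrank ℂ (LinearMap.ker ((dotProductBilin ℂ ℂ (u ᵥ* J) : (Fin n → ℂ) →ₗ[ℂ] ℂ))) := rfl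
      rw [h3]
      omega
    have hnt : ∃ x : W, x ≠ 0 := by
      have : Nontrivial W := Module.nontrivial_of_finrank_pos (R := ℂ) (by omega)
      exact exists_ne 0
    obtain ⟨⟨x, hxW⟩, hx0⟩ := hnt
    have hx0' : x ≠ 0 := fun h => hx0 (Subtype.ext h)
    have hxu := (hmem x).1 hxW
    have hy : ∃ y ∈ W, y ∉ Submodule.span ℂ {x} := by
      by_contra h0
      push Not at h0
      have h1 : W ≤ Submodule.span ℂ {x} := h0
      have h2 := Submodule.finrank_mono h1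
      rw [finrank_span_singleton hx0'] at h2
      omega
    obtain ⟨y, hyW, hyx⟩ := hy
    have hyu := (hmem y).1 hyW
    obtain ⟨z', hz'⟩ := nd_bf hdet hx0'
    set z := z' - (bf J u z' / bf J u u) • u with hz
    have hzx : bf J x z = bf J z' x := by
      rw [hz, sub_eq_add_neg, bf_add_right, ← neg_smul, bf_smul_right, sym_bf hJ u x, hxu, mul_zero, add_zero, sym_bf hJ z' x]
    have hzx0 : bf J x z ≠ 0 := by rw [hzx]; exact hz'
    refine ⟨WW J x y, Submodule.subset_span ⟨_, _, rfl⟩, WW J u z, Submodule.subset_span ⟨_, _, rfl⟩,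
      bf J y z • x - bf J x z • y, ?_, ?_, br_xyz hJ hxu hyu z⟩
    · intro h0
      apply hyx
      rw [Submodule.mem_span_singleton]
      refine ⟨(bf J x z)⁻¹ * bf J y z, ?_⟩
      have h1 : bf J x z • y = bf J y z • x := (sub_eq_zero.1 h0).symm
      rw [mul_smul, ← h1, smul_smul, inv_mul_cancel₀ hzx0, one_smul]
    · rw [sub_eq_add_neg, bf_add_right, ← neg_smul, bf_smul_right, bf_smul_right, hxu, hyu, mul_zero, mul_zero, add_zero]

end so

end Q207.HM
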