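import Pool.Agent.Q207.HM.Blo

/-!
# The relations between the solutions of several hypergeometric equations
-/

set_option autoImplicit false

open Filter Topology Matrix

namespace Q207.HM

open Pool.Agent.Y119.HY (Am Jm cm Ac_nil Hc Yf Gal E_exp E Sol Rel ev evp eval_evp pt Vr conj_E)
open Pool.Agent.Y123.GN (bf)

section one

variable {n : ℕ}

lemma det_rank_one (a : ℂ) (u φ : Fin n → ℂ) : (1 + a • vecMulVec u φ).det = 1 + a * (φ ⬝ᵥ u) := by
  have h1 : a • vecMulVec u φ = vecMulVec (a • u) φ := (smul_vecMulVec a u φ).symm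
  rw [h1, Matrix.vecMulVec_eq Unit, det_one_add_replicateCol_mul_replicateRow, dotProduct_smul, smul_eq_mul]

/-- the groups generated by the special groups and the monodromy -/
def SGm (b : Blk n) (m : ℤ) (g : Matrix (Fin n) (Fin n) ℂ) : Prop :=
  (b.k = Ki.l → g.det = b.ξ ^ m) ∧ (b.k = Ki.o → gᵀ * b.J * g = b.J ∧ g.det = b.ξ ^ m) ∧ (b.k = Ki.s → gᵀ * b.J * g = b.J)

lemma form_rank_one (J : Matrix (Fin n) (Fin n) ℂ) (a : ℂ) (u φ : Fin n → ℂ) :
    (1 + a • vecMulVec u φ)ᵀ * J * (1 + a • vecMulVec u φ) =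
      J + a • vecMulVec φ (u ᵥ* J) + a • vecMulVec (J *ᵥ u) φ + (a * a * bf J u u) • vecMulVec φ φ := by
  have h1 : (1 + a • vecMulVec u φ)ᵀ = 1 + a • vecMulVec φ u := by
    rw [transpose_add, transpose_one, transpose_smul, transpose_vecMulVec]
  rw [h1, Matrix.add_mul, Matrix.one_mul, Matrix.mul_add, Matrix.mul_one, Matrix.add_mul, Matrix.smul_mul, vecMulVec_mul,
    Matrix.mul_smul, Matrix.mul_smul, Matrix.smul_mul, mul_vecMulVec, vecMulVec_mul_vecMulVec]
  have h2 : (u ᵥ* J) ⬝ᵥ u = bf J u u := by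
    unfold bf
    rw [dotProduct_mulVec]
  rw [h2, vecMulVec_smul]
  module

lemma Rbm_mul {b : Blk n} (hb : BlkOK b) (m l : ℤ) : Rbm b m * Rbm b l = Rbm b (m + l) := by
  unfold Rbm
  by_cases hk : b.k = Ki.s
  · rw [if_pos hk, if_pos hk, if_pos hk]
    obtain ⟨hJ, hd, -, c, hc, hφ⟩ := hb.s hk
    have h0 : b.φ ⬝ᵥ b.u = 0 := by
      rw [hφ, smul_dotProduct, ← dotProduct_mulVec]
      have := self_bf hJ b.u
      unfold bf at this
      rw [this, smul_zero]
    have hNN : vecMulVec b.u b.φ * vecMulVec b.u b.φ = 0 := by rw [vecMulVec_mul_vecMulVec, h0, zero_smul, vecMulVec_zero]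
    rw [Matrix.mul_add, Matrix.mul_one, Matrix.mul_smul, Matrix.add_mul, Matrix.one_mul, Matrix.smul_mul, hNN]
    push_cast
    module
  · rw [if_neg hk, if_neg hk, if_neg hk]
    have h1 : b.φ ⬝ᵥ b.u = 1 ∧ b.ξ ≠ 0 := by
      rcases hk' : b.k with _ | _ | _
      · exact ⟨(hb.l hk').1, (hb.l hk').2.1⟩
      · exact ⟨(hb.o hk').1, by rw [(hb.o hk').2.1]; norm_num⟩
      · exact absurd hk' hk
    have hPP : vecMulVec b.u b.φ * vecMulVec b.u b.φ = vecMulVec b.u b.φ := QQ h1.1
    rw [Matrix.mul_add, Matrix.mul_one, Matrix.mul_smul, Matrix.add_mul, Matrix.one_mul, Matrix.smul_mul, hPP, zpow_add₀ h1.2]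
    module

lemma Rbm_zero (b : Blk n) : Rbm b 0 = 1 := by
  unfold Rbm
  split_ifs
  · simp
  · simp

lemma Rbm_SGm {b : Blk n} (hb : BlkOK b) (m : ℤ) : SGm b m (Rbm b m) := by
  refine ⟨fun hk => ?_, fun hk => ?_, fun hk => ?_⟩
  · unfold Rbm
    rw [if_neg (by rw [hk]; decide), det_rank_one, (hb.l hk).1]
    ring
  · obtain ⟨h1, h2, hJ, -, -, -, h7, -⟩ := hb.o hk
    unfold Rbm
    rw [if_neg (by rw [hk]; decide)]
    refine ⟨?_, ?_⟩
    · have hJu : b.J *ᵥ b.u = b.u ᵥ* b.J := by rw [← mulVec_transpose, hJ]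
      rw [form_rank_one, hJu, h7, smul_vecMulVec, vecMulVec_smul]
      have h3 : (b.ξ ^ m - 1) * (b.ξ ^ m - 1) + 2 * (b.ξ ^ m - 1) = 0 := by
        have h4 : b.ξ ^ m * b.ξ ^ m = 1 := by
          rw [← zpow_add₀ (by rw [h2]; norm_num), h2, Even.neg_one_zpow ⟨m, rfl⟩]
        linear_combination h4
      set a := b.ξ ^ m - 1
      set B := bf b.J b.u b.u
      have e : b.J + a • B • vecMulVec b.φ b.φ + a • B • vecMulVec b.φ b.φ + (a * a * B) • vecMulVec b.φ b.φ =
          b.J + ((a * a + 2 * a) * B) • vecMulVec b.φ b.φ := by module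
      rw [e, h3, zero_mul, zero_smul, add_zero]
    · rw [det_rank_one, h1]
      ring
  · obtain ⟨hJ, hd, -, c, hc, hφ⟩ := hb.s hk
    unfold Rbm
    rw [if_pos hk, form_rank_one]
    have hJu : b.J *ᵥ b.u = -(b.u ᵥ* b.J) := by
      rw [← mulVec_transpose, hJ, neg_mulVec, neg_neg]
    rw [hJu, hφ, self_bf hJ, smul_vecMulVec, vecMulVec_smul, neg_vecMulVec]
    module

lemma SGm_mul {b : Blk n} (hb : BlkOK b) {m l : ℤ} {g h : Matrix (Fin n) (Fin n) ℂ} (hg : SGm b m g) (hh : SGm b l h) :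
    SGm b (m + l) (g * h) := by
  have hf : gᵀ * b.J * g = b.J → hᵀ * b.J * h = b.J → (g * h)ᵀ * b.J * (g * h) = b.J := by
    intro h1 h2
    calc (g * h)ᵀ * b.J * (g * h) = hᵀ * (gᵀ * b.J * g) * h := by
          rw [transpose_mul]
          simp only [Matrix.mul_assoc]
      _ = b.J := by rw [h1, h2]
  refine ⟨fun hk => ?_, fun hk => ⟨hf (hg.2.1 hk).1 (hh.2.1 hk).1, ?_⟩, fun hk => hf (hg.2.2 hk) (hh.2.2 hk)⟩
  · rw [det_mul, hg.1 hk, hh.1 hk, zpow_add₀ (hb.l hk).2.1]
  · rw [det_mul, (hg.2.1 hk).2, (hh.2.1 hk).2, zpow_add₀]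
    rw [(hb.o hk).2.1]
    norm_num

lemma SG_of {b : Blk n} {g : Matrix (Fin n) (Fin n) ℂ} (hg : SGm b 0 g) : SG b g := by
  obtain ⟨h1, h2, h3⟩ := hg
  rw [zpow_zero] at h1 h2
  exact ⟨h1, h2, h3⟩

/-- polynomial families -/
lemma Gal_poly (Y : ℂ → Matrix (Fin n) (Fin n) ℂ) (M : Matrix (Fin n) (Fin n) (Polynomial ℂ)) {T : Set ℂ} (hT : T.Infinite)
    (hM : ∀ c ∈ T, M.map (Polynomial.eval c) ∈ Gal Y) (c : ℂ) : M.map (Polynomial.eval c) ∈ Gal Y := by
  intro P hP x hx hx1
  set q : Polynomial ℂ := evp P (Polynomial.C (x : ℂ)) (Polynomial.C (Complex.log x)) ((Y (x : ℂ)).map Polynomial.C * M) with hq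
  have hqe : ∀ c, q.eval c = ev P (x : ℂ) (Complex.log x) (Y (x : ℂ) * M.map (Polynomial.eval c)) := by
    intro c
    rw [hq, eval_evp, Polynomial.eval_C, Polynomial.eval_C]
    congr 1
    ext i j
    simp only [Matrix.map_apply, Matrix.mul_apply, Polynomial.eval_finsetSum, Polynomial.eval_mul, Polynomial.eval_C]
  have h0 : q = 0 := by
    refine Polynomial.eq_zero_of_infinite_isRoot q (hT.mono ?_)
    intro c hc
    show q.eval c = 0
    rw [hqe]
    exact hM c hc P hP x hx hx1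
  rw [← hqe, h0, Polynomial.eval_zero]

end one

section joint

variable {r : ℕ} {n : Fin r → ℕ}

/-- **The differential Galois group of the direct sum.** -/
theorem joint_gal {h : ∀ i, HB (n i)} (hh : ∀ i, HBok (h i)) {b : ∀ i, Blk (n i)} (hb : ∀ i, BlkOf (h i) (b i))
    (hne : ∀ i j, i ≠ j → Neq (b i) (b j)) {g : Bl n ℂ} {m : ℤ} (hg : ∀ i, SGm (b i) m (g i)) :
    BD g ∈ Gal (Yf (BD fun i => cm (Am (n i))) (fun k => BD fun i => Hc (n i) (h i).Q k)) := by
  set Y := Yf (BD fun i => cm (Am (n i))) (fun k => BD fun i => Hc (n i) (h i).Q k) with hY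
  have hbk := fun i => (hb i).1
  have hbA := fun i => (hb i).2.1
  have hbx := fun i => (hb i).2.2.2.2.1
  have hnil : ∀ i, cm (Am (n i)) ^ n i = 0 := fun i => Ac_nil
  have hsol : Sol (BD fun i => cm (Am (n i))) (BD fun i => cm (Pool.Agent.Y119.HY.Bm (n i) (h i).Q))
      (fun k => BD fun i => Hc (n i) (h i).Q k) := sol_BD fun i => sol_cG (hh i).g
  have hYY : Y = fun z => BD fun i => Yf (cm (Am (n i))) (Hc (n i) (h i).Q) z := by
    funext z
    rw [hY, Yf_BD hnil]
  -- the monodromy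
  have hR : ∀ m : ℤ, BD (fun i => Rbm (b i) m) ∈ Gal Y := by
    intro m
    have h1 := LM_BD (fun i => (hb i).2.2.2.2.2)
    rw [← hYY] at h1
    exact h1.mem m
  have hA : ∀ t : ℂ, ∀ g ∈ Gal Y, NormedSpace.exp (t • BD (fun i => (b i).A)) * g * NormedSpace.exp ((-t) • BD (fun i => (b i).A)) ∈ Gal Y := by
    intro t g hg
    have h5 := conj_E (BD_nil hnil) hsol t g hg
    rw [E_exp (BD_nil hnil), E_exp (BD_nil hnil)] at h5
    simp only [hbA]
    exact h5
  -- the unipotent part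
  have hsp : BD (fun i => if (b i).k = Ki.s then vecMulVec (b i).u (b i).φ else 0) ∈ LS (Gal Y) (Gal_isClosed Y) := by
    intro c
    -- a common multiple
    have hden : ∃ e : ℕ, 0 < e ∧ ∀ i, (b i).ξ ^ e = 1 := by
      refine ⟨∏ i, ((h i).Q.coeff (n i - 1)).den, Finset.prod_pos fun i _ => Rat.den_pos _, fun i => ?_⟩
      have h1 : (b i).ξ ^ ((h i).Q.coeff (n i - 1)).den = 1 := by
        rw [hbx i, ← Complex.exp_nat_mul, Complex.exp_eq_one_iff]
        refine ⟨-((h i).Q.coeff (n i - 1)).num, ?_⟩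
        unfold HB.e
        have h2 : (((h i).Q.coeff (n i - 1)).den : ℂ) * (((h i).Q.coeff (n i - 1) : ℚ) : ℂ) = (((h i).Q.coeff (n i - 1)).num : ℂ) := by
          have h3 : ((((h i).Q.coeff (n i - 1)).den : ℚ)) * ((h i).Q.coeff (n i - 1)) = (((h i).Q.coeff (n i - 1)).num : ℚ) :=
            Rat.den_mul_eq_num _
          exact_mod_cast h3
        push_cast
        linear_combination (-(2 * (Real.pi : ℂ) * Complex.I)) * h2
      obtain ⟨c, hc⟩ := Finset.dvd_prod_of_mem (fun i => ((h i).Q.coeff (n i - 1)).den) (Finset.mem_univ i)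
      rw [hc, pow_mul, h1, one_pow]
    obtain ⟨e, he, hxe⟩ := hden
    set N : Bl n ℂ := fun i => if (b i).k = Ki.s then vecMulVec (b i).u (b i).φ else 0 with hN
    have hNN : ∀ i, N i * N i = 0 := by
      intro i
      rw [hN]
      by_cases hk : (b i).k = Ki.s
      · simp only [if_pos hk]
        obtain ⟨hJ, hd, -, c, hc, hφ⟩ := (hbk i).s hk
        have h0 : (b i).φ ⬝ᵥ (b i).u = 0 := by
          rw [hφ, smul_dotProduct, ← dotProduct_mulVec]
          have := self_bf hJ (b i).u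
          unfold bf at this
          rw [this, smul_zero]
        rw [vecMulVec_mul_vecMulVec, h0, zero_smul, vecMulVec_zero]
      · simp only [if_neg hk, mul_zero]
    have hexp : ∀ c : ℂ, NormedSpace.exp (c • BD N) = 1 + c • BD N := by
      intro c
      have h3 : (c • BD N) ^ 2 = 0 := by
        rw [pow_two, smul_mul_smul_comm, ← BD_mul]
        have : (fun i => N i * N i) = fun i => (0 : Matrix (Fin (n i)) (Fin (n i)) ℂ) := funext hNN
        rw [this, BD_zero, smul_zero]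
      rw [← nexp h3, IsNilpotent.exp_eq_sum h3]
      simp [Finset.sum_range_succ]
    -- the polynomial family
    set M : Matrix (Fin (sz n)) (Fin (sz n)) (Polynomial ℂ) := 1 + (Polynomial.X : Polynomial ℂ) • (BD N).map Polynomial.C with hM
    have hMe : ∀ c : ℂ, M.map (Polynomial.eval c) = 1 + c • BD N := by
      intro c
      ext i j
      rw [hM, Matrix.map_apply, Matrix.add_apply, Matrix.add_apply, Matrix.smul_apply, Matrix.smul_apply, Matrix.map_apply,
        Polynomial.eval_add, smul_eq_mul, smul_eq_mul, Polynomial.eval_mul, Polynomial.eval_X, Polynomial.eval_C]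
      congr 1
      rw [Matrix.one_apply, Matrix.one_apply]
      split_ifs <;> simp
    rw [hexp, ← hMe]
    have hinf : (Set.range fun m : ℕ => ((((e * m : ℕ) : ℤ)) : ℂ)).Infinite := by
      refine Set.infinite_range_of_injective fun a b hab => ?_
      have h1 : (((e * a : ℕ) : ℤ)) = ((e * b : ℕ) : ℤ) := by exact_mod_cast hab
      have h2 : e * a = e * b := by exact_mod_cast h1
      exact Nat.eq_of_mul_eq_mul_left he h2
    refine Gal_poly Y M hinf ?_ c
    rintro _ ⟨m, rfl⟩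
    have h1 := hR ((e * m : ℕ) : ℤ)
    have h2 : BD (fun i => Rbm (b i) ((e * m : ℕ) : ℤ)) = 1 + ((((e * m : ℕ) : ℤ)) : ℂ) • BD N := by
      rw [← BD_smul, ← BD_one, ← BD_add]
      congr 1
      funext i
      unfold Rbm
      rw [hN]
      by_cases hk : (b i).k = Ki.s
      · simp only [if_pos hk]
      · simp only [if_neg hk]
        rw [zpow_natCast, pow_mul, hxe i, one_pow, sub_self, zero_smul, smul_zero]
    rw [h2] at h1
    show M.map (Polynomial.eval _) ∈ Gal Y
    rw [hMe]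
    exact h1
  have key : BD (fun i => Rbm (b i) (-m) * g i) ∈ Gal Y := by
    refine many_sub (Gal_isClosed Y) hbk hne hA ?_ ?_ hsp (fun i => ?_)
    · have := hR 1
      simp only [Rbm_one] at this
      exact this
    · have := hR (-1)
      simp only [Rbm_neg] at this
      exact this
    · refine SG_of ?_
      have := SGm_mul (hbk i) (Rbm_SGm (hbk i) (-m)) (hg i)
      rwa [neg_add_cancel] at this
  have h1 := (Gal Y).mul_mem (hR m) key
  rw [← BD_mul] at h1
  have h2 : (fun i => Rbm (b i) m * (Rbm (b i) (-m) * g i)) = g := by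
    funext i
    rw [← Matrix.mul_assoc, Rbm_mul (hbk i), add_neg_cancel, Rbm_zero, Matrix.one_mul]
  rwa [h2] at h1

end joint

end Q207.HM
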