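import Pool.Agent.Q207.HM.GRl
import Pool.Agent.Q207.HM.Joi

/-!
# Direct sums of hypergeometric systems
-/

set_option autoImplicit false

open PowerSeries Pool.Agent.Y113

namespace Q207.HM

open Pool.Agent.Y119.HY (Am Am_nil Jm cm cm_apply Ac_nil Hc Hq Hq_zero E Hf Yf Gal Sol Bm E_mul_neg)
open Pool.Agent.Y119.HZ (cf Hp cf_Hp T1 A1 ps_T1 ps_A1 exists_b Yt ix SDc_C)

variable {r : ℕ} {n : Fin r → ℕ}

lemma BD_map' {R S : Type*} [Semiring R] [Semiring S] (f : R → S) (h0 : f 0 = 0) (X : Bl n R) :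
    (BD X).map f = BD fun i => (X i).map f := by
  refine BD_of _ (fun i a b => ?_) fun i j h a b => ?_
  · rw [Matrix.map_apply, BD_eq]
    rfl
  · rw [Matrix.map_apply, BD_ne X h, h0]

/-- the direct sum of hypergeometric systems -/
noncomputable def jsys (h : ∀ i, HB (n i)) : Sys (sz n) where
  N := BD fun i => Am (n i)
  H := BD fun i => Hp (n i) (h i).Q

variable {h : ∀ i, HB (n i)}

lemma jsys_Hc (k : ℕ) : (jsys h).Hc k = BD fun i => Hc (n i) (h i).Q k := by
  unfold Sys.Hc jsys cf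
  rw [BD_map' _ (map_zero _), cm_BD]
  congr 1
  funext i
  show cm (cf (Hp (n i) (h i).Q) k) = _
  rw [cf_Hp]
  rfl

lemma jsys_N : cm (jsys h).N = BD fun i => cm (Am (n i)) := by
  unfold jsys
  rw [cm_BD]

lemma jsys_Y : (jsys h).Y = Yf (BD fun i => cm (Am (n i))) (fun k => BD fun i => Hc (n i) (h i).Q k) := by
  unfold Sys.Y
  rw [jsys_N]
  congr 1
  funext k
  exact jsys_Hc k

lemma BD_entry {R : Type*} [Semiring R] {P : R → Prop} (h0 : P 0) {X : Bl n R} (hX : ∀ i a b, P (X i a b))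
    (a b : Fin (sz n)) : P (BD X a b) := by
  obtain ⟨⟨i, a⟩, rfl⟩ := finSigmaFinEquiv.surjective a
  obtain ⟨⟨j, b⟩, rfl⟩ := finSigmaFinEquiv.surjective b
  by_cases hij : i = j
  · subst hij
    rw [BD_eq]
    exact hX i a b
  · rw [BD_ne X hij]
    exact h0

/-- **the direct sum satisfies the hypotheses** -/
theorem jsys_okG (hg : ∀ i, QG (n i) (h i).Q) (hS : ∀ i a b, SDc (Hp (n i) (h i).Q a b)) : SysOK (jsys h) := by
  have hSol : Sol (cm (jsys h).N) (BD fun i => cm (Bm (n i) (h i).Q)) (jsys h).Hc := by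
    rw [jsys_N]
    have : (jsys h).Hc = fun k => BD fun i => Hc (n i) (h i).Q k := funext jsys_Hc
    rw [this]
    exact sol_BD fun i => sol_cG (hg i)
  have hN0 : (jsys h).N ^ sz n = 0 := BD_nil fun i => Am_nil
  have hSD0 : SDc (0 : ℚ⟦X⟧) := by
    have := SDc_C 0
    rwa [map_zero] at this
  have hcf0 : cf (jsys h).H 0 = 1 := by
    unfold jsys cf
    rw [BD_map' _ (map_zero _), ← BD_one]
    congr 1
    funext i
    show cf (Hp (n i) (h i).Q) 0 = 1
    rw [cf_Hp, Hq_zero]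
  refine ⟨hN0, ⟨_, hSol⟩, fun δ => ?_⟩
  choose D b hD hb using fun i => exists_b (n i) (h i).Q
  -- a common multiple
  set D' : ℕ := ∏ i, D i with hD'
  have hD'0 : D' ≠ 0 := Finset.prod_ne_zero_iff.2 fun i _ => hD i
  choose c hc using fun i => (Finset.dvd_prod_of_mem D (Finset.mem_univ i))
  set b' : ∀ i, Fin (n i) → Fin (n i) → ℤ := fun i x y => (c i : ℤ) * b i x y with hb'
  have hbb : ∀ i x y, ((b' i x y : ℤ) : ℚ) = (D' : ℚ) * Bm (n i) (h i).Q x y := by
    intro i x y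
    rw [hb']
    push_cast
    rw [hb, hD', hc i]
    push_cast
    ring
  set Nz : Matrix (Fin (sz n)) (Fin (sz n)) ℤ := BD fun i => Matrix.of fun x y => if (y : ℕ) = x + 1 then 1 else 0 with hNz
  have hNzq : ∀ x y, ((Nz x y : ℤ) : ℚ) = (jsys h).N x y := by
    intro x y
    have h1 : Nz.map (fun z : ℤ => (z : ℚ)) = (jsys h).N := by
      rw [hNz, BD_map' _ Int.cast_zero]
      unfold jsys
      congr 1
      funext i
      ext x y
      rw [Matrix.map_apply, Matrix.of_apply]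
      unfold Am
      rw [Matrix.of_apply]
      split_ifs <;> simp
    rw [← h1, Matrix.map_apply]
  set W : Matrix (Fin (sz n)) (Fin (sz n)) ℚ⟦X⟧ := BD fun i => Wg (n i) (h i).Q with hW
  have hHW : (jsys h).H * W = 1 := by
    unfold jsys
    rw [hW, ← BD_mul, ← BD_one]
    congr 1
    funext i
    exact mul_Wg (hg i)
  have hT : T1 D' ≠ 0 := by
    refine mul_ne_zero (Polynomial.C_ne_zero.2 (by exact_mod_cast hD'0)) ?_
    intro h0
    have := congrArg (Polynomial.eval 0) h0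
    simp at this
  set A : Matrix (Fin (sz n)) (Fin (sz n)) (Polynomial ℤ) := BD fun i => Matrix.of (A1 (n i) D' (b' i)) with hA
  have hps : ∀ X : Bl n (Polynomial ℤ), (BD X).map ps = BD fun i => (X i).map ps := by
    intro X
    refine BD_map' _ ?_ X
    unfold ps
    simp
  have hode : ∀ i j, ps (T1 D') * (X * d⁄dX ℚ ((jsys h).H i j) + ∑ k, (jsys h).H i k * C ((jsys h).N k j)) =
      ∑ k, ps (A i k) * (jsys h).H k j := by
    intro x y
    have e1 : ∑ k, (jsys h).H x k * C ((jsys h).N k y) = ((jsys h).H * ((jsys h).N).map C) x y := by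
      rw [Matrix.mul_apply]
      rfl
    have e2 : ∑ k, ps (A x k) * (jsys h).H k y = (A.map ps * (jsys h).H) x y := by
      rw [Matrix.mul_apply]
      rfl
    rw [e1, e2]
    unfold jsys
    simp only
    rw [BD_map' _ (map_zero _), ← BD_mul, hA, hps, ← BD_mul]
    obtain ⟨⟨i, x⟩, rfl⟩ := finSigmaFinEquiv.surjective x
    obtain ⟨⟨j, y⟩, rfl⟩ := finSigmaFinEquiv.surjective y
    by_cases hij : i = j
    · subst hij
      rw [BD_eq, BD_eq, BD_eq]
      have h1 := ode_intG (hg i) (hbb i) x y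
      rw [Matrix.mul_apply, Matrix.mul_apply]
      exact h1
    · rw [BD_ne _ hij, BD_ne _ hij, BD_ne _ hij, map_zero, mul_zero, add_zero, mul_zero]
  refine Pool.Agent.Y119.HZ.fam_gen (H := (jsys h).H) (W := W) (N := (jsys h).N) (Nz := Nz) (T₁ := T1 D') (A := A) hN0 hNzq hT hHW
    (fun x y => ?_) hode (fun x y => ?_) (fun x y => ?_) δ
  · have h1 := congrFun (congrFun hcf0 x) y
    unfold cf at h1
    rw [Matrix.map_apply, Matrix.one_apply] at h1
    exact h1
  · unfold jsys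
    exact BD_entry (P := SDc) hSD0 hS x y
  · rw [hW]
    exact BD_entry (P := SDc) hSD0 (fun i a b => SDc_Wg (hS i) a b) x y

theorem jsys_ok (hh : ∀ i, HBok (h i)) (hS : ∀ i a b, SDc (Hp (n i) (h i).Q a b)) : SysOK (jsys h) :=
  jsys_okG (fun i => (hh i).g) hS

/-- the value -/
lemma jsys_Yt (t : ℕ) : (jsys h).Yt t = BD fun i => Yt (n i) (h i).Q t := by
  unfold Sys.Yt
  have h1 : (jsys h).Hc = fun k => BD fun i => Hc (n i) (h i).Q k := funext jsys_Hc
  rw [h1, jsys_N, Hf_BD, E_BD (fun i => Ac_nil), ← BD_mul]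
  rfl

end Q207.HM
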