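import Pool.Agent.Y119.HY.Data2
import Pool.Agent.Q207.HM.Cnn

/-!
# The hypergeometric system with exponents `0, …, 0` at `0` and arbitrary exponents at infinity
-/

set_option autoImplicit false

open Filter Topology Matrix

namespace Q207.HM

open Pool.Agent.Y119.HY (Am Am_mul mul_Am Am_pow Am_nil Bm um kx aq aq_succ hq Hq Hq_zero lin_eq cm cm_apply cm_mul cm_add cm_pow Hc uc ec
  uc_eq cm_vec mv_apply a0 a0_succ no_ext Ac_nil Ac_ec Ac_last Sol PG ps Hf Lens E Yf E_fix)

/-- monic polynomials without roots at the integers -/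
structure QG (n : ℕ) (Q : Polynomial ℚ) : Prop where
  two : 2 ≤ n
  monic : Q.Monic
  deg : Q.natDegree = n
  ne : ∀ l : ℕ, Q.eval (l : ℚ) ≠ 0
  ne' : ∀ l : ℕ, Q.eval (-((l : ℚ) + 1)) ≠ 0

variable {n : ℕ} {Q : Polynomial ℚ}

lemma Bm_mulG (k : ℕ) (hQ : QG n Q) (i j : Fin n) : (Bm n Q * Hq n Q k) i j = if (i : ℕ) + 1 = n then
    PowerSeries.coeff (j : ℕ) (Polynomial.aeval (kx k) Q * aq n Q k) -
      PowerSeries.coeff (j : ℕ) (kx k ^ n * aq n Q k) else 0 := by
  rw [Matrix.mul_apply]
  unfold Bm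
  simp only [Matrix.of_apply, ite_mul, zero_mul]
  split_ifs with h
  · have h1 : Polynomial.aeval (kx k) Q = ∑ l ∈ Finset.range n, PowerSeries.C (Q.coeff l) * kx k ^ l + kx k ^ n := by
      rw [Polynomial.aeval_eq_sum_range, hQ.deg, Finset.sum_range_succ]
      have h2 : Q.coeff n = 1 := by
        rw [← hQ.deg]
        exact hQ.monic.coeff_natDegree
      rw [h2, one_smul]
      congr 1
      refine Finset.sum_congr rfl fun l _ => ?_
      rw [PowerSeries.smul_eq_C_mul]
    rw [h1, add_mul, map_add, add_sub_cancel_right, Finset.sum_mul, map_sum, Finset.sum_range]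
    refine Finset.sum_congr rfl fun l _ => ?_
    rw [mul_assoc, PowerSeries.coeff_C_mul]
    rfl
  · exact Finset.sum_const_zero

theorem step_qG (hQ : QG n Q) (k : ℕ) (i j : Fin n) :
    ((k : ℚ) + 1) * Hq n Q (k + 1) i j + ((Hq n Q (k + 1) * Am n) i j - (Am n * Hq n Q (k + 1)) i j) =
    (k : ℚ) * Hq n Q k i j + ((Hq n Q k * Am n) i j - (Am n * Hq n Q k) i j) + (Bm n Q * Hq n Q k) i j := by
  have e1 := lin_eq (n := n) (Q := Q) (k + 1) i j
  have e2 := lin_eq (n := n) (Q := Q) k i j
  push_cast at e1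
  rw [add_sub_assoc', add_sub_assoc', e1, e2, Am_mul, Am_mul, Bm_mulG k hQ]
  by_cases h : (i : ℕ) + 1 < n
  · rw [dif_pos h, dif_pos h, if_neg (by omega)]
    unfold Hq hq
    simp only [Matrix.of_apply, sub_self, add_zero]
  · have h' : (i : ℕ) + 1 = n := by have := i.2; omega
    rw [dif_neg h, dif_neg h, if_pos h', h', sub_zero, sub_zero, add_sub_cancel, aq_succ]

lemma sol_cG (hQ : QG n Q) : Sol (cm (Am n)) (cm (Bm n Q)) (Hc n Q) := by
  refine ⟨?_, fun k => ?_⟩
  · unfold Hc
    rw [Hq_zero, Pool.Agent.Y119.HY.cm_one]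
  · ext i j
    have h := step_qG hQ k i j
    unfold Hc
    rw [← cm_mul, ← cm_mul, ← cm_mul, ← cm_mul, ← cm_mul]
    simp only [Matrix.add_apply, Matrix.smul_apply, Matrix.sub_apply, smul_eq_mul, cm_apply]
    exact_mod_cast h

/-- the coefficients as a vector -/
noncomputable def qc (n : ℕ) (Q : Polynomial ℚ) : Fin n → ℂ := fun j => ((Q.coeff j : ℚ) : ℂ)

lemma cm_BmG : cm (Bm n Q) = vecMulVec (uc n) (qc n Q) := by
  ext i j
  rw [cm_apply, vecMulVec_apply]
  unfold Bm uc qc
  rw [Matrix.of_apply]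
  split_ifs <;> simp

/-! ### the first solution is singular at one -/

lemma a0_neG (hQ : QG n Q) (k : ℕ) : a0 n Q k ≠ 0 := by
  induction k with
  | zero =>
    unfold a0 aq
    simp
  | succ k ih =>
    rw [a0_succ]
    refine mul_ne_zero ih (div_ne_zero (hQ.ne k) (pow_ne_zero _ ?_))
    exact_mod_cast Nat.succ_ne_zero k

lemma ratioG (hQ : QG n Q) : Tendsto (fun k : ℕ => (((Q.eval (k : ℚ) / ((k : ℚ) + 1) ^ n : ℚ)) : ℝ)) atTop (𝓝 1) := by
  set P : Polynomial ℝ := Q.map (algebraMap ℚ ℝ) with hP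
  set R : Polynomial ℝ := (Polynomial.X + Polynomial.C 1) ^ n with hR
  have hRm : R.Monic := (Polynomial.monic_X_add_C (1 : ℝ)).pow n
  have hPm : P.Monic := hQ.monic.map _
  have hdeg : P.degree = R.degree := by
    rw [Polynomial.degree_eq_natDegree hPm.ne_zero, Polynomial.degree_eq_natDegree hRm.ne_zero, hP,
      Polynomial.natDegree_map, hQ.deg, hR, Polynomial.natDegree_pow, Polynomial.natDegree_X_add_C, mul_one]
  have h1 := Polynomial.div_tendsto_atTop_leadingCoeff_div_of_degree_eq P R hdeg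
  rw [hPm.leadingCoeff, hRm.leadingCoeff, div_one] at h1
  have h2 := h1.comp (tendsto_natCast_atTop_atTop (R := ℝ))
  refine h2.congr fun k => ?_
  simp only [Function.comp]
  rw [hR, Polynomial.eval_pow, Polynomial.eval_add, Polynomial.eval_X, Polynomial.eval_C, hP]
  push_cast
  congr 1
  rw [Polynomial.eval_map, ← Polynomial.aeval_def]
  have := Polynomial.aeval_algebraMap_apply ℝ (k : ℚ) Q
  simp only [map_natCast] at this
  rw [this, Polynomial.aeval_def]
  rfl

/-- a sequence of rational numbers with ratio tending to one -/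
theorem no_extR {a : ℕ → ℚ} (hne : ∀ k, a k ≠ 0) {ρ : ℕ → ℚ} (hstep : ∀ k, a (k + 1) = a k * ρ k)
    (hρ : Tendsto (fun k => ((ρ k : ℚ) : ℝ)) atTop (𝓝 1)) (hpg : PG fun k => (((a k : ℚ) : ℝ) : ℂ)) {g : ℂ → ℂ}
    (hg : AnalyticOnNhd ℂ g (Metric.ball 1 1)) (hext : ∀ z ∈ Lens, ps (fun k => (((a k : ℚ) : ℝ) : ℂ)) z = g z) : False := by
  obtain ⟨K₀, hK₀⟩ := Filter.eventually_atTop.1 (hρ.eventually (lt_mem_nhds (show (9 / 10 : ℝ) < 1 by norm_num)))
  have hstep' : ∀ k, ((a (k + 1) : ℚ) : ℝ) = ((a k : ℚ) : ℝ) * ((ρ k : ℚ) : ℝ) := by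
    intro k
    rw [hstep]
    push_cast
    rfl
  rcases lt_or_gt_of_ne (hne K₀) with h0 | h0
  · have hpos : ∀ k ≥ K₀, ((a k : ℚ) : ℝ) < 0 := by
      intro k hk
      induction k, hk using Nat.le_induction with
      | base => exact_mod_cast h0
      | succ k hk ih =>
        rw [hstep']
        exact mul_neg_of_neg_of_pos ih (by linarith [hK₀ k hk])
    refine no_ext (a := fun k => -((a k : ℚ) : ℝ)) (K₀ := K₀) ?_ (fun k hk => by linarith [hpos k hk]) (fun k hk => ?_)
      (g := fun z => -g z) hg.neg fun z hz => ?_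
    · have := hpg.smul (-1)
      refine (congrArg PG ?_).mp this
      funext k
      push_cast
      ring
    · rw [hstep']
      nlinarith [hpos k hk, hK₀ k hk]
    · rw [← hext z hz]
      have := Pool.Agent.Y119.HY.ps_smul (c := fun k => (((a k : ℚ) : ℝ) : ℂ)) (-1) z
      rw [neg_one_mul] at this
      rw [← this]
      congr 1
      funext k
      push_cast
      ring
  · have hpos : ∀ k ≥ K₀, 0 < ((a k : ℚ) : ℝ) := by
      intro k hk
      induction k, hk using Nat.le_induction with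
      | base => exact_mod_cast h0
      | succ k hk ih =>
        rw [hstep']
        exact mul_pos ih (by linarith [hK₀ k hk])
    refine no_ext hpg hpos (fun k hk => ?_) hg hext
    rw [hstep']
    nlinarith [hpos k hk, hK₀ k hk]

/-- the first solution is singular at one -/
lemma singG (hQ : QG n Q) (g : ℂ → ℂ) (hg : AnalyticOnNhd ℂ g (Metric.ball 1 1))
    (hext : ∀ z ∈ Lens, (Hf (Hc n Q) z *ᵥ ec n) ⟨0, by have := hQ.two; omega⟩ = g z) : False := by
  have hn := hQ.two
  have e1 : ∀ z, (Hf (Hc n Q) z *ᵥ ec n) ⟨0, by omega⟩ = ps (fun k => (((a0 n Q k : ℚ) : ℝ) : ℂ)) z := by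
    intro z
    rw [mv_apply]
    unfold ec
    rw [Finset.sum_eq_single ⟨0, by omega⟩]
    · rw [if_pos rfl, mul_one]
      unfold Hf
      rw [Matrix.of_apply]
      congr 1
      funext k
      unfold Hc
      rw [cm_apply]
      unfold Hq hq a0
      rw [Matrix.of_apply]
      simp
    · intro b _ hb
      rw [if_neg, mul_zero]
      intro h'
      exact hb (Fin.ext h')
    · intro h'
      exact absurd (Finset.mem_univ _) h'
  have hpg : PG fun k => (((a0 n Q k : ℚ) : ℝ) : ℂ) := by
    have h := (sol_cG hQ).growth Ac_nil ⟨0, by omega⟩ ⟨0, by omega⟩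
    refine (congrArg PG ?_).mp h
    funext k
    unfold Hc
    rw [cm_apply]
    unfold Hq hq a0
    rw [Matrix.of_apply]
    simp
  exact no_extR (a0_neG hQ) a0_succ (ratioG hQ) hpg hg fun z hz => by rw [← e1, hext z hz]

/-! ### the adjoint system -/

lemma mul_AmC (X : Matrix (Fin n) (Fin n) ℂ) (i j : Fin n) :
    (X * cm (Am n)) i j = if h : (j : ℕ) = 0 then 0 else X i ⟨j - 1, by omega⟩ := by
  rw [Matrix.mul_apply]
  simp only [cm_apply, Am, Matrix.of_apply]
  split_ifs with h
  · exact Finset.sum_eq_zero fun x _ => by rw [if_neg (by omega)]; simp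
  · rw [Finset.sum_eq_single ⟨(j : ℕ) - 1, by omega⟩]
    · rw [if_pos]
      · simp
      · simp only
        omega
    · intro b _ hb
      rw [if_neg]
      · simp
      · intro h'
        exact hb (Fin.ext (by simp only; omega))
    · intro h'
      exact absurd (Finset.mem_univ _) h'

/-- the last row of `A X` vanishes -/
lemma Am_last (X : Matrix (Fin n) (Fin n) ℂ) (i j : Fin n) (hi : (i : ℕ) + 1 = n) : (cm (Am n) * X) i j = 0 := by
  rw [Matrix.mul_apply]
  simp only [cm_apply, Am, Matrix.of_apply]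
  refine Finset.sum_eq_zero fun x _ => ?_
  rw [if_neg (by have := x.2; omega)]
  simp

/-- the coefficients of the last solution of the adjoint system -/
noncomputable def bq (n : ℕ) (Q : Polynomial ℚ) : ℕ → ℚ
  | 0 => 1
  | k + 1 => bq n Q k * (Q.eval (-((k : ℚ) + 1)) / (-((k : ℚ) + 1)) ^ n)

lemma bq_ne (hQ : QG n Q) (k : ℕ) : bq n Q k ≠ 0 := by
  induction k with
  | zero => exact one_ne_zero
  | succ k ih =>
    unfold bq
    refine mul_ne_zero ih (div_ne_zero (hQ.ne' k) (pow_ne_zero _ ?_))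
    have : ((k : ℚ) + 1) ≠ 0 := by exact_mod_cast Nat.succ_ne_zero k
    exact neg_ne_zero.2 this

lemma ratio_b (hQ : QG n Q) :
    Tendsto (fun k : ℕ => (((Q.eval (-((k : ℚ) + 1)) / (-((k : ℚ) + 1)) ^ n : ℚ)) : ℝ)) atTop (𝓝 1) := by
  set P : Polynomial ℝ := (Q.map (algebraMap ℚ ℝ)).comp (-Polynomial.X) with hP
  set R : Polynomial ℝ := (-Polynomial.X) ^ n with hR
  have hdegX : (-Polynomial.X : Polynomial ℝ).natDegree = 1 := by rw [Polynomial.natDegree_neg, Polynomial.natDegree_X]
  have hlX : (-Polynomial.X : Polynomial ℝ).leadingCoeff = -1 := by rw [Polynomial.leadingCoeff_neg, Polynomial.leadingCoeff_X]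
  have hPm : (Q.map (algebraMap ℚ ℝ)).Monic := hQ.monic.map _
  have hPl : P.leadingCoeff = (-1) ^ n := by
    rw [hP, Polynomial.leadingCoeff_comp (by rw [hdegX]; exact one_ne_zero), hPm.leadingCoeff, hlX, one_mul,
      Polynomial.natDegree_map, hQ.deg]
  have hRl : R.leadingCoeff = (-1) ^ n := by rw [hR, Polynomial.leadingCoeff_pow, hlX]
  have hP0 : P ≠ 0 := by
    intro h
    rw [h, Polynomial.leadingCoeff_zero] at hPl
    exact pow_ne_zero n (by norm_num : (-1 : ℝ) ≠ 0) hPl.symm
  have hR0 : R ≠ 0 := by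
    intro h
    rw [h, Polynomial.leadingCoeff_zero] at hRl
    exact pow_ne_zero n (by norm_num : (-1 : ℝ) ≠ 0) hRl.symm
  have hdeg : P.degree = R.degree := by
    rw [Polynomial.degree_eq_natDegree hP0, Polynomial.degree_eq_natDegree hR0, hP, Polynomial.natDegree_comp, hdegX,
      Polynomial.natDegree_map, hQ.deg, hR, Polynomial.natDegree_pow, hdegX]
  have h1 := Polynomial.div_tendsto_atTop_leadingCoeff_div_of_degree_eq P R hdeg
  rw [hPl, hRl, div_self (pow_ne_zero n (by norm_num))] at h1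
  have h2 := h1.comp ((tendsto_natCast_atTop_atTop (R := ℝ)).comp (tendsto_add_atTop_nat 1))
  refine h2.congr fun k => ?_
  simp only [Function.comp]
  rw [hR, Polynomial.eval_pow, Polynomial.eval_neg, Polynomial.eval_X, hP, Polynomial.eval_comp, Polynomial.eval_neg,
    Polynomial.eval_X]
  push_cast
  congr 1
  rw [Polynomial.eval_map, ← Polynomial.aeval_def]
  have := Polynomial.aeval_algebraMap_apply ℝ (-((k : ℚ) + 1)) Q
  simp only [map_neg, map_add, map_one, map_natCast] at this
  rw [this, Polynomial.aeval_def]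
  rfl

section last

variable {W : ℕ → Matrix (Fin n) (Fin n) ℂ} (hW : SolL (cm (Am n)) (cm (Bm n Q)) W) (hQ : QG n Q)

/-- the last index -/
def li (hn : 2 ≤ n) : Fin n := ⟨n - 1, by omega⟩

include hW in
lemma last_D (k : ℕ) (j : Fin n) : (k : ℂ) * W k (li hQ.two) j +
    (if h : (j : ℕ) = 0 then 0 else W k (li hQ.two) ⟨j - 1, by omega⟩) =
    -(qc n Q j * ∑ l ∈ Finset.range k, W l (li hQ.two) (li hQ.two)) := by
  have hn := hQ.two
  induction k with
  | zero =>
    rw [solL_zero hW]
    simp only [Nat.cast_zero, zero_mul, zero_add, Finset.range_zero, Finset.sum_empty, mul_zero, neg_zero]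
    split_ifs with h
    · rfl
    · rw [Matrix.one_apply_ne]
      intro h2
      have h3 := congrArg Fin.val h2
      unfold li at h3
      simp only at h3
      have := j.2
      omega
  | succ k ih =>
    have h1 := congrFun (congrFun (solL_step hW k) (li hn)) j
    simp only [Matrix.add_apply, Matrix.sub_apply, Matrix.smul_apply, smul_eq_mul] at h1
    have hi : ((li hn : Fin n) : ℕ) + 1 = n := by
      unfold li
      simp only
      omega
    rw [Am_last _ _ _ hi, Am_last _ _ _ hi, mul_AmC, mul_AmC, sub_zero, sub_zero] at h1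
    have h2 : (W k * cm (Bm n Q)) (li hn) j = W k (li hn) (li hn) * qc n Q j := by
      rw [cm_BmG, Matrix.mul_apply, Finset.sum_eq_single (li hn)]
      · rw [vecMulVec_apply]
        unfold uc
        rw [if_pos hi, one_mul]
      · intro b _ hb
        rw [vecMulVec_apply]
        unfold uc
        rw [if_neg, zero_mul, mul_zero]
        intro h3
        apply hb
        apply Fin.ext
        unfold li
        simp only
        omega
      · intro h'
        exact absurd (Finset.mem_univ _) h'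
    rw [h2, ih] at h1
    push_cast
    rw [h1, Finset.sum_range_succ]
    ring

include hW in
lemma last_pow (k : ℕ) (j : ℕ) (hj : j < n) : (-((k : ℂ))) ^ (j + 1) * W k (li hQ.two) ⟨j, hj⟩ =
    (∑ i ∈ Finset.range (j + 1), ((Q.coeff i : ℚ) : ℂ) * (-((k : ℂ))) ^ i) * ∑ l ∈ Finset.range k, W l (li hQ.two) (li hQ.two) := by
  induction j with
  | zero =>
    have h1 := last_D hW hQ k ⟨0, hj⟩
    rw [dif_pos rfl, add_zero] at h1
    unfold qc at h1
    rw [Finset.sum_range_one, pow_zero, mul_one, zero_add, pow_one]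
    linear_combination -h1
  | succ j ih =>
    have h1 := last_D hW hQ k ⟨j + 1, hj⟩
    rw [dif_neg (by simp)] at h1
    simp only [Nat.add_sub_cancel] at h1
    unfold qc at h1
    have h2 := ih (by omega)
    rw [Finset.sum_range_succ, add_mul, ← h2]
    rw [pow_succ (-(k : ℂ)) (j + 1)]
    linear_combination (-(-(k : ℂ)) ^ (j + 1)) * h1

include hW in
/-- the sums of the last entries -/
lemma sum_last (k : ℕ) : ∑ l ∈ Finset.range (k + 1), W l (li hQ.two) (li hQ.two) = ((bq n Q k : ℚ) : ℂ) := by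
  have hn := hQ.two
  induction k with
  | zero =>
    rw [Finset.sum_range_one, solL_zero hW, Matrix.one_apply_eq]
    unfold bq
    simp
  | succ k ih =>
    rw [Finset.sum_range_succ, ih]
    have h1 := last_pow hW hQ (k + 1) (n - 1) (by omega)
    rw [ih] at h1
    have e0 : n - 1 + 1 = n := by omega
    rw [e0] at h1
    have hk : (-(((k + 1 : ℕ) : ℂ))) ≠ 0 := neg_ne_zero.2 (by exact_mod_cast Nat.succ_ne_zero k)
    have hkn : (-(((k + 1 : ℕ) : ℂ))) ^ n ≠ 0 := pow_ne_zero _ hk
    -- the value of the polynomial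
    have h2 : (∑ i ∈ Finset.range n, ((Q.coeff i : ℚ) : ℂ) * (-(((k + 1 : ℕ) : ℂ))) ^ i) + (-(((k + 1 : ℕ) : ℂ))) ^ n =
        ((Q.eval (-((k : ℚ) + 1)) : ℚ) : ℂ) := by
      rw [Polynomial.eval_eq_sum_range, hQ.deg, Finset.sum_range_succ]
      have h3 : Q.coeff n = 1 := by
        rw [← hQ.deg]
        exact hQ.monic.coeff_natDegree
      rw [h3]
      push_cast
      rw [one_mul]
    have h4 : W (k + 1) (li hn) ⟨n - 1, by omega⟩ = W (k + 1) (li hn) (li hn) := rfl
    rw [h4] at h1
    have h5 : bq n Q (k + 1) = bq n Q k * (Q.eval (-((k : ℚ) + 1)) / (-((k : ℚ) + 1)) ^ n) := rfl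
    rw [h5]
    push_cast at h1 h2 hkn ⊢
    rw [mul_div_assoc', eq_div_iff hkn, ← h2]
    linear_combination h1

include hW in
lemma PG_b (hQ : QG n Q) : PG fun k => (((bq n Q k : ℚ) : ℝ) : ℂ) := by
  have h1 : PG fun k => ∑ p ∈ Finset.HasAntidiagonal.antidiagonal k, (1 : ℂ) * W p.2 (li hQ.two) (li hQ.two) :=
    PG_conv (c := fun _ => 1) ⟨1, 0, fun k => by simp⟩ (growthL hW (nr_nil Ac_nil) _ _)
  refine (congrArg PG ?_).mp h1
  funext k
  have h2 := sum_last hW hQ k
  rw [← Finset.Nat.sum_antidiagonal_swap]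
  rw [Finset.Nat.sum_antidiagonal_eq_sum_range_succ_mk]
  simp only [one_mul, Prod.snd_swap]
  rw [h2]
  push_cast
  rfl

end last

end Q207.HM
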