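import Mathlib

/-!
# The formula of Jacobi and Liouville for derivations
-/

set_option autoImplicit false

open Matrix

namespace Q207.HM

variable {R : Type*} [CommRing R] [Algebra ℚ R] {n : ℕ}

/-- a derivation as a homomorphism to the dual numbers -/
noncomputable def dh (D : Derivation ℚ R R) : R →+* DualNumber R where
  toFun x := TrivSqZeroExt.inl x + TrivSqZeroExt.inr (D x)
  map_one' := by
    rw [Derivation.map_one_eq_zero, TrivSqZeroExt.inr_zero, add_zero, TrivSqZeroExt.inl_one]
  map_zero' := by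
    rw [map_zero, TrivSqZeroExt.inr_zero, add_zero, TrivSqZeroExt.inl_zero]
  map_add' x y := by
    rw [map_add, TrivSqZeroExt.inl_add, TrivSqZeroExt.inr_add]
    abel
  map_mul' x y := by
    ext
    · simp
    · simp only [Derivation.leibniz, TrivSqZeroExt.snd_add, TrivSqZeroExt.snd_inl, TrivSqZeroExt.snd_inr, zero_add, TrivSqZeroExt.snd_mul,
        TrivSqZeroExt.fst_add, TrivSqZeroExt.fst_inl, TrivSqZeroExt.fst_inr, add_zero, smul_eq_mul, MulOpposite.smul_eq_mul_unop,
        MulOpposite.unop_op]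
      ring

lemma dh_apply (D : Derivation ℚ R R) (x : R) : dh D x = TrivSqZeroExt.inl x + TrivSqZeroExt.inr (D x) := rfl

/-- **Liouville.** -/
theorem det_der (D : Derivation ℚ R R) {H G A : Matrix (Fin n) (Fin n) R} (h : ∀ i j, D (H i j) = (G * H) i j - (H * A) i j) :
    D H.det = (G.trace - A.trace) * H.det := by
  set ι : R →+* DualNumber R := TrivSqZeroExt.inlHom R R with hι
  set ε : DualNumber R := DualNumber.eps with hε
  have hεε : ε * ε = 0 := DualNumber.eps_mul_eps
  have h1 : (dh D).mapMatrix H = (1 + ε • ι.mapMatrix G) * ι.mapMatrix H * (1 + ε • (-ι.mapMatrix A)) := by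
    have e1 : (1 + ε • ι.mapMatrix G) * ι.mapMatrix H * (1 + ε • (-ι.mapMatrix A)) =
        ι.mapMatrix H + ε • (ι.mapMatrix (G * H) - ι.mapMatrix (H * A)) - (ε * ε) • (ι.mapMatrix G * ι.mapMatrix H * ι.mapMatrix A) := by
      rw [map_mul, map_mul, mul_smul]
      simp only [Matrix.add_mul, Matrix.mul_add, Matrix.one_mul, Matrix.mul_one, Matrix.smul_mul, Matrix.mul_smul, Matrix.mul_neg,
        smul_neg, smul_sub, smul_add]
      abel
    rw [e1, hεε, zero_smul, sub_zero]
    ext1 i j
    rw [Matrix.add_apply, Matrix.smul_apply, Matrix.sub_apply]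
    simp only [RingHom.mapMatrix_apply, Matrix.map_apply]
    rw [dh_apply, h]
    have e2 : ∀ x : R, ε * ι x = TrivSqZeroExt.inr x := by
      intro x
      rw [hε, hι]
      show DualNumber.eps * TrivSqZeroExt.inl x = _
      ext <;> simp
    rw [smul_eq_mul, mul_sub, e2, e2, ← TrivSqZeroExt.inr_sub]
    rfl
  have hd : ∀ M : Matrix (Fin n) (Fin n) (DualNumber R), (1 + ε • M).det = 1 + M.trace * ε := by
    intro M
    rw [det_one_add_smul, sq ε, hεε, mul_zero, add_zero]
  have h2 := congrArg Matrix.det h1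
  rw [← RingHom.map_det, det_mul, det_mul, hd, hd, ← RingHom.map_det, trace_neg] at h2
  have h3 : ∀ M : Matrix (Fin n) (Fin n) R, (ι.mapMatrix M).trace = ι M.trace := by
    intro M
    unfold Matrix.trace
    rw [map_sum]
    rfl
  rw [h3, h3] at h2
  have h4 := congrArg TrivSqZeroExt.snd h2
  rw [dh_apply] at h4
  have e3 : (1 + ι G.trace * ε) * ι H.det * (1 + -ι A.trace * ε) =
      ι H.det + (ι G.trace * ι H.det - ι A.trace * ι H.det) * ε - (ι G.trace * ι A.trace * ι H.det) * (ε * ε) := by ring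
  rw [e3, hεε, mul_zero, sub_zero, ← map_mul, ← map_mul, ← map_sub] at h4
  simp only [TrivSqZeroExt.snd_add, TrivSqZeroExt.snd_inl, TrivSqZeroExt.snd_inr, zero_add] at h4
  rw [h4]
  have e4 : ∀ x : R, TrivSqZeroExt.snd (ι x + (ι G.trace * ι H.det - ι A.trace * ι H.det) * ε) = (G.trace - A.trace) * H.det := by
    intro x
    rw [hι, hε]
    simp [sub_mul]
  rw [← e4 H.det]
  simp

end Q207.HM
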