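import Pool.Agent.Q207.HM.Ari
import Pool.Agent.Q207.HM.Jac
import Pool.Agent.Y119.HY.Inv

/-!
# The hypergeometric system: formal differential equation, the inverse matrix, and the G-system, general exponents
-/

set_option autoImplicit false

open PowerSeries

namespace Q207.HM

open Pool.Agent.Y113 (SDc GSys)
open Pool.Agent.Y119.HY (Am Jm Bm Hq hq hps Hq_zero Jm_rel Am_nil mul_Am cm poch_int sdc_of)
open Pool.Agent.Y119.HZ (cf Hp km km_apply cf_Hp cf_km_mul cf_mul_km th th_mul th_transpose th_km cf_th cf_ext coeff_X_deriv SDc_C SDc.sum'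
  SDc_matmul SDc_km T1 A1 ps_T1 ps_A1 exists_b gsysL)

variable {n : ℕ} {Q : Polynomial ℚ}

/-- the system at the origin -/
theorem ode_HpG (hQ : QG n Q) : (1 - X : ℚ⟦X⟧) • (th (Hp n Q) + Hp n Q * km (Am n)) =
    ((1 - X : ℚ⟦X⟧) • km (Am n) + (X : ℚ⟦X⟧) • km (Bm n Q)) * Hp n Q := by
  have hS : (1 - X : ℚ⟦X⟧) • (th (Hp n Q) + Hp n Q * km (Am n) - km (Am n) * Hp n Q) = (X : ℚ⟦X⟧) • (km (Bm n Q) * Hp n Q) := by
    have hc : ∀ k, cf (th (Hp n Q) + Hp n Q * km (Am n) - km (Am n) * Hp n Q) k =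
        (k : ℚ) • Hq n Q k + (Hq n Q k * Am n - Am n * Hq n Q k) := by
      intro k
      have h1 : cf (th (Hp n Q) + Hp n Q * km (Am n) - km (Am n) * Hp n Q) k =
          cf (th (Hp n Q)) k + cf (Hp n Q * km (Am n)) k - cf (km (Am n) * Hp n Q) k := by
        ext i j
        unfold cf
        simp only [Matrix.map_apply, Matrix.sub_apply, Matrix.add_apply, map_sub, map_add]
      rw [h1, cf_th, cf_mul_km, cf_km_mul, cf_Hp, add_sub_assoc]
    ext i j k
    rw [Matrix.smul_apply, Matrix.smul_apply, smul_eq_mul, smul_eq_mul, sub_mul, one_mul, map_sub]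
    have h2 : ∀ k, coeff k ((th (Hp n Q) + Hp n Q * km (Am n) - km (Am n) * Hp n Q) i j) =
        ((k : ℚ) • Hq n Q k + (Hq n Q k * Am n - Am n * Hq n Q k)) i j := fun k => congrFun (congrFun (hc k) i) j
    have h3 : ∀ k, coeff k ((km (Bm n Q) * Hp n Q) i j) = (Bm n Q * Hq n Q k) i j := by
      intro k
      have := congrFun (congrFun (cf_km_mul (Bm n Q) (Hp n Q) k) i) j
      rw [cf_Hp] at this
      exact this
    rcases k with _ | k
    · rw [coeff_zero_X_mul, coeff_zero_X_mul, h2, Hq_zero]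
      simp
    · rw [coeff_succ_X_mul, coeff_succ_X_mul, h2, h2, h3]
      have h4 := step_qG hQ k i j
      simp only [Matrix.add_apply, Matrix.smul_apply, Matrix.sub_apply, smul_eq_mul]
      push_cast
      linear_combination h4
  rw [smul_sub] at hS
  rw [add_mul, smul_mul_assoc, smul_mul_assoc, ← hS]
  abel

/-! ### the power `(1 - X) ^ s` -/

/-- `(1 - X) ^ s` -/
noncomputable def bp (s : ℚ) : ℚ⟦X⟧ := PowerSeries.mk fun k => ∏ l ∈ Finset.range k, (((l : ℚ) + -s) / ((l : ℚ) + 1))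

lemma bp_step (s : ℚ) (k : ℕ) : ((k : ℚ) + 1) * coeff (k + 1) (bp s) = ((k : ℚ) - s) * coeff k (bp s) := by
  unfold bp
  rw [coeff_mk, coeff_mk, Finset.prod_range_succ]
  have : ((k : ℚ) + 1) ≠ 0 := by positivity
  field_simp
  ring

lemma bp_zero (s : ℚ) : constantCoeff (bp s) = 1 := by
  rw [← coeff_zero_eq_constantCoeff_apply]
  unfold bp
  rw [coeff_mk, Finset.range_zero, Finset.prod_empty]

lemma bp_ode (s : ℚ) : (1 - X) * d⁄dX ℚ (bp s) = -(C s * bp s) := by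
  ext k
  rw [sub_mul, one_mul, map_sub, map_neg, coeff_C_mul, coeff_derivative]
  rcases k with _ | k
  · rw [coeff_zero_X_mul]
    have := bp_step s 0
    push_cast at this ⊢
    linear_combination this
  · rw [coeff_succ_X_mul, coeff_derivative]
    have := bp_step s (k + 1)
    push_cast at this ⊢
    linear_combination this

lemma bp_sdc (s : ℚ) : SDc (bp s) := by
  refine sdc_of ⟨|(s : ℝ)| + 1, fun m => ?_⟩ ⟨(s.den : ℝ) ^ 2, fun m => ⟨(s.den ^ 2) ^ m, by
    have := s.den_pos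
    positivity, ?_, fun j hj => ?_⟩⟩
  · have h0 : (1 : ℝ) ≤ |(s : ℝ)| + 1 := by linarith [abs_nonneg (s : ℝ)]
    have h1 : ∀ m : ℕ, |((coeff m (bp s) : ℚ) : ℝ)| ≤ (|(s : ℝ)| + 1) ^ m := by
      intro m
      unfold bp
      rw [coeff_mk]
      push_cast
      rw [Finset.abs_prod, ← Finset.card_range m, ← Finset.prod_const, Finset.card_range]
      refine Finset.prod_le_prod (fun _ _ => abs_nonneg _) fun l _ => ?_
      rw [abs_div, abs_of_pos (by positivity : (0 : ℝ) < (l : ℝ) + 1), div_le_iff₀ (by positivity)]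
      have h2 : |(l : ℝ) + -(s : ℝ)| ≤ l + |(s : ℝ)| := by
        refine (abs_add_le _ _).trans ?_
        rw [abs_neg, abs_of_nonneg (by positivity : (0 : ℝ) ≤ (l : ℝ))]
      nlinarith [abs_nonneg (s : ℝ), (by positivity : (0 : ℝ) ≤ (l : ℝ)), mul_nonneg (abs_nonneg (s : ℝ)) (by positivity : (0 : ℝ) ≤ (l : ℝ))]
    exact (h1 m).trans (pow_le_pow_right₀ h0 (Nat.le_succ m))
  · push_cast
    refine pow_le_pow_right₀ ?_ (Nat.le_succ m)
    have : (1 : ℝ) ≤ s.den := by exact_mod_cast s.den_pos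
    nlinarith
  · obtain ⟨a, ha⟩ := poch_int (-s) j
    rw [Rat.neg_den] at ha
    refine ⟨(s.den : ℤ) ^ (2 * (m - j)) * a, ?_⟩
    unfold bp
    rw [coeff_mk]
    push_cast
    rw [← ha, pow_mul]
    have e1 : ((s.den : ℚ) ^ 2) ^ m = ((s.den : ℚ) ^ 2) ^ (m - j) * ((s.den : ℚ) ^ 2) ^ j := by rw [← pow_add]; congr 1; omega
    rw [e1]
    ring

/-! ### the determinant -/

/-- the derivation `(1 - X) X d/dX` -/
noncomputable def DX : Derivation ℚ ℚ⟦X⟧ ℚ⟦X⟧ := ((1 - X : ℚ⟦X⟧) * X) • d⁄dX ℚ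

lemma DX_apply (f : ℚ⟦X⟧) : DX f = (1 - X) * (X * d⁄dX ℚ f) := by
  unfold DX
  rw [Derivation.smul_apply, smul_eq_mul, mul_assoc]

lemma trace_Am (n : ℕ) : (km (Am n)).trace = 0 := by
  unfold Matrix.trace
  refine Finset.sum_eq_zero fun i _ => ?_
  rw [Matrix.diag_apply, km_apply]
  unfold Am
  rw [Matrix.of_apply, if_neg (by omega), map_zero]

lemma trace_Bm (hQ : QG n Q) : (km (Bm n Q)).trace = C (Q.coeff (n - 1)) := by
  unfold Matrix.trace
  have hn := hQ.two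
  rw [Finset.sum_eq_single (li hn)]
  · rw [Matrix.diag_apply, km_apply]
    unfold Bm li
    rw [Matrix.of_apply, if_pos (by dsimp only; omega)]
  · intro b _ hb
    rw [Matrix.diag_apply, km_apply]
    unfold Bm
    rw [Matrix.of_apply, if_neg, map_zero]
    intro h
    apply hb
    apply Fin.ext
    unfold li
    dsimp only
    omega
  · intro h
    exact absurd (Finset.mem_univ _) h

lemma det_ode (hQ : QG n Q) : (1 - X) * d⁄dX ℚ (Hp n Q).det = C (Q.coeff (n - 1)) * (Hp n Q).det := by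
  have h1 := ode_HpG hQ
  have h2 := det_der DX (H := Hp n Q) (G := (1 - X : ℚ⟦X⟧) • km (Am n) + (X : ℚ⟦X⟧) • km (Bm n Q)) (A := (1 - X : ℚ⟦X⟧) • km (Am n))
    fun i j => by
      have h3 := congrFun (congrFun h1 i) j
      rw [← h3, DX_apply, Matrix.mul_smul, Matrix.smul_apply, Matrix.smul_apply, Matrix.add_apply, smul_eq_mul, smul_eq_mul]
      show _ = (1 - X) * (X * d⁄dX ℚ (Hp n Q i j) + _) - _
      ring
  rw [DX_apply, Matrix.trace_add, Matrix.trace_smul, Matrix.trace_smul, trace_Am, trace_Bm hQ, smul_zero, zero_add, sub_zero, smul_eq_mul] at h2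
  have h3 : (X : ℚ⟦X⟧) * ((1 - X) * d⁄dX ℚ (Hp n Q).det) = X * (C (Q.coeff (n - 1)) * (Hp n Q).det) := by
    linear_combination h2
  exact mul_left_cancel₀ X_ne_zero h3

lemma det_zero : constantCoeff (Hp n Q).det = 1 := by
  rw [RingHom.map_det]
  have : (constantCoeff (R := ℚ)).mapMatrix (Hp n Q) = 1 := by
    ext i j
    rw [RingHom.mapMatrix_apply, Matrix.map_apply, ← coeff_zero_eq_constantCoeff_apply]
    have h1 := congrFun (congrFun (cf_Hp (n := n) (Q := Q) 0) i) j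
    rw [Hq_zero] at h1
    exact h1
  rw [this, Matrix.det_one]

lemma bp_det (hQ : QG n Q) : bp (Q.coeff (n - 1)) * (Hp n Q).det = 1 := by
  refine derivative.ext ?_ ?_
  · rw [Derivation.leibniz, Derivation.map_one_eq_zero, smul_eq_mul, smul_eq_mul]
    have h1 := det_ode hQ
    have h2 := bp_ode (Q.coeff (n - 1))
    have h3 : (1 - X : ℚ⟦X⟧) * (bp (Q.coeff (n - 1)) * d⁄dX ℚ (Hp n Q).det + (Hp n Q).det * d⁄dX ℚ (bp (Q.coeff (n - 1)))) = 0 := by
      linear_combination (bp (Q.coeff (n - 1))) * h1 + (Hp n Q).det * h2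
    have h1X : (1 - X : ℚ⟦X⟧) ≠ 0 := by
      intro h0
      have := congrArg (coeff 0) h0
      simp at this
    exact (mul_eq_zero.1 h3).resolve_left h1X
  · rw [map_mul, bp_zero, det_zero, one_mul, map_one]

/-- the inverse of the holomorphic part -/
noncomputable def Wg (n : ℕ) (Q : Polynomial ℚ) : Matrix (Fin n) (Fin n) ℚ⟦X⟧ := bp (Q.coeff (n - 1)) • (Hp n Q).adjugate

lemma mul_Wg (hQ : QG n Q) : Hp n Q * Wg n Q = 1 := by
  unfold Wg
  rw [Matrix.mul_smul, Matrix.mul_adjugate, smul_smul, bp_det hQ, one_smul]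

lemma SDc.prod' {σ : Type*} (S : Finset σ) {f : σ → ℚ⟦X⟧} (h : ∀ i ∈ S, SDc (f i)) : SDc (∏ i ∈ S, f i) := by
  classical
  induction S using Finset.induction_on with
  | empty =>
    rw [Finset.prod_empty]
    exact Pool.Agent.Y113.SDc.one
  | insert a S ha ih =>
    rw [Finset.prod_insert ha]
    exact (h a (Finset.mem_insert_self _ _)).mul (ih fun i hi => h i (Finset.mem_insert_of_mem hi))

lemma SDc_det {M : Matrix (Fin n) (Fin n) ℚ⟦X⟧} (hM : ∀ i j, SDc (M i j)) : SDc M.det := by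
  rw [Matrix.det_apply']
  refine SDc.sum' _ fun σ _ => Pool.Agent.Y113.SDc.mul ?_ (SDc.prod' _ fun i _ => hM _ _)
  exact Pool.Agent.Y113.SDc.int _

lemma SDc_adj {M : Matrix (Fin n) (Fin n) ℚ⟦X⟧} (hM : ∀ i j, SDc (M i j)) (i j : Fin n) : SDc (M.adjugate i j) := by
  rw [Matrix.adjugate_apply]
  refine SDc_det fun a b => ?_
  rw [Matrix.updateRow_apply]
  split_ifs
  · rw [Pi.single_apply]
    split_ifs
    · exact Pool.Agent.Y113.SDc.one
    · have := SDc_C 0
      rwa [map_zero] at this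
  · exact hM a b

lemma SDc_Wg (h : ∀ i j, SDc (Hp n Q i j)) (i j : Fin n) : SDc (Wg n Q i j) := by
  unfold Wg
  rw [Matrix.smul_apply, smul_eq_mul]
  exact (bp_sdc _).mul (SDc_adj h i j)

lemma ode_intG (hQ : QG n Q) {D : ℕ} {b : Fin n → Fin n → ℤ} (hb : ∀ i j, (b i j : ℚ) = D * Bm n Q i j) (i j : Fin n) :
    Pool.Agent.Y113.ps (T1 D) * (X * d⁄dX ℚ (Hp n Q i j) + ∑ k, Hp n Q i k * C (Am n k j)) =
      ∑ k, Pool.Agent.Y113.ps (A1 n D b i k) * Hp n Q k j := by
  have h1 := congrFun (congrFun (ode_HpG hQ) i) j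
  rw [Matrix.smul_apply, Matrix.add_apply, Matrix.mul_apply, Matrix.mul_apply, smul_eq_mul] at h1
  rw [ps_T1, mul_assoc]
  have h2 : X * d⁄dX ℚ (Hp n Q i j) = th (Hp n Q) i j := rfl
  have h3 : ∑ k, Hp n Q i k * C (Am n k j) = ∑ k, Hp n Q i k * km (Am n) k j := rfl
  rw [h2, h3, h1, Finset.mul_sum]
  refine Finset.sum_congr rfl fun k _ => ?_
  rw [ps_A1 hb, Matrix.add_apply, Matrix.smul_apply, Matrix.smul_apply, smul_eq_mul, smul_eq_mul, km_apply, km_apply]
  ring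

/-- **the entries of the holomorphic part form a G-system** -/
theorem gsys_HpG (hQ : QG n Q) (hH : ∀ i j, SDc (Hp n Q i j)) {D : ℕ} {b : Fin n → Fin n → ℤ}
    (hb : ∀ i j, (b i j : ℚ) = D * Bm n Q i j) :
    ∃ (q : ℕ) (C : ℝ), GSys q C (Polynomial.X * T1 D) (fun p : Fin n × Fin n => Hp n Q p.1 p.2) :=
  gsysL (N := Am n) Am_nil (mul_Wg hQ) (ode_intG hQ hb) hH (SDc_Wg hH)

end Q207.HM
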