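import Pool.Agent.Q207.HM.Sep3

/-!
# The Lie algebra of the family contains the product of the simple Lie algebras
-/

set_option autoImplicit false

open Matrix

namespace Q207.HM

open Pool.Agent.Y123.GN (bf ro ro_mul ro_add_left ro_add_right ro_smul_left ro_smul_right sym_bf)
open Pool.Agent.Y119.HY (E E_exp E_add E_zero E_mul_neg E_isom)

section sp

variable {n : ℕ} {A J : Matrix (Fin n) (Fin n) ℂ} {u : Fin n → ℂ}

lemma ro_E (hA : A ^ n = 0) (hAJ : Aᵀ * J + J * A = 0) (v : Fin n → ℂ) (s : ℂ) :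
    E A s * ro J v v * E A (-s) = ro J (E A s *ᵥ v) (E A s *ᵥ v) := by
  have hi := E_isom hA hAJ s
  have hE1 : E A s * E A (-s) = 1 := E_mul_neg hA s
  have j1 : (E A s)ᵀ * J = J * E A (-s) := by
    calc (E A s)ᵀ * J = (E A s)ᵀ * J * (E A s * E A (-s)) := by rw [hE1, Matrix.mul_one]
      _ = ((E A s)ᵀ * J * E A s) * E A (-s) := by simp only [Matrix.mul_assoc]
      _ = _ := by rw [hi]
  unfold ro
  rw [mul_vecMulVec, vecMulVec_mul, vecMul_vecMul, ← j1, ← vecMul_vecMul, vecMul_transpose]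

/-- **The symplectic algebra is generated.** -/
theorem sp_le (hJ : Jᵀ = -J) (hA : A ^ n = 0) (hAJ : Aᵀ * J + J * A = 0) (hcyc : (A ^ (n - 1)) *ᵥ u ≠ 0)
    (hform : ∃ s : ℂ, bf J u (E A s *ᵥ u) ≠ 0)
    {I : Submodule ℂ (Matrix (Fin n) (Fin n) ℂ)} (br : ∀ X ∈ I, ∀ Y ∈ I, X * Y - Y * X ∈ I)
    (hE : ∀ X ∈ I, ∀ s : ℂ, E A s * X * E A (-s) ∈ I) (hu : ro J u u ∈ I) : hS J ≤ I := by
  classical
  have hS2 : ∀ v w : Fin n → ℂ, ro J v v ∈ I → ro J w w ∈ I → bf J w v ≠ 0 → ro J w v + ro J v w ∈ I := by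
    intro v w hv hw h0
    have h1 := br _ hw _ hv
    rw [ro_mul, ro_mul, skew_bf hJ w v] at h1
    have h2 := I.smul_mem (bf J w v)⁻¹ h1
    have e : (bf J w v)⁻¹ • (bf J w v • ro J w v - -bf J w v • ro J v w) =
        ((bf J w v)⁻¹ * bf J w v) • (ro J w v + ro J v w) := by module
    rwa [e, inv_mul_cancel₀ h0, one_smul] at h2
  set Q : Submodule ℂ (Fin n → ℂ) → Prop := fun W => u ∈ W ∧ ∀ v ∈ W, ro J v v ∈ I with hQ
  have hext : ∀ W, Q W → ∀ v, ro J v v ∈ I → bf J u v ≠ 0 → Q (W ⊔ Submodule.span ℂ {v}) := by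
    intro W hW v hv h0
    refine ⟨Submodule.mem_sup_left hW.1, fun x hx => ?_⟩
    obtain ⟨w, hw, y, hy, rfl⟩ := Submodule.mem_sup.1 hx
    obtain ⟨c, rfl⟩ := Submodule.mem_span_singleton.1 hy
    have h1 : ro J w v + ro J v w ∈ I := by
      by_cases h2 : bf J w v = 0
      · have h3 := hS2 v (w + u) hv (hW.2 _ (W.add_mem hw hW.1)) (by rw [bf_add_left, h2, zero_add]; exact h0)
        have h4 := hS2 v u hv (hW.2 _ hW.1) h0
        have e : ro J w v + ro J v w = (ro J (w + u) v + ro J v (w + u)) - (ro J u v + ro J v u) := by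
          rw [ro_add_left, ro_add_right]
          abel
        rw [e]
        exact I.sub_mem h3 h4
      · exact hS2 v w hv (hW.2 _ hw) h2
    have e : ro J (w + c • v) (w + c • v) = ro J w w + c • (ro J w v + ro J v w) + (c * c) • ro J v v := by
      rw [ro_add_left, ro_add_right, ro_add_right, ro_smul_left, ro_smul_right, ro_smul_left, ro_smul_right]
      module
    rw [e]
    exact I.add_mem (I.add_mem (hW.2 _ hw) (I.smul_mem _ h1)) (I.smul_mem _ hv)
  -- a maximal subspace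
  have h0 : Q (Submodule.span ℂ {u}) := by
    refine ⟨Submodule.mem_span_singleton_self u, fun v hv => ?_⟩
    obtain ⟨c, rfl⟩ := Submodule.mem_span_singleton.1 hv
    rw [ro_smul_left, ro_smul_right, smul_smul]
    exact I.smul_mem _ hu
  obtain ⟨W, hW, hmax⟩ : ∃ W, Q W ∧ ∀ W', Q W' → Module.finrank ℂ W' ≤ Module.finrank ℂ W := by
    have hbd : ∀ W' : Submodule ℂ (Fin n → ℂ), Module.finrank ℂ W' ≤ n := by
      intro W'
      have := Submodule.finrank_le W'
      rwa [Module.finrank_fin_fun] at this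
    set P : ℕ → Prop := fun d => ∃ W, Q W ∧ Module.finrank ℂ W = d with hP
    have hex : ∃ d, P d := ⟨_, _, h0, rfl⟩
    have hmax := Nat.findGreatest_spec (P := P) (n := n) (hbd (Submodule.span ℂ {u})) ⟨_, h0, rfl⟩
    obtain ⟨W, hW, hWd⟩ := hmax
    refine ⟨W, hW, fun W' hW' => ?_⟩
    rw [hWd]
    exact Nat.le_findGreatest (hbd W') ⟨W', hW', rfl⟩
  have hmem : ∀ s : ℂ, bf J u (E A s *ᵥ u) ≠ 0 → E A s *ᵥ u ∈ W := by
    intro s hs
    have h1 : ro J (E A s *ᵥ u) (E A s *ᵥ u) ∈ I := by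
      rw [← ro_E hA hAJ]
      exact hE _ hu s
    have h2 := hext W hW _ h1 hs
    have h3 := hmax _ h2
    have h4 : W ≤ W ⊔ Submodule.span ℂ {E A s *ᵥ u} := le_sup_left
    have h5 := Submodule.eq_of_le_of_finrank_le h4 h3
    rw [h5]
    exact Submodule.mem_sup_right (Submodule.mem_span_singleton_self _)
  have htop : W = ⊤ := by
    by_contra hne
    obtain ⟨f, hf0, hf⟩ := Submodule.exists_le_ker_of_lt_top W (lt_top_iff_ne_top.2 hne)
    set e : Fin n → ℂ := fun i => f (Pi.single i 1) with he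
    have hfe : ∀ x, f x = e ⬝ᵥ x := by
      intro x
      rw [LinearMap.pi_apply_eq_sum_univ f x, dotProduct]
      refine Finset.sum_congr rfl fun i _ => ?_
      rw [smul_eq_mul, mul_comm, he]
      simp only
      congr 2
      funext j
      rw [Pi.single_apply]
      by_cases h : j = i
      · rw [if_pos h, if_pos h.symm]
      · rw [if_neg h, if_neg (Ne.symm h)]
    have hprod : mp A u (u ᵥ* J) * mp A u e = 0 := by
      refine Polynomial.funext fun s => ?_
      rw [Polynomial.eval_mul, mp_eval, mp_eval, Polynomial.eval_zero]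
      by_cases hs : bf J u (E A s *ᵥ u) = 0
      · have : (u ᵥ* J) ⬝ᵥ (E A s *ᵥ u) = 0 := by
          rw [← dotProduct_mulVec]
          exact hs
        rw [this, zero_mul]
      · have h1 := hf (hmem s hs)
        rw [LinearMap.mem_ker, hfe] at h1
        rw [h1, mul_zero]
    have hne1 : mp A u (u ᵥ* J) ≠ 0 := by
      intro h1
      obtain ⟨s, hs⟩ := hform
      have h2 := congrArg (Polynomial.eval s) h1
      rw [mp_eval, Polynomial.eval_zero, ← dotProduct_mulVec] at h2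
      exact hs h2
    have h2 := (mul_eq_zero.1 hprod).resolve_left hne1
    apply hf0
    ext x
    have hall : ∀ x, f x = 0 := by
      intro x
      have hx : x ∈ Submodule.span ℂ (Set.range fun i : Fin n => (A ^ (i : ℕ)) *ᵥ u) := by
        rw [chain_top hA hcyc]; trivial
      induction hx using Submodule.span_induction with
      | mem x hx =>
        obtain ⟨i, rfl⟩ := hx
        have h3 : (mp A u e).coeff i = (0 : Polynomial ℂ).coeff i := congrArg (fun p => Polynomial.coeff p i) h2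
        rw [mp_coeff, if_pos i.2, Polynomial.coeff_zero] at h3
        have h4 : (((i : ℕ).factorial : ℕ) : ℂ) ≠ 0 := by exact_mod_cast (i : ℕ).factorial_ne_zero
        rw [hfe]
        exact (div_eq_zero_iff.1 h3).resolve_right h4
      | zero => exact map_zero f
      | add x y _ _ hx hy => rw [map_add, hx, hy, add_zero]
      | smul c x _ hx => rw [map_smul, hx, smul_zero]
    rw [LinearMap.comp_apply, hall]
    simp
  refine Submodule.span_le.2 ?_
  rintro _ ⟨v, rfl⟩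
  exact hW.2 v (by rw [htop]; trivial)

end sp

/-- the simple algebra of the block -/
def hh {n : ℕ} (b : Blk n) : Submodule ℂ (Matrix (Fin n) (Fin n) ℂ) :=
  match b.k with
  | Ki.l => hL n
  | Ki.o => hO b.J
  | Ki.s => hS b.J

lemma smp_hh {n : ℕ} {b : Blk n} (hb : BlkOK b) : Smp (hh b) (gd b) := by
  unfold hh gd
  rcases hk : b.k with _ | _ | _
  · exact smpL hb.two
  · obtain ⟨-, -, hJ, hd, -, h6, -, h8⟩ := hb.o hk
    exact smpO hJ hd h8 h6
  · obtain ⟨hJ, hd, -, -⟩ := hb.s hk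
    exact smpS hJ hd (by have := hb.two; omega)

/-- blocks which can be separated -/
def Neq {n m : ℕ} (b : Blk n) (c : Blk m) : Prop :=
  (b.k = Ki.l → c.k = Ki.l → (b.ξ = c.ξ → fb b ≠ fb c) ∧ (b.ξ = c.ξ⁻¹ → fb b ≠ (fb c).comp (-Polynomial.X))) ∧
  (b.k = Ki.o → c.k = Ki.o → fb b ≠ fb c) ∧
  (b.k = Ki.s → c.k = Ki.s → fb b * (fb b).comp (-Polynomial.X) ≠ fb c * (fb c).comp (-Polynomial.X))

section fam

variable {ι : Type*} {n : ι → ℕ} {b : ∀ i, Blk (n i)} {g : Submodule ℂ (∀ i, Matrix (Fin (n i)) (Fin (n i)) ℂ)}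

lemma sep_all (hg : GG b g) {i j : ι} (hi : BlkOK (b i)) (hj : BlkOK (b j)) (h : Neq (b i) (b j)) :
    ∃ Y ∈ g, Y j = 0 ∧ Y i ∈ gd (b i) := by
  obtain ⟨h1, h2, h3⟩ := h
  rcases hki : (b i).k with _ | _ | _
  · rcases hkj : (b j).k with _ | _ | _
    · obtain ⟨h4, h5⟩ := h1 hki hkj
      by_cases e1 : (b i).ξ = (b j).ξ
      · exact sep_ll hg hi hki hj hkj (Or.inl ⟨e1, h4 e1⟩)
      · by_cases e2 : (b i).ξ = (b j).ξ⁻¹
        · exact sep_ll hg hi hki hj hkj (Or.inr ⟨e2, h5 e2⟩)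
        · exact sep_l hg hi hki hj (Or.inr ⟨e1, e2⟩)
    · obtain ⟨-, -, h6⟩ := hi.l hki
      obtain ⟨-, h7, -⟩ := hj.o hkj
      refine sep_l hg hi hki hj (Or.inr ⟨?_, ?_⟩)
      · rw [h7]
        intro h0
        apply h6
        rw [h0]
        norm_num
      · rw [h7]
        intro h0
        apply h6
        rw [h0]
        norm_num
    · exact sep_l hg hi hki hj (Or.inl hkj)
  · by_cases hkj : (b j).k = Ki.o
    · exact sep_oo hg hi hki hj hkj (h2 hki hkj)
    · exact sep_o hg hi hki hj hkj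
  · by_cases hkj : (b j).k = Ki.s
    · exact sep_ss hg hi hki hj hkj (h3 hki hkj)
    · exact sep_s hg hi hki hkj

lemma surj_all [DecidableEq ι] (hg : GG b g) {i : ι} (hi : BlkOK (b i)) : hh (b i) ≤ It g i ∅ := by
  have hbr : ∀ X ∈ It g i ∅, ∀ Y ∈ It g i ∅, X * Y - Y * X ∈ It g i ∅ := by
    rintro _ ⟨X, hX, rfl, -⟩ _ ⟨Y, hY, rfl, -⟩
    exact ⟨X * Y - Y * X, hg.br _ hX _ hY, rfl, fun j hj => absurd hj (Set.notMem_empty j)⟩
  have had : ∀ X ∈ It g i ∅, (b i).A * X - X * (b i).A ∈ It g i ∅ := by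
    rintro _ ⟨X, hX, rfl, -⟩
    exact ⟨_, hg.ad _ hX, rfl, fun j hj => absurd hj (Set.notMem_empty j)⟩
  have hE : ∀ X ∈ It g i ∅, ∀ s : ℂ, E (b i).A s * X * E (b i).A (-s) ∈ It g i ∅ := by
    rintro _ ⟨X, hX, rfl, -⟩ s
    exact ⟨_, hg.AdE _ hX s, rfl, fun j hj => absurd hj (Set.notMem_empty j)⟩
  have hmem : ∀ Y ∈ g, Y i ∈ It g i ∅ := fun Y hY => ⟨Y, hY, rfl, fun j hj => absurd hj (Set.notMem_empty j)⟩
  have hL : LieN (b i).A (It g i ∅) := ⟨hbr, had⟩
  unfold hh
  rcases hki : (b i).k with _ | _ | _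
  · obtain ⟨h1, h2, h3⟩ := hi.l hki
    set ξ := (b i).ξ with hξ
    have hξ1 : ξ - 1 ≠ 0 := fun h => h3 (by rw [sub_eq_zero.1 h]; norm_num)
    have hξi1 : ξ⁻¹ - 1 ≠ 0 := by
      intro h4
      apply hξ1
      have h5 : ξ * ξ⁻¹ = 1 := mul_inv_cancel₀ h2
      rw [sub_eq_zero.1 h4, mul_one] at h5
      rw [h5, sub_self]
    have hξ2 : ξ - ξ⁻¹ ≠ 0 := by
      intro h4
      apply h3
      have h5 : ξ * ξ⁻¹ = 1 := mul_inv_cancel₀ h2
      have h6 : ξ = ξ⁻¹ := sub_eq_zero.1 h4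
      rw [pow_two]
      nth_rewrite 2 [h6]
      exact h5
    have hξ3 : ξ⁻¹ - ξ ≠ 0 := fun h => hξ2 (by linear_combination -h)
    have m1' : vecMulVec (b i).u (ps' (b i)) ∈ It g i ∅ := by
      have h4 := hmem _ (EE_mem hg (Polynomial.X - Polynomial.C ξ⁻¹))
      rw [EE_lo (by rw [hki]; decide) h1 h2] at h4
      simp only [← hξ, Polynomial.eval_sub, Polynomial.eval_X, Polynomial.eval_C, sub_self, zero_mul, zero_smul, add_zero] at h4
      have h5 := (It g i ∅).smul_mem ((ξ - ξ⁻¹) * (ξ - 1) ^ 3)⁻¹ h4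
      rwa [smul_smul, inv_mul_cancel₀ (mul_ne_zero hξ2 (pow_ne_zero _ hξ1)), one_smul] at h5
    have m2' : vecMulVec (wv (b i)) (b i).φ ∈ It g i ∅ := by
      have h4 := hmem _ (EE_mem hg (Polynomial.X - Polynomial.C ξ))
      rw [EE_lo (by rw [hki]; decide) h1 h2] at h4
      simp only [← hξ, Polynomial.eval_sub, Polynomial.eval_X, Polynomial.eval_C, sub_self, zero_mul, zero_smul, zero_add] at h4
      have h5 := (It g i ∅).smul_mem ((ξ⁻¹ - ξ) * (ξ⁻¹ - 1) ^ 3)⁻¹ h4
      rwa [smul_smul, inv_mul_cancel₀ (mul_ne_zero hξ3 (pow_ne_zero _ hξi1)), one_smul] at h5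
    refine Submodule.span_le.2 ?_
    rintro _ ⟨a, c, hac, rfl⟩
    refine sl_le h1 hL ?_ ?_ hi.nil hi.cu hi.cf (by rw [trace_vecMulVec, dotProduct_comm]; exact hac)
    · have e : DM (b i).A (b i).u (b i).φ 1 0 = vecMulVec (wv (b i)) (b i).φ := by
        unfold DM MM tt wv m1
        rw [pow_zero, pow_one, vecMul_one, one_mulVec, sub_vecMulVec, smul_vecMulVec]
      rw [e]
      exact m2'
    · have e : DM (b i).A (b i).u (b i).φ 0 1 = vecMulVec (b i).u (ps' (b i)) := by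
        unfold DM MM tt ps' m1
        rw [pow_zero, pow_one, vecMul_one, one_mulVec, vecMulVec_sub, vecMulVec_smul]
      rw [e]
      exact m1'
  · obtain ⟨h1, h2, hJ, -, hAJ, h6, -, -⟩ := hi.o hki
    have hm : ((-1 : ℂ))⁻¹ = -1 := by norm_num
    have h4 := hmem _ (EE_mem hg 1)
    rw [EE_lo (by rw [hki]; decide) h1 (by rw [h2]; norm_num), h2, hm] at h4
    simp only [Polynomial.eval_one, one_mul] at h4
    rw [← smul_add, o_sum hi hki, smul_smul] at h4
    have h5 := (It g i ∅).smul_mem (((-1 : ℂ) - 1) ^ 3 * -(bf (b i).J (b i).u (b i).u)⁻¹)⁻¹ h4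
    rw [smul_smul, inv_mul_cancel₀ (mul_ne_zero (by norm_num) (neg_ne_zero.2 (inv_ne_zero h6))), one_smul] at h5
    refine Submodule.span_le.2 ?_
    rintro _ ⟨a, c, rfl⟩
    exact so_le hJ hAJ h6 hL hi.nil hi.cu h5 a c
  · obtain ⟨hJ, -, hAJ, c, hc, hφ⟩ := hi.s hki
    have h4 := hmem _ hg.nsp
    simp only [if_pos hki] at h4
    rw [hφ, vecMulVec_smul] at h4
    have h5 := (It g i ∅).smul_mem c⁻¹ h4
    rw [smul_smul, inv_mul_cancel₀ hc, one_smul] at h5
    refine sp_le hJ hi.nil hAJ hi.cu ?_ hbr hE h5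
    by_contra h0
    push Not at h0
    have h7 : fb (b i) = 0 := by
      refine Polynomial.funext fun s => ?_
      unfold fb
      rw [mp_eval, hφ, smul_dotProduct, ← dotProduct_mulVec, Polynomial.eval_zero]
      have := h0 s
      unfold bf at this
      rw [this, smul_zero]
    have h8 := fb_deg hi
    rw [h7, Polynomial.natDegree_zero] at h8
    have := hi.two
    omega

/-- **The Lie algebra of the family contains the product.** -/
theorem single_mem [Finite ι] [DecidableEq ι] (hg : GG b g) (hb : ∀ i, BlkOK (b i)) (hne : ∀ i j, i ≠ j → Neq (b i) (b j)) (i : ι)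
    {X : Matrix (Fin (n i)) (Fin (n i)) ℂ} (hX : X ∈ hh (b i)) : (Pi.single i X : ∀ i, Matrix (Fin (n i)) (Fin (n i)) ℂ) ∈ g :=
  goursat hg.br (fun i => smp_hh (hb i)) (fun i X hX => by
    obtain ⟨Y, hY, hYX, -⟩ := surj_all hg (hb i) hX
    exact ⟨Y, hY, hYX⟩) (fun i j hij => sep_all hg (hb i) (hb j) (hne i j hij)) i hX

end fam

end Q207.HM
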