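import Pool.Agent.Q207.HM.Gsy

/-!
# The torsors of direct sums of hypergeometric systems
-/

set_option autoImplicit false

open PowerSeries Pool.Agent.Y113

namespace Q207.HM

open Pool.Agent.Y119.HY (Am Am_nil Jm cm cm_apply Ac_nil Hc Hq Hq_zero E Hf Yf Gal Sol Bm E_mul_neg E_isom QD)
open Pool.Agent.Y119.HZ (cf Hp cf_Hp Yt ix isom_mul)

section one

variable {n : ℕ}

/-- the condition on the component, for the branch `L` of `log (1 - 1 / t)` -/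
def HB.cond (h : HB n) (L : ℂ) (t : ℕ) (X : Matrix (Fin n) (Fin n) ℂ) : Prop :=
  match h.k with
  | Ki.l => X.det = Complex.exp (-h.e * L)
  | Ki.o => X ∈ TO n h.R t ∧ X.det = Complex.exp (-h.e * L)
  | Ki.s => X ∈ TS n h.Q t

lemma det_HfL {Q : Polynomial ℚ} (hQ : QG n Q) {t : ℕ} (ht : 2 ≤ t) :
    (Hf (Hc n Q) (((1 / (t : ℝ) : ℝ)) : ℂ)).det = Complex.exp (-((Q.coeff (n - 1) : ℚ) : ℂ) * Complex.log (1 - 1 / (t : ℂ))) := by
  have ht1 : (1 : ℝ) < t := by exact_mod_cast (by omega : 1 < t)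
  have h8 : (0 : ℝ) < 1 - 1 / (t : ℝ) := by
    have : 1 / (t : ℝ) < 1 := by rw [div_lt_one (by linarith)]; exact ht1
    linarith
  rw [det_Hf hQ ht, Real.rpow_def_of_pos h8, Complex.ofReal_exp]
  congr 1
  have e1 : (1 - 1 / (t : ℂ)) = (((1 - 1 / (t : ℝ) : ℝ)) : ℂ) := by push_cast; rfl
  rw [e1, ← Complex.ofReal_log h8.le]
  push_cast
  ring

lemma kap_o {Q R : Polynomial ℚ} (h : QO n Q R) {t : ℕ} (ht : 2 ≤ t) {X : Matrix (Fin n) (Fin n) ℂ} (hX : X ∈ TO n R t)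
    {W : Matrix (Fin n) (Fin n) ℂ} (hW1 : Hf (Hc n Q) (((1 / (t : ℝ) : ℝ)) : ℂ) * W = 1) (l : ℂ) :
    (W * X * E (cm (Am n)) l).transpose * cm (Jm n R) * (W * X * E (cm (Am n)) l) = cm (Jm n R) := by
  have hN : cm (Am n) ^ n = 0 := Ac_nil
  have i1 := E_isom hN (Pool.Agent.Y119.HY.Jc_rel (n := n) (Q := R)) l
  have h2 : (W * X).transpose * cm (Jm n R) * (W * X) = cm (Jm n R) := by
    have h3 : W.transpose * (Hf (Hc n Q) (((1 / (t : ℝ) : ℝ)) : ℂ)).transpose = 1 := by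
      rw [← Matrix.transpose_mul, hW1, Matrix.transpose_one]
    calc (W * X).transpose * cm (Jm n R) * (W * X) = X.transpose * (W.transpose * ((Hf (Hc n Q) (((1 / (t : ℝ) : ℝ)) : ℂ)).transpose *
          (cm (Jm n R) - (((1 / (t : ℝ) : ℝ)) : ℂ) • cm (Rm n R)) * Hf (Hc n Q) (((1 / (t : ℝ) : ℝ)) : ℂ)) * W) * X := by
            rw [form_Hf h ht, Matrix.transpose_mul]
            simp only [Matrix.mul_assoc]
      _ = X.transpose * ((W.transpose * (Hf (Hc n Q) (((1 / (t : ℝ) : ℝ)) : ℂ)).transpose) *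
          (cm (Jm n R) - (((1 / (t : ℝ) : ℝ)) : ℂ) • cm (Rm n R)) * (Hf (Hc n Q) (((1 / (t : ℝ) : ℝ)) : ℂ) * W)) * X := by
            simp only [Matrix.mul_assoc]
      _ = X.transpose * (cm (Jm n R) - (((1 / (t : ℝ) : ℝ)) : ℂ) • cm (Rm n R)) * X := by
            rw [h3, hW1, Matrix.one_mul, Matrix.mul_one]
      _ = _ := hX
  exact isom_mul h2 i1

lemma kap_s {Q : Polynomial ℚ} (hQ : QD n Q) {t : ℕ} (ht : 2 ≤ t) {X : Matrix (Fin n) (Fin n) ℂ} (hX : X ∈ TS n Q t)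
    {W : Matrix (Fin n) (Fin n) ℂ} (hW1 : Hf (Hc n Q) (((1 / (t : ℝ) : ℝ)) : ℂ) * W = 1) (l : ℂ) :
    (W * X * E (cm (Am n)) l).transpose * cm (Jm n Q) * (W * X * E (cm (Am n)) l) = cm (Jm n Q) := by
  have hN : cm (Am n) ^ n = 0 := Ac_nil
  have hEiso : ∀ (s : ℂ), (E (cm (Am n)) s).transpose * cm (Jm n Q) * E (cm (Am n)) s = cm (Jm n Q) :=
    fun s => E_isom hN Pool.Agent.Y119.HY.Jc_rel s
  -- the holomorphic part is an isometry
  have hHf : (Hf (Hc n Q) (((1 / (t : ℝ) : ℝ)) : ℂ)).transpose * cm (Jm n Q) *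
      Hf (Hc n Q) (((1 / (t : ℝ) : ℝ)) : ℂ) = cm (Jm n Q) := by
    have h1 := isom_mul (Pool.Agent.Y119.HZ.Yt_form hQ ht) (hEiso ((Real.log t : ℝ) : ℂ))
    have h2 : Yt n Q t * E (cm (Am n)) ((Real.log t : ℝ) : ℂ) = Hf (Hc n Q) (((1 / (t : ℝ) : ℝ)) : ℂ) := by
      unfold Yt
      have h3 : E (cm (Am n)) (-((Real.log t : ℝ) : ℂ)) * E (cm (Am n)) ((Real.log t : ℝ) : ℂ) = 1 := by
        have := E_mul_neg hN (-((Real.log t : ℝ) : ℂ))
        rwa [neg_neg] at this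
      rw [Matrix.mul_assoc, h3, mul_one]
    rwa [h2] at h1
  have hWi : W.transpose * cm (Jm n Q) * W = cm (Jm n Q) := by
    have h3 : W.transpose * (Hf (Hc n Q) (((1 / (t : ℝ) : ℝ)) : ℂ)).transpose = 1 := by
      rw [← Matrix.transpose_mul, hW1, Matrix.transpose_one]
    calc W.transpose * cm (Jm n Q) * W = W.transpose * ((Hf (Hc n Q) (((1 / (t : ℝ) : ℝ)) : ℂ)).transpose * cm (Jm n Q) *
          Hf (Hc n Q) (((1 / (t : ℝ) : ℝ)) : ℂ)) * W := by rw [hHf]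
      _ = (W.transpose * (Hf (Hc n Q) (((1 / (t : ℝ) : ℝ)) : ℂ)).transpose) * cm (Jm n Q) *
          (Hf (Hc n Q) (((1 / (t : ℝ) : ℝ)) : ℂ) * W) := by simp only [Matrix.mul_assoc]
      _ = _ := by rw [h3, hW1, Matrix.one_mul, Matrix.mul_one]
  exact isom_mul (isom_mul hWi hX) (hEiso l)

/-- the value satisfies the conditions for the principal branch -/
lemma cond_Yt {h : HB n} (hh : HBok h) {t : ℕ} (ht : 2 ≤ t) : h.cond (Complex.log (1 - 1 / (t : ℂ))) t (Yt n h.Q t) := by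
  have hd : (Yt n h.Q t).det = Complex.exp (-h.e * Complex.log (1 - 1 / (t : ℂ))) := by
    unfold Yt
    rw [Matrix.det_mul, det_E Ac_nil, mul_one, det_HfL hh.g ht]
    rfl
  unfold HB.cond
  rcases hk : h.k with _ | _ | _
  · exact hd
  · exact ⟨Yt_ort (hh.o hk) ht, hd⟩
  · exact Pool.Agent.Y119.HZ.Yt_form (hh.s hk) ht

lemma cond_SGm {h : HB n} (hh : HBok h) {b : Blk n} (hb : BlkOf h b) {t : ℕ} (ht : 2 ≤ t) {m : ℤ} {L : ℂ}
    (hL : L = Complex.log (1 - 1 / (t : ℂ)) + m * (2 * Real.pi * Complex.I)) {X : Matrix (Fin n) (Fin n) ℂ} (hX : h.cond L t X)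
    {W : Matrix (Fin n) (Fin n) ℂ} (hW1 : Hf (Hc n h.Q) (((1 / (t : ℝ) : ℝ)) : ℂ) * W = 1) (l : ℂ) :
    SGm b m (W * X * E (cm (Am n)) l) := by
  obtain ⟨hb1, hb2, hb3, hb4, hb5, -⟩ := hb
  have hdet : X.det = Complex.exp (-h.e * L) → (W * X * E (cm (Am n)) l).det = b.ξ ^ m := by
    intro h1
    have h2 := congrArg Matrix.det hW1
    rw [Matrix.det_mul, det_HfL hh.g ht, Matrix.det_one] at h2
    rw [Matrix.det_mul, Matrix.det_mul, det_E Ac_nil, mul_one, h1, hb5, ← Complex.exp_int_mul, hL]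
    have h3 : Complex.exp (-h.e * (Complex.log (1 - 1 / (t : ℂ)) + m * (2 * Real.pi * Complex.I))) =
        Complex.exp (-((h.Q.coeff (n - 1) : ℚ) : ℂ) * Complex.log (1 - 1 / (t : ℂ))) *
          Complex.exp (m * (-h.e * (2 * Real.pi * Complex.I))) := by
      rw [← Complex.exp_add]
      congr 1
      unfold HB.e
      ring
    rw [h3]
    calc _ = (Complex.exp (-((h.Q.coeff (n - 1) : ℚ) : ℂ) * Complex.log (1 - 1 / (t : ℂ))) * W.det) *
          Complex.exp (m * (-h.e * (2 * Real.pi * Complex.I))) := by ring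
      _ = _ := by rw [h2, one_mul]
  unfold HB.cond at hX
  refine ⟨fun hk => ?_, fun hk => ?_, fun hk => ?_⟩
  · rw [hb4] at hk
    rw [hk] at hX
    exact hdet hX
  · rw [hb4] at hk
    rw [hk] at hX
    have h1 := kap_o (hh.o hk) ht hX.1 hW1 l
    have h2 : b.J = cm (Jm n h.R) := by
      rw [hb3]
      unfold HB.J
      rw [hk]
    rw [h2]
    exact ⟨h1, hdet hX.2⟩
  · rw [hb4] at hk
    rw [hk] at hX
    have h1 := kap_s (hh.s hk) ht hX hW1 l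
    have h2 : b.J = cm (Jm n h.Q) := by
      rw [hb3]
      unfold HB.J
      rw [hk]
    rw [h2]
    exact h1

end one

section joint

variable {r : ℕ} {n : Fin r → ℕ} {h : ∀ i, HB (n i)}

/-- the torsor of the direct sum -/
def jT (h : ∀ i, HB (n i)) (t : ℕ) : Set (Matrix (Fin (sz n)) (Fin (sz n)) ℂ) :=
  {M | ∃ X : Bl n ℂ, M = BD X ∧ ∃ L : ℂ, Complex.exp L = 1 - 1 / (t : ℂ) ∧ ∀ i, (h i).cond L t (X i)}

/-- **the torsor is contained in the orbit** -/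
theorem jT_ok (hh : ∀ i, HBok (h i)) {b : ∀ i, Blk (n i)} (hb : ∀ i, BlkOf (h i) (b i)) (hne : ∀ i j, i ≠ j → Neq (b i) (b j)) :
    TorS (jsys h) (jT h) := by
  rintro t ht _ ⟨X, rfl, L, hL, hX⟩ l
  have ht1 : (1 : ℝ) < t := by exact_mod_cast (by omega : 1 < t)
  have h0 : (1 : ℂ) - 1 / (t : ℂ) ≠ 0 := by
    have h8 : (0 : ℝ) < 1 - 1 / (t : ℝ) := by
      have : 1 / (t : ℝ) < 1 := by rw [div_lt_one (by linarith)]; exact ht1
      linarith
    have e1 : (1 - 1 / (t : ℂ)) = (((1 - 1 / (t : ℝ) : ℝ)) : ℂ) := by push_cast; rfl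
    rw [e1, Ne, Complex.ofReal_eq_zero]
    exact h8.ne'
  obtain ⟨m, hm⟩ : ∃ m : ℤ, L = Complex.log (1 - 1 / (t : ℂ)) + m * (2 * Real.pi * Complex.I) := by
    refine Complex.exp_eq_exp_iff_exists_int.1 ?_
    rw [hL, Complex.exp_log h0]
  choose W hW1 hW2 using fun i => inv_Hf (hh i).g ht
  have h1 := joint_gal hh hb hne (g := fun i => W i * X i * E (cm (Am (n i))) l) (m := m) fun i =>
    cond_SGm (hh i) (hb i) ht hm (hX i) (hW1 i) l
  refine ⟨_, by rw [jsys_Y]; exact h1, ?_⟩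
  have e1 : (jsys h).Hc = fun k => BD fun i => Hc (n i) (h i).Q k := funext jsys_Hc
  rw [e1, jsys_N, Hf_BD, E_BD (fun i => Ac_nil), ← BD_mul, ← BD_mul]
  congr 1
  funext i
  have e2 : E (cm (Am (n i))) l * E (cm (Am (n i))) (-l) = 1 := E_mul_neg Ac_nil l
  calc _ = (Hf (Hc (n i) (h i).Q) (((1 / (t : ℝ) : ℝ)) : ℂ) * W i) * X i * (E (cm (Am (n i))) l * E (cm (Am (n i))) (-l)) := by
        simp only [Matrix.mul_assoc]
    _ = X i := by rw [hW1, e2, Matrix.one_mul, Matrix.mul_one]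

end joint

end Q207.HM
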