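import Pool.Agent.Q207.HM.Ctg
import Pool.Agent.Q207.HM.Glu2
import Pool.Agent.Q207.HM.Ari

/-!
# The characteristic polynomial of the monodromy around infinity
-/

set_option autoImplicit false

open Filter Topology Matrix

namespace Q207.HM

open Pool.Agent.Y119.HY (Am Bm cm Hc Ac_nil Sol Hf HD Gm E Yf)

variable {n : ℕ}

/-- conjugation -/
lemma charpoly_conj {X C Ci : Matrix (Fin n) (Fin n) ℂ} (h : C * Ci = 1) : (Ci * X * C).charpoly = X.charpoly := by
  rw [Matrix.charpoly_mul_comm, ← Matrix.mul_assoc, h, Matrix.one_mul]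

/-- the statement for the exponents `α` -/
def Lvl (α : Fin n → ℚ) : Prop := ∀ R : ℤ → Matrix (Fin n) (Fin n) ℂ, LM (Yf (cm (Am n)) (Hc n (QA α))) R →
  (R 1 * E (cm (Am n)) (2 * Real.pi * Complex.I)).charpoly =
    ∏ i, (Polynomial.X - Polynomial.C (Complex.exp (-(2 * Real.pi * Complex.I) * ((α i : ℚ) : ℂ))))

theorem lvl_nonres (h1 : Lv.S_Chart) (h2 : Lv.S_NR) (h3 : Lv.S_Res) (h4 : Lv.S_Exp) (h5 : Lv.S_Comp) (hn : 2 ≤ n) {α : Fin n → ℚ}
    (hα : ∀ i, NI (α i)) (hres : ∀ i j, ∀ k : ℕ, α i - α j ≠ (k : ℚ) + 1) : Lvl α := by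
  intro R hR
  set A := cm (Am n) with hA
  set B := cm (Bm n (QA α)) with hB
  have hG := QG_QA hn hα
  have hc : (B - A).charpoly = ∏ i, (Polynomial.X - Polynomial.C (((α i : ℚ) : ℂ))) := h5 n α (by omega)
  have hN : NR (B - A) := h2 n (B - A) (h3 n (B - A) (fun i => ((α i : ℚ) : ℂ)) hc fun i j k h => hres i j k (by
    have : (((α i - α j : ℚ)) : ℂ) = (((k : ℚ) + 1 : ℚ) : ℂ) := by
      push_cast
      exact h
    exact_mod_cast this))
  obtain ⟨K, hK⟩ := exists_solR hN B
  obtain ⟨F, hF0, hFa, hFd, hFc⟩ := h4 n (B - A) _ hc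
  obtain ⟨C, Ci, e1, e2, e3⟩ := glue h1 Ac_nil (sol_cG hG) hR hK hN hF0 hFa hFd
  rw [e3, charpoly_conj e1, hFc]

lemma QA_split (α : Fin n → ℚ) (i : Fin n) : QA α = (∏ j ∈ Finset.univ.erase i, (Polynomial.X + Polynomial.C (α j))) *
    (Polynomial.X + Polynomial.C (α i)) := by
  unfold QA
  rw [Finset.prod_erase_mul _ _ (Finset.mem_univ i)]

lemma QA_upd (α : Fin n → ℚ) (i : Fin n) (x : ℚ) : QA (Function.update α i x) =
    (∏ j ∈ Finset.univ.erase i, (Polynomial.X + Polynomial.C (α j))) * (Polynomial.X + Polynomial.C x) := by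
  rw [QA_split _ i, Function.update_self]
  congr 1
  refine Finset.prod_congr rfl fun j hj => ?_
  rw [Function.update_of_ne (Finset.ne_of_mem_erase hj)]

lemma NI_add {x : ℚ} (hx : ∀ a : ℤ, x ≠ a) : NI x := fun l h0 => hx l h0.symm

/-- raising one exponent -/
lemma lvl_step (hn : 2 ≤ n) {α : Fin n → ℚ} (hα : ∀ i, ∀ a : ℤ, α i ≠ a) (i : Fin n) (h : Lvl (Function.update α i (α i + 1))) : Lvl α := by
  intro R hR
  have hα' : ∀ j, ∀ a : ℤ, Function.update α i (α i + 1) j ≠ a := by
    intro j a h0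
    by_cases hj : j = i
    · subst hj
      rw [Function.update_self] at h0
      exact hα j (a - 1) (by push_cast; linarith)
    · rw [Function.update_of_ne hj] at h0
      exact hα j a h0
  have hG := QG_QA hn fun j => NI_add (hα j)
  have hG' := QG_QA hn fun j => NI_add (hα' j)
  have hR' := ctg n _ _ _ (α i) (QA_split α i) (QA_upd α i (α i + 1)) hG hG' R hR
  have h1 := h _ hR'
  have hgd : ((((α i : ℚ) : ℂ) • (1 : Matrix (Fin n) (Fin n) ℂ)) + cm (Am n)) = gA n (α i) := rfl
  simp only [hgd] at h1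
  have ha : α i ≠ 0 := fun h0 => hα i 0 (by rw [h0]; simp)
  obtain ⟨gi1, gi2⟩ := gA_inv (n := n) ha
  have hcm : (gA n (α i))⁻¹ * E (cm (Am n)) (2 * Real.pi * Complex.I) = E (cm (Am n)) (2 * Real.pi * Complex.I) * (gA n (α i))⁻¹ := by
    calc _ = (gA n (α i))⁻¹ * E (cm (Am n)) (2 * Real.pi * Complex.I) * (gA n (α i) * (gA n (α i))⁻¹) := by rw [gi1, Matrix.mul_one]
      _ = (gA n (α i))⁻¹ * (E (cm (Am n)) (2 * Real.pi * Complex.I) * gA n (α i)) * (gA n (α i))⁻¹ := by simp only [Matrix.mul_assoc]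
      _ = ((gA n (α i))⁻¹ * gA n (α i)) * E (cm (Am n)) (2 * Real.pi * Complex.I) * (gA n (α i))⁻¹ := by
          rw [← gA_comm]
          simp only [Matrix.mul_assoc]
      _ = _ := by rw [gi2, Matrix.one_mul]
  have h2 : gA n (α i) * R 1 * (gA n (α i))⁻¹ * E (cm (Am n)) (2 * Real.pi * Complex.I) =
      gA n (α i) * (R 1 * E (cm (Am n)) (2 * Real.pi * Complex.I)) * (gA n (α i))⁻¹ := by
    rw [Matrix.mul_assoc _ _ (E (cm (Am n)) (2 * Real.pi * Complex.I)), hcm]
    simp only [Matrix.mul_assoc]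
  rw [h2, charpoly_conj gi2] at h1
  rw [h1]
  refine Finset.prod_congr rfl fun j _ => ?_
  by_cases hj : j = i
  · subst hj
    rw [Function.update_self]
    have : -(2 * Real.pi * Complex.I) * (((α j + 1 : ℚ)) : ℂ) = -(2 * Real.pi * Complex.I) * ((α j : ℚ) : ℂ) - 2 * Real.pi * Complex.I := by
      push_cast
      ring
    rw [this, Complex.exp_sub, Complex.exp_two_pi_mul_I, div_one]
  · rw [Function.update_of_ne hj]

lemma lvl_raise (hn : 2 ≤ n) (N : ℕ) : ∀ {α : Fin n → ℚ}, (∀ i, ∀ a : ℤ, α i ≠ a) → ∀ m : Fin n → ℕ, ∑ i, m i = N →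
    Lvl (fun i => α i + m i) → Lvl α := by
  induction N with
  | zero =>
    intro α _ m hm h
    have h0 : ∀ i, m i = 0 := fun i => (Finset.sum_eq_zero_iff.1 hm) i (Finset.mem_univ i)
    have : (fun i => α i + m i) = α := by
      funext i
      rw [h0, Nat.cast_zero, add_zero]
    rwa [this] at h
  | succ N ih =>
    intro α hα m hm h
    obtain ⟨i, hi⟩ : ∃ i, m i ≠ 0 := by
      by_contra h0
      push Not at h0
      rw [Finset.sum_eq_zero fun i _ => h0 i] at hm
      omega
    refine lvl_step hn hα i ?_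
    refine ih (α := Function.update α i (α i + 1)) (fun j a h0 => ?_) (Function.update m i (m i - 1)) ?_ ?_
    · by_cases hj : j = i
      · subst hj
        rw [Function.update_self] at h0
        exact hα j (a - 1) (by push_cast; linarith)
      · rw [Function.update_of_ne hj] at h0
        exact hα j a h0
    · rw [Finset.sum_update_of_mem (Finset.mem_univ i)]
      rw [← Finset.add_sum_erase _ _ (Finset.mem_univ i)] at hm
      have e : (Finset.univ \ {i} : Finset (Fin n)) = Finset.univ.erase i := by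
        rw [Finset.sdiff_singleton_eq_erase]
      rw [e]
      omega
    · have : (fun j => Function.update α i (α i + 1) j + ((Function.update m i (m i - 1) j : ℕ) : ℚ)) = fun j => α j + m j := by
        funext j
        by_cases hj : j = i
        · subst hj
          rw [Function.update_self, Function.update_self, Nat.cast_sub (by omega)]
          push_cast
          ring
        · rw [Function.update_of_ne hj, Function.update_of_ne hj]
      rw [this]
      exact h

/-- **The monodromy around infinity has the characteristic polynomial `∏ (X - exp (-2πi α))`.** -/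
theorem levelt (h1 : Lv.S_Chart) (h2 : Lv.S_NR) (h3 : Lv.S_Res) (h4 : Lv.S_Exp) (h5 : Lv.S_Comp) (hn : 2 ≤ n) {α : Fin n → ℚ}
    (hα : ∀ i, ∀ a : ℤ, α i ≠ a) : Lvl α := by
  set M : ℤ := ∑ j, |⌊α j⌋| with hM
  have hMi : ∀ i, ⌊α i⌋ ≤ M := by
    intro i
    refine (le_abs_self _).trans ?_
    exact Finset.single_le_sum (f := fun j => |⌊α j⌋|) (fun j _ => abs_nonneg _) (Finset.mem_univ i)
  set m : Fin n → ℕ := fun i => (M - ⌊α i⌋).toNat with hm
  have hmi : ∀ i, α i + m i = Int.fract (α i) + M := by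
    intro i
    have h6 : ((m i : ℕ) : ℤ) = M - ⌊α i⌋ := Int.toNat_of_nonneg (by linarith [hMi i])
    have h7 : ((m i : ℕ) : ℚ) = ((M - ⌊α i⌋ : ℤ) : ℚ) := by exact_mod_cast h6
    rw [h7]
    push_cast
    have := Int.floor_add_fract (α i)
    linarith
  refine lvl_raise hn _ hα m rfl ?_
  refine lvl_nonres h1 h2 h3 h4 h5 hn (fun i => NI_add fun a h0 => hα i (a - m i) (by push_cast; linarith)) fun i j k h0 => ?_
  rw [hmi, hmi] at h0
  have h8 := Int.fract_lt_one (α i)
  have h9 := Int.fract_nonneg (α j)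
  have h10 : (0 : ℚ) ≤ k := Nat.cast_nonneg k
  linarith

end Q207.HM
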