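import Mathlib

/-!
# The Lie algebra of a closed submonoid of matrices
-/

set_option autoImplicit false

open Filter Topology Matrix

namespace Q207.HM

section abs

variable {A : Type*} [NormedRing A] [NormedAlgebra ℂ A] [CompleteSpace A]

lemma pow_norm_le {x : A} {C : ℝ} (h1 : ‖(1 : A)‖ ≤ 1) (hx : ‖x‖ ≤ C) (k : ℕ) : ‖x ^ k‖ ≤ C ^ k := by
  have hC : 0 ≤ C := (norm_nonneg _).trans hx
  induction k with
  | zero => simpa using h1
  | succ k ih =>
    rw [pow_succ, pow_succ]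
    exact (norm_mul_le _ _).trans (mul_le_mul ih hx (norm_nonneg _) (by positivity))

lemma pow_sub_le {x y : A} {C : ℝ} (h1 : ‖(1 : A)‖ ≤ 1) (hC : 1 ≤ C) (hx : ‖x‖ ≤ C) (hy : ‖y‖ ≤ C) (k : ℕ) :
    ‖x ^ k - y ^ k‖ ≤ k * C ^ k * ‖x - y‖ := by
  induction k with
  | zero => simp
  | succ k ih =>
    have e : x ^ (k + 1) - y ^ (k + 1) = x ^ k * (x - y) + (x ^ k - y ^ k) * y := by
      rw [pow_succ, pow_succ, mul_sub, sub_mul]
      abel
    have hk := pow_norm_le h1 hx k
    have h0 : 0 ≤ C ^ k := by positivity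
    have hk1 : C ^ k ≤ C ^ (k + 1) := pow_le_pow_right₀ hC (Nat.le_succ k)
    calc ‖x ^ (k + 1) - y ^ (k + 1)‖ ≤ ‖x ^ k‖ * ‖x - y‖ + ‖x ^ k - y ^ k‖ * ‖y‖ := by
          rw [e]
          exact (norm_add_le _ _).trans (add_le_add (norm_mul_le _ _) (norm_mul_le _ _))
      _ ≤ C ^ k * ‖x - y‖ + (k * C ^ k * ‖x - y‖) * C := by
          refine add_le_add (mul_le_mul_of_nonneg_right hk (norm_nonneg _)) (mul_le_mul ih hy (norm_nonneg _) (by positivity))
      _ ≤ C ^ (k + 1) * ‖x - y‖ + (k * C ^ k * ‖x - y‖) * C :=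
          add_le_add (mul_le_mul_of_nonneg_right hk1 (norm_nonneg _)) le_rfl
      _ = ((k + 1 : ℕ) : ℝ) * C ^ (k + 1) * ‖x - y‖ := by
          push_cast
          rw [pow_succ]
          ring

/-- the exponential as a limit of powers -/
theorem pow_lim (h1 : ‖(1 : A)‖ ≤ 1) {f : ℂ → A} {X : A} (hf : HasDerivAt f X 0) (hf0 : f 0 = 1) (c : ℂ) :
    Tendsto (fun k : ℕ => f (c / k) ^ k) atTop (𝓝 (NormedSpace.exp (c • X))) := by
  set g : ℂ → A := fun t => NormedSpace.exp (t • X) with hg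
  have hgd : HasDerivAt g X 0 := by
    have h := hasDerivAt_exp_smul_const (𝕂 := ℂ) X (0 : ℂ)
    simpa using h
  have hg0 : g 0 = 1 := by simp [hg]
  -- the difference is small
  have hd : HasDerivAt (fun t => f t - g t) 0 0 := (hf.fun_sub hgd).congr_deriv (sub_self X)
  have hdo := (hasDerivAt_iff_isLittleO.1 hd)
  simp only [hf0, hg0, sub_self, sub_zero, smul_zero] at hdo
  -- the growth
  have hfO : ∀ᶠ t in 𝓝 (0 : ℂ), ‖f t‖ ≤ 1 + (‖X‖ + 1) * ‖t‖ := by
    have h2 := (hasDerivAt_iff_isLittleO.1 hf).def (show (0 : ℝ) < 1 by norm_num)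
    filter_upwards [h2] with t ht
    simp only [hf0, sub_zero] at ht
    have e : f t = 1 + ((t • X) + (f t - 1 - t • X)) := by abel
    rw [e]
    refine (norm_add_le _ _).trans (add_le_add h1 ((norm_add_le _ _).trans ?_))
    rw [norm_smul]
    linarith
  have hgO : ∀ᶠ t in 𝓝 (0 : ℂ), ‖g t‖ ≤ 1 + (‖X‖ + 1) * ‖t‖ := by
    have h2 := (hasDerivAt_iff_isLittleO.1 hgd).def (show (0 : ℝ) < 1 by norm_num)
    filter_upwards [h2] with t ht
    simp only [hg0, sub_zero] at ht
    have e : g t = 1 + ((t • X) + (g t - 1 - t • X)) := by abel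
    rw [e]
    refine (norm_add_le _ _).trans (add_le_add h1 ((norm_add_le _ _).trans ?_))
    rw [norm_smul]
    linarith
  have hck : Tendsto (fun k : ℕ => c / (k : ℂ)) atTop (𝓝 0) := by
    have := (tendsto_inv_atTop_nhds_zero_nat (𝕜 := ℂ)).const_mul c
    simpa [div_eq_mul_inv] using this
  have hgk : ∀ᶠ k : ℕ in atTop, g (c / k) ^ k = NormedSpace.exp (c • X) := by
    filter_upwards [eventually_ge_atTop 1] with k hk
    have hk0 : (k : ℂ) ≠ 0 := by exact_mod_cast (by omega : k ≠ 0)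
    rw [hg]
    simp only
    letI : NormedAlgebra ℚ A := NormedAlgebra.restrictScalars ℚ ℂ A
    rw [← NormedSpace.exp_nsmul, ← Nat.cast_smul_eq_nsmul ℂ, smul_smul, mul_div_cancel₀ _ hk0]
  have hlim : Tendsto (fun k : ℕ => f (c / k) ^ k - g (c / k) ^ k) atTop (𝓝 0) := by
    rw [tendsto_zero_iff_norm_tendsto_zero]
    set M : ℝ := (‖X‖ + 1) * ‖c‖ with hM
    have hM0 : 0 ≤ M := by positivity
    have hs : Tendsto (fun k : ℕ => Real.exp M * ((k : ℝ) * ‖f (c / k) - g (c / k)‖)) atTop (𝓝 0) := by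
      have h3 : Tendsto (fun k : ℕ => (k : ℝ) * ‖f (c / k) - g (c / k)‖) atTop (𝓝 0) := by
        rw [Metric.tendsto_atTop]
        intro ε hε
        have h4 := hck.eventually (hdo.def (show 0 < ε / (2 * (‖c‖ + 1)) by positivity))
        obtain ⟨k₀, hk₀⟩ := eventually_atTop.1 h4
        refine ⟨max k₀ 1, fun k hk => ?_⟩
        have hk1 := hk₀ k (le_of_max_le_left hk)
        have hkp : 0 < (k : ℝ) := by exact_mod_cast le_of_max_le_right hk
        rw [Real.dist_eq, sub_zero, abs_of_nonneg (by positivity)]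
        have hn : ‖c / (k : ℂ)‖ = ‖c‖ / k := by rw [norm_div, Complex.norm_natCast]
        rw [hn] at hk1
        calc (k : ℝ) * ‖f (c / k) - g (c / k)‖ ≤ k * (ε / (2 * (‖c‖ + 1)) * (‖c‖ / k)) :=
              mul_le_mul_of_nonneg_left hk1 hkp.le
          _ = ε / 2 * (‖c‖ / (‖c‖ + 1)) := by field_simp
          _ ≤ ε / 2 * 1 := by
              refine mul_le_mul_of_nonneg_left ?_ (by positivity)
              rw [div_le_one (by positivity)]
              linarith
          _ < ε := by linarith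
      simpa using h3.const_mul (Real.exp M)
    refine squeeze_zero' (Eventually.of_forall fun _ => norm_nonneg _) ?_ hs
    filter_upwards [hck.eventually hfO, hck.eventually hgO, eventually_ge_atTop 1] with k hk1 hk2 hk3
    have hkp : 0 < (k : ℝ) := by exact_mod_cast hk3
    have hn : ‖c / (k : ℂ)‖ = ‖c‖ / k := by rw [norm_div, Complex.norm_natCast]
    have e1 : (‖X‖ + 1) * (‖c‖ / k) = M / k := by rw [hM]; ring
    rw [hn, e1] at hk1 hk2
    have hC : 1 ≤ 1 + M / k := by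
      have : 0 ≤ M / k := by positivity
      linarith
    refine (pow_sub_le h1 hC hk1 hk2 k).trans ?_
    have hexp : (1 + M / k) ^ k ≤ Real.exp M := by
      have h5 : 1 + M / k ≤ Real.exp (M / k) := by
        have := Real.add_one_le_exp (M / k)
        linarith
      calc (1 + M / k) ^ k ≤ (Real.exp (M / k)) ^ k := pow_le_pow_left₀ (by positivity) h5 k
        _ = Real.exp M := by
          rw [← Real.exp_nat_mul]
          congr 1
          field_simp
    calc (k : ℝ) * (1 + M / k) ^ k * ‖f (c / k) - g (c / k)‖ = (1 + M / k) ^ k * ((k : ℝ) * ‖f (c / k) - g (c / k)‖) := by ring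
      _ ≤ _ := mul_le_mul_of_nonneg_right hexp (by positivity)
  have h6 := hlim.add (tendsto_const_nhds (x := NormedSpace.exp (c • X)))
  rw [zero_add] at h6
  refine h6.congr' ?_
  filter_upwards [hgk] with k hk
  rw [hk]
  abel

end abs

section mat

attribute [local instance] Matrix.linftyOpNormedRing Matrix.linftyOpNormedAlgebra

variable {n : ℕ}

lemma one_norm_le : ‖(1 : Matrix (Fin n) (Fin n) ℂ)‖ ≤ 1 := by
  rcases n with _ | n
  · have : (1 : Matrix (Fin 0) (Fin 0) ℂ) = 0 := Subsingleton.elim _ _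
    rw [this, norm_zero]
    norm_num
  · rw [norm_one]

/-- a curve in a closed submonoid -/
theorem exp_mem_of_curve {S : Submonoid (Matrix (Fin n) (Fin n) ℂ)} (hS : IsClosed (S : Set (Matrix (Fin n) (Fin n) ℂ)))
    {f : ℂ → Matrix (Fin n) (Fin n) ℂ} {X : Matrix (Fin n) (Fin n) ℂ} (hf : HasDerivAt f X 0) (hf0 : f 0 = 1)
    (hfS : ∀ t, f t ∈ S) (c : ℂ) : NormedSpace.exp (c • X) ∈ S :=
  hS.mem_of_tendsto (pow_lim one_norm_le hf hf0 c) (Eventually.of_forall fun k => S.pow_mem (hfS _) k)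

lemma hasDeriv_exp (X : Matrix (Fin n) (Fin n) ℂ) (t : ℂ) :
    HasDerivAt (fun t : ℂ => NormedSpace.exp (t • X)) (NormedSpace.exp (t • X) * X) t :=
  hasDerivAt_exp_smul_const (𝕂 := ℂ) X t

/-- the Lie algebra -/
def LS (S : Submonoid (Matrix (Fin n) (Fin n) ℂ)) (hS : IsClosed (S : Set (Matrix (Fin n) (Fin n) ℂ))) :
    Submodule ℂ (Matrix (Fin n) (Fin n) ℂ) where
  carrier := {X | ∀ c : ℂ, NormedSpace.exp (c • X) ∈ S}
  zero_mem' := fun c => by
    rw [smul_zero, NormedSpace.exp_zero]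
    exact S.one_mem
  smul_mem' := fun a X hX c => by
    rw [smul_smul]
    exact hX _
  add_mem' := by
    intro X Y hX hY c
    have h1 := (hasDeriv_exp X 0).mul (hasDeriv_exp Y 0)
    simp only [zero_smul, NormedSpace.exp_zero, one_mul, mul_one] at h1
    exact exp_mem_of_curve hS h1 (by simp) (fun t => S.mul_mem (hX t) (hY t)) c

variable {S : Submonoid (Matrix (Fin n) (Fin n) ℂ)} (hS : IsClosed (S : Set (Matrix (Fin n) (Fin n) ℂ)))

lemma mem_LS {X : Matrix (Fin n) (Fin n) ℂ} : X ∈ LS S hS ↔ ∀ c : ℂ, NormedSpace.exp (c • X) ∈ S := Iff.rfl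

/-- curves through the identity -/
lemma curve_LS {f : ℂ → Matrix (Fin n) (Fin n) ℂ} {X : Matrix (Fin n) (Fin n) ℂ} (hf : HasDerivAt f X 0) (hf0 : f 0 = 1)
    (hfS : ∀ t, f t ∈ S) : X ∈ LS S hS := fun c => exp_mem_of_curve hS hf hf0 hfS c

/-- the derivative of a curve in a subspace -/
lemma deriv_mem (L : Submodule ℂ (Matrix (Fin n) (Fin n) ℂ)) {f : ℂ → Matrix (Fin n) (Fin n) ℂ} {X : Matrix (Fin n) (Fin n) ℂ}
    (hf : HasDerivAt f X 0) (hfL : ∀ t, f t ∈ L) : X ∈ L := by
  have hc : IsClosed (L : Set (Matrix (Fin n) (Fin n) ℂ)) := L.closed_of_finiteDimensional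
  have h1 := hf.tendsto_slope_zero
  refine hc.mem_of_tendsto h1 (Eventually.of_forall fun t => ?_)
  exact L.smul_mem _ (L.sub_mem (hfL _) (hfL _))

/-- conjugation by an exponential -/
lemma conj_deriv (N X : Matrix (Fin n) (Fin n) ℂ) :
    HasDerivAt (fun t : ℂ => NormedSpace.exp (t • N) * X * NormedSpace.exp ((-t) • N)) (N * X - X * N) 0 := by
  have h1 := (hasDeriv_exp N 0).mul_const X
  have h2 : HasDerivAt (fun t : ℂ => NormedSpace.exp ((-t) • N)) (-N) 0 := by
    have h3 : HasDerivAt (fun t : ℂ => NormedSpace.exp (t • N)) (NormedSpace.exp ((-(0 : ℂ)) • N) * N) (-(0 : ℂ)) := hasDeriv_exp N _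
    have h4 := h3.scomp (0 : ℂ) (hasDerivAt_neg (0 : ℂ))
    simp only [neg_zero, zero_smul, NormedSpace.exp_zero, one_mul, neg_smul, one_smul] at h4
    refine h4.congr_of_eventuallyEq (Eventually.of_forall fun t => ?_)
    simp [Function.comp]
  have h3 := h1.mul h2
  simp only [zero_smul, NormedSpace.exp_zero, one_mul, mul_one, neg_zero] at h3
  refine h3.congr_deriv ?_
  rw [mul_neg]
  abel

/-- stability under the adjoint action -/
lemma ad_mem {N X : Matrix (Fin n) (Fin n) ℂ}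
    (hN : ∀ t : ℂ, ∀ g ∈ S, NormedSpace.exp (t • N) * g * NormedSpace.exp ((-t) • N) ∈ S) (hX : X ∈ LS S hS) :
    N * X - X * N ∈ LS S hS := by
  refine deriv_mem _ (conj_deriv N X) fun t => ?_
  intro c
  have hu : NormedSpace.exp (t • N) * NormedSpace.exp ((-t) • N) = 1 := by
    rw [← Matrix.exp_add_of_commute _ _ (((Commute.refl N).smul_left t).smul_right _), ← add_smul, add_neg_cancel, zero_smul,
      NormedSpace.exp_zero]
  have hu' : NormedSpace.exp ((-t) • N) * NormedSpace.exp (t • N) = 1 := mul_eq_one_comm.1 hu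
  have hi : (NormedSpace.exp (t • N))⁻¹ = NormedSpace.exp ((-t) • N) := Matrix.inv_eq_right_inv hu
  have h2 : c • (NormedSpace.exp (t • N) * X * NormedSpace.exp ((-t) • N)) =
      NormedSpace.exp (t • N) * (c • X) * (NormedSpace.exp (t • N))⁻¹ := by
    rw [hi, Matrix.mul_smul, Matrix.smul_mul]
  rw [h2, Matrix.exp_conj _ _ (IsUnit.of_mul_eq_one _ hu), hi]
  exact hN t _ (hX c)

/-- brackets -/
lemma bracket_mem {X Y : Matrix (Fin n) (Fin n) ℂ} (hX : X ∈ LS S hS) (hY : Y ∈ LS S hS) : X * Y - Y * X ∈ LS S hS :=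
  ad_mem hS (fun t g hg => S.mul_mem (S.mul_mem (hX t) hg) (hX (-t))) hY

end mat

end Q207.HM
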