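import Pool.Agent.Q207.HM.Hyp
import Pool.Agent.Q207.HM.Den

/-!
# The pseudoreflection at one and the differential Galois group of the hypergeometric equation in the linear case
-/

set_option autoImplicit false

open Filter Topology Matrix

namespace Q207.HM

open Pool.Agent.Y119.HY (Am Bm um kx aq hq Hq Hq_zero cm cm_apply cm_mul cm_add cm_pow Hc uc ec
  uc_eq cm_vec mv_apply a0 a0_succ no_ext Ac_nil Ac_ec Ac_last Sol PG ps Hf Lens E Yf E_fix E_exp E_mul_neg Gal conj_E
  mem_Lens real_mem_Lens Gm ps_an)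

variable {n : ℕ} {Q : Polynomial ℚ}

lemma uc_Am (n : ℕ) : uc n ᵥ* cm (Am n) = 0 := by
  funext j
  rw [vecMul, dotProduct]
  refine Finset.sum_eq_zero fun i _ => ?_
  unfold uc
  split_ifs with h
  · rw [cm_apply]
    unfold Am
    rw [Matrix.of_apply, if_neg (by have := j.2; omega)]
    simp
  · rw [zero_mul]

lemma E_fixL {N : Matrix (Fin n) (Fin n) ℂ} {e : Fin n → ℂ} (he : e ᵥ* N = 0) (s : ℂ) : e ᵥ* E N s = e := by
  rcases n with _ | m
  · exact Subsingleton.elim _ _
  unfold E
  rw [Matrix.vecMul_sum, Finset.sum_range_succ']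
  have h1 : ∀ i ∈ Finset.range m, e ᵥ* ((s ^ (i + 1) / ((i + 1).factorial : ℂ)) • N ^ (i + 1)) = 0 := by
    intro i _
    rw [vecMul_smul, pow_succ' N, ← vecMul_vecMul, he, zero_vecMul, smul_zero]
  rw [Finset.sum_eq_zero h1, zero_add, pow_zero, pow_zero, Nat.factorial_zero, Nat.cast_one, div_one, one_smul, vecMul_one]

lemma vl_Ac (hn : 2 ≤ n) (v : Fin n → ℂ) : v ᵥ* (cm (Am n) ^ (n - 1)) = (v ⟨0, by omega⟩) • uc n := by
  funext j
  rw [← cm_pow, vecMul, dotProduct, Finset.sum_eq_single ⟨0, by omega⟩]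
  · rw [cm_apply, Pool.Agent.Y119.HY.Am_pow]
    simp only [Pi.smul_apply, smul_eq_mul]
    unfold uc
    by_cases h : (j : ℕ) + 1 = n
    · rw [if_pos h, if_pos (by omega)]
      simp
    · rw [if_neg h, if_neg (by omega)]
      simp
  · intro i _ hi
    rw [cm_apply, Pool.Agent.Y119.HY.Am_pow, if_neg]
    · simp
    · intro h
      apply hi
      apply Fin.ext
      simp only
      have := j.2
      omega
  · intro h
    exact absurd (Finset.mem_univ _) h

/-- the geometric series -/
lemma ps_one {z : ℂ} (hz : ‖z‖ < 1) : ps (fun _ => 1) z * (1 - z) = 1 := by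
  unfold ps
  simp only [one_mul]
  rw [tsum_geometric_of_norm_lt_one hz, inv_mul_cancel₀]
  intro h
  have : z = 1 := by linear_combination -h
  rw [this, norm_one] at hz
  exact lt_irrefl _ hz

/-- **The pseudoreflection.** -/
theorem refl_data (hQ : QG n Q) (hs : ∀ m : ℤ, ((Q.coeff (n - 1) : ℚ) : ℂ) ≠ m) : ∃ u φ : Fin n → ℂ, φ ⬝ᵥ u = 1 ∧
    (∀ m : ℤ, 1 + (Complex.exp (-((Q.coeff (n - 1) : ℚ) : ℂ) * (2 * Real.pi * Complex.I * m)) - 1) • vecMulVec u φ ∈
      Gal (Yf (cm (Am n)) (Hc n Q))) ∧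
    (cm (Am n) ^ (n - 1)) *ᵥ u ≠ 0 ∧ φ ᵥ* (cm (Am n) ^ (n - 1)) ≠ 0 := by
  have hn := hQ.two
  set s : ℂ := ((Q.coeff (n - 1) : ℚ) : ℂ) with hsd
  have hs0 : s ≠ 0 := by
    have := hs 0
    rwa [Int.cast_zero] at this
  set A := cm (Am n) with hA
  set B := cm (Bm n Q) with hB
  have hqu : qc n Q ⬝ᵥ uc n = s := by
    rw [dotProduct, Finset.sum_eq_single (li hn)]
    · unfold uc qc li
      rw [if_pos (by simp only; omega), mul_one]
    · intro b _ hb
      unfold uc
      rw [if_neg, mul_zero]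
      intro h
      apply hb
      apply Fin.ext
      unfold li
      simp only
      omega
    · intro h
      exact absurd (Finset.mem_univ _) h
  set q' : Fin n → ℂ := s⁻¹ • qc n Q with hq'
  have hq'u : q' ⬝ᵥ uc n = 1 := by rw [hq', smul_dotProduct, hqu, smul_eq_mul, inv_mul_cancel₀ hs0]
  set P : Matrix (Fin n) (Fin n) ℂ := vecMulVec (uc n) q' with hP
  have hPP : P * P = P := by rw [hP, vecMulVec_mul_vecMulVec, hq'u, one_smul]
  set σ : ℂ := -s with hσd
  have hσ : ∀ m : ℤ, σ ≠ m := by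
    intro m h
    apply hs (-m)
    push_cast
    rw [← h, hσd, neg_neg]
  have hBP : -B = σ • P := by
    rw [hB, cm_BmG, hP, hq', vecMulVec_smul, smul_smul, hσd]
    rw [neg_mul, mul_inv_cancel₀ hs0, neg_one_smul]
  have hH := sol_cG hQ
  rw [← hA, ← hB] at hH
  have hAn : A ^ n = 0 := Ac_nil
  obtain ⟨WT, hWT⟩ := exists_solR (nrT (nr_nil hAn)) (-Bᵀ)
  set W : ℕ → Matrix (Fin n) (Fin n) ℂ := fun k => (WT k)ᵀ with hWd
  have hW : SolL A B W := hWT
  obtain ⟨K, hK⟩ := exists_solR (nr_semi hPP hσ) (-A)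
  obtain ⟨VT, hVT⟩ := exists_solR (nrT (nr_semi hPP hσ)) (-(-A)ᵀ)
  set V : ℕ → Matrix (Fin n) (Fin n) ℂ := fun k => (VT k)ᵀ with hVd
  have hV : SolL (σ • P) (-A) V := hVT
  obtain ⟨M, Mi, hMi, hMi', hcon⟩ := connectR hAn hH hW hPP hσ hBP hK hV
  have hPu : ∀ v, P *ᵥ v = (q' ⬝ᵥ v) • uc n := by
    intro v
    rw [hP, vecMulVec_mulVec]
    exact op_smul_eq_smul _ _
  have huP : ∀ v, v ᵥ* P = (v ⬝ᵥ uc n) • q' := by
    intro v
    rw [hP, vecMul_vecMulVec]
  refine ⟨Mi *ᵥ uc n, q' ᵥ* M, ?_, fun m => ?_, ?_, ?_⟩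
  · rw [← dotProduct_mulVec, mulVec_mulVec, hMi, one_mulVec, hq'u]
  · have h1 := semi_mem_Gal (A := A) hPP (growthR hK (nr_semi hPP hσ)) hMi (Y := Yf A (Hc n Q)) (fun x hx hx1 => hcon _ (real_mem_Lens hx hx1)) m
    have h2 : Mi * EP P σ (2 * Real.pi * Complex.I * m) * M =
        1 + (Complex.exp (σ * (2 * Real.pi * Complex.I * m)) - 1) • vecMulVec (Mi *ᵥ uc n) (q' ᵥ* M) := by
      unfold EP
      rw [Matrix.mul_add, Matrix.add_mul, Matrix.mul_one, hMi', Matrix.mul_smul, Matrix.smul_mul, hP, mul_vecMulVec, vecMulVec_mul]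
    rw [h2] at h1
    exact h1
  · -- the last entry
    rw [hA, Ac_last hn]
    intro h0
    have h1 : (Mi *ᵥ uc n) ⟨n - 1, by omega⟩ = 0 := by
      have h2 := congrFun h0 ⟨0, by omega⟩
      simpa [ec] using h2
    set w : Fin n → ℂ := uc n ᵥ* Mi with hw
    have huc : ∀ v : Fin n → ℂ, uc n ⬝ᵥ v = v (li hn) := by
      intro v
      rw [dotProduct, Finset.sum_eq_single (li hn)]
      · unfold uc li
        rw [if_pos (by simp only; omega), one_mul]
      · intro b _ hb
        unfold uc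
        rw [if_neg, zero_mul]
        intro h
        apply hb
        apply Fin.ext
        unfold li
        simp only
        omega
      · intro h
        exact absurd (Finset.mem_univ _) h
    have hwu : w ⬝ᵥ uc n = 0 := by
      rw [hw, ← dotProduct_mulVec, huc]
      exact h1
    set G : ℂ → ℂ := fun z => ∑ l, w l * Hf V (1 - z) l (li hn) with hG
    have hgV : ∀ i j, PG fun k => V k i j := fun i j => growthL hV (nr_semi hPP hσ) i j
    have hGa : AnalyticOnNhd ℂ G (Metric.ball 1 1) := by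
      refine Finset.analyticOnNhd_fun_sum _ fun l _ => AnalyticOnNhd.mul analyticOnNhd_const ?_
      intro z hz
      have h3 := ps_an (hgV l (li hn)) (1 - z) (by
        rw [Metric.mem_ball, dist_zero_right]
        rw [Metric.mem_ball, dist_comm, dist_eq_norm] at hz
        exact hz)
      exact h3.comp (analyticAt_const.sub analyticAt_id)
    have hG1 : G 1 = 0 := by
      rw [hG]
      simp only [sub_self]
      have h3 : Hf V 0 = 1 := by
        ext i j
        show ps (fun k => V k i j) 0 = _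
        rw [Pool.Agent.Y119.HY.ps_zero, solL_zero hV]
      rw [h3]
      have h4 : ∑ l, w l * (1 : Matrix (Fin n) (Fin n) ℂ) l (li hn) = w (li hn) := by
        rw [Finset.sum_eq_single (li hn)]
        · rw [Matrix.one_apply_eq, mul_one]
        · intro b _ hb
          rw [Matrix.one_apply_ne hb, mul_zero]
        · intro h
          exact absurd (Finset.mem_univ _) h
      rw [h4, ← huc w, dotProduct_comm]
      exact hwu
    have hrow : ∀ z ∈ Lens, Hf W z (li hn) (li hn) = G z := by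
      intro z hz
      have hz' := mem_Lens.1 hz
      have hYi : (E A (-Complex.log z) * Hf W z) * Yf A (Hc n Q) z = 1 := by
        have h3 := Hf_inv hH hW (nr_nil hAn) hz'.1
        have h4 : E A (-Complex.log z) * E A (Complex.log z) = 1 := by
          have := E_mul_neg hAn (-Complex.log z)
          rwa [neg_neg] at this
        unfold Yf
        calc _ = E A (-Complex.log z) * (Hf W z * Hf (Hc n Q) z) * E A (Complex.log z) := by simp only [Matrix.mul_assoc]
          _ = 1 := by rw [h3, Matrix.mul_one, h4]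
      have hZi := Zi_Zf hPP hσ hK hV hz'.2
      have h5 : E A (-Complex.log z) * Hf W z = Mi * Zi P σ V z := by
        have h6 : (Mi * Zi P σ V z) * Yf A (Hc n Q) z = 1 := by
          rw [hcon z hz]
          calc _ = Mi * (Zi P σ V z * Zf P σ K z) * M := by simp only [Matrix.mul_assoc]
            _ = 1 := by rw [hZi, Matrix.mul_one, hMi']
        have h7 := mul_eq_one_comm.1 hYi
        calc E A (-Complex.log z) * Hf W z = 1 * (E A (-Complex.log z) * Hf W z) := by rw [Matrix.one_mul]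
          _ = (Mi * Zi P σ V z) * (Yf A (Hc n Q) z * (E A (-Complex.log z) * Hf W z)) := by
              rw [← h6]
              simp only [Matrix.mul_assoc]
          _ = _ := by rw [h7, Matrix.mul_one]
      have h8 : uc n ᵥ* (E A (-Complex.log z) * Hf W z) = uc n ᵥ* Hf W z := by
        rw [← vecMul_vecMul, E_fixL (uc_Am n)]
      have h9 : uc n ᵥ* (Mi * Zi P σ V z) = w ᵥ* Hf V (1 - z) := by
        unfold Zi EP
        rw [← vecMul_vecMul, ← hw, ← vecMul_vecMul, vecMul_add, vecMul_one, vecMul_smul, huP, hwu, zero_smul, smul_zero, add_zero]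
      have h10 := congrFun (h8.symm.trans ((congrArg (fun X => uc n ᵥ* X) h5).trans h9)) (li hn)
      have h11 : (uc n ᵥ* Hf W z) (li hn) = Hf W z (li hn) (li hn) := huc fun i => Hf W z i (li hn)
      rw [← h11, h10]
      rfl
    -- the partial sums
    have hsum : ∀ z, ‖z‖ < 1 → ps (fun k => (((bq n Q k : ℚ) : ℝ) : ℂ)) z * (1 - z) = Hf W z (li hn) (li hn) := by
      intro z hz
      have h3 := ps_mul (c := fun _ => 1) (d := fun k => W k (li hn) (li hn)) ⟨1, 0, fun k => by simp⟩
        (growthL hW (nr_nil hAn) _ _) hz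
      have h4 : (fun k => (((bq n Q k : ℚ) : ℝ) : ℂ)) =
          fun k => ∑ p ∈ Finset.HasAntidiagonal.antidiagonal k, (1 : ℂ) * W p.2 (li hn) (li hn) := by
        funext k
        have h2 := sum_last hW hQ k
        rw [← Finset.Nat.sum_antidiagonal_swap, Finset.Nat.sum_antidiagonal_eq_sum_range_succ_mk]
        simp only [one_mul, Prod.snd_swap]
        rw [h2]
        push_cast
        rfl
      rw [h4, ← h3]
      have h5 := ps_one hz
      calc _ = (ps (fun _ => 1) z * (1 - z)) * ps (fun k => W k (li hn) (li hn)) z := by ring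
        _ = _ := by
          rw [h5, one_mul]
          rfl
    have hd : DifferentiableOn ℂ (dslope G 1) (Metric.ball 1 1) := by
      rw [Complex.differentiableOn_dslope (Metric.ball_mem_nhds 1 one_pos)]
      exact hGa.differentiableOn
    have hda : AnalyticOnNhd ℂ (fun z => -dslope G 1 z) (Metric.ball 1 1) := (hd.analyticOnNhd Metric.isOpen_ball).neg
    refine no_extR (bq_ne hQ) (fun k => rfl) (ratio_b hQ) (PG_b hW hQ) hda fun z hz => ?_
    have hz' := mem_Lens.1 hz
    have h1z : z ≠ 1 := by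
      rintro rfl
      rw [norm_one] at hz'
      exact lt_irrefl _ hz'.1
    have h1z' : 1 - z ≠ 0 := fun h => h1z (by linear_combination -h)
    have h3 := hsum z hz'.1
    rw [hrow z hz] at h3
    rw [dslope_of_ne _ h1z, slope_def_field, hG1, sub_zero]
    rw [eq_comm, ← neg_div, div_eq_iff (sub_ne_zero.2 h1z), ← h3]
    ring
  · -- the first entry
    rw [hA, vl_Ac hn]
    intro h0
    have h1 : (q' ᵥ* M) ⟨0, by omega⟩ = 0 := by
      have h2 := congrFun h0 (li hn)
      have h3 : uc n (li hn) = 1 := by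
        unfold uc li
        rw [if_pos (by dsimp only; omega)]
      rw [Pi.smul_apply, h3, smul_eq_mul, mul_one] at h2
      exact h2
    have hPe : q' ⬝ᵥ (M *ᵥ ec n) = 0 := by
      rw [dotProduct_mulVec, dotProduct, Finset.sum_eq_single ⟨0, by omega⟩]
      · rw [h1, zero_mul]
      · intro b _ hb
        unfold ec
        rw [if_neg, mul_zero]
        intro h
        exact hb (Fin.ext h)
      · intro h
        exact absurd (Finset.mem_univ _) h
    have hgK : ∀ i j, PG fun k => K k i j := growthR hK (nr_semi hPP hσ)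
    refine singG hQ (fun z => (Hf K (1 - z) *ᵥ (M *ᵥ ec n)) ⟨0, by omega⟩) ?_ fun z hz => ?_
    · have : (fun z => (Hf K (1 - z) *ᵥ (M *ᵥ ec n)) ⟨0, by omega⟩) =
          fun z => ∑ l, Hf K (1 - z) ⟨0, by omega⟩ l * (M *ᵥ ec n) l := rfl
      rw [this]
      refine Finset.analyticOnNhd_fun_sum _ fun l _ => AnalyticOnNhd.mul ?_ analyticOnNhd_const
      intro z hz
      have h3 := ps_an (hgK ⟨0, by omega⟩ l) (1 - z) (by
        rw [Metric.mem_ball, dist_zero_right]
        rw [Metric.mem_ball, dist_comm, dist_eq_norm] at hz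
        exact hz)
      exact h3.comp (analyticAt_const.sub analyticAt_id)
    · have h3 := congrArg (fun X => X *ᵥ ec n) (hcon z hz)
      unfold Yf Zf EP at h3
      rw [← mulVec_mulVec, E_fix (Ac_ec n), ← mulVec_mulVec, ← mulVec_mulVec, add_mulVec, one_mulVec, smul_mulVec, hPu, hPe,
        zero_smul, smul_zero, add_zero] at h3
      rw [h3]

/-- **The differential Galois group of the hypergeometric equation, linear case.** -/
theorem hyp_lin (hQ : QG n Q) (hs : ∀ m : ℤ, (2 : ℂ) * ((Q.coeff (n - 1) : ℚ) : ℂ) ≠ m) (g : Matrix (Fin n) (Fin n) ℂ) (hg : g.det = 1) :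
    g ∈ Gal (Yf (cm (Am n)) (Hc n Q)) := by
  obtain ⟨u, φ, h1, h2, h3, h4⟩ := refl_data hQ fun m h => hs (2 * m) (by rw [h]; push_cast; rfl)
  set s : ℂ := ((Q.coeff (n - 1) : ℚ) : ℂ) with hsd
  set ξ : ℂ := Complex.exp (-s * (2 * Real.pi * Complex.I)) with hξd
  have hξ0 : ξ ≠ 0 := Complex.exp_ne_zero _
  have hξ2 : ξ ^ 2 ≠ 1 := by
    intro h
    rw [hξd, ← Complex.exp_nat_mul, Complex.exp_eq_one_iff] at h
    obtain ⟨m, hm⟩ := h
    apply hs (-m)
    have hpi : (2 * (Real.pi : ℂ) * Complex.I) ≠ 0 := Complex.two_pi_I_ne_zero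
    push_cast at hm ⊢
    have h5 : (2 * (Real.pi : ℂ) * Complex.I) * (2 * s + m) = 0 := by linear_combination -hm
    rcases mul_eq_zero.1 h5 with h6 | h6
    · exact absurd h6 hpi
    · linear_combination h6
  have hr := h2 1
  have hr' := h2 (-1)
  have e1 : Complex.exp (-s * (2 * Real.pi * Complex.I * ((1 : ℤ) : ℂ))) = ξ := by
    rw [hξd, Int.cast_one, mul_one]
  have e2 : Complex.exp (-s * (2 * Real.pi * Complex.I * ((-1 : ℤ) : ℂ))) = ξ⁻¹ := by
    rw [hξd, ← Complex.exp_neg]
    congr 1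
    push_cast
    ring
  rw [e1] at hr
  rw [e2] at hr'
  refine sl_sub (Gal_isClosed _) (A := cm (Am n)) (fun t g hg => ?_) h1 hr hr' hξ0 hQ.two hξ2 Ac_nil h3 h4 g hg
  have h5 := conj_E Ac_nil (sol_cG hQ) t g hg
  rw [E_exp Ac_nil, E_exp Ac_nil] at h5
  exact h5

end Q207.HM
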