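import Pool.Agent.Q207.HM.Dua

/-!
# Rational equivalence of hypergeometric systems
-/

set_option autoImplicit false

open Matrix

namespace Q207.HM

open Pool.Agent.Y119.HY (Am Jm Jm_rel Bm cm cm_apply cm_mul cm_add cm_zero cm_one cm_transpose Hc Ac_nil Hf Yf E)
open Pool.Agent.Y119.HZ (evq)

variable {n : ℕ}

/-- values of matrices of rational functions -/
def IsR (G : ℝ → Matrix (Fin n) (Fin n) ℂ) : Prop :=
  ∃ (N : Matrix (Fin n) (Fin n) (Polynomial ℚ)) (d : Polynomial ℚ), ∀ x : ℝ, 0 < x → x < 1 →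
    evq (x : ℂ) d ≠ 0 ∧ evq (x : ℂ) d • G x = N.map (evq (x : ℂ))

lemma IsR.const (M : Matrix (Fin n) (Fin n) ℚ) : IsR fun _ => cm M := by
  refine ⟨M.map Polynomial.C, 1, fun x _ _ => ?_⟩
  rw [map_one, one_smul]
  refine ⟨one_ne_zero, ?_⟩
  ext i j
  show ((M i j : ℚ) : ℂ) = evq (x : ℂ) (Polynomial.C (M i j))
  unfold evq
  simp

lemma IsR.mul {G K : ℝ → Matrix (Fin n) (Fin n) ℂ} (hG : IsR G) (hK : IsR K) : IsR fun x => G x * K x := by
  obtain ⟨N, d, h⟩ := hG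
  obtain ⟨N', d', h'⟩ := hK
  refine ⟨N * N', d * d', fun x hx hx1 => ?_⟩
  obtain ⟨h1, h2⟩ := h x hx hx1
  obtain ⟨h3, h4⟩ := h' x hx hx1
  rw [map_mul, Matrix.map_mul, ← h2, ← h4, smul_mul_smul_comm]
  exact ⟨mul_ne_zero h1 h3, rfl⟩

lemma IsR.tr {G : ℝ → Matrix (Fin n) (Fin n) ℂ} (hG : IsR G) : IsR fun x => (G x)ᵀ := by
  obtain ⟨N, d, h⟩ := hG
  refine ⟨Nᵀ, d, fun x hx hx1 => ?_⟩
  obtain ⟨h1, h2⟩ := h x hx hx1
  refine ⟨h1, ?_⟩
  rw [Matrix.transpose_map, ← h2, Matrix.transpose_smul]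

lemma IsR.inv {G : ℝ → Matrix (Fin n) (Fin n) ℂ} (hG : IsR G) (hd : ∀ x : ℝ, 0 < x → x < 1 → (G x).det ≠ 0) :
    IsR fun x => (G x)⁻¹ := by
  obtain ⟨N, d, h⟩ := hG
  refine ⟨d • N.adjugate, N.det, fun x hx hx1 => ?_⟩
  obtain ⟨h1, h2⟩ := h x hx hx1
  have h3 : evq (x : ℂ) N.det = (N.map (evq (x : ℂ))).det := RingHom.map_det _ _
  have h4 : (N.map (evq (x : ℂ))).det ≠ 0 := by
    rw [← h2, Matrix.det_smul]
    exact mul_ne_zero (pow_ne_zero _ h1) (hd x hx hx1)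
  rw [h3]
  refine ⟨h4, ?_⟩
  have h5 : (d • N.adjugate).map (evq (x : ℂ)) = evq (x : ℂ) d • (N.map (evq (x : ℂ))).adjugate := by
    have h6 : (N.adjugate).map (evq (x : ℂ)) = (N.map (evq (x : ℂ))).adjugate := RingHom.map_adjugate _ _
    rw [← h6]
    ext i j
    rw [Matrix.map_apply, Matrix.smul_apply, Matrix.smul_apply, smul_eq_mul, smul_eq_mul, map_mul, Matrix.map_apply]
  rw [h5]
  have hu : IsUnit (G x).det := Ne.isUnit (hd x hx hx1)
  have h7 : (N.map (evq (x : ℂ))).adjugate = (N.map (evq (x : ℂ))).adjugate * ((G x) * (G x)⁻¹) := by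
    rw [Matrix.mul_nonsing_inv _ hu, Matrix.mul_one]
  rw [h7, ← Matrix.mul_assoc, ← Matrix.smul_mul, ← Matrix.mul_smul, h2, Matrix.adjugate_mul, Matrix.smul_mul, Matrix.one_mul]

/-- linear equivalence -/
def LE (n : ℕ) (Q Q' : Polynomial ℚ) : Prop :=
  ∃ (G : ℝ → Matrix (Fin n) (Fin n) ℂ) (c : Matrix (Fin n) (Fin n) ℚ), IsR G ∧ (∀ x : ℝ, 0 < x → x < 1 → (G x).det ≠ 0) ∧ c.det ≠ 0 ∧
    c * Am n = Am n * c ∧ ∀ x : ℝ, 0 < x → x < 1 → Yx n Q' x * cm c = G x * Yx n Q x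

/-- duality -/
def LD (n : ℕ) (Q Q' : Polynomial ℚ) : Prop :=
  ∃ (S : ℝ → Matrix (Fin n) (Fin n) ℂ) (c : Matrix (Fin n) (Fin n) ℚ), IsR S ∧ (∀ x : ℝ, 0 < x → x < 1 → (S x).det ≠ 0) ∧ c.det ≠ 0 ∧
    (Am n)ᵀ * c + c * Am n = 0 ∧ ∀ x : ℝ, 0 < x → x < 1 → (Yx n Q x)ᵀ * S x * Yx n Q' x = cm c

variable {Q Q' Q'' : Polynomial ℚ}

lemma cm_inv {c : Matrix (Fin n) (Fin n) ℚ} (hc : c.det ≠ 0) : cm c * cm c⁻¹ = 1 ∧ cm c⁻¹ * cm c = 1 := by
  rw [← cm_mul, ← cm_mul, Matrix.mul_nonsing_inv _ (Ne.isUnit hc), Matrix.nonsing_inv_mul _ (Ne.isUnit hc), cm_one]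
  exact ⟨rfl, rfl⟩

lemma det_inv_ne {K : Type*} [Field K] {c : Matrix (Fin n) (Fin n) K} (hc : c.det ≠ 0) : c⁻¹.det ≠ 0 := by
  rw [Matrix.det_nonsing_inv, Ring.inverse_eq_inv']
  exact inv_ne_zero hc

lemma comm_inv {c : Matrix (Fin n) (Fin n) ℚ} (hc : c.det ≠ 0) (h : c * Am n = Am n * c) : c⁻¹ * Am n = Am n * c⁻¹ := by
  have h1 : c⁻¹ * c = 1 := Matrix.nonsing_inv_mul _ (Ne.isUnit hc)
  have h2 : c * c⁻¹ = 1 := Matrix.mul_nonsing_inv _ (Ne.isUnit hc)
  calc c⁻¹ * Am n = c⁻¹ * Am n * (c * c⁻¹) := by rw [h2, Matrix.mul_one]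
    _ = c⁻¹ * (Am n * c) * c⁻¹ := by simp only [Matrix.mul_assoc]
    _ = c⁻¹ * (c * Am n) * c⁻¹ := by rw [h]
    _ = (c⁻¹ * c) * Am n * c⁻¹ := by simp only [Matrix.mul_assoc]
    _ = _ := by rw [h1, Matrix.one_mul]

lemma LE.refl (n : ℕ) (Q : Polynomial ℚ) : LE n Q Q := by
  refine ⟨fun _ => cm 1, 1, IsR.const 1, fun x _ _ => ?_, ?_, ?_, fun x _ _ => ?_⟩
  · rw [cm_one, Matrix.det_one]
    exact one_ne_zero
  · rw [Matrix.det_one]
    exact one_ne_zero
  · rw [Matrix.one_mul, Matrix.mul_one]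
  · rw [cm_one, Matrix.one_mul, Matrix.mul_one]

lemma LE.trans (h : LE n Q Q') (h' : LE n Q' Q'') : LE n Q Q'' := by
  obtain ⟨G, c, h1, h2, h3, h4, h5⟩ := h
  obtain ⟨G', c', h1', h2', h3', h4', h5'⟩ := h'
  refine ⟨fun x => G' x * G x, c' * c, h1'.mul h1, fun x hx hx1 => ?_, ?_, ?_, fun x hx hx1 => ?_⟩
  · rw [Matrix.det_mul]
    exact mul_ne_zero (h2' x hx hx1) (h2 x hx hx1)
  · rw [Matrix.det_mul]
    exact mul_ne_zero h3' h3
  · rw [Matrix.mul_assoc, h4, ← Matrix.mul_assoc, h4', Matrix.mul_assoc]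
  · rw [cm_mul, ← Matrix.mul_assoc, h5' x hx hx1, Matrix.mul_assoc, h5 x hx hx1, Matrix.mul_assoc]

lemma LE.symm (h : LE n Q Q') : LE n Q' Q := by
  obtain ⟨G, c, h1, h2, h3, h4, h5⟩ := h
  refine ⟨fun x => (G x)⁻¹, c⁻¹, h1.inv h2, fun x hx hx1 => det_inv_ne (h2 x hx hx1), det_inv_ne h3, comm_inv h3 h4, fun x hx hx1 => ?_⟩
  have hu : IsUnit (G x).det := Ne.isUnit (h2 x hx hx1)
  calc Yx n Q x * cm c⁻¹ = ((G x)⁻¹ * G x) * Yx n Q x * cm c⁻¹ := by rw [Matrix.nonsing_inv_mul _ hu, Matrix.one_mul]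
    _ = (G x)⁻¹ * (G x * Yx n Q x) * cm c⁻¹ := by simp only [Matrix.mul_assoc]
    _ = (G x)⁻¹ * (Yx n Q' x * cm c) * cm c⁻¹ := by rw [h5 x hx hx1]
    _ = (G x)⁻¹ * Yx n Q' x * (cm c * cm c⁻¹) := by simp only [Matrix.mul_assoc]
    _ = _ := by rw [(cm_inv h3).1, Matrix.mul_one]

lemma LD.symm (h : LD n Q Q') : LD n Q' Q := by
  obtain ⟨S, c, h1, h2, h3, h4, h5⟩ := h
  refine ⟨fun x => (S x)ᵀ, cᵀ, h1.tr, fun x hx hx1 => ?_, ?_, ?_, fun x hx hx1 => ?_⟩
  · rw [Matrix.det_transpose]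
    exact h2 x hx hx1
  · rw [Matrix.det_transpose]
    exact h3
  · have := congrArg Matrix.transpose h4
    rw [Matrix.transpose_add, Matrix.transpose_mul, Matrix.transpose_mul, Matrix.transpose_transpose, Matrix.transpose_zero] at this
    rw [add_comm]
    exact this
  · have := congrArg Matrix.transpose (h5 x hx hx1)
    rw [Matrix.transpose_mul, Matrix.transpose_mul, Matrix.transpose_transpose, ← Matrix.mul_assoc] at this
    rw [cm_transpose]
    exact this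

lemma LD.trans (h : LD n Q Q') (h' : LE n Q' Q'') : LD n Q Q'' := by
  obtain ⟨S, c, h1, h2, h3, h4, h5⟩ := h
  obtain ⟨G, c', h1', h2', h3', h4', h5'⟩ := h'
  refine ⟨fun x => S x * (G x)⁻¹, c * c'⁻¹, h1.mul (h1'.inv h2'), fun x hx hx1 => ?_, ?_, ?_, fun x hx hx1 => ?_⟩
  · rw [Matrix.det_mul]
    exact mul_ne_zero (h2 x hx hx1) (det_inv_ne (h2' x hx hx1))
  · rw [Matrix.det_mul]
    exact mul_ne_zero h3 (det_inv_ne h3')
  · rw [Matrix.mul_assoc c, comm_inv h3' h4', ← Matrix.mul_assoc, ← Matrix.mul_assoc, ← Matrix.add_mul, h4, Matrix.zero_mul]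
  · have hu : IsUnit (G x).det := Ne.isUnit (h2' x hx hx1)
    have e1 : (G x)⁻¹ * Yx n Q'' x = Yx n Q' x * cm c'⁻¹ := by
      calc (G x)⁻¹ * Yx n Q'' x = (G x)⁻¹ * (Yx n Q'' x * (cm c' * cm c'⁻¹)) := by rw [(cm_inv h3').1, Matrix.mul_one]
        _ = (G x)⁻¹ * (Yx n Q'' x * cm c') * cm c'⁻¹ := by simp only [Matrix.mul_assoc]
        _ = (G x)⁻¹ * (G x * Yx n Q' x) * cm c'⁻¹ := by rw [h5' x hx hx1]
        _ = ((G x)⁻¹ * G x) * (Yx n Q' x * cm c'⁻¹) := by simp only [Matrix.mul_assoc]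
        _ = _ := by rw [Matrix.nonsing_inv_mul _ hu, Matrix.one_mul]
    calc (Yx n Q x)ᵀ * (S x * (G x)⁻¹) * Yx n Q'' x = (Yx n Q x)ᵀ * S x * ((G x)⁻¹ * Yx n Q'' x) := by
          simp only [Matrix.mul_assoc]
      _ = ((Yx n Q x)ᵀ * S x * Yx n Q' x) * cm c'⁻¹ := by rw [e1]; simp only [Matrix.mul_assoc]
      _ = _ := by rw [h5 x hx hx1, cm_mul]

lemma LE.ld (h : LE n Q Q') (h' : LD n Q' Q'') : LD n Q Q'' := (h'.symm.trans h.symm).symm

/-- one exponent is raised -/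
lemma LE.shift {P : Polynomial ℚ} {a : ℚ} (hG : QG n Q) (hQ : Q = P * (Polynomial.X + Polynomial.C a))
    (hQ' : Q' = P * (Polynomial.X + Polynomial.C (a + 1))) (hG' : QG n Q') (ha : a ≠ 0) : LE n Q Q' := by
  have hcm : cm (a • (1 : Matrix (Fin n) (Fin n) ℚ) + Am n) = gA n a := by
    ext i j
    unfold gA
    rw [cm_apply, Matrix.add_apply, Matrix.add_apply, Matrix.smul_apply, Matrix.smul_apply, cm_apply, smul_eq_mul, smul_eq_mul,
      Matrix.one_apply, Matrix.one_apply]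
    split_ifs <;> push_cast <;> ring
  have heq : ∀ x : ℝ, 0 < x → x < 1 → Yx n Q' x * cm (a • (1 : Matrix (Fin n) (Fin n) ℚ) + Am n) = Ga n Q a x * Yx n Q x := by
    intro x hx hx1
    rw [hcm]
    unfold Yx Yf
    have hz : ‖(x : ℂ)‖ < 1 := by
      rw [Complex.norm_real, Real.norm_of_nonneg hx.le]
      exact hx1
    have hz0 : (x : ℂ) ≠ 0 := Complex.ofReal_ne_zero.2 hx.ne'
    rw [Matrix.mul_assoc, ← gA_comm, ← Matrix.mul_assoc, Hf_shift hG hQ hQ' hG' hz hz0, Matrix.mul_assoc]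
  have hcd : (a • (1 : Matrix (Fin n) (Fin n) ℚ) + Am n).det ≠ 0 := by
    have h1 := (gA_inv (n := n) ha).1
    intro h0
    have h2 : (gA n a).det = 0 := by
      rw [← hcm]
      have : (cm (a • (1 : Matrix (Fin n) (Fin n) ℚ) + Am n)).det = (((a • (1 : Matrix (Fin n) (Fin n) ℚ) + Am n).det : ℚ) : ℂ) :=
        ((algebraMap ℚ ℂ).map_det _).symm
      rw [this, h0, Rat.cast_zero]
    have h3 := congrArg Matrix.det h1
    rw [Matrix.det_mul, h2, zero_mul, Matrix.det_one] at h3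
    exact zero_ne_one h3
  refine ⟨fun x => Ga n Q a x, a • 1 + Am n, ?_, fun x hx hx1 h0 => ?_, hcd, ?_, heq⟩
  · refine ⟨(1 - Polynomial.X : Polynomial ℚ) • (a • (1 : Matrix (Fin n) (Fin n) ℚ) + Am n).map Polynomial.C +
      (Polynomial.X : Polynomial ℚ) • (Bm n Q).map Polynomial.C, 1 - Polynomial.X, fun x hx hx1 => ?_⟩
    have hX : evq (x : ℂ) Polynomial.X = (x : ℂ) := by
      unfold evq
      simp
    have hC : ∀ q : ℚ, evq (x : ℂ) (Polynomial.C q) = (q : ℂ) := by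
      intro q
      unfold evq
      simp
    have h1x : (1 : ℂ) - x ≠ 0 := by
      intro h0
      have h2 : (((1 - x : ℝ)) : ℂ) = 0 := by push_cast; exact h0
      rw [Complex.ofReal_eq_zero] at h2
      linarith
    rw [map_sub, map_one, hX]
    refine ⟨h1x, ?_⟩
    ext i j
    unfold Ga
    simp only [Matrix.map_apply, Matrix.add_apply, Matrix.smul_apply, smul_eq_mul, map_add, map_mul, map_sub, map_one, hX, hC, cm_apply,
      Matrix.one_apply]
    have e : (((if i = j then (1 : ℚ) else 0) : ℚ) : ℂ) = if i = j then 1 else 0 := by split_ifs <;> simp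
    simp only [e]
    field_simp
    ring
  · have h1 := congrArg Matrix.det (heq x hx hx1)
    rw [Matrix.det_mul, Matrix.det_mul, h0, zero_mul] at h1
    rcases mul_eq_zero.1 h1 with h2 | h2
    · exact det_Yx_ne hG' hx hx1 h2
    · apply hcd
      have : (cm (a • (1 : Matrix (Fin n) (Fin n) ℚ) + Am n)).det = (((a • (1 : Matrix (Fin n) (Fin n) ℚ) + Am n).det : ℚ) : ℂ) :=
        ((algebraMap ℚ ℂ).map_det _).symm
      rw [this] at h2
      exact_mod_cast h2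
  · rw [Matrix.add_mul, Matrix.mul_add, Matrix.smul_mul, Matrix.mul_smul, Matrix.one_mul, Matrix.mul_one]

lemma LE.step (hn : 2 ≤ n) {α : Fin n → ℚ} (hα : ∀ i, ∀ a : ℤ, α i ≠ a) (i : Fin n) :
    LE n (QA α) (QA (Function.update α i (α i + 1))) := by
  have hα' : ∀ j, ∀ a : ℤ, Function.update α i (α i + 1) j ≠ a := by
    intro j a h0
    by_cases hj : j = i
    · subst hj
      rw [Function.update_self] at h0
      exact hα j (a - 1) (by push_cast; linarith)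
    · rw [Function.update_of_ne hj] at h0
      exact hα j a h0
  refine LE.shift (QG_QA hn fun i l h0 => hα i l h0.symm) (QA_split α i) (QA_upd α i (α i + 1))
    (QG_QA hn fun i l h0 => hα' i l h0.symm) fun h0 => hα i 0 (by rw [h0]; simp)

lemma LE.raise (hn : 2 ≤ n) (N : ℕ) : ∀ {α : Fin n → ℚ}, (∀ i, ∀ a : ℤ, α i ≠ a) → ∀ m : Fin n → ℕ, ∑ i, m i = N →
    LE n (QA α) (QA fun i => α i + m i) := by
  induction N with
  | zero =>
    intro α _ m hm
    have h0 : ∀ i, m i = 0 := fun i => (Finset.sum_eq_zero_iff.1 hm) i (Finset.mem_univ i)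
    have : (fun i => α i + m i) = α := by
      funext i
      rw [h0, Nat.cast_zero, add_zero]
    rw [this]
    exact LE.refl _ _
  | succ N ih =>
    intro α hα m hm
    obtain ⟨i, hi⟩ : ∃ i, m i ≠ 0 := by
      by_contra h0
      push Not at h0
      rw [Finset.sum_eq_zero fun i _ => h0 i] at hm
      omega
    refine (LE.step hn hα i).trans ?_
    have h1 := ih (α := Function.update α i (α i + 1)) (fun j a h0 => ?_) (Function.update m i (m i - 1)) ?_
    · have : (fun j => Function.update α i (α i + 1) j + ((Function.update m i (m i - 1) j : ℕ) : ℚ)) = fun j => α j + m j := by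
        funext j
        by_cases hj : j = i
        · subst hj
          rw [Function.update_self, Function.update_self, Nat.cast_sub (by omega)]
          push_cast
          ring
        · rw [Function.update_of_ne hj, Function.update_of_ne hj]
      rw [this] at h1
      exact h1
    · by_cases hj : j = i
      · subst hj
        rw [Function.update_self] at h0
        exact hα j (a - 1) (by push_cast; linarith)
      · rw [Function.update_of_ne hj] at h0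
        exact hα j a h0
    · rw [Finset.sum_update_of_mem (Finset.mem_univ i)]
      rw [← Finset.add_sum_erase _ _ (Finset.mem_univ i)] at hm
      have e : (Finset.univ \ {i} : Finset (Fin n)) = Finset.univ.erase i := by
        rw [Finset.sdiff_singleton_eq_erase]
      rw [e]
      omega

/-- **Equal classes: rational equivalence.** -/
theorem LE.of_cls (hn : 2 ≤ n) {α α' : Fin n → ℚ} (hα : ∀ i, ∀ a : ℤ, α i ≠ a) (hα' : ∀ i, ∀ a : ℤ, α' i ≠ a) (h : cls α = cls α') :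
    LE n (QA α) (QA α') := by
  obtain ⟨σ, hσ⟩ := cls_perm h
  choose a ha using hσ
  have h1 := LE.raise hn _ hα (fun i => (a i).toNat) rfl
  have hασ : ∀ i, ∀ b : ℤ, (α' ∘ σ) i ≠ b := fun i b => hα' (σ i) b
  have h2 := LE.raise hn _ hασ (fun i => (-a i).toNat) rfl
  have h3 : (fun i => (α' ∘ σ) i + (((-a i).toNat : ℕ) : ℚ)) = fun i => α i + (((a i).toNat : ℕ) : ℚ) := by
    funext i
    have h4 : ((a i).toNat : ℤ) - ((-a i).toNat : ℤ) = a i := Int.toNat_sub_toNat_neg (a i)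
    have h5 : (((a i).toNat : ℕ) : ℚ) - (((-a i).toNat : ℕ) : ℚ) = a i := by exact_mod_cast h4
    simp only [Function.comp]
    linear_combination ha i - h5
  rw [h3] at h2
  have h4 : QA (α' ∘ σ) = QA α' := by
    unfold QA
    exact Equiv.prod_comp σ fun i => (Polynomial.X + Polynomial.C (α' i))
  rw [h4] at h2
  exact h1.trans h2.symm

/-- **Opposite classes: duality.** -/
theorem LD.of_cls (hn : 2 ≤ n) {α α' : Fin n → ℚ} (hα : ∀ i, ∀ a : ℤ, α i ≠ a) (hα' : ∀ i, ∀ a : ℤ, α' i ≠ a)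
    (h : cls α = cls fun i => -α' i) : LD n (QA α) (QA α') := by
  have hαn : ∀ i, ∀ a : ℤ, -α i ≠ a := fun i a h0 => hα i (-a) (by push_cast; linarith)
  have h1 : LD n (QA α) (QA fun i => -α i) := by
    have h0 : ((QA α).comp (-Polynomial.X)).coeff 0 ≠ 0 := by
      rw [comp_neg_coeffQ, pow_zero, one_mul]
      have := (QG_QA hn fun i l h0 => hα i l h0.symm).ne 0
      rwa [Nat.cast_zero, ← Polynomial.coeff_zero_eq_eval_zero] at this
    have hd : (cm (Jm n ((QA α).comp (-Polynomial.X)))).det ≠ 0 := by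
      have : (cm (Jm n ((QA α).comp (-Polynomial.X)))).det = (((Jm n ((QA α).comp (-Polynomial.X))).det : ℚ) : ℂ) :=
        ((algebraMap ℚ ℂ).map_det _).symm
      rw [this]
      exact_mod_cast Jm_det h0
    exact ⟨fun _ => cm (Jm n ((QA α).comp (-Polynomial.X))), Jm n ((QA α).comp (-Polynomial.X)), IsR.const _, fun _ _ _ => hd, Jm_det h0,
      Jm_rel, fun x hx hx1 => dual_Yx hn hα hx hx1⟩
  exact h1.trans (LE.of_cls hn hαn hα' (cls_neg' h))

end Q207.HM
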