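import Pool.Agent.Q207.HM.Ful

/-!
# The differential Galois group of a family with repeated and dual members
-/

set_option autoImplicit false

open Matrix

namespace Q207.HM

open Pool.Agent.Y119.HY (Am Jm Bm cm cm_apply cm_mul cm_add cm_zero cm_one cm_transpose Hc Ac_nil Hf Yf E Ep Ep_eval E_neg E_isom E_mul_neg
  Gal Rel Sol Vr)
open Pool.Agent.Y119.HZ (evq)

/-- the transported matrix -/
noncomputable def lk {m n : ℕ} (d : Bool) (P : Matrix (Fin n) (Fin m) ℂ) (P' : Matrix (Fin m) (Fin n) ℂ) (κ : Matrix (Fin m) (Fin m) ℂ) :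
    Matrix (Fin n) (Fin n) ℂ := P * (if d then (κ⁻¹)ᵀ else κ) * P'

section

variable {m n : ℕ} {α : Fin m → ℚ} {α' : Fin n → ℚ} {h : HB m} {G : ℝ → Matrix (Fin m) (Fin m) ℂ} {c : Matrix (Fin m) (Fin m) ℚ}

/-- **The link with the exact block, Galois form.** -/
theorem link_gal (hg : Gau α h G c) (hQ : QG m h.Q) (hα : ∀ i, ∀ a : ℤ, α i ≠ a) (hα' : ∀ i, ∀ a : ℤ, α' i ≠ a)
    (hcl : cls α = cls α' ∨ cls α = cls fun i => -α' i) :
    ∃ (d : Bool) (P : Matrix (Fin n) (Fin m) ℂ) (P' : Matrix (Fin m) (Fin n) ℂ)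
      (M : Matrix (Fin n) (Fin n) (MvPolynomial (Wv m) ℂ)) (D : MvPolynomial (Wv m) ℂ), P * P' = 1 ∧ P' * P = 1 ∧
      (∀ x : ℝ, 0 < x → x < 1 → ∀ κ : Matrix (Fin m) (Fin m) ℂ, κ.det ≠ 0 →
        MvPolynomial.eval (px (x : ℂ) (Yx m h.Q x * κ)) D ≠ 0 ∧
        M.map (MvPolynomial.eval (px (x : ℂ) (Yx m h.Q x * κ))) =
          MvPolynomial.eval (px (x : ℂ) (Yx m h.Q x * κ)) D • (Yx n (QA α') x * lk d P P' κ)) ∧
      ∀ t : ℕ, 2 ≤ t → ∀ (g : Matrix (Fin m) (Fin m) ℂ) (g' : Matrix (Fin n) (Fin n) ℂ), Lin (QA α) (QA α') t g g' →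
        Bil (QA α) (QA α') t g g' → g.det ≠ 0 →
        g' = Yx n (QA α') (1 / (t : ℝ)) * lk d P P' ((Yx m h.Q (1 / (t : ℝ)))⁻¹ * dg' G c t g) := by
  have hmn : m = n := by
    rcases hcl with h1 | h1
    · exact cls_size h1
    · exact cls_size h1
  subst hmn
  have hn := hQ.two
  have hcc := cm_inv hg.cdet
  have hY : ∀ x : ℝ, 0 < x → x < 1 → Yx m (QA α) x = G x * Yx m h.Q x * cm c⁻¹ := by
    intro x hx hx1
    calc Yx m (QA α) x = Yx m (QA α) x * (cm c * cm c⁻¹) := by rw [hcc.1, Matrix.mul_one]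
      _ = _ := by rw [← Matrix.mul_assoc, hg.eq x hx hx1]
  rcases hcl with h1 | h1
  · obtain ⟨G', c', r1, r2, r3, r4, r5⟩ := LE.of_cls hn hα hα' h1
    have hcc' := cm_inv r3
    have hd0 : (c⁻¹ * c'⁻¹).det ≠ 0 := by
      rw [Matrix.det_mul, Matrix.det_nonsing_inv, Matrix.det_nonsing_inv, Ring.inverse_eq_inv']
      exact mul_ne_zero (inv_ne_zero hg.cdet) (inv_ne_zero r3)
    obtain ⟨hk1, hk2⟩ := cm_inv hd0
    obtain ⟨M, D, hMD⟩ := pol_E (r1.mul hg.r) (cm (c⁻¹ * c'⁻¹))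
    have hYj : ∀ x : ℝ, 0 < x → x < 1 → Yx m (QA α') x = G' x * G x * Yx m h.Q x * cm (c⁻¹ * c'⁻¹) := by
      intro x hx hx1
      calc Yx m (QA α') x = Yx m (QA α') x * (cm c' * cm c'⁻¹) := by rw [hcc'.1, Matrix.mul_one]
        _ = G' x * Yx m (QA α) x * cm c'⁻¹ := by rw [← Matrix.mul_assoc, r5 x hx hx1]
        _ = _ := by
          rw [hY x hx hx1, cm_mul]
          simp only [Matrix.mul_assoc]
    refine ⟨false, cm (c⁻¹ * c'⁻¹)⁻¹, cm (c⁻¹ * c'⁻¹), M, D, hk2, hk1, fun x hx hx1 κ hκ => hMD x hx hx1 _ _ ?_,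
      fun t ht g g' hl hb hd => ?_⟩
    · unfold lk
      simp only [Bool.false_eq_true, if_false]
      rw [hYj x hx hx1]
      calc G' x * G x * Yx m h.Q x * cm (c⁻¹ * c'⁻¹) * (cm (c⁻¹ * c'⁻¹)⁻¹ * κ * cm (c⁻¹ * c'⁻¹)) =
            G' x * G x * Yx m h.Q x * (cm (c⁻¹ * c'⁻¹) * cm (c⁻¹ * c'⁻¹)⁻¹) * κ * cm (c⁻¹ * c'⁻¹) := by
              simp only [Matrix.mul_assoc]
        _ = _ := by
          rw [hk1, Matrix.mul_one]
          simp only [Matrix.mul_assoc]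
    · obtain ⟨ht0, ht1⟩ := tpos ht
      have h2 := hl.use ht r1 r5
      have h3 : g' = G' (1 / (t : ℝ)) * g * cm c'⁻¹ := by
        calc g' = g' * (cm c' * cm c'⁻¹) := by rw [hcc'.1, Matrix.mul_one]
          _ = _ := by rw [← Matrix.mul_assoc, h2]
      have h4 := dg_eq hg ht g
      have hu : IsUnit (Yx m h.Q (1 / (t : ℝ))).det := Ne.isUnit (det_Yx_ne hQ ht0 ht1)
      unfold lk
      simp only [Bool.false_eq_true, if_false]
      rw [hYj _ ht0 ht1]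
      set Y' := Yx m h.Q (1 / (t : ℝ)) with hY'
      set K0 := cm (c⁻¹ * c'⁻¹) with hK0
      calc g' = G' (1 / (t : ℝ)) * (G (1 / (t : ℝ)) * dg' G c t g * cm c⁻¹) * cm c'⁻¹ := by
            rw [← h4, ← h3]
        _ = G' (1 / (t : ℝ)) * G (1 / (t : ℝ)) * dg' G c t g * K0 := by
            rw [hK0, cm_mul]
            simp only [Matrix.mul_assoc]
        _ = G' (1 / (t : ℝ)) * G (1 / (t : ℝ)) * (Y' * Y'⁻¹) * dg' G c t g * K0 := by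
            rw [Matrix.mul_nonsing_inv _ hu, Matrix.mul_one]
        _ = G' (1 / (t : ℝ)) * G (1 / (t : ℝ)) * Y' * (K0 * cm (c⁻¹ * c'⁻¹)⁻¹) * (Y'⁻¹ * dg' G c t g) * K0 := by
            rw [hk1, Matrix.mul_one]
            simp only [Matrix.mul_assoc]
        _ = _ := by simp only [Matrix.mul_assoc]
  · obtain ⟨S, c', r1, r2, r3, r4, r5⟩ := LD.of_cls hn hα hα' h1
    have hcc' := cm_inv r3
    obtain ⟨M, D, hMD⟩ := pol_D ((r1.inv r2).mul (hg.r.inv hg.det).tr) ((cm c)ᵀ * cm c')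
    have hd0 : (cᵀ * c').det ≠ 0 := by
      rw [Matrix.det_mul, Matrix.det_transpose]
      exact mul_ne_zero hg.cdet r3
    obtain ⟨hk1, hk2⟩ := cm_inv hd0
    have hK0 : (cm c)ᵀ * cm c' = cm (cᵀ * c') := by rw [cm_mul, cm_transpose]
    rw [hK0] at hMD
    -- solving a bilinear equation
    have solve : ∀ (A B C X Z : Matrix (Fin m) (Fin m) ℂ), A.det ≠ 0 → B.det ≠ 0 → X.det ≠ 0 → (A * X * cm c⁻¹)ᵀ * B * Z = C →
        Z = B⁻¹ * (A⁻¹)ᵀ * (X⁻¹)ᵀ * ((cm c)ᵀ * C) := by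
      intro A B C X Z hA hB hX he
      have uA : IsUnit A.det := Ne.isUnit hA
      have uB : IsUnit B.det := Ne.isUnit hB
      have uX : IsUnit X.det := Ne.isUnit hX
      have e3 : (cm c)ᵀ * (cm c⁻¹)ᵀ = 1 := by rw [← Matrix.transpose_mul, hcc.2, Matrix.transpose_one]
      have e4 : (X⁻¹)ᵀ * Xᵀ = 1 := by rw [← Matrix.transpose_mul, Matrix.mul_nonsing_inv _ uX, Matrix.transpose_one]
      have e5 : (A⁻¹)ᵀ * Aᵀ = 1 := by rw [← Matrix.transpose_mul, Matrix.mul_nonsing_inv _ uA, Matrix.transpose_one]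
      rw [← he, Matrix.transpose_mul, Matrix.transpose_mul]
      calc Z = (B⁻¹ * B) * Z := by rw [Matrix.nonsing_inv_mul _ uB, Matrix.one_mul]
        _ = B⁻¹ * ((A⁻¹)ᵀ * Aᵀ) * (B * Z) := by rw [e5, Matrix.mul_one, Matrix.mul_assoc]
        _ = B⁻¹ * (A⁻¹)ᵀ * ((X⁻¹)ᵀ * Xᵀ) * (Aᵀ * (B * Z)) := by
            rw [e4, Matrix.mul_one]
            simp only [Matrix.mul_assoc]
        _ = B⁻¹ * (A⁻¹)ᵀ * (X⁻¹)ᵀ * (((cm c)ᵀ * (cm c⁻¹)ᵀ) * (Xᵀ * (Aᵀ * (B * Z)))) := by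
            rw [e3, Matrix.one_mul]
            simp only [Matrix.mul_assoc]
        _ = _ := by simp only [Matrix.mul_assoc]
    have hYj : ∀ x : ℝ, 0 < x → x < 1 → Yx m (QA α') x = (S x)⁻¹ * ((G x)⁻¹)ᵀ * ((Yx m h.Q x)⁻¹)ᵀ * cm (cᵀ * c') := by
      intro x hx hx1
      have h2 := r5 x hx hx1
      rw [hY x hx hx1] at h2
      have h3 := solve _ _ _ _ _ (hg.det x hx hx1) (r2 x hx hx1) (det_Yx_ne hQ hx hx1) h2
      rw [hK0] at h3
      exact h3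
    refine ⟨true, cm (cᵀ * c')⁻¹, cm (cᵀ * c'), M, D, hk2, hk1, fun x hx hx1 κ hκ => hMD x hx hx1 _ _ ?_ ?_,
      fun t ht g g' hl hb hd => ?_⟩
    · rw [Matrix.det_mul]
      exact mul_ne_zero (det_Yx_ne hQ hx hx1) hκ
    · unfold lk
      simp only [if_true]
      rw [hYj x hx hx1, Matrix.mul_inv_rev (Yx m h.Q x) κ, Matrix.transpose_mul]
      calc (S x)⁻¹ * ((G x)⁻¹)ᵀ * ((Yx m h.Q x)⁻¹)ᵀ * cm (cᵀ * c') * (cm (cᵀ * c')⁻¹ * (κ⁻¹)ᵀ * cm (cᵀ * c')) =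
            (S x)⁻¹ * ((G x)⁻¹)ᵀ * ((Yx m h.Q x)⁻¹)ᵀ * (cm (cᵀ * c') * cm (cᵀ * c')⁻¹) * (κ⁻¹)ᵀ * cm (cᵀ * c') := by
              simp only [Matrix.mul_assoc]
        _ = _ := by
          rw [hk1, Matrix.mul_one]
          simp only [Matrix.mul_assoc]
    · obtain ⟨h1t, h2t⟩ := tpos ht
      have h2 := hb.use ht r1 r5
      have h4 := dg_eq hg ht g
      have hdd : (dg' G c t g).det ≠ 0 := by
        unfold dg'
        rw [Matrix.det_mul, Matrix.det_mul]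
        exact mul_ne_zero (mul_ne_zero (det_inv_ne (hg.det _ h1t h2t)) hd) (cm_det_ne hg.cdet)
      rw [h4] at h2
      have h5 := solve _ _ _ _ g' (hg.det _ h1t h2t) (r2 _ h1t h2t) hdd h2
      rw [hK0] at h5
      have hu : IsUnit (Yx m h.Q (1 / (t : ℝ))).det := Ne.isUnit (det_Yx_ne hQ h1t h2t)
      unfold lk
      simp only [if_true]
      rw [hYj _ h1t h2t]
      set Y' := Yx m h.Q (1 / (t : ℝ)) with hY'
      have e1 : ((Y'⁻¹ * dg' G c t g)⁻¹)ᵀ = Y'ᵀ * ((dg' G c t g)⁻¹)ᵀ := by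
        rw [Matrix.mul_inv_rev, Matrix.nonsing_inv_nonsing_inv _ hu, Matrix.transpose_mul]
      have e2 : (Y'⁻¹)ᵀ * Y'ᵀ = 1 := by rw [← Matrix.transpose_mul, Matrix.mul_nonsing_inv _ hu, Matrix.transpose_one]
      rw [e1]
      calc g' = (S (1 / (t : ℝ)))⁻¹ * ((G (1 / (t : ℝ)))⁻¹)ᵀ * ((dg' G c t g)⁻¹)ᵀ * cm (cᵀ * c') := h5
        _ = (S (1 / (t : ℝ)))⁻¹ * ((G (1 / (t : ℝ)))⁻¹)ᵀ * ((Y'⁻¹)ᵀ * Y'ᵀ) * ((dg' G c t g)⁻¹)ᵀ * cm (cᵀ * c') := by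
            rw [e2, Matrix.mul_one]
        _ = (S (1 / (t : ℝ)))⁻¹ * ((G (1 / (t : ℝ)))⁻¹)ᵀ * (Y'⁻¹)ᵀ * (cm (cᵀ * c') * cm (cᵀ * c')⁻¹) *
              (Y'ᵀ * ((dg' G c t g)⁻¹)ᵀ) * cm (cᵀ * c') := by
            rw [hk1, Matrix.mul_one]
            simp only [Matrix.mul_assoc]
        _ = _ := by simp only [Matrix.mul_assoc]

end

end Q207.HM
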