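import Pool.Agent.Q207.HM.Ort
import Pool.Agent.Q207.HM.Bd

/-!
# Local monodromy at one
-/

set_option autoImplicit false

open Filter Topology Matrix

namespace Q207.HM

open Pool.Agent.Y119.HY (Am Bm um kx aq hq Hq Hq_zero cm cm_apply cm_mul cm_add cm_pow Hc uc ec
  uc_eq cm_vec mv_apply a0 a0_succ no_ext Ac_nil Ac_ec Ac_last Sol PG ps Hf Lens E Yf E_fix E_exp E_mul_neg Gal conj_E
  mem_Lens real_mem_Lens Gm ps_an ev pt Vr Rel QD Jm E_add Hf_an tv om tv_conj E_tv connect om_ec om_eq Jc_skew Jc_det Jc_rel sol_c cm_Bm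
  tv_pow tv_skew exists_sol sing om_smul)

variable {n : ℕ} {Q : Polynomial ℚ}

/-- analytic continuation around the point one, with the monodromy `R m` -/
def LM (Y : ℂ → Matrix (Fin n) (Fin n) ℂ) (R : ℤ → Matrix (Fin n) (Fin n) ℂ) : Prop :=
  ∃ Φ : ℂ → Matrix (Fin n) (Fin n) ℂ, (∀ i j, AnalyticOnNhd ℂ (fun τ => Φ τ i j) {τ | τ.re < 0}) ∧
    (∀ τ : ℂ, τ.re < 0 → ∀ m : ℤ, Φ (τ + 2 * Real.pi * Complex.I * m) = Φ τ * R m) ∧
    ∀ x : ℝ, 0 < x → x < 1 → Y x = Φ (Complex.log (1 - (x : ℂ)))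

/-- the monodromy preserves the relations -/
theorem LM.mem {Y : ℂ → Matrix (Fin n) (Fin n) ℂ} {R : ℤ → Matrix (Fin n) (Fin n) ℂ} (h : LM Y R) (m : ℤ) : R m ∈ Gal Y := by
  obtain ⟨Φ, hΦ, hΦR, hΦY⟩ := h
  intro Q hQ x hx hx1
  set U : Set ℂ := {τ : ℂ | τ.re < 0} with hU
  have hUo : IsOpen U := isOpen_lt Complex.continuous_re continuous_const
  have hUc : IsPreconnected U := (convex_halfSpace_re_lt 0).isPreconnected
  have hexp : ∀ τ ∈ U, ‖Complex.exp τ‖ < 1 := by
    intro τ hτ
    rw [Complex.norm_exp]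
    exact Real.exp_lt_one_iff.2 hτ
  set F : ℂ → ℂ := fun τ => ev Q (1 - Complex.exp τ) (Complex.log (1 - Complex.exp τ)) (Φ τ) with hF
  have hFa : AnalyticOnNhd ℂ F U := by
    refine ev_an Q ?_ ?_ hΦ
    · exact analyticOnNhd_const.sub (analyticOnNhd_cexp.mono (Set.subset_univ _))
    · intro τ hτ
      refine AnalyticAt.clog (analyticAt_const.sub analyticAt_cexp) ?_
      left
      have h1 : (Complex.exp τ).re ≤ ‖Complex.exp τ‖ := Complex.re_le_norm _
      have h2 := hexp τ hτ
      rw [Complex.sub_re, Complex.one_re]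
      linarith
  have hreal : ∀ r : ℝ, r < 0 → F (r : ℂ) = 0 := by
    intro r hr
    have h1 : 0 < 1 - Real.exp r := by
      have := Real.exp_lt_one_iff.2 hr
      linarith
    have h2 : 1 - Real.exp r < 1 := by
      have := Real.exp_pos r
      linarith
    have h3 := hQ (1 - Real.exp r) h1 h2
    rw [hΦY _ h1 h2] at h3
    have e1 : (((1 - Real.exp r : ℝ)) : ℂ) = 1 - Complex.exp r := by push_cast; rfl
    have e2 : (1 : ℂ) - (1 - Complex.exp (r : ℂ)) = Complex.exp r := by ring
    have e3 : Complex.log (Complex.exp (r : ℂ)) = r := by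
      rw [← Complex.ofReal_exp, ← Complex.ofReal_log (Real.exp_pos r).le, Real.log_exp]
    rw [e1, e2, e3] at h3
    exact h3
  have hzero : ∀ τ ∈ U, F τ = 0 := by
    have h1 := hFa.eqOn_zero_of_preconnected_of_frequently_eq_zero hUc (z₀ := ((-1 : ℝ) : ℂ)) (by
      rw [hU, Set.mem_ofPred_eq, Complex.ofReal_re]
      norm_num) ?_
    · exact fun τ hτ => h1 hτ
    · have h2 : Tendsto (fun k : ℕ => ((((-1 : ℝ) - 1 / ((k : ℝ) + 1) : ℝ)) : ℂ)) atTop (𝓝[≠] ((-1 : ℝ) : ℂ)) := by
        rw [tendsto_nhdsWithin_iff]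
        constructor
        · have h3 := (tendsto_one_div_add_atTop_nhds_zero_nat (𝕜 := ℝ)).const_sub (-1 : ℝ)
          rw [sub_zero] at h3
          exact (Complex.continuous_ofReal.tendsto _).comp h3
        · refine Eventually.of_forall fun k => ?_
          rw [Set.mem_compl_iff, Set.mem_singleton_iff, Complex.ofReal_inj]
          have : (0 : ℝ) < 1 / ((k : ℝ) + 1) := by positivity
          linarith
      refine h2.frequently (Frequently.of_forall fun k => ?_)
      refine hreal _ ?_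
      have : (0 : ℝ) < 1 / ((k : ℝ) + 1) := by positivity
      linarith
  set τ₀ : ℂ := Complex.log (1 - (x : ℂ)) with hτ₀
  have hx1' : (1 : ℂ) - (x : ℂ) ≠ 0 := by
    have : ((1 - x : ℝ) : ℂ) ≠ 0 := by
      rw [Ne, Complex.ofReal_eq_zero]
      linarith
    push_cast at this
    exact this
  have hτ1 : Complex.exp τ₀ = 1 - (x : ℂ) := Complex.exp_log hx1'
  have hτ₀U : τ₀ ∈ U := by
    rw [hU, Set.mem_ofPred_eq, hτ₀]
    have e2 : (1 - (x : ℂ)) = (((1 - x : ℝ)) : ℂ) := by push_cast; rfl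
    rw [e2, ← Complex.ofReal_log (by linarith), Complex.ofReal_re]
    exact Real.log_neg (by linarith) (by linarith)
  have hτU : τ₀ + 2 * Real.pi * Complex.I * m ∈ U := by
    rw [hU, Set.mem_ofPred_eq]
    have e1 : (2 * (Real.pi : ℂ) * Complex.I * (m : ℂ)).re = 0 := by
      simp [Complex.mul_re]
    rw [Complex.add_re, e1, add_zero]
    exact hτ₀U
  have h1 := hzero _ hτU
  rw [hF] at h1
  simp only at h1
  have e1 : Complex.exp (τ₀ + 2 * Real.pi * Complex.I * m) = 1 - (x : ℂ) := by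
    rw [Complex.exp_add, hτ1]
    have : Complex.exp (2 * Real.pi * Complex.I * m) = 1 := by
      rw [mul_comm (2 * (Real.pi : ℂ) * Complex.I) (m : ℂ)]
      exact Complex.exp_int_mul_two_pi_mul_I m
    rw [this, mul_one]
  rw [e1, hΦR _ hτ₀U, sub_sub_cancel] at h1
  rw [hΦY x hx hx1]
  exact h1

/-- the semisimple case -/
theorem semi_LM {P : Matrix (Fin n) (Fin n) ℂ} {σ : ℂ} {K : ℕ → Matrix (Fin n) (Fin n) ℂ} (hP : P * P = P)
    (hg : ∀ i j, PG fun k => K k i j) {Y : ℂ → Matrix (Fin n) (Fin n) ℂ} {M Mi : Matrix (Fin n) (Fin n) ℂ} (hMi : M * Mi = 1)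
    (hY : ∀ x : ℝ, 0 < x → x < 1 → Y x = Zf P σ K x * M) : LM Y fun m => Mi * EP P σ (2 * Real.pi * Complex.I * m) * M := by
  have hexp : ∀ τ : ℂ, τ.re < 0 → ‖Complex.exp τ‖ < 1 := by
    intro τ hτ
    rw [Complex.norm_exp]
    exact Real.exp_lt_one_iff.2 hτ
  refine ⟨fun τ => Hf K (Complex.exp τ) * EP P σ τ * M, fun i j => ?_, fun τ hτ m => ?_, fun x hx hx1 => ?_⟩
  · simp only [Matrix.mul_apply]
    refine Finset.analyticOnNhd_fun_sum _ fun l _ => AnalyticOnNhd.mul ?_ analyticOnNhd_const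
    refine Finset.analyticOnNhd_fun_sum _ fun k _ => AnalyticOnNhd.mul ?_ ?_
    · intro τ hτ
      have h1 := HfR_an hg i k (Complex.exp τ) (by
        rw [Metric.mem_ball, dist_zero_right]
        exact hexp τ hτ)
      exact h1.comp analyticAt_cexp
    · intro τ _
      unfold EP
      simp only [Matrix.add_apply, Matrix.smul_apply, smul_eq_mul]
      refine analyticAt_const.add (AnalyticAt.mul (AnalyticAt.sub ?_ analyticAt_const) analyticAt_const)
      exact (analyticAt_const.mul analyticAt_id).cexp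
  · have e1 : Complex.exp (τ + 2 * Real.pi * Complex.I * m) = Complex.exp τ := by
      rw [Complex.exp_add]
      have : Complex.exp (2 * Real.pi * Complex.I * m) = 1 := by
        rw [mul_comm (2 * (Real.pi : ℂ) * Complex.I) (m : ℂ)]
        exact Complex.exp_int_mul_two_pi_mul_I m
      rw [this, mul_one]
    simp only [e1]
    rw [EP_add hP]
    calc _ = Hf K (Complex.exp τ) * EP P σ τ * 1 * EP P σ (2 * Real.pi * Complex.I * m) * M := by
          rw [Matrix.mul_one]
          simp only [Matrix.mul_assoc]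
      _ = _ := by
          rw [← hMi]
          simp only [Matrix.mul_assoc]
  · have hx1' : (1 : ℂ) - (x : ℂ) ≠ 0 := by
      have : ((1 - x : ℝ) : ℂ) ≠ 0 := by
        rw [Ne, Complex.ofReal_eq_zero]
        linarith
      push_cast at this
      exact this
    rw [hY x hx hx1]
    unfold Zf
    simp only [Complex.exp_log hx1']

/-- the unipotent case -/
theorem uni_LM {K : ℕ → Matrix (Fin n) (Fin n) ℂ} {N2 N3 : Matrix (Fin n) (Fin n) ℂ} (h2 : N2 ^ n = 0)
    (hK : Sol N2 N3 K) {Y : ℂ → Matrix (Fin n) (Fin n) ℂ} {M Mi : Matrix (Fin n) (Fin n) ℂ} (hMi : M * Mi = 1)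
    (hY : ∀ x : ℝ, 0 < x → x < 1 → Y x = Yf N2 K (1 - (x : ℂ)) * M) :
    LM Y fun m => Mi * E N2 (2 * Real.pi * Complex.I * m) * M := by
  have hexp : ∀ τ : ℂ, τ.re < 0 → ‖Complex.exp τ‖ < 1 := by
    intro τ hτ
    rw [Complex.norm_exp]
    exact Real.exp_lt_one_iff.2 hτ
  refine ⟨fun τ => Hf K (Complex.exp τ) * E N2 τ * M, fun i j => ?_, fun τ hτ m => ?_, fun x hx hx1 => ?_⟩
  · simp only [Matrix.mul_apply]
    refine Finset.analyticOnNhd_fun_sum _ fun l _ => AnalyticOnNhd.mul ?_ analyticOnNhd_const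
    refine Finset.analyticOnNhd_fun_sum _ fun k _ => AnalyticOnNhd.mul ?_ ?_
    · intro τ hτ
      have h1 := Hf_an hK h2 i k (Complex.exp τ) (by
        rw [Metric.mem_ball, dist_zero_right]
        exact hexp τ hτ)
      exact h1.comp analyticAt_cexp
    · intro τ _
      unfold E
      simp only [Matrix.sum_apply, Matrix.smul_apply, smul_eq_mul]
      refine Finset.analyticAt_fun_sum _ fun l _ => AnalyticAt.mul ?_ analyticAt_const
      exact (analyticAt_id.pow l).div analyticAt_const (by exact_mod_cast l.factorial_ne_zero)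
  · have e1 : Complex.exp (τ + 2 * Real.pi * Complex.I * m) = Complex.exp τ := by
      rw [Complex.exp_add]
      have : Complex.exp (2 * Real.pi * Complex.I * m) = 1 := by
        rw [mul_comm (2 * (Real.pi : ℂ) * Complex.I) (m : ℂ)]
        exact Complex.exp_int_mul_two_pi_mul_I m
      rw [this, mul_one]
    simp only [e1]
    rw [E_add h2]
    calc _ = Hf K (Complex.exp τ) * E N2 τ * 1 * E N2 (2 * Real.pi * Complex.I * m) * M := by
          rw [Matrix.mul_one]
          simp only [Matrix.mul_assoc]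
      _ = _ := by
          rw [← hMi]
          simp only [Matrix.mul_assoc]
  · have hx1' : (1 : ℂ) - (x : ℂ) ≠ 0 := by
      have : ((1 - x : ℝ) : ℂ) ≠ 0 := by
        rw [Ne, Complex.ofReal_eq_zero]
        linarith
      push_cast at this
      exact this
    rw [hY x hx hx1]
    unfold Yf
    simp only [Complex.exp_log hx1']

/-- block diagonal systems -/
theorem LM_BD {r : ℕ} {n : Fin r → ℕ} {Y : ∀ i, ℂ → Matrix (Fin (n i)) (Fin (n i)) ℂ} {R : ∀ i, ℤ → Matrix (Fin (n i)) (Fin (n i)) ℂ}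
    (h : ∀ i, LM (Y i) (R i)) : LM (fun z => BD fun i => Y i z) fun m => BD fun i => R i m := by
  choose Φ hΦ hΦR hΦY using h
  refine ⟨fun τ => BD fun i => Φ i τ, fun a b => ?_, fun τ hτ m => ?_, fun x hx hx1 => ?_⟩
  · obtain ⟨⟨i, a⟩, rfl⟩ := finSigmaFinEquiv.surjective a
    obtain ⟨⟨j, b⟩, rfl⟩ := finSigmaFinEquiv.surjective b
    by_cases hij : i = j
    · subst hij
      simp only [BD_eq]
      exact hΦ i a b
    · have : (fun τ => (BD fun i => Φ i τ) (finSigmaFinEquiv ⟨i, a⟩) (finSigmaFinEquiv ⟨j, b⟩)) = fun _ => (0 : ℂ) := by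
        funext τ
        rw [BD_ne _ hij]
      rw [this]
      exact analyticOnNhd_const
  · simp only
    rw [← BD_mul]
    congr 1
    funext i
    exact hΦR i τ hτ m
  · simp only
    congr 1
    funext i
    exact hΦY i x hx hx1

/-- **The pseudoreflection.** -/
theorem refl_lm (hQ : QG n Q) (hs : ∀ m : ℤ, ((Q.coeff (n - 1) : ℚ) : ℂ) ≠ m) : ∃ u φ : Fin n → ℂ, φ ⬝ᵥ u = 1 ∧
    LM (Yf (cm (Am n)) (Hc n Q)) (fun m =>
      1 + (Complex.exp (-((Q.coeff (n - 1) : ℚ) : ℂ) * (2 * Real.pi * Complex.I * m)) - 1) • vecMulVec u φ) ∧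
    (cm (Am n) ^ (n - 1)) *ᵥ u ≠ 0 ∧ φ ᵥ* (cm (Am n) ^ (n - 1)) ≠ 0 := by
  have hn := hQ.two
  set s : ℂ := ((Q.coeff (n - 1) : ℚ) : ℂ) with hsd
  have hs0 : s ≠ 0 := by
    have := hs 0
    rwa [Int.cast_zero] at this
  set A := cm (Am n) with hA
  set B := cm (Bm n Q) with hB
  have hqu : qc n Q ⬝ᵥ uc n = s := by
    rw [dotProduct, Finset.sum_eq_single (li hn)]
    · unfold uc qc li
      rw [if_pos (by simp only; omega), mul_one]
    · intro b _ hb
      unfold uc
      rw [if_neg, mul_zero]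
      intro h
      apply hb
      apply Fin.ext
      unfold li
      simp only
      omega
    · intro h
      exact absurd (Finset.mem_univ _) h
  set q' : Fin n → ℂ := s⁻¹ • qc n Q with hq'
  have hq'u : q' ⬝ᵥ uc n = 1 := by rw [hq', smul_dotProduct, hqu, smul_eq_mul, inv_mul_cancel₀ hs0]
  set P : Matrix (Fin n) (Fin n) ℂ := vecMulVec (uc n) q' with hP
  have hPP : P * P = P := by rw [hP, vecMulVec_mul_vecMulVec, hq'u, one_smul]
  set σ : ℂ := -s with hσd
  have hσ : ∀ m : ℤ, σ ≠ m := by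
    intro m h
    apply hs (-m)
    push_cast
    rw [← h, hσd, neg_neg]
  have hBP : -B = σ • P := by
    rw [hB, cm_BmG, hP, hq', vecMulVec_smul, smul_smul, hσd]
    rw [neg_mul, mul_inv_cancel₀ hs0, neg_one_smul]
  have hH := sol_cG hQ
  rw [← hA, ← hB] at hH
  have hAn : A ^ n = 0 := Ac_nil
  obtain ⟨WT, hWT⟩ := exists_solR (nrT (nr_nil hAn)) (-Bᵀ)
  set W : ℕ → Matrix (Fin n) (Fin n) ℂ := fun k => (WT k)ᵀ with hWd
  have hW : SolL A B W := hWT
  obtain ⟨K, hK⟩ := exists_solR (nr_semi hPP hσ) (-A)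
  obtain ⟨VT, hVT⟩ := exists_solR (nrT (nr_semi hPP hσ)) (-(-A)ᵀ)
  set V : ℕ → Matrix (Fin n) (Fin n) ℂ := fun k => (VT k)ᵀ with hVd
  have hV : SolL (σ • P) (-A) V := hVT
  obtain ⟨M, Mi, hMi, hMi', hcon⟩ := connectR hAn hH hW hPP hσ hBP hK hV
  have hPu : ∀ v, P *ᵥ v = (q' ⬝ᵥ v) • uc n := by
    intro v
    rw [hP, vecMulVec_mulVec]
    exact op_smul_eq_smul _ _
  have huP : ∀ v, v ᵥ* P = (v ⬝ᵥ uc n) • q' := by
    intro v
    rw [hP, vecMul_vecMulVec]
  refine ⟨Mi *ᵥ uc n, q' ᵥ* M, ?_, ?_, ?_, ?_⟩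
  · rw [← dotProduct_mulVec, mulVec_mulVec, hMi, one_mulVec, hq'u]
  · have h1 := semi_LM hPP (growthR hK (nr_semi hPP hσ)) hMi (Y := Yf A (Hc n Q)) (fun x hx hx1 => hcon _ (real_mem_Lens hx hx1))
    have h2 : (fun m : ℤ => Mi * EP P σ (2 * Real.pi * Complex.I * m) * M) = fun m : ℤ =>
        1 + (Complex.exp (σ * (2 * Real.pi * Complex.I * m)) - 1) • vecMulVec (Mi *ᵥ uc n) (q' ᵥ* M) := by
      funext m
      unfold EP
      rw [Matrix.mul_add, Matrix.add_mul, Matrix.mul_one, hMi', Matrix.mul_smul, Matrix.smul_mul, hP, mul_vecMulVec, vecMulVec_mul]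
    rw [h2] at h1
    exact h1
  · -- the last entry
    rw [hA, Ac_last hn]
    intro h0
    have h1 : (Mi *ᵥ uc n) ⟨n - 1, by omega⟩ = 0 := by
      have h2 := congrFun h0 ⟨0, by omega⟩
      simpa [ec] using h2
    set w : Fin n → ℂ := uc n ᵥ* Mi with hw
    have huc : ∀ v : Fin n → ℂ, uc n ⬝ᵥ v = v (li hn) := by
      intro v
      rw [dotProduct, Finset.sum_eq_single (li hn)]
      · unfold uc li
        rw [if_pos (by simp only; omega), one_mul]
      · intro b _ hb
        unfold uc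
        rw [if_neg, zero_mul]
        intro h
        apply hb
        apply Fin.ext
        unfold li
        simp only
        omega
      · intro h
        exact absurd (Finset.mem_univ _) h
    have hwu : w ⬝ᵥ uc n = 0 := by
      rw [hw, ← dotProduct_mulVec, huc]
      exact h1
    set G : ℂ → ℂ := fun z => ∑ l, w l * Hf V (1 - z) l (li hn) with hG
    have hgV : ∀ i j, PG fun k => V k i j := fun i j => growthL hV (nr_semi hPP hσ) i j
    have hGa : AnalyticOnNhd ℂ G (Metric.ball 1 1) := by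
      refine Finset.analyticOnNhd_fun_sum _ fun l _ => AnalyticOnNhd.mul analyticOnNhd_const ?_
      intro z hz
      have h3 := ps_an (hgV l (li hn)) (1 - z) (by
        rw [Metric.mem_ball, dist_zero_right]
        rw [Metric.mem_ball, dist_comm, dist_eq_norm] at hz
        exact hz)
      exact h3.comp (analyticAt_const.sub analyticAt_id)
    have hG1 : G 1 = 0 := by
      rw [hG]
      simp only [sub_self]
      have h3 : Hf V 0 = 1 := by
        ext i j
        show ps (fun k => V k i j) 0 = _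
        rw [Pool.Agent.Y119.HY.ps_zero, solL_zero hV]
      rw [h3]
      have h4 : ∑ l, w l * (1 : Matrix (Fin n) (Fin n) ℂ) l (li hn) = w (li hn) := by
        rw [Finset.sum_eq_single (li hn)]
        · rw [Matrix.one_apply_eq, mul_one]
        · intro b _ hb
          rw [Matrix.one_apply_ne hb, mul_zero]
        · intro h
          exact absurd (Finset.mem_univ _) h
      rw [h4, ← huc w, dotProduct_comm]
      exact hwu
    have hrow : ∀ z ∈ Lens, Hf W z (li hn) (li hn) = G z := by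
      intro z hz
      have hz' := mem_Lens.1 hz
      have hYi : (E A (-Complex.log z) * Hf W z) * Yf A (Hc n Q) z = 1 := by
        have h3 := Hf_inv hH hW (nr_nil hAn) hz'.1
        have h4 : E A (-Complex.log z) * E A (Complex.log z) = 1 := by
          have := E_mul_neg hAn (-Complex.log z)
          rwa [neg_neg] at this
        unfold Yf
        calc _ = E A (-Complex.log z) * (Hf W z * Hf (Hc n Q) z) * E A (Complex.log z) := by simp only [Matrix.mul_assoc]
          _ = 1 := by rw [h3, Matrix.mul_one, h4]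
      have hZi := Zi_Zf hPP hσ hK hV hz'.2
      have h5 : E A (-Complex.log z) * Hf W z = Mi * Zi P σ V z := by
        have h6 : (Mi * Zi P σ V z) * Yf A (Hc n Q) z = 1 := by
          rw [hcon z hz]
          calc _ = Mi * (Zi P σ V z * Zf P σ K z) * M := by simp only [Matrix.mul_assoc]
            _ = 1 := by rw [hZi, Matrix.mul_one, hMi']
        have h7 := mul_eq_one_comm.1 hYi
        calc E A (-Complex.log z) * Hf W z = 1 * (E A (-Complex.log z) * Hf W z) := by rw [Matrix.one_mul]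
          _ = (Mi * Zi P σ V z) * (Yf A (Hc n Q) z * (E A (-Complex.log z) * Hf W z)) := by
              rw [← h6]
              simp only [Matrix.mul_assoc]
          _ = _ := by rw [h7, Matrix.mul_one]
      have h8 : uc n ᵥ* (E A (-Complex.log z) * Hf W z) = uc n ᵥ* Hf W z := by
        rw [← vecMul_vecMul, E_fixL (uc_Am n)]
      have h9 : uc n ᵥ* (Mi * Zi P σ V z) = w ᵥ* Hf V (1 - z) := by
        unfold Zi EP
        rw [← vecMul_vecMul, ← hw, ← vecMul_vecMul, vecMul_add, vecMul_one, vecMul_smul, huP, hwu, zero_smul, smul_zero, add_zero]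
      have h10 := congrFun (h8.symm.trans ((congrArg (fun X => uc n ᵥ* X) h5).trans h9)) (li hn)
      have h11 : (uc n ᵥ* Hf W z) (li hn) = Hf W z (li hn) (li hn) := huc fun i => Hf W z i (li hn)
      rw [← h11, h10]
      rfl
    -- the partial sums
    have hsum : ∀ z, ‖z‖ < 1 → ps (fun k => (((bq n Q k : ℚ) : ℝ) : ℂ)) z * (1 - z) = Hf W z (li hn) (li hn) := by
      intro z hz
      have h3 := ps_mul (c := fun _ => 1) (d := fun k => W k (li hn) (li hn)) ⟨1, 0, fun k => by simp⟩
        (growthL hW (nr_nil hAn) _ _) hz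
      have h4 : (fun k => (((bq n Q k : ℚ) : ℝ) : ℂ)) =
          fun k => ∑ p ∈ Finset.HasAntidiagonal.antidiagonal k, (1 : ℂ) * W p.2 (li hn) (li hn) := by
        funext k
        have h2 := sum_last hW hQ k
        rw [← Finset.Nat.sum_antidiagonal_swap, Finset.Nat.sum_antidiagonal_eq_sum_range_succ_mk]
        simp only [one_mul, Prod.snd_swap]
        rw [h2]
        push_cast
        rfl
      rw [h4, ← h3]
      have h5 := ps_one hz
      calc _ = (ps (fun _ => 1) z * (1 - z)) * ps (fun k => W k (li hn) (li hn)) z := by ring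
        _ = _ := by
          rw [h5, one_mul]
          rfl
    have hd : DifferentiableOn ℂ (dslope G 1) (Metric.ball 1 1) := by
      rw [Complex.differentiableOn_dslope (Metric.ball_mem_nhds 1 one_pos)]
      exact hGa.differentiableOn
    have hda : AnalyticOnNhd ℂ (fun z => -dslope G 1 z) (Metric.ball 1 1) := (hd.analyticOnNhd Metric.isOpen_ball).neg
    refine no_extR (bq_ne hQ) (fun k => rfl) (ratio_b hQ) (PG_b hW hQ) hda fun z hz => ?_
    have hz' := mem_Lens.1 hz
    have h1z : z ≠ 1 := by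
      rintro rfl
      rw [norm_one] at hz'
      exact lt_irrefl _ hz'.1
    have h1z' : 1 - z ≠ 0 := fun h => h1z (by linear_combination -h)
    have h3 := hsum z hz'.1
    rw [hrow z hz] at h3
    rw [dslope_of_ne _ h1z, slope_def_field, hG1, sub_zero]
    rw [eq_comm, ← neg_div, div_eq_iff (sub_ne_zero.2 h1z), ← h3]
    ring
  · -- the first entry
    rw [hA, vl_Ac hn]
    intro h0
    have h1 : (q' ᵥ* M) ⟨0, by omega⟩ = 0 := by
      have h2 := congrFun h0 (li hn)
      have h3 : uc n (li hn) = 1 := by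
        unfold uc li
        rw [if_pos (by dsimp only; omega)]
      rw [Pi.smul_apply, h3, smul_eq_mul, mul_one] at h2
      exact h2
    have hPe : q' ⬝ᵥ (M *ᵥ ec n) = 0 := by
      rw [dotProduct_mulVec, dotProduct, Finset.sum_eq_single ⟨0, by omega⟩]
      · rw [h1, zero_mul]
      · intro b _ hb
        unfold ec
        rw [if_neg, mul_zero]
        intro h
        exact hb (Fin.ext h)
      · intro h
        exact absurd (Finset.mem_univ _) h
    have hgK : ∀ i j, PG fun k => K k i j := growthR hK (nr_semi hPP hσ)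
    refine singG hQ (fun z => (Hf K (1 - z) *ᵥ (M *ᵥ ec n)) ⟨0, by omega⟩) ?_ fun z hz => ?_
    · have : (fun z => (Hf K (1 - z) *ᵥ (M *ᵥ ec n)) ⟨0, by omega⟩) =
          fun z => ∑ l, Hf K (1 - z) ⟨0, by omega⟩ l * (M *ᵥ ec n) l := rfl
      rw [this]
      refine Finset.analyticOnNhd_fun_sum _ fun l _ => AnalyticOnNhd.mul ?_ analyticOnNhd_const
      intro z hz
      have h3 := ps_an (hgK ⟨0, by omega⟩ l) (1 - z) (by
        rw [Metric.mem_ball, dist_zero_right]
        rw [Metric.mem_ball, dist_comm, dist_eq_norm] at hz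
        exact hz)
      exact h3.comp (analyticAt_const.sub analyticAt_id)
    · have h3 := congrArg (fun X => X *ᵥ ec n) (hcon z hz)
      unfold Yf Zf EP at h3
      rw [← mulVec_mulVec, E_fix (Ac_ec n), ← mulVec_mulVec, ← mulVec_mulVec, add_mulVec, one_mulVec, smul_mulVec, hPu, hPe,
        zero_smul, smul_zero, add_zero] at h3
      rw [h3]


/-- **The transvection.** -/
theorem symp_lm (hQ : QD n Q) : ∃ v : Fin n → ℂ,
    LM (Yf (cm (Am n)) (Hc n Q)) (fun m => 1 + (2 * Real.pi * Complex.I * m) • vecMulVec v (v ᵥ* cm (Jm n Q))) ∧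
    (cm (Am n) ^ (n - 1)) *ᵥ v ≠ 0 := by
  have hn := hQ.two
  set J := cm (Jm n Q) with hJd
  set A := cm (Am n) with hAd
  set H := Hc n Q with hHd
  set u := uc n with hud
  have hH := sol_c hQ
  rw [cm_Bm hQ] at hH
  have hA : A ^ n = 0 := Ac_nil
  have hAJ : A.transpose * J + J * A = 0 := Jc_rel
  have hJ : J.transpose = -J := Jc_skew hQ
  have hdet : J.det ≠ 0 := Jc_det hQ
  set B : Matrix (Fin n) (Fin n) ℂ := -vecMulVec u (u ᵥ* J) with hBdef
  have hnB : -B = vecMulVec u (u ᵥ* J) := by rw [hBdef, neg_neg]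
  have hB : (-B) ^ n = 0 := by rw [hnB]; exact tv_pow hJ u hn
  have hBJ : B.transpose * J + J * B = 0 := by
    rw [hBdef, transpose_neg, neg_mul, mul_neg, ← neg_add, tv_skew hJ, neg_zero]
  obtain ⟨K, hK⟩ := exists_sol hB (-A)
  obtain ⟨M, Mi, hMMi, hMiM, hMJ, hconn⟩ := connect hdet hA hAJ hB hBJ hH hK
  have hMiJ : Mi.transpose * J * Mi = J := by
    calc Mi.transpose * J * Mi = Mi.transpose * (M.transpose * J * M) * Mi := by rw [hMJ]
      _ = (M * Mi).transpose * J * (M * Mi) := by rw [transpose_mul]; simp only [Matrix.mul_assoc]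
      _ = J := by rw [hMMi, transpose_one, one_mul, mul_one]
  set v : Fin n → ℂ := Mi *ᵥ u with hv
  refine ⟨v, ?_, ?_⟩
  · have h1 := uni_LM hB hK (Y := Yf A H) hMMi (fun x hx hx1 => hconn x (real_mem_Lens hx hx1))
    have h2 : (fun m : ℤ => Mi * E (-B) (2 * Real.pi * Complex.I * m) * M) =
        fun m : ℤ => 1 + (2 * Real.pi * Complex.I * m) • vecMulVec v (v ᵥ* J) := by
      funext m
      rw [hnB, E_tv hn hJ, tv_conj Mi M hMiM hMiJ]
      rfl
    rw [h2] at h1
    exact h1
  · rw [hAd, Ac_last hn]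
    intro h00
    have hvl : v ⟨n - 1, by omega⟩ = 0 := by
      have h2 := congrFun h00 ⟨0, by omega⟩
      simpa [ec] using h2
    have h0 : om J v (ec n) = 0 := by
      rw [hJd, om_ec hQ, hvl, zero_mul]
    -- `ω(u, M e) = 0`
    have h1 : om J u (M *ᵥ ec n) = 0 := by
      have h2 : om J (Mi *ᵥ u) (Mi *ᵥ (M *ᵥ ec n)) = om J u (M *ᵥ ec n) := by
        unfold om
        rw [mulVec_mulVec, ← vecMul_transpose, ← dotProduct_mulVec, mulVec_mulVec, ← Matrix.mul_assoc, hMiJ]
      rw [← h2, mulVec_mulVec (ec n) Mi M, hMiM, one_mulVec]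
      exact h0
    have h2 : (-B) *ᵥ (M *ᵥ ec n) = 0 := by
      rw [hnB, vecMulVec_mulVec, ← om_eq, h1]
      simp
    refine sing hQ (fun z => (Hf K (1 - z) *ᵥ (M *ᵥ ec n)) ⟨0, by omega⟩) ?_ fun z hz => ?_
    · simp only [Matrix.mulVec, dotProduct]
      refine Finset.analyticOnNhd_fun_sum _ fun j _ => AnalyticOnNhd.mul ?_ analyticOnNhd_const
      intro z hz
      have h3 : AnalyticAt ℂ (fun w => Hf K w ⟨0, by omega⟩ j) (1 - z) := Hf_an hK hB _ j (1 - z) (by
        rw [Metric.mem_ball, dist_comm, dist_eq_norm] at hz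
        rwa [Metric.mem_ball, dist_zero_right])
      have h4 : AnalyticAt ℂ (fun w : ℂ => 1 - w) z := analyticAt_const.sub analyticAt_id
      exact h3.fun_comp h4
    · have h3 := congrArg (fun X : Matrix (Fin n) (Fin n) ℂ => X *ᵥ ec n) (hconn z hz)
      unfold Yf at h3
      rw [← mulVec_mulVec, E_fix (Ac_ec n), ← mulVec_mulVec, ← mulVec_mulVec, E_fix h2] at h3
      rw [h3]

end Q207.HM
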