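import Pool.Agent.Q207.HM.Lke

/-!
# Bilinear functional relations and the transfer to the exact blocks
-/

set_option autoImplicit false

open Matrix

namespace Q207.HM

open Pool.Agent.Y119.HY (Am Jm Jm_rel Bm cm cm_apply cm_mul cm_add cm_zero cm_one cm_transpose Hc Ac_nil Hf Yf E E_isom E_mul_neg QD
  Jc_rel sol_c real_mem_Lens Jc_det)
open Pool.Agent.Y119.HZ (evq)

variable {m n : ℕ}

/-- the linear relations over the field of rational functions hold -/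
def Lin (Q : Polynomial ℚ) (Q' : Polynomial ℚ) (t : ℕ) (g : Matrix (Fin m) (Fin m) ℂ) (g' : Matrix (Fin n) (Fin n) ℂ) : Prop :=
  ∀ (N : Matrix (Fin n) (Fin m) (Polynomial ℚ)) (d : Polynomial ℚ) (c : Matrix (Fin n) (Fin m) ℚ),
    (∀ x : ℝ, 0 < x → x < 1 → evq (x : ℂ) d • (Yx n Q' x * c.map (algebraMap ℚ ℂ)) = N.map (evq (x : ℂ)) * Yx m Q x) →
    evq (((1 / (t : ℝ) : ℝ)) : ℂ) d • (g' * c.map (algebraMap ℚ ℂ)) = N.map (evq (((1 / (t : ℝ) : ℝ)) : ℂ)) * g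

/-- the bilinear relations over the field of rational functions hold -/
def Bil (Q : Polynomial ℚ) (Q' : Polynomial ℚ) (t : ℕ) (g : Matrix (Fin m) (Fin m) ℂ) (g' : Matrix (Fin n) (Fin n) ℂ) : Prop :=
  ∀ (N : Matrix (Fin m) (Fin n) (Polynomial ℚ)) (d : Polynomial ℚ) (c : Matrix (Fin m) (Fin n) ℚ),
    (∀ x : ℝ, 0 < x → x < 1 → (Yx m Q x)ᵀ * N.map (evq (x : ℂ)) * Yx n Q' x = evq (x : ℂ) d • c.map (algebraMap ℚ ℂ)) →
    gᵀ * N.map (evq (((1 / (t : ℝ) : ℝ)) : ℂ)) * g' = evq (((1 / (t : ℝ) : ℝ)) : ℂ) d • c.map (algebraMap ℚ ℂ)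

section use

variable {Q Q' : Polynomial ℚ} {t : ℕ} {g g' : Matrix (Fin n) (Fin n) ℂ} {G : ℝ → Matrix (Fin n) (Fin n) ℂ} {c : Matrix (Fin n) (Fin n) ℚ}

lemma tpos (ht : 2 ≤ t) : (0 : ℝ) < 1 / (t : ℝ) ∧ 1 / (t : ℝ) < 1 := by
  have ht1 : (1 : ℝ) < t := by exact_mod_cast (by omega : 1 < t)
  exact ⟨by positivity, by rw [div_lt_one (by linarith)]; exact ht1⟩

lemma Lin.use (h : Lin Q Q' t g g') (ht : 2 ≤ t) (hG : IsR G) (he : ∀ x : ℝ, 0 < x → x < 1 → Yx n Q' x * cm c = G x * Yx n Q x) :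
    g' * cm c = G (1 / (t : ℝ)) * g := by
  obtain ⟨N, d, hN⟩ := hG
  obtain ⟨h1, h2⟩ := hN _ (tpos ht).1 (tpos ht).2
  have h3 := h N d c fun x hx hx1 => by
    have h4 : c.map (algebraMap ℚ ℂ) = cm c := rfl
    rw [h4, he x hx hx1, ← (hN x hx hx1).2, Matrix.smul_mul]
  rw [← h2, Matrix.smul_mul] at h3
  exact smul_right_injective _ h1 h3

lemma Bil.use (h : Bil Q Q' t g g') (ht : 2 ≤ t) (hG : IsR G) (he : ∀ x : ℝ, 0 < x → x < 1 → (Yx n Q x)ᵀ * G x * Yx n Q' x = cm c) :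
    gᵀ * G (1 / (t : ℝ)) * g' = cm c := by
  obtain ⟨N, d, hN⟩ := hG
  obtain ⟨h1, h2⟩ := hN _ (tpos ht).1 (tpos ht).2
  have h3 := h N d c fun x hx hx1 => by
    have h4 : c.map (algebraMap ℚ ℂ) = cm c := rfl
    rw [h4, ← he x hx hx1, ← (hN x hx hx1).2, Matrix.mul_smul, Matrix.smul_mul]
  rw [← h2, Matrix.mul_smul, Matrix.smul_mul] at h3
  exact smul_right_injective _ h1 h3

end use

/-- a rational equivalence with the exact block -/
structure Gau (α : Fin n → ℚ) (h : HB n) (G : ℝ → Matrix (Fin n) (Fin n) ℂ) (c : Matrix (Fin n) (Fin n) ℚ) : Prop where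
  r : IsR G
  det : ∀ x : ℝ, 0 < x → x < 1 → (G x).det ≠ 0
  cdet : c.det ≠ 0
  comm : c * Am n = Am n * c
  eq : ∀ x : ℝ, 0 < x → x < 1 → Yx n (QA α) x * cm c = G x * Yx n h.Q x

/-- the transformed matrix -/
noncomputable def dg' (G : ℝ → Matrix (Fin n) (Fin n) ℂ) (c : Matrix (Fin n) (Fin n) ℚ) (t : ℕ) (g : Matrix (Fin n) (Fin n) ℂ) :
    Matrix (Fin n) (Fin n) ℂ := (G (1 / (t : ℝ)))⁻¹ * g * cm c

section

variable {α α' : Fin n → ℚ} {h : HB n} {G : ℝ → Matrix (Fin n) (Fin n) ℂ} {c : Matrix (Fin n) (Fin n) ℚ} {t : ℕ}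
  {g : Matrix (Fin n) (Fin n) ℂ}

lemma cm_det (c : Matrix (Fin n) (Fin n) ℚ) : (cm c).det = ((c.det : ℚ) : ℂ) := ((algebraMap ℚ ℂ).map_det _).symm

lemma cm_det_ne {c : Matrix (Fin n) (Fin n) ℚ} (hc : c.det ≠ 0) : (cm c).det ≠ 0 := by
  rw [cm_det]
  exact_mod_cast hc

lemma log_eq {t : ℕ} (ht : 2 ≤ t) : Complex.log (1 - 1 / (t : ℂ)) = ((Real.log (1 - 1 / (t : ℝ)) : ℝ) : ℂ) := by
  obtain ⟨h1, h2⟩ := tpos ht
  have e1 : (1 - 1 / (t : ℂ)) = (((1 - 1 / (t : ℝ) : ℝ)) : ℂ) := by push_cast; rfl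
  rw [e1, ← Complex.ofReal_log (by linarith)]

lemma det_Yt {Q : Polynomial ℚ} (hQ : QG n Q) (ht : 2 ≤ t) :
    (Yx n Q (1 / (t : ℝ))).det = Complex.exp (-((Q.coeff (n - 1) : ℚ) : ℂ) * Complex.log (1 - 1 / (t : ℂ))) := by
  obtain ⟨h1, h2⟩ := tpos ht
  rw [det_Yx hQ h1 h2, Real.rpow_def_of_pos (by linarith), Complex.ofReal_exp, log_eq ht]
  congr 1
  push_cast
  ring

/-- the determinant of the transformed matrix -/
lemma det_dg (hg : Gau α h G c) (hh : ExB h α') (hα : ∀ i, ∀ a : ℤ, α i ≠ a) (hcl : cls α' = cls α) (ht : 2 ≤ t) {L : ℂ}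
    (hL : Complex.exp L = 1 - 1 / (t : ℂ)) (hdet : g.det = Complex.exp (-((∑ j, α j : ℚ) : ℂ) * L)) :
    (dg' G c t g).det = Complex.exp (-h.e * L) := by
  obtain ⟨h1, h2⟩ := tpos ht
  have hn := hh.ok.g.two
  have hQ : QG n (QA α) := QG_QA hn fun i l h0 => hα i l h0.symm
  have hd := hg.det _ h1 h2
  have e1 := congrArg Matrix.det (hg.eq _ h1 h2)
  rw [Matrix.det_mul, Matrix.det_mul, det_Yt hQ ht, det_Yt hh.ok.g ht, QA_coeff (by omega) α] at e1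
  have e2 : h.Q.coeff (n - 1) = ∑ j, α' j := by rw [hh.q, QA_coeff (by omega) α']
  have e3 : h.e = ((∑ j, α' j : ℚ) : ℂ) := by
    unfold HB.e
    rw [e2]
  rw [e2] at e1
  obtain ⟨a, ha⟩ := cls_sum hcl
  have hrs : Ring.inverse (G (1 / (t : ℝ))).det = ((G (1 / (t : ℝ))).det)⁻¹ := by rw [Ring.inverse_eq_inv']
  unfold dg'
  rw [Matrix.det_mul, Matrix.det_mul, Matrix.det_nonsing_inv, hrs, hdet, e3]
  set lam := Complex.log (1 - 1 / (t : ℂ)) with hlam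
  set A : ℂ := ((∑ j, α j : ℚ) : ℂ) with hA
  set A' : ℂ := ((∑ j, α' j : ℚ) : ℂ) with hA'
  have h3 : A - A' = (a : ℂ) := by
    rw [hA, hA']
    exact_mod_cast ha
  have h0 : (1 : ℂ) - 1 / (t : ℂ) ≠ 0 := by
    have e4 : (1 - 1 / (t : ℂ)) = (((1 - 1 / (t : ℝ) : ℝ)) : ℂ) := by push_cast; rfl
    rw [e4, Ne, Complex.ofReal_eq_zero]
    linarith
  have h4 : Complex.exp ((a : ℂ) * L) = Complex.exp ((a : ℂ) * lam) := by
    rw [Complex.exp_int_mul, Complex.exp_int_mul, hL, hlam, Complex.exp_log h0]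
  have h5 : Complex.exp (-A * L) = Complex.exp (-A' * L) * (Complex.exp ((a : ℂ) * L))⁻¹ := by
    rw [← Complex.exp_neg, ← Complex.exp_add]
    congr 1
    linear_combination -L * h3
  have h6 : Complex.exp (-A * lam) = Complex.exp (-A' * lam) * (Complex.exp ((a : ℂ) * lam))⁻¹ := by
    rw [← Complex.exp_neg, ← Complex.exp_add]
    congr 1
    linear_combination -lam * h3
  rw [h6] at e1
  rw [h5, h4]
  have h7 := Complex.exp_ne_zero (-A' * lam)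
  have h8 := Complex.exp_ne_zero ((a : ℂ) * lam)
  generalize Complex.exp ((a : ℂ) * lam) = w at e1 h8 ⊢
  generalize Complex.exp (-A' * lam) = v at e1 h7
  have h9 : (cm c).det = (G (1 / (t : ℝ))).det * w := by
    field_simp at e1
    linear_combination e1
  rw [h9]
  field_simp

/-- the equation of the transformed matrix -/
lemma dg_eq (hg : Gau α h G c) (ht : 2 ≤ t) (g : Matrix (Fin n) (Fin n) ℂ) : g = G (1 / (t : ℝ)) * dg' G c t g * cm c⁻¹ := by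
  obtain ⟨h1, h2⟩ := tpos ht
  have hu : IsUnit (G (1 / (t : ℝ))).det := Ne.isUnit (hg.det _ h1 h2)
  unfold dg'
  calc g = 1 * g * 1 := by rw [Matrix.one_mul, Matrix.mul_one]
    _ = (G (1 / (t : ℝ)) * (G (1 / (t : ℝ)))⁻¹) * g * (cm c * cm c⁻¹) := by
        rw [Matrix.mul_nonsing_inv _ hu, (cm_inv hg.cdet).1]
    _ = _ := by simp only [Matrix.mul_assoc]

/-- the forms are transported -/
lemma form_dg (hg : Gau α h G c) (ht : 2 ≤ t) {S : ℝ → Matrix (Fin n) (Fin n) ℂ} {J : Matrix (Fin n) (Fin n) ℚ} (hS : IsR S)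
    (hY : ∀ x : ℝ, 0 < x → x < 1 → (Yx n h.Q x)ᵀ * S x * Yx n h.Q x = cm J) (hb : Bil (QA α) (QA α) t g g) :
    (dg' G c t g)ᵀ * S (1 / (t : ℝ)) * dg' G c t g = cm J := by
  obtain ⟨h1, h2⟩ := tpos ht
  have hri := hg.r.inv hg.det
  have hI := (hri.tr.mul hS).mul hri
  have key := Bil.use (c := (c⁻¹)ᵀ * J * c⁻¹) hb ht hI fun x hx hx1 => by
    have hu : IsUnit (G x).det := Ne.isUnit (hg.det x hx hx1)
    have e1 : Yx n (QA α) x = G x * Yx n h.Q x * cm c⁻¹ := by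
      calc Yx n (QA α) x = Yx n (QA α) x * (cm c * cm c⁻¹) := by rw [(cm_inv hg.cdet).1, Matrix.mul_one]
        _ = _ := by rw [← Matrix.mul_assoc, hg.eq x hx hx1]
    have e2 : (G x)⁻¹ * Yx n (QA α) x = Yx n h.Q x * cm c⁻¹ := by
      rw [e1, ← Matrix.mul_assoc, ← Matrix.mul_assoc, Matrix.nonsing_inv_mul _ hu, Matrix.one_mul]
    calc (Yx n (QA α) x)ᵀ * (((G x)⁻¹)ᵀ * S x * (G x)⁻¹) * Yx n (QA α) x =
          ((G x)⁻¹ * Yx n (QA α) x)ᵀ * S x * ((G x)⁻¹ * Yx n (QA α) x) := by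
            rw [Matrix.transpose_mul]
            simp only [Matrix.mul_assoc]
      _ = (cm c⁻¹)ᵀ * ((Yx n h.Q x)ᵀ * S x * Yx n h.Q x) * cm c⁻¹ := by
            rw [e2, Matrix.transpose_mul]
            simp only [Matrix.mul_assoc]
      _ = _ := by rw [hY x hx hx1, cm_mul, cm_mul, cm_transpose]
  have hci := (cm_inv hg.cdet).2
  have hci' : (cm c)ᵀ * (cm c⁻¹)ᵀ = 1 := by rw [← Matrix.transpose_mul, hci, Matrix.transpose_one]
  unfold dg'
  calc ((G (1 / (t : ℝ)))⁻¹ * g * cm c)ᵀ * S (1 / (t : ℝ)) * ((G (1 / (t : ℝ)))⁻¹ * g * cm c) =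
        (cm c)ᵀ * (gᵀ * (((G (1 / (t : ℝ)))⁻¹)ᵀ * S (1 / (t : ℝ)) * (G (1 / (t : ℝ)))⁻¹) * g) * cm c := by
          rw [Matrix.transpose_mul, Matrix.transpose_mul]
          simp only [Matrix.mul_assoc]
    _ = (cm c)ᵀ * cm ((c⁻¹)ᵀ * J * c⁻¹) * cm c := by
          have := key
          rw [this]
    _ = ((cm c)ᵀ * (cm c⁻¹)ᵀ) * cm J * (cm c⁻¹ * cm c) := by
          rw [cm_mul, cm_mul, cm_transpose]
          simp only [Matrix.mul_assoc]
    _ = cm J := by rw [hci, hci', Matrix.one_mul, Matrix.mul_one]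

/-- **The transformed matrix satisfies the conditions of the exact block.** -/
theorem cond_dg (hg : Gau α h G c) (hh : ExB h α') (hα : ∀ i, ∀ a : ℤ, α i ≠ a) (hcl : cls α' = cls α) (ht : 2 ≤ t) {L : ℂ}
    (hL : Complex.exp L = 1 - 1 / (t : ℂ)) (hdet : g.det = Complex.exp (-((∑ j, α j : ℚ) : ℂ) * L)) (hb : Bil (QA α) (QA α) t g g) :
    h.cond L t (dg' G c t g) := by
  have h1 := det_dg hg hh hα hcl ht hL hdet
  unfold HB.cond
  rcases hk : h.k with _ | _ | _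
  · exact h1
  · refine ⟨?_, h1⟩
    have ho := hh.ok.o hk
    have key := form_dg (S := fun x => cm (Jm n h.R) - (x : ℂ) • cm (Rm n h.R)) (J := Jm n h.R) hg ht ?_ (fun x hx hx1 => ?_) hb
    · exact key
    · refine ⟨(Jm n h.R).map Polynomial.C - (Polynomial.X : Polynomial ℚ) • (Rm n h.R).map Polynomial.C, 1, fun x _ _ => ?_⟩
      rw [map_one, one_smul]
      refine ⟨one_ne_zero, ?_⟩
      ext i j
      have hX : evq (x : ℂ) Polynomial.X = (x : ℂ) := by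
        unfold evq
        simp
      have hC : ∀ q : ℚ, evq (x : ℂ) (Polynomial.C q) = (q : ℂ) := by
        intro q
        unfold evq
        simp
      simp only [Matrix.map_apply, Matrix.sub_apply, Matrix.smul_apply, smul_eq_mul, map_sub, map_mul, hX, hC, cm_apply]
    · exact form_ort ho (real_mem_Lens hx hx1)
  · have hs := hh.ok.s hk
    refine form_dg (S := fun _ => cm (Jm n h.Q)) (J := Jm n h.Q) hg ht (IsR.const _) (fun x hx hx1 => ?_) hb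
    refine Pool.Agent.Y119.HY.self_pair Ac_nil Jc_rel ?_ (sol_c hs) (real_mem_Lens hx hx1)
    rw [← cm_transpose, ← cm_mul, ← cm_mul, ← cm_add, Pool.Agent.Y119.HZ.Bm_rel hs, cm_zero]

end

end Q207.HM
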