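import Pool.Agent.Q207.HM.Lm

/-!
# Statements of the lemmas on the monodromy at infinity
-/

set_option autoImplicit false

open Matrix

namespace Q207.HM.Lv

open Pool.Agent.Y119.HY (HD Gm E Yf Hc Am Bm cm)

/-- fundamental solutions on the disc or half plane of the points which are nearer to `c` than to `d` -/
def S_Chart : Prop := ∀ (n : ℕ) (A B : Matrix (Fin n) (Fin n) ℂ) (c d : ℂ), c ≠ d → d ≠ 0 → d ≠ 1 → ‖d‖ ≤ ‖c‖ → ‖1 - d‖ ≤ ‖1 - c‖ →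
  ∃ F W : ℂ → Matrix (Fin n) (Fin n) ℂ, ∀ z : ℂ, ‖z - c‖ < ‖z - d‖ →
    HD F (Gm A B z * F z) z ∧ HD W (-(W z * Gm A B z)) z ∧ W z * F z = 1

/-- bounds for the inverses of `κ + [·, N]` -/
def S_NR : Prop := ∀ (n : ℕ) (N : Matrix (Fin n) (Fin n) ℂ),
  (∀ (k : ℕ) (Y : Matrix (Fin n) (Fin n) ℂ), ((k : ℂ) + 1) • Y + (Y * N - N * Y) = 0 → Y = 0) → NR N

/-- matrices without resonances -/
def S_Res : Prop := ∀ (n : ℕ) (N : Matrix (Fin n) (Fin n) ℂ) (a : Fin n → ℂ),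
  N.charpoly = ∏ i, (Polynomial.X - Polynomial.C (a i)) → (∀ i j, ∀ k : ℕ, a i - a j ≠ (k : ℂ) + 1) →
  ∀ (k : ℕ) (Y : Matrix (Fin n) (Fin n) ℂ), ((k : ℂ) + 1) • Y + (Y * N - N * Y) = 0 → Y = 0

/-- the one parameter group of a matrix -/
def S_Exp : Prop := ∀ (n : ℕ) (N : Matrix (Fin n) (Fin n) ℂ) (a : Fin n → ℂ),
  N.charpoly = ∏ i, (Polynomial.X - Polynomial.C (a i)) → ∃ F : ℂ → Matrix (Fin n) (Fin n) ℂ, F 0 = 1 ∧
    (∀ s t, F (s + t) = F s * F t) ∧ (∀ s, HD F (N * F s) s) ∧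
    ∀ s, (F s).charpoly = ∏ i, (Polynomial.X - Polynomial.C (Complex.exp (s * a i)))

/-- the residue at infinity is a companion matrix -/
def S_Comp : Prop := ∀ (n : ℕ) (α : Fin n → ℚ), 1 ≤ n →
  (cm (Bm n (∏ i, (Polynomial.X + Polynomial.C (α i)))) - cm (Am n)).charpoly =
    ∏ i, (Polynomial.X - Polynomial.C (((α i : ℚ) : ℂ)))

/-- contiguity: the monodromy at one after an exponent `a` is changed to `a + 1` -/
def S_Ctg : Prop := ∀ (n : ℕ) (P Q Q' : Polynomial ℚ) (a : ℚ), Q = P * (Polynomial.X + Polynomial.C a) →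
  Q' = P * (Polynomial.X + Polynomial.C (a + 1)) → QG n Q → QG n Q' → ∀ R : ℤ → Matrix (Fin n) (Fin n) ℂ,
  LM (Yf (cm (Am n)) (Hc n Q)) R → LM (Yf (cm (Am n)) (Hc n Q')) fun m =>
    ((((a : ℚ) : ℂ) • (1 : Matrix (Fin n) (Fin n) ℂ)) + cm (Am n)) * R m *
      ((((a : ℚ) : ℂ) • (1 : Matrix (Fin n) (Fin n) ℂ)) + cm (Am n))⁻¹

/-- the characteristic polynomial of the product of a pseudoreflection or transvection and a unipotent matrix depends only on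
the moments -/
def S_Mom : Prop := ∀ (n : ℕ) (A : Matrix (Fin n) (Fin n) ℂ) (u φ u' φ' : Fin n → ℂ) (κ s : ℂ), A ^ n = 0 →
  ((∀ l < n, φ ⬝ᵥ ((A ^ l) *ᵥ u) = φ' ⬝ᵥ ((A ^ l) *ᵥ u')) →
    ((1 + κ • vecMulVec u φ) * E A s).charpoly = ((1 + κ • vecMulVec u' φ') * E A s).charpoly) ∧
  ((∀ l < n, φ ⬝ᵥ ((A ^ l) *ᵥ u) = (-1) ^ l * (φ' ⬝ᵥ ((A ^ l) *ᵥ u'))) →
    ((1 + κ • vecMulVec u φ) * E A s).charpoly = ((1 + κ • vecMulVec u' φ') * E A (-s)).charpoly) ∧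
  ((∀ l < n, φ ⬝ᵥ ((A ^ l) *ᵥ u) = -(φ' ⬝ᵥ ((A ^ l) *ᵥ u'))) →
    ((1 + κ • vecMulVec u φ) * E A s).charpoly + ((1 + κ • vecMulVec u' φ') * E A s).charpoly =
      2 * (Polynomial.X - 1) ^ n)

end Q207.HM.Lv
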