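import Pool.Agent.Q207.HM.Lev
import Pool.Agent.Q207.HM.Tup

/-!
# Blocks with different characteristic polynomials at infinity can be separated
-/

set_option autoImplicit false

open Filter Topology Matrix

namespace Q207.HM

open Pool.Agent.Y119.HY (Am Bm cm Hc Ac_nil Sol Hf HD Gm E Yf E_add E_zero E_isom E_mul_neg)

variable {n : ℕ}

/-- the characteristic polynomial at infinity -/
noncomputable def mono (α : Fin n → ℚ) : Polynomial ℂ :=
  ∏ i, (Polynomial.X - Polynomial.C (Complex.exp (-(2 * Real.pi * Complex.I) * ((α i : ℚ) : ℂ))))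

lemma mono_monic (α : Fin n → ℚ) : (mono α).Monic := Polynomial.monic_prod_of_monic _ _ fun _ _ => Polynomial.monic_X_sub_C _

lemma fb_coeff (b : Blk n) {l : ℕ} (hl : l < n) : (l.factorial : ℂ) * (fb b).coeff l = b.φ ⬝ᵥ ((b.A ^ l) *ᵥ b.u) := by
  unfold fb
  rw [mp_coeff, if_pos hl]
  have : (l.factorial : ℂ) ≠ 0 := by exact_mod_cast l.factorial_ne_zero
  field_simp

lemma comp_neg_coeff (f : Polynomial ℂ) (l : ℕ) : (f.comp (-Polynomial.X)).coeff l = (-1) ^ l * f.coeff l := by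
  have h1 : (-Polynomial.X : Polynomial ℂ) = Polynomial.C (-1) * Polynomial.X := by
    rw [map_neg, map_one]
    ring
  rw [h1, Polynomial.comp_C_mul_X_coeff, mul_comm]

/-- the factor -/
noncomputable def kap (b : Blk n) : ℂ := if b.k = Ki.s then 1 else b.ξ - 1

lemma Rb_kap (b : Blk n) : Rb b = 1 + kap b • vecMulVec b.u b.φ := by
  unfold Rb kap
  split_ifs
  · rw [one_smul]
  · rfl

/-- the inverse matrix -/
lemma charpoly_inv_prod {T T' : Matrix (Fin n) (Fin n) ℂ} (hT : T * T' = 1) {w : Fin n → ℂ} (hw : ∀ i, w i ≠ 0)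
    (hc : T.charpoly = ∏ i, (Polynomial.X - Polynomial.C (w i))) : T'.charpoly = ∏ i, (Polynomial.X - Polynomial.C (w i)⁻¹) := by
  have hev : ∀ (S : Matrix (Fin n) (Fin n) ℂ) (x : ℂ), S.charpoly.eval x = (x • (1 : Matrix (Fin n) (Fin n) ℂ) - S).det := by
    intro S x
    rw [Matrix.eval_charpoly]
    congr 1
    rw [Matrix.smul_one_eq_diagonal]
    rfl
  have hT' : T' * T = 1 := mul_eq_one_comm.1 hT
  have hdT : (-1 : ℂ) ^ n * T.det = ∏ i, (-(w i)) := by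
    have h1 := hev T 0
    rw [hc, Polynomial.eval_prod, zero_smul, zero_sub, Matrix.det_neg, Fintype.card_fin] at h1
    rw [← h1]
    refine Finset.prod_congr rfl fun i _ => ?_
    simp
  have hdT2 : T.det = ∏ i, w i := by
    have h1 : ∏ i, (-(w i)) = (-1 : ℂ) ^ n * ∏ i, w i := by
      rw [Finset.prod_neg]
      simp
    rw [h1] at hdT
    exact mul_left_cancel₀ (pow_ne_zero _ (by norm_num)) hdT
  have hdd : T.det * T'.det = 1 := by rw [← Matrix.det_mul, hT, Matrix.det_one]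
  have hW0 : ∏ i, w i ≠ 0 := Finset.prod_ne_zero_iff.2 fun i _ => hw i
  have key : ∀ x : ℂ, x ≠ 0 → T'.charpoly.eval x = (∏ i, (Polynomial.X - Polynomial.C (w i)⁻¹)).eval x := by
    intro x hx
    rw [hev, Polynomial.eval_prod]
    have h1 : x • (1 : Matrix (Fin n) (Fin n) ℂ) - T' = T' * ((-x) • (x⁻¹ • (1 : Matrix (Fin n) (Fin n) ℂ) - T)) := by
      rw [smul_sub, smul_smul, Matrix.mul_sub, Matrix.mul_smul, Matrix.mul_smul, Matrix.mul_one, hT']
      have : -x * x⁻¹ = -1 := by field_simp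
      rw [this]
      module
    rw [h1, Matrix.det_mul, Matrix.det_smul, ← hev, hc, Polynomial.eval_prod, Fintype.card_fin]
    have h2 : T'.det = (∏ i, w i)⁻¹ := by
      rw [hdT2] at hdd
      exact eq_inv_of_mul_eq_one_right hdd
    rw [h2, ← Finset.prod_inv_distrib]
    have h3 : (-x) ^ n = ∏ _i : Fin n, (-x) := by rw [Finset.prod_const, Finset.card_univ, Fintype.card_fin]
    rw [h3, ← Finset.prod_mul_distrib, ← Finset.prod_mul_distrib]
    refine Finset.prod_congr rfl fun i _ => ?_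
    simp only [Polynomial.eval_sub, Polynomial.eval_X, Polynomial.eval_C]
    have := hw i
    field_simp
    ring
  refine Polynomial.eq_of_infinite_eval_eq _ _ (Set.Infinite.mono (s := {x : ℂ | x ≠ 0}) (fun x hx => key x hx) ?_)
  exact (Set.finite_singleton (0 : ℂ)).infinite_compl

/-- the polynomial of a symplectic block is odd -/
lemma fb_odd {b : Blk n} (hb : BlkOK b) (hk : b.k = Ki.s) : (fb b).comp (-Polynomial.X) = -fb b := by
  obtain ⟨hJ, -, hAJ, c, -, hφ⟩ := hb.s hk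
  have hA := hb.nil
  have j1 : ∀ s : ℂ, (E b.A s)ᵀ * b.J = b.J * E b.A (-s) := by
    intro s
    have hi := E_isom hA hAJ s
    have hE1 : E b.A s * E b.A (-s) = 1 := E_mul_neg hA s
    calc (E b.A s)ᵀ * b.J = (E b.A s)ᵀ * b.J * (E b.A s * E b.A (-s)) := by rw [hE1, Matrix.mul_one]
      _ = ((E b.A s)ᵀ * b.J * E b.A s) * E b.A (-s) := by simp only [Matrix.mul_assoc]
      _ = _ := by rw [hi]
  refine Polynomial.funext fun s => ?_
  rw [Polynomial.eval_comp, Polynomial.eval_neg, Polynomial.eval_neg, Polynomial.eval_X]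
  unfold fb
  rw [mp_eval, mp_eval, hφ, smul_dotProduct, smul_dotProduct, smul_eq_mul, smul_eq_mul, ← mul_neg]
  congr 1
  -- `u J E(-s) u = - u J E(s) u`
  have h1 : (b.u ᵥ* b.J) ⬝ᵥ (E b.A (-s) *ᵥ b.u) = b.u ⬝ᵥ ((b.J * E b.A (-s)) *ᵥ b.u) := by
    rw [← dotProduct_mulVec, mulVec_mulVec]
  have h2 : b.u ⬝ᵥ (((E b.A s)ᵀ * b.J) *ᵥ b.u) = (E b.A s *ᵥ b.u) ⬝ᵥ (b.J *ᵥ b.u) := by
    rw [← mulVec_mulVec, dotProduct_mulVec, vecMul_transpose]
  have h3 : b.J *ᵥ b.u = -(b.u ᵥ* b.J) := by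
    rw [← vecMul_transpose, hJ, vecMul_neg]
  rw [h1, ← j1, h2, h3, dotProduct_neg, dotProduct_comm]

section main

variable {h h' : HB n} {b c : Blk n} {α α' : Fin n → ℚ}

lemma Rb_char (h1 : Lv.S_Chart) (h2 : Lv.S_NR) (h3 : Lv.S_Res) (h4 : Lv.S_Exp) (h5 : Lv.S_Comp) (hb : BlkOf h b) (hQ : h.Q = QA α)
    (hα : ∀ i, ∀ a : ℤ, α i ≠ a) :
    ((1 + kap b • vecMulVec b.u b.φ) * E (cm (Am n)) (2 * Real.pi * Complex.I)).charpoly = mono α := by
  obtain ⟨hok, -, -, -, -, hLM⟩ := hb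
  rw [hQ] at hLM
  have h6 := levelt h1 h2 h3 h4 h5 hok.two hα _ hLM
  rw [Rbm_one, Rb_kap] at h6
  exact h6

/-- equal polynomials of the blocks and equal monodromies -/
lemma mono_eq (h1 : Lv.S_Chart) (h2 : Lv.S_NR) (h3 : Lv.S_Res) (h4 : Lv.S_Exp) (h5 : Lv.S_Comp) (h6 : Lv.S_Mom) (hb : BlkOf h b)
    (hc : BlkOf h' c) (hQ : h.Q = QA α) (hQ' : h'.Q = QA α') (hα : ∀ i, ∀ a : ℤ, α i ≠ a) (hα' : ∀ i, ∀ a : ℤ, α' i ≠ a)
    (hk : kap b = kap c) (hf : fb b = fb c) : mono α = mono α' := by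
  rw [← Rb_char h1 h2 h3 h4 h5 hb hQ hα, ← Rb_char h1 h2 h3 h4 h5 hc hQ' hα', hk]
  refine (h6 n (cm (Am n)) b.u b.φ c.u c.φ (kap c) (2 * Real.pi * Complex.I) Ac_nil).1 fun l hl => ?_
  have e1 := fb_coeff b hl
  have e2 := fb_coeff c hl
  rw [hb.2.1] at e1
  rw [hc.2.1] at e2
  rw [← e1, ← e2, hf]

/-- dual blocks -/
lemma mono_dual (h1 : Lv.S_Chart) (h2 : Lv.S_NR) (h3 : Lv.S_Res) (h4 : Lv.S_Exp) (h5 : Lv.S_Comp) (h6 : Lv.S_Mom) (hb : BlkOf h b)
    (hc : BlkOf h' c) (hQ : h.Q = QA α) (hQ' : h'.Q = QA α') (hα : ∀ i, ∀ a : ℤ, α i ≠ a) (hα' : ∀ i, ∀ a : ℤ, α' i ≠ a)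
    (hkb : b.k = Ki.l) (hkc : c.k = Ki.l) (hξ : b.ξ = c.ξ⁻¹) (hf : fb b = (fb c).comp (-Polynomial.X)) :
    mono α = mono fun i => -α' i := by
  have hA : (cm (Am n)) ^ n = 0 := Ac_nil
  obtain ⟨hφu, hξ0, -⟩ := hc.1.l hkc
  have e3 := Rb_char h1 h2 h3 h4 h5 hb hQ hα
  have e4 := Rb_char h1 h2 h3 h4 h5 hc hQ' hα'
  have e5 := (h6 n (cm (Am n)) b.u b.φ c.u c.φ (kap b) (2 * Real.pi * Complex.I) hA).2.1 fun l hl => by
    have e1 := fb_coeff b hl
    have e2 := fb_coeff c hl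
    rw [hb.2.1] at e1
    rw [hc.2.1] at e2
    rw [← e1, ← e2, hf, comp_neg_coeff]
    ring
  rw [e3] at e5
  have hkb' : kap b = c.ξ⁻¹ - 1 := by
    unfold kap
    rw [if_neg (by rw [hkb]; exact fun h' => Ki.noConfusion h'), hξ]
  have hkc' : kap c = c.ξ - 1 := by
    unfold kap
    rw [if_neg (by rw [hkc]; exact fun h' => Ki.noConfusion h')]
  -- the product with the inverse
  set M := E (cm (Am n)) (2 * Real.pi * Complex.I) with hM
  set M' := E (cm (Am n)) (-(2 * Real.pi * Complex.I)) with hM'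
  have hMM : M * M' = 1 := E_mul_neg hA _
  set V := vecMulVec c.u c.φ with hV
  have hVV : V * V = V := by rw [hV, vecMulVec_mul_vecMulVec, hφu, one_smul]
  have hRR : (1 + kap c • V) * (1 + kap b • V) = 1 := by
    rw [hkb', hkc', Matrix.add_mul, Matrix.mul_add, Matrix.mul_one, Matrix.one_mul, Matrix.smul_mul, Matrix.mul_add, Matrix.mul_one,
      Matrix.mul_smul, hVV]
    have : (c.ξ⁻¹ - 1) + (c.ξ - 1) + (c.ξ - 1) * (c.ξ⁻¹ - 1) = 0 := by
      field_simp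
      ring
    calc _ = 1 + ((c.ξ⁻¹ - 1) + (c.ξ - 1) + (c.ξ - 1) * (c.ξ⁻¹ - 1)) • V := by module
      _ = 1 := by rw [this, zero_smul, add_zero]
  have hprod : ((1 + kap c • V) * M) * (M' * (1 + kap b • V)) = 1 := by
    calc _ = (1 + kap c • V) * (M * M') * (1 + kap b • V) := by simp only [Matrix.mul_assoc]
      _ = 1 := by rw [hMM, Matrix.mul_one, hRR]
  have e7 := charpoly_inv_prod hprod (fun i => Complex.exp_ne_zero _) (e4.trans rfl)
  rw [Matrix.charpoly_mul_comm] at e7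
  rw [e5, e7]
  unfold mono
  refine Finset.prod_congr rfl fun i _ => ?_
  rw [← Complex.exp_neg]
  congr 3
  push_cast
  ring

/-- **Separation by the characteristic polynomials at infinity.** -/
theorem neq_mono (h1 : Lv.S_Chart) (h2 : Lv.S_NR) (h3 : Lv.S_Res) (h4 : Lv.S_Exp) (h5 : Lv.S_Comp) (h6 : Lv.S_Mom) (hb : BlkOf h b)
    (hc : BlkOf h' c) (hQ : h.Q = QA α) (hQ' : h'.Q = QA α') (hα : ∀ i, ∀ a : ℤ, α i ≠ a) (hα' : ∀ i, ∀ a : ℤ, α' i ≠ a)
    (hs : h.k = Ki.s → h'.k = Ki.s → (mono α).eval 1 + (mono α').eval 1 ≠ 0) (hne : mono α ≠ mono α')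
    (hne' : h.k = Ki.l → mono α ≠ mono fun i => -α' i) : Neq b c := by
  have hkb := hb.2.2.2.1
  have hkc := hc.2.2.2.1
  refine ⟨fun g1 g2 => ⟨fun g3 g4 => ?_, fun g3 g4 => ?_⟩, fun g1 g2 g4 => ?_, fun g1 g2 g4 => ?_⟩
  · refine hne (mono_eq h1 h2 h3 h4 h5 h6 hb hc hQ hQ' hα hα' ?_ g4)
    unfold kap
    rw [g1, g2, g3]
  · exact hne' (by rw [← hkb, g1]) (mono_dual h1 h2 h3 h4 h5 h6 hb hc hQ hQ' hα hα' g1 g2 g3 g4)
  · refine hne (mono_eq h1 h2 h3 h4 h5 h6 hb hc hQ hQ' hα hα' ?_ g4)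
    unfold kap
    rw [g1, g2, (hb.1.o g1).2.1, (hc.1.o g2).2.1]
  · rw [fb_odd hb.1 g1, fb_odd hc.1 g2] at g4
    have hkap : kap b = kap c := by
      unfold kap
      rw [g1, g2, if_pos rfl, if_pos rfl]
    have h7 : (fb b - fb c) * (fb b + fb c) = 0 := by linear_combination -g4
    rcases mul_eq_zero.1 h7 with h8 | h8
    · exact hne (mono_eq h1 h2 h3 h4 h5 h6 hb hc hQ hQ' hα hα' hkap (sub_eq_zero.1 h8))
    · refine hs (by rw [← hkb, g1]) (by rw [← hkc, g2]) ?_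
      have h9 := (h6 n (cm (Am n)) b.u b.φ c.u c.φ (kap c) (2 * Real.pi * Complex.I) Ac_nil).2.2 fun l hl => by
        have e1 := fb_coeff b hl
        have e2 := fb_coeff c hl
        rw [hb.2.1] at e1
        rw [hc.2.1] at e2
        rw [← e1, ← e2, eq_neg_of_add_eq_zero_left h8, Polynomial.coeff_neg]
        ring
      rw [Rb_char h1 h2 h3 h4 h5 hc hQ' hα', ← hkap, Rb_char h1 h2 h3 h4 h5 hb hQ hα] at h9
      have h10 := congrArg (Polynomial.eval 1) h9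
      rw [Polynomial.eval_add] at h10
      rw [h10]
      have hn := hb.1.two
      simp only [Polynomial.eval_mul, Polynomial.eval_pow, Polynomial.eval_sub, Polynomial.eval_X, Polynomial.eval_one, sub_self]
      rw [zero_pow (by omega), mul_zero]

end main

end Q207.HM
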