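import Pool.Agent.Y119.HY.Main

/-!
# Local solutions at non-resonant singular points
-/

set_option autoImplicit false

open Filter Topology Matrix

namespace Q207.HM

open Pool.Agent.Y119.HY (Sol PG ps ps_add ps_smul ps_sum ps_shift ps_deriv ps_an ps_zero Hf HD Gm DD DD_apply DD_nil RR RR_right RR_left
  RR_norm entry_le)

variable {n : ℕ}

section norm

attribute [local instance] Matrix.linftyOpNormedAddCommGroup Matrix.linftyOpNormedRing Matrix.linftyOpNormedAlgebra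

/-- `κ + [·, N0]` is invertible for `κ = 1, 2, …`, with bounds -/
def NR (N0 : Matrix (Fin n) (Fin n) ℂ) : Prop :=
  ∃ (K : ℝ) (R : ℕ → Matrix (Fin n) (Fin n) ℂ → Matrix (Fin n) (Fin n) ℂ), 0 ≤ K ∧
    (∀ (k : ℕ) (Y : Matrix (Fin n) (Fin n) ℂ), ((k : ℂ) + 1) • R k Y + (R k Y * N0 - N0 * R k Y) = Y) ∧
    (∀ (k : ℕ) (Y : Matrix (Fin n) (Fin n) ℂ), R k (((k : ℂ) + 1) • Y + (Y * N0 - N0 * Y)) = Y) ∧
    ∀ (k : ℕ) (Y : Matrix (Fin n) (Fin n) ℂ), ‖R k Y‖ ≤ K / ((k : ℝ) + 1) * ‖Y‖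

theorem nr_nil {N0 : Matrix (Fin n) (Fin n) ℂ} (h : N0 ^ n = 0) : NR N0 := by
  obtain ⟨p, hp⟩ := DD_nil h
  obtain ⟨K, hK0, hK⟩ := RR_norm (N0 := N0) p
  have h1 : ∀ k : ℕ, ((k : ℂ) + 1) ≠ 0 := fun k => by exact_mod_cast Nat.succ_ne_zero k
  refine ⟨K, fun k => RR N0 p ((k : ℂ) + 1), hK0, fun k Y => ?_, fun k Y => ?_, hK⟩
  · have := RR_right hp (h1 k) Y
    rwa [DD_apply] at this
  · have := RR_left hp (h1 k) Y
    rwa [DD_apply] at this

section semi

variable {P : Matrix (Fin n) (Fin n) ℂ} {σ : ℂ}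

/-- the resolvent for a multiple of a projection -/
noncomputable def RS (P : Matrix (Fin n) (Fin n) ℂ) (σ κ : ℂ) (Y : Matrix (Fin n) (Fin n) ℂ) : Matrix (Fin n) (Fin n) ℂ :=
  κ⁻¹ • (P * Y * P + (1 - P) * Y * (1 - P)) + (κ - σ)⁻¹ • (P * Y * (1 - P)) + (κ + σ)⁻¹ • ((1 - P) * Y * P)

lemma dec_sum (Y : Matrix (Fin n) (Fin n) ℂ) : P * Y * P + (1 - P) * Y * (1 - P) + P * Y * (1 - P) + (1 - P) * Y * P = Y := by
  noncomm_ring

lemma RS_right (hP : P * P = P) {κ : ℂ} (h0 : κ ≠ 0) (h1 : κ - σ ≠ 0) (h2 : κ + σ ≠ 0) (Y : Matrix (Fin n) (Fin n) ℂ) :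
    κ • RS P σ κ Y + (RS P σ κ Y * (σ • P) - (σ • P) * RS P σ κ Y) = Y := by
  have hQP : (1 - P) * P = 0 := by rw [sub_mul, one_mul, hP, sub_self]
  have hPQ : P * (1 - P) = 0 := by rw [mul_sub, mul_one, hP, sub_self]
  set A1 := P * Y * P with hA1
  set A2 := (1 - P) * Y * (1 - P) with hA2
  set A3 := P * Y * (1 - P) with hA3
  set A4 := (1 - P) * Y * P with hA4
  have a1 : A1 * P = A1 := by rw [hA1, Matrix.mul_assoc, hP]
  have a2 : A2 * P = 0 := by rw [hA2, Matrix.mul_assoc, hQP, Matrix.mul_zero]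
  have a3 : A3 * P = 0 := by rw [hA3, Matrix.mul_assoc, hQP, Matrix.mul_zero]
  have a4 : A4 * P = A4 := by rw [hA4, Matrix.mul_assoc, hP]
  have b1 : P * A1 = A1 := by rw [hA1, ← Matrix.mul_assoc, ← Matrix.mul_assoc, hP]
  have b2 : P * A2 = 0 := by rw [hA2, ← Matrix.mul_assoc, ← Matrix.mul_assoc, hPQ, Matrix.zero_mul, Matrix.zero_mul]
  have b3 : P * A3 = A3 := by rw [hA3, ← Matrix.mul_assoc, ← Matrix.mul_assoc, hP]
  have b4 : P * A4 = 0 := by rw [hA4, ← Matrix.mul_assoc, ← Matrix.mul_assoc, hPQ, Matrix.zero_mul, Matrix.zero_mul]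
  have hR : RS P σ κ Y = κ⁻¹ • (A1 + A2) + (κ - σ)⁻¹ • A3 + (κ + σ)⁻¹ • A4 := rfl
  have c1 : RS P σ κ Y * P = κ⁻¹ • A1 + (κ + σ)⁻¹ • A4 := by
    rw [hR, add_mul, add_mul, Matrix.smul_mul, Matrix.smul_mul, Matrix.smul_mul, add_mul, a1, a2, a3, a4]
    simp
  have c2 : P * RS P σ κ Y = κ⁻¹ • A1 + (κ - σ)⁻¹ • A3 := by
    rw [hR, mul_add, mul_add, Matrix.mul_smul, Matrix.mul_smul, Matrix.mul_smul, mul_add, b1, b2, b3, b4]
    simp
  rw [Matrix.mul_smul, Matrix.smul_mul, c1, c2, hR]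
  have d := dec_sum (P := P) Y
  rw [← hA1, ← hA2, ← hA3, ← hA4] at d
  have e : κ • (κ⁻¹ • (A1 + A2) + (κ - σ)⁻¹ • A3 + (κ + σ)⁻¹ • A4) +
      (σ • (κ⁻¹ • A1 + (κ + σ)⁻¹ • A4) - σ • (κ⁻¹ • A1 + (κ - σ)⁻¹ • A3)) =
      (κ * κ⁻¹) • (A1 + A2) + ((κ - σ) * (κ - σ)⁻¹) • A3 + ((κ + σ) * (κ + σ)⁻¹) • A4 := by module
  rw [e, mul_inv_cancel₀ h0, mul_inv_cancel₀ h1, mul_inv_cancel₀ h2, one_smul, one_smul, one_smul, d]

lemma exp3 (A B Y : Matrix (Fin n) (Fin n) ℂ) (κ : ℂ) : A * (κ • Y + (Y * (σ • P) - (σ • P) * Y)) * B =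
    κ • (A * Y * B) + (σ • (A * (Y * P) * B) - σ • (A * (P * Y) * B)) := by
  rw [Matrix.mul_smul, Matrix.smul_mul, Matrix.mul_add A, Matrix.mul_sub A, Matrix.add_mul _ _ B, Matrix.sub_mul _ _ B,
    Matrix.mul_smul, Matrix.smul_mul, Matrix.mul_smul, Matrix.smul_mul, Matrix.mul_smul, Matrix.smul_mul]

lemma RS_left (hP : P * P = P) {κ : ℂ} (h0 : κ ≠ 0) (h1 : κ - σ ≠ 0) (h2 : κ + σ ≠ 0) (Y : Matrix (Fin n) (Fin n) ℂ) :
    RS P σ κ (κ • Y + (Y * (σ • P) - (σ • P) * Y)) = Y := by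
  set Z := κ • Y + (Y * (σ • P) - (σ • P) * Y) with hZ
  have hQP : (1 - P) * P = 0 := by rw [sub_mul, one_mul, hP, sub_self]
  have hPQ : P * (1 - P) = 0 := by rw [mul_sub, mul_one, hP, sub_self]
  have e1 : P * Z * P = κ • (P * Y * P) := by
    have f1 : P * (Y * P) * P = P * Y * P := by rw [← Matrix.mul_assoc P, Matrix.mul_assoc _ P, hP]
    have f2 : P * (P * Y) * P = P * Y * P := by rw [← Matrix.mul_assoc P, hP]
    rw [hZ, exp3, f1, f2, sub_self, add_zero]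
  have e2 : (1 - P) * Z * (1 - P) = κ • ((1 - P) * Y * (1 - P)) := by
    have f1 : (1 - P) * (Y * P) * (1 - P) = 0 := by
      rw [Matrix.mul_assoc, Matrix.mul_assoc, hPQ, Matrix.mul_zero, Matrix.mul_zero]
    have f2 : (1 - P) * (P * Y) * (1 - P) = 0 := by
      rw [← Matrix.mul_assoc (1 - P), hQP, Matrix.zero_mul, Matrix.zero_mul]
    rw [hZ, exp3, f1, f2]
    simp
  have e3 : P * Z * (1 - P) = (κ - σ) • (P * Y * (1 - P)) := by
    have f1 : P * (Y * P) * (1 - P) = 0 := by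
      rw [Matrix.mul_assoc, Matrix.mul_assoc, hPQ, Matrix.mul_zero, Matrix.mul_zero]
    have f2 : P * (P * Y) * (1 - P) = P * Y * (1 - P) := by
      rw [← Matrix.mul_assoc P, hP]
    rw [hZ, exp3, f1, f2]
    module
  have e4 : (1 - P) * Z * P = (κ + σ) • ((1 - P) * Y * P) := by
    have f1 : (1 - P) * (Y * P) * P = (1 - P) * Y * P := by
      rw [← Matrix.mul_assoc (1 - P), Matrix.mul_assoc _ P, hP]
    have f2 : (1 - P) * (P * Y) * P = 0 := by
      rw [← Matrix.mul_assoc (1 - P), hQP, Matrix.zero_mul, Matrix.zero_mul]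
    rw [hZ, exp3, f1, f2]
    module
  unfold RS
  rw [e1, e2, e3, e4, smul_smul, smul_smul, inv_mul_cancel₀ h1, inv_mul_cancel₀ h2, ← smul_add, smul_smul,
    inv_mul_cancel₀ h0, one_smul, one_smul, one_smul]
  exact dec_sum Y

lemma inv_bd (hσ : ∀ m : ℤ, σ ≠ m) : ∃ c : ℝ, 0 ≤ c ∧ ∀ k : ℕ, ‖((k : ℂ) + 1 - σ)⁻¹‖ ≤ c / ((k : ℝ) + 1) := by
  have h1 : Tendsto (fun k : ℕ => σ / ((k : ℂ) + 1)) atTop (𝓝 0) := by
    have h := (tendsto_one_div_add_atTop_nhds_zero_nat (𝕜 := ℂ)).const_mul σ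
    rw [mul_zero] at h
    refine h.congr fun k => ?_
    rw [mul_one_div]
  have h2 : Tendsto (fun k : ℕ => (1 - σ / ((k : ℂ) + 1))⁻¹) atTop (𝓝 ((1 - 0)⁻¹)) :=
    (h1.const_sub 1).inv₀ (by simp)
  obtain ⟨c, hc⟩ := h2.norm.bddAbove_range
  refine ⟨|c|, abs_nonneg c, fun k => ?_⟩
  have hk : ((k : ℂ) + 1) ≠ 0 := by exact_mod_cast Nat.succ_ne_zero k
  have hk' : (0 : ℝ) < (k : ℝ) + 1 := by positivity
  have h3 : ‖(1 - σ / ((k : ℂ) + 1))⁻¹‖ ≤ c := hc ⟨k, rfl⟩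
  have e : ((k : ℂ) + 1 - σ)⁻¹ = ((k : ℂ) + 1)⁻¹ * (1 - σ / ((k : ℂ) + 1))⁻¹ := by
    rw [← mul_inv]
    congr 1
    field_simp
  have hn : ‖((k : ℂ) + 1)⁻¹‖ = 1 / ((k : ℝ) + 1) := by
    rw [norm_inv]
    have : ((k : ℂ) + 1) = (((k : ℝ) + 1 : ℝ) : ℂ) := by push_cast; rfl
    rw [this, Complex.norm_real, Real.norm_of_nonneg hk'.le, one_div]
  rw [e, norm_mul, hn, div_mul_eq_mul_div, one_mul]
  exact div_le_div_of_nonneg_right (h3.trans (le_abs_self c)) hk'.le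

theorem nr_semi (hP : P * P = P) (hσ : ∀ m : ℤ, σ ≠ m) : NR (σ • P) := by
  obtain ⟨c1, hc1, h1⟩ := inv_bd hσ
  obtain ⟨c2, hc2, h2⟩ := inv_bd (σ := -σ) fun m h => hσ (-m) (by push_cast; rw [← h, neg_neg])
  have g0 : ∀ k : ℕ, ((k : ℂ) + 1) ≠ 0 := fun k => by exact_mod_cast Nat.succ_ne_zero k
  have g1 : ∀ k : ℕ, ((k : ℂ) + 1) - σ ≠ 0 := fun k h => hσ (k + 1) (by push_cast; linear_combination -h)
  have g2 : ∀ k : ℕ, ((k : ℂ) + 1) + σ ≠ 0 := fun k h => hσ (-(k + 1)) (by push_cast; linear_combination h)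
  set a : ℝ := ‖P‖ with ha
  set b : ℝ := ‖(1 - P : Matrix (Fin n) (Fin n) ℂ)‖ with hb
  refine ⟨1 * (a * a + b * b) + c1 * (a * b) + c2 * (b * a), fun k => RS P σ ((k : ℂ) + 1), by positivity, fun k Y => ?_,
    fun k Y => ?_, fun k Y => ?_⟩
  · exact RS_right hP (g0 k) (g1 k) (g2 k) Y
  · exact RS_left hP (g0 k) (g1 k) (g2 k) Y
  · have hk' : (0 : ℝ) < (k : ℝ) + 1 := by positivity
    have hn : ‖((k : ℂ) + 1)⁻¹‖ = 1 / ((k : ℝ) + 1) := by
      rw [norm_inv]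
      have : ((k : ℂ) + 1) = (((k : ℝ) + 1 : ℝ) : ℂ) := by push_cast; rfl
      rw [this, Complex.norm_real, Real.norm_of_nonneg hk'.le, one_div]
    have h3 : ∀ A B : Matrix (Fin n) (Fin n) ℂ, ‖A * Y * B‖ ≤ (‖A‖ * ‖B‖) * ‖Y‖ := by
      intro A B
      calc ‖A * Y * B‖ ≤ ‖A * Y‖ * ‖B‖ := norm_mul_le _ _
        _ ≤ (‖A‖ * ‖Y‖) * ‖B‖ := mul_le_mul_of_nonneg_right (norm_mul_le _ _) (norm_nonneg _)
        _ = _ := by ring
    have e2 : ((k : ℂ) + 1 + σ)⁻¹ = ((k : ℂ) + 1 - -σ)⁻¹ := by rw [sub_neg_eq_add]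
    show ‖RS P σ ((k : ℂ) + 1) Y‖ ≤ _
    unfold RS
    rw [e2]
    refine (norm_add_le _ _).trans ?_
    have q1 : ‖((k : ℂ) + 1)⁻¹ • (P * Y * P + (1 - P) * Y * (1 - P))‖ ≤ 1 / ((k : ℝ) + 1) * ((a * a + b * b) * ‖Y‖) := by
      rw [norm_smul, hn]
      refine mul_le_mul_of_nonneg_left ((norm_add_le _ _).trans ?_) (by positivity)
      rw [add_mul]
      exact add_le_add (h3 _ _) (h3 _ _)
    have q2 : ‖((k : ℂ) + 1 - σ)⁻¹ • (P * Y * (1 - P))‖ ≤ c1 / ((k : ℝ) + 1) * ((a * b) * ‖Y‖) := by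
      rw [norm_smul]
      exact mul_le_mul (h1 k) (h3 _ _) (norm_nonneg _) (by positivity)
    have q3 : ‖((k : ℂ) + 1 - -σ)⁻¹ • ((1 - P) * Y * P)‖ ≤ c2 / ((k : ℝ) + 1) * ((b * a) * ‖Y‖) := by
      rw [norm_smul]
      exact mul_le_mul (h2 k) (h3 _ _) (norm_nonneg _) (by positivity)
    calc _ ≤ (1 / ((k : ℝ) + 1) * ((a * a + b * b) * ‖Y‖) + c1 / ((k : ℝ) + 1) * ((a * b) * ‖Y‖)) +
          c2 / ((k : ℝ) + 1) * ((b * a) * ‖Y‖) := add_le_add ((norm_add_le _ _).trans (add_le_add q1 q2)) q3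
      _ = _ := by ring

end semi

variable {N0 N1 : Matrix (Fin n) (Fin n) ℂ}

/-- existence -/
theorem exists_solR (h : NR N0) (N1 : Matrix (Fin n) (Fin n) ℂ) : ∃ H, Sol N0 N1 H := by
  obtain ⟨K, R, -, hR, -, -⟩ := h
  set H : ℕ → Matrix (Fin n) (Fin n) ℂ := fun k => Nat.rec (motive := fun _ => Matrix (Fin n) (Fin n) ℂ) 1
    (fun k X => R k ((k : ℂ) • X + (X * N0 - N0 * X) + N1 * X)) k with hH
  exact ⟨H, rfl, fun k => hR k _⟩

/-- growth -/
theorem growthR {H : ℕ → Matrix (Fin n) (Fin n) ℂ} (hH : Sol N0 N1 H) (h : NR N0) (i j : Fin n) : PG fun k => H k i j := by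
  obtain ⟨K, R, hK0, -, hR, hK⟩ := h
  set K1 : ℝ := K * ‖N1 - 1‖ with hK1
  have hK10 : 0 ≤ K1 := by positivity
  set q : ℕ := ⌈K1⌉₊ with hq
  have hstep : ∀ k, ‖H (k + 1)‖ ≤ (1 + K1 / ((k : ℝ) + 1)) * ‖H k‖ := by
    intro k
    have h2 : ((k : ℂ) + 1) • (H (k + 1) - H k) + ((H (k + 1) - H k) * N0 - N0 * (H (k + 1) - H k)) = (N1 - 1) * H k := by
      have h3 := hH.step k
      rw [sub_mul, mul_sub, sub_mul, one_mul]
      have h4 : ((k : ℂ) + 1) • (H (k + 1) - H k) = ((k : ℂ) + 1) • H (k + 1) - ((k : ℂ) • H k + H k) := by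
        rw [smul_sub, add_smul (k : ℂ) 1 (H k), one_smul]
      rw [h4]
      calc _ = (((k : ℂ) + 1) • H (k + 1) + (H (k + 1) * N0 - N0 * H (k + 1))) - (k : ℂ) • H k - H k
            - (H k * N0 - N0 * H k) := by abel
        _ = _ := by rw [h3]; abel
    have h5 := hR k (H (k + 1) - H k)
    rw [h2] at h5
    have h6 : ‖H (k + 1) - H k‖ ≤ K1 / ((k : ℝ) + 1) * ‖H k‖ := by
      rw [← h5]
      refine (hK k _).trans ?_
      calc K / ((k : ℝ) + 1) * ‖(N1 - 1) * H k‖ ≤ K / ((k : ℝ) + 1) * (‖N1 - 1‖ * ‖H k‖) :=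
            mul_le_mul_of_nonneg_left (norm_mul_le _ _) (by positivity)
        _ = _ := by rw [hK1]; ring
    calc ‖H (k + 1)‖ = ‖H k + (H (k + 1) - H k)‖ := by rw [add_sub_cancel]
      _ ≤ ‖H k‖ + ‖H (k + 1) - H k‖ := norm_add_le _ _
      _ ≤ _ := by linarith
  have hbd : ∀ k : ℕ, ‖H k‖ ≤ ‖H 0‖ * ((k : ℝ) + 1) ^ q := by
    intro k
    induction k with
    | zero => simp
    | succ k ih =>
      have hk : (0 : ℝ) < (k : ℝ) + 1 := by positivity
      have h1 : 1 + K1 / ((k : ℝ) + 1) ≤ (1 + 1 / ((k : ℝ) + 1)) ^ q := by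
        have h2 := one_add_mul_le_pow (a := 1 / ((k : ℝ) + 1)) (by have : (0 : ℝ) ≤ 1 / ((k : ℝ) + 1) := by positivity
                                                                   linarith) q
        refine le_trans ?_ h2
        have : K1 ≤ q := Nat.le_ceil _
        rw [mul_one_div]
        gcongr
      calc ‖H (k + 1)‖ ≤ (1 + K1 / ((k : ℝ) + 1)) * ‖H k‖ := hstep k
        _ ≤ (1 + 1 / ((k : ℝ) + 1)) ^ q * (‖H 0‖ * ((k : ℝ) + 1) ^ q) :=
          mul_le_mul h1 ih (norm_nonneg _) (by positivity)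
        _ = ‖H 0‖ * ((1 + 1 / ((k : ℝ) + 1)) * ((k : ℝ) + 1)) ^ q := by rw [mul_pow]; ring
        _ = ‖H 0‖ * (((k + 1 : ℕ) : ℝ) + 1) ^ q := by
          congr 2
          push_cast
          field_simp
  exact ⟨‖H 0‖, q, fun k => (entry_le _ i j).trans (hbd k)⟩

/-- the kernel -/
lemma nr_zero (h : NR N0) {k : ℕ} {Y : Matrix (Fin n) (Fin n) ℂ} (hY : ((k : ℂ) + 1) • Y + (Y * N0 - N0 * Y) = 0) : Y = 0 := by
  obtain ⟨K, R, -, -, hR, hK⟩ := h
  have h1 := hR k Y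
  rw [hY] at h1
  have h2 := hK k 0
  rw [norm_zero, mul_zero] at h2
  rw [← h1]
  exact norm_le_zero_iff.1 h2

end norm

variable {N0 N1 : Matrix (Fin n) (Fin n) ℂ} {H : ℕ → Matrix (Fin n) (Fin n) ℂ}

lemma HfR_zero (hH : Sol N0 N1 H) : Hf H 0 = 1 := by
  ext i j
  show ps (fun k => H k i j) 0 = _
  rw [ps_zero, hH.zero]

lemma HfR_an (hg : ∀ i j, PG fun k => H k i j) (i j : Fin n) :
    AnalyticOnNhd ℂ (fun z => Hf H z i j) (Metric.ball 0 1) := ps_an (hg i j)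

lemma HfR_ode (hH : Sol N0 N1 H) (hg : ∀ i j, PG fun k => H k i j) {z : ℂ} (hz : ‖z‖ < 1) (hz0 : z ≠ 0) :
    HD (Hf H) ((1 / z) • (N0 * Hf H z - Hf H z * N0) + (1 / (1 - z)) • (N1 * Hf H z)) z := by
  intro i j
  have hd : HasDerivAt (ps fun k => H k i j) (deriv (ps fun k => H k i j) z) z :=
    ((ps_an (hg i j)) z (by rwa [Metric.mem_ball, dist_zero_right])).differentiableAt.hasDerivAt
  have h1z : (1 - z) ≠ 0 := by
    intro h0
    have : z = 1 := (sub_eq_zero.1 h0).symm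
    rw [this, norm_one] at hz
    exact lt_irrefl _ hz
  refine hd.congr_deriv ?_
  -- the sequences
  have hgl : PG fun k => (N0 * H k) i j := by
    simp only [Matrix.mul_apply]
    exact PG.sum _ fun l _ => (hg l j).smul _
  have hgr : PG fun k => (H k * N0) i j := by
    simp only [Matrix.mul_apply]
    refine PG.sum _ fun l _ => ?_
    simp only [mul_comm (H _ i l)]
    exact (hg i l).smul _
  have hg1 : PG fun k => (N1 * H k) i j := by
    simp only [Matrix.mul_apply]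
    exact PG.sum _ fun l _ => (hg l j).smul _
  have el : ps (fun k => (N0 * H k) i j) z = (N0 * Hf H z) i j := by
    simp only [Matrix.mul_apply]
    rw [ps_sum _ (fun l _ => (hg l j).smul _) hz]
    exact Finset.sum_congr rfl fun l _ => ps_smul _ _
  have er : ps (fun k => (H k * N0) i j) z = (Hf H z * N0) i j := by
    simp only [Matrix.mul_apply, mul_comm (H _ i _)]
    rw [ps_sum _ (fun l _ => (hg i l).smul _) hz]
    refine Finset.sum_congr rfl fun l _ => ?_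
    rw [ps_smul, mul_comm]
    rfl
  have e1 : ps (fun k => (N1 * H k) i j) z = (N1 * Hf H z) i j := by
    simp only [Matrix.mul_apply]
    rw [ps_sum _ (fun l _ => (hg l j).smul _) hz]
    exact Finset.sum_congr rfl fun l _ => ps_smul _ _
  set D : ℕ → ℂ := fun k => (k : ℂ) * H k i j + ((H k * N0) i j + (-1) * (N0 * H k) i j) with hD
  have hDg : PG D := (hg i j).nat.add (hgr.add (hgl.smul (-1)))
  have eD : ps D z = z * deriv (ps fun k => H k i j) z + ((Hf H z * N0) i j - (N0 * Hf H z) i j) := by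
    rw [hD, ps_add (hg i j).nat (hgr.add (hgl.smul (-1))) hz, ps_add hgr (hgl.smul (-1)) hz, ps_smul, el, er,
      ← ps_deriv (hg i j) hz]
    ring
  have hD0 : D 0 = 0 := by
    rw [hD]
    simp only
    rw [hH.zero]
    simp
  have hDs : ∀ k, D (k + 1) = D k + (N1 * H k) i j := by
    intro k
    have := congrFun (congrFun (hH.step k) i) j
    simp only [Matrix.add_apply, Matrix.smul_apply, Matrix.sub_apply, smul_eq_mul] at this
    rw [hD]
    simp only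
    push_cast
    linear_combination this
  have hfin : ps D z = z * (ps D z + (N1 * Hf H z) i j) := by
    conv_lhs => rw [ps_shift hDg hz, hD0, zero_add]
    congr 1
    simp only [hDs]
    rw [ps_add hDg hg1 hz, e1]
  simp only [Matrix.add_apply, Matrix.smul_apply, Matrix.sub_apply, smul_eq_mul]
  rw [eD] at hfin
  have h2 : (1 - z) * (z * deriv (ps fun k => H k i j) z + ((Hf H z * N0) i j - (N0 * Hf H z) i j)) =
      z * (N1 * Hf H z) i j := by linear_combination hfin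
  field_simp
  linear_combination h2

/-! ### the inverse -/

/-- solutions of the adjoint recursion -/
def SolL (N0 N1 : Matrix (Fin n) (Fin n) ℂ) (W : ℕ → Matrix (Fin n) (Fin n) ℂ) : Prop :=
  Sol (-N0ᵀ) (-N1ᵀ) fun k => (W k)ᵀ

variable {W : ℕ → Matrix (Fin n) (Fin n) ℂ}

lemma solL_zero (hW : SolL N0 N1 W) : W 0 = 1 := by
  have h : (W 0)ᵀ = 1 := Sol.zero hW
  rw [← transpose_transpose (W 0), h, transpose_one]

lemma solL_step (hW : SolL N0 N1 W) (k : ℕ) : ((k : ℂ) + 1) • W (k + 1) + (W (k + 1) * N0 - N0 * W (k + 1)) =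
    (k : ℂ) • W k + (W k * N0 - N0 * W k) - W k * N1 := by
  have h1 := congrArg Matrix.transpose (Sol.step hW k)
  simp only [transpose_add, transpose_sub, transpose_smul, transpose_mul, transpose_transpose, transpose_neg, Matrix.mul_neg,
    Matrix.neg_mul] at h1
  have e1 : -(N0 * W (k + 1)) - -(W (k + 1) * N0) = W (k + 1) * N0 - N0 * W (k + 1) := by abel
  have e2 : -(N0 * W k) - -(W k * N0) = W k * N0 - N0 * W k := by abel
  rw [e1, e2] at h1
  rw [h1]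
  abel

lemma nrT (h : NR N0) : NR (-N0ᵀ) := by
  obtain ⟨K, R, hK0, h1, h2, h3⟩ := h
  have key := h3
  -- the norm of the transpose is bounded by `n` times the norm
  refine ⟨K * (n + 1) ^ 2, fun k Y => (R k Yᵀ)ᵀ, by positivity, fun k Y => ?_, fun k Y => ?_, fun k Y => ?_⟩
  · have h4 := congrArg Matrix.transpose (h1 k Yᵀ)
    simp only [transpose_add, transpose_sub, transpose_smul, transpose_mul, transpose_transpose] at h4
    rw [Matrix.mul_neg, Matrix.neg_mul]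
    have e1 : -((R k Yᵀ)ᵀ * N0ᵀ) - -(N0ᵀ * (R k Yᵀ)ᵀ) = N0ᵀ * (R k Yᵀ)ᵀ - (R k Yᵀ)ᵀ * N0ᵀ := by abel
    rw [e1]
    exact h4
  · have h4 := congrArg Matrix.transpose (h2 k Yᵀ)
    rw [transpose_transpose] at h4
    have e1 : (((k : ℂ) + 1) • Y + (Y * -N0ᵀ - -N0ᵀ * Y))ᵀ = ((k : ℂ) + 1) • Yᵀ + (Yᵀ * N0 - N0 * Yᵀ) := by
      simp only [transpose_add, transpose_sub, transpose_smul, transpose_mul, transpose_transpose, transpose_neg, Matrix.mul_neg,
        Matrix.neg_mul]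
      abel
    show (R k (((k : ℂ) + 1) • Y + (Y * -N0ᵀ - -N0ᵀ * Y))ᵀ)ᵀ = Y
    rw [e1]
    exact h4
  · have hT : ∀ X : Matrix (Fin n) (Fin n) ℂ, @norm _ Matrix.linftyOpNormedAddCommGroup.toNorm Xᵀ ≤
        (n + 1) * @norm _ Matrix.linftyOpNormedAddCommGroup.toNorm X := by
      intro X
      letI := Matrix.linftyOpNormedAddCommGroup (m := Fin n) (n := Fin n) (α := ℂ)
      have h5 : ∀ i : Fin n, ∑ j : Fin n, ‖Xᵀ i j‖ ≤ (n + 1) * ‖X‖ := by
        intro i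
        calc ∑ j : Fin n, ‖Xᵀ i j‖ ≤ ∑ _j : Fin n, ‖X‖ := Finset.sum_le_sum fun j _ => entry_le X j i
          _ = n * ‖X‖ := by rw [Finset.sum_const, Finset.card_univ, Fintype.card_fin, nsmul_eq_mul]
          _ ≤ _ := mul_le_mul_of_nonneg_right (by linarith) (norm_nonneg _)
      rw [Matrix.linfty_opNorm_def]
      have h6 : (Finset.univ.sup fun i : Fin n => ∑ j : Fin n, ‖Xᵀ i j‖₊) ≤ ((n : NNReal) + 1) * ‖X‖₊ := by
        refine Finset.sup_le fun i _ => ?_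
        have := h5 i
        rw [← NNReal.coe_le_coe]
        push_cast
        exact this
      have h7 := NNReal.coe_le_coe.2 h6
      push_cast at h7
      exact_mod_cast h7
    have hk' : (0 : ℝ) < (k : ℝ) + 1 := by positivity
    calc _ ≤ (n + 1) * @norm _ Matrix.linftyOpNormedAddCommGroup.toNorm (R k Yᵀ) := hT _
      _ ≤ (n + 1) * (K / ((k : ℝ) + 1) * @norm _ Matrix.linftyOpNormedAddCommGroup.toNorm Yᵀ) :=
        mul_le_mul_of_nonneg_left (h3 k _) (by positivity)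
      _ ≤ (n + 1) * (K / ((k : ℝ) + 1) * ((n + 1) * @norm _ Matrix.linftyOpNormedAddCommGroup.toNorm Y)) := by
        refine mul_le_mul_of_nonneg_left (mul_le_mul_of_nonneg_left (hT _) (by positivity)) (by positivity)
      _ = _ := by ring

/-- the product of the two formal solutions -/
theorem conv_eq (hH : Sol N0 N1 H) (hW : SolL N0 N1 W) (h : NR N0) (k : ℕ) :
    ∑ p ∈ Finset.HasAntidiagonal.antidiagonal k, W p.1 * H p.2 = if k = 0 then 1 else 0 := by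
  set dH : ℕ → Matrix (Fin n) (Fin n) ℂ := fun k => (k : ℂ) • H k + (H k * N0 - N0 * H k) with hdH
  set dW : ℕ → Matrix (Fin n) (Fin n) ℂ := fun k => (k : ℂ) • W k + (W k * N0 - N0 * W k) with hdW
  have h1 : ∀ k, dH (k + 1) = dH k + N1 * H k := fun k => by
    have := hH.step k
    rw [hdH]
    simp only
    push_cast
    exact this
  have h2 : ∀ k, dW (k + 1) = dW k - W k * N1 := fun k => by
    have := solL_step hW k
    rw [hdW]
    simp only
    push_cast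
    exact this
  have h10 : dH 0 = 0 := by rw [hdH]; simp [hH.zero]
  have h20 : dW 0 = 0 := by rw [hdW]; simp [solL_zero hW]
  set T : ℕ → Matrix (Fin n) (Fin n) ℂ := fun k => ∑ p ∈ Finset.HasAntidiagonal.antidiagonal k, W p.1 * H p.2 with hT
  set F : ℕ → Matrix (Fin n) (Fin n) ℂ := fun k =>
    (∑ p ∈ Finset.HasAntidiagonal.antidiagonal k, dW p.1 * H p.2) + ∑ p ∈ Finset.HasAntidiagonal.antidiagonal k, W p.1 * dH p.2 with hF
  have hFT : ∀ k, F k = (k : ℂ) • T k + (T k * N0 - N0 * T k) := by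
    intro k
    rw [hF, hT]
    simp only
    rw [← Finset.sum_add_distrib, Finset.smul_sum, Finset.sum_mul, Finset.mul_sum, ← Finset.sum_sub_distrib,
      ← Finset.sum_add_distrib]
    refine Finset.sum_congr rfl fun p hp => ?_
    have hk : (k : ℂ) = (p.1 : ℂ) + (p.2 : ℂ) := by
      rw [← Finset.HasAntidiagonal.mem_antidiagonal.1 hp]
      push_cast
      rfl
    rw [hdW, hdH]
    simp only
    rw [hk, add_mul, sub_mul, mul_add, mul_sub, Matrix.smul_mul, Matrix.mul_smul]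
    simp only [Matrix.mul_assoc]
    module
  have hF0 : ∀ k, F k = 0 := by
    intro k
    induction k with
    | zero =>
      rw [hF]
      simp [h10, h20]
    | succ k ih =>
      rw [hF]
      simp only
      rw [Finset.Nat.sum_antidiagonal_succ, Finset.Nat.sum_antidiagonal_succ']
      simp only [h1, h2, h10, h20, Matrix.zero_mul, Matrix.mul_zero, zero_add]
      rw [← Finset.sum_add_distrib]
      rw [hF] at ih
      simp only at ih
      rw [← Finset.sum_add_distrib] at ih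
      rw [← ih]
      refine Finset.sum_congr rfl fun p _ => ?_
      rw [sub_mul, mul_add, Matrix.mul_assoc]
      abel
  rcases k with _ | k
  · simp [hH.zero, solL_zero hW]
  · rw [if_neg (Nat.succ_ne_zero k)]
    have h3 := hFT (k + 1)
    rw [hF0] at h3
    push_cast at h3
    exact nr_zero h h3.symm

lemma ps_mul {c d : ℕ → ℂ} (hc : PG c) (hd : PG d) {z : ℂ} (hz : ‖z‖ < 1) :
    ps c z * ps d z = ps (fun k => ∑ p ∈ Finset.HasAntidiagonal.antidiagonal k, c p.1 * d p.2) z := by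
  have h1 : Summable fun k => ‖c k * z ^ k‖ := (hc.summable (norm_nonneg z) hz).congr fun k => by rw [norm_mul, norm_pow]
  have h2 : Summable fun k => ‖d k * z ^ k‖ := (hd.summable (norm_nonneg z) hz).congr fun k => by rw [norm_mul, norm_pow]
  unfold ps
  rw [tsum_mul_tsum_eq_tsum_sum_antidiagonal_of_summable_norm h1 h2]
  refine tsum_congr fun k => ?_
  rw [Finset.sum_mul]
  refine Finset.sum_congr rfl fun p hp => ?_
  rw [← Finset.HasAntidiagonal.mem_antidiagonal.1 hp, pow_add]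
  ring

lemma growthL (hW : SolL N0 N1 W) (h : NR N0) (i j : Fin n) : PG fun k => W k i j := growthR hW (nrT h) j i

lemma PG_conv {c d : ℕ → ℂ} (hc : PG c) (hd : PG d) : PG fun k => ∑ p ∈ Finset.HasAntidiagonal.antidiagonal k, c p.1 * d p.2 := by
  obtain ⟨C, p, hC⟩ := hc
  obtain ⟨D, q, hD⟩ := hd
  have hC0 := PG.nonneg hC
  have hD0 := PG.nonneg hD
  refine ⟨C * D, p + q + 1, fun k => ?_⟩
  refine (norm_sum_le _ _).trans ?_
  have h1 : ∀ r ∈ Finset.HasAntidiagonal.antidiagonal k, ‖c r.1 * d r.2‖ ≤ C * D * ((k : ℝ) + 1) ^ (p + q) := by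
    intro r hr
    have hr' := Finset.HasAntidiagonal.mem_antidiagonal.1 hr
    have e1 : ((r.1 : ℝ) + 1) ≤ (k : ℝ) + 1 := by
      have : r.1 ≤ k := by omega
      have : (r.1 : ℝ) ≤ k := by exact_mod_cast this
      linarith
    have e2 : ((r.2 : ℝ) + 1) ≤ (k : ℝ) + 1 := by
      have : r.2 ≤ k := by omega
      have : (r.2 : ℝ) ≤ k := by exact_mod_cast this
      linarith
    rw [norm_mul, pow_add]
    calc ‖c r.1‖ * ‖d r.2‖ ≤ (C * ((k : ℝ) + 1) ^ p) * (D * ((k : ℝ) + 1) ^ q) := by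
          refine mul_le_mul ((hC _).trans ?_) ((hD _).trans ?_) (norm_nonneg _) (by positivity)
          · exact mul_le_mul_of_nonneg_left (pow_le_pow_left₀ (by positivity) e1 _) hC0
          · exact mul_le_mul_of_nonneg_left (pow_le_pow_left₀ (by positivity) e2 _) hD0
      _ = _ := by ring
  refine (Finset.sum_le_sum h1).trans ?_
  rw [Finset.sum_const, Finset.Nat.card_antidiagonal, nsmul_eq_mul, pow_succ]
  push_cast
  exact le_of_eq (by ring)

/-- the inverse -/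
theorem Hf_inv (hH : Sol N0 N1 H) (hW : SolL N0 N1 W) (h : NR N0) {z : ℂ} (hz : ‖z‖ < 1) : Hf W z * Hf H z = 1 := by
  have hgH := growthR hH h
  have hgW := growthL hW h
  ext i j
  rw [Matrix.mul_apply]
  unfold Hf
  simp only [Matrix.of_apply]
  have h1 : ∀ l, ps (fun k => W k i l) z * ps (fun k => H k l j) z =
      ps (fun k => ∑ p ∈ Finset.HasAntidiagonal.antidiagonal k, W p.1 i l * H p.2 l j) z := fun l => ps_mul (hgW i l) (hgH l j) hz
  simp only [h1]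
  rw [← ps_sum _ (fun l _ => PG_conv (hgW i l) (hgH l j)) hz]
  have h2 : (fun k => ∑ l, ∑ p ∈ Finset.HasAntidiagonal.antidiagonal k, W p.1 i l * H p.2 l j) = fun k => if k = 0 then (1 : Matrix (Fin n) (Fin n) ℂ) i j else 0 := by
    funext k
    rw [Finset.sum_comm]
    have h3 := congrFun (congrFun (conv_eq hH hW h k) i) j
    rw [Matrix.sum_apply] at h3
    simp only [Matrix.mul_apply] at h3
    rw [h3]
    split_ifs <;> rfl
  rw [h2]
  unfold ps
  rw [tsum_eq_single 0]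
  · simp
  · intro k hk
    simp [hk]

end Q207.HM
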