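import Mathlib

/-!
# Polynomials determined by bilinear expressions in their derivatives
-/

set_option autoImplicit false

open Polynomial

namespace Q207.HM

/-- the exponential series -/
noncomputable def ex (c : ℂ) : PowerSeries ℂ := PowerSeries.mk fun k => c ^ k / (k.factorial : ℂ)

/-- the substitution of `-X` -/
noncomputable def rn (F : PowerSeries ℂ) : PowerSeries ℂ := PowerSeries.evalNegHom F

lemma coeff_rn (F : PowerSeries ℂ) (k : ℕ) : PowerSeries.coeff k (rn F) = (-1) ^ k * PowerSeries.coeff k F := by
  unfold rn PowerSeries.evalNegHom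
  rw [PowerSeries.coeff_rescale]

lemma rn_mul (F G : PowerSeries ℂ) : rn (F * G) = rn F * rn G := map_mul _ _ _

lemma rn_ex (c : ℂ) : rn (ex c) = ex (-c) := by
  ext k
  rw [coeff_rn]
  unfold ex
  rw [PowerSeries.coeff_mk, PowerSeries.coeff_mk, neg_pow c]
  ring

lemma ex_zero : ex 0 = 1 := by
  ext k
  unfold ex
  rw [PowerSeries.coeff_mk, PowerSeries.coeff_one]
  rcases k with _ | k
  · simp
  · simp

lemma d_ex (c : ℂ) : PowerSeries.derivative ℂ (ex c) = PowerSeries.C c * ex c := by
  ext k
  rw [PowerSeries.coeff_derivative, PowerSeries.coeff_C_mul]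
  unfold ex
  rw [PowerSeries.coeff_mk, PowerSeries.coeff_mk, Nat.factorial_succ]
  have h1 : (k.factorial : ℂ) ≠ 0 := by exact_mod_cast k.factorial_ne_zero
  have h2 : ((k : ℂ) + 1) ≠ 0 := by exact_mod_cast Nat.succ_ne_zero k
  push_cast
  field_simp
  ring

lemma ps_const {F : PowerSeries ℂ} (h : PowerSeries.derivative ℂ F = 0) : F = PowerSeries.C (PowerSeries.coeff 0 F) := by
  ext k
  rcases k with _ | k
  · simp
  · have h1 := congrArg (PowerSeries.coeff k) h
    rw [PowerSeries.coeff_derivative, map_zero] at h1
    have h2 : ((k : ℂ) + 1) ≠ 0 := by exact_mod_cast Nat.succ_ne_zero k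
    rw [(mul_eq_zero.1 h1).resolve_right h2, PowerSeries.coeff_C, if_neg (Nat.succ_ne_zero k)]

lemma ex_mul (a b : ℂ) : ex a * ex b = ex (a + b) := by
  have key : ∀ c : ℂ, ex c * ex (-c) = 1 := by
    intro c
    have h1 : PowerSeries.derivative ℂ (ex c * ex (-c)) = 0 := by
      rw [Derivation.leibniz, d_ex, d_ex, smul_eq_mul, smul_eq_mul, map_neg]
      ring
    rw [ps_const h1]
    unfold ex
    rw [PowerSeries.coeff_mul]
    simp
  have h1 : PowerSeries.derivative ℂ (ex a * ex b * ex (-(a + b))) = 0 := by
    rw [Derivation.leibniz, Derivation.leibniz, d_ex, d_ex, d_ex, smul_eq_mul, smul_eq_mul, smul_eq_mul, map_neg, map_add]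
    simp only [smul_eq_mul]
    ring
  have h2 := ps_const h1
  have h3 : PowerSeries.coeff 0 (ex a * ex b * ex (-(a + b))) = 1 := by
    rw [PowerSeries.coeff_zero_eq_constantCoeff_apply, map_mul, map_mul]
    have : ∀ c, PowerSeries.constantCoeff (ex c) = 1 := by
      intro c
      rw [← PowerSeries.coeff_zero_eq_constantCoeff_apply]
      unfold ex
      simp
    rw [this, this, this]
    norm_num
  rw [h3, map_one] at h2
  calc ex a * ex b = ex a * ex b * (ex (-(a + b)) * ex (a + b)) := by rw [mul_comm (ex (-(a + b))), key, mul_one]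
    _ = (ex a * ex b * ex (-(a + b))) * ex (a + b) := by ring
    _ = _ := by rw [h2, one_mul]

/-- the recursion determines the series -/
lemma ps_uniq {F G : PowerSeries ℂ} (hF0 : PowerSeries.coeff 0 F = 1) (hG0 : PowerSeries.coeff 0 G = 1)
    (hF1 : PowerSeries.coeff 1 F = 0) (hG1 : PowerSeries.coeff 1 G = 0)
    (h : rn F * PowerSeries.derivative ℂ (PowerSeries.derivative ℂ F) = rn G * PowerSeries.derivative ℂ (PowerSeries.derivative ℂ G)) :
    F = G := by
  have key : ∀ k, ∀ j ≤ k, PowerSeries.coeff j F = PowerSeries.coeff j G := by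
    intro k
    induction k with
    | zero =>
      intro j hj
      rw [Nat.le_zero.1 hj, hF0, hG0]
    | succ k ih =>
      intro j hj
      rcases Nat.lt_or_ge j (k + 1) with h1 | h1
      · exact ih j (by omega)
      · have hjk : j = k + 1 := by omega
        subst hjk
        rcases k with _ | k
        · rw [zero_add, hF1, hG1]
        · have h2 := congrArg (PowerSeries.coeff k) h
          have hdd : ∀ (P : PowerSeries ℂ) (b : ℕ), PowerSeries.coeff b (PowerSeries.derivative ℂ (PowerSeries.derivative ℂ P)) =
              PowerSeries.coeff (b + 2) P * ((b : ℂ) + 2) * ((b : ℂ) + 1) := by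
            intro P b
            rw [PowerSeries.coeff_derivative, PowerSeries.coeff_derivative]
            push_cast
            ring
          rw [PowerSeries.coeff_mul, PowerSeries.coeff_mul, ← Finset.add_sum_erase _ _ (a := ((0, k) : ℕ × ℕ))
            (Finset.HasAntidiagonal.mem_antidiagonal.2 (by simp)), ← Finset.add_sum_erase _ _ (a := ((0, k) : ℕ × ℕ))
            (Finset.HasAntidiagonal.mem_antidiagonal.2 (by simp))] at h2
          have h3 : ∀ p ∈ (Finset.HasAntidiagonal.antidiagonal k).erase (0, k),
              PowerSeries.coeff p.1 (rn F) * PowerSeries.coeff p.2 (PowerSeries.derivative ℂ (PowerSeries.derivative ℂ F)) =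
              PowerSeries.coeff p.1 (rn G) * PowerSeries.coeff p.2 (PowerSeries.derivative ℂ (PowerSeries.derivative ℂ G)) := by
            intro p hp
            rw [Finset.mem_erase, Finset.HasAntidiagonal.mem_antidiagonal] at hp
            have hp2 : p.2 < k := by
              rcases Nat.eq_zero_or_pos p.1 with h4 | h4
              · exact absurd (Prod.ext h4 (by omega)) hp.1
              · omega
            rw [coeff_rn, coeff_rn, hdd, hdd, ih p.1 (by omega), ih (p.2 + 2) (by omega)]
          rw [Finset.sum_congr rfl h3] at h2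
          have h4 := add_right_cancel h2
          simp only [coeff_rn, hdd, pow_zero, one_mul, hF0, hG0] at h4
          have h5 : ((k : ℂ) + 2) ≠ 0 := by exact_mod_cast (by omega : k + 2 ≠ 0)
          have h6 : ((k : ℂ) + 1) ≠ 0 := by exact_mod_cast (by omega : k + 1 ≠ 0)
          exact mul_right_cancel₀ h5 (mul_right_cancel₀ h6 h4)
  ext k
  exact key k k le_rfl

/-- the bilinear expression -/
noncomputable def Dp (f : ℂ[X]) : ℂ[X] :=
  f.comp (-X) * (derivative (derivative f) - C (2 * (derivative f).eval 0) * derivative f + C ((derivative f).eval 0 ^ 2) * f)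

lemma coe_comp_neg (f : ℂ[X]) : ((f.comp (-X) : ℂ[X]) : PowerSeries ℂ) = rn (f : PowerSeries ℂ) := by
  ext k
  rw [coeff_rn, Polynomial.coeff_coe, Polynomial.coeff_coe]
  have h1 : (-X : ℂ[X]) = C (-1) * X := by simp
  rw [h1, Polynomial.comp_C_mul_X_coeff]
  ring

lemma coe_der (f : ℂ[X]) : ((derivative f : ℂ[X]) : PowerSeries ℂ) = PowerSeries.derivative ℂ (f : PowerSeries ℂ) := by
  ext k
  rw [Polynomial.coeff_coe, Polynomial.coeff_derivative, PowerSeries.coeff_derivative, Polynomial.coeff_coe]

/-- **Uniqueness, first form.** -/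
theorem uniqL {f g : ℂ[X]} (hf : f.eval 0 = 1) (hg : g.eval 0 = 1) (h : Dp f = Dp g) : f = g := by
  set m := (derivative f).eval 0 with hm
  set m' := (derivative g).eval 0 with hm'
  set F : PowerSeries ℂ := (f : PowerSeries ℂ) * ex (-m) with hF
  set G : PowerSeries ℂ := (g : PowerSeries ℂ) * ex (-m') with hG
  have hdd : ∀ (p : ℂ[X]) (c : ℂ), PowerSeries.derivative ℂ (PowerSeries.derivative ℂ ((p : PowerSeries ℂ) * ex (-c))) =
      ((derivative (derivative p) - C (2 * c) * derivative p + C (c ^ 2) * p : ℂ[X]) : PowerSeries ℂ) * ex (-c) := by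
    intro p c
    have h1 : PowerSeries.derivative ℂ ((p : PowerSeries ℂ) * ex (-c)) =
        ((derivative p - C c * p : ℂ[X]) : PowerSeries ℂ) * ex (-c) := by
      rw [Derivation.leibniz, d_ex, smul_eq_mul, smul_eq_mul, Polynomial.coe_sub, Polynomial.coe_mul, coe_der, Polynomial.coe_C,
        map_neg]
      ring
    rw [h1, Derivation.leibniz, d_ex, smul_eq_mul, smul_eq_mul, ← coe_der]
    simp only [Polynomial.coe_sub, Polynomial.coe_add, Polynomial.coe_mul, Polynomial.coe_C, Polynomial.derivative_sub,
      Polynomial.derivative_mul, Polynomial.derivative_C, zero_mul, zero_add, map_neg, map_mul, map_pow, Polynomial.coe_pow]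
    have h2 : (PowerSeries.C (2 : ℂ)) = 2 := by rw [map_ofNat]
    rw [h2]
    ring
  have hrel : ∀ (p : ℂ[X]) (c : ℂ), rn ((p : PowerSeries ℂ) * ex (-c)) *
      PowerSeries.derivative ℂ (PowerSeries.derivative ℂ ((p : PowerSeries ℂ) * ex (-c))) =
      ((p.comp (-X) * (derivative (derivative p) - C (2 * c) * derivative p + C (c ^ 2) * p) : ℂ[X]) : PowerSeries ℂ) := by
    intro p c
    rw [hdd, rn_mul, rn_ex, neg_neg, Polynomial.coe_mul (p.comp (-X)), coe_comp_neg]
    have h1 : ex c * ex (-c) = 1 := by rw [ex_mul, add_neg_cancel, ex_zero]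
    linear_combination (rn (p : PowerSeries ℂ) *
      ((derivative (derivative p) - C (2 * c) * derivative p + C (c ^ 2) * p : ℂ[X]) : PowerSeries ℂ)) * h1
  have hc0 : ∀ (p : ℂ[X]) (c : ℂ), PowerSeries.coeff 0 ((p : PowerSeries ℂ) * ex (-c)) = p.eval 0 := by
    intro p c
    rw [PowerSeries.coeff_zero_eq_constantCoeff_apply, map_mul, ← PowerSeries.coeff_zero_eq_constantCoeff_apply,
      ← PowerSeries.coeff_zero_eq_constantCoeff_apply, Polynomial.coeff_coe, Polynomial.coeff_zero_eq_eval_zero]
    unfold ex
    simp
  have hc1 : ∀ (p : ℂ[X]) (c : ℂ), PowerSeries.coeff 1 ((p : PowerSeries ℂ) * ex (-c)) = (derivative p).eval 0 - c * p.eval 0 := by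
    intro p c
    have h1 := congrArg (PowerSeries.coeff 0) (Derivation.leibniz (PowerSeries.derivative ℂ) (p : PowerSeries ℂ) (ex (-c)))
    rw [PowerSeries.coeff_derivative, d_ex, smul_eq_mul, smul_eq_mul, ← coe_der] at h1
    have h2 : PowerSeries.coeff (0 + 1) ((p : PowerSeries ℂ) * ex (-c)) = PowerSeries.coeff 1 ((p : PowerSeries ℂ) * ex (-c)) := rfl
    rw [h2] at h1
    simp only [Nat.cast_zero, zero_add, mul_one] at h1
    rw [h1, map_add, PowerSeries.coeff_zero_eq_constantCoeff_apply, PowerSeries.coeff_zero_eq_constantCoeff_apply, map_mul, map_mul,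
      map_mul]
    simp only [← PowerSeries.coeff_zero_eq_constantCoeff_apply, Polynomial.coeff_coe, Polynomial.coeff_zero_eq_eval_zero]
    unfold ex
    simp
    ring
  have hFG : F = G := by
    refine ps_uniq (by rw [hF, hc0, hf]) (by rw [hG, hc0, hg]) (by rw [hF, hc1, hf, ← hm, mul_one, sub_self])
      (by rw [hG, hc1, hg, ← hm', mul_one, sub_self]) ?_
    rw [hF, hG, hrel, hrel]
    exact congrArg _ h
  -- the quotient
  have hfg : (f : PowerSeries ℂ) = (g : PowerSeries ℂ) * ex (m - m') := by
    have h1 : (f : PowerSeries ℂ) * ex (-m) * ex m = (g : PowerSeries ℂ) * ex (-m') * ex m := by rw [← hF, ← hG, hFG]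
    rw [mul_assoc, mul_assoc, ex_mul, ex_mul, neg_add_cancel, ex_zero, mul_one, neg_add_eq_sub] at h1
    exact h1
  have hf0 : f ≠ 0 := by
    rintro rfl
    rw [Polynomial.eval_zero] at hf
    exact zero_ne_one hf
  have hg0 : g ≠ 0 := by
    rintro rfl
    rw [Polynomial.eval_zero] at hg
    exact zero_ne_one hg
  have hpoly : derivative f * g - f * derivative g = C (m - m') * (f * g) := by
    apply Polynomial.coe_injective
    rw [Polynomial.coe_sub, Polynomial.coe_mul, Polynomial.coe_mul, Polynomial.coe_mul, Polynomial.coe_mul, coe_der, coe_der,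
      Polynomial.coe_C]
    have h1 := congrArg (PowerSeries.derivative ℂ) hfg
    rw [Derivation.leibniz, d_ex, smul_eq_mul, smul_eq_mul] at h1
    rw [h1]
    linear_combination (-(PowerSeries.derivative ℂ (g : PowerSeries ℂ)) - PowerSeries.C (m - m') * (g : PowerSeries ℂ)) * hfg
  have hmm : m - m' = 0 := by
    by_contra hne
    have h1 : (derivative f * g - f * derivative g).degree < (f * g).degree := by
      refine lt_of_le_of_lt (Polynomial.degree_sub_le _ _) (max_lt ?_ ?_)
      · rw [Polynomial.degree_mul, Polynomial.degree_mul]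
        exact WithBot.add_lt_add_right (by rw [Ne, Polynomial.degree_eq_bot]; exact hg0) (Polynomial.degree_derivative_lt hf0)
      · rw [Polynomial.degree_mul, Polynomial.degree_mul]
        exact WithBot.add_lt_add_left (by rw [Ne, Polynomial.degree_eq_bot]; exact hf0) (Polynomial.degree_derivative_lt hg0)
    rw [hpoly, Polynomial.degree_C_mul hne] at h1
    exact lt_irrefl _ h1
  rw [hmm, ex_zero, mul_one] at hfg
  exact Polynomial.coe_injective _ hfg

/-- the second bilinear expression -/
noncomputable def Gp (f : ℂ[X]) : ℂ[X] := derivative f ^ 2 - f * derivative (derivative f)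

/-- **Uniqueness, second form.** -/
theorem uniqO {f g : ℂ[X]} (hf : f.coeff 0 = 1) (hg : g.coeff 0 = 1) (hf1 : f.coeff 1 = 0) (hg1 : g.coeff 1 = 0)
    (h : Gp f = Gp g) : f = g := by
  have key : ∀ k, ∀ j ≤ k, f.coeff j = g.coeff j := by
    intro k
    induction k with
    | zero =>
      intro j hj
      rw [Nat.le_zero.1 hj, hf, hg]
    | succ k ih =>
      intro j hj
      rcases Nat.lt_or_ge j (k + 1) with h1 | h1
      · exact ih j (by omega)
      · have hjk : j = k + 1 := by omega
        subst hjk
        rcases k with _ | k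
        · rw [zero_add, hf1, hg1]
        · have h2 := congrArg (fun p => Polynomial.coeff p k) h
          unfold Gp at h2
          simp only [Polynomial.coeff_sub, pow_two, Polynomial.coeff_mul] at h2
          have hd : ∀ (P : ℂ[X]) (b : ℕ), (derivative P).coeff b = P.coeff (b + 1) * ((b : ℂ) + 1) := fun P b =>
            Polynomial.coeff_derivative _ _
          have hdd : ∀ (P : ℂ[X]) (b : ℕ), (derivative (derivative P)).coeff b = P.coeff (b + 2) * ((b : ℂ) + 2) * ((b : ℂ) + 1) := by
            intro P b
            rw [hd, hd]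
            push_cast
            ring
          have h3 : ∀ p ∈ Finset.HasAntidiagonal.antidiagonal k, (derivative f).coeff p.1 * (derivative f).coeff p.2 =
              (derivative g).coeff p.1 * (derivative g).coeff p.2 := by
            intro p hp
            rw [Finset.HasAntidiagonal.mem_antidiagonal] at hp
            rw [hd, hd, hd, hd, ih (p.1 + 1) (by omega), ih (p.2 + 1) (by omega)]
          rw [Finset.sum_congr rfl h3, ← Finset.add_sum_erase (Finset.HasAntidiagonal.antidiagonal k)
            (fun p => f.coeff p.1 * (derivative (derivative f)).coeff p.2) (a := ((0, k) : ℕ × ℕ))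
            (Finset.HasAntidiagonal.mem_antidiagonal.2 (by simp)), ← Finset.add_sum_erase (Finset.HasAntidiagonal.antidiagonal k)
            (fun p => g.coeff p.1 * (derivative (derivative g)).coeff p.2) (a := ((0, k) : ℕ × ℕ))
            (Finset.HasAntidiagonal.mem_antidiagonal.2 (by simp))] at h2
          have h4 : ∀ p ∈ (Finset.HasAntidiagonal.antidiagonal k).erase (0, k),
              f.coeff p.1 * (derivative (derivative f)).coeff p.2 = g.coeff p.1 * (derivative (derivative g)).coeff p.2 := by
            intro p hp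
            rw [Finset.mem_erase, Finset.HasAntidiagonal.mem_antidiagonal] at hp
            have hp2 : p.2 < k := by
              rcases Nat.eq_zero_or_pos p.1 with h4 | h4
              · exact absurd (Prod.ext h4 (by omega)) hp.1
              · omega
            rw [hdd, hdd, ih p.1 (by omega), ih (p.2 + 2) (by omega)]
          rw [Finset.sum_congr rfl h4] at h2
          simp only [hf, hg, one_mul, hdd] at h2
          have h5 : f.coeff (k + 2) * ((k : ℂ) + 2) * ((k : ℂ) + 1) = g.coeff (k + 2) * ((k : ℂ) + 2) * ((k : ℂ) + 1) := by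
            linear_combination -h2
          have h6 : ((k : ℂ) + 2) ≠ 0 := by exact_mod_cast (by omega : k + 2 ≠ 0)
          have h7 : ((k : ℂ) + 1) ≠ 0 := by exact_mod_cast (by omega : k + 1 ≠ 0)
          exact mul_right_cancel₀ h6 (mul_right_cancel₀ h7 h5)
  ext k
  exact key k k le_rfl

end Q207.HM
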