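import Pool.Agent.Q207.HM.Gou
import Pool.Agent.Q207.HM.Uni
import Pool.Agent.Q207.HM.Den

/-!
# Separation of the blocks
-/

set_option autoImplicit false

open Matrix

namespace Q207.HM

open Pool.Agent.Y123.GN (bf ro ro_mul ro_add_left ro_add_right ro_smul_left ro_smul_right sym_bf)
open Pool.Agent.Y119.HY (E E_exp E_add E_zero E_mul_neg E_isom)

/-- the kinds of blocks: linear, orthogonal, symplectic -/
inductive Ki | l | o | s
  deriving DecidableEq

/-- the data of a block -/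
structure Blk (n : ℕ) where
  A : Matrix (Fin n) (Fin n) ℂ
  J : Matrix (Fin n) (Fin n) ℂ
  u : Fin n → ℂ
  φ : Fin n → ℂ
  ξ : ℂ
  k : Ki

/-- the conditions -/
structure BlkOK {n : ℕ} (b : Blk n) : Prop where
  nil : b.A ^ n = 0
  two : 2 ≤ n
  cu : (b.A ^ (n - 1)) *ᵥ b.u ≠ 0
  cf : b.φ ᵥ* (b.A ^ (n - 1)) ≠ 0
  l : b.k = Ki.l → b.φ ⬝ᵥ b.u = 1 ∧ b.ξ ≠ 0 ∧ b.ξ ^ 2 ≠ 1
  o : b.k = Ki.o → b.φ ⬝ᵥ b.u = 1 ∧ b.ξ = -1 ∧ b.Jᵀ = b.J ∧ b.J.det ≠ 0 ∧ b.Aᵀ * b.J + b.J * b.A = 0 ∧
    bf b.J b.u b.u ≠ 0 ∧ b.u ᵥ* b.J = bf b.J b.u b.u • b.φ ∧ 3 ≤ n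
  s : b.k = Ki.s → b.Jᵀ = -b.J ∧ b.J.det ≠ 0 ∧ b.Aᵀ * b.J + b.J * b.A = 0 ∧ ∃ c : ℂ, c ≠ 0 ∧ b.φ = c • (b.u ᵥ* b.J)

variable {n : ℕ}

/-- the monodromy at one -/
def Rb (b : Blk n) : Matrix (Fin n) (Fin n) ℂ :=
  if b.k = Ki.s then 1 + vecMulVec b.u b.φ else 1 + (b.ξ - 1) • vecMulVec b.u b.φ

/-- its inverse -/
noncomputable def Ri (b : Blk n) : Matrix (Fin n) (Fin n) ℂ :=
  if b.k = Ki.s then 1 - vecMulVec b.u b.φ else 1 + (b.ξ⁻¹ - 1) • vecMulVec b.u b.φ

/-- the moments -/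
noncomputable def mp (A : Matrix (Fin n) (Fin n) ℂ) (v w : Fin n → ℂ) : Polynomial ℂ :=
  ∑ l ∈ Finset.range n, Polynomial.C ((w ⬝ᵥ ((A ^ l) *ᵥ v)) / (l.factorial : ℂ)) * Polynomial.X ^ l

lemma mp_eval (A : Matrix (Fin n) (Fin n) ℂ) (v w : Fin n → ℂ) (s : ℂ) : (mp A v w).eval s = w ⬝ᵥ (E A s *ᵥ v) := by
  unfold mp E
  rw [Polynomial.eval_finsetSum, Matrix.sum_mulVec, dotProduct_sum]
  refine Finset.sum_congr rfl fun l _ => ?_
  rw [Polynomial.eval_mul, Polynomial.eval_C, Polynomial.eval_pow, Polynomial.eval_X, smul_mulVec, dotProduct_smul, smul_eq_mul]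
  ring

lemma mp_coeff (A : Matrix (Fin n) (Fin n) ℂ) (v w : Fin n → ℂ) (l : ℕ) :
    (mp A v w).coeff l = if l < n then (w ⬝ᵥ ((A ^ l) *ᵥ v)) / (l.factorial : ℂ) else 0 := by
  unfold mp
  rw [Polynomial.finsetSum_coeff]
  simp only [Polynomial.coeff_C_mul, Polynomial.coeff_X_pow]
  split_ifs with h
  · rw [Finset.sum_eq_single l]
    · rw [if_pos rfl, mul_one]
    · intro b _ hb
      rw [if_neg hb.symm, mul_zero]
    · intro h'
      exact absurd (Finset.mem_range.2 h) h'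
  · refine Finset.sum_eq_zero fun b hb => ?_
    rw [if_neg, mul_zero]
    rintro rfl
    exact h (Finset.mem_range.1 hb)

lemma mp_der {A : Matrix (Fin n) (Fin n) ℂ} (hA : A ^ n = 0) (v w : Fin n → ℂ) :
    Polynomial.derivative (mp A v w) = mp A (A *ᵥ v) w := by
  ext l
  rw [Polynomial.coeff_derivative, mp_coeff, mp_coeff, mulVec_mulVec, ← pow_succ]
  by_cases h : l + 1 < n
  · rw [if_pos h, if_pos (by omega), Nat.factorial_succ]
    have h1 : (l.factorial : ℂ) ≠ 0 := by exact_mod_cast l.factorial_ne_zero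
    have h2 : ((l : ℂ) + 1) ≠ 0 := by exact_mod_cast Nat.succ_ne_zero l
    push_cast
    field_simp
  · rw [if_neg h, zero_mul]
    split_ifs with h3
    · have : l + 1 = n := by omega
      rw [this, hA, zero_mulVec, dotProduct_zero, zero_div]
    · rfl

/-- the polynomial of the block -/
noncomputable def fb (b : Blk n) : Polynomial ℂ := mp b.A b.u b.φ

/-- the first moment -/
noncomputable def m1 (b : Blk n) : ℂ := b.φ ⬝ᵥ (b.A *ᵥ b.u)

/-- the vectors of the components -/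
noncomputable def wv (b : Blk n) : Fin n → ℂ := b.A *ᵥ b.u - m1 b • b.u
/-- the covectors of the components -/
noncomputable def ps' (b : Blk n) : Fin n → ℂ := b.φ ᵥ* b.A - m1 b • b.φ

lemma fb_zero {b : Blk n} (hb : BlkOK b) : (fb b).eval 0 = b.φ ⬝ᵥ b.u := by
  unfold fb
  rw [mp_eval, E_zero hb.nil, one_mulVec]

lemma fb_der {b : Blk n} (hb : BlkOK b) : (Polynomial.derivative (fb b)).eval 0 = m1 b := by
  unfold fb m1
  rw [mp_der hb.nil, mp_eval, E_zero hb.nil, one_mulVec]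

lemma E_comm {A : Matrix (Fin n) (Fin n) ℂ} (s : ℂ) : A * E A s = E A s * A := by
  unfold E
  rw [Finset.mul_sum, Finset.sum_mul]
  refine Finset.sum_congr rfl fun l _ => ?_
  rw [Matrix.mul_smul, Matrix.smul_mul, ← pow_succ, ← pow_succ']

lemma psEw {b : Blk n} (hb : BlkOK b) (s : ℂ) : ps' b ⬝ᵥ (E b.A s *ᵥ wv b) =
    (Polynomial.derivative (Polynomial.derivative (fb b)) -
      Polynomial.C (2 * (Polynomial.derivative (fb b)).eval 0) * Polynomial.derivative (fb b) +
      Polynomial.C ((Polynomial.derivative (fb b)).eval 0 ^ 2) * fb b).eval s := by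
  rw [fb_der hb]
  unfold fb
  rw [mp_der hb.nil, mp_der hb.nil]
  simp only [Polynomial.eval_add, Polynomial.eval_sub, Polynomial.eval_mul, Polynomial.eval_C, mp_eval]
  unfold ps' wv
  simp only [mulVec_sub, mulVec_smul, sub_dotProduct, dotProduct_sub, smul_dotProduct, dotProduct_smul, smul_eq_mul]
  have e1 : ∀ x : Fin n → ℂ, (b.φ ᵥ* b.A) ⬝ᵥ (E b.A s *ᵥ x) = b.φ ⬝ᵥ (E b.A s *ᵥ (b.A *ᵥ x)) := by
    intro x
    rw [← dotProduct_mulVec, mulVec_mulVec, mulVec_mulVec, E_comm]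
  rw [e1, e1]
  ring

/-- the bilinear expression of a block -/
lemma Dp_eval {b : Blk n} (hb : BlkOK b) (s : ℂ) : (Dp (fb b)).eval s =
    (ps' b ⬝ᵥ (E b.A s *ᵥ wv b)) * (b.φ ⬝ᵥ (E b.A (-s) *ᵥ b.u)) := by
  rw [psEw hb, ← mp_eval]
  unfold Dp
  rw [Polynomial.eval_mul, Polynomial.eval_comp, Polynomial.eval_neg, Polynomial.eval_X, mul_comm]
  rfl

lemma Dp_neg (f : Polynomial ℂ) : Dp (f.comp (-Polynomial.X)) = (Dp f).comp (-Polynomial.X) := by
  unfold Dp
  have h1 : Polynomial.derivative (f.comp (-Polynomial.X)) = -((Polynomial.derivative f).comp (-Polynomial.X)) := by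
    rw [Polynomial.derivative_comp]
    simp
  have h2 : Polynomial.derivative (Polynomial.derivative (f.comp (-Polynomial.X))) =
      (Polynomial.derivative (Polynomial.derivative f)).comp (-Polynomial.X) := by
    rw [h1, Polynomial.derivative_neg, Polynomial.derivative_comp]
    simp
  have h3 : (-((Polynomial.derivative f).comp (-Polynomial.X))).eval 0 = -(Polynomial.derivative f).eval 0 := by
    rw [Polynomial.eval_neg, Polynomial.eval_comp]
    simp
  rw [h2, h1, h3, Polynomial.mul_comp, Polynomial.add_comp, Polynomial.sub_comp, Polynomial.mul_comp, Polynomial.mul_comp,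
    Polynomial.C_comp, Polynomial.C_comp]
  rw [show (2 : ℂ) * -(Polynomial.derivative f).eval 0 = -(2 * (Polynomial.derivative f).eval 0) by ring, neg_sq]
  simp only [map_neg]
  ring

/-! ### the operator of the monodromy -/

/-- conjugation by the monodromy at one -/
noncomputable def Tb (b : Blk n) : Module.End ℂ (Matrix (Fin n) (Fin n) ℂ) :=
  (LinearMap.mulLeft ℂ (Rb b)).comp (LinearMap.mulRight ℂ (Ri b))

lemma Tb_apply (b : Blk n) (X : Matrix (Fin n) (Fin n) ℂ) : Tb b X = Rb b * X * Ri b := by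
  unfold Tb
  simp [Matrix.mul_assoc]

lemma aeval_eig {V : Type*} [AddCommGroup V] [Module ℂ V] {T : Module.End ℂ V} {x : V} {μ : ℂ} (h : T x = μ • x) (p : Polynomial ℂ) :
    Polynomial.aeval T p x = p.eval μ • x := by
  induction p using Polynomial.induction_on' with
  | add p q hp hq => rw [map_add, LinearMap.add_apply, hp, hq, Polynomial.eval_add, add_smul]
  | monomial k a =>
    rw [Polynomial.aeval_monomial, Polynomial.eval_monomial]
    have h1 : ∀ k : ℕ, (T ^ k) x = μ ^ k • x := by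
      intro k
      induction k with
      | zero => simp
      | succ k ih => rw [pow_succ', Module.End.mul_apply, ih, map_smul, h, smul_smul, pow_succ]
    rw [Module.End.mul_apply, h1, Module.algebraMap_end_apply, smul_smul]

section lo

variable {b : Blk n} (hk : b.k ≠ Ki.s) (h1 : b.φ ⬝ᵥ b.u = 1) (hξ : b.ξ ≠ 0)

include hk h1 hξ in
/-- the action of polynomials in the monodromy, semisimple case -/
lemma aeval_lo (p : Polynomial ℂ) (hp : p.eval 1 = 0) : Polynomial.aeval (Tb b) p b.A =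
    p.eval b.ξ • vecMulVec b.u (ps' b) + p.eval b.ξ⁻¹ • vecMulVec (wv b) b.φ := by
  set P := vecMulVec b.u b.φ with hP
  have hPP : P * P = P := QQ h1
  set a := vecMulVec b.u (ps' b) with ha
  set c := vecMulVec (wv b) b.φ with hc
  have hR : Rb b = 1 + (b.ξ - 1) • P := by unfold Rb; rw [if_neg hk]
  have hR' : Ri b = 1 + (b.ξ⁻¹ - 1) • P := by unfold Ri; rw [if_neg hk]
  have hu1 : ps' b ⬝ᵥ b.u = 0 := by
    unfold ps' m1
    rw [sub_dotProduct, smul_dotProduct, h1, ← dotProduct_mulVec, smul_eq_mul, mul_one, sub_self]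
  have hw1 : b.φ ⬝ᵥ wv b = 0 := by
    unfold wv m1
    rw [dotProduct_sub, dotProduct_smul, h1, smul_eq_mul, mul_one, sub_self]
  have Pa : P * a = a := by rw [hP, ha, vecMulVec_mul_vecMulVec, h1, one_smul]
  have aP : a * P = 0 := by rw [hP, ha, vecMulVec_mul_vecMulVec, hu1, zero_smul, vecMulVec_zero]
  have Pc : P * c = 0 := by rw [hP, hc, vecMulVec_mul_vecMulVec, hw1, zero_smul, vecMulVec_zero]
  have cP : c * P = c := by rw [hP, hc, vecMulVec_mul_vecMulVec, h1, one_smul]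
  have hTa : Tb b a = b.ξ • a := by
    rw [Tb_apply, hR, hR', Matrix.add_mul, Matrix.one_mul, Matrix.smul_mul, Pa, Matrix.mul_add, Matrix.mul_one, Matrix.mul_smul,
      Matrix.add_mul, Matrix.smul_mul, aP]
    module
  have hTc : Tb b c = b.ξ⁻¹ • c := by
    rw [Tb_apply, hR, hR', Matrix.add_mul, Matrix.one_mul, Matrix.smul_mul, Pc, smul_zero, add_zero, Matrix.mul_add, Matrix.mul_one,
      Matrix.mul_smul, cP]
    module
  -- the fixed part
  set d := b.A - a - c with hd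
  have hPA : P * b.A = a + m1 b • P := by
    rw [ha, hP, vecMulVec_mul]
    unfold ps'
    rw [vecMulVec_sub, vecMulVec_smul]
    module
  have hAP : b.A * P = c + m1 b • P := by
    rw [hc, hP, mul_vecMulVec]
    unfold wv
    rw [sub_vecMulVec, smul_vecMulVec]
    module
  have Pd : P * d = m1 b • P := by
    rw [hd, Matrix.mul_sub, Matrix.mul_sub, hPA, Pa, Pc]
    module
  have dP : d * P = m1 b • P := by
    rw [hd, Matrix.sub_mul, Matrix.sub_mul, hAP, aP, cP]
    module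
  have hTd : Tb b d = (1 : ℂ) • d := by
    rw [Tb_apply, hR, hR', Matrix.add_mul, Matrix.one_mul, Matrix.smul_mul, Pd, Matrix.mul_add, Matrix.mul_one, Matrix.mul_smul,
      Matrix.add_mul, Matrix.smul_mul, Matrix.smul_mul, dP, hPP]
    have e2 : b.ξ * b.ξ⁻¹ = 1 := mul_inv_cancel₀ hξ
    have e3 : d + (b.ξ - 1) • m1 b • P + (b.ξ⁻¹ - 1) • (m1 b • P + (b.ξ - 1) • m1 b • P) =
        d + ((b.ξ * b.ξ⁻¹ - 1) * m1 b) • P := by module
    rw [e3, e2]
    module
  have hA : b.A = d + (a + c) := by rw [hd]; abel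
  have h2 := aeval_eig hTa p
  have h3 := aeval_eig hTc p
  have h4 := aeval_eig hTd p
  rw [hp, zero_smul] at h4
  calc Polynomial.aeval (Tb b) p b.A = Polynomial.aeval (Tb b) p (d + (a + c)) := by rw [← hA]
    _ = _ := by rw [map_add, map_add, h2, h3, h4, zero_add]

end lo

/-- the cube vanishes in the unipotent case -/
lemma aeval_s {b : Blk n} (hk : b.k = Ki.s) (h0 : b.φ ⬝ᵥ b.u = 0) (q : Polynomial ℂ) (X : Matrix (Fin n) (Fin n) ℂ) :
    Polynomial.aeval (Tb b) (q * (Polynomial.X - 1) ^ 3) X = 0 := by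
  set N := vecMulVec b.u b.φ with hN
  have hNN : N * N = 0 := by rw [hN, vecMulVec_mul_vecMulVec, h0, zero_smul, vecMulVec_zero]
  have hR : Rb b = 1 + N := by unfold Rb; rw [if_pos hk]
  have hR' : Ri b = 1 - N := by unfold Ri; rw [if_pos hk]
  have h1 : ∀ Y, (Tb b - 1) Y = N * Y - Y * N - N * Y * N := by
    intro Y
    rw [LinearMap.sub_apply, Module.End.one_apply, Tb_apply, hR, hR', Matrix.add_mul, Matrix.one_mul, Matrix.mul_sub, Matrix.mul_one,
      Matrix.add_mul]
    abel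
  have h2 : ∀ Y, (Tb b - 1) ((Tb b - 1) ((Tb b - 1) Y)) = 0 := by
    intro Y
    rw [h1, h1, h1]
    simp only [Matrix.mul_sub, Matrix.sub_mul]
    have e1 : ∀ Z : Matrix (Fin n) (Fin n) ℂ, N * (N * Z) = 0 := fun Z => by rw [← Matrix.mul_assoc, hNN, Matrix.zero_mul]
    simp only [Matrix.mul_assoc, e1, hNN, Matrix.mul_zero, Matrix.zero_mul]
    abel
  rw [map_mul, Module.End.mul_apply, map_pow, map_sub, Polynomial.aeval_X, map_one, pow_succ, pow_two, Module.End.mul_apply,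
    Module.End.mul_apply, h2, map_zero]

/-! ### the Lie algebra of the family -/

section fam

variable {ι : Type*} {n : ι → ℕ}

/-- conjugation by the monodromy at one for the family -/
noncomputable def TT (b : ∀ i, Blk (n i)) : Module.End ℂ (∀ i, Matrix (Fin (n i)) (Fin (n i)) ℂ) :=
  LinearMap.pi fun i => (Tb (b i)).comp (LinearMap.proj i)

lemma TT_apply (b : ∀ i, Blk (n i)) (X : ∀ i, Matrix (Fin (n i)) (Fin (n i)) ℂ) (i : ι) : TT b X i = Tb (b i) (X i) := rfl

lemma aeval_TT (b : ∀ i, Blk (n i)) (p : Polynomial ℂ) (X : ∀ i, Matrix (Fin (n i)) (Fin (n i)) ℂ) (i : ι) :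
    (Polynomial.aeval (TT b) p X) i = Polynomial.aeval (Tb (b i)) p (X i) := by
  induction p using Polynomial.induction_on' with
  | add p q hp hq => rw [map_add, LinearMap.add_apply, Pi.add_apply, hp, hq, map_add, LinearMap.add_apply]
  | monomial k a =>
    rw [Polynomial.aeval_monomial, Polynomial.aeval_monomial]
    have h1 : ∀ k : ℕ, ((TT b ^ k) X) i = (Tb (b i) ^ k) (X i) := by
      intro k
      induction k with
      | zero => rfl
      | succ k ih => rw [pow_succ', Module.End.mul_apply, TT_apply, ih, pow_succ', Module.End.mul_apply]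
    rw [Module.End.mul_apply, Module.End.mul_apply, Module.algebraMap_end_apply, Module.algebraMap_end_apply, Pi.smul_apply, h1]

/-- the properties of the Lie algebra of the family -/
structure GG (b : ∀ i, Blk (n i)) (g : Submodule ℂ (∀ i, Matrix (Fin (n i)) (Fin (n i)) ℂ)) : Prop where
  br : ∀ X ∈ g, ∀ Y ∈ g, X * Y - Y * X ∈ g
  ad : ∀ X ∈ g, (fun i => (b i).A * X i - X i * (b i).A) ∈ g
  AdE : ∀ X ∈ g, ∀ s : ℂ, (fun i => E (b i).A s * X i * E (b i).A (-s)) ∈ g
  AdR : ∀ X ∈ g, TT b X ∈ g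
  one : (fun i => (b i).A) - TT b (fun i => (b i).A) ∈ g
  nsp : (fun i => if (b i).k = Ki.s then vecMulVec (b i).u (b i).φ else 0) ∈ g

variable {b : ∀ i, Blk (n i)} {g : Submodule ℂ (∀ i, Matrix (Fin (n i)) (Fin (n i)) ℂ)}

lemma aeval_mem (hT : ∀ X ∈ g, TT b X ∈ g) (p : Polynomial ℂ) {X : ∀ i, Matrix (Fin (n i)) (Fin (n i)) ℂ} (hX : X ∈ g) :
    Polynomial.aeval (TT b) p X ∈ g := by
  induction p using Polynomial.induction_on' with
  | add p q hp hq =>
    rw [map_add, LinearMap.add_apply]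
    exact g.add_mem hp hq
  | monomial k a =>
    rw [Polynomial.aeval_monomial, Module.End.mul_apply, Module.algebraMap_end_apply]
    refine g.smul_mem _ ?_
    induction k with
    | zero => exact hX
    | succ k ih =>
      rw [pow_succ', Module.End.mul_apply]
      exact hT _ ih

lemma aevalA_mem (hg : GG b g) (p : Polynomial ℂ) : Polynomial.aeval (TT b) (p * (Polynomial.X - 1)) (fun i => (b i).A) ∈ g := by
  rw [map_mul, Module.End.mul_apply]
  refine aeval_mem hg.AdR p ?_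
  rw [map_sub, Polynomial.aeval_X, map_one, LinearMap.sub_apply, Module.End.one_apply]
  have := g.neg_mem hg.one
  rwa [neg_sub] at this

end fam

end Q207.HM
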