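import Pool.Agent.Q207.HM.Sep

/-!
# Separation of the blocks, the elements
-/

set_option autoImplicit false

open Matrix

namespace Q207.HM

open Pool.Agent.Y123.GN (bf ro ro_mul ro_add_left ro_add_right ro_smul_left ro_smul_right sym_bf)
open Pool.Agent.Y119.HY (E E_exp E_add E_zero E_mul_neg E_isom)

section one

variable {n : ℕ} {b : Blk n}

lemma phi_ne (hb : BlkOK b) : b.φ ≠ 0 := by
  intro h
  apply hb.cf
  rw [h, zero_vecMul]

lemma u_ne (hb : BlkOK b) : b.u ≠ 0 := by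
  intro h
  apply hb.cu
  rw [h, mulVec_zero]

lemma s_zero (hb : BlkOK b) (hk : b.k = Ki.s) : b.φ ⬝ᵥ b.u = 0 := by
  obtain ⟨hJ, -, -, c, -, hφ⟩ := hb.s hk
  have := self_bf hJ b.u
  unfold bf at this
  rw [hφ, smul_dotProduct, ← dotProduct_mulVec, this, smul_zero]

lemma ps_ne (hb : BlkOK b) : ps' b ≠ 0 := by
  intro h
  have h1 : b.φ ᵥ* b.A = m1 b • b.φ := sub_eq_zero.1 h
  have h2 : ∀ k : ℕ, b.φ ᵥ* (b.A ^ k) = m1 b ^ k • b.φ := by
    intro k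
    induction k with
    | zero => rw [pow_zero, vecMul_one, pow_zero, one_smul]
    | succ k ih => rw [pow_succ, ← vecMul_vecMul, ih, smul_vecMul, h1, smul_smul, pow_succ]
  have h3 := h2 n
  rw [hb.nil, vecMul_zero] at h3
  have h4 : m1 b = 0 := by
    rcases smul_eq_zero.1 h3.symm with h5 | h5
    · exact eq_zero_of_pow_eq_zero h5
    · exact absurd h5 (phi_ne hb)
  apply hb.cf
  rw [h2, h4, zero_pow (by have := hb.two; omega), zero_smul]

lemma wv_ne (hb : BlkOK b) : wv b ≠ 0 := by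
  intro h
  have h1 : b.A *ᵥ b.u = m1 b • b.u := sub_eq_zero.1 h
  have h2 : ∀ k : ℕ, (b.A ^ k) *ᵥ b.u = m1 b ^ k • b.u := by
    intro k
    induction k with
    | zero => rw [pow_zero, one_mulVec, pow_zero, one_smul]
    | succ k ih => rw [pow_succ', ← mulVec_mulVec, ih, mulVec_smul, h1, smul_smul, pow_succ]
  have h3 := h2 n
  rw [hb.nil, zero_mulVec] at h3
  have h4 : m1 b = 0 := by
    rcases smul_eq_zero.1 h3.symm with h5 | h5
    · exact eq_zero_of_pow_eq_zero h5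
    · exact absurd h5 (u_ne hb)
  apply hb.cu
  rw [h2, h4, zero_pow (by have := hb.two; omega), zero_smul]

lemma ps_u (h1 : b.φ ⬝ᵥ b.u = 1) : ps' b ⬝ᵥ b.u = 0 := by
  unfold ps' m1
  rw [sub_dotProduct, smul_dotProduct, h1, ← dotProduct_mulVec, smul_eq_mul, mul_one, sub_self]

lemma phi_w (h1 : b.φ ⬝ᵥ b.u = 1) : b.φ ⬝ᵥ wv b = 0 := by
  unfold wv m1
  rw [dotProduct_sub, dotProduct_smul, h1, smul_eq_mul, mul_one, sub_self]

/-- skewness -/
lemma skewA {J A : Matrix (Fin n) (Fin n) ℂ} (hAJ : Aᵀ * J + J * A = 0) (x y : Fin n → ℂ) : bf J (A *ᵥ x) y = -bf J x (A *ᵥ y) := by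
  unfold bf
  have h3 : J * A = -(Aᵀ * J) := eq_neg_of_add_eq_zero_right hAJ
  rw [mulVec_mulVec, h3, neg_mulVec, dotProduct_neg, neg_neg, ← mulVec_mulVec, dotProduct_mulVec x, vecMul_transpose]

section o

variable (hb : BlkOK b) (hk : b.k = Ki.o)

include hb hk

lemma o_phi : b.φ = (bf b.J b.u b.u)⁻¹ • (b.u ᵥ* b.J) := by
  obtain ⟨-, -, -, -, -, h1, h2, -⟩ := hb.o hk
  rw [h2, smul_smul, inv_mul_cancel₀ h1, one_smul]

lemma o_phi_dot (x : Fin n → ℂ) : b.φ ⬝ᵥ x = (bf b.J b.u b.u)⁻¹ * bf b.J b.u x := by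
  have h := o_phi hb hk
  conv_lhs => rw [h]
  rw [smul_dotProduct, smul_eq_mul]
  unfold bf
  rw [← dotProduct_mulVec b.u b.J x]

lemma o_m1 : m1 b = 0 := by
  obtain ⟨-, -, hJ, -, hAJ, -, -, -⟩ := hb.o hk
  unfold m1
  rw [o_phi_dot hb hk]
  have h2 := skewA hAJ b.u b.u
  rw [sym_bf hJ b.u (b.A *ᵥ b.u)] at h2
  have h3 : (2 : ℂ) * bf b.J b.u (b.A *ᵥ b.u) = 0 := by linear_combination h2
  rw [(mul_eq_zero.1 h3).resolve_left two_ne_zero, mul_zero]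

lemma o_wv : wv b = b.A *ᵥ b.u := by
  unfold wv
  rw [o_m1 hb hk, zero_smul, sub_zero]

lemma o_sum : vecMulVec b.u (ps' b) + vecMulVec (wv b) b.φ = -(bf b.J b.u b.u)⁻¹ • WW b.J b.u (b.A *ᵥ b.u) := by
  obtain ⟨-, -, hJ, -, hAJ, -, -, -⟩ := hb.o hk
  have h1 : ps' b = -(bf b.J b.u b.u)⁻¹ • ((b.A *ᵥ b.u) ᵥ* b.J) := by
    unfold ps'
    rw [o_m1 hb hk, zero_smul, sub_zero]
    conv_lhs => rw [o_phi hb hk]
    rw [smul_vecMul, vecMul_vecMul]
    have h3 : b.J * b.A = -(b.Aᵀ * b.J) := eq_neg_of_add_eq_zero_right hAJ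
    rw [h3, vecMul_neg, ← vecMul_vecMul, vecMul_transpose, smul_neg, neg_smul]
  rw [h1, o_wv hb hk]
  conv_lhs => rw [o_phi hb hk]
  unfold WW ro
  rw [vecMulVec_smul, vecMulVec_smul]
  module

lemma o_perp : bf b.J b.u (b.A *ᵥ b.u) = 0 := by
  have h1 := o_m1 hb hk
  unfold m1 at h1
  rw [o_phi_dot hb hk] at h1
  obtain ⟨-, -, -, -, -, h2, -, -⟩ := hb.o hk
  exact (mul_eq_zero.1 h1).resolve_left (inv_ne_zero h2)

end o

/-- the double bracket with the conjugate of a matrix of rank one -/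
lemma dbl_E {A : Matrix (Fin n) (Fin n) ℂ} {a β c d : Fin n → ℂ} (h : β ⬝ᵥ a = 0) (s : ℂ) :
    vecMulVec a β * (vecMulVec a β * (E A s * vecMulVec c d * E A (-s)) - (E A s * vecMulVec c d * E A (-s)) * vecMulVec a β) -
      (vecMulVec a β * (E A s * vecMulVec c d * E A (-s)) - (E A s * vecMulVec c d * E A (-s)) * vecMulVec a β) * vecMulVec a β =
      (-2 * ((β ⬝ᵥ (E A s *ᵥ c)) * (d ⬝ᵥ (E A (-s) *ᵥ a)))) • vecMulVec a β := by
  rw [dbl h]
  congr 2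
  rw [mul_vecMulVec, vecMulVec_mul, vecMulVec_mulVec]
  have : ∀ (x : ℂ) (v : Fin n → ℂ), MulOpposite.op x • v = x • v := fun x v => op_smul_eq_smul _ _
  rw [this, dotProduct_smul, smul_eq_mul, ← dotProduct_mulVec, mul_comm]

end one

section fam

variable {ι : Type*} {n : ι → ℕ} {b : ∀ i, Blk (n i)} {g : Submodule ℂ (∀ i, Matrix (Fin (n i)) (Fin (n i)) ℂ)}

/-- the elements given by polynomials -/
noncomputable def EE (b : ∀ i, Blk (n i)) (q : Polynomial ℂ) : ∀ i, Matrix (Fin (n i)) (Fin (n i)) ℂ :=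
  Polynomial.aeval (TT b) (q * (Polynomial.X - 1) ^ 3) fun i => (b i).A

lemma EE_mem (hg : GG b g) (q : Polynomial ℂ) : EE b q ∈ g := by
  unfold EE
  have e : q * (Polynomial.X - 1) ^ 3 = (q * (Polynomial.X - 1) ^ 2) * (Polynomial.X - 1) := by ring
  rw [e]
  exact aevalA_mem hg _

lemma EE_lo {i : ι} (hk : (b i).k ≠ Ki.s) (h1 : (b i).φ ⬝ᵥ (b i).u = 1) (hξ : (b i).ξ ≠ 0) (q : Polynomial ℂ) :
    EE b q i = (q.eval (b i).ξ * ((b i).ξ - 1) ^ 3) • vecMulVec (b i).u (ps' (b i)) +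
      (q.eval (b i).ξ⁻¹ * ((b i).ξ⁻¹ - 1) ^ 3) • vecMulVec (wv (b i)) (b i).φ := by
  unfold EE
  rw [aeval_TT, aeval_lo hk h1 hξ _ (by simp)]
  simp

lemma EE_s {i : ι} (hb : BlkOK (b i)) (hk : (b i).k = Ki.s) (q : Polynomial ℂ) : EE b q i = 0 := by
  unfold EE
  rw [aeval_TT, aeval_s hk (s_zero hb hk)]

/-- the data of a block which is not unipotent -/
lemma lo_data {i : ι} (hb : BlkOK (b i)) (hk : (b i).k ≠ Ki.s) : (b i).φ ⬝ᵥ (b i).u = 1 ∧ (b i).ξ ≠ 0 ∧ (b i).ξ ≠ 1 := by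
  rcases hkk : (b i).k with _ | _ | _
  · obtain ⟨h1, h2, h3⟩ := hb.l hkk
    exact ⟨h1, h2, fun h => h3 (by rw [h]; norm_num)⟩
  · obtain ⟨h1, h2, -⟩ := hb.o hkk
    exact ⟨h1, by rw [h2]; norm_num, by rw [h2]; norm_num⟩
  · exact absurd hkk hk

/-- the set of good elements -/
def gd {n : ℕ} (b : Blk n) : Set (Matrix (Fin n) (Fin n) ℂ) :=
  match b.k with
  | Ki.l => goodL n
  | Ki.o => goodO b.J b.u
  | Ki.s => goodS b.J

lemma good_a {n : ℕ} {b : Blk n} (hb : BlkOK b) (h1 : b.φ ⬝ᵥ b.u = 1) {c : ℂ} (hc : c ≠ 0) : c • vecMulVec b.u (ps' b) ∈ goodL n :=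
  ⟨c • b.u, ps' b, by rw [dotProduct_smul, ps_u h1, smul_zero], smul_ne_zero hc (u_ne hb), ps_ne hb, by rw [smul_vecMulVec]⟩

/-- a linear block can be separated from blocks with other eigenvalues -/
lemma sep_l (hg : GG b g) {i j : ι} (hi : BlkOK (b i)) (hki : (b i).k = Ki.l) (hj : BlkOK (b j))
    (h : (b j).k = Ki.s ∨ (b i).ξ ≠ (b j).ξ ∧ (b i).ξ ≠ (b j).ξ⁻¹) : ∃ Y ∈ g, Y j = 0 ∧ Y i ∈ gd (b i) := by
  obtain ⟨h1, h2, h3⟩ := hi.l hki
  have hξ1 : (b i).ξ ≠ 1 := fun h => h3 (by rw [h]; norm_num)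
  have hξ2 : (b i).ξ - (b i).ξ⁻¹ ≠ 0 := by
    intro h4
    apply h3
    have h5 : (b i).ξ * (b i).ξ⁻¹ = 1 := mul_inv_cancel₀ h2
    have h6 : (b i).ξ = (b i).ξ⁻¹ := sub_eq_zero.1 h4
    rw [pow_two]
    nth_rewrite 2 [h6]
    exact h5
  have hgd : gd (b i) = goodL (n i) := by unfold gd; rw [hki]
  rw [hgd]
  by_cases hkj : (b j).k = Ki.s
  · refine ⟨EE b (Polynomial.X - Polynomial.C (b i).ξ⁻¹), EE_mem hg _, EE_s hj hkj _, ?_⟩
    rw [EE_lo (by rw [hki]; decide) h1 h2]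
    simp only [Polynomial.eval_sub, Polynomial.eval_X, Polynomial.eval_C, sub_self, zero_mul, zero_smul, add_zero]
    exact good_a hi h1 (mul_ne_zero hξ2 (pow_ne_zero _ (sub_ne_zero.2 hξ1)))
  · obtain ⟨h4, h5⟩ := h.resolve_left hkj
    obtain ⟨h6, h7, h8⟩ := lo_data hj hkj
    refine ⟨EE b ((Polynomial.X - Polynomial.C (b i).ξ⁻¹) * (Polynomial.X - Polynomial.C (b j).ξ) *
      (Polynomial.X - Polynomial.C (b j).ξ⁻¹)), EE_mem hg _, ?_, ?_⟩
    · rw [EE_lo hkj h6 h7]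
      simp
    · rw [EE_lo (by rw [hki]; decide) h1 h2]
      simp only [Polynomial.eval_mul, Polynomial.eval_sub, Polynomial.eval_X, Polynomial.eval_C, sub_self, zero_mul, zero_smul,
        add_zero]
      exact good_a hi h1 (mul_ne_zero (mul_ne_zero (mul_ne_zero hξ2 (sub_ne_zero.2 h4)) (sub_ne_zero.2 h5))
        (pow_ne_zero _ (sub_ne_zero.2 hξ1)))

lemma good_o {n : ℕ} {b : Blk n} (hb : BlkOK b) (hk : b.k = Ki.o) {c : ℂ} (hc : c ≠ 0) :
    c • vecMulVec b.u (ps' b) + c • vecMulVec (wv b) b.φ ∈ goodO b.J b.u := by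
  obtain ⟨-, -, -, -, -, h6, -, -⟩ := hb.o hk
  refine ⟨(c * -(bf b.J b.u b.u)⁻¹) • (b.A *ᵥ b.u), smul_ne_zero (mul_ne_zero hc (neg_ne_zero.2 (inv_ne_zero h6))) ?_, ?_, ?_⟩
  · rw [← o_wv hb hk]
    exact wv_ne hb
  · rw [bf_smul_right, o_perp hb hk, mul_zero]
  · rw [← smul_add, o_sum hb hk, WW_smul_right, smul_smul]

/-- an orthogonal block can be separated from blocks of other kinds -/
lemma sep_o (hg : GG b g) {i j : ι} (hi : BlkOK (b i)) (hki : (b i).k = Ki.o) (hj : BlkOK (b j)) (hkj : (b j).k ≠ Ki.o) :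
    ∃ Y ∈ g, Y j = 0 ∧ Y i ∈ gd (b i) := by
  obtain ⟨h1, h2, -⟩ := hi.o hki
  have hgd : gd (b i) = goodO (b i).J (b i).u := by unfold gd; rw [hki]
  have hm : ((-1 : ℂ))⁻¹ = -1 := by norm_num
  rw [hgd]
  rcases hkk : (b j).k with _ | _ | _
  · obtain ⟨h6, h7, h8⟩ := hj.l hkk
    refine ⟨EE b ((Polynomial.X - Polynomial.C (b j).ξ) * (Polynomial.X - Polynomial.C (b j).ξ⁻¹)), EE_mem hg _, ?_, ?_⟩
    · rw [EE_lo (by rw [hkk]; decide) h6 h7]
      simp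
    · rw [EE_lo (by rw [hki]; decide) h1 (by rw [h2]; norm_num), h2, hm]
      simp only [Polynomial.eval_mul, Polynomial.eval_sub, Polynomial.eval_X, Polynomial.eval_C]
      refine good_o hi hki (mul_ne_zero (mul_ne_zero ?_ ?_) (by norm_num))
      · intro h0
        apply h8
        have : (b j).ξ = -1 := by linear_combination -h0
        rw [this]
        norm_num
      · intro h0
        apply h8
        have h3 : (b j).ξ⁻¹ = -1 := by linear_combination -h0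
        have h4 : (b j).ξ = -1 := by rw [← inv_inv (b j).ξ, h3, hm]
        rw [h4]
        norm_num
  · exact absurd hkk hkj
  · refine ⟨EE b 1, EE_mem hg _, EE_s hj hkk _, ?_⟩
    rw [EE_lo (by rw [hki]; decide) h1 (by rw [h2]; norm_num), h2, hm]
    exact good_o hi hki (by simp; norm_num)

lemma good_s {n : ℕ} {b : Blk n} (hb : BlkOK b) (hk : b.k = Ki.s) {c : ℂ} (hc : c ≠ 0) : c • vecMulVec b.u b.φ ∈ goodS b.J := by
  obtain ⟨-, -, -, c', hc', hφ⟩ := hb.s hk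
  refine ⟨b.u, c * c', u_ne hb, mul_ne_zero hc hc', ?_⟩
  unfold ro
  rw [hφ, vecMulVec_smul, smul_smul]

/-- a symplectic block can be separated from blocks of other kinds -/
lemma sep_s (hg : GG b g) {i j : ι} (hi : BlkOK (b i)) (hki : (b i).k = Ki.s) (hkj : (b j).k ≠ Ki.s) :
    ∃ Y ∈ g, Y j = 0 ∧ Y i ∈ gd (b i) := by
  have hgd : gd (b i) = goodS (b i).J := by unfold gd; rw [hki]
  refine ⟨_, hg.nsp, by simp only [if_neg hkj], ?_⟩
  simp only [if_pos hki]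
  rw [hgd]
  have := good_s hi hki one_ne_zero
  rwa [one_smul] at this

/-- two symplectic blocks -/
lemma sep_ss (hg : GG b g) {i j : ι} (hi : BlkOK (b i)) (hki : (b i).k = Ki.s) (hj : BlkOK (b j)) (hkj : (b j).k = Ki.s)
    (h : fb (b i) * (fb (b i)).comp (-Polynomial.X) ≠ fb (b j) * (fb (b j)).comp (-Polynomial.X)) :
    ∃ Y ∈ g, Y j = 0 ∧ Y i ∈ gd (b i) := by
  have hgd : gd (b i) = goodS (b i).J := by unfold gd; rw [hki]
  rw [hgd]
  obtain ⟨s, hs⟩ : ∃ s : ℂ, (fb (b i)).eval s * (fb (b i)).eval (-s) ≠ (fb (b j)).eval s * (fb (b j)).eval (-s) := by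
    by_contra h0
    push Not at h0
    apply h
    refine Polynomial.funext fun s => ?_
    simp only [Polynomial.eval_mul, Polynomial.eval_comp, Polynomial.eval_neg, Polynomial.eval_X]
    exact h0 s
  set N : ∀ i, Matrix (Fin (n i)) (Fin (n i)) ℂ := fun i => if (b i).k = Ki.s then vecMulVec (b i).u (b i).φ else 0 with hN
  have hNg : N ∈ g := hg.nsp
  have h1 := hg.AdE _ hNg s
  set X : ∀ i, Matrix (Fin (n i)) (Fin (n i)) ℂ := fun i => E (b i).A s * N i * E (b i).A (-s) with hX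
  have h2 : N * (N * X - X * N) - (N * X - X * N) * N ∈ g := hg.br _ hNg _ (hg.br _ hNg _ h1)
  have hval : ∀ l, BlkOK (b l) → (b l).k = Ki.s → (N * (N * X - X * N) - (N * X - X * N) * N) l =
      (-2 * ((fb (b l)).eval s * (fb (b l)).eval (-s))) • vecMulVec (b l).u (b l).φ := by
    intro l hl hkl
    have hNl : N l = vecMulVec (b l).u (b l).φ := by rw [hN]; simp only [if_pos hkl]
    simp only [Pi.sub_apply, Pi.mul_apply]
    rw [hX]
    simp only [hNl]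
    rw [dbl_E (s_zero hl hkl)]
    unfold fb
    rw [mp_eval, mp_eval]
  refine ⟨(N * (N * X - X * N) - (N * X - X * N) * N) - (-2 * ((fb (b j)).eval s * (fb (b j)).eval (-s))) • N,
    g.sub_mem h2 (g.smul_mem _ hNg), ?_, ?_⟩
  · rw [Pi.sub_apply, hval j hj hkj, Pi.smul_apply, hN]
    simp only [if_pos hkj, sub_self]
  · rw [Pi.sub_apply, hval i hi hki, Pi.smul_apply, hN]
    simp only [if_pos hki]
    rw [← sub_smul]
    refine good_s hi hki ?_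
    intro h0
    apply hs
    linear_combination (-1 / 2 : ℂ) * h0

/-- the general form of the separation of linear blocks -/
lemma sep_D (hg : GG b g) {i j : ι} {EX FX : ∀ i, Matrix (Fin (n i)) (Fin (n i)) ℂ} (hE : EX ∈ g) (hF : FX ∈ g)
    {a β c d : Fin (n i) → ℂ} {a' β' c' d' : Fin (n j) → ℂ} (hEi : EX i = vecMulVec a β) (hEj : EX j = vecMulVec a' β')
    (hFi : FX i = vecMulVec c d) (hFj : FX j = vecMulVec c' d') (h1 : β ⬝ᵥ a = 0) (h2 : β' ⬝ᵥ a' = 0) (ha : a ≠ 0) (hβ : β ≠ 0)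
    {s : ℂ} (hs : (β ⬝ᵥ (E (b i).A s *ᵥ c)) * (d ⬝ᵥ (E (b i).A (-s) *ᵥ a)) ≠
      (β' ⬝ᵥ (E (b j).A s *ᵥ c')) * (d' ⬝ᵥ (E (b j).A (-s) *ᵥ a'))) :
    ∃ Y ∈ g, Y j = 0 ∧ Y i ∈ goodL (n i) := by
  set X : ∀ i, Matrix (Fin (n i)) (Fin (n i)) ℂ := fun i => E (b i).A s * FX i * E (b i).A (-s) with hX
  have h3 : X ∈ g := hg.AdE _ hF s
  have h4 : EX * (EX * X - X * EX) - (EX * X - X * EX) * EX ∈ g := hg.br _ hE _ (hg.br _ hE _ h3)
  have e1 : (EX * (EX * X - X * EX) - (EX * X - X * EX) * EX) i =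
      (-2 * ((β ⬝ᵥ (E (b i).A s *ᵥ c)) * (d ⬝ᵥ (E (b i).A (-s) *ᵥ a)))) • vecMulVec a β := by
    simp only [Pi.sub_apply, Pi.mul_apply]
    rw [hX]
    simp only [hEi, hFi]
    exact dbl_E h1 s
  have e2 : (EX * (EX * X - X * EX) - (EX * X - X * EX) * EX) j =
      (-2 * ((β' ⬝ᵥ (E (b j).A s *ᵥ c')) * (d' ⬝ᵥ (E (b j).A (-s) *ᵥ a')))) • vecMulVec a' β' := by
    simp only [Pi.sub_apply, Pi.mul_apply]
    rw [hX]
    simp only [hEj, hFj]
    exact dbl_E h2 s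
  refine ⟨(EX * (EX * X - X * EX) - (EX * X - X * EX) * EX) -
    (-2 * ((β' ⬝ᵥ (E (b j).A s *ᵥ c')) * (d' ⬝ᵥ (E (b j).A (-s) *ᵥ a')))) • EX, g.sub_mem h4 (g.smul_mem _ hE), ?_, ?_⟩
  · rw [Pi.sub_apply, e2, Pi.smul_apply, hEj, sub_self]
  · rw [Pi.sub_apply, e1, Pi.smul_apply, hEi, ← sub_smul]
    refine ⟨(-2 * ((β ⬝ᵥ (E (b i).A s *ᵥ c)) * (d ⬝ᵥ (E (b i).A (-s) *ᵥ a))) -
      -2 * ((β' ⬝ᵥ (E (b j).A s *ᵥ c')) * (d' ⬝ᵥ (E (b j).A (-s) *ᵥ a')))) • a, β, by rw [dotProduct_smul, h1, smul_zero],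
      smul_ne_zero ?_ ha, hβ, by rw [smul_vecMulVec]⟩
    intro h0
    apply hs
    linear_combination (-1 / 2 : ℂ) * h0

/-- two linear blocks with the same or inverse eigenvalue -/
lemma sep_ll (hg : GG b g) {i j : ι} (hi : BlkOK (b i)) (hki : (b i).k = Ki.l) (hj : BlkOK (b j)) (hkj : (b j).k = Ki.l)
    (h : (b i).ξ = (b j).ξ ∧ fb (b i) ≠ fb (b j) ∨ (b i).ξ = (b j).ξ⁻¹ ∧ fb (b i) ≠ (fb (b j)).comp (-Polynomial.X)) :
    ∃ Y ∈ g, Y j = 0 ∧ Y i ∈ gd (b i) := by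
  obtain ⟨h1, h2, h3⟩ := hi.l hki
  obtain ⟨h1', h2', h3'⟩ := hj.l hkj
  have hgd : gd (b i) = goodL (n i) := by unfold gd; rw [hki]
  rw [hgd]
  set ξ := (b i).ξ with hξ
  have hξ1 : ξ - 1 ≠ 0 := fun h => h3 (by rw [sub_eq_zero.1 h]; norm_num)
  have hξi1 : ξ⁻¹ - 1 ≠ 0 := by
    intro h4
    apply hξ1
    have h5 : ξ * ξ⁻¹ = 1 := mul_inv_cancel₀ h2
    rw [sub_eq_zero.1 h4, mul_one] at h5
    rw [h5, sub_self]
  have hξ2 : ξ - ξ⁻¹ ≠ 0 := by
    intro h4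
    apply h3
    have h5 : ξ * ξ⁻¹ = 1 := mul_inv_cancel₀ h2
    have h6 : ξ = ξ⁻¹ := sub_eq_zero.1 h4
    rw [pow_two]
    nth_rewrite 2 [h6]
    exact h5
  have hξ3 : ξ⁻¹ - ξ ≠ 0 := fun h => hξ2 (by linear_combination -h)
  set qp : Polynomial ℂ := Polynomial.C ((ξ - ξ⁻¹) * (ξ - 1) ^ 3)⁻¹ * (Polynomial.X - Polynomial.C ξ⁻¹) with hqp
  set qm : Polynomial ℂ := Polynomial.C ((ξ⁻¹ - ξ) * (ξ⁻¹ - 1) ^ 3)⁻¹ * (Polynomial.X - Polynomial.C ξ) with hqm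
  have p1 : qp.eval ξ * (ξ - 1) ^ 3 = 1 := by
    rw [hqp]
    simp only [Polynomial.eval_mul, Polynomial.eval_sub, Polynomial.eval_X, Polynomial.eval_C]
    field_simp
  have p2 : qp.eval ξ⁻¹ = 0 := by rw [hqp]; simp
  have p3 : qm.eval ξ⁻¹ * (ξ⁻¹ - 1) ^ 3 = 1 := by
    rw [hqm]
    simp only [Polynomial.eval_mul, Polynomial.eval_sub, Polynomial.eval_X, Polynomial.eval_C]
    have : (ξ⁻¹ - ξ) * (ξ⁻¹ - 1) ^ 3 ≠ 0 := mul_ne_zero hξ3 (pow_ne_zero _ hξi1)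
    rw [mul_assoc]
    exact inv_mul_cancel₀ this
  have p4 : qm.eval ξ = 0 := by rw [hqm]; simp
  have hEi : EE b qp i = vecMulVec (b i).u (ps' (b i)) := by
    rw [EE_lo (by rw [hki]; decide) h1 h2, ← hξ, p1, p2, zero_mul, one_smul, zero_smul, add_zero]
  have hFi : EE b qm i = vecMulVec (wv (b i)) (b i).φ := by
    rw [EE_lo (by rw [hki]; decide) h1 h2, ← hξ, p3, p4, zero_mul, one_smul, zero_smul, zero_add]
  rcases h with ⟨hs, hf⟩ | ⟨hs, hf⟩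
  · obtain ⟨s, hs'⟩ : ∃ s : ℂ, (Dp (fb (b i))).eval s ≠ (Dp (fb (b j))).eval s := by
      by_contra h0
      push Not at h0
      exact hf (uniqL (by rw [fb_zero hi, h1]) (by rw [fb_zero hj, h1']) (Polynomial.funext h0))
    rw [Dp_eval hi, Dp_eval hj] at hs'
    have hEj : EE b qp j = vecMulVec (b j).u (ps' (b j)) := by
      rw [EE_lo (by rw [hkj]; decide) h1' h2', ← hs, p1, p2, zero_mul, one_smul, zero_smul, add_zero]
    have hFj : EE b qm j = vecMulVec (wv (b j)) (b j).φ := by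
      rw [EE_lo (by rw [hkj]; decide) h1' h2', ← hs, p3, p4, zero_mul, one_smul, zero_smul, zero_add]
    exact sep_D hg (EE_mem hg qp) (EE_mem hg qm) hEi hEj hFi hFj (ps_u h1) (ps_u h1') (u_ne hi) (ps_ne hi) hs'
  · obtain ⟨s, hs'⟩ : ∃ s : ℂ, (Dp (fb (b i))).eval s ≠ (Dp (fb (b j))).eval (-s) := by
      by_contra h0
      push Not at h0
      refine hf (uniqL (by rw [fb_zero hi, h1]) ?_ (Polynomial.funext fun s => ?_))
      · rw [Polynomial.eval_comp, Polynomial.eval_neg, Polynomial.eval_X, neg_zero, fb_zero hj, h1']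
      · rw [Dp_neg, Polynomial.eval_comp, Polynomial.eval_neg, Polynomial.eval_X]
        exact h0 s
    rw [Dp_eval hi, Dp_eval hj, neg_neg] at hs'
    have hjj : (b j).ξ = ξ⁻¹ := by rw [hs, inv_inv]
    have hEj : EE b qp j = vecMulVec (wv (b j)) (b j).φ := by
      rw [EE_lo (by rw [hkj]; decide) h1' h2', hjj, inv_inv, p2, p1, zero_mul, one_smul, zero_smul, zero_add]
    have hFj : EE b qm j = vecMulVec (b j).u (ps' (b j)) := by
      rw [EE_lo (by rw [hkj]; decide) h1' h2', hjj, inv_inv, p4, p3, zero_mul, one_smul, zero_smul, add_zero]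
    refine sep_D hg (EE_mem hg qp) (EE_mem hg qm) hEi hEj hFi hFj (ps_u h1) (phi_w h1') (u_ne hi) (ps_ne hi) (s := s) ?_
    rw [mul_comm ((b j).φ ⬝ᵥ (E (b j).A s *ᵥ (b j).u))]
    exact hs'

end fam

end Q207.HM
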