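import Pool.Agent.Q207.HM.Sep2

/-!
# Separation of the orthogonal blocks
-/

set_option autoImplicit false

open Matrix

namespace Q207.HM

open Pool.Agent.Y123.GN (bf ro ro_mul ro_add_left ro_add_right ro_smul_left ro_smul_right sym_bf)
open Pool.Agent.Y119.HY (E E_exp E_add E_zero E_mul_neg E_isom)

section one

variable {n : ℕ} {b : Blk n}

/-- the leading moment -/
lemma top_ne (hb : BlkOK b) : b.φ ⬝ᵥ ((b.A ^ (n - 1)) *ᵥ b.u) ≠ 0 := by
  intro h0
  obtain ⟨v, hv⟩ : ∃ v, (b.φ ᵥ* (b.A ^ (n - 1))) ⬝ᵥ v ≠ 0 := by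
    obtain ⟨e, he⟩ := ex_dot hb.cf
    exact ⟨e, by rw [dotProduct_comm]; exact he⟩
  apply hv
  clear hv
  have hmem : v ∈ Submodule.span ℂ (Set.range fun i : Fin n => (b.A ^ (i : ℕ)) *ᵥ b.u) := by
    rw [chain_top hb.nil hb.cu]; trivial
  induction hmem using Submodule.span_induction with
  | mem x hx =>
    obtain ⟨i, rfl⟩ := hx
    simp only
    rw [← dotProduct_mulVec, mulVec_mulVec, ← pow_add]
    rcases Nat.eq_zero_or_pos (i : ℕ) with h | h
    · rw [h, add_zero]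
      exact h0
    · rw [pow_eq_zero_of_le (by have := hb.two; omega) hb.nil, zero_mulVec, dotProduct_zero]
  | zero => rw [dotProduct_zero]
  | add x y _ _ hx hy => rw [dotProduct_add, hx, hy, add_zero]
  | smul c x _ hx => rw [dotProduct_smul, hx, smul_zero]

lemma fb_deg (hb : BlkOK b) : (fb b).natDegree = n - 1 := by
  have hn := hb.two
  refine le_antisymm ?_ (Polynomial.le_natDegree_of_ne_zero ?_)
  · rw [Polynomial.natDegree_le_iff_coeff_eq_zero]
    intro l hl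
    unfold fb
    rw [mp_coeff, if_neg (by omega)]
  · unfold fb
    rw [mp_coeff, if_pos (by omega)]
    exact div_ne_zero (top_ne hb) (by exact_mod_cast (n - 1).factorial_ne_zero)

lemma fb_der_ne (hb : BlkOK b) : ∃ s : ℂ, (Polynomial.derivative (fb b)).eval s ≠ 0 := by
  by_contra h0
  push Not at h0
  have h1 : Polynomial.derivative (fb b) = 0 := Polynomial.funext fun s => by rw [h0 s, Polynomial.eval_zero]
  have h2 := Polynomial.derivative_eq_zero.1 h1
  rw [fb_deg hb] at h2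
  have := hb.two
  omega

/-- the action of polynomials in the monodromy, semisimple case -/
lemma aeval_loX (hk : b.k ≠ Ki.s) (h1 : b.φ ⬝ᵥ b.u = 1) (hξ : b.ξ ≠ 0) (X : Matrix (Fin n) (Fin n) ℂ)
    (p : Polynomial ℂ) (hp : p.eval 1 = 0) : Polynomial.aeval (Tb b) p X =
    p.eval b.ξ • vecMulVec b.u (b.φ ᵥ* X - (b.φ ⬝ᵥ (X *ᵥ b.u)) • b.φ) +
      p.eval b.ξ⁻¹ • vecMulVec (X *ᵥ b.u - (b.φ ⬝ᵥ (X *ᵥ b.u)) • b.u) b.φ := by
  have h := aeval_lo (b := { b with A := X }) hk h1 hξ p hp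
  exact h

section o

variable (hb : BlkOK b) (hk : b.k = Ki.o)

include hb hk

/-- the component of a skew matrix -/
lemma o_comp {X : Matrix (Fin n) (Fin n) ℂ} (hX : Xᵀ * b.J + b.J * X = 0) :
    vecMulVec b.u (b.φ ᵥ* X - (b.φ ⬝ᵥ (X *ᵥ b.u)) • b.φ) + vecMulVec (X *ᵥ b.u - (b.φ ⬝ᵥ (X *ᵥ b.u)) • b.u) b.φ =
      WW b.J b.u (-(bf b.J b.u b.u)⁻¹ • (X *ᵥ b.u)) := by
  obtain ⟨-, -, hJ, -, -, -, -, -⟩ := hb.o hk
  have h0 : b.φ ⬝ᵥ (X *ᵥ b.u) = 0 := by
    rw [o_phi_dot hb hk]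
    have h2 := skewA hX b.u b.u
    rw [sym_bf hJ b.u (X *ᵥ b.u)] at h2
    have h3 : (2 : ℂ) * bf b.J b.u (X *ᵥ b.u) = 0 := by linear_combination h2
    rw [(mul_eq_zero.1 h3).resolve_left two_ne_zero, mul_zero]
  have h1 : b.φ ᵥ* X = -(bf b.J b.u b.u)⁻¹ • ((X *ᵥ b.u) ᵥ* b.J) := by
    conv_lhs => rw [o_phi hb hk]
    rw [smul_vecMul, vecMul_vecMul]
    have h3 : b.J * X = -(Xᵀ * b.J) := eq_neg_of_add_eq_zero_right hX
    rw [h3, vecMul_neg, ← vecMul_vecMul, vecMul_transpose, smul_neg, neg_smul]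
  rw [h0, zero_smul, zero_smul, sub_zero, sub_zero, h1, WW_smul_right]
  conv_lhs => rw [o_phi hb hk]
  unfold WW ro
  rw [vecMulVec_smul, vecMulVec_smul]
  module

lemma o_even (s : ℂ) : (fb b).eval (-s) = (fb b).eval s := by
  obtain ⟨-, -, hJ, -, hAJ, -, -, -⟩ := hb.o hk
  unfold fb
  rw [mp_eval, mp_eval, o_phi_dot hb hk, o_phi_dot hb hk]
  congr 1
  have hi := E_isom hb.nil hAJ s
  have h1 : bf b.J (E b.A s *ᵥ b.u) (E b.A s *ᵥ (E b.A (-s) *ᵥ b.u)) = bf b.J b.u (E b.A (-s) *ᵥ b.u) := by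
    unfold bf
    rw [← vecMul_transpose, ← dotProduct_mulVec, mulVec_mulVec, mulVec_mulVec, hi]
  rw [← h1, mulVec_mulVec, E_mul_neg hb.nil, one_mulVec, sym_bf hJ b.u (E b.A s *ᵥ b.u)]

lemma o_even' (s : ℂ) : (Polynomial.derivative (fb b)).eval (-s) = -(Polynomial.derivative (fb b)).eval s := by
  have h1 : (fb b).comp (-Polynomial.X) = fb b := Polynomial.funext fun s => by
    rw [Polynomial.eval_comp, Polynomial.eval_neg, Polynomial.eval_X, o_even hb hk]
  have h2 := congrArg Polynomial.derivative h1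
  rw [Polynomial.derivative_comp] at h2
  have h3 := congrArg (Polynomial.eval s) h2
  simp only [Polynomial.derivative_neg, Polynomial.derivative_X, neg_mul, one_mul, Polynomial.eval_neg, Polynomial.eval_comp,
    Polynomial.eval_X] at h3
  linear_combination -h3

/-- the first vector -/
noncomputable def xo (b : Blk n) : Fin n → ℂ := -(bf b.J b.u b.u)⁻¹ • (b.A *ᵥ b.u)

/-- the moving vector -/
noncomputable def yo (b : Blk n) (s : ℂ) : Fin n → ℂ := (bf b.J b.u b.u)⁻¹ • ((Polynomial.derivative (fb b)).eval s • (E b.A s *ᵥ b.u) -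
  (fb b).eval s • (E b.A s *ᵥ (b.A *ᵥ b.u)))

lemma bf_fb (s : ℂ) : bf b.J b.u (E b.A s *ᵥ b.u) = bf b.J b.u b.u * (fb b).eval s := by
  obtain ⟨-, -, hJ, -, hAJ, h6, -, -⟩ := hb.o hk
  unfold fb
  rw [mp_eval, o_phi_dot hb hk, ← mul_assoc, mul_inv_cancel₀ h6, one_mul]

lemma bf_fb' (s : ℂ) : bf b.J b.u (E b.A s *ᵥ (b.A *ᵥ b.u)) = bf b.J b.u b.u * (Polynomial.derivative (fb b)).eval s := by
  obtain ⟨-, -, hJ, -, hAJ, h6, -, -⟩ := hb.o hk
  unfold fb
  rw [mp_der hb.nil, mp_eval, o_phi_dot hb hk, ← mul_assoc, mul_inv_cancel₀ h6, one_mul]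

lemma bf_fb'' (s : ℂ) : bf b.J b.u (E b.A s *ᵥ (b.A *ᵥ (b.A *ᵥ b.u))) =
    bf b.J b.u b.u * (Polynomial.derivative (Polynomial.derivative (fb b))).eval s := by
  obtain ⟨-, -, hJ, -, hAJ, h6, -, -⟩ := hb.o hk
  unfold fb
  rw [mp_der hb.nil, mp_der hb.nil, mp_eval, o_phi_dot hb hk, ← mul_assoc, mul_inv_cancel₀ h6, one_mul]

lemma xo_perp : bf b.J b.u (xo b) = 0 := by
  unfold xo
  rw [bf_smul_right, o_perp hb hk, mul_zero]

lemma yo_perp (s : ℂ) : bf b.J b.u (yo b s) = 0 := by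
  unfold yo
  rw [bf_smul_right, sub_eq_add_neg, bf_add_right, ← neg_smul, bf_smul_right, bf_smul_right, bf_fb hb hk, bf_fb' hb hk]
  ring

lemma xo_yo (s : ℂ) : bf b.J b.u b.u * bf b.J (xo b) (yo b s) = (Gp (fb b)).eval s := by
  obtain ⟨-, -, hJ, -, hAJ, h6, -, -⟩ := hb.o hk
  have e1 : bf b.J (b.A *ᵥ b.u) (E b.A s *ᵥ b.u) = -(bf b.J b.u b.u * (Polynomial.derivative (fb b)).eval s) := by
    rw [skewA hAJ, mulVec_mulVec, E_comm, ← mulVec_mulVec, bf_fb' hb hk]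
  have e2 : bf b.J (b.A *ᵥ b.u) (E b.A s *ᵥ (b.A *ᵥ b.u)) =
      -(bf b.J b.u b.u * (Polynomial.derivative (Polynomial.derivative (fb b))).eval s) := by
    rw [skewA hAJ, mulVec_mulVec (b.A *ᵥ b.u), E_comm, ← mulVec_mulVec (b.A *ᵥ b.u), bf_fb'' hb hk]
  unfold xo yo Gp
  rw [bf_smul_left, bf_smul_right, sub_eq_add_neg, bf_add_right, ← neg_smul, bf_smul_right, bf_smul_right, e1, e2,
    Polynomial.eval_sub, Polynomial.eval_pow, Polynomial.eval_mul]
  field_simp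
  ring

lemma xo_self : bf b.J b.u b.u * bf b.J (xo b) (xo b) = (Gp (fb b)).eval 0 := by
  have h1 : yo b 0 = xo b := by
    unfold yo xo
    obtain ⟨h1, -⟩ := hb.o hk
    rw [fb_der hb, fb_zero hb, h1, o_m1 hb hk, E_zero hb.nil]
    simp
  have := xo_yo hb hk 0
  rwa [h1] at this

lemma xo_ne : xo b ≠ 0 := by
  obtain ⟨-, -, hJ, -, hAJ, h6, -, -⟩ := hb.o hk
  unfold xo
  refine smul_ne_zero (neg_ne_zero.2 (inv_ne_zero h6)) ?_
  rw [← o_wv hb hk]
  exact wv_ne hb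

lemma yo_indep {s : ℂ} (hs : (Polynomial.derivative (fb b)).eval s ≠ 0) {c d : ℂ} (h : c • xo b = d • yo b s) : d = 0 := by
  obtain ⟨-, -, hJ, -, hAJ, h6, -, -⟩ := hb.o hk
  have hn := hb.two
  have hE : b.A ^ (n - 1) * E b.A s = b.A ^ (n - 1) := by
    obtain ⟨m, rfl⟩ := Nat.exists_eq_add_of_le' hn
    unfold E
    rw [Finset.mul_sum, Finset.sum_range_succ']
    have h1 : ∀ l ∈ Finset.range (m + 1), b.A ^ (m + 2 - 1) * ((s ^ (l + 1) / ((l + 1).factorial : ℂ)) • b.A ^ (l + 1)) = 0 := by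
      intro l _
      rw [Matrix.mul_smul, ← pow_add, pow_eq_zero_of_le (by omega) hb.nil, smul_zero]
    rw [Finset.sum_eq_zero h1, zero_add, pow_zero, pow_zero, Nat.factorial_zero, Nat.cast_one, div_one, one_smul, Matrix.mul_one]
  have h1 : (b.A ^ (n - 1)) *ᵥ (c • xo b) = (b.A ^ (n - 1)) *ᵥ (d • yo b s) := congrArg (fun v => (b.A ^ (n - 1)) *ᵥ v) h
  unfold xo yo at h1
  rw [mulVec_smul, mulVec_smul, mulVec_smul, mulVec_smul, mulVec_sub, mulVec_smul, mulVec_smul, mulVec_mulVec, mulVec_mulVec,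
    mulVec_mulVec, hE] at h1
  have h2 : b.A ^ (n - 1) * b.A = 0 := by
    rw [← pow_succ, Nat.sub_add_cancel (by omega), hb.nil]
  rw [mulVec_mulVec b.u (b.A ^ (n - 1)) b.A, h2, zero_mulVec, smul_zero, smul_zero, smul_zero, sub_zero, smul_smul, smul_smul] at h1
  have h3 := (smul_eq_zero.1 h1.symm).resolve_right hb.cu
  rcases mul_eq_zero.1 h3 with h4 | h4
  · rcases mul_eq_zero.1 h4 with h5 | h5
    · exact h5
    · exact absurd h5 (inv_ne_zero h6)
  · exact absurd h4 hs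

end o

end one

section fam

variable {ι : Type*} {n : ι → ℕ} {b : ∀ i, Blk (n i)} {g : Submodule ℂ (∀ i, Matrix (Fin (n i)) (Fin (n i)) ℂ)}

/-- two orthogonal blocks -/
lemma sep_oo (hg : GG b g) {i j : ι} (hi : BlkOK (b i)) (hki : (b i).k = Ki.o) (hj : BlkOK (b j)) (hkj : (b j).k = Ki.o)
    (h : fb (b i) ≠ fb (b j)) : ∃ Y ∈ g, Y j = 0 ∧ Y i ∈ gd (b i) := by
  have hgd : gd (b i) = goodO (b i).J (b i).u := by unfold gd; rw [hki]
  rw [hgd]
  set q : Polynomial ℂ := Polynomial.C (-1 / 8) with hq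
  set EX := EE b q with hEX
  have hE : EX ∈ g := EE_mem hg q
  have hm : ((-1 : ℂ))⁻¹ = -1 := by norm_num
  have hEl : ∀ l, BlkOK (b l) → (b l).k = Ki.o → EX l = WW (b l).J (b l).u (xo (b l)) := by
    intro l hl hkl
    obtain ⟨h1, h2, -⟩ := hl.o hkl
    rw [hEX, EE_lo (by rw [hkl]; decide) h1 (by rw [h2]; norm_num), h2, hm, hq, Polynomial.eval_C]
    have : (-1 / 8 : ℂ) * (-1 - 1) ^ 3 = 1 := by norm_num
    rw [this, one_smul, one_smul, o_sum hl hkl]
    unfold xo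
    rw [WW_smul_right]
  -- the moving element
  have hFX : ∀ s : ℂ, ∃ F ∈ g, ∀ l, BlkOK (b l) → (b l).k = Ki.o → F l = WW (b l).J (b l).u (yo (b l) s) := by
    intro s
    refine ⟨Polynomial.aeval (TT b) (q * (Polynomial.X - 1) ^ 3) (fun i => E (b i).A s * EX i * E (b i).A (-s)),
      aeval_mem hg.AdR _ (hg.AdE _ hE s), fun l hl hkl => ?_⟩
    obtain ⟨h1, h2, hJ, -, hAJ, h6, -, -⟩ := hl.o hkl
    rw [aeval_TT, aeval_loX (by rw [hkl]; decide) h1 (by rw [h2]; norm_num) _ _ (by simp), h2, hm]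
    have e1 : (q * (Polynomial.X - 1) ^ 3).eval (-1 : ℂ) = 1 := by
      rw [hq]
      simp only [Polynomial.eval_mul, Polynomial.eval_C, Polynomial.eval_pow, Polynomial.eval_sub, Polynomial.eval_X,
        Polynomial.eval_one]
      norm_num
    rw [e1, one_smul, one_smul]
    simp only [hEl l hl hkl]
    set X := E (b l).A s * WW (b l).J (b l).u (xo (b l)) * E (b l).A (-s) with hX
    have hi1 := E_isom hl.nil hAJ s
    have hi2 := E_isom hl.nil hAJ (-s)
    have hE1 : E (b l).A s * E (b l).A (-s) = 1 := E_mul_neg hl.nil s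
    have hE2 : E (b l).A (-s) * E (b l).A s = 1 := mul_eq_one_comm.1 hE1
    have hXs : Xᵀ * (b l).J + (b l).J * X = 0 := by
      have hw := WW_isom hJ (b l).u (xo (b l))
      have j1 : (E (b l).A s)ᵀ * (b l).J = (b l).J * E (b l).A (-s) := by
        calc (E (b l).A s)ᵀ * (b l).J = (E (b l).A s)ᵀ * (b l).J * (E (b l).A s * E (b l).A (-s)) := by rw [hE1, Matrix.mul_one]
          _ = ((E (b l).A s)ᵀ * (b l).J * E (b l).A s) * E (b l).A (-s) := by simp only [Matrix.mul_assoc]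
          _ = _ := by rw [hi1]
      have j2 : (b l).J * E (b l).A s = (E (b l).A (-s))ᵀ * (b l).J := by
        calc (b l).J * E (b l).A s = ((E (b l).A (-s))ᵀ * (b l).J * E (b l).A (-s)) * E (b l).A s := by rw [hi2]
          _ = (E (b l).A (-s))ᵀ * (b l).J * (E (b l).A (-s) * E (b l).A s) := by simp only [Matrix.mul_assoc]
          _ = _ := by rw [hE2, Matrix.mul_one]
      rw [hX, transpose_mul, transpose_mul]
      calc (E (b l).A (-s))ᵀ * ((WW (b l).J (b l).u (xo (b l)))ᵀ * (E (b l).A s)ᵀ) * (b l).J +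
            (b l).J * (E (b l).A s * WW (b l).J (b l).u (xo (b l)) * E (b l).A (-s)) =
            (E (b l).A (-s))ᵀ * (WW (b l).J (b l).u (xo (b l)))ᵀ * ((E (b l).A s)ᵀ * (b l).J) +
            ((b l).J * E (b l).A s) * WW (b l).J (b l).u (xo (b l)) * E (b l).A (-s) := by simp only [Matrix.mul_assoc]
        _ = (E (b l).A (-s))ᵀ * ((WW (b l).J (b l).u (xo (b l)))ᵀ * (b l).J + (b l).J * WW (b l).J (b l).u (xo (b l))) *
            E (b l).A (-s) := by
              rw [j1, j2, Matrix.mul_add, Matrix.add_mul]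
              simp only [Matrix.mul_assoc]
        _ = 0 := by rw [hw, Matrix.mul_zero, Matrix.zero_mul]
    rw [o_comp hl hkl hXs]
    congr 1
    -- the vector
    have e2 : X *ᵥ (b l).u = E (b l).A s *ᵥ (WW (b l).J (b l).u (xo (b l)) *ᵥ (E (b l).A (-s) *ᵥ (b l).u)) := by
      rw [hX, mulVec_mulVec, mulVec_mulVec, Matrix.mul_assoc]
    have e3 : bf (b l).J (xo (b l)) (E (b l).A (-s) *ᵥ (b l).u) = -(Polynomial.derivative (fb (b l))).eval s := by
      unfold xo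
      rw [bf_smul_left, skewA hAJ, mulVec_mulVec, E_comm, ← mulVec_mulVec, bf_fb' hl hkl, o_even' hl hkl]
      field_simp
    rw [e2, WW_mulVec, e3, bf_fb hl hkl, o_even hl hkl, mulVec_sub, mulVec_smul, mulVec_smul]
    unfold xo yo
    rw [mulVec_smul, smul_smul, smul_sub, smul_sub, smul_smul, smul_smul, smul_smul, smul_smul]
    congr 1
    · congr 1
      ring
    · congr 1
      field_simp
  -- the double bracket
  have hdb : ∀ (s : ℂ) (F : ∀ i, Matrix (Fin (n i)) (Fin (n i)) ℂ),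
      (∀ l, BlkOK (b l) → (b l).k = Ki.o → F l = WW (b l).J (b l).u (yo (b l) s)) → ∀ l, BlkOK (b l) → (b l).k = Ki.o →
      (EX * (EX * F - F * EX) - (EX * F - F * EX) * EX) l =
        (Gp (fb (b l))).eval s • EX l - (Gp (fb (b l))).eval 0 • F l := by
    intro s F hF l hl hkl
    obtain ⟨h1, h2, hJ, -, hAJ, h6, -, -⟩ := hl.o hkl
    simp only [Pi.sub_apply, Pi.mul_apply]
    rw [hF l hl hkl, hEl l hl hkl, br_uxy hJ (xo_perp hl hkl) (yo_perp hl hkl s), Matrix.mul_smul, Matrix.smul_mul, ← smul_sub]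
    have h3 := br_xyz hJ (xo_perp hl hkl) (yo_perp hl hkl s) (xo (b l))
    have h4 : WW (b l).J (b l).u (xo (b l)) * WW (b l).J (xo (b l)) (yo (b l) s) -
        WW (b l).J (xo (b l)) (yo (b l) s) * WW (b l).J (b l).u (xo (b l)) =
        -WW (b l).J (b l).u (bf (b l).J (yo (b l) s) (xo (b l)) • xo (b l) - bf (b l).J (xo (b l)) (xo (b l)) • yo (b l) s) := by
      rw [← h3]
      abel
    rw [h4, WW_sub_right, WW_smul_right, WW_smul_right, ← xo_yo hl hkl, ← xo_self hl hkl, sym_bf hJ (xo (b l)) (yo (b l) s)]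
    module
  have hGne : Gp (fb (b i)) ≠ Gp (fb (b j)) := by
    intro h0
    apply h
    have hc0 : ∀ l, BlkOK (b l) → (b l).k = Ki.o → (fb (b l)).coeff 0 = 1 := by
      intro l hl hkl
      rw [Polynomial.coeff_zero_eq_eval_zero, fb_zero hl, (hl.o hkl).1]
    have hc1 : ∀ l, BlkOK (b l) → (b l).k = Ki.o → (fb (b l)).coeff 1 = 0 := by
      intro l hl hkl
      have h1 := fb_der hl
      rw [← Polynomial.coeff_zero_eq_eval_zero, Polynomial.coeff_derivative, o_m1 hl hkl] at h1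
      simpa using h1
    exact uniqO (hc0 i hi hki) (hc0 j hj hkj) (hc1 i hi hki) (hc1 j hj hkj) h0
  -- the final choice
  have hfin : ∃ s : ℂ, ((Gp (fb (b i))).eval s - (Gp (fb (b j))).eval s) • xo (b i) -
      ((Gp (fb (b i))).eval 0 - (Gp (fb (b j))).eval 0) • yo (b i) s ≠ 0 := by
    by_cases h0 : (Gp (fb (b i))).eval 0 = (Gp (fb (b j))).eval 0
    · obtain ⟨s, hs⟩ : ∃ s : ℂ, (Gp (fb (b i))).eval s ≠ (Gp (fb (b j))).eval s := by
        by_contra h1
        push Not at h1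
        exact hGne (Polynomial.funext h1)
      refine ⟨s, ?_⟩
      rw [h0, sub_self, zero_smul, sub_zero]
      exact smul_ne_zero (sub_ne_zero.2 hs) (xo_ne hi hki)
    · obtain ⟨s, hs⟩ := fb_der_ne hi
      refine ⟨s, fun h1 => h0 ?_⟩
      exact sub_eq_zero.1 (yo_indep hi hki hs (sub_eq_zero.1 h1))
  obtain ⟨s, hs⟩ := hfin
  obtain ⟨F, hFg, hFl⟩ := hFX s
  have hZ : EX * (EX * F - F * EX) - (EX * F - F * EX) * EX ∈ g := hg.br _ hE _ (hg.br _ hE _ hFg)
  refine ⟨(EX * (EX * F - F * EX) - (EX * F - F * EX) * EX) - (Gp (fb (b j))).eval s • EX + (Gp (fb (b j))).eval 0 • F,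
    g.add_mem (g.sub_mem hZ (g.smul_mem _ hE)) (g.smul_mem _ hFg), ?_, ?_⟩
  · rw [Pi.add_apply, Pi.sub_apply, hdb s F hFl j hj hkj, Pi.smul_apply, Pi.smul_apply]
    module
  · refine ⟨_, hs, ?_, ?_⟩
    · rw [sub_eq_add_neg, bf_add_right, ← neg_smul, bf_smul_right, bf_smul_right, xo_perp hi hki, yo_perp hi hki, mul_zero, mul_zero,
        add_zero]
    · rw [Pi.add_apply, Pi.sub_apply, hdb s F hFl i hi hki, Pi.smul_apply, Pi.smul_apply, WW_sub_right, WW_smul_right, WW_smul_right,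
        hEl i hi hki, hFl i hi hki]
      module

end fam

end Q207.HM
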