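import Pool.Agent.Q207.HM.Gfu
import Pool.Agent.Y123.GN.E8

/-!
# Stability of subtorsors under products of classical groups, embedded with repetitions and duals
-/

set_option autoImplicit false

open Matrix Module
open scoped commutatorElement

namespace Q207.HM

open Pool.Agent.Y123.GN Pool.Agent.Y123.ST Pool.Agent.TH127.PT

section lk

variable {m n : ℕ} {d : Bool} {R : Matrix (Fin n) (Fin m) ℂ} {R' : Matrix (Fin m) (Fin n) ℂ}

lemma lk_one (h : R * R' = 1) : lk d R R' 1 = 1 := by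
  unfold lk
  split_ifs
  · rw [inv_one, Matrix.transpose_one, Matrix.mul_one, h]
  · rw [Matrix.mul_one, h]

lemma lk_mul (h : R' * R = 1) (X Y : Matrix (Fin m) (Fin m) ℂ) : lk d R R' (X * Y) = lk d R R' X * lk d R R' Y := by
  unfold lk
  split_ifs
  · rw [Matrix.mul_inv_rev, Matrix.transpose_mul]
    calc R * ((X⁻¹)ᵀ * (Y⁻¹)ᵀ) * R' = R * (X⁻¹)ᵀ * (1 : Matrix (Fin m) (Fin m) ℂ) * (Y⁻¹)ᵀ * R' := by
          rw [Matrix.mul_one]
          simp only [Matrix.mul_assoc]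
      _ = _ := by
          rw [← h]
          simp only [Matrix.mul_assoc]
  · calc R * (X * Y) * R' = R * X * (1 : Matrix (Fin m) (Fin m) ℂ) * Y * R' := by
          rw [Matrix.mul_one]
          simp only [Matrix.mul_assoc]
      _ = _ := by
          rw [← h]
          simp only [Matrix.mul_assoc]

/-- the derivative -/
noncomputable def dl (d : Bool) (R : Matrix (Fin n) (Fin m) ℂ) (R' : Matrix (Fin m) (Fin n) ℂ) (N : Matrix (Fin m) (Fin m) ℂ) :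
    Matrix (Fin n) (Fin n) ℂ := R * (if d then -Nᵀ else N) * R'

/-- conjugation as a ring homomorphism -/
noncomputable def cjh (R : Matrix (Fin n) (Fin m) ℂ) (R' : Matrix (Fin m) (Fin n) ℂ) (h1 : R * R' = 1) (h2 : R' * R = 1) :
    Matrix (Fin m) (Fin m) ℂ →+* Matrix (Fin n) (Fin n) ℂ where
  toFun X := R * X * R'
  map_one' := by rw [Matrix.mul_one, h1]
  map_mul' X Y := by
    calc R * (X * Y) * R' = R * X * (1 : Matrix (Fin m) (Fin m) ℂ) * Y * R' := by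
          rw [Matrix.mul_one]
          simp only [Matrix.mul_assoc]
      _ = _ := by
          rw [← h2]
          simp only [Matrix.mul_assoc]
  map_zero' := by rw [Matrix.mul_zero, Matrix.zero_mul]
  map_add' X Y := by rw [Matrix.mul_add, Matrix.add_mul]

lemma nil_dl (h1 : R * R' = 1) (h2 : R' * R = 1) {N : Matrix (Fin m) (Fin m) ℂ} {k : ℕ} (hN : N ^ k = 0) : dl d R R' N ^ k = 0 := by
  have e1 : ∀ X : Matrix (Fin m) (Fin m) ℂ, X ^ k = 0 → (R * X * R') ^ k = 0 := by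
    intro X hX
    have : R * X * R' = cjh R R' h1 h2 X := rfl
    rw [this, ← map_pow, hX, map_zero]
  unfold dl
  refine e1 _ ?_
  split_ifs
  · rw [neg_pow, ← Matrix.transpose_pow, hN, Matrix.transpose_zero, mul_zero]
  · exact hN

lemma lk_exp (h1 : R * R' = 1) (h2 : R' * R = 1) {N : Matrix (Fin m) (Fin m) ℂ} (hN : IsNilpotent N) (t : ℂ) :
    lk d R R' (IsNilpotent.exp (t • N)) = IsNilpotent.exp (t • dl d R R' N) := by
  obtain ⟨k, hk⟩ := hN.smul t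
  obtain ⟨k', hk'⟩ := hN
  have e1 : ∀ X : Matrix (Fin m) (Fin m) ℂ, IsNilpotent X → R * IsNilpotent.exp X * R' = IsNilpotent.exp (R * X * R') := fun X hX =>
    IsNilpotent.map_exp hX (cjh R R' h1 h2)
  unfold lk dl
  split_ifs with hd
  · have e2 : ((IsNilpotent.exp (t • N))⁻¹)ᵀ = IsNilpotent.exp (t • -Nᵀ) := by
      rw [exp_inv_eq ⟨k', hk'⟩]
      have h3 : ((-t) • N) ^ k' = 0 := by rw [smul_pow, hk', smul_zero]
      have h4 : (t • -Nᵀ) ^ k' = 0 := by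
        rw [smul_pow, neg_pow, ← Matrix.transpose_pow, hk', Matrix.transpose_zero, mul_zero, smul_zero]
      rw [nexp h3, nexp h4, ← Matrix.exp_transpose, Matrix.transpose_smul, smul_neg, neg_smul]
    have h5 : IsNilpotent (t • -Nᵀ) := ⟨k', by
      rw [smul_pow, neg_pow, ← Matrix.transpose_pow, hk', Matrix.transpose_zero, mul_zero, smul_zero]⟩
    rw [e2, e1 _ h5, Matrix.mul_smul, Matrix.smul_mul]
  · rw [e1 _ ⟨k, hk⟩, Matrix.mul_smul, Matrix.smul_mul]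

end lk

section total

variable {r₀ : ℕ} {J : Type} [Fintype J] [DecidableEq J] {ν : J → ℕ}

/-- the block matrix -/
noncomputable def tmt (x : Matrix (Fin r₀) (Fin r₀) ℂ) (X : ∀ j, Matrix (Fin (ν j)) (Fin (ν j)) ℂ) :
    Matrix (Fin r₀ ⊕ Σ j, Fin (ν j)) (Fin r₀ ⊕ Σ j, Fin (ν j)) ℂ :=
  Matrix.fromBlocks x 0 0 (Matrix.blockDiagonal' X)

lemma tmt_mul (x y : Matrix (Fin r₀) (Fin r₀) ℂ) (X Y : ∀ j, Matrix (Fin (ν j)) (Fin (ν j)) ℂ) :
    tmt x X * tmt y Y = tmt (x * y) fun j => X j * Y j := by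
  unfold tmt
  rw [fromBlocks_multiply, ← blockDiagonal'_mul]
  simp

lemma tmt_one : tmt (1 : Matrix (Fin r₀) (Fin r₀) ℂ) (fun _ => 1 : ∀ j, Matrix (Fin (ν j)) (Fin (ν j)) ℂ) = 1 := by
  have h : (fun _ => 1 : ∀ j, Matrix (Fin (ν j)) (Fin (ν j)) ℂ) = 1 := rfl
  unfold tmt
  rw [h, blockDiagonal'_one, fromBlocks_one]

/-- the block matrices as a ring homomorphism -/
noncomputable def tmth (r₀ : ℕ) {J : Type} [Fintype J] [DecidableEq J] (ν : J → ℕ) :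
    (Matrix (Fin r₀) (Fin r₀) ℂ × (∀ j, Matrix (Fin (ν j)) (Fin (ν j)) ℂ)) →+*
      Matrix (Fin r₀ ⊕ Σ j, Fin (ν j)) (Fin r₀ ⊕ Σ j, Fin (ν j)) ℂ where
  toFun x := tmt x.1 x.2
  map_one' := tmt_one
  map_mul' x y := (tmt_mul _ _ _ _).symm
  map_zero' := by
    show tmt (0 : Matrix (Fin r₀) (Fin r₀) ℂ) (0 : ∀ j, Matrix (Fin (ν j)) (Fin (ν j)) ℂ) = 0
    unfold tmt
    rw [blockDiagonal'_zero, fromBlocks_zero]
  map_add' x y := by
    show tmt (x.1 + y.1) (x.2 + y.2) = tmt x.1 x.2 + tmt y.1 y.2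
    unfold tmt
    rw [blockDiagonal'_add, fromBlocks_add, add_zero, add_zero]

lemma tmt_exp {k : ℕ} {N : ∀ j, Matrix (Fin (ν j)) (Fin (ν j)) ℂ} (hN : ∀ j, N j ^ k = 0) (hk : k ≠ 0) (t : ℂ) :
    tmt (1 : Matrix (Fin r₀) (Fin r₀) ℂ) (fun j => IsNilpotent.exp (t • N j)) = IsNilpotent.exp (t • tmt 0 N) ∧ (tmt (0 : Matrix (Fin r₀) (Fin r₀) ℂ) N) ^ k = 0 := by
  set x : Matrix (Fin r₀) (Fin r₀) ℂ × (∀ j, Matrix (Fin (ν j)) (Fin (ν j)) ℂ) := (0, fun j => t • N j) with hx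
  have hxk : ∀ s : ℂ, ((0, fun j => s • N j) : Matrix (Fin r₀) (Fin r₀) ℂ × (∀ j, Matrix (Fin (ν j)) (Fin (ν j)) ℂ)) ^ k = 0 := by
    intro s
    refine Prod.ext ?_ ?_
    · rw [Prod.pow_fst]
      exact zero_pow hk
    · rw [Prod.pow_snd]
      funext j
      rw [Pi.pow_apply, smul_pow, hN, smul_zero]
      rfl
  have hnil : IsNilpotent x := ⟨k, hxk t⟩
  have h1 : tmth r₀ ν (IsNilpotent.exp x) = IsNilpotent.exp (tmth r₀ ν x) := IsNilpotent.map_exp hnil (tmth r₀ ν)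
  have h2 : (IsNilpotent.exp x).1 = 1 := by
    have := IsNilpotent.map_exp hnil (RingHom.fst (Matrix (Fin r₀) (Fin r₀) ℂ) (∀ j, Matrix (Fin (ν j)) (Fin (ν j)) ℂ))
    refine this.trans ?_
    show IsNilpotent.exp (0 : Matrix (Fin r₀) (Fin r₀) ℂ) = 1
    exact IsNilpotent.exp_zero
  have h3 : ∀ j, (IsNilpotent.exp x).2 j = IsNilpotent.exp (t • N j) := fun j =>
    IsNilpotent.map_exp hnil ((Pi.evalRingHom (fun j => Matrix (Fin (ν j)) (Fin (ν j)) ℂ) j).comp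
      (RingHom.snd (Matrix (Fin r₀) (Fin r₀) ℂ) (∀ j, Matrix (Fin (ν j)) (Fin (ν j)) ℂ)))
  have h4 : tmth r₀ ν (IsNilpotent.exp x) = tmt 1 fun j => IsNilpotent.exp (t • N j) := by
    show tmt (IsNilpotent.exp x).1 (IsNilpotent.exp x).2 = _
    rw [h2]
    congr 1
    funext j
    exact h3 j
  have h5 : tmth r₀ ν x = t • tmt 0 N := by
    show tmt 0 (fun j => t • N j) = t • tmt 0 N
    unfold tmt
    rw [fromBlocks_smul, smul_zero, smul_zero, smul_zero, ← blockDiagonal'_smul]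
    rfl
  refine ⟨by rw [← h4, h1, h5], ?_⟩
  have h6 : tmt (0 : Matrix (Fin r₀) (Fin r₀) ℂ) N = tmth r₀ ν (0, fun j => (1 : ℂ) • N j) := by
    show tmt 0 N = tmt 0 fun j => (1 : ℂ) • N j
    simp only [one_smul]
  rw [h6, ← map_pow, hxk, map_zero]

end total

section group

variable {r₀ : ℕ} {J A : Type} [Fintype J] [DecidableEq J] [Fintype A] [DecidableEq A] {ν : J → ℕ} {μ : A → ℕ} {q : J → A}

/-- the data of an embedding of a product of groups with repetitions and duals -/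
structure Emb (ν : J → ℕ) (μ : A → ℕ) (q : J → A) where
  d : J → Bool
  R : ∀ j, Matrix (Fin (ν j)) (Fin (μ (q j))) ℂ
  R' : ∀ j, Matrix (Fin (μ (q j))) (Fin (ν j)) ℂ
  h1 : ∀ j, R j * R' j = 1
  h2 : ∀ j, R' j * R j = 1

/-- the embedding -/
noncomputable def FF (r₀ : ℕ) (E : Emb ν μ q) : (∀ a, (Matrix (Fin (μ a)) (Fin (μ a)) ℂ)ˣ) →*
    (Matrix (Fin r₀ ⊕ Σ j, Fin (ν j)) (Fin r₀ ⊕ Σ j, Fin (ν j)) ℂ)ˣ where
  toFun g := ⟨tmt 1 fun j => lk (E.d j) (E.R j) (E.R' j) (g (q j)), tmt 1 fun j => lk (E.d j) (E.R j) (E.R' j) ((g (q j))⁻¹ :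
    (Matrix (Fin (μ (q j))) (Fin (μ (q j))) ℂ)ˣ), by
      rw [tmt_mul, one_mul, ← tmt_one (r₀ := r₀) (ν := ν)]
      congr 1
      funext j
      rw [← lk_mul (E.h2 j), Units.mul_inv, lk_one (E.h1 j)], by
      rw [tmt_mul, one_mul, ← tmt_one (r₀ := r₀) (ν := ν)]
      congr 1
      funext j
      rw [← lk_mul (E.h2 j), Units.inv_mul, lk_one (E.h1 j)]⟩
  map_one' := by
    refine Units.ext ?_
    show tmt 1 (fun j => lk (E.d j) (E.R j) (E.R' j) 1) = 1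
    rw [← tmt_one (r₀ := r₀) (ν := ν)]
    congr 1
    funext j
    exact lk_one (E.h1 j)
  map_mul' g g' := by
    refine Units.ext ?_
    show tmt 1 (fun j => lk (E.d j) (E.R j) (E.R' j) (g (q j) * g' (q j))) =
      tmt 1 (fun j => lk (E.d j) (E.R j) (E.R' j) (g (q j))) * tmt 1 (fun j => lk (E.d j) (E.R j) (E.R' j) (g' (q j)))
    rw [tmt_mul, one_mul]
    congr 1
    funext j
    exact lk_mul (E.h2 j) _ _

lemma FF_val (E : Emb ν μ q) (g : ∀ a, (Matrix (Fin (μ a)) (Fin (μ a)) ℂ)ˣ) :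
    (FF r₀ E g).val =
      tmt 1 fun j => lk (E.d j) (E.R j) (E.R' j) (g (q j)) := rfl

/-- the product of the groups -/
def GP (B : ∀ a, Matrix (Fin (μ a)) (Fin (μ a)) ℂ) : Subgroup (∀ a, (Matrix (Fin (μ a)) (Fin (μ a)) ℂ)ˣ) :=
  Subgroup.pi Set.univ fun a => GB (B a)

lemma mem_GP {B : ∀ a, Matrix (Fin (μ a)) (Fin (μ a)) ℂ} {g : ∀ a, (Matrix (Fin (μ a)) (Fin (μ a)) ℂ)ˣ} :
    g ∈ GP B ↔ ∀ a, g a ∈ GB (B a) := by
  unfold GP
  rw [Subgroup.mem_pi]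
  simp

lemma FF_exp (E : Emb ν μ q) {N : ∀ a, Matrix (Fin (μ a)) (Fin (μ a)) ℂ} {k : ℕ} (hk : k ≠ 0) (hN : ∀ a, N a ^ k = 0) (t : ℂ)
    {u : ∀ a, (Matrix (Fin (μ a)) (Fin (μ a)) ℂ)ˣ} (hu : ∀ a, (u a : Matrix (Fin (μ a)) (Fin (μ a)) ℂ) = IsNilpotent.exp (t • N a)) :
    (FF r₀ E u).val =
      IsNilpotent.exp (t • tmt 0 fun j => dl (E.d j) (E.R j) (E.R' j) (N (q j))) ∧
    (tmt (0 : Matrix (Fin r₀) (Fin r₀) ℂ) fun j => dl (E.d j) (E.R j) (E.R' j) (N (q j))) ^ k = 0 := by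
  obtain ⟨h1, h2⟩ := tmt_exp (r₀ := r₀) (N := fun j => dl (E.d j) (E.R j) (E.R' j) (N (q j))) (k := k)
    (fun j => nil_dl (E.h1 j) (E.h2 j) (hN (q j))) hk t
  refine ⟨?_, h2⟩
  rw [← h1, FF_val]
  congr 1
  funext j
  rw [hu, lk_exp (E.h1 j) (E.h2 j) ⟨k, hN (q j)⟩]

/-- a single factor -/
lemma FF_single (E : Emb ν μ q) {B : ∀ a, Matrix (Fin (μ a)) (Fin (μ a)) ℂ} (hB : ∀ a, Clf (B a)) (a : A)
    {g : (Matrix (Fin (μ a)) (Fin (μ a)) ℂ)ˣ} (hg : g ∈ GB (B a)) :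
    FF r₀ E (Pi.mulSingle a g) ∈ ⁅Ug ((GP B).map (FF r₀ E)), Ug ((GP B).map (FF r₀ E))⁆ := by
  classical
  set f := (FF r₀ E).comp (MonoidHom.mulSingle (fun a => (Matrix (Fin (μ a)) (Fin (μ a)) ℂ)ˣ) a) with hf
  have hsg : ∀ v ∈ GB (B a), Pi.mulSingle a v ∈ GP B := by
    intro v hv
    rw [mem_GP]
    intro a'
    by_cases h : a' = a
    · subst h
      rw [Pi.mulSingle_eq_same]
      exact hv
    · rw [Pi.mulSingle_eq_of_ne h]
      exact (GB (B a')).one_mem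
  have hval : ∀ (N : Matrix (Fin (μ a)) (Fin (μ a)) ℂ) (s : ℂ) (v : (Matrix (Fin (μ a)) (Fin (μ a)) ℂ)ˣ),
      (v : Matrix (Fin (μ a)) (Fin (μ a)) ℂ) = IsNilpotent.exp (s • N) → ∀ a',
      ((Pi.mulSingle a v : ∀ a, (Matrix (Fin (μ a)) (Fin (μ a)) ℂ)ˣ) a' : Matrix (Fin (μ a')) (Fin (μ a')) ℂ) =
        IsNilpotent.exp (s • (Pi.single a N : ∀ a, Matrix (Fin (μ a)) (Fin (μ a)) ℂ) a') := by
    intro N s v hv a'
    by_cases h : a' = a
    · subst h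
      rw [Pi.mulSingle_eq_same, Pi.single_eq_same]
      exact hv
    · rw [Pi.mulSingle_eq_of_ne h, Pi.single_eq_of_ne h, smul_zero, IsNilpotent.exp_zero]
      rfl
  have h1 : (Ug (GB (B a))).map f ≤ Ug ((GP B).map (FF r₀ E)) := by
    rw [Subgroup.map_le_iff_le_comap]
    refine (Subgroup.closure_le _).2 ?_
    rintro u ⟨N, ⟨⟨k', hk'⟩, hN2⟩, t, hu⟩
    set k := k' + 1 with hk
    have hNk : ∀ a', (Pi.single a N : ∀ a, Matrix (Fin (μ a)) (Fin (μ a)) ℂ) a' ^ k = 0 := by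
      intro a'
      by_cases h : a' = a
      · subst h
        rw [Pi.single_eq_same, hk, pow_succ, hk', zero_mul]
      · rw [Pi.single_eq_of_ne h, zero_pow (by omega)]
    have hex := fun (s : ℂ) (v : (Matrix (Fin (μ a)) (Fin (μ a)) ℂ)ˣ)
      (hv : (v : Matrix (Fin (μ a)) (Fin (μ a)) ℂ) = IsNilpotent.exp (s • N)) =>
        FF_exp (r₀ := r₀) E (k := k) (by omega) hNk s (hval N s v hv)
    show f u ∈ Ug ((GP B).map (FF r₀ E))
    refine Subgroup.subset_closure ⟨_, ⟨⟨k, (hex t u hu).2⟩, fun s => ?_⟩, t, (hex t u hu).1⟩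
    obtain ⟨v, hv, hv'⟩ := hN2 s
    exact ⟨_, ⟨_, hsg v hv, rfl⟩, (hex s v hv').1⟩
  have h2 : f g ∈ (⁅Ug (GB (B a)), Ug (GB (B a))⁆ : Subgroup _).map f := ⟨g, cl_perf (hB a) hg, rfl⟩
  rw [Subgroup.map_commutator] at h2
  exact Subgroup.commutator_mono h1 h1 h2

lemma FF_mem (E : Emb ν μ q) {B : ∀ a, Matrix (Fin (μ a)) (Fin (μ a)) ℂ} (hB : ∀ a, Clf (B a))
    {g : ∀ a, (Matrix (Fin (μ a)) (Fin (μ a)) ℂ)ˣ} (hg : ∀ a, g a ∈ GB (B a)) :
    FF r₀ E g ∈ ⁅Ug ((GP B).map (FF r₀ E)), Ug ((GP B).map (FF r₀ E))⁆ := by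
  classical
  have key : ∀ S : Finset A, FF r₀ E (fun a => if a ∈ S then g a else 1) ∈ ⁅Ug ((GP B).map (FF r₀ E)), Ug ((GP B).map (FF r₀ E))⁆ := by
    intro S
    induction S using Finset.induction_on with
    | empty =>
      have h1 : (fun a => if a ∈ (∅ : Finset A) then g a else 1) = (1 : ∀ a, (Matrix (Fin (μ a)) (Fin (μ a)) ℂ)ˣ) := by
        funext a
        simp
      rw [h1, map_one]
      exact Subgroup.one_mem _
    | insert a S ha ih =>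
      have h1 : (fun a' => if a' ∈ insert a S then g a' else 1) =
          (Pi.mulSingle a (g a) : ∀ a, (Matrix (Fin (μ a)) (Fin (μ a)) ℂ)ˣ) * fun a' => if a' ∈ S then g a' else 1 := by
        funext a'
        rw [Pi.mul_apply]
        by_cases h : a' = a
        · subst h
          rw [Pi.mulSingle_eq_same, if_pos (Finset.mem_insert_self _ _), if_neg ha, mul_one]
        · rw [Pi.mulSingle_eq_of_ne h, one_mul]
          simp only [Finset.mem_insert, h, false_or]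
      rw [h1, map_mul]
      exact Subgroup.mul_mem _ (FF_single E hB a (hg a)) ih
  have h2 := key Finset.univ
  simp only [Finset.mem_univ, if_true] at h2
  exact h2

/-- **Stability.** -/
theorem stab_abs (m D : ℕ) : ∃ dd : ℕ, ∀ (r₀ : ℕ) (J A : Type) [Fintype J] [DecidableEq J] [Fintype A] [DecidableEq A] (ν : J → ℕ)
    (μ : A → ℕ) (q : J → A) (E : Emb ν μ q) (B : ∀ a, Matrix (Fin (μ a)) (Fin (μ a)) ℂ), (∀ a, Clf (B a)) →
    Fintype.card (Fin r₀ ⊕ Σ j, Fin (ν j)) ≤ m → ∀ c : Matrix (Fin r₀ ⊕ Σ j, Fin (ν j)) (Fin r₀ ⊕ Σ j, Fin (ν j)) ℂ,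
    (∀ g, (∀ a, g a ∈ GB (B a)) → Rl ⊥ dd c ((FF r₀ E g).val * c)) →
    ∀ K : Subfield ℂ, FiniteDimensional ℚ K → finrank ℚ K ≤ D →
    ∀ T : Set (Matrix (Fin r₀ ⊕ Σ j, Fin (ν j)) (Fin r₀ ⊕ Σ j, Fin (ν j)) ℂ), IsSubtorsor K T → c ∈ T →
    ∀ g, (∀ a, g a ∈ GB (B a)) → (FF r₀ E g).val * c ∈ T := by
  obtain ⟨dd, -, hd⟩ := comm_all m D
  refine ⟨dd, ?_⟩
  intro r₀ J A _ _ _ _ ν μ q E B hB hcard c hrel K hKf hKD T hT hcT g hg
  obtain ⟨hcomm, -, -⟩ := hd (Fin r₀ ⊕ Σ j, Fin (ν j)) hcard c ((GP B).map (FF r₀ E)) (fun u hu => by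
    obtain ⟨v, hv, rfl⟩ := Ug_le _ hu
    exact hrel v (mem_GP.1 hv)) K hKf hKD T hT hcT
  exact hcomm _ (FF_mem E hB hg) c hcT

end group

end Q207.HM
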