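import Pool.Agent.Q207.HM.Tts

/-!
# The absolute case
-/

set_option autoImplicit false

open Matrix Module

namespace Q207.HM

open Pool.Agent.Y123.GN (tpi tpi_tr tpi_ne)
open Pool.Agent.Y123.ST (aut_mem)
open Pool.Agent.TH127.PT (IsSubtorsor)

section

variable {r₀ : ℕ} {J : Type} [Fintype J] [DecidableEq J] {ν : J → ℕ} {K : Subfield ℂ}
  {T T₁ : Set (Matrix (Fin r₀ ⊕ Σ j, Fin (ν j)) (Fin r₀ ⊕ Σ j, Fin (ν j)) ℂ)}

lemma tmt_inv {z : ℂ} (hz : z ≠ 0) {X : ∀ j, Matrix (Fin (ν j)) (Fin (ν j)) ℂ}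
    (hX : IsUnit (tmt (z • (1 : Matrix (Fin r₀) (Fin r₀) ℂ)) X)) :
    (tmt (z • (1 : Matrix (Fin r₀) (Fin r₀) ℂ)) X)⁻¹ = tmt ((z⁻¹ : ℂ) • (1 : Matrix (Fin r₀) (Fin r₀) ℂ)) fun j => (X j)⁻¹ := by
  refine Matrix.inv_eq_right_inv ?_
  rw [tmt_mul, smul_mul_smul_comm, Matrix.one_mul, mul_inv_cancel₀ hz, one_smul, ← tmt_one]
  congr 1
  funext j
  exact Matrix.mul_nonsing_inv _ (Ne.isUnit (tmt_det _ _ hX j))

/-- all values of the Tate coordinate occur -/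
lemma tate_allJ (hK : ∀ x ∈ K, IsAlgebraic ℚ x) (hT : IsSubtorsor K T) {Z : ∀ j, Matrix (Fin (ν j)) (Fin (ν j)) ℂ}
    (hc : tmt (tpi • (1 : Matrix (Fin r₀) (Fin r₀) ℂ)) Z ∈ T) {z : ℂ} (hz : z ≠ 0) :
    ∃ X : ∀ j, Matrix (Fin (ν j)) (Fin (ν j)) ℂ, tmt (z • (1 : Matrix (Fin r₀) (Fin r₀) ℂ)) X ∈ T := by
  have hτ : Transcendental K tpi := tpi_tr hK
  have htr : ∀ z : ℂ, Transcendental K z → ∃ X : ∀ j, Matrix (Fin (ν j)) (Fin (ν j)) ℂ,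
      tmt (z • (1 : Matrix (Fin r₀) (Fin r₀) ℂ)) X ∈ T := by
    intro z hz
    obtain ⟨σ, h1, h2⟩ := Pool.Agent.H37PG.exists_aut hτ hz
    have h3 := aut_mem hT (σ := σ) (fun x hx => h1 ⟨x, hx⟩) hc
    refine ⟨fun j => (Z j).map σ, ?_⟩
    have h4 : (tmt (tpi • (1 : Matrix (Fin r₀) (Fin r₀) ℂ)) Z).map σ =
        tmt (z • (1 : Matrix (Fin r₀) (Fin r₀) ℂ)) (fun j => (Z j).map σ) := by
      unfold tmt
      rw [fromBlocks_map, blockDiagonal'_map _ _ (map_zero σ)]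
      congr 1
      · ext a b
        rw [Matrix.map_apply, Matrix.smul_apply, Matrix.smul_apply, smul_eq_mul, smul_eq_mul, map_mul, h2,
          Matrix.one_apply, apply_ite σ, map_one, map_zero]
      · ext a b
        exact map_zero σ
      · ext a b
        exact map_zero σ
    rw [h4] at h3
    exact h3
  by_cases hza : Transcendental K z
  · exact htr z hza
  have hza' : IsAlgebraic K z := by
    by_contra h
    exact hza h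
  have h2 : Transcendental K (tpi ^ 2) := fun h => hτ (h.of_pow (by norm_num))
  have h3 : Transcendental K (z * tpi) := by
    intro h
    apply hτ
    have h4 : tpi = z⁻¹ * (z * tpi) := by rw [← mul_assoc, inv_mul_cancel₀ hz, one_mul]
    rw [h4]
    exact hza'.inv.mul h
  obtain ⟨X₂, hX₂⟩ := htr _ h2
  obtain ⟨X₃, hX₃⟩ := htr _ h3
  have h4 := hT.torsor _ hc _ hX₂ _ hX₃
  rw [tmt_inv (pow_ne_zero 2 tpi_ne) (hT.isUnit _ hX₂), tmt_mul, tmt_mul, smul_mul_smul_comm, smul_mul_smul_comm, Matrix.one_mul,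
    Matrix.one_mul] at h4
  have h5 : tpi * (tpi ^ 2)⁻¹ * (z * tpi) = z := by
    have := tpi_ne
    field_simp
  rw [h5] at h4
  exact ⟨_, h4⟩

/-- the smallest subtorsor is determined by its fibre over `2πi` -/
theorem absT (h0 : 0 < r₀) (hK : ∀ x ∈ K, IsAlgebraic ℚ x) (hT : IsSubtorsor K T) (hT₁ : IsSubtorsor K T₁) (hTT : T ⊆ T₁)
    {Z : ∀ j, Matrix (Fin (ν j)) (Fin (ν j)) ℂ} (hc : tmt (tpi • (1 : Matrix (Fin r₀) (Fin r₀) ℂ)) Z ∈ T)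
    (hz : ∀ y ∈ T₁, ∃ (z : ℂ) (X : ∀ j, Matrix (Fin (ν j)) (Fin (ν j)) ℂ), y = tmt (z • (1 : Matrix (Fin r₀) (Fin r₀) ℂ)) X)
    (hf : ∀ X : ∀ j, Matrix (Fin (ν j)) (Fin (ν j)) ℂ, tmt (tpi • (1 : Matrix (Fin r₀) (Fin r₀) ℂ)) X ∈ T₁ →
      tmt (tpi • (1 : Matrix (Fin r₀) (Fin r₀) ℂ)) X ∈ T) : T = T₁ := by
  have hne : Nonempty (Fin r₀) := ⟨⟨0, h0⟩⟩
  refine Set.Subset.antisymm hTT ?_
  intro y hy
  obtain ⟨z, X, rfl⟩ := hz y hy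
  have hz0 : z ≠ 0 := by
    rintro rfl
    have h1 : tmt ((0 : ℂ) • (1 : Matrix (Fin r₀) (Fin r₀) ℂ)) X *
        (tmt ((0 : ℂ) • (1 : Matrix (Fin r₀) (Fin r₀) ℂ)) X)⁻¹ = 1 :=
      Matrix.mul_nonsing_inv _ ((Matrix.isUnit_iff_isUnit_det _).1 (hT₁.isUnit _ hy))
    have h2 := congrFun (congrFun h1 (Sum.inl ⟨0, h0⟩)) (Sum.inl ⟨0, h0⟩)
    rw [Matrix.one_apply_eq, Matrix.mul_apply, Fintype.sum_sum_type] at h2
    have h3 : ∀ c : Fin r₀, tmt ((0 : ℂ) • (1 : Matrix (Fin r₀) (Fin r₀) ℂ)) X (Sum.inl ⟨0, h0⟩) (Sum.inl c) = 0 := fun c => by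
      show ((0 : ℂ) • (1 : Matrix (Fin r₀) (Fin r₀) ℂ)) ⟨0, h0⟩ c = 0
      rw [zero_smul]
      rfl
    have h4 : ∀ c : Σ j, Fin (ν j), tmt ((0 : ℂ) • (1 : Matrix (Fin r₀) (Fin r₀) ℂ)) X (Sum.inl ⟨0, h0⟩) (Sum.inr c) = 0 := fun c => rfl
    simp only [h3, h4, zero_mul, Finset.sum_const_zero, add_zero] at h2
    exact zero_ne_one h2
  obtain ⟨X', hX'⟩ := tate_allJ hK hT hc hz0
  have h1 := hT₁.torsor _ hy _ (hTT hX') _ (hTT hc)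
  rw [tmt_inv hz0 (hT.isUnit _ hX'), tmt_mul, tmt_mul, smul_mul_smul_comm, smul_mul_smul_comm, Matrix.one_mul, Matrix.one_mul,
    mul_inv_cancel₀ hz0, one_mul] at h1
  have h2 := hT.torsor _ (hf _ h1) _ hc _ hX'
  rw [tmt_inv tpi_ne (hT.isUnit _ hc), tmt_mul, tmt_mul, smul_mul_smul_comm, smul_mul_smul_comm, Matrix.one_mul, Matrix.one_mul,
    mul_inv_cancel₀ tpi_ne, one_mul] at h2
  have h3 : (fun j => X j * (X' j)⁻¹ * Z j * (Z j)⁻¹ * X' j) = X := by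
    funext j
    have e1 : Z j * (Z j)⁻¹ = 1 := Matrix.mul_nonsing_inv _ (Ne.isUnit (tmt_det _ _ (hT.isUnit _ hc) j))
    have e2 : (X' j)⁻¹ * X' j = 1 := Matrix.nonsing_inv_mul _ (Ne.isUnit (tmt_det _ _ (hT.isUnit _ hX') j))
    calc X j * (X' j)⁻¹ * Z j * (Z j)⁻¹ * X' j = X j * ((X' j)⁻¹ * (Z j * (Z j)⁻¹) * X' j) := by simp only [Matrix.mul_assoc]
      _ = X j := by rw [e1, Matrix.mul_one, e2, Matrix.mul_one]
  rw [h3] at h2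
  exact h2

end

end Q207.HM
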