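import Pool.Agent.Q207.HM.Gsy

/-!
# The theorem on tuples with a weaker hypothesis on the algebraic sets
-/

set_option autoImplicit false

open PowerSeries Pool.Agent.Y113 Pool.Agent.Y120.GF Pool.Agent.Y120.GH

namespace Q207.HM

open Pool.Agent.Y119.HY (Am Jm cm Ep E Ep_eval E_neg Hf Hc Yf Vr Rel Gal E_add E_zero E_mul_neg conj_E)
open Pool.Agent.Y119.HZ (cf Hp cf_Hp ix hf evq PR ev_PR ev_Hp Vx Ix Jx pw sub sub' aeval_sub' aeval_MV' Vn Vn_fin fo dg spec_eq Yt)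

/-- the relations between the entries of the holomorphic part hold on the sets -/
def TorW {m : ℕ} (s : Sys m) (T : ℕ → Set (Matrix (Fin m) (Fin m) ℂ)) : Prop :=
  ∀ t : ℕ, 2 ≤ t → ∀ X ∈ T t, ∀ l : ℂ, ∀ R : MvPolynomial (Fin (m * m)) (Polynomial ℚ), MvPolynomial.aeval s.hf R = 0 →
    MvPolynomial.eval₂ (evq (((1 / (t : ℝ) : ℝ)) : ℂ)) (fun j => (X * E (cm s.N) l) (ix m j).1 (ix m j).2) R = 0

variable {k : ℕ} {n : Fin k → ℕ} {s : ∀ i, Sys (n i)}

theorem relI_vanishW {δ : ℕ} {t : Fin k → ℕ} {Z : ∀ i, Matrix (Fin (n i)) (Fin (n i)) ℂ}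
    (hZ : ∀ i, ∀ R : MvPolynomial (Fin (n i * n i)) (Polynomial ℚ), MvPolynomial.aeval (s i).hf R = 0 →
      MvPolynomial.eval₂ (evq (((1 / (t i : ℝ) : ℝ)) : ℂ)) (fun j => Z i (ix (n i) j).1 (ix (n i) j).2) R = 0) (l : Fin k → ℂ)
    {P : MvPolynomial (Vx n) ℂ} (hP : P ∈ relI δ (fun i => (s i).hf) t) :
    MvPolynomial.aeval (pt (fun i j => Z i (ix (n i) j).1 (ix (n i) j).2) l) P = 0 := by
  set θ := pt (fun i j => Z i (ix (n i) j).1 (ix (n i) j).2) l with hθ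
  have h1 : relI δ (fun i => (s i).hf) t ≤ RingHom.ker (MvPolynomial.aeval (R := ℂ) θ).toRingHom := by
    unfold relI
    rw [Ideal.span_le]
    rintro _ ⟨i, R, -, hR, rfl⟩
    show (MvPolynomial.aeval θ) (MvPolynomial.rename (fun j => (⟨i, some j⟩ : Vx n)) (MvPolynomial.map (spec (t i)) R)) = 0
    rw [MvPolynomial.aeval_rename, MvPolynomial.aeval_def, MvPolynomial.eval₂_map]
    have h2 : (algebraMap ℂ ℂ).comp (spec (t i)) = evq (((1 / (t i : ℝ) : ℝ)) : ℂ) := by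
      rw [← spec_eq]
      rfl
    rw [h2]
    exact hZ i R hR
  exact h1 hP

/-- **Few exceptional tuples.** -/
theorem tuplesW (k δ D : ℕ) (n : Fin k → ℕ) (s : ∀ i, Sys (n i)) (hs : ∀ i, SysOK (s i))
    (T : ∀ i, ℕ → Set (Matrix (Fin (n i)) (Fin (n i)) ℂ)) (hT : ∀ i, TorW (s i) (T i)) :
    ∃ c C : ℝ, 0 < c ∧ 0 ≤ C ∧ ∀ (V : Submodule ℚ ℂ) [Module.Finite ℚ V], Module.finrank ℚ V ≤ D →
      ∀ Ω : (∀ i, Matrix (Fin (n i)) (Fin (n i)) ℂ), ∀ (x : Fin k → ℕ) (N : ℕ), (∀ i, 1 ≤ x i) → 1 ≤ N →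
      ∀ S : Finset (Fin k → ℕ), (∀ t ∈ S, (∀ i, x i < t i ∧ t i ≤ x i + N) ∧ ∃ P : MvPolynomial (Jx n) ℂ,
        P.totalDegree ≤ δ ∧ (∀ s, P.coeff s ∈ V) ∧
        MvPolynomial.aeval (pw (fun i => ((Real.log (t i) : ℝ) : ℂ)) fun i => (s i).Yt (t i) * Ω i) P = 0 ∧
        ∃ (l : Fin k → ℂ) (g : ∀ i, Matrix (Fin (n i)) (Fin (n i)) ℂ), (∀ i, g i ∈ T i (t i)) ∧
          MvPolynomial.aeval (pw l fun i => g i * Ω i) P ≠ 0) →
      (S.card : ℝ) ≤ C * (N : ℝ) ^ (k - 1) * ∑ i, (1 + N / ((x i : ℝ) + N) ^ c) := by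
  classical
  obtain ⟨c, C, hc, hC, hmain⟩ := tuples k (δ * dg n) ((Fintype.card (Option (Ix n))) ^ δ * D) (fun i => n i * n i)
    (fun i => (s i).hf) (fun i => ((hs i).fam (δ * dg n)).1) (fun i => ((hs i).fam _).2)
  refine ⟨c, C, hc, hC, ?_⟩
  intro V _ hV Ω x N hx hN S hS
  obtain ⟨hfin, hrank⟩ := Vn_fin Ω V δ
  refine hmain (Vn Ω V δ) (hrank.trans (Nat.mul_le_mul_left _ hV)) x N hN S fun t htS => ?_
  obtain ⟨hbox, P, hPd, hPV, hP0, l, g, hg, hPg⟩ := hS t htS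
  refine ⟨hbox, MvPolynomial.aeval (sub'N (fun i => (s i).N) Ω) P, (aeval_MV'N _ Ω hPd hPV).2, (aeval_MV'N _ Ω hPd hPV).1, ?_, ?_⟩
  · -- the value
    have h1 : valpt (fun i => (s i).hf) t =
        pt (fun i j => Hf (s i).Hc (((1 / (t i : ℝ) : ℝ)) : ℂ) (ix (n i) j).1 (ix (n i) j).2)
          (fun i => ((Real.log (t i) : ℝ) : ℂ)) := by
      unfold valpt
      congr 1
      funext i j
      exact ev_sys _ _ _ _
    have h2 : MvPolynomial.aeval (valpt (fun i => (s i).hf) t) (MvPolynomial.aeval (sub'N (fun i => (s i).N) Ω) P) =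
        MvPolynomial.aeval (fun v => MvPolynomial.aeval (valpt (fun i => (s i).hf) t) (sub'N (fun i => (s i).N) Ω v)) P :=
      MvPolynomial.aeval_bind₁ _ _ _
    rw [h2, h1]
    have h3 := fun v => aeval_sub'N (fun i => (s i).N) Ω (fun i => Hf (s i).Hc (((1 / (t i : ℝ) : ℝ)) : ℂ)) (fun i => ((Real.log (t i) : ℝ) : ℂ)) v
    simp only [h3]
    exact hP0
  · intro hmem
    apply hPg
    have ht2 : ∀ i, 2 ≤ t i := fun i => by
      have := (hbox i).1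
      have := hx i
      omega
    have h1 := relI_vanishW (s := s) (Z := fun i => g i * E (cm (s i).N) (l i)) (fun i R hR => hT i (t i) (ht2 i) (g i) (hg i) (l i) R hR)
      l hmem
    have h2 : MvPolynomial.aeval (pt (fun i j => (g i * E (cm (s i).N) (l i))
        (ix (n i) j).1 (ix (n i) j).2) l) (MvPolynomial.aeval (sub'N (fun i => (s i).N) Ω) P) =
        MvPolynomial.aeval (fun v => MvPolynomial.aeval (pt (fun i j => (g i * E (cm (s i).N) (l i))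
          (ix (n i) j).1 (ix (n i) j).2) l) (sub'N (fun i => (s i).N) Ω v)) P := MvPolynomial.aeval_bind₁ _ _ _
    rw [h2] at h1
    have h3 := fun v => aeval_sub'N (fun i => (s i).N) Ω (fun i => g i * E (cm (s i).N) (l i)) l v
    simp only [h3] at h1
    have h4 : (fun i => g i * E (cm (s i).N) (l i) * E (cm (s i).N) (-l i) * Ω i) = fun i => g i * Ω i := by
      funext i
      have h5 : E (cm (s i).N) (l i) * E (cm (s i).N) (-l i) = 1 := E_mul_neg (hs i).nilc (l i)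
      rw [Matrix.mul_assoc (g i), h5, Matrix.mul_one]
    rw [h4] at h1
    exact h1

end Q207.HM
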